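import Pool.Agent.NUP1S.Zs
import Pool.Agent.NUCR.Br

/-!
# The logarithms of the factor of a pair of rows: cut height, measurability, bounds on lines

The branches `lgA`, `lgL`, `lgR` are those of `NUCR.Br` (helper78).
-/

set_option autoImplicit false
set_option linter.unusedSectionVars false

noncomputable section

open Complex MeasureTheory

namespace NUP1S

open NUP1 NUP1.Bd
open NUCR (Fr lgA lgL lgR)

theorem l_eq : NUMF.l = NUP1.l := rfl

/-- left branch up to the height `tc`, right branch above -/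
def lgc (tc : ℝ) (u : ℂ) : ℂ := if u.im ≤ tc then lgL u else lgR u

theorem exp_lgc (tc : ℝ) {u : ℂ} (h0 : -(3 * l) < u.re) (h1 : u.re < 0) :
    exp (lgc tc u) = Fr u := by
  have h0' : -3 * NUMF.l < u.re := by
    rw [l_eq]
    linarith
  unfold lgc
  split_ifs
  · exact NUCR.exp_lgL h0' h1
  · exact NUCR.exp_lgR h0' h1

theorem measurable_ls : Measurable NUCR.ls := Complex.measurable_log.comp Complex.measurable_sin

theorem measurable_lgA : Measurable lgA := by
  have h := measurable_ls
  unfold NUCR.lgA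
  exact (((h.comp (measurable_id.add_const _)).const_mul 2).sub h).sub
    (h.comp (measurable_const.sub measurable_id))

theorem measurable_lgL : Measurable lgL := by
  have h := measurable_ls
  unfold NUCR.lgL
  exact ((((h.comp (measurable_id.add_const _)).const_mul 2).sub (h.comp measurable_neg)).sub
    (h.comp (measurable_const.sub measurable_id))).add_const _

theorem measurable_lgR : Measurable lgR := measurable_lgL.sub_const _

theorem measurable_lgc (tc : ℝ) : Measurable (lgc tc) := by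
  unfold lgc
  refine Measurable.ite ?_ measurable_lgL measurable_lgR
  exact measurableSet_le Complex.measurable_im measurable_const

theorem pt_of (u : ℂ) {d : ℝ} (h : u.re = d) : u = NUCR.pt (1 - d / l) u.im := by
  have hl := lpos
  apply Complex.ext
  · rw [NUCR.pt_re, h, l_eq]
    field_simp
    ring
  · simp [NUCR.pt]

theorem bdOn_lgA {d : ℝ} (h0 : 0 < d) (h2 : d < 2 * l) : BdOn {d} lgA := by
  have hl := lpos
  obtain ⟨C, hC, h⟩ := NUCR.lgA_bound (j := 1 - d / l)
    (by rw [lt_sub_comm, div_lt_iff₀ hl]; linarith)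
    (by have := div_pos h0 hl; linarith)
  refine ⟨C, fun z hz => ?_⟩
  rw [pt_of z hz]
  refine (h _).trans ?_
  have : Real.exp (-2 * |z.im|) ≤ 1 := Real.exp_le_one_iff.2 (by nlinarith [abs_nonneg z.im])
  nlinarith

theorem norm_two_pi_I : ‖(2 * Real.pi * I : ℂ)‖ = 2 * Real.pi := by
  rw [norm_mul, norm_mul, norm_I, mul_one, Complex.norm_ofNat, norm_real, Real.norm_eq_abs,
    abs_of_pos Real.pi_pos]

theorem bdOn_lgLR {d : ℝ} (h3 : -(3 * l) < d) (h0 : d < 0) : ∃ C : ℝ, ∀ z : ℂ, z.re = d →
    ‖lgL z‖ ≤ C ∧ ‖lgR z‖ ≤ C := by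
  have hl := lpos
  obtain ⟨C, hC, h1, h2⟩ := NUCR.lgL_bound (j := 1 - d / l)
    (by have := div_neg_of_neg_of_pos h0 hl; linarith)
    (by
      have : -3 < d / l := by rw [lt_div_iff₀ hl]; linarith
      linarith)
  have e1 : ∀ z : ℂ, Real.exp (-2 * |z.im|) ≤ 1 := fun z =>
    Real.exp_le_one_iff.2 (by nlinarith [abs_nonneg z.im])
  refine ⟨C + 2 * Real.pi, fun z hz => ?_⟩
  have hp := pt_of z hz
  have hLR : lgR z = lgL z - 2 * Real.pi * I := rfl
  have hRL : lgL z = lgR z + 2 * Real.pi * I := by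
    rw [hLR]
    ring
  have hpi := Real.pi_pos
  rcases le_total z.im 0 with hz0 | hz0
  · have h4 : ‖lgL z‖ ≤ C := by
      rw [hp]
      refine (h1 _ hz0).trans ?_
      have := e1 z
      nlinarith
    refine ⟨by linarith, ?_⟩
    rw [hLR]
    refine (norm_sub_le _ _).trans ?_
    rw [norm_two_pi_I]
    linarith
  · have h4 : ‖lgR z‖ ≤ C := by
      rw [hp]
      refine (h2 _ hz0).trans ?_
      have := e1 z
      nlinarith
    refine ⟨?_, by linarith⟩
    rw [hRL]
    refine (norm_add_le _ _).trans ?_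
    rw [norm_two_pi_I]
    linarith

theorem bdOn_lgc (tc : ℝ) {d : ℝ} (h3 : -(3 * l) < d) (h0 : d < 0) : BdOn {d} (lgc tc) := by
  obtain ⟨C, h⟩ := bdOn_lgLR h3 h0
  refine ⟨C, fun z hz => ?_⟩
  unfold lgc
  split_ifs
  · exact (h z hz).1
  · exact (h z hz).2

theorem lgA_diff {u : ℂ} (h0 : 0 < u.re) (h2 : u.re < 2 * l) : DifferentiableAt ℂ lgA u := by
  have hl := lpos
  have hpi := Bd.pi_eq
  have d1 : DifferentiableAt ℂ NUCR.ls (u + 3 * l) :=
    (NUCR.hasDerivAt_ls (by simp; linarith) (by simp; linarith)).differentiableAt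
  have d2 : DifferentiableAt ℂ NUCR.ls u :=
    (NUCR.hasDerivAt_ls h0 (by linarith)).differentiableAt
  have d3 : DifferentiableAt ℂ NUCR.ls (2 * l - u) :=
    (NUCR.hasDerivAt_ls (by simp; linarith) (by simp; linarith)).differentiableAt
  have e1 : DifferentiableAt ℂ (fun u : ℂ => NUCR.ls (u + 3 * l)) u :=
    DifferentiableAt.comp (g := NUCR.ls) u d1 (by fun_prop)
  have e3 : DifferentiableAt ℂ (fun u : ℂ => NUCR.ls (2 * l - u)) u :=
    DifferentiableAt.comp (g := NUCR.ls) u d3 (by fun_prop)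
  exact ((e1.const_mul 2).sub d2).sub e3

end NUP1S

end
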