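import Pool.Agent.NUP1.Integ
import Pool.Agent.NUP1.LineRes

/-!
# Gases of quanta of two species on contours: nested integrals

A contour has a species, a weight and a path.  `NI pl L g` is the nested integral over the contours
of the list `L`, with one body weights `g s u / ∏ p ∈ pl s, sin (u - p) ^ 2` (`g` regular, `pl s` the
double poles seen by the species `s`) and pair weights `PP`.
In the class `Reg` it does not depend on the order of the contours, and a contour can be replaced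
by a sum of contours.
-/

set_option autoImplicit false
set_option linter.unusedSectionVars false

noncomputable section

open Complex MeasureTheory NUP1 NUP1.Bd
open NUP1.Grand (f add P P_succAbove)

namespace NUP1S

/-! ## Fubini for the product integrand -/

section Fub
variable {κ E : Type*} [MeasurableSpace E] (μ : Measure E) [SigmaFinite μ]
  (pw : κ → κ → E → E → ℂ)

theorem f_insertNth {r : ℕ} (hsym : ∀ k k' t t', pw k k' t t' = pw k' k t' t)
    (k : Fin (r + 1) → κ) (h : κ → E → ℂ) (i : Fin (r + 1)) (t : Fin (r + 1) → E) :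
    f pw k h t = h (k i) (t i) *
      f pw (fun j => k (i.succAbove j)) (add pw h (k i) (t i)) (fun j => t (i.succAbove j)) := by
  unfold f add
  rw [Fin.prod_univ_succAbove _ i, P_succAbove _ (fun a b => hsym _ _ _ _) i,
    Finset.prod_mul_distrib]
  ring

theorem fubini {r : ℕ} (hsym : ∀ k k' t t', pw k k' t t' = pw k' k t' t)
    (k : Fin (r + 1) → κ) (h : κ → E → ℂ) (i : Fin (r + 1))
    (hI : Integrable (f pw k h) (Measure.pi fun _ => μ)) :
    Grand.I μ pw k h = ∫ t0, h (k i) t0 * Grand.I μ pw (fun j => k (i.succAbove j)) (add pw h (k i) t0) ∂μ ∧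
    Integrable (fun t0 => h (k i) t0 *
      Grand.I μ pw (fun j => k (i.succAbove j)) (add pw h (k i) t0)) μ := by
  have mp := (measurePreserving_piFinSuccAbove (fun _ : Fin (r + 1) => μ) i).symm
  have he : ∀ p : E × (Fin r → E),
      f pw k h ((MeasurableEquiv.piFinSuccAbove (fun _ => E) i).symm p) =
      h (k i) p.1 * f pw (fun j => k (i.succAbove j)) (add pw h (k i) p.1) p.2 := by
    intro p
    rw [f_insertNth pw hsym k h i]
    simp [MeasurableEquiv.piFinSuccAbove_symm_apply, Fin.insertNthEquiv]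
  have hI2 : Integrable (fun p : E × (Fin r → E) =>
      h (k i) p.1 * f pw (fun j => k (i.succAbove j)) (add pw h (k i) p.1) p.2)
      (μ.prod (Measure.pi fun _ => μ)) := by
    have := (mp.integrable_comp_emb (MeasurableEquiv.measurableEmbedding _)).2 hI
    refine this.congr (Filter.Eventually.of_forall fun p => ?_)
    exact he p
  refine ⟨?_, ?_⟩
  · unfold Grand.I
    rw [← mp.integral_comp']
    simp_rw [he]
    rw [integral_prod _ hI2]
    simp_rw [integral_const_mul]
  · have := hI2.integral_prod_left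
    simp_rw [integral_const_mul] at this
    exact this

end Fub

/-! ## contours, one body data -/

/-- a contour: species, weight, path -/
structure Ct where
  sp : Bool
  om : ℝ → ℂ
  pos : ℝ → ℂ

/-- pair weight of two quanta -/
def PP (s s' : Bool) (z : ℂ) : ℂ := if s = s' then q z else qg z

/-- one body data in the presence of one more quantum -/
def ad (g : Bool → ℂ → ℂ) (s0 : Bool) (z0 : ℂ) : Bool → ℂ → ℂ :=
  fun s u => g s u * PP s s0 (u - z0)

/-- one body weight with its double poles -/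
def Wt (pl : Bool → Finset ℂ) (g : Bool → ℂ → ℂ) (s : Bool) (u : ℂ) : ℂ :=
  g s u / ∏ p ∈ pl s, sin (u - p) ^ 2

/-- weight of a quantum on a contour -/
def hh (pl : Bool → Finset ℂ) (g : Bool → ℂ → ℂ) (c : Ct) (t : ℝ) : ℂ :=
  c.om t * Wt pl g c.sp (c.pos t)

/-- pair weight on contours -/
def pwc (c c' : Ct) (t t' : ℝ) : ℂ := PP c.sp c'.sp (c.pos t - c'.pos t')

/-- The nested integral. -/
def NI (pl : Bool → Finset ℂ) : List Ct → (Bool → ℂ → ℂ) → ℂ
  | [], _ => 1
  | c :: L, g => ∫ t, hh pl g c t * NI pl L (ad g c.sp (c.pos t))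

theorem qg_neg' (z : ℂ) : qg (-z) = qg z := by
  unfold qg
  have h1 : sin (-z + 3 * l) = -sin (z - 3 * l) := by
    rw [← sin_neg]
    congr 1
    ring
  have h2 : sin (-z - 3 * l) = -sin (z + 3 * l) := by
    rw [← sin_neg]
    congr 1
    ring
  rw [cos_neg, h1, h2]
  ring

theorem PP_neg (s s' : Bool) (z : ℂ) : PP s s' (-z) = PP s s' z := by
  unfold PP
  rw [q_neg, qg_neg']

theorem PP_comm (s s' : Bool) (z : ℂ) : PP s s' z = PP s' s z := by
  unfold PP
  by_cases h : s = s'
  · rw [if_pos h, if_pos h.symm]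
  · rw [if_neg h, if_neg (fun h' => h h'.symm)]

theorem pwc_symm (c c' : Ct) (t t' : ℝ) : pwc c c' t t' = pwc c' c t' t := by
  unfold pwc
  rw [PP_comm, ← PP_neg, neg_sub]

theorem hh_ad (pl : Bool → Finset ℂ) (g : Bool → ℂ → ℂ) (c0 : Ct) (t0 : ℝ) :
    hh pl (ad g c0.sp (c0.pos t0)) = add pwc (hh pl g) c0 t0 := by
  funext c t
  unfold hh add pwc Wt ad
  ring

theorem ad_comm (g : Bool → ℂ → ℂ) (s s' : Bool) (z z' : ℂ) :
    ad (ad g s z) s' z' = ad (ad g s' z') s z := by
  funext r u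
  unfold ad
  ring

/-! ## the class of one body data -/

/-- charge of a species -/
def sg (s : Bool) : ℤ := if s then 1 else -1

theorem sg_sq (s : Bool) : sg s * sg s = 1 := by cases s <;> simp [sg]

/-- regular one body data for a gas of charge `Q` on the strip `a ≤ re u ≤ b` -/
structure Reg (pl : Bool → Finset ℂ) (κ a b : ℝ) (Q : ℤ) (g : Bool → ℂ → ℂ) : Prop where
  meas : ∀ s, Measurable (g s)
  diff : ∀ s u, a ≤ u.re → u.re ≤ b → DifferentiableAt ℂ (g s) u
  bd : ∃ D : ℝ, 0 ≤ D ∧ ∀ s u, a ≤ u.re → u.re ≤ b →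
    ‖g s u‖ ≤ D * Real.exp (-((κ + 2 * (sg s * Q : ℤ) - 2 * (pl s).card) * |u.im|))

/-- admissible contour -/
structure OkC (pl : Bool → Finset ℂ) (κ a b : ℝ) (c : Ct) : Prop where
  mom : Measurable c.om
  mpos : Measurable c.pos
  re1 : ∀ t, a ≤ (c.pos t).re
  re2 : ∀ t, (c.pos t).re ≤ b
  away : ∃ δ : ℝ, 0 < δ ∧ ∀ t, ∀ p ∈ pl c.sp, δ ≤ ‖c.pos t - p‖
  int : Integrable fun t => ‖c.om t‖ * Real.exp (-(κ * |(c.pos t).im|))

/-- the geometry: strip of width `< l`, poles inside -/
structure Geo (pl : Bool → Finset ℂ) (κ a b : ℝ) : Prop where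
  kpos : 0 < κ
  ab : a ≤ b
  wd : b - a < l
  pin : ∀ s, ∀ p ∈ pl s, a ≤ p.re ∧ p.re ≤ b

/-! ### bounds of the pair weights on the strip -/

theorem sin_lb {x y : ℝ} (h1 : l - y ≤ x) (h2 : x ≤ 7 * l + y) (hy : 0 ≤ y) (hyl : y < l) :
    Real.sin (l - y) ≤ Real.sin x := by
  have hl := Bd.l_pos
  have hpi := Bd.pi_eq
  rcases le_total x (Real.pi / 2) with h | h
  · exact Real.sin_le_sin_of_le_of_le_pi_div_two (by linarith) h h1
  · have e : Real.sin x = Real.sin (Real.pi - x) := (Real.sin_pi_sub x).symm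
    rw [e]
    exact Real.sin_le_sin_of_le_of_le_pi_div_two (by linarith) (by linarith) (by linarith)

theorem sin_lb_pos {y : ℝ} (hy : 0 ≤ y) (hyl : y < l) : 0 < Real.sin (l - y) :=
  Bd.sin_pos_of (by linarith) (by linarith [Bd.l_pos])

/-- bound of the pair weights in a strip of differences -/
theorem PP_bound {w : ℝ} (hw0 : 0 ≤ w) (hw : w < l) : ∃ C : ℝ, 1 ≤ C ∧ ∀ (s s' : Bool) (z : ℂ),
    |z.re| ≤ w → ‖PP s s' z‖ ≤ C * Real.exp (2 * ((sg s * sg s' : ℤ) * |z.im|)) := by
  have hl := Bd.l_pos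
  obtain ⟨c, hc⟩ : ∃ c, c = Real.sin (l - w) := ⟨_, rfl⟩
  have hc0 : 0 < c := hc ▸ sin_lb_pos hw0 hw
  have hc1 : c ≤ 1 := hc ▸ Real.sin_le_one _
  have hci : 1 ≤ c⁻¹ := (one_le_inv₀ hc0).2 hc1
  have key : ∀ x : ℝ, l - w ≤ x → x ≤ 7 * l + w → c ≤ |Real.sin x| := fun x h1 h2 =>
    (hc ▸ sin_lb h1 h2 hw0 hw : c ≤ Real.sin x).trans (le_abs_self _)
  have key' : ∀ x : ℝ, x ≤ -(l - w) → -(7 * l + w) ≤ x → c ≤ |Real.sin x| := fun x h1 h2 => by
    have := key (-x) (by linarith) (by linarith)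
    rwa [Real.sin_neg, abs_neg] at this
  refine ⟨4 * (c⁻¹) ^ 4, ?_, fun s s' z hz => ?_⟩
  · have := one_le_pow₀ (n := 4) hci
    linarith
  · obtain ⟨hz1, hz2⟩ := abs_le.1 hz
    have b1 : ‖q z‖ ≤ 4 * (c⁻¹) ^ 4 * Real.exp (2 * |z.im|) := by
      have h1 := q_bound z hc0 (key _ (by linarith) (by linarith)) (key' _ (by linarith) (by linarith))
      have h2 := Bd.cosh_pow_le z.im 2
      push_cast at h2
      have h3 : (c⁻¹) ^ 2 ≤ 4 * (c⁻¹) ^ 4 := by
        have : (c⁻¹) ^ 2 ≤ (c⁻¹) ^ 4 := pow_le_pow_right₀ hci (by norm_num)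
        nlinarith [sq_nonneg ((c⁻¹) ^ 2)]
      exact h1.trans (mul_le_mul h3 h2 (by positivity) (by positivity))
    have b2 : ‖qg z‖ ≤ 4 * (c⁻¹) ^ 4 * Real.exp (-(2 * |z.im|)) := by
      have h1 := qg_bound z hc0 (key _ (by linarith) (by linarith)) (key' _ (by linarith) (by linarith))
      have h3 : (Real.cosh z.im ^ 2)⁻¹ ≤ 4 * Real.exp (-(2 * |z.im|)) := by
        have h4 := exp_le_cosh z.im
        rw [Real.exp_neg, show 2 * |z.im| = |z.im| + |z.im| by ring, Real.exp_add,
          ← div_eq_mul_inv, inv_eq_one_div, div_le_div_iff₀ (by positivity) (by positivity)]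
        nlinarith [Real.exp_pos |z.im|, Real.cosh_pos z.im]
      calc _ ≤ (c⁻¹) ^ 4 * (4 * Real.exp (-(2 * |z.im|))) :=
            h1.trans (mul_le_mul_of_nonneg_left h3 (by positivity))
        _ = _ := by ring
    unfold PP
    cases s <;> cases s' <;> simp only [sg, if_true, if_false, reduceCtorEq, Bool.false_eq_true]
    · refine b1.trans (le_of_eq ?_)
      norm_num
    · refine b2.trans (le_of_eq ?_)
      norm_num
    · refine b2.trans (le_of_eq ?_)
      norm_num
    · refine b1.trans (le_of_eq ?_)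
      norm_num

theorem sin_ne_strip {z : ℂ} (h1 : 0 < z.re) (h2 : z.re < Real.pi) : sin z ≠ 0 := by
  intro h
  have := Bd.le_norm_sin z
  rw [h, norm_zero] at this
  have h3 : 0 < |Real.sin z.re| := abs_pos.2 (Real.sin_pos_of_pos_of_lt_pi h1 h2).ne'
  have := mul_pos h3 (Real.cosh_pos z.im)
  linarith

theorem sin_ne_strip' {z : ℂ} (h1 : -Real.pi < z.re) (h2 : z.re < 0) : sin z ≠ 0 := by
  have := sin_ne_strip (z := -z) (by simpa using h2) (by simp; linarith)
  rwa [sin_neg, neg_ne_zero] at this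

theorem PP_diff (s s' : Bool) {z : ℂ} (h : |z.re| < l) : DifferentiableAt ℂ (PP s s') z := by
  have hl := Bd.l_pos
  have hpi := Bd.pi_eq
  obtain ⟨h1, h2⟩ := abs_lt.1 h
  have n1 : sin (z + l) ≠ 0 := sin_ne_strip (by simp; linarith) (by simp; linarith)
  have n2 : sin (z - l) ≠ 0 := sin_ne_strip' (by simp; linarith) (by simp; linarith)
  have n3 : sin (z + 3 * l) ≠ 0 := sin_ne_strip (by simp; linarith) (by simp; linarith)
  have n4 : sin (z - 3 * l) ≠ 0 := sin_ne_strip' (by simp; linarith) (by simp; linarith)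
  have e : PP s s' = if s = s' then q else qg := by
    funext u
    unfold PP
    split_ifs <;> rfl
  rw [e]
  split_ifs
  · unfold q
    refine DifferentiableAt.div (by fun_prop) (by fun_prop) (mul_ne_zero n1 n2)
  · unfold qg
    refine DifferentiableAt.div (by fun_prop) (by fun_prop) (mul_ne_zero (pow_ne_zero 2 n3) (pow_ne_zero 2 n4))

theorem measurable_PP (s s' : Bool) : Measurable (PP s s') := by
  have e : PP s s' = if s = s' then q else qg := by
    funext u
    unfold PP
    split_ifs <;> rfl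
  rw [e]
  split_ifs
  · exact measurable_q
  · exact measurable_qg

theorem re_sub_le {a b : ℝ} {u z : ℂ} (hu1 : a ≤ u.re) (hu2 : u.re ≤ b) (hz1 : a ≤ z.re)
    (hz2 : z.re ≤ b) : |(u - z).re| ≤ b - a := by
  rw [sub_re, abs_le]
  constructor <;> linarith

theorem Reg.ad {pl : Bool → Finset ℂ} {κ a b : ℝ} {Q : ℤ} {g : Bool → ℂ → ℂ} (G : Geo pl κ a b)
    (h : Reg pl κ a b Q g) (s0 : Bool) {z0 : ℂ} (hz1 : a ≤ z0.re) (hz2 : z0.re ≤ b) :
    Reg pl κ a b (Q - sg s0) (NUP1S.ad g s0 z0) := by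
  obtain ⟨C, hC, hb⟩ := PP_bound (sub_nonneg.2 G.ab) G.wd
  obtain ⟨D, hD, hg⟩ := h.bd
  refine ⟨fun s => ?_, fun s u h1 h2 => ?_, D * (C * Real.exp (2 * |z0.im|)), by positivity,
    fun s u h1 h2 => ?_⟩
  · exact (h.meas s).mul ((measurable_PP s s0).comp (measurable_id.sub_const z0))
  · unfold NUP1S.ad
    refine (h.diff s u h1 h2).mul ?_
    have := PP_diff s s0 (z := u - z0) ((re_sub_le h1 h2 hz1 hz2).trans_lt G.wd)
    exact this.comp u (differentiableAt_id.sub_const z0)
  · unfold NUP1S.ad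
    rw [norm_mul]
    have b1 := hg s u h1 h2
    have b2 := hb s s0 (u - z0) (re_sub_le h1 h2 hz1 hz2)
    calc _ ≤ (D * Real.exp (-((κ + 2 * (sg s * Q : ℤ) - 2 * (pl s).card) * |u.im|))) *
          (C * Real.exp (2 * ((sg s * sg s0 : ℤ) * |(u - z0).im|))) :=
          mul_le_mul b1 b2 (norm_nonneg _) (by positivity)
      _ = D * C * Real.exp (-((κ + 2 * (sg s * Q : ℤ) - 2 * (pl s).card) * |u.im|) +
          2 * ((sg s * sg s0 : ℤ) * |(u - z0).im|)) := by
          rw [Real.exp_add]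
          ring
      _ ≤ D * C * Real.exp (2 * |z0.im| +
          -((κ + 2 * (sg s * (Q - sg s0) : ℤ) - 2 * (pl s).card) * |u.im|)) := by
          have hDC : 0 ≤ D * C := mul_nonneg hD (zero_le_one.trans hC)
          refine mul_le_mul_of_nonneg_left (Real.exp_le_exp.2 ?_) hDC
          have a1 : |(u - z0).im| ≤ |u.im| + |z0.im| := by rw [sub_im]; exact abs_sub _ _
          have a2 : |u.im| ≤ |(u - z0).im| + |z0.im| := by
            have := abs_add_le (u - z0).im z0.im
            rwa [sub_im, sub_add_cancel, ← sub_im] at this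
          push_cast
          cases s <;> cases s0 <;> simp only [sg, if_true, if_false, Bool.false_eq_true] <;>
            push_cast <;> nlinarith
      _ = _ := by
          rw [Real.exp_add]
          ring

/-! ### the sine away from its zero -/

theorem sin_lower {δ w : ℝ} (hδ : 0 < δ) (hw : w < l) : ∃ m : ℝ, 0 < m ∧ ∀ z : ℂ, |z.re| ≤ w →
    δ ≤ ‖z‖ → m * Real.exp |z.im| ≤ ‖sin z‖ := by
  have hl := Bd.l_pos
  have hpi := Bd.pi_eq
  have hpi0 := Real.pi_pos
  refine ⟨min (1 / 4) (2 * δ / (3 * Real.pi)), by positivity, fun z hz hd => ?_⟩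
  rcases le_total 1 |z.im| with h | h
  · calc _ ≤ 1 / 4 * Real.exp |z.im| :=
          mul_le_mul_of_nonneg_right (min_le_left _ _) (Real.exp_pos _).le
      _ ≤ ‖sin z‖ := by
          have := exp_le_norm_sin h
          linarith
  · have e1 : ‖z‖ ^ 2 = z.re ^ 2 + z.im ^ 2 := by
      rw [← Complex.normSq_eq_norm_sq, Complex.normSq_apply]
      ring
    have e2 := Bd.norm_sin_sq z
    have hx : 2 / Real.pi * |z.re| ≤ |Real.sin z.re| := by
      have h0 : |z.re| ≤ Real.pi / 2 := by linarith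
      exact Real.mul_abs_le_abs_sin h0
    have hy : |z.im| ≤ |Real.sinh z.im| := by
      rw [Real.abs_sinh]
      exact Real.self_le_sinh_iff.2 (abs_nonneg _)
    have h2pi : 2 / Real.pi ≤ 1 := by
      rw [div_le_one hpi0]
      exact Real.two_le_pi
    have h2pi0 : 0 < 2 / Real.pi := by positivity
    have k1 : (2 / Real.pi) ^ 2 * ‖z‖ ^ 2 ≤ ‖sin z‖ ^ 2 := by
      rw [e1, e2]
      have hx2 := mul_self_le_mul_self (by positivity) hx
      have hy2 := mul_self_le_mul_self (abs_nonneg _) hy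
      rw [abs_mul_abs_self] at hx2 hy2
      rw [abs_mul_abs_self] at hy2
      have hx3 : 2 / Real.pi * |z.re| * (2 / Real.pi * |z.re|) = (2 / Real.pi) ^ 2 * z.re ^ 2 := by
        rw [← sq_abs z.re]
        ring
      rw [hx3] at hx2
      have h5 : (2 / Real.pi) ^ 2 ≤ 1 := pow_le_one₀ h2pi0.le h2pi
      nlinarith [mul_nonneg (sub_nonneg.2 h5) (sq_nonneg z.im)]
    have k2 : 2 / Real.pi * ‖z‖ ≤ ‖sin z‖ := by
      refine le_of_sq_le_sq ?_ (norm_nonneg _)
      rwa [mul_pow]
    have k3 : Real.exp |z.im| ≤ 3 := by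
      have := Real.exp_le_exp.2 h
      have := Real.exp_one_lt_d9
      linarith
    calc _ ≤ 2 * δ / (3 * Real.pi) * 3 :=
          mul_le_mul (min_le_right _ _) k3 (Real.exp_pos _).le (by positivity)
      _ = 2 / Real.pi * δ := by
          field_simp
      _ ≤ 2 / Real.pi * ‖z‖ := mul_le_mul_of_nonneg_left hd h2pi0.le
      _ ≤ _ := k2

theorem prod_lower {pl : Finset ℂ} {δ a b : ℝ} (hδ : 0 < δ) (hab : b - a < l)
    (hpl : ∀ p ∈ pl, a ≤ p.re ∧ p.re ≤ b) : ∃ m : ℝ, 0 < m ∧ ∀ u : ℂ, a ≤ u.re → u.re ≤ b →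
    (∀ p ∈ pl, δ ≤ ‖u - p‖) → m * Real.exp (2 * pl.card * |u.im|) ≤ ‖∏ p ∈ pl, sin (u - p) ^ 2‖ := by
  obtain ⟨m, hm, h⟩ := sin_lower hδ hab
  refine ⟨∏ p ∈ pl, (m * Real.exp (-|p.im|)) ^ 2, Finset.prod_pos fun p _ => by positivity,
    fun u h1 h2 hu => ?_⟩
  rw [norm_prod]
  have e : Real.exp (2 * pl.card * |u.im|) = ∏ _p ∈ pl, Real.exp |u.im| ^ 2 := by
    rw [Finset.prod_const, ← pow_mul, ← Real.exp_nat_mul]
    congr 1
    push_cast
    ring
  rw [e, ← Finset.prod_mul_distrib]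
  refine Finset.prod_le_prod (fun p _ => by positivity) fun p hp => ?_
  rw [← mul_pow, norm_pow]
  refine pow_le_pow_left₀ (by positivity) ?_ 2
  refine le_trans ?_ (h (u - p) (re_sub_le h1 h2 (hpl p hp).1 (hpl p hp).2) (hu p hp))
  rw [mul_assoc, ← Real.exp_add]
  refine mul_le_mul_of_nonneg_left (Real.exp_le_exp.2 ?_) hm.le
  rw [sub_im]
  have := abs_sub_abs_le_abs_sub u.im p.im
  linarith

/-- bound of the one body weight on an admissible contour -/
theorem Wt_bound {pl : Bool → Finset ℂ} {κ a b : ℝ} {Q : ℤ} {g : Bool → ℂ → ℂ} (G : Geo pl κ a b)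
    (h : Reg pl κ a b Q g) {c : Ct} (hc : OkC pl κ a b c) : ∃ D : ℝ, 0 ≤ D ∧ ∀ t,
    ‖Wt pl g c.sp (c.pos t)‖ ≤
      D * Real.exp (-((κ + 2 * (sg c.sp * Q : ℤ)) * |(c.pos t).im|)) := by
  obtain ⟨δ, hδ, hdel⟩ := hc.away
  obtain ⟨m, hm, hml⟩ := prod_lower hδ G.wd (G.pin c.sp)
  obtain ⟨D, hD, hg⟩ := h.bd
  refine ⟨D / m, by positivity, fun t => ?_⟩
  have h1 := hg c.sp (c.pos t) (hc.re1 t) (hc.re2 t)
  have h2 := hml (c.pos t) (hc.re1 t) (hc.re2 t) (hdel t)
  unfold Wt
  rw [norm_div]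
  have hpos : 0 < m * Real.exp (2 * (pl c.sp).card * |(c.pos t).im|) := by positivity
  refine (div_le_div₀ (by positivity) h1 hpos h2).trans (le_of_eq ?_)
  rw [mul_div_mul_comm, ← Real.exp_sub]
  congr 2
  ring

/-! ### integrability -/

theorem measurable_hh {pl : Bool → Finset ℂ} {κ a b : ℝ} {Q : ℤ} {g : Bool → ℂ → ℂ}
    (h : Reg pl κ a b Q g) {c : Ct} (hc : OkC pl κ a b c) : Measurable (hh pl g c) := by
  unfold hh Wt
  refine hc.mom.mul ((h.meas c.sp).comp hc.mpos |>.div ?_)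
  refine Finset.measurable_prod _ fun p _ => ?_
  exact (Complex.measurable_sin.comp (hc.mpos.sub_const p)).pow_const 2

/-- neutral energy inequality with a charge at the origin -/
theorem energy_origin {r : ℕ} (c : Fin r → ℝ) (y : Fin r → ℝ) :
    ∑ i, ∑ j, c i * c j * |y i - y j| ≤ 2 * (∑ i, c i) * ∑ i, c i * |y i| := by
  obtain ⟨T, hT⟩ : ∃ T, T = ∑ i, c i := ⟨_, rfl⟩
  have := energy_nonpos (Finset.univ : Finset (Option (Fin r)))
    (fun o => o.elim (-T) c) (fun o => o.elim 0 y) (by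
      rw [Fintype.sum_option]
      simp [hT])
  rw [Fintype.sum_option] at this
  simp only [Fintype.sum_option, Option.elim_none, Option.elim_some, sub_zero, zero_sub, abs_neg,
    Finset.sum_add_distrib, abs_zero, mul_zero, zero_add] at this
  have e1 : ∑ i, -T * c i * |y i| = -(T * ∑ i, c i * |y i|) := by
    rw [Finset.mul_sum, ← Finset.sum_neg_distrib]
    exact Finset.sum_congr rfl fun i _ => by ring
  have e2 : ∑ i, c i * -T * |y i| = -(T * ∑ i, c i * |y i|) := by
    rw [Finset.mul_sum, ← Finset.sum_neg_distrib]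
    exact Finset.sum_congr rfl fun i _ => by ring
  rw [e1, e2] at this
  rw [← hT]
  linarith

theorem integrable_f {pl : Bool → Finset ℂ} {κ a b : ℝ} {g : Bool → ℂ → ℂ} (G : Geo pl κ a b)
    {r : ℕ} (k : Fin r → Ct) (hk : ∀ i, OkC pl κ a b (k i))
    (h : Reg pl κ a b (∑ i, sg (k i).sp) g) :
    Integrable (f pwc k (hh pl g)) (Measure.pi fun _ => volume) := by
  obtain ⟨C, hC, hb⟩ := PP_bound (sub_nonneg.2 G.ab) G.wd
  choose D hD hW using fun i => Wt_bound G h (hk i)
  have i1 : Integrable (fun t : Fin r → ℝ =>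
      ∏ i, (‖(k i).om (t i)‖ * Real.exp (-(κ * |((k i).pos (t i)).im|))))
      (Measure.pi fun _ => volume) :=
    Integrable.fintype_prod (f := fun i t => ‖(k i).om t‖ * Real.exp (-(κ * |((k i).pos t).im|)))
      fun i => (hk i).int
  refine (i1.const_mul ((∏ i, D i) * C ^ (r * r))).mono' ?_ (Filter.Eventually.of_forall fun t => ?_)
  · refine Measurable.aestronglyMeasurable ?_
    unfold f
    refine Measurable.mul ?_ ?_
    · exact Finset.measurable_prod _ fun i _ =>
        (measurable_hh h (hk i)).comp (measurable_pi_apply i)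
    · refine measurable_P (fun i j (t : Fin r → ℝ) => pwc (k i) (k j) (t i) (t j)) ?_
      intro i j
      exact (measurable_PP _ _).comp (((hk i).mpos.comp (measurable_pi_apply i)).sub
        ((hk j).mpos.comp (measurable_pi_apply j)))
  · set y : Fin r → ℝ := fun i => ((k i).pos (t i)).im with hy
    set Q : ℤ := ∑ i, sg (k i).sp with hQ
    have b1 : ‖∏ i, hh pl g (k i) (t i)‖ ≤ ∏ i, (‖(k i).om (t i)‖ *
        (D i * Real.exp (-((κ + 2 * (sg (k i).sp * Q : ℤ)) * |y i|)))) := by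
      rw [norm_prod]
      refine Finset.prod_le_prod (fun i _ => norm_nonneg _) fun i _ => ?_
      unfold hh
      rw [norm_mul]
      exact mul_le_mul_of_nonneg_left (hW i (t i)) (norm_nonneg _)
    have b2 : ‖P fun i j => pwc (k i) (k j) (t i) (t j)‖ ≤
        C ^ (r * r) * Real.exp (∑ i, ∑ j, (sg (k i).sp : ℝ) * (sg (k j).sp) * |y i - y j|) := by
      refine P_norm_le _ (fun i j => (sg (k i).sp : ℝ) * (sg (k j).sp) * |y i - y j|) (fun i j => ?_)
        (fun i => by simp) hC fun i j => ?_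
      · rw [abs_sub_comm]
        ring
      · have := hb (k i).sp (k j).sp ((k i).pos (t i) - (k j).pos (t j))
          (re_sub_le ((hk i).re1 _) ((hk i).re2 _) ((hk j).re1 _) ((hk j).re2 _))
        refine this.trans (le_of_eq ?_)
        rw [sub_im]
        push_cast
        rfl
    have b3 := energy_origin (fun i => (sg (k i).sp : ℝ)) y
    have hQ' : (∑ i, (sg (k i).sp : ℝ)) = (Q : ℝ) := by
      rw [hQ]
      push_cast
      rfl
    rw [hQ'] at b3
    unfold f
    rw [norm_mul]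
    have hD0 : 0 ≤ ∏ i, D i := Finset.prod_nonneg fun i _ => hD i
    have hC0 : 0 ≤ C ^ (r * r) := pow_nonneg (zero_le_one.trans hC) _
    calc _ ≤ (∏ i, (‖(k i).om (t i)‖ * (D i * Real.exp (-((κ + 2 * (sg (k i).sp * Q : ℤ)) * |y i|))))) *
          (C ^ (r * r) * Real.exp (∑ i, ∑ j, (sg (k i).sp : ℝ) * (sg (k j).sp) * |y i - y j|)) :=
          mul_le_mul b1 b2 (norm_nonneg _) (Finset.prod_nonneg fun i _ => by
            have := hD i
            positivity)
      _ = ((∏ i, D i) * C ^ (r * r)) *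
          ((∏ i, (‖(k i).om (t i)‖ * Real.exp (-(κ * |y i|)))) *
            Real.exp (∑ i, ∑ j, (sg (k i).sp : ℝ) * (sg (k j).sp) * |y i - y j| -
              2 * Q * ∑ i, (sg (k i).sp : ℝ) * |y i|)) := by
          have e1 : ∏ i, (‖(k i).om (t i)‖ *
              (D i * Real.exp (-((κ + 2 * (sg (k i).sp * Q : ℤ)) * |y i|)))) =
              (∏ i, D i) * (∏ i, (‖(k i).om (t i)‖ * Real.exp (-(κ * |y i|)))) *
                Real.exp (-(2 * Q * ∑ i, (sg (k i).sp : ℝ) * |y i|)) := by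
            rw [Finset.mul_sum, ← Finset.sum_neg_distrib, Real.exp_sum, ← Finset.prod_mul_distrib,
              ← Finset.prod_mul_distrib]
            refine Finset.prod_congr rfl fun i _ => ?_
            rw [show -((κ + 2 * ((sg (k i).sp * Q : ℤ) : ℝ)) * |y i|) = -(κ * |y i|) +
              -(2 * Q * ((sg (k i).sp : ℝ) * |y i|)) by push_cast; ring, Real.exp_add]
            ring
          rw [e1, sub_eq_add_neg, Real.exp_add]
          ring
      _ ≤ _ := by
          refine mul_le_mul_of_nonneg_left ?_ (mul_nonneg hD0 hC0)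
          refine mul_le_of_le_one_right (Finset.prod_nonneg fun i _ => by positivity)
            (Real.exp_le_one_iff.2 ?_)
          linarith

end NUP1S

end
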