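import Pool.Agent.NUP1S.Pair
import Pool.Agent.NUP1.LineRes

/-!
# Families of objects of two species at arbitrary positions
-/

set_option autoImplicit false
set_option linter.unusedSectionVars false

noncomputable section

open Complex MeasureTheory

namespace NUP1S

open NUP1 NUP1.Bd

/-- species and kind of an object -/
abbrev CO := Bool × Ob

/-- pair weight of two objects as a function of the difference of the positions -/
def gz (o o' : CO) (z : ℂ) : ℂ := if o.1 = o'.1 then pwz o.2 o'.2 z else cwz o.2 o'.2 z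

/-- signed charge -/
def sc (o : CO) : ℝ := if o.1 then (chg o.2 : ℝ) else -(chg o.2 : ℝ)

theorem cwz_symm (k k' : Ob) (z : ℂ) : cwz k k' z = cwz k' k (-z) := by
  have e1 : ∀ z : ℂ, qg (-z + l) = qg (z - l) := fun z => by
    rw [← qg_neg]
    congr 1
    ring
  have e2 : ∀ z : ℂ, qg (-z - l) = qg (z + l) := fun z => by
    rw [← qg_neg]
    congr 1
    ring
  cases k <;> cases k' <;> simp only [cwz, qg_neg, e1, e2] <;> ring

theorem gz_symm (o o' : CO) (z : ℂ) : gz o o' z = gz o' o (-z) := by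
  unfold gz
  by_cases h : o.1 = o'.1
  · rw [if_pos h, if_pos h.symm, pwz_symm]
  · rw [if_neg h, if_neg (fun h' => h h'.symm), cwz_symm]

/-- the shifts of the sines in the denominator of a pair weight -/
def poles (o o' : CO) : List ℝ :=
  if o.1 = o'.1 then
    match o.2, o'.2 with
    | .S, _ => []
    | _, .S => []
    | _, _ => [l, -l]
  else
    match o.2, o'.2 with
    | .S, .S => [3 * l, -(3 * l), 4 * l, -(2 * l), 2 * l, -(4 * l)]
    | .S, _ => [3 * l, -(3 * l), 2 * l, -(4 * l)]
    | _, .S => [3 * l, -(3 * l), 4 * l, -(2 * l)]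
    | _, _ => [3 * l, -(3 * l)]

/-- a real part of the difference of the positions without poles -/
def Ok (o o' : CO) (d : ℝ) : Prop := ∀ s ∈ poles o o', Real.sin (d + s) ≠ 0

/-! ## bounds and holomorphy -/

/-- exponential bound over a set of real parts -/
def Bdd (K : Set ℝ) (s : ℝ) (g : ℂ → ℂ) : Prop :=
  ∃ C : ℝ, 0 ≤ C ∧ ∀ z : ℂ, z.re ∈ K → ‖g z‖ ≤ C * Real.exp (s * |z.im|)

theorem Bdd.mul {K : Set ℝ} {s s' : ℝ} {g g' : ℂ → ℂ} (h : Bdd K s g) (h' : Bdd K s' g') :
    Bdd K (s + s') (fun z => g z * g' z) := by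
  obtain ⟨C, hC, h⟩ := h
  obtain ⟨D, hD, h'⟩ := h'
  refine ⟨C * D, mul_nonneg hC hD, fun z hz => ?_⟩
  rw [norm_mul]
  calc _ ≤ (C * Real.exp (s * |z.im|)) * (D * Real.exp (s' * |z.im|)) :=
        mul_le_mul (h z hz) (h' z hz) (norm_nonneg _) (by positivity)
    _ = _ := by
        rw [add_mul, Real.exp_add]
        ring

theorem Bdd.rate {K : Set ℝ} {s s' : ℝ} {g : ℂ → ℂ} (h : Bdd K s g) (e : s = s') :
    Bdd K s' g := e ▸ h

theorem exists_deltaK {K : Set ℝ} (hK : IsCompact K) (s : ℝ)
    (h : ∀ d ∈ K, Real.sin (d + s) ≠ 0) : ∃ δ : ℝ, 0 < δ ∧ ∀ d ∈ K, δ ≤ |Real.sin (d + s)| := by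
  rcases K.eq_empty_or_nonempty with rfl | hne
  · exact ⟨1, one_pos, fun d hd => absurd hd (Set.notMem_empty d)⟩
  · obtain ⟨d0, hd0, hmin⟩ := hK.exists_isMinOn hne
      (f := fun d => |Real.sin (d + s)|) (by fun_prop)
    exact ⟨|Real.sin (d0 + s)|, abs_pos.2 (h d0 hd0), fun d hd => hmin hd⟩

theorem bdd_q {K : Set ℝ} (hK : IsCompact K) (h1 : ∀ d ∈ K, Real.sin (d + l) ≠ 0)
    (h2 : ∀ d ∈ K, Real.sin (d + -l) ≠ 0) : Bdd K 2 q := by
  obtain ⟨δ, hδ, h1⟩ := exists_deltaK hK l h1
  obtain ⟨ε, hε, h2⟩ := exists_deltaK hK (-l) h2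
  refine ⟨((min δ ε)⁻¹) ^ 2, by positivity, fun z hz => ?_⟩
  refine (q_bound z (lt_min hδ hε) ((min_le_left _ _).trans (h1 _ hz))
    ((min_le_right _ _).trans (by simpa [sub_eq_add_neg] using h2 _ hz))).trans ?_
  have := cosh_pow_le z.im 2
  push_cast at this
  gcongr

theorem bdd_qg {K : Set ℝ} (hK : IsCompact K) {a b : ℝ} (ha : a = 3 * l) (hb : b = -(3 * l))
    (h1 : ∀ d ∈ K, Real.sin (d + a) ≠ 0)
    (h2 : ∀ d ∈ K, Real.sin (d + b) ≠ 0) : Bdd K (-2) qg := by
  subst ha hb
  obtain ⟨δ, hδ, h1⟩ := exists_deltaK hK (3 * l) h1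
  obtain ⟨ε, hε, h2⟩ := exists_deltaK hK (-(3 * l)) h2
  refine ⟨4 * ((min δ ε)⁻¹) ^ 4, by positivity, fun z hz => ?_⟩
  refine (qg_bound z (lt_min hδ hε) ((min_le_left _ _).trans (h1 _ hz))
    ((min_le_right _ _).trans (by simpa [sub_eq_add_neg] using h2 _ hz))).trans ?_
  have h3 : (Real.cosh z.im ^ 2)⁻¹ ≤ 4 * Real.exp (-2 * |z.im|) := by
    have h4 := exp_le_cosh z.im
    rw [show -2 * |z.im| = -(|z.im| + |z.im|) by ring, Real.exp_neg, Real.exp_add,
      ← div_eq_mul_inv, inv_eq_one_div, div_le_div_iff₀ (by positivity) (by positivity)]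
    nlinarith [Real.exp_pos |z.im|, Real.cosh_pos z.im]
  calc _ ≤ ((min δ ε)⁻¹) ^ 4 * (4 * Real.exp (-2 * |z.im|)) := by gcongr
    _ = _ := by ring

theorem Bdd.shift {K : Set ℝ} {s : ℝ} {g : ℂ → ℂ} (a : ℝ) (h : Bdd ((fun d => d + a) '' K) s g) :
    Bdd K s (fun z => g (z + a)) := by
  obtain ⟨C, hC, h⟩ := h
  refine ⟨C, hC, fun z hz => ?_⟩
  have := h (z + a) ⟨z.re, hz, by simp⟩
  rwa [add_im, ofReal_im, add_zero] at this

theorem bdd_qg_shift {K : Set ℝ} (hK : IsCompact K) (a : ℝ) {b c : ℝ} (hb : b = a + 3 * l)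
    (hc : c = a - 3 * l) (h1 : ∀ d ∈ K, Real.sin (d + b) ≠ 0)
    (h2 : ∀ d ∈ K, Real.sin (d + c) ≠ 0) : Bdd K (-2) (fun z => qg (z + a)) := by
  refine Bdd.shift a (bdd_qg (hK.image (by fun_prop)) rfl rfl ?_ ?_)
  · rintro _ ⟨d, hd, rfl⟩
    have := h1 d hd
    rw [hb] at this
    rwa [add_assoc]
  · rintro _ ⟨d, hd, rfl⟩
    have := h2 d hd
    rw [hc] at this
    rwa [add_assoc, ← sub_eq_add_neg]

theorem bdd_q1 (K : Set ℝ) : Bdd K 4 q1 := by
  refine ⟨1, zero_le_one, fun z _ => ?_⟩
  rw [one_mul]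
  exact (q1_bound z).trans ((cosh_pow_le z.im 4).trans (le_of_eq (by push_cast; rfl)))

theorem bdd_q1n (K : Set ℝ) : Bdd K 4 (fun z => q1 (-z)) := by
  refine ⟨1, zero_le_one, fun z _ => ?_⟩
  rw [one_mul]
  refine (q1_bound (-z)).trans ((cosh_pow_le _ 4).trans (le_of_eq ?_))
  rw [neg_im, abs_neg]
  push_cast
  rfl

theorem bdd_q2 (K : Set ℝ) : Bdd K 8 q2 := by
  refine ⟨1, zero_le_one, fun z _ => ?_⟩
  rw [one_mul]
  exact (q2_bound z).trans ((cosh_pow_le z.im 8).trans (le_of_eq (by push_cast; rfl)))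

/-- rate of the pair weight -/
def rt (o o' : CO) : ℝ := 2 * (sc o * sc o')

theorem bdd_gz {K : Set ℝ} (hK : IsCompact K) (o o' : CO) (h : ∀ d ∈ K, Ok o o' d) :
    Bdd K (rt o o') (gz o o') := by
  obtain ⟨c, k⟩ := o
  obtain ⟨c', k'⟩ := o'
  have hcc : c = c' ∨ c ≠ c' := em _
  rcases hcc with rfl | hc
  · have hs : ∀ k k' : Ob, rt (c, k) (c, k') = 2 * (chg k * chg k' : ℝ) := by
      intro k k'
      unfold rt sc
      cases c <;> simp
    have hq : (∀ d ∈ K, ∀ s ∈ [l, -l], Real.sin (d + s) ≠ 0) → Bdd K 2 q := by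
      intro h
      exact bdd_q hK (fun d hd => h d hd l (by simp)) (fun d hd => h d hd (-l) (by simp))
    rw [hs]
    unfold Ok poles at h
    simp only [if_true] at h
    unfold gz
    simp only [if_true]
    cases k <;> cases k' <;> simp only [chg, pwz] <;> norm_num <;>
      first
      | exact hq h
      | exact bdd_q1 K
      | exact bdd_q1n K
      | exact bdd_q2 K
  · have hs : ∀ k k' : Ob, rt (c, k) (c', k') = -(2 * (chg k * chg k' : ℝ)) := by
      intro k k'
      unfold rt sc
      cases c <;> cases c' <;> simp at hc ⊢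
    rw [hs]
    unfold Ok poles at h
    simp only [hc, if_false] at h
    unfold gz
    simp only [hc, if_false]
    have g0 : (∀ d ∈ K, ∀ s ∈ [3 * l, -(3 * l)], Real.sin (d + s) ≠ 0) → Bdd K (-2) qg := by
      intro h
      exact bdd_qg hK rfl rfl (fun d hd => h d hd _ (by simp)) (fun d hd => h d hd _ (by simp))
    have gm : (∀ d ∈ K, ∀ s ∈ [2 * l, -(4 * l)], Real.sin (d + s) ≠ 0) →
        Bdd K (-2) (fun z => qg (z - l)) := by
      intro h
      have := bdd_qg_shift hK (-l) (b := 2 * l) (c := -(4 * l)) (by ring) (by ring)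
        (fun d hd => h d hd _ (by simp)) (fun d hd => h d hd _ (by simp))
      simpa [sub_eq_add_neg] using this
    have gp : (∀ d ∈ K, ∀ s ∈ [4 * l, -(2 * l)], Real.sin (d + s) ≠ 0) →
        Bdd K (-2) (fun z => qg (z + l)) := by
      intro h
      exact bdd_qg_shift hK l (b := 4 * l) (c := -(2 * l)) (by ring) (by ring)
        (fun d hd => h d hd _ (by simp)) (fun d hd => h d hd _ (by simp))
    cases k <;> cases k' <;> simp only [chg, cwz] <;> norm_num <;>
      first
      | exact g0 h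
      | exact ((g0 fun d hd s hs => h d hd s (by
            simp only [List.mem_cons, List.not_mem_nil, or_false] at hs
            rcases hs with rfl | rfl <;> simp)).mul
          (gp fun d hd s hs => h d hd s (by
            simp only [List.mem_cons, List.not_mem_nil, or_false] at hs
            rcases hs with rfl | rfl <;> simp))).rate
          (by norm_num)
      | exact ((g0 fun d hd s hs => h d hd s (by
            simp only [List.mem_cons, List.not_mem_nil, or_false] at hs
            rcases hs with rfl | rfl <;> simp)).mul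
          (gm fun d hd s hs => h d hd s (by
            simp only [List.mem_cons, List.not_mem_nil, or_false] at hs
            rcases hs with rfl | rfl <;> simp))).rate
          (by norm_num)
      | skip
    have a0 := g0 fun d hd s hs => h d hd s (by
            simp only [List.mem_cons, List.not_mem_nil, or_false] at hs
            rcases hs with rfl | rfl <;> simp)
    have ap := gp fun d hd s hs => h d hd s (by
            simp only [List.mem_cons, List.not_mem_nil, or_false] at hs
            rcases hs with rfl | rfl <;> simp)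
    have am := gm fun d hd s hs => h d hd s (by
            simp only [List.mem_cons, List.not_mem_nil, or_false] at hs
            rcases hs with rfl | rfl <;> simp)
    exact ((a0.mul a0).mul (ap.mul am)).rate (by norm_num)

theorem sin_ne_of_re {z : ℂ} {a : ℝ} (h : Real.sin (z.re + a) ≠ 0) : sin (z + a) ≠ 0 := by
  intro h0
  have h1 := le_norm_sin_add z a
  rw [h0, norm_zero] at h1
  have h2 : 0 < |Real.sin (z.re + a)| * Real.cosh z.im :=
    mul_pos (abs_pos.2 h) (Real.cosh_pos _)
  linarith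

theorem dq {z : ℂ} (h1 : Real.sin (z.re + l) ≠ 0) (h2 : Real.sin (z.re + -l) ≠ 0) :
    DifferentiableAt ℂ q z := by
  have e1 := sin_ne_of_re h1
  have e2 := sin_ne_of_re h2
  rw [ofReal_neg, ← sub_eq_add_neg] at e2
  unfold q
  refine DifferentiableAt.div (by fun_prop) (by fun_prop) (mul_ne_zero e1 e2)

theorem dq1 (z : ℂ) : DifferentiableAt ℂ q1 z := by
  unfold q1
  fun_prop

theorem dq2 (z : ℂ) : DifferentiableAt ℂ q2 z := by
  unfold q2 q1
  fun_prop

theorem dqg {z : ℂ} (a : ℝ) (h1 : Real.sin (z.re + (a + 3 * l)) ≠ 0)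
    (h2 : Real.sin (z.re + (a - 3 * l)) ≠ 0) : DifferentiableAt ℂ (fun z => qg (z + a)) z := by
  have e1 := sin_ne_of_re h1
  have e2 := sin_ne_of_re h2
  have e3 : sin (z + a + 3 * l) ≠ 0 := by
    have : z + ((a + 3 * l : ℝ) : ℂ) = z + a + 3 * l := by push_cast; ring
    rwa [this] at e1
  have e4 : sin (z + a - 3 * l) ≠ 0 := by
    have : z + ((a - 3 * l : ℝ) : ℂ) = z + a - 3 * l := by push_cast; ring
    rwa [this] at e2
  unfold qg
  refine DifferentiableAt.div (by fun_prop) (by fun_prop)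
    (mul_ne_zero (pow_ne_zero _ e3) (pow_ne_zero _ e4))

theorem differentiableAt_gz (o o' : CO) {z : ℂ} (h : Ok o o' z.re) :
    DifferentiableAt ℂ (gz o o') z := by
  obtain ⟨c, k⟩ := o
  obtain ⟨c', k'⟩ := o'
  have hcc : c = c' ∨ c ≠ c' := em _
  rcases hcc with rfl | hc
  · unfold Ok poles at h
    simp only [if_true] at h
    unfold gz
    simp only [if_true]
    have hq : (∀ s ∈ [l, -l], Real.sin (z.re + s) ≠ 0) → DifferentiableAt ℂ q z :=
      fun h => dq (h l (by simp)) (h (-l) (by simp))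
    have hn : DifferentiableAt ℂ (fun z => q1 (-z)) z := by
      unfold q1
      fun_prop
    cases k <;> cases k' <;> simp only [pwz] <;>
      first
      | exact hq h
      | exact dq1 z
      | exact hn
      | exact dq2 z
  · unfold Ok poles at h
    simp only [hc, if_false] at h
    unfold gz
    simp only [hc, if_false]
    have g0 : (∀ s ∈ [3 * l, -(3 * l)], Real.sin (z.re + s) ≠ 0) → DifferentiableAt ℂ qg z := by
      intro h
      have := dqg (z := z) 0 (by simpa using h (3 * l) (by simp))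
        (by simpa using h (-(3 * l)) (by simp))
      simpa using this
    have gm : (∀ s ∈ [2 * l, -(4 * l)], Real.sin (z.re + s) ≠ 0) →
        DifferentiableAt ℂ (fun z => qg (z - l)) z := by
      intro h
      have := dqg (z := z) (-l) (by
        have := h (2 * l) (by simp)
        rwa [show -l + 3 * l = 2 * l by ring]) (by
        have := h (-(4 * l)) (by simp)
        rwa [show -l - 3 * l = -(4 * l) by ring])
      simpa [sub_eq_add_neg] using this
    have gp : (∀ s ∈ [4 * l, -(2 * l)], Real.sin (z.re + s) ≠ 0) →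
        DifferentiableAt ℂ (fun z => qg (z + l)) z := by
      intro h
      exact dqg (z := z) l (by
        have := h (4 * l) (by simp)
        rwa [show l + 3 * l = 4 * l by ring]) (by
        have := h (-(2 * l)) (by simp)
        rwa [show l - 3 * l = -(2 * l) by ring])
    cases k <;> cases k' <;> simp only [cwz] <;>
      first
      | exact g0 h
      | exact (g0 fun s hs => h s (by
            simp only [List.mem_cons, List.not_mem_nil, or_false] at hs
            rcases hs with rfl | rfl <;> simp)).mul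
          (gp fun s hs => h s (by
            simp only [List.mem_cons, List.not_mem_nil, or_false] at hs
            rcases hs with rfl | rfl <;> simp))
      | exact (g0 fun s hs => h s (by
            simp only [List.mem_cons, List.not_mem_nil, or_false] at hs
            rcases hs with rfl | rfl <;> simp)).mul
          (gm fun s hs => h s (by
            simp only [List.mem_cons, List.not_mem_nil, or_false] at hs
            rcases hs with rfl | rfl <;> simp))
      | skip
    have a0 := g0 fun s hs => h s (by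
            simp only [List.mem_cons, List.not_mem_nil, or_false] at hs
            rcases hs with rfl | rfl <;> simp)
    have ap := gp fun s hs => h s (by
            simp only [List.mem_cons, List.not_mem_nil, or_false] at hs
            rcases hs with rfl | rfl <;> simp)
    have am := gm fun s hs => h s (by
            simp only [List.mem_cons, List.not_mem_nil, or_false] at hs
            rcases hs with rfl | rfl <;> simp)
    exact (a0.mul a0).mul (ap.mul am)

theorem measurable_gz (o o' : CO) : Measurable (gz o o') := by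
  unfold gz
  split_ifs
  · exact measurable_pwz _ _
  · exact measurable_cwz _ _

/-! ## the integrand -/

variable {ι ι' : Type*} [Fintype ι] [Fintype ι']

/-- the weight of a family of objects: `o` = species and kinds, `h` = one body functions,
`z` = positions -/
def Fg (o : ι → CO) (h : ι → ℂ → ℂ) (z : ι → ℂ) : ℂ :=
  (∏ i, h i (z i)) * PU fun a b => gz (o a) (o b) (z a - z b)

theorem gz_pair_symm (o : ι → CO) (z : ι → ℂ) (a b : ι) :
    gz (o a) (o b) (z a - z b) = gz (o b) (o a) (z b - z a) := by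
  rw [gz_symm, neg_sub]

theorem Fg_equiv (e : ι ≃ ι') (o : ι' → CO) (h : ι' → ℂ → ℂ) (z : ι' → ℂ) :
    Fg (fun i => o (e i)) (fun i => h (e i)) (fun i => z (e i)) = Fg o h z := by
  unfold Fg
  rw [e.prod_comp (fun i => h i (z i)),
    PU_equiv e (f := fun a b => gz (o a) (o b) (z a - z b)) (gz_pair_symm o z)]

/-- bound of the integrand at arbitrary positions -/
theorem Fg_norm_le {o : ι → CO} (hn : ∑ i, sc (o i) = 0) {h : ι → ℂ → ℂ} {z : ι → ℂ}
    {C D κ : ℝ} (hC : 1 ≤ C) (hh : ∀ i, ‖h i (z i)‖ ≤ D * Real.exp (-(κ * |(z i).im|)))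
    (hg : ∀ a b, a ≠ b →
      ‖gz (o a) (o b) (z a - z b)‖ ≤ C * Real.exp (rt (o a) (o b) * |(z a - z b).im|)) :
    ‖Fg o h z‖ ≤ D ^ Fintype.card ι * C ^ (Fintype.card ι * Fintype.card ι) *
      ∏ i, Real.exp (-(κ * |(z i).im|)) := by
  unfold Fg
  rw [norm_mul, norm_prod]
  have e1 : ∏ i, ‖h i (z i)‖ ≤ D ^ Fintype.card ι * ∏ i, Real.exp (-(κ * |(z i).im|)) := by
    refine (Finset.prod_le_prod (fun i _ => norm_nonneg _) fun i _ => hh i).trans (le_of_eq ?_)
    rw [Finset.prod_mul_distrib, Finset.prod_const, Finset.card_univ]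
  have e2 := PU_norm_le (fun a b => gz (o a) (o b) (z a - z b))
    (fun a b => sc (o a) * sc (o b) * |(z a).im - (z b).im|)
    (fun a b => by rw [abs_sub_comm]; ring) (fun a => by simp) hC (fun a b hab => by
      refine (hg a b hab).trans (le_of_eq ?_)
      rw [sub_im]
      unfold rt
      ring_nf)
  have e3 := energy_nonpos (Finset.univ : Finset ι) (fun i => sc (o i)) (fun i => (z i).im) hn
  have hC0 : 0 ≤ C := zero_le_one.trans hC
  calc _ ≤ (D ^ Fintype.card ι * ∏ i, Real.exp (-(κ * |(z i).im|))) *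
        (C ^ (Fintype.card ι * Fintype.card ι) *
          Real.exp (∑ a, ∑ b, sc (o a) * sc (o b) * |(z a).im - (z b).im|)) :=
        mul_le_mul e1 e2 (norm_nonneg _)
          ((Finset.prod_nonneg fun i _ => norm_nonneg _).trans e1)
    _ = (D ^ Fintype.card ι * ∏ i, Real.exp (-(κ * |(z i).im|))) *
        C ^ (Fintype.card ι * Fintype.card ι) *
          Real.exp (∑ a, ∑ b, sc (o a) * sc (o b) * |(z a).im - (z b).im|) := by ring
    _ ≤ (D ^ Fintype.card ι * ∏ i, Real.exp (-(κ * |(z i).im|))) *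
        C ^ (Fintype.card ι * Fintype.card ι) := by
        refine mul_le_of_le_one_right ?_ (Real.exp_le_one_iff.2 e3)
        exact mul_nonneg ((Finset.prod_nonneg fun i _ => norm_nonneg _).trans e1)
          (pow_nonneg hC0 _)
    _ = _ := by ring

/-- positions on vertical lines -/
def pos (x : ι → ℝ) (t : ι → ℝ) (i : ι) : ℂ := vl (x i) (t i)

@[simp] theorem pos_re (x t : ι → ℝ) (i : ι) : (pos x t i).re = x i := re_vl _ _

@[simp] theorem pos_im (x t : ι → ℝ) (i : ι) : (pos x t i).im = t i := im_vl _ _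

/-- the integral over vertical lines -/
def Ig (o : ι → CO) (h : ι → ℂ → ℂ) (x : ι → ℝ) : ℂ :=
  ∫ t : ι → ℝ, Fg o h (pos x t) ∂(Measure.pi fun _ => volume)

theorem measurable_pos (x : ι → ℝ) (i : ι) : Measurable fun t : ι → ℝ => pos x t i := by
  unfold pos vl
  fun_prop

theorem measurable_Fg_pos {o : ι → CO} {h : ι → ℂ → ℂ} (hm : ∀ i, Measurable (h i))
    (x : ι → ℝ) : Measurable fun t => Fg o h (pos x t) := by
  unfold Fg
  refine Measurable.mul ?_ ?_
  · exact Finset.measurable_prod _ fun i _ => (hm i).comp (measurable_pos x i)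
  · exact measurable_PU (fun a b (t : ι → ℝ) => gz (o a) (o b) (pos x t a - pos x t b))
      fun a b => (measurable_gz _ _).comp ((measurable_pos x a).sub (measurable_pos x b))

theorem integrable_prod_exp' {κ : ℝ} (hκ : 0 < κ) :
    Integrable (fun t : ι → ℝ => ∏ i, Real.exp (-(κ * |t i|)))
      (Measure.pi fun _ => volume) :=
  Integrable.fintype_prod (f := fun _ t => Real.exp (-(κ * |t|)))
    fun _ => integrable_exp_neg_abs hκ

/-- one constant for all pairs -/
theorem gz_const (o : ι → CO) (K : ι → ι → Set ℝ) (hK : ∀ a b, IsCompact (K a b))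
    (h : ∀ a b, a ≠ b → ∀ d ∈ K a b, Ok (o a) (o b) d) :
    ∃ C : ℝ, 1 ≤ C ∧ ∀ a b, a ≠ b → ∀ z : ℂ, z.re ∈ K a b →
      ‖gz (o a) (o b) z‖ ≤ C * Real.exp (rt (o a) (o b) * |z.im|) := by
  classical
  have h1 : ∀ a b, ∃ C : ℝ, 0 ≤ C ∧ (a ≠ b → ∀ z : ℂ, z.re ∈ K a b →
      ‖gz (o a) (o b) z‖ ≤ C * Real.exp (rt (o a) (o b) * |z.im|)) := by
    intro a b
    by_cases hab : a = b
    · exact ⟨0, le_rfl, fun h => absurd hab h⟩
    · obtain ⟨C, hC, h2⟩ := bdd_gz (hK a b) (o a) (o b) (h a b hab)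
      exact ⟨C, hC, fun _ => h2⟩
  choose C hC h1 using h1
  have s0 : ∀ a, 0 ≤ ∑ b, C a b := fun a => Finset.sum_nonneg fun b _ => hC a b
  have s1 : ∀ a b, C a b ≤ 1 + ∑ a, ∑ b, C a b := by
    intro a b
    have a1 : C a b ≤ ∑ b, C a b :=
      Finset.single_le_sum (f := fun b => C a b) (fun b _ => hC a b) (Finset.mem_univ b)
    have a2 : ∑ b, C a b ≤ ∑ a, ∑ b, C a b :=
      Finset.single_le_sum (f := fun a => ∑ b, C a b) (fun a _ => s0 a) (Finset.mem_univ a)
    linarith
  refine ⟨1 + ∑ a, ∑ b, C a b, ?_, fun a b hab z hz => ?_⟩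
  · have := Finset.sum_nonneg fun a (_ : a ∈ Finset.univ) => s0 a
    linarith
  · exact (h1 a b hab z hz).trans (mul_le_mul_of_nonneg_right (s1 a b) (Real.exp_pos _).le)

/-- decay of a one body function over a set of real parts -/
def DecOn (κ : ℝ) (K : Set ℝ) (h : ℂ → ℂ) : Prop :=
  ∃ D : ℝ, ∀ z : ℂ, z.re ∈ K → ‖h z‖ ≤ D * Real.exp (-(κ * |z.im|))

theorem DecOn.const {κ : ℝ} (h : ι → ℂ → ℂ) (K : ι → Set ℝ) (hd : ∀ i, DecOn κ (K i) (h i)) :
    ∃ D : ℝ, 0 ≤ D ∧ ∀ i, ∀ z : ℂ, z.re ∈ K i → ‖h i z‖ ≤ D * Real.exp (-(κ * |z.im|)) := by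
  choose D hD using hd
  refine ⟨∑ i, |D i|, Finset.sum_nonneg fun i _ => abs_nonneg _, fun i z hz => ?_⟩
  refine (hD i z hz).trans (mul_le_mul_of_nonneg_right ?_ (Real.exp_pos _).le)
  exact (le_abs_self _).trans (Finset.single_le_sum (f := fun i => |D i|)
    (fun i _ => abs_nonneg _) (Finset.mem_univ i))

/-- integrability on lines -/
theorem integrable_Fg {o : ι → CO} (hn : ∑ i, sc (o i) = 0) {h : ι → ℂ → ℂ} {x : ι → ℝ}
    {κ : ℝ} (hκ : 0 < κ) (hm : ∀ i, Measurable (h i)) (hh : ∀ i, DecOn κ {x i} (h i))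
    (hg : ∀ a b, a ≠ b → Ok (o a) (o b) (x a - x b)) :
    Integrable (fun t : ι → ℝ => Fg o h (pos x t)) (Measure.pi fun _ => volume) := by
  obtain ⟨D, hD, hh⟩ := DecOn.const h _ hh
  obtain ⟨C, hC, hg⟩ := gz_const o (fun a b => {x a - x b}) (fun a b => isCompact_singleton)
    (fun a b hab d hd => by
      rw [Set.mem_singleton_iff] at hd
      rw [hd]
      exact hg a b hab)
  refine ((integrable_prod_exp' (ι := ι) hκ).const_mul
    (D ^ Fintype.card ι * C ^ (Fintype.card ι * Fintype.card ι))).mono'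
    (measurable_Fg_pos hm x).aestronglyMeasurable (Filter.Eventually.of_forall fun t => ?_)
  have := Fg_norm_le hn (h := h) (z := pos x t) (D := D) (κ := κ) hC
    (fun i => hh i _ (by simp)) (fun a b hab => hg a b hab _ (by simp))
  simpa using this

end NUP1S

end
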