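import Pool.Agent.NUO.Obj
import Pool.Agent.NUP1S.Gen
import Pool.Agent.NUP1S.Gas

/-!
# Weights of configurations of objects: complex form and change of the kind of one object

`ι` is any finite index type, `el i` the shift of the line of the object `i`, `rd i` the radius of
the circle of its satellite.  `gW` is the modulus of the weight of a configuration, `potC` the
complex field of the configuration at a quantum.
-/

set_option autoImplicit false
set_option linter.unusedSectionVars false

noncomputable section

open Complex MeasureTheory Finset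

namespace NUP1S.Ab

open NUP1 NUO

/-- a constituent: species, type (`true` = string), position -/
abbrev Part := Bool × Bool × ℂ

/-- one body functions of the two species: quanta, strings `S`, strings `St` -/
structure One where
  /-- quanta -/
  G : Bool → ℂ → ℂ
  /-- strings of kind `S` -/
  S : Bool → ℂ → ℂ
  /-- strings of kind `St` -/
  T : Bool → ℂ → ℂ

/-- main constituent of an object -/
def mainP (jL e : ℝ) (x : Xo) : Part :=
  match kd x with
  | .L => (sp x, false, posL jL (ht x))
  | .St => (sp x, true, posT (ht x))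
  | .S => (sp x, true, posS e (ht x))
  | .Sv => (sp x, true, posS e (ht x))
  | .Svv => (sp x, true, posS e (ht x))

/-- satellites of an object -/
def sats (e ρ : ℝ) (x : Xo) : List Part :=
  match kd x with
  | .L => []
  | .St => []
  | .S => []
  | .Sv => [(!sp x, false, posV e ρ (ht x) (an x))]
  | .Svv => [(!sp x, false, posS e (ht x) + 2 * l), (!sp x, false, posS e (ht x) + 2 * l)]

theorem parts_eq (jL e ρ : ℝ) (x : Xo) : parts jL e ρ x = mainP jL e x :: sats e ρ x := by
  unfold parts mainP sats
  cases kd x <;> rfl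

/-! ### pair functions -/

theorem pz_symm (s t : Bool) (z : ℂ) : Kn.pz s t z = Kn.pz t s (-z) := by
  cases s <;> cases t
  · exact (Bd.q_neg z).symm
  · show q1 z = q1 (- -z)
    rw [neg_neg]
  · rfl
  · exact (Bd.pwz_symm .S .S z)

theorem cz_symm (s t : Bool) (z : ℂ) : Kn.cz s t z = Kn.cz t s (-z) := by
  cases s <;> cases t
  · exact NUP1S.cwz_symm .A .A z
  · exact NUP1S.cwz_symm .A .S z
  · exact NUP1S.cwz_symm .S .A z
  · exact NUP1S.cwz_symm .S .S z

theorem pp_symm (a b : Part) : pp a b = pp b a := by
  unfold pp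
  by_cases h : a.1 = b.1
  · rw [if_pos h, if_pos h.symm, pz_symm, neg_sub]
  · rw [if_neg h, if_neg (fun h' => h h'.symm), cz_symm, neg_sub]

/-- pair weight of two lists of constituents -/
def ppC (A B : List Part) : ℂ := (A.map fun a => (B.map fun b => pp a b).prod).prod

theorem norm_ppC (A B : List Part) : ‖ppC A B‖ = ppN A B := by
  unfold ppC ppN
  rw [List.norm_prod, List.map_map]
  congr 1
  refine List.map_congr_left fun a _ => ?_
  simp only [Function.comp]
  rw [List.norm_prod, List.map_map]
  rfl

theorem ppC_nil (B : List Part) : ppC [] B = 1 := rfl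

theorem ppC_cons (a : Part) (A B : List Part) : ppC (a :: A) B = ppC [a] B * ppC A B := by
  unfold ppC
  simp

theorem ppC_append (A A' B : List Part) : ppC (A ++ A') B = ppC A B * ppC A' B := by
  unfold ppC
  simp

theorem ppC_single (a : Part) (B : List Part) : ppC [a] B = (B.map fun b => pp a b).prod := by
  unfold ppC
  simp

theorem ppC_nil_right (A : List Part) : ppC A [] = 1 := by
  unfold ppC
  simp

theorem ppC_symm (A B : List Part) : ppC A B = ppC B A := by
  induction A with
  | nil => rw [ppC_nil, ppC_nil_right]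
  | cons a A ih =>
    rw [ppC_cons, ih]
    unfold ppC
    simp only [List.map_cons, List.map_nil, List.prod_cons, List.prod_nil, mul_one]
    rw [← List.prod_map_mul]
    congr 1
    refine List.map_congr_left fun b _ => ?_
    rw [pp_symm a b]

theorem ppC_append_right (A B B' : List Part) : ppC A (B ++ B') = ppC A B * ppC A B' := by
  rw [ppC_symm, ppC_append, ppC_symm B, ppC_symm B']

theorem ppN_symm (A B : List Part) : ppN A B = ppN B A := by
  rw [← norm_ppC, ppC_symm, norm_ppC]

/-- the pair function with a quantum is the pair weight `PP` -/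
theorem pp_quanta (s s' : Bool) (z z' : ℂ) :
    pp (s, false, z) (s', false, z') = PP s s' (z - z') := rfl

/-! ### changing one index in a product over pairs -/

section upd
variable {ι : Type*} [Fintype ι]

open scoped Classical in
/-- comparison with `i` in front -/
def fr (i : ι) (a b : ι) : Prop := b ≠ i ∧ (a = i ∨ er ι a b)

theorem tour_fr (i : ι) : Tour (fr i) where
  irr a := by
    unfold fr
    rintro ⟨h1, h2 | h2⟩
    · exact h1 h2
    · exact (tour_er ι).irr _ h2
  tot a b hab := by
    unfold fr
    have := (tour_er ι).tot a b hab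
    by_cases ha : a = i <;> by_cases hb : b = i
    · exact absurd (ha.trans hb.symm) hab
    · simp [ha, hb]
    · simp [ha, hb]
    · simp [ha, hb, this]

open scoped Classical in
theorem PR_fr (i : ι) (f : ι → ι → ℂ) : PR (fr i) f = (∏ b ∈ univ.erase i, f i b) *
    ∏ a ∈ univ.erase i, ∏ b ∈ univ.erase i, if er ι a b then f a b else 1 := by
  unfold PR
  rw [← Finset.mul_prod_erase univ _ (Finset.mem_univ i)]
  congr 1
  · rw [← Finset.mul_prod_erase univ _ (Finset.mem_univ i), if_neg (fun h => h.1 rfl), one_mul]
    refine Finset.prod_congr rfl fun b hb => ?_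
    rw [if_pos ⟨(Finset.mem_erase.1 hb).1, Or.inl rfl⟩]
  · refine Finset.prod_congr rfl fun a ha => ?_
    rw [← Finset.mul_prod_erase univ _ (Finset.mem_univ i), if_neg (fun h => h.1 rfl), one_mul]
    refine Finset.prod_congr rfl fun b hb => ?_
    have h1 := (Finset.mem_erase.1 ha).1
    have h2 := (Finset.mem_erase.1 hb).1
    unfold fr
    simp [h1, h2]

open scoped Classical in
theorem PU_upd {f f' : ι → ι → ℂ} (hf : ∀ a b, f a b = f b a) (hf' : ∀ a b, f' a b = f' b a)
    (i : ι) (g : ι → ℂ) (h1 : ∀ a b, a ≠ i → b ≠ i → f' a b = f a b)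
    (h2 : ∀ b, b ≠ i → f' i b = g b * f i b) :
    PU f' = (∏ b ∈ univ.erase i, g b) * PU f := by
  have e1 : ∏ b ∈ univ.erase i, f' i b = (∏ b ∈ univ.erase i, g b) * ∏ b ∈ univ.erase i, f i b := by
    rw [← Finset.prod_mul_distrib]
    exact Finset.prod_congr rfl fun b hb => h2 b (Finset.mem_erase.1 hb).1
  have e2 : (∏ a ∈ univ.erase i, ∏ b ∈ univ.erase i, if er ι a b then f' a b else 1) =
      ∏ a ∈ univ.erase i, ∏ b ∈ univ.erase i, if er ι a b then f a b else 1 := by
    refine Finset.prod_congr rfl fun a ha => Finset.prod_congr rfl fun b hb => ?_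
    rw [h1 a b (Finset.mem_erase.1 ha).1 (Finset.mem_erase.1 hb).1]
  rw [PU_eq (tour_fr i) hf', PU_eq (tour_fr i) hf, PR_fr, PR_fr, e1, e2]
  ring

theorem PU_mul (f g : ι → ι → ℂ) : PU (fun a b => f a b * g a b) = PU f * PU g := by
  classical
  unfold PU PR
  rw [← Finset.prod_mul_distrib]
  refine Finset.prod_congr rfl fun a _ => ?_
  rw [← Finset.prod_mul_distrib]
  refine Finset.prod_congr rfl fun b _ => ?_
  split_ifs <;> simp

theorem PU_congr {f g : ι → ι → ℂ} (h : ∀ a b, f a b = g a b) : PU f = PU g := by
  congr 1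
  funext a b
  exact h a b

open scoped Classical in
/-- product over the ordered pairs -/
theorem PU_two (g : ι → ι → ℂ) :
    PU (fun a b => g a b * g b a) = ∏ a, ∏ b ∈ univ.erase a, g a b := by
  have e1 : ∏ a, ∏ b ∈ univ.erase a, g a b =
      (∏ a, ∏ b, if er ι a b then g a b else 1) * ∏ a, ∏ b, if er ι b a then g a b else 1 := by
    rw [← Finset.prod_mul_distrib]
    refine Finset.prod_congr rfl fun a _ => ?_
    rw [← Finset.prod_mul_distrib, ← Finset.mul_prod_erase univ _ (Finset.mem_univ a)]
    have h0 : ((if er ι a a then g a a else 1) * if er ι a a then g a a else 1) = 1 := by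
      rw [if_neg ((tour_er ι).irr a), one_mul]
    rw [h0, one_mul]
    refine Finset.prod_congr rfl fun b hb => ?_
    have hab : a ≠ b := fun h => (Finset.mem_erase.1 hb).1 h.symm
    have h1 := (tour_er ι).tot a b hab
    by_cases h : er ι a b
    · rw [if_pos h, if_neg (h1.1 h), mul_one]
    · have h' : er ι b a := by
        by_contra h2
        exact h (h1.2 h2)
      rw [if_neg h, if_pos h', one_mul]
  rw [e1, PU_mul]
  congr 1
  unfold PU PR
  rw [Finset.prod_comm]

end upd

/-! ### configurations as families of lists of constituents -/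

section conf
variable {ι ι' : Type*} [Fintype ι] [Fintype ι']

/-- weight of a configuration: one body weights `o`, constituents `c` -/
def WW (o : ι → ℝ) (c : ι → List Part) : ℝ := (∏ i, o i) * ‖PU fun i j => ppC (c i) (c j)‖

/-- field of a configuration at a quantum -/
def potG (c : ι → List Part) (s : Bool) (z : ℂ) : ℂ := ∏ i, ppC [(s, false, z)] (c i)

theorem WW_equiv (e : ι ≃ ι') (o : ι' → ℝ) (c : ι' → List Part) :
    WW (fun i => o (e i)) (fun i => c (e i)) = WW o c := by
  unfold WW
  rw [e.prod_comp o, PU_equiv e (f := fun i j => ppC (c i) (c j)) fun a b => ppC_symm _ _]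

theorem potG_equiv (e : ι ≃ ι') (c : ι' → List Part) (s : Bool) (z : ℂ) :
    potG (fun i => c (e i)) s z = potG c s z :=
  e.prod_comp fun i => ppC [(s, false, z)] (c i)

theorem norm_P {r : ℕ} (f : Fin r → Fin r → ℂ) (hf : ∀ a b, f a b = f b a) :
    ‖PU f‖ = ∏ i, ∏ j, if i < j then ‖f i j‖ else 1 := by
  rw [PU_fin hf]
  unfold NUP1.Grand.P
  rw [norm_prod]
  refine Finset.prod_congr rfl fun a _ => ?_
  rw [norm_prod]
  refine Finset.prod_congr rfl fun b _ => ?_
  split_ifs <;> simp

/-- helper2's weight -/
theorem WW_objW (m : ℕ) (β : ℝ) (P : NUO.Par) {r : ℕ} (O : Fin r → Xo) :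
    WW (ob m β P O) (cons P O) = objW m β P O := by
  unfold WW objW
  rw [norm_P _ fun a b => ppC_symm _ _]
  simp_rw [norm_ppC]
  rfl

/-- complex field of the configuration `O` -/
def potC (P : NUO.Par) {r : ℕ} (O : Fin r → Xo) (s : Bool) (z : ℂ) : ℂ := potG (cons P O) s z

theorem norm_potC (P : NUO.Par) {r : ℕ} (O : Fin r → Xo) (s : Bool) (z : ℂ) :
    ‖potC P O s z‖ = ∏ i, potN P O i s z := by
  unfold potC potG
  rw [norm_prod]
  exact Finset.prod_congr rfl fun i _ => norm_ppC _ _

open scoped Classical in
/-- **separation of the satellites**: `a i` = main constituent, `S i` = satellites -/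
theorem PU_sep (a : ι → Part) (S : ι → List Part) :
    PU (fun i j => ppC (a i :: S i) (a j :: S j)) =
      PU (fun i j => pp (a i) (a j)) * (∏ i, ∏ j ∈ univ.erase i, ppC (S i) [a j]) *
        PU (fun i j => ppC (S i) (S j)) := by
  rw [← PU_two, ← PU_mul, ← PU_mul]
  refine PU_congr fun i j => ?_
  have e1 : ppC (a i :: S i) (a j :: S j) = ppC [a i] (a j :: S j) * ppC (S i) (a j :: S j) :=
    ppC_cons _ _ _
  have e2 : ∀ A : List Part, ppC A (a j :: S j) = ppC A [a j] * ppC A (S j) := fun A =>
    ppC_append_right A [a j] (S j)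
  have e3 : ppC [a i] [a j] = pp (a i) (a j) := by simp [ppC]
  rw [e1, e2, e2, e3, ppC_symm [a i] (S j)]
  ring

end conf

end NUP1S.Ab

end
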