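import Mathlib

/-!
# Peeling off one kind: words over `Option K` as words over `K` and a number of `none`
-/

set_option autoImplicit false
set_option linter.unusedSectionVars false

noncomputable section

namespace NUP1S

open Finset Nat

variable {K : Type} [Fintype K] [DecidableEq K]

/-- the word with first `a` times `none` -/
def wd {a p : ℕ} (k : Fin p → K) : Fin a ⊕ Fin p → Option K :=
  Sum.elim (fun _ => none) (fun i => some (k i))

theorem sum_zero_set {r a p : ℕ} (s : Finset (Fin r)) (ha : s.card = a) (hp : sᶜ.card = p)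
    (G : (Fin r → Option K) → ℂ) :
    ∑ k ∈ univ.filter (fun k : Fin r → Option K => univ.filter (fun i => k i = none) = s), G k =
      ∑ k : Fin p → K, G (wd k ∘ (finSumEquivOfFinset ha hp).symm) := by
  set e := finSumEquivOfFinset ha hp with he
  have hL : ∀ i : Fin a, e (Sum.inl i) ∈ s := fun i => by
    rw [he, finSumEquivOfFinset_inl]
    exact orderEmbOfFin_mem s ha i
  have hR : ∀ i : Fin p, e (Sum.inr i) ∉ s := fun i => by
    rw [he, finSumEquivOfFinset_inr]
    exact mem_compl.1 (orderEmbOfFin_mem sᶜ hp i)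
  symm
  refine sum_bij (fun k _ => wd k ∘ e.symm) ?_ ?_ ?_ ?_
  · intro k _
    rw [mem_filter]
    refine ⟨mem_univ _, ?_⟩
    ext i
    simp only [mem_filter, mem_univ, true_and, Function.comp_apply]
    obtain ⟨x, rfl⟩ := e.surjective i
    rw [e.symm_apply_apply]
    rcases x with x | x
    · simp [wd, hL x]
    · simp [wd, hR x]
  · intro k _ k' _ h
    funext i
    have := congrFun h (e (Sum.inr i))
    simpa [wd] using this
  · intro k hk
    have hk' := (mem_filter.1 hk).2
    have hns : ∀ i : Fin p, k (e (Sum.inr i)) ≠ none := by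
      intro i h0
      apply hR i
      rw [← hk']
      simp [h0]
    refine ⟨fun i => (k (e (Sum.inr i))).get (Option.isSome_iff_ne_none.2 (hns i)),
      mem_univ _, ?_⟩
    funext i
    obtain ⟨x, rfl⟩ := e.surjective i
    simp only [Function.comp_apply, e.symm_apply_apply]
    rcases x with x | x
    · have : e (Sum.inl x) ∈ univ.filter (fun i => k i = none) := by
        rw [hk']
        exact hL x
      simp only [wd, Sum.elim_inl]
      exact (mem_filter.1 this).2.symm
    · simp [wd]
  · intro k _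
    rfl

theorem peel (c : K → ℕ) (hc : ∀ k, 0 < c k)
    (Psi : ∀ (i : Type) [Fintype i], (i → Option K) → ℂ)
    (hPsi : ∀ (i i' : Type) [Fintype i] [Fintype i'] (e : i ≃ i') (k : i' → Option K),
      Psi i (k ∘ e) = Psi i' k) (n : ℕ) :
    ∑ r ∈ range (n + 1), ((r ! : ℕ) : ℂ)⁻¹ * ∑ k : Fin r → Option K,
      (if ∑ i, (k i).elim 1 c = n then Psi (Fin r) k else 0) =
    ∑ p ∈ range (n + 1), ((p ! : ℕ) : ℂ)⁻¹ * ∑ k : Fin p → K,
      (if ∑ i, c (k i) ≤ n then (((n - ∑ i, c (k i)) ! : ℕ) : ℂ)⁻¹ *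
        Psi (Fin (n - ∑ i, c (k i)) ⊕ Fin p)
          (Sum.elim (fun _ => none) (fun i => some (k i))) else 0) := by
  set Φ : ℕ → ℕ → ℂ := fun a p => ∑ k : Fin p → K,
    if a + ∑ i, c (k i) = n then Psi (Fin a ⊕ Fin p) (wd k) else 0 with hΦ
  have hle : ∀ {p : ℕ} (k : Fin p → K), p ≤ ∑ i, c (k i) := fun {p} k => by
    calc p = ∑ _i : Fin p, 1 := by simp
      _ ≤ _ := sum_le_sum fun i _ => hc (k i)
  have hΦ0 : ∀ a p, n < a + p → Φ a p = 0 := by
    intro a p hap
    refine sum_eq_zero fun k _ => ?_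
    rw [if_neg]
    intro h
    have := hle k
    omega
  -- the sum over all words of length r
  have h1 : ∀ r : ℕ, ∑ k : Fin r → Option K,
      (if ∑ i, (k i).elim 1 c = n then Psi (Fin r) k else 0) =
      ∑ a ∈ range (r + 1), (r.choose a : ℂ) * Φ a (r - a) := by
    intro r
    have e1 : ∀ s : Finset (Fin r),
        ∑ k ∈ univ.filter (fun k : Fin r → Option K => univ.filter (fun i => k i = none) = s),
          (if ∑ i, (k i).elim 1 c = n then Psi (Fin r) k else 0) = Φ s.card (r - s.card) := by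
      intro s
      have hp : sᶜ.card = r - s.card := by rw [card_compl, Fintype.card_fin]
      rw [sum_zero_set s rfl hp]
      refine sum_congr rfl fun k _ => ?_
      have e2 : ∑ i, ((wd k ∘ (finSumEquivOfFinset rfl hp).symm) i).elim 1 c =
          s.card + ∑ i, c (k i) := by
        rw [← (finSumEquivOfFinset rfl hp).sum_comp]
        simp [wd]
      rw [e2, hPsi]
    rw [← sum_fiberwise (s := univ) (g := fun k : Fin r → Option K =>
      univ.filter (fun i => k i = none)), sum_congr rfl fun s _ => e1 s, ← powerset_univ,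
      sum_powerset_apply_card (fun a => Φ a (r - a)), Finset.card_univ, Fintype.card_fin]
    simp
  have h2 : ∀ r : ℕ, ((r ! : ℕ) : ℂ)⁻¹ * ∑ k : Fin r → Option K,
      (if ∑ i, (k i).elim 1 c = n then Psi (Fin r) k else 0) =
      ∑ x ∈ antidiagonal r, ((x.1 ! : ℕ) : ℂ)⁻¹ * ((x.2 ! : ℕ) : ℂ)⁻¹ * Φ x.1 x.2 := by
    intro r
    rw [h1, mul_sum, Nat.sum_antidiagonal_eq_sum_range_succ
      (f := fun a p => ((a ! : ℕ) : ℂ)⁻¹ * ((p ! : ℕ) : ℂ)⁻¹ * Φ a p)]
    refine sum_congr rfl fun a ha => ?_
    have ha' : a ≤ r := by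
      rw [mem_range] at ha
      omega
    have hf := Nat.choose_mul_factorial_mul_factorial ha'
    have hf' : (r.choose a : ℂ) * (a ! : ℕ) * ((r - a) ! : ℕ) = (r ! : ℕ) := by exact_mod_cast hf
    have n1 : ((a ! : ℕ) : ℂ) ≠ 0 := by exact_mod_cast factorial_ne_zero a
    have n2 : (((r - a) ! : ℕ) : ℂ) ≠ 0 := by exact_mod_cast factorial_ne_zero (r - a)
    have n3 : ((r ! : ℕ) : ℂ) ≠ 0 := by exact_mod_cast factorial_ne_zero r
    rw [← mul_assoc]
    congr 1
    field_simp
    linear_combination hf'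
  have h3 : ∀ p : ℕ, ∑ k : Fin p → K,
      (if ∑ i, c (k i) ≤ n then (((n - ∑ i, c (k i)) ! : ℕ) : ℂ)⁻¹ *
        Psi (Fin (n - ∑ i, c (k i)) ⊕ Fin p)
          (Sum.elim (fun _ => none) (fun i => some (k i))) else 0) =
      ∑ a ∈ range (n + 1), ((a ! : ℕ) : ℂ)⁻¹ * Φ a p := by
    intro p
    rw [hΦ]
    simp_rw [mul_sum]
    rw [sum_comm]
    refine sum_congr rfl fun k _ => ?_
    split_ifs with hk
    · rw [sum_eq_single (n - ∑ i, c (k i))]
      · rw [if_pos (by omega)]
        rfl
      · intro a _ ha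
        rw [if_neg, mul_zero]
        intro h
        apply ha
        omega
      · intro h
        exfalso
        apply h
        rw [mem_range]
        omega
    · rw [sum_eq_zero]
      intro a _
      rw [if_neg, mul_zero]
      intro h
      apply hk
      omega
  simp_rw [h2, h3]
  -- both sides are sums over pairs (a, p) with a + p ≤ n
  have h4 : ∑ p ∈ range (n + 1), ((p ! : ℕ) : ℂ)⁻¹ * ∑ a ∈ range (n + 1), ((a ! : ℕ) : ℂ)⁻¹ * Φ a p =
      ∑ x ∈ (range (n + 1) ×ˢ range (n + 1)),
        ((x.1 ! : ℕ) : ℂ)⁻¹ * ((x.2 ! : ℕ) : ℂ)⁻¹ * Φ x.1 x.2 := by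
    rw [sum_product_right]
    refine sum_congr rfl fun p _ => ?_
    rw [mul_sum]
    refine sum_congr rfl fun a _ => ?_
    ring
  rw [h4, ← sum_fiberwise_of_maps_to (s := range (n + 1) ×ˢ range (n + 1))
    (t := range (2 * n + 1)) (g := fun x => x.1 + x.2)]
  · rw [← sum_subset (range_mono (show n + 1 ≤ 2 * n + 1 by omega))]
    · refine sum_congr rfl fun r hr => ?_
      refine sum_congr ?_ fun _ _ => rfl
      ext x
      rw [mem_range] at hr
      rw [HasAntidiagonal.mem_antidiagonal, mem_filter, mem_product, mem_range, mem_range]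
      omega
    · intro r _ hr
      refine sum_eq_zero fun x hx => ?_
      rw [mem_range] at hr
      rw [hΦ0 x.1 x.2 (by have := (mem_filter.1 hx).2; omega), mul_zero]
  · intro x hx
    rw [mem_product, mem_range, mem_range] at hx
    rw [mem_range]
    omega

/-- **Fibre lemma**: splitting of kinds. -/
theorem fibre {ι K3 K4 : Type*} [Fintype ι] [DecidableEq ι] [Fintype K3] [DecidableEq K3]
    [Fintype K4] [DecidableEq K4] (π : K4 → K3) (w : (ι → K3) → ℂ) (g : ι → K4 → ℂ) :
    ∑ k : ι → K3, w k * ∏ i, ∑ a ∈ univ.filter (fun a => π a = k i), g i a =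
      ∑ c : ι → K4, w (fun i => π (c i)) * ∏ i, g i (c i) := by
  have e1 : ∀ k : ι → K3, ∏ i, ∑ a ∈ univ.filter (fun a => π a = k i), g i a =
      ∑ c ∈ univ.filter (fun c : ι → K4 => ∀ i, π (c i) = k i), ∏ i, g i (c i) := by
    intro k
    rw [prod_univ_sum]
    refine sum_congr ?_ fun _ _ => rfl
    ext c
    simp [Fintype.mem_piFinset]
  simp_rw [e1, mul_sum, sum_filter]
  rw [sum_comm]
  refine sum_congr rfl fun c _ => ?_
  rw [sum_eq_single (fun i => π (c i))]
  · simp
  · intro k _ hk
    rw [if_neg]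
    intro h
    exact hk (funext fun i => (h i).symm)
  · intro h
    exact absurd (mem_univ _) h

end NUP1S

end
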