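import Pool.Agent.NUP1S.Shift
import Pool.Agent.NUP1S.Peel
import Pool.Agent.NUP1.Grand2

/-!
# Stage 2: kinds A, L, S, T; the strings S on arbitrary lines; the quanta on A peeled off
-/

set_option autoImplicit false
set_option linter.unusedSectionVars false

noncomputable section

open Complex MeasureTheory

namespace NUP1S

open NUP1 NUP1.Bd

/-! ## two species -/

variable {ι ι' : Type*} [Fintype ι] [Fintype ι']

/-- the weight of two families of objects -/
def F2g (k : ι → Ob) (k' : ι' → Ob) (h : ι → ℂ → ℂ) (h' : ι' → ℂ → ℂ) (z : ι → ℂ)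
    (z' : ι' → ℂ) : ℂ :=
  ((∏ i, h i (z i)) * PU fun a b => pwz (k a) (k b) (z a - z b)) *
    ((∏ j, h' j (z' j)) * PU fun a b => pwz (k' a) (k' b) (z' a - z' b)) *
    ∏ i, ∏ j, cwz (k i) (k' j) (z i - z' j)

/-- species and kinds of two families -/
def oo (k : ι → Ob) (k' : ι' → Ob) : ι ⊕ ι' → CO :=
  Sum.elim (fun i => (true, k i)) (fun j => (false, k' j))

theorem Fg_sum (k : ι → Ob) (k' : ι' → Ob) (h : ι → ℂ → ℂ) (h' : ι' → ℂ → ℂ) (z : ι → ℂ)
    (z' : ι' → ℂ) :
    Fg (oo k k') (Sum.elim h h') (Sum.elim z z') = F2g k k' h h' z z' := by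
  unfold Fg F2g
  rw [PU_sum (gz_pair_symm _ _), Fintype.prod_sum_type]
  simp only [oo, Sum.elim_inl, Sum.elim_inr, gz, if_true]
  simp only [Bool.true_eq_false, if_false]
  ring

theorem pos_elim (x : ι → ℝ) (x' : ι' → ℝ) (t : ι → ℝ) (t' : ι' → ℝ) :
    pos (Sum.elim x x') (Sum.elim t t') = Sum.elim (pos x t) (pos x' t') := by
  funext i
  rcases i with i | i <;> rfl

/-- the integral over a sum of index types -/
theorem integral_sum (f : (ι ⊕ ι' → ℝ) → ℂ) :
    ∫ t, f t ∂(Measure.pi fun _ => volume) =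
      ∫ p : (ι → ℝ) × (ι' → ℝ), f (Sum.elim p.1 p.2)
        ∂((Measure.pi fun _ => volume).prod (Measure.pi fun _ => volume)) := by
  have mp := measurePreserving_sumPiEquivProdPi_symm (X := fun _ : ι ⊕ ι' => ℝ)
    (fun _ => (volume : Measure ℝ))
  rw [← mp.integral_comp']
  refine integral_congr_ae (Filter.Eventually.of_forall fun p => ?_)
  simp only []
  congr 1

theorem integrable_sum {f : (ι ⊕ ι' → ℝ) → ℂ}
    (hf : Integrable f (Measure.pi fun _ => volume)) :
    Integrable (fun p : (ι → ℝ) × (ι' → ℝ) => f (Sum.elim p.1 p.2))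
      ((Measure.pi fun _ => volume).prod (Measure.pi fun _ => volume)) := by
  have mp := measurePreserving_sumPiEquivProdPi_symm (X := fun _ : ι ⊕ ι' => ℝ)
    (fun _ => (volume : Measure ℝ))
  have h1 := (mp.integrable_comp_emb (MeasurableEquiv.measurableEmbedding _)).2 hf
  refine h1.congr (Filter.Eventually.of_forall fun p => ?_)
  simp only [Function.comp]
  congr 1

theorem Ig_sum (k : ι → Ob) (k' : ι' → Ob) (h : ι → ℂ → ℂ) (h' : ι' → ℂ → ℂ) (x : ι → ℝ)
    (x' : ι' → ℝ) :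
    Ig (oo k k') (Sum.elim h h') (Sum.elim x x') =
      ∫ p : (ι → ℝ) × (ι' → ℝ), F2g k k' h h' (pos x p.1) (pos x' p.2)
        ∂((Measure.pi fun _ => volume).prod (Measure.pi fun _ => volume)) := by
  unfold Ig
  rw [integral_sum]
  simp_rw [pos_elim, Fg_sum]

theorem Ig_equiv {ι ι' : Type*} [Fintype ι] [Fintype ι'] (e : ι ≃ ι') (o : ι' → CO)
    (h : ι' → ℂ → ℂ) (x : ι' → ℝ) :
    Ig (fun i => o (e i)) (fun i => h (e i)) (fun i => x (e i)) = Ig o h x := by
  unfold Ig
  have mp := measurePreserving_piCongrLeft (fun _ : ι' => (volume : Measure ℝ)) e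
  rw [← mp.integral_comp']
  refine integral_congr_ae (Filter.Eventually.of_forall fun t => ?_)
  simp only []
  rw [← Fg_equiv e o h]
  congr 1
  funext i
  unfold pos
  congr 1
  exact (MeasurableEquiv.piCongrLeft_apply_apply (β := fun _ => ℝ) e t i).symm

theorem integrable_equiv {ι ι' : Type*} [Fintype ι] [Fintype ι'] (e : ι ≃ ι') (o : ι' → CO)
    (h : ι' → ℂ → ℂ) (x : ι' → ℝ)
    (hI : Integrable (fun t : ι → ℝ => Fg (fun i => o (e i)) (fun i => h (e i))
      (pos (fun i => x (e i)) t)) (Measure.pi fun _ => volume)) :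
    Integrable (fun t : ι' → ℝ => Fg o h (pos x t)) (Measure.pi fun _ => volume) := by
  have mp := measurePreserving_piCongrLeft (fun _ : ι' => (volume : Measure ℝ)) e
  refine (mp.integrable_comp_emb (MeasurableEquiv.measurableEmbedding _)).1 ?_
  refine hI.congr (Filter.Eventually.of_forall fun t => ?_)
  simp only [Function.comp]
  rw [← Fg_equiv e o h]
  congr 1
  funext i
  unfold pos
  congr 1
  exact (MeasurableEquiv.piCongrLeft_apply_apply (β := fun _ => ℝ) e t i).symm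

/-! ## kinds -/

/-- kinds of objects which are not quanta on A: a quantum on L, two kinds of strings -/
inductive O3
  | L | S | T
  deriving DecidableEq

instance : Fintype O3 := ⟨{.L, .S, .T}, fun x => by cases x <;> simp⟩

/-- type of an object -/
def ob3 : O3 → Ob
  | .L => .L
  | .S => .S
  | .T => .S

/-- type of an object -/
def ob4 (k : Option O3) : Ob := k.elim .A ob3

/-- number of quanta -/
def c3 (k : O3) : ℕ := chg (ob3 k)

theorem c3_pos (k : O3) : 0 < c3 k := chg_pos _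

theorem chg_ob4 (k : Option O3) : chg (ob4 k) = k.elim 1 c3 := by
  cases k <;> rfl

/-- one body functions of the four kinds -/
def one4 (G s₁ s₂ : ℂ → ℂ) : Option O3 → ℂ → ℂ
  | none => G
  | some .L => G
  | some .S => s₁
  | some .T => s₂

theorem one_fibre {G s₁ s₂ : ℂ → ℂ} (hs : ∀ w, s₁ w + s₂ w = G w * G (w - l)) (k : Ob) (z : ℂ) :
    one G k z = ∑ a ∈ Finset.univ.filter (fun a => ob4 a = k), one4 G s₁ s₂ a z := by
  cases k
  · have : (Finset.univ.filter fun a => ob4 a = Ob.A) = {none} := by decide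
    rw [this, Finset.sum_singleton]
    rfl
  · have : (Finset.univ.filter fun a => ob4 a = Ob.L) = {some .L} := by decide
    rw [this, Finset.sum_singleton]
    rfl
  · have : (Finset.univ.filter fun a => ob4 a = Ob.S) = {some .S, some .T} := by decide
    rw [this, Finset.sum_pair (by decide)]
    exact (hs z).symm

/-- own pair weight on the lines of the kinds -/
def pw4 (α β : ℝ) (a b : Option O3) (t t' : ℝ) : ℂ := pw α β (ob4 a) (ob4 b) t t'

/-- cross pair weight on the lines of the kinds -/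
def cw0 (α β : ℝ) (a b : Ob) (t t' : ℝ) : ℂ := cwz a b (pt α β a t - pt α β b t')

/-- one body functions on the lines of the kinds -/
def one4L (α β : ℝ) (X : Option O3 → ℂ → ℂ) (a : Option O3) (t : ℝ) : ℂ :=
  X a (pt α β (ob4 a) t)

theorem f_eq (α β : ℝ) (X : Option O3 → ℂ → ℂ) {r : ℕ} (c : Fin r → Option O3)
    (t : Fin r → ℝ) :
    Grand.f (fun a b => pw α β (ob4 a) (ob4 b)) c (one4L α β X) t =
      (∏ i, X (c i) (pos (fun i => rl α β (ob4 (c i))) t i)) *
        PU fun a b => pwz (ob4 (c a)) (ob4 (c b))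
          (pos (fun i => rl α β (ob4 (c i))) t a - pos (fun i => rl α β (ob4 (c i))) t b) := by
  unfold Grand.f
  rw [PU_fin]
  · rfl
  · intro a b
    rw [pwz_symm, neg_sub]

/-- the joint integral of two words of kinds -/
def Psi2 (α β : ℝ) (X Y : Option O3 → ℂ → ℂ) (k : ι → Option O3) (k' : ι' → Option O3) : ℂ :=
  Ig (oo (fun i => ob4 (k i)) (fun i => ob4 (k' i)))
    (Sum.elim (fun i => X (k i)) (fun i => Y (k' i)))
    (Sum.elim (fun i => rl α β (ob4 (k i))) (fun i => rl α β (ob4 (k' i))))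

theorem F_eq (α β : ℝ) (X Y : Option O3 → ℂ → ℂ) {r r' : ℕ} (c : Fin r → Option O3)
    (c' : Fin r' → Option O3) (p : (Fin r → ℝ) × (Fin r' → ℝ)) :
    Grand2.F (fun a b => pw α β (ob4 a) (ob4 b)) (fun a b => cw0 α β (ob4 a) (ob4 b))
      (one4L α β X) (one4L α β Y) c c' p =
    F2g (fun i => ob4 (c i)) (fun i => ob4 (c' i)) (fun i => X (c i)) (fun i => Y (c' i))
      (pos (fun i => rl α β (ob4 (c i))) p.1) (pos (fun i => rl α β (ob4 (c' i))) p.2) := by
  unfold Grand2.F F2g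
  rw [f_eq, f_eq]
  rfl

theorem J_eq (α β : ℝ) (X Y : Option O3 → ℂ → ℂ) {r r' : ℕ} (c : Fin r → Option O3)
    (c' : Fin r' → Option O3) :
    Grand2.J volume (fun a b => pw α β (ob4 a) (ob4 b)) (fun a b => cw0 α β (ob4 a) (ob4 b))
      (one4L α β X) (one4L α β Y) c c' = Psi2 α β X Y c c' := by
  unfold Grand2.J Psi2
  rw [Ig_sum]
  simp_rw [F_eq]

/-- the two species contour side is the sum over the kinds A, L, S -/
theorem Z2_eq_Grand2 (α β : ℝ) (n : ℕ) (GX GY : ℂ → ℂ) :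
    Bd.Z2 α β n GX GY =
      Grand2.Z2 volume chg wt (pw α β) (cw0 α β) n (oneL α β GX) (oneL α β GY) := rfl

/-- the total signed charge -/
theorem sum_sc {k : ι → Ob} {k' : ι' → Ob} (h : ∑ i, chg (k i) = ∑ i, chg (k' i)) :
    ∑ i, sc (oo k k' i) = 0 := by
  rw [Fintype.sum_sum_type]
  have h' : ∑ i, (chg (k i) : ℝ) = ∑ i, (chg (k' i) : ℝ) := by exact_mod_cast h
  simp [oo, sc, h']

/-- a sufficient condition for the absence of poles -/
def RO (o o' : CO) (d : ℝ) : Prop :=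
  if o.1 = o'.1 then
    match o.2, o'.2 with
    | .S, _ => True
    | _, .S => True
    | _, _ => |d| < l ∨ (l < |d| ∧ |d| < 7 * l)
  else
    match o.2, o'.2 with
    | .S, .S => -(2 * l) < d ∧ d < 2 * l
    | .S, _ => -(2 * l) < d ∧ d < 3 * l
    | _, .S => -(3 * l) < d ∧ d < 2 * l
    | _, _ => -(3 * l) < d ∧ d < 3 * l

theorem Ok_of_RO {o o' : CO} {d : ℝ} (h : RO o o' d) : Ok o o' d := by
  have hl := l_pos
  have hs' : ∀ x : ℝ, 0 < x → x < 8 * l → Real.sin x ≠ 0 := fun x h h' => (sin_pos_of h h').ne'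
  have hs'' : ∀ x : ℝ, x < 0 → -(8 * l) < x → Real.sin x ≠ 0 := fun x h h' => by
    have := sin_pos_of (x := -x) (by linarith) (by linarith)
    rw [Real.sin_neg] at this
    exact (by linarith : Real.sin x < 0).ne
  obtain ⟨c, k⟩ := o
  obtain ⟨c', k'⟩ := o'
  have hcc : c = c' ∨ c ≠ c' := em _
  have hq : |d| < l ∨ (l < |d| ∧ |d| < 7 * l) →
      Real.sin (d + l) ≠ 0 ∧ Real.sin (d + -l) ≠ 0 := by
    intro h
    rcases h with h | ⟨h1, h2⟩
    · rw [abs_lt] at h
      exact ⟨hs' _ (by linarith) (by linarith), hs'' _ (by linarith) (by linarith)⟩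
    · rcases le_total 0 d with h0 | h0
      · rw [abs_of_nonneg h0] at h1 h2
        exact ⟨hs' _ (by linarith) (by linarith), hs' _ (by linarith) (by linarith)⟩
      · rw [abs_of_nonpos h0] at h1 h2
        exact ⟨hs'' _ (by linarith) (by linarith), hs'' _ (by linarith) (by linarith)⟩
  have g3 : -(3 * l) < d → d < 3 * l → Real.sin (d + 3 * l) ≠ 0 ∧ Real.sin (d + -(3 * l)) ≠ 0 :=
    fun h1 h2 => ⟨hs' _ (by linarith) (by linarith), hs'' _ (by linarith) (by linarith)⟩
  have gm : -(2 * l) < d → d < 3 * l → Real.sin (d + 2 * l) ≠ 0 ∧ Real.sin (d + -(4 * l)) ≠ 0 :=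
    fun h1 h2 => ⟨hs' _ (by linarith) (by linarith), hs'' _ (by linarith) (by linarith)⟩
  have gp : -(3 * l) < d → d < 2 * l → Real.sin (d + 4 * l) ≠ 0 ∧ Real.sin (d + -(2 * l)) ≠ 0 :=
    fun h1 h2 => ⟨hs' _ (by linarith) (by linarith), hs'' _ (by linarith) (by linarith)⟩
  unfold Ok poles
  unfold RO at h
  rcases hcc with rfl | hc
  · simp only [if_true] at h ⊢
    cases k <;> cases k' <;>
      simp only [List.mem_cons, List.not_mem_nil, or_false, forall_eq_or_imp,
        forall_eq, false_imp_iff, implies_true] <;>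
      exact hq h
  · simp only [hc, if_false] at h ⊢
    cases k <;> cases k' <;>
      simp only [List.mem_cons, List.not_mem_nil, or_false, forall_eq_or_imp,
        forall_eq] <;>
      first
      | exact g3 h.1 h.2
      | exact ⟨(g3 h.1 (by linarith [h.2])).1, (g3 h.1 (by linarith [h.2])).2, gp h.1 h.2⟩
      | exact ⟨(g3 (by linarith [h.1]) h.2).1, (g3 (by linarith [h.1]) h.2).2, gm h.1 h.2⟩
      | skip
    have a1 := g3 (by linarith [h.1]) (by linarith [h.2])
    have a2 := gp (by linarith [h.1]) h.2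
    have a3 := gm h.1 (by linarith [h.2])
    exact ⟨a1.1, a1.2, a2.1, a2.2, a3.1, a3.2⟩

/-- no poles on the lines A, L, M -/
theorem Ok_rl {α β : ℝ} (h1 : l < α - β) (h2 : α - β < 3 * l) (o o' : CO) :
    Ok o o' (rl α β o.2 - rl α β o'.2) := by
  have hl := l_pos
  have hq : ∀ d : ℝ, (d = 0 ∨ d = α - β ∨ d = β - α) → |d| < l ∨ (l < |d| ∧ |d| < 7 * l) := by
    intro d hd
    rcases hd with rfl | rfl | rfl
    · left
      simpa using hl
    · right
      rw [abs_of_pos (by linarith)]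
      constructor <;> linarith
    · right
      rw [abs_of_neg (by linarith)]
      constructor <;> linarith
  refine Ok_of_RO ?_
  obtain ⟨c, k⟩ := o
  obtain ⟨c', k'⟩ := o'
  have hcc : c = c' ∨ c ≠ c' := em _
  unfold RO
  rcases hcc with rfl | hc
  · simp only [if_true]
    cases k <;> cases k' <;> simp only [rl] <;> exact hq _ (by simp)
  · simp only [hc, if_false]
    cases k <;> cases k' <;> simp only [rl] <;> constructor <;> linarith

theorem Ok_x0 {α β : ℝ} (h1 : l < α - β) (h2 : α - β < 3 * l) (k : ι → Ob) (k' : ι' → Ob)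
    (a b : ι ⊕ ι') : Ok (oo k k' a) (oo k k' b)
      (Sum.elim (fun i => rl α β (k i)) (fun i => rl α β (k' i)) a -
        Sum.elim (fun i => rl α β (k i)) (fun i => rl α β (k' i)) b) := by
  have e : ∀ a : ι ⊕ ι', Sum.elim (fun i => rl α β (k i)) (fun i => rl α β (k' i)) a =
      rl α β (oo k k' a).2 := by
    intro a
    rcases a with a | a <;> rfl
  rw [e, e]
  exact Ok_rl h1 h2 _ _

theorem integrable_x0 {α β : ℝ} (h1 : l < α - β) (h2 : α - β < 3 * l) {κ : ℝ} (hκ : 0 < κ)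
    {X Y : Option O3 → ℂ → ℂ} (hmX : ∀ k, Measurable (X k)) (hmY : ∀ k, Measurable (Y k))
    (hX : ∀ k, DecOn κ {rl α β (ob4 k)} (X k)) (hY : ∀ k, DecOn κ {rl α β (ob4 k)} (Y k))
    (k : ι → Option O3) (k' : ι' → Option O3)
    (hk : ∑ i, chg (ob4 (k i)) = ∑ i, chg (ob4 (k' i))) :
    Integrable (fun t : ι ⊕ ι' → ℝ => Fg (oo (fun i => ob4 (k i)) (fun i => ob4 (k' i)))
      (Sum.elim (fun i => X (k i)) (fun i => Y (k' i)))
      (pos (Sum.elim (fun i => rl α β (ob4 (k i))) (fun i => rl α β (ob4 (k' i)))) t))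
      (Measure.pi fun _ => volume) := by
  refine integrable_Fg (sum_sc hk) hκ ?_ ?_ fun a b _ => Ok_x0 h1 h2 _ _ a b
  · rintro (i | i)
    · exact hmX _
    · exact hmY _
  · rintro (i | i)
    · exact hX _
    · exact hY _

/-- **The contour side in the four kinds A, L, S, T.** -/
theorem Z2_eq4 {α β : ℝ} (h1 : l < α - β) (h2 : α - β < 3 * l) {κ : ℝ} (hκ : 0 < κ)
    {GX GY : ℂ → ℂ} {X Y : Option O3 → ℂ → ℂ}
    (hmX : ∀ k, Measurable (X k)) (hmY : ∀ k, Measurable (Y k))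
    (hX : ∀ k, DecOn κ {rl α β (ob4 k)} (X k)) (hY : ∀ k, DecOn κ {rl α β (ob4 k)} (Y k))
    (hsX : ∀ k t, oneL α β GX k t =
      ∑ a ∈ Finset.univ.filter (fun a => ob4 a = k), one4L α β X a t)
    (hsY : ∀ k t, oneL α β GY k t =
      ∑ a ∈ Finset.univ.filter (fun a => ob4 a = k), one4L α β Y a t) (n : ℕ) :
    Bd.Z2 α β n GX GY =
      ∑ r' ∈ Finset.range (n + 1), ((r'.factorial : ℕ) : ℂ)⁻¹ * ∑ k' : Fin r' → Option O3,
        if ∑ i, (k' i).elim 1 c3 = n then (∏ i, wt (ob4 (k' i))) *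
          ∑ r ∈ Finset.range (n + 1), ((r.factorial : ℕ) : ℂ)⁻¹ * ∑ k : Fin r → Option O3,
            if ∑ i, (k i).elim 1 c3 = n then (∏ i, wt (ob4 (k i))) * Psi2 α β X Y k k' else 0
        else 0 := by
  rw [Z2_eq_Grand2]
  have := Grand2.Z2_split volume chg wt (pw α β) (cw0 α β) ob4 hsX hsY n (fun r r' c c' hc hc' => by
    have h3 := integrable_sum (integrable_x0 h1 h2 hκ hmX hmY hX hY c c' (hc.trans hc'.symm))
    refine h3.congr (Filter.Eventually.of_forall fun p => ?_)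
    simp only []
    rw [F_eq, pos_elim, Fg_sum])
  rw [this]
  unfold Grand2.Z2
  simp_rw [J_eq, chg_ob4]

/-! ## peeling off the quanta on A -/

theorem Psi2_equiv (α β : ℝ) (X Y : Option O3 → ℂ → ℂ) {ι₁ ι₂ ι' : Type*} [Fintype ι₁]
    [Fintype ι₂] [Fintype ι'] (e : ι₁ ≃ ι₂) (k : ι₂ → Option O3) (k' : ι' → Option O3) :
    Psi2 α β X Y (k ∘ e) k' = Psi2 α β X Y k k' := by
  unfold Psi2
  rw [← Ig_equiv (Equiv.sumCongr e (Equiv.refl ι'))]
  congr 1
  · funext i
    rcases i with i | i <;> rfl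
  · funext i
    rcases i with i | i <;> rfl
  · funext i
    rcases i with i | i <;> rfl

theorem Psi2_equiv' (α β : ℝ) (X Y : Option O3 → ℂ → ℂ) {ι ι₁ ι₂ : Type*} [Fintype ι₁]
    [Fintype ι₂] [Fintype ι] (e : ι₁ ≃ ι₂) (k : ι → Option O3) (k' : ι₂ → Option O3) :
    Psi2 α β X Y k (k' ∘ e) = Psi2 α β X Y k k' := by
  unfold Psi2
  rw [← Ig_equiv (Equiv.sumCongr (Equiv.refl ι) e)]
  congr 1
  · funext i
    rcases i with i | i <;> rfl
  · funext i
    rcases i with i | i <;> rfl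
  · funext i
    rcases i with i | i <;> rfl

/-- a word with `a` quanta on A and the other objects `k` -/
def kA (a : ℕ) {p : ℕ} (k : Fin p → O3) : Fin a ⊕ Fin p → Option O3 :=
  Sum.elim (fun _ => none) (fun i => some (k i))

theorem prod_wt_kA (a : ℕ) {p : ℕ} (k : Fin p → O3) :
    ∏ i, wt (ob4 (kA a k i)) = wt .A ^ a * ∏ i, wt (ob3 (k i)) := by
  rw [Fintype.prod_sum_type]
  simp [kA, ob4]

/-- number of quanta on A -/
def nA (n : ℕ) {p : ℕ} (k : Fin p → O3) : ℕ := n - ∑ i, c3 (k i)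

/-- **Canonical form**: the quanta on A and the other objects. -/
theorem Z2_canon {α β : ℝ} (h1 : l < α - β) (h2 : α - β < 3 * l) {κ : ℝ} (hκ : 0 < κ)
    {GX GY : ℂ → ℂ} {X Y : Option O3 → ℂ → ℂ}
    (hmX : ∀ k, Measurable (X k)) (hmY : ∀ k, Measurable (Y k))
    (hX : ∀ k, DecOn κ {rl α β (ob4 k)} (X k)) (hY : ∀ k, DecOn κ {rl α β (ob4 k)} (Y k))
    (hsX : ∀ k t, oneL α β GX k t =
      ∑ a ∈ Finset.univ.filter (fun a => ob4 a = k), one4L α β X a t)
    (hsY : ∀ k t, oneL α β GY k t =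
      ∑ a ∈ Finset.univ.filter (fun a => ob4 a = k), one4L α β Y a t) (n : ℕ) :
    Bd.Z2 α β n GX GY =
      ∑ p' ∈ Finset.range (n + 1), ((p'.factorial : ℕ) : ℂ)⁻¹ * ∑ k' : Fin p' → O3,
        if ∑ i, c3 (k' i) ≤ n then (((nA n k').factorial : ℕ) : ℂ)⁻¹ *
          ((∏ i, wt (ob4 (kA (nA n k') k' i))) *
          ∑ p ∈ Finset.range (n + 1), ((p.factorial : ℕ) : ℂ)⁻¹ * ∑ k : Fin p → O3,
            if ∑ i, c3 (k i) ≤ n then (((nA n k).factorial : ℕ) : ℂ)⁻¹ *
              ((∏ i, wt (ob4 (kA (nA n k) k i))) *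
              Psi2 α β X Y (kA (nA n k) k) (kA (nA n k') k')) else 0)
        else 0 := by
  rw [Z2_eq4 h1 h2 hκ hmX hmY hX hY hsX hsY n]
  have e1 : ∀ (r' : ℕ) (k' : Fin r' → Option O3),
      ∑ r ∈ Finset.range (n + 1), ((r.factorial : ℕ) : ℂ)⁻¹ * ∑ k : Fin r → Option O3,
        (if ∑ i, (k i).elim 1 c3 = n then (∏ i, wt (ob4 (k i))) * Psi2 α β X Y k k' else 0) =
      ∑ p ∈ Finset.range (n + 1), ((p.factorial : ℕ) : ℂ)⁻¹ * ∑ k : Fin p → O3,
            if ∑ i, c3 (k i) ≤ n then (((nA n k).factorial : ℕ) : ℂ)⁻¹ *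
              ((∏ i, wt (ob4 (kA (nA n k) k i))) * Psi2 α β X Y (kA (nA n k) k) k')
            else 0 := by
    intro r' k'
    exact peel c3 c3_pos (fun i _ k => (∏ i, wt (ob4 (k i))) * Psi2 α β X Y k k')
      (fun i i' _ _ e k => by
        rw [Psi2_equiv]
        congr 1
        exact e.prod_comp (fun i => wt (ob4 (k i)))) n
  simp_rw [e1]
  exact peel c3 c3_pos (fun i _ k' => (∏ i, wt (ob4 (k' i))) *
      ∑ p ∈ Finset.range (n + 1), ((p.factorial : ℕ) : ℂ)⁻¹ * ∑ k : Fin p → O3,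
            if ∑ i, c3 (k i) ≤ n then (((nA n k).factorial : ℕ) : ℂ)⁻¹ *
              ((∏ i, wt (ob4 (kA (nA n k) k i))) * Psi2 α β X Y (kA (nA n k) k) k')
            else 0)
      (fun i i' _ _ e k => by
        simp only [Psi2_equiv']
        congr 1
        exact e.prod_comp (fun i => wt (ob4 (k i)))) n

/-! ## moving the lines -/

/-- the strips: quanta on A stay on `Re = α`, quanta on L move in `[bl, bh]`, strings of kind S
move in `[sl, sh]`, strings of kind T in the smaller strip `[tl, th]` -/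
structure Strips (α bl bh sl sh tl th : ℝ) : Prop where
  ht1 : sl ≤ tl
  ht2 : th ≤ sh
  h1 : bh + l < α
  h2 : α - bl < 3 * l
  h3 : bh - bl < l
  h4 : α - sl < 2 * l
  h5 : sh - α < 3 * l
  h6 : bh - sl < 2 * l
  h7 : sh - bl < 3 * l
  h8 : sh - sl < 2 * l

/-- left end of the strip of a kind -/
def lo4 (α bl sl tl : ℝ) : Option O3 → ℝ
  | none => α
  | some .L => bl
  | some .S => sl
  | some .T => tl

theorem RO_strips {α bl bh sl sh tl th : ℝ} (hs : Strips α bl bh sl sh tl th) (c c' : Bool)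
    (k k' : Option O3) {u v : ℝ} (hu : u ∈ Set.Icc (lo4 α bl sl tl k) (lo4 α bh sh th k))
    (hv : v ∈ Set.Icc (lo4 α bl sl tl k') (lo4 α bh sh th k')) :
    RO (c, ob4 k) (c', ob4 k') (u - v) := by
  have hl := l_pos
  obtain ⟨ht1, ht2, h1, h2, h3, h4, h5, h6, h7, h8⟩ := hs
  obtain ⟨hu1, hu2⟩ := hu
  obtain ⟨hv1, hv2⟩ := hv
  have e0 : ∀ {u v : ℝ}, α ≤ u → u ≤ α → α ≤ v → v ≤ α → |u - v| < l := by
    intro u v a b c d
    rw [abs_lt]
    constructor <;> linarith
  have e1 : ∀ {u v : ℝ}, α ≤ u → u ≤ α → bl ≤ v → v ≤ bh → l < |u - v| ∧ |u - v| < 7 * l := by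
    intro u v a b c d
    rw [abs_of_pos (by linarith)]
    constructor <;> linarith
  have e2 : ∀ {u v : ℝ}, bl ≤ u → u ≤ bh → α ≤ v → v ≤ α → l < |u - v| ∧ |u - v| < 7 * l := by
    intro u v a b c d
    rw [abs_of_neg (by linarith)]
    constructor <;> linarith
  have e3 : ∀ {u v : ℝ}, bl ≤ u → u ≤ bh → bl ≤ v → v ≤ bh → |u - v| < l := by
    intro u v a b c d
    rw [abs_lt]
    constructor <;> linarith
  have hcc : c = c' ∨ c ≠ c' := em _
  unfold RO
  rcases hcc with rfl | hc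
  · simp only [if_true]
    rcases k with _ | k
    · rcases k' with _ | k'
      · exact Or.inl (e0 hu1 hu2 hv1 hv2)
      · cases k'
        · exact Or.inr (e1 hu1 hu2 hv1 hv2)
        · trivial
        · trivial
    · rcases k' with _ | k'
      · cases k
        · exact Or.inr (e2 hu1 hu2 hv1 hv2)
        · trivial
        · trivial
      · cases k <;> cases k' <;> first | trivial | exact Or.inl (e3 hu1 hu2 hv1 hv2)
  · simp only [hc, if_false]
    rcases k with _ | k <;> rcases k' with _ | k' <;> (try cases k) <;> (try cases k') <;>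
      simp only [lo4] at hu1 hu2 hv1 hv2 <;> simp only [ob4, ob3, Option.elim] <;>
      constructor <;> linarith

/-- **Moving the lines** of a joint integral. -/
theorem Psi2_shift {α β bl bh sl sh tl th : ℝ} (hs : Strips α bl bh sl sh tl th)
    (hβ : β ∈ Set.Icc bl bh) (hβ' : β + l ∈ Set.Icc tl th) {κ : ℝ} (hκ : 0 < κ)
    {X Y : Option O3 → ℂ → ℂ} (hmX : ∀ k, Measurable (X k)) (hmY : ∀ k, Measurable (Y k))
    (hX : ∀ k, DecOn κ (Set.Icc (lo4 α bl sl tl k) (lo4 α bh sh th k)) (X k))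
    (hY : ∀ k, DecOn κ (Set.Icc (lo4 α bl sl tl k) (lo4 α bh sh th k)) (Y k))
    (hcX : ∀ k : O3, ContinuousOn (X (some k)) (CS (lo4 α bl sl tl k) (lo4 α bh sh th k)))
    (hcY : ∀ k : O3, ContinuousOn (Y (some k)) (CS (lo4 α bl sl tl k) (lo4 α bh sh th k)))
    (hdX : ∀ k : O3, DifferentiableOn ℂ (X (some k)) (OS (lo4 α bl sl tl k) (lo4 α bh sh th k)))
    (hdY : ∀ k : O3, DifferentiableOn ℂ (Y (some k)) (OS (lo4 α bl sl tl k) (lo4 α bh sh th k)))
    (k : ι → Option O3) (k' : ι' → Option O3)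
    (hk : ∑ i, chg (ob4 (k i)) = ∑ i, chg (ob4 (k' i))) (x : ι → ℝ) (x' : ι' → ℝ)
    (hx : ∀ i, x i ∈ Set.Icc (lo4 α bl sl tl (k i)) (lo4 α bh sh th (k i)))
    (hx' : ∀ i, x' i ∈ Set.Icc (lo4 α bl sl tl (k' i)) (lo4 α bh sh th (k' i))) :
    Psi2 α β X Y k k' = Ig (oo (fun i => ob4 (k i)) (fun i => ob4 (k' i)))
      (Sum.elim (fun i => X (k i)) (fun i => Y (k' i))) (Sum.elim x x') := by
  have hrl : ∀ k, rl α β (ob4 k) ∈ Set.Icc (lo4 α bl sl tl k) (lo4 α bh sh th k) := by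
    intro k
    rcases k with _ | k
    · exact ⟨le_rfl, le_rfl⟩
    · cases k
      · exact hβ
      · exact ⟨hs.ht1.trans hβ'.1, hβ'.2.trans hs.ht2⟩
      · exact hβ'
  unfold Psi2
  refine shift_all (sum_sc hk)
    (lo := Sum.elim (fun i => lo4 α bl sl tl (k i)) (fun i => lo4 α bl sl tl (k' i)))
    (hi := Sum.elim (fun i => lo4 α bh sh th (k i)) (fun i => lo4 α bh sh th (k' i)))
    hκ ?_ ?_ ?_ ?_ ?_ ?_ ?_
  · rintro (i | i)
    · exact hmX _
    · exact hmY _
  · rintro (i | i)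
    · exact hrl _
    · exact hrl _
  · rintro (i | i)
    · exact hx i
    · exact hx' i
  · rintro (i | i)
    · exact hX _
    · exact hY _
  · rintro (i | i) h
    · simp only [Sum.elim_inl] at h ⊢
      rcases hki : k i with _ | k0
      · rw [hki] at h
        exact absurd h (lt_irrefl _)
      · exact hcX k0
    · simp only [Sum.elim_inr] at h ⊢
      rcases hki : k' i with _ | k0
      · rw [hki] at h
        exact absurd h (lt_irrefl _)
      · exact hcY k0
  · rintro (i | i) h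
    · simp only [Sum.elim_inl] at h ⊢
      rcases hki : k i with _ | k0
      · rw [hki] at h
        exact absurd h (lt_irrefl _)
      · exact hdX k0
    · simp only [Sum.elim_inr] at h ⊢
      rcases hki : k' i with _ | k0
      · rw [hki] at h
        exact absurd h (lt_irrefl _)
      · exact hdY k0
  · rintro (a | a) (b | b) _ u hu v hv <;> exact Ok_of_RO (RO_strips hs _ _ _ _ hu hv)

/-! ## outer and inner integral -/

/-- a one body function in the field of the objects `(o, z)`; `o0` = species and type of the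
particle -/
def fld (o : ι → CO) (z : ι → ℂ) (o0 : CO) (G : ℂ → ℂ) (v : ℂ) : ℂ :=
  G v * ∏ b, gz o0 (o b) (v - z b)

/-- separation of a family of objects from another one -/
theorem Fg_split (oA : ι → CO) (oB : ι' → CO) (hA : ι → ℂ → ℂ) (hB : ι' → ℂ → ℂ) (zA : ι → ℂ)
    (zB : ι' → ℂ) :
    Fg (Sum.elim oA oB) (Sum.elim hA hB) (Sum.elim zA zB) =
      Fg oB hB zB * Fg oA (fun i => fld oB zB (oA i) (hA i)) zA := by
  unfold Fg fld
  rw [PU_sum (gz_pair_symm _ _), Fintype.prod_sum_type]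
  simp only [Sum.elim_inl, Sum.elim_inr]
  rw [Finset.prod_mul_distrib]
  ring

theorem Ig_split (oA : ι → CO) (oB : ι' → CO) (hA : ι → ℂ → ℂ) (hB : ι' → ℂ → ℂ) (xA : ι → ℝ)
    (xB : ι' → ℝ)
    (hI : Integrable (fun t : ι ⊕ ι' → ℝ => Fg (Sum.elim oA oB) (Sum.elim hA hB)
      (pos (Sum.elim xA xB) t)) (Measure.pi fun _ => volume)) :
    Ig (Sum.elim oA oB) (Sum.elim hA hB) (Sum.elim xA xB) =
      ∫ t, Fg oB hB (pos xB t) * Ig oA (fun i => fld oB (pos xB t) (oA i) (hA i)) xA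
        ∂(Measure.pi fun _ => volume) := by
  unfold Ig
  rw [integral_sum, integral_prod_symm _ (integrable_sum hI)]
  refine integral_congr_ae (Filter.Eventually.of_forall fun t => ?_)
  simp only []
  rw [← integral_const_mul]
  refine integral_congr_ae (Filter.Eventually.of_forall fun s => ?_)
  simp only []
  rw [pos_elim, Fg_split]

theorem integrable_split (oA : ι → CO) (oB : ι' → CO) (hA : ι → ℂ → ℂ) (hB : ι' → ℂ → ℂ)
    (xA : ι → ℝ) (xB : ι' → ℝ)
    (hI : Integrable (fun t : ι ⊕ ι' → ℝ => Fg (Sum.elim oA oB) (Sum.elim hA hB)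
      (pos (Sum.elim xA xB) t)) (Measure.pi fun _ => volume)) :
    Integrable (fun t => Fg oB hB (pos xB t) *
      Ig oA (fun i => fld oB (pos xB t) (oA i) (hA i)) xA) (Measure.pi fun _ => volume) := by
  have h := (integrable_sum hI).integral_prod_right
  refine h.congr (Filter.Eventually.of_forall fun t => ?_)
  simp only []
  unfold Ig
  rw [← integral_const_mul]
  refine integral_congr_ae (Filter.Eventually.of_forall fun s => ?_)
  simp only []
  rw [pos_elim, Fg_split]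

/-- the two species gas of quanta on the line `x` with the one body functions `H`, `H'` -/
def gas (a a' : ℕ) (x : ℝ) (H H' : ℂ → ℂ) : ℂ :=
  ((a.factorial : ℕ) : ℂ)⁻¹ * ((a'.factorial : ℕ) : ℂ)⁻¹ * ((2 * Real.pi : ℂ)⁻¹ ^ a *
    (2 * Real.pi : ℂ)⁻¹ ^ a') *
  Ig (oo (fun _ : Fin a => Ob.A) (fun _ : Fin a' => Ob.A))
    (Sum.elim (fun _ => H) (fun _ => H')) (fun _ => x)

/-- species and types of the objects which are not quanta on A -/
def o3 {p p' : ℕ} (k : Fin p → O3) (k' : Fin p' → O3) : Fin p ⊕ Fin p' → CO :=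
  oo (fun i => ob3 (k i)) (fun i => ob3 (k' i))

/-- one body functions of the objects which are not quanta on A -/
def h3 (X Y : Option O3 → ℂ → ℂ) {p p' : ℕ} (k : Fin p → O3) (k' : Fin p' → O3) :
    Fin p ⊕ Fin p' → ℂ → ℂ := Sum.elim (fun i => X (some (k i))) (fun i => Y (some (k' i)))

theorem Ig_canon (X Y : Option O3 → ℂ → ℂ) (α : ℝ) (a a' : ℕ) {p p' : ℕ} (k : Fin p → O3)
    (k' : Fin p' → O3) (x : Fin p → ℝ) (x' : Fin p' → ℝ)
    (hI : Integrable (fun t : (Fin a ⊕ Fin p) ⊕ (Fin a' ⊕ Fin p') → ℝ =>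
      Fg (oo (fun i => ob4 (kA a k i)) (fun i => ob4 (kA a' k' i)))
        (Sum.elim (fun i => X (kA a k i)) (fun i => Y (kA a' k' i)))
        (pos (Sum.elim (Sum.elim (fun _ => α) x) (Sum.elim (fun _ => α) x')) t))
        (Measure.pi fun _ => volume)) :
    Ig (oo (fun i => ob4 (kA a k i)) (fun i => ob4 (kA a' k' i)))
      (Sum.elim (fun i => X (kA a k i)) (fun i => Y (kA a' k' i)))
      (Sum.elim (Sum.elim (fun _ => α) x) (Sum.elim (fun _ => α) x')) =
    ∫ t, Fg (o3 k k') (h3 X Y k k') (pos (Sum.elim x x') t) *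
      Ig (oo (fun _ : Fin a => Ob.A) (fun _ : Fin a' => Ob.A))
        (Sum.elim (fun _ => fld (o3 k k') (pos (Sum.elim x x') t) (true, .A) (X none))
          (fun _ => fld (o3 k k') (pos (Sum.elim x x') t) (false, .A) (Y none))) (fun _ => α)
        ∂(Measure.pi fun _ => volume) := by
  set e := Equiv.sumSumSumComm (Fin a) (Fin p) (Fin a') (Fin p') with he
  have e1 : ∀ i, Sum.elim (oo (fun _ : Fin a => Ob.A) (fun _ : Fin a' => Ob.A)) (o3 k k') (e i) =
      oo (fun i => ob4 (kA a k i)) (fun i => ob4 (kA a' k' i)) i := by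
    intro i
    rcases i with (i | i) | (i | i) <;> rfl
  have e2 : ∀ i, Sum.elim (Sum.elim (fun _ : Fin a => X none) (fun _ : Fin a' => Y none))
      (h3 X Y k k') (e i) = Sum.elim (fun i => X (kA a k i)) (fun i => Y (kA a' k' i)) i := by
    intro i
    rcases i with (i | i) | (i | i) <;> rfl
  have e3 : ∀ i, Sum.elim (fun _ : Fin a ⊕ Fin a' => α) (Sum.elim x x') (e i) =
      Sum.elim (Sum.elim (fun _ => α) x) (Sum.elim (fun _ => α) x') i := by
    intro i
    rcases i with (i | i) | (i | i) <;> rfl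
  have hI' := hI
  simp_rw [← funext e1, ← funext e2, ← funext e3] at hI'
  have hI2 := integrable_equiv e _ _ _ hI'
  rw [← funext e1, ← funext e2, ← funext e3, Ig_equiv e, Ig_split _ _ _ _ _ _ hI2]
  refine integral_congr_ae (Filter.Eventually.of_forall fun t => ?_)
  simp only []
  congr 2
  funext i
  rcases i with i | i <;> rfl

/-! ## the formula -/

/-- one body functions of a species: `G` = the function of the quanta of the contour identity,
`X` = the functions of the four kinds -/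
structure Data (α β bl bh sl sh tl th κ : ℝ) (G : ℂ → ℂ) (X : Option O3 → ℂ → ℂ) : Prop where
  meas : ∀ k, Measurable (X k)
  dec : ∀ k, DecOn κ (Set.Icc (lo4 α bl sl tl k) (lo4 α bh sh th k)) (X k)
  cont : ∀ k : O3, ContinuousOn (X (some k)) (CS (lo4 α bl sl tl k) (lo4 α bh sh th k))
  diff : ∀ k : O3, DifferentiableOn ℂ (X (some k)) (OS (lo4 α bl sl tl k) (lo4 α bh sh th k))
  split : ∀ k t, oneL α β G k t =
    ∑ a ∈ Finset.univ.filter (fun a => ob4 a = k), one4L α β X a t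

theorem rl_mem {α β bl bh sl sh tl th : ℝ} (ht1 : sl ≤ tl) (ht2 : th ≤ sh)
    (hβ : β ∈ Set.Icc bl bh) (hβ' : β + l ∈ Set.Icc tl th)
    (k : Option O3) : rl α β (ob4 k) ∈ Set.Icc (lo4 α bl sl tl k) (lo4 α bh sh th k) := by
  rcases k with _ | k
  · exact ⟨le_rfl, le_rfl⟩
  · cases k
    · exact hβ
    · exact ⟨ht1.trans hβ'.1, hβ'.2.trans ht2⟩
    · exact hβ'

/-- integrability on all systems of lines in the strips -/
theorem integrable_strips {α bl bh sl sh tl th : ℝ} (hs : Strips α bl bh sl sh tl th) {κ : ℝ} (hκ : 0 < κ)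
    {X Y : Option O3 → ℂ → ℂ} (hmX : ∀ k, Measurable (X k)) (hmY : ∀ k, Measurable (Y k))
    (hX : ∀ k, DecOn κ (Set.Icc (lo4 α bl sl tl k) (lo4 α bh sh th k)) (X k))
    (hY : ∀ k, DecOn κ (Set.Icc (lo4 α bl sl tl k) (lo4 α bh sh th k)) (Y k))
    (k : ι → Option O3) (k' : ι' → Option O3)
    (hk : ∑ i, chg (ob4 (k i)) = ∑ i, chg (ob4 (k' i))) (x : ι → ℝ) (x' : ι' → ℝ)
    (hx : ∀ i, x i ∈ Set.Icc (lo4 α bl sl tl (k i)) (lo4 α bh sh th (k i)))
    (hx' : ∀ i, x' i ∈ Set.Icc (lo4 α bl sl tl (k' i)) (lo4 α bh sh th (k' i))) :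
    Integrable (fun t => Fg (oo (fun i => ob4 (k i)) (fun i => ob4 (k' i)))
      (Sum.elim (fun i => X (k i)) (fun i => Y (k' i))) (pos (Sum.elim x x') t))
      (Measure.pi fun _ => volume) := by
  refine integrable_Fg (sum_sc hk) hκ ?_ ?_ ?_
  · rintro (i | i)
    · exact hmX _
    · exact hmY _
  · rintro (i | i)
    · refine (hX (k i)).mono fun y hy => ?_
      rw [Set.mem_singleton_iff] at hy
      rw [hy]
      exact hx i
    · refine (hY (k' i)).mono fun y hy => ?_
      rw [Set.mem_singleton_iff] at hy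
      rw [hy]
      exact hx' i
  · have hin : ∀ a : ι ⊕ ι', ∃ (c : Bool) (k0 : Option O3), oo (fun i => ob4 (k i))
        (fun i => ob4 (k' i)) a = (c, ob4 k0) ∧
        Sum.elim x x' a ∈ Set.Icc (lo4 α bl sl tl k0) (lo4 α bh sh th k0) := by
      rintro (a | a)
      · exact ⟨true, k a, rfl, hx a⟩
      · exact ⟨false, k' a, rfl, hx' a⟩
    intro a b _
    obtain ⟨c, k0, e0, h0⟩ := hin a
    obtain ⟨c', k1, e1, h1⟩ := hin b
    rw [e0, e1]
    exact Ok_of_RO (RO_strips hs _ _ _ _ h0 h1)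

theorem sum_chg_kA (n : ℕ) {p : ℕ} (k : Fin p → O3) (hk : ∑ i, c3 (k i) ≤ n) :
    ∑ i, chg (ob4 (kA (nA n k) k i)) = n := by
  rw [Fintype.sum_sum_type]
  have e1 : ∀ i : Fin (nA n k), chg (ob4 (kA (nA n k) k (Sum.inl i))) = 1 := fun _ => rfl
  have e2 : ∀ i : Fin p, chg (ob4 (kA (nA n k) k (Sum.inr i))) = c3 (k i) := fun _ => rfl
  simp only [e1, e2, Finset.sum_const, Finset.card_univ, Fintype.card_fin, smul_eq_mul, mul_one]
  unfold nA
  omega

/-- the contribution of given objects which are not quanta on A: `x`, `x'` = their lines -/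
def term (X Y : Option O3 → ℂ → ℂ) (α : ℝ) (n : ℕ) {p p' : ℕ} (k : Fin p → O3)
    (k' : Fin p' → O3) (x : Fin p → ℝ) (x' : Fin p' → ℝ) : ℂ :=
  (∏ i, wt (ob3 (k i))) * (∏ i, wt (ob3 (k' i))) *
    ∫ t, Fg (o3 k k') (h3 X Y k k') (pos (Sum.elim x x') t) *
      gas (nA n k) (nA n k') α (fld (o3 k k') (pos (Sum.elim x x') t) (true, .A) (X none))
        (fld (o3 k k') (pos (Sum.elim x x') t) (false, .A) (Y none))
        ∂(Measure.pi fun _ => volume)

/-- **Stage 2**: the contour side of two species as a sum over the objects L, S, T on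
arbitrary lines (in the strips) of a gas of quanta on A in the field of these objects. -/
theorem stage2 {α β bl bh sl sh tl th : ℝ} (hs : Strips α bl bh sl sh tl th)
    (hβ : β ∈ Set.Icc bl bh) (hβ' : β + l ∈ Set.Icc tl th) {κ : ℝ} (hκ : 0 < κ)
    {GX GY : ℂ → ℂ} {X Y : Option O3 → ℂ → ℂ} (hX : Data α β bl bh sl sh tl th κ GX X)
    (hY : Data α β bl bh sl sh tl th κ GY Y) (n : ℕ)
    (lnX : ∀ p p' : ℕ, (Fin p → O3) → (Fin p' → O3) → Fin p → ℝ)
    (lnY : ∀ p p' : ℕ, (Fin p → O3) → (Fin p' → O3) → Fin p' → ℝ)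
    (hlX : ∀ p p' k k' i,
      lnX p p' k k' i ∈ Set.Icc (lo4 α bl sl tl (some (k i))) (lo4 α bh sh th (some (k i))))
    (hlY : ∀ p p' k k' i,
      lnY p p' k k' i ∈ Set.Icc (lo4 α bl sl tl (some (k' i))) (lo4 α bh sh th (some (k' i)))) :
    Bd.Z2 α β n GX GY =
      ∑ p' ∈ Finset.range (n + 1), ∑ p ∈ Finset.range (n + 1),
        ((p'.factorial : ℕ) : ℂ)⁻¹ * ((p.factorial : ℕ) : ℂ)⁻¹ *
        ∑ k' : Fin p' → O3, ∑ k : Fin p → O3,
          if ∑ i, c3 (k' i) ≤ n ∧ ∑ i, c3 (k i) ≤ n then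
            term X Y α n k k' (lnX p p' k k') (lnY p p' k k') else 0 := by
  have h1 : l < α - β := by linarith [hs.h1, hβ.2]
  have h2 : α - β < 3 * l := by linarith [hs.h2, hβ.1]
  have hdX : ∀ k, DecOn κ {rl α β (ob4 k)} (X k) := fun k =>
    (hX.dec k).mono (Set.singleton_subset_iff.2 (rl_mem hs.ht1 hs.ht2 hβ hβ' k))
  have hdY : ∀ k, DecOn κ {rl α β (ob4 k)} (Y k) := fun k =>
    (hY.dec k).mono (Set.singleton_subset_iff.2 (rl_mem hs.ht1 hs.ht2 hβ hβ' k))
  rw [Z2_canon h1 h2 hκ hX.meas hY.meas hdX hdY hX.split hY.split n]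
  -- one term
  have key : ∀ {p p' : ℕ} (k : Fin p → O3) (k' : Fin p' → O3), ∑ i, c3 (k i) ≤ n →
      ∑ i, c3 (k' i) ≤ n →
      (((nA n k').factorial : ℕ) : ℂ)⁻¹ * ((∏ i, wt (ob4 (kA (nA n k') k' i))) *
        ((((nA n k).factorial : ℕ) : ℂ)⁻¹ * ((∏ i, wt (ob4 (kA (nA n k) k i))) *
          Psi2 α β X Y (kA (nA n k) k) (kA (nA n k') k')))) =
      term X Y α n k k' (lnX p p' k k') (lnY p p' k k') := by
    intro p p' k k' hk hk'
    have hch : ∑ i, chg (ob4 (kA (nA n k) k i)) = ∑ i, chg (ob4 (kA (nA n k') k' i)) := by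
      rw [sum_chg_kA n k hk, sum_chg_kA n k' hk']
    have hx1 : ∀ i, Sum.elim (fun _ => α) (lnX p p' k k') i ∈
        Set.Icc (lo4 α bl sl tl (kA (nA n k) k i)) (lo4 α bh sh th (kA (nA n k) k i)) := by
      rintro (i | i)
      · exact ⟨le_rfl, le_rfl⟩
      · exact hlX p p' k k' i
    have hx2 : ∀ i, Sum.elim (fun _ => α) (lnY p p' k k') i ∈
        Set.Icc (lo4 α bl sl tl (kA (nA n k') k' i)) (lo4 α bh sh th (kA (nA n k') k' i)) := by
      rintro (i | i)
      · exact ⟨le_rfl, le_rfl⟩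
      · exact hlY p p' k k' i
    rw [Psi2_shift hs hβ hβ' hκ hX.meas hY.meas hX.dec hY.dec hX.cont hY.cont hX.diff hY.diff
      (kA (nA n k) k) (kA (nA n k') k') hch _ _ hx1 hx2,
      Ig_canon X Y α _ _ k k' _ _ (integrable_strips hs hκ hX.meas hY.meas hX.dec hY.dec
        (kA (nA n k) k) (kA (nA n k') k') hch _ _ hx1 hx2),
      prod_wt_kA, prod_wt_kA]
    unfold term gas
    rw [← integral_const_mul, ← integral_const_mul, ← integral_const_mul, ← integral_const_mul,
      ← integral_const_mul]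
    refine integral_congr_ae (Filter.Eventually.of_forall fun t => ?_)
    simp only [wt]
    ring
  refine Finset.sum_congr rfl fun p' _ => ?_
  simp_rw [Finset.mul_sum]
  rw [Finset.sum_comm]
  refine Finset.sum_congr rfl fun k' _ => ?_
  by_cases hk' : ∑ i, c3 (k' i) ≤ n
  · simp only [hk', true_and, if_true]
    simp only [Finset.mul_sum]
    refine Finset.sum_congr rfl fun p _ => Finset.sum_congr rfl fun k _ => ?_
    by_cases hk : ∑ i, c3 (k i) ≤ n
    · simp only [if_pos hk]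
      rw [← key k k' hk hk']
      ring
    · simp only [if_neg hk, mul_zero]
  · simp [hk']

end NUP1S

end
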