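import Pool.Agent.NUP1S.Exact
import Pool.Agent.NUO.Obj

/-!
# Stage 3 for the lines of `NUO.Obj`
-/

set_option autoImplicit false
set_option linter.unusedSectionVars false

noncomputable section

open Complex MeasureTheory NUP1 Set Filter Topology
open scoped Real

namespace NUP1S

open NUP1.Bd (cwz pwz qg chg sin_pos_of Ob)

/-- `α = l / 4`, first line L at offset `19 / 10`, any offset `jL` between 2 and 3 for L. -/
theorem par_J {ε jL : ℝ} (h0 : 0 < ε) (h1 : ε < 1) (j1 : 2 < jL) (j2 : jL < 3) :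
    Par (l / 4) (-(19 / 10 * l)) (4 / 3 * (1 - ε)) (3 * l / 2) (4 / 3) (5 / 4 * l)
      (min (-(19 / 10 * l)) ((1 - jL) * l)) (max (-(11 / 10 * l)) ((1 - jL) * l))
      (-(33 / 20 * l)) (-(l / 2)) (-(9 / 10 * l)) (-(l / 2)) := by
  have hl := Bd.l_pos
  have P := par_std h0 h1
  have a1 : (1 - jL) * l < -l := by nlinarith
  have a2 : -(2 * l) < (1 - jL) * l := by nlinarith
  have b1 : -(2 * l) < min (-(19 / 10 * l)) ((1 - jL) * l) := lt_min (by linarith) a2
  have b2 : max (-(11 / 10 * l)) ((1 - jL) * l) < -l := max_lt (by linarith) a1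
  have b3 := min_le_left (-(19 / 10 * l)) ((1 - jL) * l)
  have b4 := le_max_left (-(11 / 10 * l)) ((1 - jL) * l)
  exact
  { lines := P.lines
    two := P.two
    al := P.al
    b0 := P.b0
    adm := P.adm
    le := P.le
    strips :=
      { ht1 := by linarith
        ht2 := le_rfl
        h1 := by linarith
        h2 := by linarith
        h3 := by linarith
        h4 := by linarith
        h5 := by linarith
        h6 := by linarith
        h7 := by linarith
        h8 := by linarith }
    hb := ⟨b3, by linarith⟩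
    ht := ⟨by linarith, by linarith⟩
    pbl := b1.le
    pbs := by linarith
    pbh := by linarith
    psl := by linarith
    pss := by linarith
    psh := by linarith
    ps' := by linarith
    ptl := by linarith }

/-- line of the object of rank `i` in its species, `r` objects in all -/
def lnO (P : NUO.Par) (r i : ℕ) : O3 → ℝ
  | .L => (1 - P.jL) * l
  | .T => -(1 / 2 * l)
  | .S => -((1 + (P.e + P.d r * ((i : ℝ) / r))) * l)

/-- lines of the objects X -/
def lX (P : NUO.Par) (p p' : ℕ) (k : Fin p → O3) (_ : Fin p' → O3) (i : Fin p) : ℝ :=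
  lnO P (p + p') i (k i)

/-- lines of the objects Y -/
def lY (P : NUO.Par) (p p' : ℕ) (_ : Fin p → O3) (k' : Fin p' → O3) (i : Fin p') : ℝ :=
  lnO P (p + p') i (k' i)

/-- conditions on the parameters (part of `NUO.Good`) -/
structure GoodP (P : NUO.Par) : Prop where
  j1 : 2 < P.jL
  j2 : P.jL < 3
  e1 : 1 / 10 ≤ P.e
  d0 : ∀ r, 0 < P.d r
  e2 : ∀ r, P.e + P.d r ≤ 3 / 5
  r0 : ∀ r t, 0 < P.rad r t
  r1 : ∀ r t, P.rad r t ≤ l * P.d r / (8 * (r + 1))

theorem GoodP.shift {P : NUO.Par} (h : GoodP P) {r i : ℕ} (hi : i < r) :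
    1 / 10 ≤ P.e + P.d r * ((i : ℝ) / r) ∧ P.e + P.d r * ((i : ℝ) / r) ≤ 3 / 5 := by
  have hr : (0 : ℝ) < r := by exact_mod_cast (Nat.zero_le i).trans_lt hi
  have h1 : (i : ℝ) / r ≤ 1 := (div_le_one hr).2 (by exact_mod_cast hi.le)
  have h2 : 0 ≤ (i : ℝ) / r := by positivity
  have h3 := h.d0 r
  have h4 := h.e1
  have h5 := h.e2 r
  constructor
  · have := mul_nonneg h3.le h2
    linarith
  · have := mul_le_mul_of_nonneg_left h1 h3.le
    linarith

theorem lnO_mem {P : NUO.Par} (h : GoodP P) {r i : ℕ} (hi : i < r) (k : O3) :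
    lnO P r i k ∈ Icc (lo4 (l / 4) (min (-(19 / 10 * l)) ((1 - P.jL) * l)) (-(33 / 20 * l))
      (-(9 / 10 * l)) (some k)) (lo4 (l / 4) (max (-(11 / 10 * l)) ((1 - P.jL) * l)) (-(l / 2))
      (-(l / 2)) (some k)) := by
  have hl := Bd.l_pos
  obtain ⟨h1, h2⟩ := h.shift hi
  cases k
  · exact ⟨min_le_right _ _, le_max_right _ _⟩
  · constructor
    · show -(33 / 20 * l) ≤ -((1 + (P.e + P.d r * ((i : ℝ) / r))) * l)
      nlinarith
    · show -((1 + (P.e + P.d r * ((i : ℝ) / r))) * l) ≤ -(l / 2)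
      nlinarith
  · constructor
    · show -(9 / 10 * l) ≤ -(1 / 2 * l)
      linarith
    · show -(1 / 2 * l) ≤ -(l / 2)
      linarith

section host
variable {p p' : ℕ}

theorem rad_bound {P : NUO.Par} (h : GoodP P) (r : ℕ) (t : ℝ) : P.rad r t ≤ l / 16 := by
  have hl := Bd.l_pos
  have h1 := h.r1 r t
  have h2 := h.e1
  have h3 := h.e2 r
  have h4 := h.d0 r
  refine h1.trans ?_
  rw [div_le_div_iff₀ (by positivity) (by norm_num)]
  have hr : (0 : ℝ) ≤ r := Nat.cast_nonneg _
  have h5 : P.d r ≤ 1 / 2 := by linarith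
  nlinarith [mul_nonneg hl.le hr]

theorem rad_sep {P : NUO.Par} (h : GoodP P) {r i j : ℕ} (hi : i < r) (hij : i ≠ j)
    (t t' : ℝ) : P.rad r t + P.rad r t' <
      |lnO P r i .S - lnO P r j .S| := by
  have hl := Bd.l_pos
  have hr : (0 : ℝ) < r := by exact_mod_cast (Nat.zero_le i).trans_lt hi
  have h4 := h.d0 r
  have e : lnO P r i .S - lnO P r j .S = P.d r * l * (((j : ℝ) - i) / r) := by
    show -((1 + (P.e + P.d r * ((i : ℝ) / r))) * l) -
      -((1 + (P.e + P.d r * ((j : ℝ) / r))) * l) = _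
    ring
  have h5 : (1 : ℝ) ≤ |(j : ℝ) - i| := by
    have : (1 : ℤ) ≤ |(j : ℤ) - i| := Int.one_le_abs (sub_ne_zero.2 (by exact_mod_cast hij.symm))
    exact_mod_cast this
  rw [e, abs_mul, abs_div, abs_of_pos (by positivity : 0 < P.d r * l), abs_of_pos hr]
  have h6 : 1 / (r : ℝ) ≤ |(j : ℝ) - i| / r := by gcongr
  have h7 : P.rad r t + P.rad r t' ≤ l * P.d r / (4 * (r + 1)) := by
    have a := h.r1 r t
    have b := h.r1 r t'
    have e : l * P.d r / (4 * ((r : ℝ) + 1)) = l * P.d r / (8 * (r + 1)) + l * P.d r / (8 * (r + 1)) := by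
      field_simp
      ring
    rw [e]
    linarith
  refine h7.trans_lt ?_
  have h8 : l * P.d r / (4 * ((r : ℝ) + 1)) < P.d r * l * (1 / r) := by
    rw [mul_one_div, div_lt_div_iff₀ (by positivity) hr]
    have := mul_pos hl h4
    nlinarith
  exact h8.trans_le (mul_le_mul_of_nonneg_left h6 (by positivity))

/-- the strings S -/
def actO (k : Fin p → O3) (k' : Fin p' → O3) : Fin p ⊕ Fin p' → Prop :=
  Sum.elim (fun i => k i = .S) (fun i => k' i = .S)

instance (k : Fin p → O3) (k' : Fin p' → O3) : DecidablePred (actO k k') := fun i => by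
  unfold actO
  rcases i with i | i
  · exact inferInstanceAs (Decidable (k i = .S))
  · exact inferInstanceAs (Decidable (k' i = .S))

/-- rank of an object in its species -/
def rkS : Fin p ⊕ Fin p' → ℕ := Sum.elim (fun i => (i : ℕ)) (fun i => (i : ℕ))

theorem rkS_lt (i : Fin p ⊕ Fin p') : rkS i < p + p' := by
  rcases i with i | i
  · exact i.2.trans_le (Nat.le_add_right _ _)
  · exact i.2.trans_le (Nat.le_add_left _ _)

theorem line_eq (P : NUO.Par) (k : Fin p → O3) (k' : Fin p' → O3) (i : Fin p ⊕ Fin p') :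
    Sum.elim (lX P p p' k k') (lY P p p' k k') i = lnO P (p + p') (rkS i) (Sum.elim k k' i) := by
  rcases i with i | i <;> rfl

/-- **The lines of `NUO.Obj` are admissible.** -/
theorem host_O {P : NUO.Par} (h : GoodP P) (k : Fin p → O3) (k' : Fin p' → O3)
    (t : Fin p ⊕ Fin p' → ℝ) :
    Host (o3 k k') (pos (Sum.elim (lX P p p' k k') (lY P p p' k k')) t)
      (fun i => P.rad (p + p') (t i)) (actO k k') (l / 4) l := by
  have hl := Bd.l_pos
  have hS : ∀ i, actO k k' i → Sum.elim (lX P p p' k k') (lY P p p' k k') i =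
      lnO P (p + p') (rkS i) .S := by
    intro i hi
    rw [line_eq]
    rcases i with i | i
    · have : k i = .S := hi
      show lnO P (p + p') _ (k i) = _
      rw [this]
    · have : k' i = .S := hi
      show lnO P (p + p') _ (k' i) = _
      rw [this]
  have hS' : ∀ i : Fin p ⊕ Fin p', -(8 / 5 * l) ≤ lnO P (p + p') (rkS i) .S ∧
      lnO P (p + p') (rkS i) .S ≤ -(11 / 10 * l) := by
    intro i
    obtain ⟨h1, h2⟩ := h.shift (rkS_lt i)
    show -(8 / 5 * l) ≤ -((1 + (P.e + P.d (p + p') * ((rkS i : ℕ) / ((p + p' : ℕ) : ℝ)))) * l) ∧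
      -((1 + (P.e + P.d (p + p') * ((rkS i : ℕ) / ((p + p' : ℕ) : ℝ)))) * l) ≤ _
    constructor <;> nlinarith
  refine ⟨by linarith, by linarith, ?_, fun i _ => h.r0 _ _, ?_, ?_, ?_, ?_⟩
  · rintro (i | i) hi
    · have : k i = .S := hi
      show ob3 (k i) = _
      rw [this]
      rfl
    · have : k' i = .S := hi
      show ob3 (k' i) = _
      rw [this]
      rfl
  · intro i hi
    rw [pos_re, hS i hi]
    have := (hS' i).1
    have := rad_bound h (p + p') (t i)
    linarith
  · intro i hi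
    rw [pos_re, hS i hi]
    have := (hS' i).2
    have := rad_bound h (p + p') (t i)
    linarith
  · intro i j hi hj hne hsp
    rw [pos_re, pos_re, hS i hi, hS j hj]
    refine rad_sep h (rkS_lt i) (fun hr => hne ?_) _ _
    rcases i with i | i <;> rcases j with j | j
    · exact congrArg Sum.inl (Fin.ext hr)
    · exact absurd hsp (by simp [o3, oo])
    · exact absurd hsp (by simp [o3, oo])
    · exact congrArg Sum.inr (Fin.ext hr)
  · intro i hi s v hv
    rw [pos_re, line_eq]
    have hjl1 := h.j1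
    have hjl2 := h.j2
    have key : ∀ (c : Bool) (ki : O3), ki ≠ .S → ∀ n : ℕ,
        Ok (s, .A) (c, ob3 ki) (v - lnO P (p + p') n ki) := by
      intro c ki hki n
      refine Ok_of_RO ?_
      unfold RO
      have hv1 := hv.1
      have hv2 := hv.2
      cases ki
      · -- L
        have a1 : (1 - P.jL) * l < -l := by nlinarith
        have a2 : -(2 * l) < (1 - P.jL) * l := by nlinarith
        show if s = c then (|v - (1 - P.jL) * l| < l ∨ (l < |v - (1 - P.jL) * l| ∧
          |v - (1 - P.jL) * l| < 7 * l)) else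
          -(3 * l) < v - (1 - P.jL) * l ∧ v - (1 - P.jL) * l < 3 * l
        have a3 : 0 < v - (1 - P.jL) * l := by linarith
        rw [abs_of_pos a3]
        split_ifs
        · right
          constructor <;> linarith
        · constructor <;> linarith
      · exact absurd rfl hki
      · -- T
        show if s = c then True else
          -(3 * l) < v - -(1 / 2 * l) ∧ v - -(1 / 2 * l) < 2 * l
        split_ifs
        constructor <;> linarith
    rcases i with i | i
    · exact key true (k i) (fun h => hi h) _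
    · exact key false (k' i) (fun h => hi h) _

/-- neutrality -/
theorem neutral_O {n : ℕ} {k : Fin p → O3} {k' : Fin p' → O3} (h : ∑ i, c3 (k i) ≤ n)
    (h' : ∑ i, c3 (k' i) ≤ n) :
    ((nA n k : ℕ) : ℝ) - (nA n k' : ℕ) + ∑ b, sc (o3 k k' b) = 0 := by
  rw [Fintype.sum_sum_type]
  have e1 : ∑ i, sc (o3 k k' (Sum.inl i)) = ((∑ i, c3 (k i) : ℕ) : ℝ) := by
    push_cast
    rfl
  have e2 : ∑ i, sc (o3 k k' (Sum.inr i)) = -((∑ i, c3 (k' i) : ℕ) : ℝ) := by
    push_cast
    rw [← Finset.sum_neg_distrib]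
    rfl
  rw [e1, e2]
  unfold nA
  push_cast [h, h']
  ring

/-- **Stage 3 for a word**: `X`, `Y` = one body functions of the quanta. -/
theorem exact_O {P : NUO.Par} (h : GoodP P) {κ : ℝ} (hκ : 0 < κ) {X Y : ℂ → ℂ}
    (hmX : Measurable X) (hmY : Measurable Y)
    (hdX : ∀ u : ℂ, l / 4 ≤ u.re → u.re ≤ l → DifferentiableAt ℂ X u)
    (hdY : ∀ u : ℂ, l / 4 ≤ u.re → u.re ≤ l → DifferentiableAt ℂ Y u)
    (hbX : DecOn κ (Icc (l / 4) l) X) (hbY : DecOn κ (Icc (l / 4) l) Y) {n : ℕ}
    {k : Fin p → O3} {k' : Fin p' → O3} (hk : ∑ i, c3 (k i) ≤ n) (hk' : ∑ i, c3 (k' i) ≤ n)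
    (t : Fin p ⊕ Fin p' → ℝ) :
    gas (nA n k) (nA n k') (l / 4)
      (fld (o3 k k') (pos (Sum.elim (lX P p p' k k') (lY P p p' k k')) t) (true, .A) X)
      (fld (o3 k k') (pos (Sum.elim (lX P p p' k k') (lY P p p' k k')) t) (false, .A) Y) =
    ∑ τ : Fin p ⊕ Fin p' → Fin 3,
      if (∀ i, τ i ≠ 0 → actO k k' i) ∧ nsat (o3 k k') true τ ≤ nA n k ∧
        nsat (o3 k k') false τ ≤ nA n k' then
        ∫ θ : Fin p ⊕ Fin p' → ℝ,
          SWf (o3 k k') (pos (Sum.elim (lX P p p' k k') (lY P p p' k k')) t)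
            (fun i => P.rad (p + p') (t i)) (fun s => if s then X else Y) τ θ *
          gas (nA n k - nsat (o3 k k') true τ) (nA n k' - nsat (o3 k k') false τ) l
            (Hfs (o3 k k') (pos (Sum.elim (lX P p p' k k') (lY P p p' k k')) t)
              (fun i => P.rad (p + p') (t i)) (fun s => if s then X else Y) τ θ true)
            (Hfs (o3 k k') (pos (Sum.elim (lX P p p' k k') (lY P p p' k k')) t)
              (fun i => P.rad (p + p') (t i)) (fun s => if s then X else Y) τ θ false)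
          ∂(Measure.pi fun _ => volume.restrict (Ioc (0 : ℝ) 1))
      else 0 := by
  refine (host_O h k k' t).exact (G := fun s => if s then X else Y) hκ ?_ ?_ ?_ _ _
    (neutral_O hk hk')
  · intro s
    cases s
    · exact hmY
    · exact hmX
  · intro s u h1 h2
    cases s
    · exact hdY u h1 h2
    · exact hdX u h1 h2
  · intro s
    cases s
    · exact hbY
    · exact hbX

end host

end NUP1S

end
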