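import Pool.Agent.NUP1S.Merge
import Pool.Agent.NUO.Obj

/-!
# Merging words of two species without symmetry: the labels of each species keep their order

`F r` is a function of the words of length `r` over `Bool × K`, `T a p` a function of two words, and
`F` of the shuffle of the two words along any subset is `T`.
-/

set_option autoImplicit false
set_option linter.unusedSectionVars false

noncomputable section

namespace NUP1S

namespace Mg

open Finset Nat MeasureTheory
open scoped ENNReal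

variable {K : Type} [Fintype K] [DecidableEq K]

section alg

variable {R : Type*} [CommSemiring R]

/-- all words of length r -/
theorem sum_wordsR (r : ℕ) (F : (Fin r → Bool × K) → R) (T : ∀ a p : ℕ, (Fin a → K) → (Fin p → K) → R)
    (hFT : ∀ (s : Finset (Fin r)) (a p : ℕ) (ha : s.card = a) (hp : sᶜ.card = p) (kX : Fin a → K)
      (kY : Fin p → K), F (wd2 kX kY ∘ (finSumEquivOfFinset ha hp).symm) = T a p kX kY) :
    ∑ k : Fin r → Bool × K, F k = ∑ a ∈ range (r + 1), (r.choose a : R) *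
      ∑ kX : Fin a → K, ∑ kY : Fin (r - a) → K, T a (r - a) kX kY := by
  have e1 : ∀ s : Finset (Fin r),
      ∑ k ∈ univ.filter (fun k : Fin r → Bool × K => univ.filter (fun i => (k i).1 = true) = s), F k =
        ∑ kX : Fin s.card → K, ∑ kY : Fin (r - s.card) → K, T s.card (r - s.card) kX kY := by
    intro s
    have hp : sᶜ.card = r - s.card := by rw [card_compl, Fintype.card_fin]
    rw [sum_set s rfl hp]
    refine sum_congr rfl fun kX _ => sum_congr rfl fun kY _ => ?_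
    rw [hFT]
  rw [← sum_fiberwise (s := univ) (g := fun k : Fin r → Bool × K =>
    univ.filter (fun i => (k i).1 = true)), sum_congr rfl fun s _ => e1 s, ← powerset_univ,
    sum_powerset_apply_card (fun a => ∑ kX : Fin a → K, ∑ kY : Fin (r - a) → K,
      T a (r - a) kX kY), Finset.card_univ, Fintype.card_fin]
  simp

/-- merging at a fixed total length; w r is the inverse factorial -/
theorem merge_fixR (w : ℕ → R) (hw : ∀ a p, w (a + p) * ((a + p).choose a : R) = w a * w p)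
    (r : ℕ) (F : (Fin r → Bool × K) → R) (T : ∀ a p : ℕ, (Fin a → K) → (Fin p → K) → R)
    (hFT : ∀ (s : Finset (Fin r)) (a p : ℕ) (ha : s.card = a) (hp : sᶜ.card = p) (kX : Fin a → K)
      (kY : Fin p → K), F (wd2 kX kY ∘ (finSumEquivOfFinset ha hp).symm) = T a p kX kY) :
    w r * ∑ k : Fin r → Bool × K, F k = ∑ x ∈ antidiagonal r, w x.1 * w x.2 *
      ∑ kX : Fin x.1 → K, ∑ kY : Fin x.2 → K, T x.1 x.2 kX kY := by
  rw [sum_wordsR r F T hFT, mul_sum, Nat.sum_antidiagonal_eq_sum_range_succ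
    (f := fun a p => w a * w p * ∑ kX : Fin a → K, ∑ kY : Fin p → K, T a p kX kY)]
  refine sum_congr rfl fun a ha => ?_
  have ha' : a ≤ r := by
    rw [mem_range] at ha
    omega
  have h := hw a (r - a)
  rw [Nat.add_sub_cancel' ha'] at h
  rw [← mul_assoc, h]

end alg

/-- **merging without symmetry**, `ℝ≥0∞` -/
theorem mergeR (F : ∀ r : ℕ, (Fin r → Bool × K) → ℝ≥0∞)
    (T : ∀ a p : ℕ, (Fin a → K) → (Fin p → K) → ℝ≥0∞)
    (hFT : ∀ (r : ℕ) (s : Finset (Fin r)) (a p : ℕ) (ha : s.card = a) (hp : sᶜ.card = p)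
      (kX : Fin a → K) (kY : Fin p → K),
      F r (wd2 kX kY ∘ (finSumEquivOfFinset ha hp).symm) = T a p kX kY) (N : ℕ) :
    ∑ a ∈ range (N + 1), ∑ p ∈ range (N + 1), ((a ! : ℕ) : ℝ≥0∞)⁻¹ * ((p ! : ℕ) : ℝ≥0∞)⁻¹ *
      ∑ kX : Fin a → K, ∑ kY : Fin p → K, T a p kX kY ≤
    ∑ r ∈ range (2 * N + 1), ((r ! : ℕ) : ℝ≥0∞)⁻¹ * ∑ k : Fin r → Bool × K, F r k := by
  set U : ℕ → ℕ → ℝ≥0∞ := fun a p => ((a ! : ℕ) : ℝ≥0∞)⁻¹ * ((p ! : ℕ) : ℝ≥0∞)⁻¹ *
    ∑ kX : Fin a → K, ∑ kY : Fin p → K, T a p kX kY with hU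
  have h4 : ∑ a ∈ range (N + 1), ∑ p ∈ range (N + 1), U a p =
      ∑ x ∈ (range (N + 1) ×ˢ range (N + 1)), U x.1 x.2 := by
    rw [sum_product]
  have h5 : ∀ r ∈ range (2 * N + 1), ((r ! : ℕ) : ℝ≥0∞)⁻¹ * ∑ k : Fin r → Bool × K, F r k =
      ∑ x ∈ antidiagonal r, U x.1 x.2 := fun r _ =>
    merge_fixR (fun r => ((r ! : ℕ) : ℝ≥0∞)⁻¹) inv_fact r (F r) T (hFT r)
  rw [h4, sum_congr rfl h5, ← sum_fiberwise_of_maps_to (s := range (N + 1) ×ˢ range (N + 1))
      (t := range (2 * N + 1)) (g := fun x => x.1 + x.2)]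
  · refine sum_le_sum fun r _ => sum_le_sum_of_subset ?_
    intro x hx
    rw [HasAntidiagonal.mem_antidiagonal]
    exact (mem_filter.1 hx).2
  · intro x hx
    rw [mem_product, mem_range, mem_range] at hx
    rw [mem_range]
    omega

/-! ### ranks -/

section rank

open NUO

theorem card_lt_emb {r a : ℕ} (s : Finset (Fin r)) (ha : s.card = a) (i : Fin a) :
    (s.filter fun j => j < s.orderEmbOfFin ha i).card = i := by
  have h : (s.filter fun j => j < s.orderEmbOfFin ha i) =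
      (Finset.Iio i).map (s.orderEmbOfFin ha).toEmbedding := by
    ext j
    simp only [mem_filter, mem_map, mem_Iio, RelEmbedding.coe_toEmbedding]
    constructor
    · rintro ⟨h1, h2⟩
      have h3 : j ∈ Set.range (s.orderEmbOfFin ha) := by
        rw [Finset.range_orderEmbOfFin]
        exact h1
      obtain ⟨i', rfl⟩ := h3
      exact ⟨i', (s.orderEmbOfFin ha).lt_iff_lt.1 h2, rfl⟩
    · rintro ⟨i', h1, rfl⟩
      exact ⟨orderEmbOfFin_mem s ha i', (s.orderEmbOfFin ha).lt_iff_lt.2 h1⟩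
  rw [h, card_map, Fin.card_Iio]

theorem rk_inl {r a p : ℕ} (s : Finset (Fin r)) (ha : s.card = a) (hp : sᶜ.card = p)
    (O : Fin r → Xo) (hO : ∀ j, sp (O j) = true ↔ j ∈ s) (i : Fin a) :
    rk O (finSumEquivOfFinset ha hp (Sum.inl i)) = i := by
  rw [finSumEquivOfFinset_inl]
  unfold rk
  have h1 : sp (O (s.orderEmbOfFin ha i)) = true := (hO _).2 (orderEmbOfFin_mem s ha i)
  rw [h1]
  rw [← card_lt_emb s ha i]
  congr 1
  ext j
  simp only [mem_filter, mem_univ, true_and, hO]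
  tauto

theorem rk_inr {r a p : ℕ} (s : Finset (Fin r)) (ha : s.card = a) (hp : sᶜ.card = p)
    (O : Fin r → Xo) (hO : ∀ j, sp (O j) = true ↔ j ∈ s) (i : Fin p) :
    rk O (finSumEquivOfFinset ha hp (Sum.inr i)) = i := by
  rw [finSumEquivOfFinset_inr]
  unfold rk
  have hO' : ∀ j, sp (O j) = false ↔ j ∈ sᶜ := by
    intro j
    rw [mem_compl, ← hO, Bool.not_eq_true]
  have h1 : sp (O (sᶜ.orderEmbOfFin hp i)) = false := (hO' _).2 (orderEmbOfFin_mem sᶜ hp i)
  rw [h1]
  rw [← card_lt_emb sᶜ hp i]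
  congr 1
  ext j
  simp only [mem_filter, mem_univ, true_and, hO']
  tauto

end rank

end Mg

end NUP1S

end
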