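import Pool.Agent.NUP1S.ConfO
import Pool.Agent.NUP1S.HostO
import Pool.Agent.NUP1S.MergeR

/-!
# Words in `O3` with 0, 1, 2 satellites = words in the five kinds
-/

set_option autoImplicit false
set_option linter.unusedSectionVars false

noncomputable section

open Finset

namespace NUP1S.Ab

open NUP1 NUO NUP1S.Mg

/-- kind without satellites -/
def b3 : Kind → O3
  | .L => .L
  | .St => .T
  | .S => .S
  | .Sv => .S
  | .Svv => .S

/-- number of satellites -/
def t3 : Kind → Fin 3
  | .L => 0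
  | .St => 0
  | .S => 0
  | .Sv => 1
  | .Svv => 2

theorem kdO_b3 (K : Kind) : kdO (b3 K) (t3 K) = K := by cases K <;> rfl

theorem t3_ne (K : Kind) (h : t3 K ≠ 0) : b3 K = .S := by
  cases K <;> first | rfl | exact absurd rfl h

theorem b3_kdO (k : O3) (τ : Fin 3) : b3 (kdO k τ) = k := by
  cases k
  · rfl
  · fin_cases τ <;> rfl
  · rfl

theorem t3_kdO (k : O3) (τ : Fin 3) (h : τ ≠ 0 → k = .S) : t3 (kdO k τ) = τ := by
  cases k
  · by_cases h0 : τ = 0
    · rw [h0]; rfl
    · exact absurd (h h0) (by decide)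
  · fin_cases τ <;> rfl
  · by_cases h0 : τ = 0
    · rw [h0]; rfl
    · exact absurd (h h0) (by decide)

/-- words with satellites = words in the five kinds -/
theorem sum_kdO {ι M : Type*} [Fintype ι] [DecidableEq ι] [AddCommMonoid M] (g : (ι → Kind) → M) :
    (∑ k : ι → O3, ∑ τ : ι → Fin 3, if ∀ i, τ i ≠ 0 → k i = .S then g (fun i => kdO (k i) (τ i)) else 0) =
      ∑ K : ι → Kind, g K := by
  classical
  rw [← Fintype.sum_prod_type', ← Finset.sum_filter]
  refine Finset.sum_nbij' (fun q => fun i => kdO (q.1 i) (q.2 i))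
    (fun K => (fun i => b3 (K i), fun i => t3 (K i))) ?_ ?_ ?_ ?_ ?_
  · intro q _
    exact mem_univ _
  · intro K _
    rw [mem_filter]
    exact ⟨mem_univ _, fun i h => t3_ne _ h⟩
  · intro q hq
    have h := (mem_filter.1 hq).2
    refine Prod.ext ?_ ?_
    · funext i
      exact b3_kdO _ _
    · funext i
      exact t3_kdO _ _ (h i)
  · intro K _
    funext i
    exact kdO_b3 _
  · intro q _
    rfl

section two
variable {p p' : ℕ}

theorem sum_arrow {β M : Type*} [Fintype β] [AddCommMonoid M] [DecidableEq β]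
    (f : (Fin p → β) → (Fin p' → β) → M) :
    ∑ k : Fin p ⊕ Fin p' → β, f (fun i => k (Sum.inl i)) (fun i => k (Sum.inr i)) =
      ∑ k : Fin p → β, ∑ k' : Fin p' → β, f k k' := by
  rw [← Fintype.sum_prod_type']
  exact Fintype.sum_equiv (Equiv.sumArrowEquivProdArrow (Fin p) (Fin p') β) _ _ fun k => rfl

/-- the two species -/
theorem sum_kdO_two {M : Type*} [AddCommMonoid M] (g : (Fin p → Kind) → (Fin p' → Kind) → M) :
    (∑ k' : Fin p' → O3, ∑ k : Fin p → O3, ∑ τ : Fin p ⊕ Fin p' → Fin 3,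
      if ∀ i, τ i ≠ 0 → actO k k' i then
        g (fun i => kdO (k i) (τ (Sum.inl i))) (fun i => kdO (k' i) (τ (Sum.inr i))) else 0) =
      ∑ K : Fin p → Kind, ∑ K' : Fin p' → Kind, g K K' := by
  rw [Finset.sum_comm, ← sum_arrow (fun (k : Fin p → O3) (k' : Fin p' → O3) =>
    ∑ τ : Fin p ⊕ Fin p' → Fin 3, if ∀ i, τ i ≠ 0 → actO k k' i then
        g (fun i => kdO (k i) (τ (Sum.inl i))) (fun i => kdO (k' i) (τ (Sum.inr i))) else 0),
    ← sum_arrow g, ← sum_kdO (ι := Fin p ⊕ Fin p')
      (fun K => g (fun i => K (Sum.inl i)) (fun i => K (Sum.inr i)))]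
  refine Finset.sum_congr rfl fun k _ => Finset.sum_congr rfl fun τ _ => ?_
  have h : (∀ i, τ i ≠ 0 → actO (fun i => k (Sum.inl i)) (fun i => k (Sum.inr i)) i) ↔
      ∀ i, τ i ≠ 0 → k i = .S := by
    constructor
    · rintro h (i | i) hi
      · exact h (Sum.inl i) hi
      · exact h (Sum.inr i) hi
    · rintro h (i | i) hi
      · exact h (Sum.inl i) hi
      · exact h (Sum.inr i) hi
  simp only [h]

/-- charges of the species `true` -/
theorem chg_true (k : Fin p → O3) (k' : Fin p' → O3) (τ : Fin p ⊕ Fin p' → Fin 3)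
    (h : ∀ i, τ i ≠ 0 → actO k k' i) (y : Fin p ⊕ Fin p' → ℝ × ℝ) :
    ∑ i, chg true (wd2 (fun i => kdO (k i) (τ (Sum.inl i))) (fun i => kdO (k' i) (τ (Sum.inr i))) i, y i) =
      ∑ i, c3 (k i) + nsat (o3 k k') true τ := by
  rw [Fintype.sum_sum_type]
  congr 1
  · refine Finset.sum_congr rfl fun i _ => ?_
    simp only [wd2, Sum.elim_inl]
    cases k i
    · rfl
    · generalize τ (Sum.inl i) = t
      fin_cases t <;> rfl
    · rfl
  · unfold nsat
    rw [Finset.sum_filter, Fintype.sum_sum_type]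
    have e1 : ∀ i : Fin p, (if (!(o3 k k' (Sum.inl i)).1) = true then ((τ (Sum.inl i) : Fin 3) : ℕ) else 0) = 0 :=
      fun i => if_neg (by simp [o3, oo])
    have e2 : ∀ i : Fin p', (if (!(o3 k k' (Sum.inr i)).1) = true then ((τ (Sum.inr i) : Fin 3) : ℕ) else 0) =
        ((τ (Sum.inr i) : Fin 3) : ℕ) := fun i => if_pos (by simp [o3, oo])
    simp only [e1, e2, Finset.sum_const_zero, zero_add]
    refine Finset.sum_congr rfl fun i _ => ?_
    simp only [wd2, Sum.elim_inr]
    have h2 : τ (Sum.inr i) ≠ 0 → k' i = .S := h (Sum.inr i)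
    generalize τ (Sum.inr i) = t at h2 ⊢
    generalize k' i = k0 at h2 ⊢
    cases k0
    · by_cases h0 : t = 0
      · rw [h0]; rfl
      · exact absurd (h2 h0) (by decide)
    · fin_cases t <;> rfl
    · by_cases h0 : t = 0
      · rw [h0]; rfl
      · exact absurd (h2 h0) (by decide)

/-- charges of the species `false` -/
theorem chg_false (k : Fin p → O3) (k' : Fin p' → O3) (τ : Fin p ⊕ Fin p' → Fin 3)
    (h : ∀ i, τ i ≠ 0 → actO k k' i) (y : Fin p ⊕ Fin p' → ℝ × ℝ) :
    ∑ i, chg false (wd2 (fun i => kdO (k i) (τ (Sum.inl i))) (fun i => kdO (k' i) (τ (Sum.inr i))) i, y i) =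
      ∑ i, c3 (k' i) + nsat (o3 k k') false τ := by
  rw [Fintype.sum_sum_type, add_comm]
  congr 1
  · refine Finset.sum_congr rfl fun i _ => ?_
    simp only [wd2, Sum.elim_inr]
    cases k' i
    · rfl
    · generalize τ (Sum.inr i) = t
      fin_cases t <;> rfl
    · rfl
  · unfold nsat
    rw [Finset.sum_filter, Fintype.sum_sum_type]
    have e1 : ∀ i : Fin p', (if (!(o3 k k' (Sum.inr i)).1) = false then ((τ (Sum.inr i) : Fin 3) : ℕ) else 0) = 0 :=
      fun i => if_neg (by simp [o3, oo])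
    have e2 : ∀ i : Fin p, (if (!(o3 k k' (Sum.inl i)).1) = false then ((τ (Sum.inl i) : Fin 3) : ℕ) else 0) =
        ((τ (Sum.inl i) : Fin 3) : ℕ) := fun i => if_pos (by simp [o3, oo])
    simp only [e1, e2, Finset.sum_const_zero, add_zero]
    refine Finset.sum_congr rfl fun i _ => ?_
    simp only [wd2, Sum.elim_inl]
    have h2 : τ (Sum.inl i) ≠ 0 → k i = .S := h (Sum.inl i)
    generalize τ (Sum.inl i) = t at h2 ⊢
    generalize k i = k0 at h2 ⊢
    cases k0
    · by_cases h0 : t = 0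
      · rw [h0]; rfl
      · exact absurd (h2 h0) (by decide)
    · fin_cases t <;> rfl
    · by_cases h0 : t = 0
      · rw [h0]; rfl
      · exact absurd (h2 h0) (by decide)

end two

end NUP1S.Ab

end
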