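import Pool.Agent.NUP1S.Stage2
import Pool.Agent.NUP1.ExactN

/-!
# The sum over objects with a complex number of rows
-/

set_option autoImplicit false
set_option linter.unusedSectionVars false

noncomputable section

open Complex MeasureTheory

namespace NUP1S

open NUP1 NUP1.Bd

variable {ι ι' : Type*} [Fintype ι] [Fintype ι']

/-! ## scaling the one body functions -/

theorem Fg_scale (o : ι → CO) (h : ι → ℂ → ℂ) (z : ι → ℂ) (c : ι → ℂ) :
    Fg o (fun i u => h i u * c i) z = (∏ i, c i) * Fg o h z := by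
  unfold Fg
  rw [Finset.prod_mul_distrib]
  ring

/-- a family of one body functions with a complex power -/
def hp (h lg : ι → ℂ → ℂ) (s : ℂ) (i : ι) (u : ℂ) : ℂ := h i u * exp (s * lg i u)

theorem Fg_hp (o : ι → CO) (h lg : ι → ℂ → ℂ) (s : ℂ) (z : ι → ℂ) :
    Fg o (hp h lg s) z = Fg o h z * exp (s * ∑ i, lg i (z i)) := by
  unfold Fg hp
  rw [Finset.prod_mul_distrib, ← exp_sum, Finset.mul_sum]
  ring

/-- bounded over a set of real parts -/
def BdOn (K : Set ℝ) (g : ℂ → ℂ) : Prop := ∃ B : ℝ, ∀ z : ℂ, z.re ∈ K → ‖g z‖ ≤ B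

theorem BdOn.mono {K K' : Set ℝ} {g : ℂ → ℂ} (h : BdOn K' g) (hK : K ⊆ K') : BdOn K g := by
  obtain ⟨B, hB⟩ := h
  exact ⟨B, fun z hz => hB z (hK hz)⟩

theorem DecOn.exp {κ : ℝ} {K : Set ℝ} {h g : ℂ → ℂ} (hh : DecOn κ K h) (hg : BdOn K g) (s : ℂ) :
    DecOn κ K (fun u => h u * Complex.exp (s * g u)) := by
  obtain ⟨D, hD⟩ := hh
  obtain ⟨B, hB⟩ := hg
  refine ⟨D * Real.exp (‖s‖ * B), fun z hz => ?_⟩
  have h1 := hD z hz
  have h2 : ‖Complex.exp (s * g z)‖ ≤ Real.exp (‖s‖ * B) := by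
    rw [norm_exp]
    refine Real.exp_le_exp.2 ((re_le_norm _).trans ?_)
    rw [norm_mul]
    exact mul_le_mul_of_nonneg_left (hB z hz) (norm_nonneg _)
  rw [norm_mul]
  calc _ ≤ (D * Real.exp (-(κ * |z.im|))) * Real.exp (‖s‖ * B) :=
        mul_le_mul h1 h2 (norm_nonneg _) ((norm_nonneg _).trans h1)
    _ = _ := by ring

/-- **The joint integral with a complex power is entire.** -/
theorem entire_Ig {o : ι → CO} (hn : ∑ i, sc (o i) = 0) {h lg : ι → ℂ → ℂ} {x : ι → ℝ}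
    {κ : ℝ} (hκ : 0 < κ) (hm : ∀ i, Measurable (h i)) (hh : ∀ i, DecOn κ {x i} (h i))
    (hl : ∀ i, Measurable (lg i)) (hb : ∀ i, BdOn {x i} (lg i))
    (hg : ∀ a b, a ≠ b → Ok (o a) (o b) (x a - x b)) :
    Differentiable ℂ fun s : ℂ => Ig o (hp h lg s) x := by
  choose B hB using hb
  have e1 : (fun s : ℂ => Ig o (hp h lg s) x) = fun s : ℂ =>
      ∫ t, Fg o h (pos x t) * exp (s * ∑ i, lg i (pos x t i)) ∂(Measure.pi fun _ => volume) := by
    funext s
    unfold Ig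
    simp_rw [Fg_hp]
  rw [e1]
  refine ExM.entire_int (integrable_Fg hn hκ hm hh hg) ?_ (B := ∑ i, B i)
    (Filter.Eventually.of_forall fun t => ?_)
  · exact (Finset.measurable_fun_sum _ fun i _ =>
      (hl i).comp (measurable_pos x i)).aestronglyMeasurable
  · refine (norm_sum_le _ _).trans (Finset.sum_le_sum fun i _ => ?_)
    exact hB i _ (by simp)

/-! ## the sum over the objects -/

/-- choice of the lines of the objects of a species -/
abbrev Lns := ∀ p p' : ℕ, (Fin p → O3) → (Fin p' → O3) → Fin p → ℝ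

/-- choice of the lines of the objects of the other species -/
abbrev Lns' := ∀ p p' : ℕ, (Fin p → O3) → (Fin p' → O3) → Fin p' → ℝ

/-- the sum over the objects -/
def Zobj (X Y : Option O3 → ℂ → ℂ) (α : ℝ) (n : ℕ) (lnX : Lns) (lnY : Lns') : ℂ :=
  ∑ p' ∈ Finset.range (n + 1), ∑ p ∈ Finset.range (n + 1),
    ((p'.factorial : ℕ) : ℂ)⁻¹ * ((p.factorial : ℕ) : ℂ)⁻¹ *
    ∑ k' : Fin p' → O3, ∑ k : Fin p → O3,
      if ∑ i, c3 (k' i) ≤ n ∧ ∑ i, c3 (k i) ≤ n then
        term X Y α n k k' (lnX p p' k k') (lnY p p' k k') else 0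

/-- one body functions of the kinds with a complex power -/
def Xp (X lg : Option O3 → ℂ → ℂ) (s : ℂ) (k : Option O3) (u : ℂ) : ℂ := X k u * exp (s * lg k u)

/-- conditions for the one body functions and the logarithms on the lines -/
structure Pw (α bl bh sl sh tl th κ : ℝ) (X lg : Option O3 → ℂ → ℂ) : Prop where
  meas : ∀ k, Measurable (X k)
  dec : ∀ k, ∀ d ∈ Set.Icc (lo4 α bl sl tl k) (lo4 α bh sh th k), DecOn κ {d} (X k)
  lmeas : ∀ k, Measurable (lg k)
  lbd : ∀ k, ∀ d ∈ Set.Icc (lo4 α bl sl tl k) (lo4 α bh sh th k), BdOn {d} (lg k)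

/-- lines inside the strips -/
structure LnOk (α bl bh sl sh tl th : ℝ) (lnX : Lns) (lnY : Lns') : Prop where
  X : ∀ p p' k k' i,
    lnX p p' k k' i ∈ Set.Icc (lo4 α bl sl tl (some (k i))) (lo4 α bh sh th (some (k i)))
  Y : ∀ p p' k k' i,
    lnY p p' k k' i ∈ Set.Icc (lo4 α bl sl tl (some (k' i))) (lo4 α bh sh th (some (k' i)))

section

variable {α bl bh sl sh tl th κ : ℝ}

theorem Pw.measp {X lg : Option O3 → ℂ → ℂ} (hX : Pw α bl bh sl sh tl th κ X lg) (s : ℂ)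
    (k : Option O3) : Measurable (Xp X lg s k) :=
  (hX.meas k).mul ((hX.lmeas k).const_mul s).cexp

theorem Pw.decp {X lg : Option O3 → ℂ → ℂ} (hX : Pw α bl bh sl sh tl th κ X lg) (s : ℂ)
    (k : Option O3) : ∀ d ∈ Set.Icc (lo4 α bl sl tl k) (lo4 α bh sh th k),
      DecOn κ {d} (Xp X lg s k) :=
  fun d hd => (hX.dec k d hd).exp (hX.lbd k d hd) s

/-- integrability on all systems of lines in the strips -/
theorem integrable_lines (hs : Strips α bl bh sl sh tl th) (hκ : 0 < κ)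
    {X Y : Option O3 → ℂ → ℂ} (hmX : ∀ k, Measurable (X k)) (hmY : ∀ k, Measurable (Y k))
    (hX : ∀ k, ∀ d ∈ Set.Icc (lo4 α bl sl tl k) (lo4 α bh sh th k), DecOn κ {d} (X k))
    (hY : ∀ k, ∀ d ∈ Set.Icc (lo4 α bl sl tl k) (lo4 α bh sh th k), DecOn κ {d} (Y k))
    (k : ι → Option O3) (k' : ι' → Option O3)
    (hk : ∑ i, chg (ob4 (k i)) = ∑ i, chg (ob4 (k' i))) (x : ι → ℝ) (x' : ι' → ℝ)
    (hx : ∀ i, x i ∈ Set.Icc (lo4 α bl sl tl (k i)) (lo4 α bh sh th (k i)))
    (hx' : ∀ i, x' i ∈ Set.Icc (lo4 α bl sl tl (k' i)) (lo4 α bh sh th (k' i))) :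
    Integrable (fun t => Fg (oo (fun i => ob4 (k i)) (fun i => ob4 (k' i)))
      (Sum.elim (fun i => X (k i)) (fun i => Y (k' i))) (pos (Sum.elim x x') t))
      (Measure.pi fun _ => volume) := by
  refine integrable_Fg (sum_sc hk) hκ ?_ ?_ ?_
  · rintro (i | i)
    · exact hmX _
    · exact hmY _
  · rintro (i | i)
    · exact hX (k i) _ (hx i)
    · exact hY (k' i) _ (hx' i)
  · rintro (a | a) (b | b) _ <;> refine Ok_of_RO (RO_strips hs _ _ _ _ ?_ ?_) <;>
      first | exact hx _ | exact hx' _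

/-- a term as one joint integral -/
theorem term_eq (hs : Strips α bl bh sl sh tl th) (hκ : 0 < κ)
    {X Y : Option O3 → ℂ → ℂ} (hmX : ∀ k, Measurable (X k)) (hmY : ∀ k, Measurable (Y k))
    (hX : ∀ k, ∀ d ∈ Set.Icc (lo4 α bl sl tl k) (lo4 α bh sh th k), DecOn κ {d} (X k))
    (hY : ∀ k, ∀ d ∈ Set.Icc (lo4 α bl sl tl k) (lo4 α bh sh th k), DecOn κ {d} (Y k)) (n : ℕ)
    {p p' : ℕ} (k : Fin p → O3) (k' : Fin p' → O3) (hk : ∑ i, c3 (k i) ≤ n)
    (hk' : ∑ i, c3 (k' i) ≤ n) (x : Fin p → ℝ) (x' : Fin p' → ℝ)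
    (hx : ∀ i, x i ∈ Set.Icc (lo4 α bl sl tl (some (k i))) (lo4 α bh sh th (some (k i))))
    (hx' : ∀ i, x' i ∈ Set.Icc (lo4 α bl sl tl (some (k' i))) (lo4 α bh sh th (some (k' i)))) :
    term X Y α n k k' x x' =
      (∏ i, wt (ob3 (k i))) * (∏ i, wt (ob3 (k' i))) *
      ((((nA n k).factorial : ℕ) : ℂ)⁻¹ * (((nA n k').factorial : ℕ) : ℂ)⁻¹ *
        ((2 * Real.pi : ℂ)⁻¹ ^ nA n k * (2 * Real.pi : ℂ)⁻¹ ^ nA n k')) *
      Ig (oo (fun i => ob4 (kA (nA n k) k i)) (fun i => ob4 (kA (nA n k') k' i)))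
        (Sum.elim (fun i => X (kA (nA n k) k i)) (fun i => Y (kA (nA n k') k' i)))
        (Sum.elim (Sum.elim (fun _ => α) x) (Sum.elim (fun _ => α) x')) := by
  have hch : ∑ i, chg (ob4 (kA (nA n k) k i)) = ∑ i, chg (ob4 (kA (nA n k') k' i)) := by
    rw [sum_chg_kA n k hk, sum_chg_kA n k' hk']
  have hx1 : ∀ i, Sum.elim (fun _ : Fin (nA n k) => α) x i ∈
      Set.Icc (lo4 α bl sl tl (kA (nA n k) k i)) (lo4 α bh sh th (kA (nA n k) k i)) := by
    rintro (i | i)
    · exact ⟨le_rfl, le_rfl⟩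
    · exact hx i
  have hx2 : ∀ i, Sum.elim (fun _ : Fin (nA n k') => α) x' i ∈
      Set.Icc (lo4 α bl sl tl (kA (nA n k') k' i)) (lo4 α bh sh th (kA (nA n k') k' i)) := by
    rintro (i | i)
    · exact ⟨le_rfl, le_rfl⟩
    · exact hx' i
  rw [Ig_canon X Y α _ _ k k' x x' (integrable_lines hs hκ hmX hmY hX hY
      (kA (nA n k) k) (kA (nA n k') k') hch _ _ hx1 hx2)]
  unfold term gas
  rw [← integral_const_mul, ← integral_const_mul]
  refine integral_congr_ae (Filter.Eventually.of_forall fun t => ?_)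
  simp only []
  ring

theorem Xp_elim (X Y lX lY : Option O3 → ℂ → ℂ) (s : ℂ) {ι ι' : Type*} (k : ι → Option O3)
    (k' : ι' → Option O3) :
    Sum.elim (fun i => Xp X lX s (k i)) (fun i => Xp Y lY s (k' i)) =
      hp (Sum.elim (fun i => X (k i)) (fun i => Y (k' i)))
        (Sum.elim (fun i => lX (k i)) (fun i => lY (k' i))) s := by
  funext i
  rcases i with i | i <;> rfl

/-- **A term with a complex power is entire.** -/
theorem entire_term (hs : Strips α bl bh sl sh tl th) (hκ : 0 < κ)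
    {X Y lX lY : Option O3 → ℂ → ℂ} (hX : Pw α bl bh sl sh tl th κ X lX)
    (hY : Pw α bl bh sl sh tl th κ Y lY) (n : ℕ) {p p' : ℕ} (k : Fin p → O3) (k' : Fin p' → O3)
    (hk : ∑ i, c3 (k i) ≤ n) (hk' : ∑ i, c3 (k' i) ≤ n) (x : Fin p → ℝ) (x' : Fin p' → ℝ)
    (hx : ∀ i, x i ∈ Set.Icc (lo4 α bl sl tl (some (k i))) (lo4 α bh sh th (some (k i))))
    (hx' : ∀ i, x' i ∈ Set.Icc (lo4 α bl sl tl (some (k' i))) (lo4 α bh sh th (some (k' i)))) :
    Differentiable ℂ fun s : ℂ => term (Xp X lX s) (Xp Y lY s) α n k k' x x' := by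
  have e1 : (fun s : ℂ => term (Xp X lX s) (Xp Y lY s) α n k k' x x') = fun s : ℂ =>
      (∏ i, wt (ob3 (k i))) * (∏ i, wt (ob3 (k' i))) *
      ((((nA n k).factorial : ℕ) : ℂ)⁻¹ * (((nA n k').factorial : ℕ) : ℂ)⁻¹ *
        ((2 * Real.pi : ℂ)⁻¹ ^ nA n k * (2 * Real.pi : ℂ)⁻¹ ^ nA n k')) *
      Ig (oo (fun i => ob4 (kA (nA n k) k i)) (fun i => ob4 (kA (nA n k') k' i)))
        (hp (Sum.elim (fun i => X (kA (nA n k) k i)) (fun i => Y (kA (nA n k') k' i)))
          (Sum.elim (fun i => lX (kA (nA n k) k i)) (fun i => lY (kA (nA n k') k' i))) s)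
        (Sum.elim (Sum.elim (fun _ => α) x) (Sum.elim (fun _ => α) x')) := by
    funext s
    rw [term_eq hs hκ (hX.measp s) (hY.measp s) (hX.decp s) (hY.decp s) n k k' hk hk' x x' hx hx',
      Xp_elim]
  rw [e1]
  have hch : ∑ i, chg (ob4 (kA (nA n k) k i)) = ∑ i, chg (ob4 (kA (nA n k') k' i)) := by
    rw [sum_chg_kA n k hk, sum_chg_kA n k' hk']
  have hx1 : ∀ i, Sum.elim (fun _ : Fin (nA n k) => α) x i ∈
      Set.Icc (lo4 α bl sl tl (kA (nA n k) k i)) (lo4 α bh sh th (kA (nA n k) k i)) := by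
    rintro (i | i)
    · exact ⟨le_rfl, le_rfl⟩
    · exact hx i
  have hx2 : ∀ i, Sum.elim (fun _ : Fin (nA n k') => α) x' i ∈
      Set.Icc (lo4 α bl sl tl (kA (nA n k') k' i)) (lo4 α bh sh th (kA (nA n k') k' i)) := by
    rintro (i | i)
    · exact ⟨le_rfl, le_rfl⟩
    · exact hx' i
  refine Differentiable.const_mul (entire_Ig (sum_sc hch) hκ ?_ ?_ ?_ ?_ ?_) _
  · rintro (i | i)
    · exact hX.meas _
    · exact hY.meas _
  · rintro (i | i)
    · exact hX.dec _ _ (hx1 i)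
    · exact hY.dec _ _ (hx2 i)
  · rintro (i | i)
    · exact hX.lmeas _
    · exact hY.lmeas _
  · rintro (i | i)
    · exact hX.lbd _ _ (hx1 i)
    · exact hY.lbd _ _ (hx2 i)
  · rintro (a | a) (b | b) _ <;> refine Ok_of_RO (RO_strips hs _ _ _ _ ?_ ?_) <;>
      first | exact hx1 _ | exact hx2 _

/-- **The sum over objects with a complex number of rows is entire.** -/
theorem entire_Zobj (hs : Strips α bl bh sl sh tl th) (hκ : 0 < κ)
    {X Y lX lY : Option O3 → ℂ → ℂ} (hX : Pw α bl bh sl sh tl th κ X lX)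
    (hY : Pw α bl bh sl sh tl th κ Y lY) (n : ℕ) {lnX : Lns} {lnY : Lns'}
    (hln : LnOk α bl bh sl sh tl th lnX lnY) :
    Differentiable ℂ fun s : ℂ => Zobj (Xp X lX s) (Xp Y lY s) α n lnX lnY := by
  unfold Zobj
  refine Differentiable.fun_sum fun p' _ => Differentiable.fun_sum fun p _ =>
    Differentiable.const_mul ?_ _
  refine Differentiable.fun_sum fun k' _ => Differentiable.fun_sum fun k _ => ?_
  split_ifs with h
  · exact entire_term hs hκ hX hY n k k' h.2 h.1 _ _ (hln.X p p' k k') (hln.Y p p' k k')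
  · exact differentiable_const _

end

/-! ## signs -/

theorem fld_scale (o : ι → CO) (z : ι → ℂ) (o0 : CO) (G : ℂ → ℂ) (c : ℂ) :
    fld o z o0 (fun u => G u * c) = fun v => fld o z o0 G v * c := by
  funext v
  unfold fld
  ring

/-- **Scaling** of all one body functions by `ε ^ charge`. -/
theorem term_scale (X Y : Option O3 → ℂ → ℂ) (ε : ℂ) (α : ℝ) (n : ℕ) {p p' : ℕ}
    (k : Fin p → O3) (k' : Fin p' → O3) (hk : ∑ i, c3 (k i) ≤ n) (hk' : ∑ i, c3 (k' i) ≤ n)
    (x : Fin p → ℝ) (x' : Fin p' → ℝ) :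
    term (fun k u => X k u * ε ^ (k.elim 1 c3)) (fun k u => Y k u * ε ^ (k.elim 1 c3)) α n k k'
      x x' = ε ^ (2 * n) * term X Y α n k k' x x' := by
  have e0 : (2 * n : ℕ) = (∑ i, c3 (k i) + ∑ i, c3 (k' i)) + (nA n k + nA n k') := by
    unfold nA
    omega
  unfold term gas
  simp only [Option.elim, pow_one]
  rw [← integral_const_mul, ← integral_const_mul, ← integral_const_mul]
  refine integral_congr_ae (Filter.Eventually.of_forall fun t => ?_)
  simp only []
  have e1 : Fg (o3 k k') (h3 (fun k u => X k u * ε ^ (k.elim 1 c3))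
      (fun k u => Y k u * ε ^ (k.elim 1 c3)) k k') (pos (Sum.elim x x') t) =
      (ε ^ (∑ i, c3 (k i)) * ε ^ (∑ i, c3 (k' i))) *
        Fg (o3 k k') (h3 X Y k k') (pos (Sum.elim x x') t) := by
    have h1 : h3 (fun k u => X k u * ε ^ (k.elim 1 c3)) (fun k u => Y k u * ε ^ (k.elim 1 c3)) k k'
        = fun i u => h3 X Y k k' i u *
          Sum.elim (fun i => ε ^ c3 (k i)) (fun i => ε ^ c3 (k' i)) i := by
      funext i
      rcases i with i | i <;> rfl
    rw [h1, Fg_scale, Fintype.prod_sum_type]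
    simp only [Sum.elim_inl, Sum.elim_inr]
    rw [Finset.prod_pow_eq_pow_sum, Finset.prod_pow_eq_pow_sum]
  have e2 : Ig (oo (fun _ : Fin (nA n k) => Ob.A) (fun _ : Fin (nA n k') => Ob.A))
      (Sum.elim (fun _ => fld (o3 k k') (pos (Sum.elim x x') t) (true, .A)
          (fun u => X none u * ε))
        (fun _ => fld (o3 k k') (pos (Sum.elim x x') t) (false, .A) (fun u => Y none u * ε)))
        (fun _ => α) =
      (ε ^ nA n k * ε ^ nA n k') *
        Ig (oo (fun _ : Fin (nA n k) => Ob.A) (fun _ : Fin (nA n k') => Ob.A))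
      (Sum.elim (fun _ => fld (o3 k k') (pos (Sum.elim x x') t) (true, .A) (X none))
        (fun _ => fld (o3 k k') (pos (Sum.elim x x') t) (false, .A) (Y none)))
        (fun _ => α) := by
    unfold Ig
    rw [← integral_const_mul]
    refine integral_congr_ae (Filter.Eventually.of_forall fun u => ?_)
    simp only [fld_scale]
    have h1 : (Sum.elim (fun _ : Fin (nA n k) => fun v =>
          fld (o3 k k') (pos (Sum.elim x x') t) (true, .A) (X none) v * ε)
        (fun _ : Fin (nA n k') => fun v =>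
          fld (o3 k k') (pos (Sum.elim x x') t) (false, .A) (Y none) v * ε)) =
        fun i v => (Sum.elim (fun _ : Fin (nA n k) =>
          fld (o3 k k') (pos (Sum.elim x x') t) (true, .A) (X none))
        (fun _ : Fin (nA n k') =>
          fld (o3 k k') (pos (Sum.elim x x') t) (false, .A) (Y none))) i v * (fun _ => ε) i := by
      funext i
      rcases i with i | i <;> rfl
    rw [h1, Fg_scale, Fintype.prod_sum_type]
    simp only [Finset.prod_const, Finset.card_univ, Fintype.card_fin]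
  have e3 := e1
  simp only [Option.elim] at e3
  rw [e3, e2, e0, pow_add, pow_add, pow_add]
  ring

theorem Zobj_scale (X Y : Option O3 → ℂ → ℂ) (ε : ℂ) (α : ℝ) (n : ℕ) (lnX : Lns) (lnY : Lns') :
    Zobj (fun k u => X k u * ε ^ (k.elim 1 c3)) (fun k u => Y k u * ε ^ (k.elim 1 c3)) α n
      lnX lnY = ε ^ (2 * n) * Zobj X Y α n lnX lnY := by
  unfold Zobj
  simp only [Finset.mul_sum]
  refine Finset.sum_congr rfl fun p' _ => Finset.sum_congr rfl fun p _ =>
    Finset.sum_congr rfl fun k' _ => Finset.sum_congr rfl fun k _ => ?_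
  split_ifs with h
  · rw [term_scale X Y ε α n k k' h.2 h.1]
    ring
  · ring

end NUP1S

end
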