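import Pool.Agent.NUP1S.ConfP
import Pool.Agent.NUP1S.KSum
import Pool.Agent.NUP1S.MergeR
import Pool.Agent.NUP1S.Zs
import Pool.Agent.NUO.MeasGas

/-!
# The representation corollary, line form

`Zobj` (stage 2) is bounded by a sum over configurations `O` of objects of the five kinds of the
modulus of the weight of `O` times the modulus of the gas of the quanta on `Re u = l` in the field
of `O`.  `X` = one body functions: `X none` quanta on `A'` and satellites, `X (some L)` quanta `L`,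
`X (some S)`, `X (some T)` strings.
-/

set_option autoImplicit false
set_option linter.unusedSectionVars false

noncomputable section

open Complex MeasureTheory Finset
open scoped ENNReal

namespace NUP1S.Ab

open NUP1 NUO NUP1S.Mg

/-- modulus of the one body weight of the object `i` -/
def oX (X : Option O3 → ℂ → ℂ) (P : NUO.Par) {r : ℕ} (O : Fin r → Xo) (i : Fin r) : ℝ :=
  obX X P.jL (ei P O i) (rr P O i) (O i)

section fam
variable {ι ι' : Type*} [Fintype ι] [Fintype ι']

/-- the gas on `Re u = l` in the field of a family of objects -/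
def gasO (G : ℂ → ℂ) (a b : ℕ) (c : ι → List Part) : ℂ :=
  gas a b l (fun z => G z * potG c true z) (fun z => G z * potG c false z)

/-- the term of a family of objects with one body weights `o`, constituents `c` and `q`, `q'`
quanta of the species -/
def FF (G : ℂ → ℂ) (n : ℕ) (o : ι → ℝ) (c : ι → List Part) (q q' : ℕ) : ℝ≥0∞ :=
  if q ≤ n ∧ q' ≤ n then ENNReal.ofReal (WW o c) * ‖gasO G (n - q) (n - q') c‖ₑ else 0

theorem FF_equiv (G : ℂ → ℂ) (n : ℕ) (e : ι ≃ ι') (o : ι' → ℝ) (c : ι' → List Part) (q q' : ℕ) :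
    FF G n (fun i => o (e i)) (fun i => c (e i)) q q' = FF G n o c q q' := by
  unfold FF gasO
  rw [WW_equiv]
  simp only [potG_equiv]

end fam

/-- the term of the configuration `O` -/
def FO (X : Option O3 → ℂ → ℂ) (P : NUO.Par) (n : ℕ) {r : ℕ} (O : Fin r → Xo) : ℝ≥0∞ :=
  FF (X none) n (oX X P O) (cons P O) (chgO O true) (chgO O false)

/-! ### two families -/

section two
variable {p p' : ℕ}

/-- shift of the line -/
def el2 (P : NUO.Par) (i : Fin p ⊕ Fin p') : ℝ := P.e + P.d (p + p') * ((rkS i : ℝ) / (p + p' : ℕ))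

/-- constituents -/
def c2 (P : NUO.Par) (O : Fin p ⊕ Fin p' → Xo) (i : Fin p ⊕ Fin p') : List Part :=
  parts P.jL (el2 P i) (P.rad (p + p') (ht (O i))) (O i)

/-- one body weight -/
def o2 (X : Option O3 → ℂ → ℂ) (P : NUO.Par) (O : Fin p ⊕ Fin p' → Xo) (i : Fin p ⊕ Fin p') : ℝ :=
  obX X P.jL (el2 P i) (P.rad (p + p') (ht (O i))) (O i)

/-- the term of two families -/
def F2 (X : Option O3 → ℂ → ℂ) (P : NUO.Par) (n : ℕ) (O : Fin p ⊕ Fin p' → Xo) : ℝ≥0∞ :=
  FF (X none) n (o2 X P O) (c2 P O) (∑ i, chg true (O i)) (∑ i, chg false (O i))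

/-- configuration of two words and positions -/
def mk2 (K : Fin p → Kind) (K' : Fin p' → Kind) (x : Fin p ⊕ Fin p' → ℝ × ℝ) :
    Fin p ⊕ Fin p' → Xo := fun i => (wd2 K K' i, x i)

theorem FO_eq_F2 (X : Option O3 → ℂ → ℂ) (P : NUO.Par) (n : ℕ) {r : ℕ} (s : Finset (Fin r))
    (ha : s.card = p) (hp : sᶜ.card = p') (O : Fin r → Xo) (hO : ∀ j, sp (O j) = true ↔ j ∈ s) :
    FO X P n O = F2 X P n (fun i => O (finSumEquivOfFinset ha hp i)) := by
  have hr : p + p' = r := by
    have := s.card_add_card_compl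
    rw [ha, hp, Fintype.card_fin] at this
    exact this
  set e := finSumEquivOfFinset ha hp with he
  have hrk : ∀ i, rk O (e i) = rkS i := by
    rintro (i | i)
    · exact rk_inl s ha hp O hO i
    · exact rk_inr s ha hp O hO i
  have hei : ∀ i, ei P O (e i) = el2 P i := by
    intro i
    unfold ei el2
    rw [hrk, hr]
  unfold FO
  rw [← FF_equiv (X none) n e (oX X P O) (cons P O)]
  unfold F2
  congr 1
  · funext i
    unfold oX o2 rr
    rw [hei, hr]
  · funext i
    unfold NUO.cons c2 rr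
    rw [hei, hr]
  · exact (e.sum_comp fun i => chg true (O i)).symm
  · exact (e.sum_comp fun i => chg false (O i)).symm

/-- measure of the height and the angle -/
abbrev muE : Measure (ℝ × ℝ) := (volume : Measure ℝ).prod ((volume : Measure ℝ).restrict (Set.Ioc 0 1))

theorem lint_word (X : Option O3 → ℂ → ℂ) (P : NUO.Par) (n : ℕ) {r : ℕ} (s : Finset (Fin r))
    (ha : s.card = p) (hp : sᶜ.card = p') (K : Fin p → Kind) (K' : Fin p' → Kind) :
    ∫⁻ x : Fin r → ℝ × ℝ, FO X P n (fun i => ((wd2 K K' ∘ (finSumEquivOfFinset ha hp).symm) i, x i))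
      ∂(Measure.pi fun _ => muE) =
    ∫⁻ x : Fin p ⊕ Fin p' → ℝ × ℝ, F2 X P n (mk2 K K' x) ∂(Measure.pi fun _ => muE) := by
  set e := finSumEquivOfFinset ha hp with he
  have h := measurePreserving_piCongrLeft (α := fun _ : Fin r => ℝ × ℝ) (fun _ : Fin r => muE) e
  have h2 := h.lintegral_comp_emb (MeasurableEquiv.measurableEmbedding _)
    (fun x : Fin r → ℝ × ℝ => FO X P n (fun i => ((wd2 K K' ∘ e.symm) i, x i)))
  rw [← h2]
  refine lintegral_congr fun x => ?_
  rw [FO_eq_F2 X P n s ha hp]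
  · congr 1
    funext i
    rw [← he]
    simp only [Function.comp, e.symm_apply_apply]
    unfold mk2
    congr 1
    exact Equiv.piCongrLeft_apply_apply (fun _ : Fin r => ℝ × ℝ) e x i
  · intro j
    obtain ⟨i, rfl⟩ := e.surjective j
    simp only [Function.comp, e.symm_apply_apply]
    rcases i with i | i
    · simp only [wd2, Sum.elim_inl, true_iff]
      rw [he, finSumEquivOfFinset_inl]
      exact orderEmbOfFin_mem s ha i
    · rw [he, finSumEquivOfFinset_inr]
      exact ⟨fun h => (Bool.false_ne_true h).elim, fun h =>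
        absurd h (mem_compl.1 (orderEmbOfFin_mem sᶜ hp i))⟩

end two

/-- **merging the two families** -/
theorem merge_F2 (X : Option O3 → ℂ → ℂ) (P : NUO.Par) (n N : ℕ) :
    ∑ p ∈ range (N + 1), ∑ p' ∈ range (N + 1), ((p.factorial : ℕ) : ℝ≥0∞)⁻¹ *
      ((p'.factorial : ℕ) : ℝ≥0∞)⁻¹ * ∑ K : Fin p → Kind, ∑ K' : Fin p' → Kind,
        ∫⁻ x : Fin p ⊕ Fin p' → ℝ × ℝ, F2 X P n (mk2 K K' x) ∂(Measure.pi fun _ => muE) ≤
    ∑ r ∈ range (2 * N + 1), ((r.factorial : ℕ) : ℝ≥0∞)⁻¹ *
      ∫⁻ O : Fin r → Xo, FO X P n O ∂(Measure.pi fun _ => nu) := by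
  refine (mergeR (K := Kind) (fun r k => ∫⁻ x : Fin r → ℝ × ℝ, FO X P n (fun i => (k i, x i))
      ∂(Measure.pi fun _ => muE))
    (fun p p' K K' => ∫⁻ x : Fin p ⊕ Fin p' → ℝ × ℝ, F2 X P n (mk2 K K' x)
      ∂(Measure.pi fun _ => muE)) ?_ N).trans (le_of_eq ?_)
  · intro r s a p ha hp kX kY
    exact lint_word X P n s ha hp kX kY
  · refine sum_congr rfl fun r _ => ?_
    congr 1
    exact (words_lint muE (Fin r) (fun k x => FO X P n (fun i => (k i, x i)))).symm


/-! ### measurability -/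

section meas

variable {r : ℕ} (P : NUO.Par) (hP : Measurable (P.rad r)) {X : Option O3 → ℂ → ℂ}
  (hX : ∀ k, Measurable (X k))

include hP hX

theorem measurable_oX (i : Fin r) : Measurable fun O : Fin r → Xo => oX X P O i := by
  refine measurable_config' fun K => ?_
  have ht : Measurable fun y : Fin r → ℝ × ℝ => (y i).1 :=
    measurable_fst.comp (measurable_pi_apply i)
  have ha : Measurable fun y : Fin r → ℝ × ℝ => (y i).2 :=
    measurable_snd.comp (measurable_pi_apply i)
  exact measurable_obX hX P.jL (ei P (fun i => (K i, ((0 : ℝ), (0 : ℝ)))) i) (K i) ht ha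
    (hP.comp ht)

theorem measurable_WW : Measurable fun O : Fin r → Xo => WW (oX X P O) (cons P O) := by
  have e : (fun O : Fin r → Xo => WW (oX X P O) (cons P O)) = fun O =>
      (∏ i, oX X P O i) * ∏ i, ∏ j, if i < j then pairN P O i j else 1 := by
    funext O
    unfold WW
    rw [norm_P _ fun a b => ppC_symm _ _]
    simp_rw [norm_ppC]
    rfl
  rw [e]
  refine Measurable.mul (Finset.measurable_prod _ fun i _ => measurable_oX P hP hX i) ?_
  refine Finset.measurable_prod _ fun i _ => Finset.measurable_prod _ fun j _ => ?_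
  by_cases h : i < j
  · simp only [h, if_true]
    exact measurable_pairN P hP i j
  · simp only [h, if_false]
    exact measurable_const

theorem measurable_FO (n : ℕ) : Measurable fun O : Fin r → Xo => FO X P n O := by
  refine measurable_config' fun K => ?_
  have hc : Measurable fun y : Fin r → ℝ × ℝ => (fun i => (K i, y i) : Fin r → Xo) := by
    refine measurable_pi_lambda _ fun i => ?_
    exact measurable_const.prodMk (measurable_pi_apply i)
  have hW := (measurable_WW P hP hX).comp hc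
  have hg := fun a b => (measurable_enorm_gas_potC P hP a b l (hX none)).comp hc
  set q := chgO (fun i => (K i, ((0 : ℝ), (0 : ℝ)))) true with hq
  set q' := chgO (fun i => (K i, ((0 : ℝ), (0 : ℝ)))) false with hq'
  have e : (fun y : Fin r → ℝ × ℝ => FO X P n fun i => (K i, y i)) = fun y =>
      if q ≤ n ∧ q' ≤ n then
        ENNReal.ofReal (WW (oX X P fun i => (K i, y i)) (cons P fun i => (K i, y i))) *
          ‖gas (n - q) (n - q') l (fun z => X none z * potC P (fun i => (K i, y i)) true z)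
            (fun z => X none z * potC P (fun i => (K i, y i)) false z)‖ₑ else 0 := rfl
  rw [e]
  by_cases h : q ≤ n ∧ q' ≤ n
  · simp only [if_pos h]
    exact hW.ennreal_ofReal.mul (hg _ _)
  · simp only [if_neg h]
    exact measurable_const

end meas

section two
variable {p p' : ℕ}

/-- the first `p` labels -/
def fst' (p p' : ℕ) : Finset (Fin (p + p')) := univ.filter fun j => (j : ℕ) < p

theorem card_fst (p p' : ℕ) : (fst' p p').card = p := by
  have h : fst' p p' = (univ : Finset (Fin p)).map (Fin.castAddEmb p') := by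
    ext j
    simp only [fst', mem_filter, mem_univ, true_and, mem_map, Fin.coe_castAddEmb]
    constructor
    · intro h
      exact ⟨⟨j, h⟩, rfl⟩
    · rintro ⟨i, rfl⟩
      exact i.2
  rw [h, card_map, card_univ, Fintype.card_fin]

theorem card_fst_compl (p p' : ℕ) : (fst' p p')ᶜ.card = p' := by
  rw [card_compl, card_fst, Fintype.card_fin]
  omega

theorem measurable_F2 (P : NUO.Par) (hP : ∀ r, Measurable (P.rad r)) {X : Option O3 → ℂ → ℂ}
    (hX : ∀ k, Measurable (X k)) (n : ℕ) (K : Fin p → Kind) (K' : Fin p' → Kind) :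
    Measurable fun x : Fin p ⊕ Fin p' → ℝ × ℝ => F2 X P n (mk2 K K' x) := by
  set e := finSumEquivOfFinset (card_fst p p') (card_fst_compl p p') with he
  have h1 : ∀ x, F2 X P n (mk2 K K' x) = FO X P n (fun j => mk2 K K' x (e.symm j)) := by
    intro x
    rw [FO_eq_F2 X P n (fst' p p') (card_fst p p') (card_fst_compl p p')]
    · congr 1
      funext i
      rw [← he, e.symm_apply_apply]
    · intro j
      obtain ⟨i, rfl⟩ := e.surjective j
      rw [e.symm_apply_apply]
      rcases i with i | i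
      · simp only [mk2, wd2, Sum.elim_inl, true_iff]
        rw [he, finSumEquivOfFinset_inl]
        exact orderEmbOfFin_mem _ _ i
      · rw [he, finSumEquivOfFinset_inr]
        exact ⟨fun h => (Bool.false_ne_true h).elim, fun h =>
          absurd h (mem_compl.1 (orderEmbOfFin_mem (fst' p p')ᶜ (card_fst_compl p p') i))⟩
  simp_rw [h1]
  refine (measurable_FO P (hP _) hX n).comp (measurable_pi_lambda _ fun j => ?_)
  exact measurable_const.prodMk (measurable_pi_apply _)

/-- heights and angles -/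
theorem fubini2 (P : NUO.Par) (hP : ∀ r, Measurable (P.rad r)) {X : Option O3 → ℂ → ℂ}
    (hX : ∀ k, Measurable (X k)) (n : ℕ) (K : Fin p → Kind) (K' : Fin p' → Kind) :
    ∫⁻ t : Fin p ⊕ Fin p' → ℝ, ∫⁻ θ : Fin p ⊕ Fin p' → ℝ, F2 X P n (mk2 K K' fun i => (t i, θ i))
      ∂(Measure.pi fun _ => (volume : Measure ℝ).restrict (Set.Ioc 0 1))
      ∂(Measure.pi fun _ => volume) =
    ∫⁻ x : Fin p ⊕ Fin p' → ℝ × ℝ, F2 X P n (mk2 K K' x) ∂(Measure.pi fun _ => muE) := by
  have h := measurePreserving_arrowProdEquivProdArrow ℝ ℝ (Fin p ⊕ Fin p')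
    (fun _ => (volume : Measure ℝ)) (fun _ => (volume : Measure ℝ).restrict (Set.Ioc 0 1))
  have h2 := h.lintegral_comp_emb (MeasurableEquiv.measurableEmbedding _)
    (fun q => F2 X P n (mk2 K K' fun i => (q.1 i, q.2 i)))
  have hm : Measurable fun q : (Fin p ⊕ Fin p' → ℝ) × (Fin p ⊕ Fin p' → ℝ) =>
      F2 X P n (mk2 K K' fun i => (q.1 i, q.2 i)) := by
    refine (measurable_F2 P hP hX n K K').comp (measurable_pi_lambda _ fun i => ?_)
    exact ((measurable_pi_apply i).comp measurable_fst).prodMk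
      ((measurable_pi_apply i).comp measurable_snd)
  rw [lintegral_prod _ hm.aemeasurable] at h2
  rw [← h2]
  rfl

theorem measurable_in (P : NUO.Par) (hP : ∀ r, Measurable (P.rad r)) {X : Option O3 → ℂ → ℂ}
    (hX : ∀ k, Measurable (X k)) (n : ℕ) (K : Fin p → Kind) (K' : Fin p' → Kind) :
    Measurable fun t : Fin p ⊕ Fin p' → ℝ => ∫⁻ θ : Fin p ⊕ Fin p' → ℝ,
      F2 X P n (mk2 K K' fun i => (t i, θ i))
      ∂(Measure.pi fun _ => (volume : Measure ℝ).restrict (Set.Ioc 0 1)) := by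
  have hm : Measurable fun q : (Fin p ⊕ Fin p' → ℝ) × (Fin p ⊕ Fin p' → ℝ) =>
      F2 X P n (mk2 K K' fun i => (q.1 i, q.2 i)) := by
    refine (measurable_F2 P hP hX n K K').comp (measurable_pi_lambda _ fun i => ?_)
    exact ((measurable_pi_apply i).comp measurable_fst).prodMk
      ((measurable_pi_apply i).comp measurable_snd)
  exact hm.lintegral_prod_right'

end two

section main
variable {p p' : ℕ}

/-- **one word, heights fixed** -/
def WordLe (X : Option O3 → ℂ → ℂ) (P : NUO.Par) (n : ℕ) : Prop :=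
  ∀ (p p' : ℕ) (k : Fin p → O3) (k' : Fin p' → O3), ∑ i, c3 (k i) ≤ n → ∑ i, c3 (k' i) ≤ n →
    ∀ t : Fin p ⊕ Fin p' → ℝ,
    ‖((∏ i, Bd.wt (ob3 (k i))) * (∏ i, Bd.wt (ob3 (k' i)))) *
      (Fg (o3 k k') (h3 X X k k') (pos (Sum.elim (lX P p p' k k') (lY P p p' k k')) t) *
        gas (nA n k) (nA n k') (l / 4)
          (fld (o3 k k') (pos (Sum.elim (lX P p p' k k') (lY P p p' k k')) t) (true, .A) (X none))
          (fld (o3 k k') (pos (Sum.elim (lX P p p' k k') (lY P p p' k k')) t) (false, .A)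
            (X none)))‖ₑ ≤
    ∑ τ : Fin p ⊕ Fin p' → Fin 3,
      if (∀ i, τ i ≠ 0 → actO k k' i) ∧ nsat (o3 k k') true τ ≤ nA n k ∧
        nsat (o3 k k') false τ ≤ nA n k' then
        ∫⁻ θ : Fin p ⊕ Fin p' → ℝ,
          ENNReal.ofReal (WW (o2 X P (mk2 (fun i => kdO (k i) (τ (Sum.inl i)))
              (fun i => kdO (k' i) (τ (Sum.inr i))) fun i => (t i, θ i)))
            (c2 P (mk2 (fun i => kdO (k i) (τ (Sum.inl i)))
              (fun i => kdO (k' i) (τ (Sum.inr i))) fun i => (t i, θ i)))) *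
          ‖gasO (X none) (nA n k - nsat (o3 k k') true τ) (nA n k' - nsat (o3 k k') false τ)
            (c2 P (mk2 (fun i => kdO (k i) (τ (Sum.inl i)))
              (fun i => kdO (k' i) (τ (Sum.inr i))) fun i => (t i, θ i)))‖ₑ
          ∂(Measure.pi fun _ => (volume : Measure ℝ).restrict (Set.Ioc 0 1))
      else 0

theorem term_le {X : Option O3 → ℂ → ℂ} {P : NUO.Par} {n : ℕ} (hW : WordLe X P n)
    (k : Fin p → O3) (k' : Fin p' → O3) (hk : ∑ i, c3 (k i) ≤ n) (hk' : ∑ i, c3 (k' i) ≤ n) :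
    ‖term X X (l / 4) n k k' (lX P p p' k k') (lY P p p' k k')‖ₑ ≤
      ∫⁻ t : Fin p ⊕ Fin p' → ℝ, ∑ τ : Fin p ⊕ Fin p' → Fin 3,
        (if ∀ i, τ i ≠ 0 → actO k k' i then ∫⁻ θ : Fin p ⊕ Fin p' → ℝ,
          F2 X P n (mk2 (fun i => kdO (k i) (τ (Sum.inl i)))
            (fun i => kdO (k' i) (τ (Sum.inr i))) fun i => (t i, θ i))
          ∂(Measure.pi fun _ => (volume : Measure ℝ).restrict (Set.Ioc 0 1)) else 0)
        ∂(Measure.pi fun _ => volume) := by
  unfold term
  rw [← integral_const_mul]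
  refine (enorm_integral_le_lintegral_enorm _).trans (lintegral_mono fun t => ?_)
  refine (hW p p' k k' hk hk' t).trans (Finset.sum_le_sum fun τ _ => ?_)
  by_cases h : ∀ i, τ i ≠ 0 → actO k k' i
  · rw [if_pos h]
    by_cases h' : nsat (o3 k k') true τ ≤ nA n k ∧ nsat (o3 k k') false τ ≤ nA n k'
    · rw [if_pos ⟨h, h'⟩]
      refine le_of_eq (lintegral_congr fun θ => ?_)
      unfold F2 FF
      have e1 := chg_true k k' τ h (fun i => (t i, θ i))
      have e2 := chg_false k k' τ h (fun i => (t i, θ i))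
      unfold mk2
      rw [e1, e2]
      obtain ⟨h1, h2⟩ := h'
      unfold nA at h1 h2 ⊢
      rw [if_pos ⟨by omega, by omega⟩, Nat.sub_sub, Nat.sub_sub]
    · rw [if_neg fun hh => h' hh.2]
      exact bot_le
  · rw [if_neg h, if_neg fun hh => h hh.1]

/-- **Line form of the representation corollary.** -/
theorem Zobj_le {X : Option O3 → ℂ → ℂ} {P : NUO.Par} {n : ℕ} (hP : ∀ r, Measurable (P.rad r))
    (hX : ∀ k, Measurable (X k)) (hW : WordLe X P n) :
    ‖Zobj X X (l / 4) n (lX P) (lY P)‖ₑ ≤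
      ∑ r ∈ range (2 * n + 1), ((r.factorial : ℕ) : ℝ≥0∞)⁻¹ *
        ∫⁻ O : Fin r → Xo, FO X P n O ∂(Measure.pi fun _ => nu) := by
  refine le_trans ?_ (merge_F2 X P n n)
  unfold Zobj
  refine (enorm_sum_le _ _).trans ?_
  rw [Finset.sum_comm (f := fun p p' => ((p.factorial : ℕ) : ℝ≥0∞)⁻¹ *
      ((p'.factorial : ℕ) : ℝ≥0∞)⁻¹ * ∑ K : Fin p → Kind, ∑ K' : Fin p' → Kind,
        ∫⁻ x : Fin p ⊕ Fin p' → ℝ × ℝ, F2 X P n (mk2 K K' x) ∂(Measure.pi fun _ => muE))]
  refine Finset.sum_le_sum fun p' _ => (enorm_sum_le _ _).trans (Finset.sum_le_sum fun p _ => ?_)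
  have hf : ∀ q : ℕ, ‖((q.factorial : ℕ) : ℂ)⁻¹‖ₑ = ((q.factorial : ℕ) : ℝ≥0∞)⁻¹ := by
    intro q
    have h0 : ((q.factorial : ℕ) : ℂ) ≠ 0 := by exact_mod_cast q.factorial_ne_zero
    rw [enorm_inv h0]
    congr 1
    rw [← ofReal_norm, Complex.norm_natCast, ENNReal.ofReal_natCast]
  rw [enorm_mul, enorm_mul, hf, hf, mul_comm (((p'.factorial : ℕ) : ℝ≥0∞)⁻¹)]
  refine mul_le_mul_right ?_ _
  calc ‖∑ k' : Fin p' → O3, ∑ k : Fin p → O3, if ∑ i, c3 (k' i) ≤ n ∧ ∑ i, c3 (k i) ≤ n then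
          term X X (l / 4) n k k' (lX P p p' k k') (lY P p p' k k') else 0‖ₑ
      ≤ ∑ k' : Fin p' → O3, ∑ k : Fin p → O3, ∫⁻ t : Fin p ⊕ Fin p' → ℝ,
        ∑ τ : Fin p ⊕ Fin p' → Fin 3,
        (if ∀ i, τ i ≠ 0 → actO k k' i then ∫⁻ θ : Fin p ⊕ Fin p' → ℝ,
          F2 X P n (mk2 (fun i => kdO (k i) (τ (Sum.inl i)))
            (fun i => kdO (k' i) (τ (Sum.inr i))) fun i => (t i, θ i))
          ∂(Measure.pi fun _ => (volume : Measure ℝ).restrict (Set.Ioc 0 1)) else 0)
        ∂(Measure.pi fun _ => volume) := by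
        refine (enorm_sum_le _ _).trans (Finset.sum_le_sum fun k' _ =>
          (enorm_sum_le _ _).trans (Finset.sum_le_sum fun k _ => ?_))
        by_cases h : ∑ i, c3 (k' i) ≤ n ∧ ∑ i, c3 (k i) ≤ n
        · rw [if_pos h]
          exact term_le hW k k' h.2 h.1
        · rw [if_neg h, enorm_zero]
          exact bot_le
    _ = ∑ k' : Fin p' → O3, ∑ k : Fin p → O3, ∑ τ : Fin p ⊕ Fin p' → Fin 3,
        (if ∀ i, τ i ≠ 0 → actO k k' i then ∫⁻ t : Fin p ⊕ Fin p' → ℝ,
          ∫⁻ θ : Fin p ⊕ Fin p' → ℝ,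
          F2 X P n (mk2 (fun i => kdO (k i) (τ (Sum.inl i)))
            (fun i => kdO (k' i) (τ (Sum.inr i))) fun i => (t i, θ i))
          ∂(Measure.pi fun _ => (volume : Measure ℝ).restrict (Set.Ioc 0 1))
          ∂(Measure.pi fun _ => volume) else 0) := by
        refine Finset.sum_congr rfl fun k' _ => Finset.sum_congr rfl fun k _ => ?_
        rw [lintegral_finsetSum]
        · refine Finset.sum_congr rfl fun τ _ => ?_
          by_cases h : ∀ i, τ i ≠ 0 → actO k k' i
          · simp only [if_pos h]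
          · simp only [if_neg h, lintegral_zero]
        · intro τ _
          by_cases h : ∀ i, τ i ≠ 0 → actO k k' i
          · simp only [if_pos h]
            exact measurable_in P hP hX n _ _
          · simp only [if_neg h]
            exact measurable_const
    _ = ∑ K : Fin p → Kind, ∑ K' : Fin p' → Kind, ∫⁻ t : Fin p ⊕ Fin p' → ℝ,
          ∫⁻ θ : Fin p ⊕ Fin p' → ℝ, F2 X P n (mk2 K K' fun i => (t i, θ i))
          ∂(Measure.pi fun _ => (volume : Measure ℝ).restrict (Set.Ioc 0 1))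
          ∂(Measure.pi fun _ => volume) :=
        sum_kdO_two (fun K K' => ∫⁻ t : Fin p ⊕ Fin p' → ℝ,
          ∫⁻ θ : Fin p ⊕ Fin p' → ℝ, F2 X P n (mk2 K K' fun i => (t i, θ i))
          ∂(Measure.pi fun _ => (volume : Measure ℝ).restrict (Set.Ioc 0 1))
          ∂(Measure.pi fun _ => volume))
    _ = _ := Finset.sum_congr rfl fun K _ => Finset.sum_congr rfl fun K' _ => fubini2 P hP hX n K K'

/-- **Line form of the representation corollary**, final form -/
theorem Zobj_le' {X : Option O3 → ℂ → ℂ} {P : NUO.Par} (h : GoodP P)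
    (hP : ∀ r, Measurable (P.rad r)) (hX : ∀ k, Measurable (X k)) {κ : ℝ} (hκ : 0 < κ)
    (hd : ∀ u : ℂ, l / 4 ≤ u.re → u.re ≤ l → DifferentiableAt ℂ (X none) u)
    (hb : DecOn κ (Set.Icc (l / 4) l) (X none)) (n : ℕ) :
    ‖Zobj X X (l / 4) n (lX P) (lY P)‖ₑ ≤
      ∑ r ∈ range (2 * n + 1), ((r.factorial : ℕ) : ℝ≥0∞)⁻¹ *
        ∫⁻ O : Fin r → Xo, FO X P n O ∂(Measure.pi fun _ => nu) :=
  Zobj_le hP hX fun _ _ _ _ hk hk' t => word_key h (hX none) hκ hd hb hk hk' t

end main

end NUP1S.Ab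

end
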