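import Pool.Agent.NUP1S.Abs
import Pool.Agent.NURow.StageQ

/-!
# The line form of the representation corollary for two different families of one body functions
and different numbers of quanta of the two species

`Z true` = one body functions of the species X, `Z false` = of the species Y; `n` quanta X, `n'`
quanta Y; `x0`, `y` = first and last line of the quanta `A`.
-/

set_option autoImplicit false
set_option linter.unusedSectionVars false

noncomputable section

open Complex MeasureTheory Finset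
open scoped ENNReal

namespace NUP1S.AbC

open NUP1 NUO NUP1S.Mg NUP1S.Ab NURow

/-- modulus of the one body weight of an object -/
def obZ (Z : Bool → Option O3 → ℂ → ℂ) (jL e ρ : ℝ) (x : Xo) : ℝ :=
  match kd x with
  | .L => (2 * Real.pi)⁻¹ * ‖Z (sp x) (some .L) (posL jL (ht x))‖
  | .St => aS * ‖Z (sp x) (some .T) (posT (ht x))‖
  | .S => aS * ‖Z (sp x) (some .S) (posS e (ht x))‖
  | .Sv => aS * ‖Z (sp x) (some .S) (posS e (ht x))‖ *
      (ρ * ‖Z (!sp x) none (posV e ρ (ht x) (an x))‖ *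
      ‖Kn.cz false true (posV e ρ (ht x) (an x) - posS e (ht x))‖)
  | .Svv => aS * ‖Z (sp x) (some .S) (posS e (ht x))‖ * (4 * Real.cos l ^ 2 *
      (‖Z (!sp x) none (posS e (ht x) + 2 * l)‖ / Real.sin (5 * l) ^ 2) ^ 2)

theorem obZ_same (X : Option O3 → ℂ → ℂ) (jL e ρ : ℝ) (x : Xo) :
    obZ (fun _ => X) jL e ρ x = obX X jL e ρ x := rfl

theorem measurable_obZ {Y : Type*} [MeasurableSpace Y] {Z : Bool → Option O3 → ℂ → ℂ}
    (hZ : ∀ s k, Measurable (Z s k)) (jL e : ℝ) (k : Bool × Kind)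
    {t a ρ : Y → ℝ} (ht : Measurable t) (ha : Measurable a) (hρ : Measurable ρ) :
    Measurable fun y => obZ Z jL e (ρ y) (k, (t y, a y)) := by
  obtain ⟨s, k⟩ := k
  have hS : Measurable fun y => posS e (t y) := NUO.measurable_vl ht _
  have hS' : Measurable fun y => posS e (t y) + 2 * l := hS.add_const _
  have hV := measurable_posV ht ha hρ e
  have hL : Measurable fun y => posL jL (t y) := NUO.measurable_vl ht _
  have hT : Measurable fun y => posT (t y) := NUO.measurable_vl ht _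
  have o := ((hZ s (some .S)).comp hS).norm.const_mul aS
  cases k
  · exact ((hZ s (some .L)).comp hL).norm.const_mul _
  · exact ((hZ s (some .T)).comp hT).norm.const_mul _
  · exact o
  · exact o.mul ((hρ.mul ((hZ (!s) none).comp hV).norm).mul
      ((NUO.measurable_cz false true).comp (hV.sub hS)).norm)
  · exact o.mul ((((((hZ (!s) none).comp hS').norm).div_const _).pow_const 2).const_mul
      (4 * Real.cos l ^ 2))

/-- modulus of the one body weight of the object `i` -/
def oZ (Z : Bool → Option O3 → ℂ → ℂ) (P : NUO.Par) {r : ℕ} (O : Fin r → Xo) (i : Fin r) : ℝ :=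
  obZ Z P.jL (ei P O i) (rr P O i) (O i)

section fam
variable {ι ι' : Type*} [Fintype ι] [Fintype ι']

/-- the gas on `Re u = y` in the field of a family of objects -/
def gasZ (G : Bool → ℂ → ℂ) (y : ℝ) (a b : ℕ) (c : ι → List Part) : ℂ :=
  gas a b y (fun z => G true z * potG c true z) (fun z => G false z * potG c false z)

/-- the term of a family of objects with one body weights `o`, constituents `c` and `q`, `q'`
quanta of the species -/
def FZ (G : Bool → ℂ → ℂ) (y : ℝ) (n n' : ℕ) (o : ι → ℝ) (c : ι → List Part) (q q' : ℕ) : ℝ≥0∞ :=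
  if q ≤ n ∧ q' ≤ n' then ENNReal.ofReal (WW o c) * ‖gasZ G y (n - q) (n' - q') c‖ₑ else 0

theorem FZ_equiv (G : Bool → ℂ → ℂ) (y : ℝ) (n n' : ℕ) (e : ι ≃ ι') (o : ι' → ℝ)
    (c : ι' → List Part) (q q' : ℕ) :
    FZ G y n n' (fun i => o (e i)) (fun i => c (e i)) q q' = FZ G y n n' o c q q' := by
  unfold FZ gasZ
  rw [WW_equiv]
  simp only [potG_equiv]

end fam

/-- the term of the configuration `O` -/
def FOZ (Z : Bool → Option O3 → ℂ → ℂ) (P : NUO.Par) (y : ℝ) (n n' : ℕ) {r : ℕ}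
    (O : Fin r → Xo) : ℝ≥0∞ :=
  FZ (fun s => Z s none) y n n' (oZ Z P O) (cons P O) (chgO O true) (chgO O false)

/-! ### two families -/

section two
variable {p p' : ℕ}

/-- one body weight -/
def o2Z (Z : Bool → Option O3 → ℂ → ℂ) (P : NUO.Par) (O : Fin p ⊕ Fin p' → Xo)
    (i : Fin p ⊕ Fin p') : ℝ :=
  obZ Z P.jL (el2 P i) (P.rad (p + p') (ht (O i))) (O i)

/-- the term of two families -/
def F2Z (Z : Bool → Option O3 → ℂ → ℂ) (P : NUO.Par) (y : ℝ) (n n' : ℕ)
    (O : Fin p ⊕ Fin p' → Xo) : ℝ≥0∞ :=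
  FZ (fun s => Z s none) y n n' (o2Z Z P O) (c2 P O) (∑ i, chg true (O i)) (∑ i, chg false (O i))

theorem FOZ_eq (Z : Bool → Option O3 → ℂ → ℂ) (P : NUO.Par) (y : ℝ) (n n' : ℕ) {r : ℕ}
    (s : Finset (Fin r)) (ha : s.card = p) (hp : sᶜ.card = p') (O : Fin r → Xo)
    (hO : ∀ j, sp (O j) = true ↔ j ∈ s) :
    FOZ Z P y n n' O = F2Z Z P y n n' (fun i => O (finSumEquivOfFinset ha hp i)) := by
  have hr : p + p' = r := by
    have := s.card_add_card_compl
    rw [ha, hp, Fintype.card_fin] at this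
    exact this
  set e := finSumEquivOfFinset ha hp with he
  have hrk : ∀ i, rk O (e i) = rkS i := by
    rintro (i | i)
    · exact rk_inl s ha hp O hO i
    · exact rk_inr s ha hp O hO i
  have hei : ∀ i, ei P O (e i) = el2 P i := by
    intro i
    unfold ei el2
    rw [hrk, hr]
  unfold FOZ
  rw [← FZ_equiv (fun s => Z s none) y n n' e (oZ Z P O) (cons P O)]
  unfold F2Z
  congr 1
  · funext i
    unfold oZ o2Z rr
    rw [hei, hr]
  · funext i
    unfold NUO.cons c2 rr
    rw [hei, hr]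
  · exact (e.sum_comp fun i => chg true (O i)).symm
  · exact (e.sum_comp fun i => chg false (O i)).symm

theorem lint_wordZ (Z : Bool → Option O3 → ℂ → ℂ) (P : NUO.Par) (y : ℝ) (n n' : ℕ) {r : ℕ}
    (s : Finset (Fin r)) (ha : s.card = p) (hp : sᶜ.card = p') (K : Fin p → Kind)
    (K' : Fin p' → Kind) :
    ∫⁻ x : Fin r → ℝ × ℝ,
      FOZ Z P y n n' (fun i => ((wd2 K K' ∘ (finSumEquivOfFinset ha hp).symm) i, x i))
      ∂(Measure.pi fun _ => muE) =
    ∫⁻ x : Fin p ⊕ Fin p' → ℝ × ℝ, F2Z Z P y n n' (mk2 K K' x) ∂(Measure.pi fun _ => muE) := by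
  set e := finSumEquivOfFinset ha hp with he
  have h := measurePreserving_piCongrLeft (α := fun _ : Fin r => ℝ × ℝ) (fun _ : Fin r => muE) e
  have h2 := h.lintegral_comp_emb (MeasurableEquiv.measurableEmbedding _)
    (fun x : Fin r → ℝ × ℝ => FOZ Z P y n n' (fun i => ((wd2 K K' ∘ e.symm) i, x i)))
  rw [← h2]
  refine lintegral_congr fun x => ?_
  rw [FOZ_eq Z P y n n' s ha hp]
  · congr 1
    funext i
    rw [← he]
    simp only [Function.comp, e.symm_apply_apply]
    unfold mk2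
    congr 1
    exact Equiv.piCongrLeft_apply_apply (fun _ : Fin r => ℝ × ℝ) e x i
  · intro j
    obtain ⟨i, rfl⟩ := e.surjective j
    simp only [Function.comp, e.symm_apply_apply]
    rcases i with i | i
    · simp only [wd2, Sum.elim_inl, true_iff]
      rw [he, finSumEquivOfFinset_inl]
      exact orderEmbOfFin_mem s ha i
    · rw [he, finSumEquivOfFinset_inr]
      exact ⟨fun h => (Bool.false_ne_true h).elim, fun h =>
        absurd h (mem_compl.1 (orderEmbOfFin_mem sᶜ hp i))⟩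

end two

/-- **merging the two families** -/
theorem merge_F2Z (Z : Bool → Option O3 → ℂ → ℂ) (P : NUO.Par) (y : ℝ) (n n' N : ℕ) :
    ∑ p ∈ range (N + 1), ∑ p' ∈ range (N + 1), ((p.factorial : ℕ) : ℝ≥0∞)⁻¹ *
      ((p'.factorial : ℕ) : ℝ≥0∞)⁻¹ * ∑ K : Fin p → Kind, ∑ K' : Fin p' → Kind,
        ∫⁻ x : Fin p ⊕ Fin p' → ℝ × ℝ, F2Z Z P y n n' (mk2 K K' x) ∂(Measure.pi fun _ => muE) ≤
    ∑ r ∈ range (2 * N + 1), ((r.factorial : ℕ) : ℝ≥0∞)⁻¹ *
      ∫⁻ O : Fin r → Xo, FOZ Z P y n n' O ∂(Measure.pi fun _ => nu) := by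
  refine (mergeR (K := Kind) (fun r k => ∫⁻ x : Fin r → ℝ × ℝ, FOZ Z P y n n' (fun i => (k i, x i))
      ∂(Measure.pi fun _ => muE))
    (fun p p' K K' => ∫⁻ x : Fin p ⊕ Fin p' → ℝ × ℝ, F2Z Z P y n n' (mk2 K K' x)
      ∂(Measure.pi fun _ => muE)) ?_ N).trans (le_of_eq ?_)
  · intro r s a p ha hp kX kY
    exact lint_wordZ Z P y n n' s ha hp kX kY
  · refine sum_congr rfl fun r _ => ?_
    congr 1
    exact (words_lint muE (Fin r) (fun k x => FOZ Z P y n n' (fun i => (k i, x i)))).symm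

/-! ### measurability -/

section meas

variable {r : ℕ} (P : NUO.Par) (hP : Measurable (P.rad r)) {Z : Bool → Option O3 → ℂ → ℂ}
  (hZ : ∀ s k, Measurable (Z s k))

include hP hZ

theorem measurable_oZ (i : Fin r) : Measurable fun O : Fin r → Xo => oZ Z P O i := by
  refine measurable_config' fun K => ?_
  have ht : Measurable fun y : Fin r → ℝ × ℝ => (y i).1 :=
    measurable_fst.comp (measurable_pi_apply i)
  have ha : Measurable fun y : Fin r → ℝ × ℝ => (y i).2 :=
    measurable_snd.comp (measurable_pi_apply i)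
  exact measurable_obZ hZ P.jL (ei P (fun i => (K i, ((0 : ℝ), (0 : ℝ)))) i) (K i) ht ha
    (hP.comp ht)

theorem measurable_WWZ : Measurable fun O : Fin r → Xo => WW (oZ Z P O) (cons P O) := by
  have e : (fun O : Fin r → Xo => WW (oZ Z P O) (cons P O)) = fun O =>
      (∏ i, oZ Z P O i) * ∏ i, ∏ j, if i < j then pairN P O i j else 1 := by
    funext O
    unfold WW
    rw [norm_P _ fun a b => ppC_symm _ _]
    simp_rw [norm_ppC]
    rfl
  rw [e]
  refine Measurable.mul (Finset.measurable_prod _ fun i _ => measurable_oZ P hP hZ i) ?_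
  refine Finset.measurable_prod _ fun i _ => Finset.measurable_prod _ fun j _ => ?_
  by_cases h : i < j
  · simp only [h, if_true]
    exact measurable_pairN P hP i j
  · simp only [h, if_false]
    exact measurable_const

theorem measurable_FOZ (y : ℝ) (n n' : ℕ) : Measurable fun O : Fin r → Xo => FOZ Z P y n n' O := by
  refine measurable_config' fun K => ?_
  have hc : Measurable fun x : Fin r → ℝ × ℝ => (fun i => (K i, x i) : Fin r → Xo) := by
    refine measurable_pi_lambda _ fun i => ?_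
    exact measurable_const.prodMk (measurable_pi_apply i)
  have hW := (measurable_WWZ P hP hZ).comp hc
  have hg := fun a b => (measurable_gas_potC P hP a b y (hZ true none) (hZ false none)
    true false).enorm.comp hc
  set q := chgO (fun i => (K i, ((0 : ℝ), (0 : ℝ)))) true with hq
  set q' := chgO (fun i => (K i, ((0 : ℝ), (0 : ℝ)))) false with hq'
  have e : (fun x : Fin r → ℝ × ℝ => FOZ Z P y n n' fun i => (K i, x i)) = fun x =>
      if q ≤ n ∧ q' ≤ n' then
        ENNReal.ofReal (WW (oZ Z P fun i => (K i, x i)) (cons P fun i => (K i, x i))) *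
          ‖gas (n - q) (n' - q') y (fun z => Z true none z * potC P (fun i => (K i, x i)) true z)
            (fun z => Z false none z * potC P (fun i => (K i, x i)) false z)‖ₑ else 0 := rfl
  rw [e]
  by_cases h : q ≤ n ∧ q' ≤ n'
  · simp only [if_pos h]
    exact hW.ennreal_ofReal.mul (hg _ _)
  · simp only [if_neg h]
    exact measurable_const

end meas

section two
variable {p p' : ℕ}

theorem measurable_F2Z (P : NUO.Par) (hP : ∀ r, Measurable (P.rad r))
    {Z : Bool → Option O3 → ℂ → ℂ} (hZ : ∀ s k, Measurable (Z s k)) (y : ℝ) (n n' : ℕ)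
    (K : Fin p → Kind) (K' : Fin p' → Kind) :
    Measurable fun x : Fin p ⊕ Fin p' → ℝ × ℝ => F2Z Z P y n n' (mk2 K K' x) := by
  set e := finSumEquivOfFinset (card_fst p p') (card_fst_compl p p') with he
  have h1 : ∀ x, F2Z Z P y n n' (mk2 K K' x) =
      FOZ Z P y n n' (fun j => mk2 K K' x (e.symm j)) := by
    intro x
    rw [FOZ_eq Z P y n n' (fst' p p') (card_fst p p') (card_fst_compl p p')]
    · congr 1
      funext i
      rw [← he, e.symm_apply_apply]
    · intro j
      obtain ⟨i, rfl⟩ := e.surjective j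
      rw [e.symm_apply_apply]
      rcases i with i | i
      · simp only [mk2, wd2, Sum.elim_inl, true_iff]
        rw [he, finSumEquivOfFinset_inl]
        exact orderEmbOfFin_mem _ _ i
      · rw [he, finSumEquivOfFinset_inr]
        exact ⟨fun h => (Bool.false_ne_true h).elim, fun h =>
          absurd h (mem_compl.1 (orderEmbOfFin_mem (fst' p p')ᶜ (card_fst_compl p p') i))⟩
  simp_rw [h1]
  refine (measurable_FOZ P (hP _) hZ y n n').comp (measurable_pi_lambda _ fun j => ?_)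
  exact measurable_const.prodMk (measurable_pi_apply _)

theorem measurable_pairZ (P : NUO.Par) (hP : ∀ r, Measurable (P.rad r))
    {Z : Bool → Option O3 → ℂ → ℂ} (hZ : ∀ s k, Measurable (Z s k)) (y : ℝ) (n n' : ℕ)
    (K : Fin p → Kind) (K' : Fin p' → Kind) :
    Measurable fun q : (Fin p ⊕ Fin p' → ℝ) × (Fin p ⊕ Fin p' → ℝ) =>
      F2Z Z P y n n' (mk2 K K' fun i => (q.1 i, q.2 i)) := by
  refine (measurable_F2Z P hP hZ y n n' K K').comp (measurable_pi_lambda _ fun i => ?_)
  exact ((measurable_pi_apply i).comp measurable_fst).prodMk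
    ((measurable_pi_apply i).comp measurable_snd)

/-- heights and angles -/
theorem fubini2Z (P : NUO.Par) (hP : ∀ r, Measurable (P.rad r)) {Z : Bool → Option O3 → ℂ → ℂ}
    (hZ : ∀ s k, Measurable (Z s k)) (y : ℝ) (n n' : ℕ) (K : Fin p → Kind) (K' : Fin p' → Kind) :
    ∫⁻ t : Fin p ⊕ Fin p' → ℝ, ∫⁻ θ : Fin p ⊕ Fin p' → ℝ,
      F2Z Z P y n n' (mk2 K K' fun i => (t i, θ i))
      ∂(Measure.pi fun _ => (volume : Measure ℝ).restrict (Set.Ioc 0 1))
      ∂(Measure.pi fun _ => volume) =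
    ∫⁻ x : Fin p ⊕ Fin p' → ℝ × ℝ, F2Z Z P y n n' (mk2 K K' x) ∂(Measure.pi fun _ => muE) := by
  have h := measurePreserving_arrowProdEquivProdArrow ℝ ℝ (Fin p ⊕ Fin p')
    (fun _ => (volume : Measure ℝ)) (fun _ => (volume : Measure ℝ).restrict (Set.Ioc 0 1))
  have h2 := h.lintegral_comp_emb (MeasurableEquiv.measurableEmbedding _)
    (fun q => F2Z Z P y n n' (mk2 K K' fun i => (q.1 i, q.2 i)))
  rw [lintegral_prod _ (measurable_pairZ P hP hZ y n n' K K').aemeasurable] at h2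
  rw [← h2]
  rfl

theorem measurable_inZ (P : NUO.Par) (hP : ∀ r, Measurable (P.rad r))
    {Z : Bool → Option O3 → ℂ → ℂ} (hZ : ∀ s k, Measurable (Z s k)) (y : ℝ) (n n' : ℕ)
    (K : Fin p → Kind) (K' : Fin p' → Kind) :
    Measurable fun t : Fin p ⊕ Fin p' → ℝ => ∫⁻ θ : Fin p ⊕ Fin p' → ℝ,
      F2Z Z P y n n' (mk2 K K' fun i => (t i, θ i))
      ∂(Measure.pi fun _ => (volume : Measure ℝ).restrict (Set.Ioc 0 1)) :=
  (measurable_pairZ P hP hZ y n n' K K').lintegral_prod_right'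

end two

/-! ### the line form -/

section main

/-- **one word, heights fixed**: `x0` first line, `y` last line of the quanta on `A` -/
def WordLeZ (Z : Bool → Option O3 → ℂ → ℂ) (P : NUO.Par) (x0 y : ℝ) (n n' : ℕ) : Prop :=
  ∀ (p p' : ℕ) (k : Fin p → O3) (k' : Fin p' → O3), ∑ i, c3 (k i) ≤ n → ∑ i, c3 (k' i) ≤ n' →
    ∀ t : Fin p ⊕ Fin p' → ℝ,
    ‖((∏ i, Bd.wt (ob3 (k i))) * (∏ i, Bd.wt (ob3 (k' i)))) *
      (Fg (o3 k k') (h3 (Z true) (Z false) k k')
          (pos (Sum.elim (lX P p p' k k') (lY P p p' k k')) t) *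
        gas (nA n k) (nA n' k') x0
          (fld (o3 k k') (pos (Sum.elim (lX P p p' k k') (lY P p p' k k')) t) (true, .A)
            (Z true none))
          (fld (o3 k k') (pos (Sum.elim (lX P p p' k k') (lY P p p' k k')) t) (false, .A)
            (Z false none)))‖ₑ ≤
    ∑ τ : Fin p ⊕ Fin p' → Fin 3,
      if (∀ i, τ i ≠ 0 → actO k k' i) ∧ nsat (o3 k k') true τ ≤ nA n k ∧
        nsat (o3 k k') false τ ≤ nA n' k' then
        ∫⁻ θ : Fin p ⊕ Fin p' → ℝ,
          ENNReal.ofReal (WW (o2Z Z P (mk2 (fun i => kdO (k i) (τ (Sum.inl i)))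
              (fun i => kdO (k' i) (τ (Sum.inr i))) fun i => (t i, θ i)))
            (c2 P (mk2 (fun i => kdO (k i) (τ (Sum.inl i)))
              (fun i => kdO (k' i) (τ (Sum.inr i))) fun i => (t i, θ i)))) *
          ‖gasZ (fun s => Z s none) y (nA n k - nsat (o3 k k') true τ)
            (nA n' k' - nsat (o3 k k') false τ)
            (c2 P (mk2 (fun i => kdO (k i) (τ (Sum.inl i)))
              (fun i => kdO (k' i) (τ (Sum.inr i))) fun i => (t i, θ i)))‖ₑ
          ∂(Measure.pi fun _ => (volume : Measure ℝ).restrict (Set.Ioc 0 1))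
      else 0

variable {p p' : ℕ}

theorem termQ_le {Z : Bool → Option O3 → ℂ → ℂ} {P : NUO.Par} {x0 y : ℝ} {n n' : ℕ}
    (hW : WordLeZ Z P x0 y n n')
    (k : Fin p → O3) (k' : Fin p' → O3) (hk : ∑ i, c3 (k i) ≤ n) (hk' : ∑ i, c3 (k' i) ≤ n') :
    ‖termQ (Z true) (Z false) x0 n n' k k' (lX P p p' k k') (lY P p p' k k')‖ₑ ≤
      ∫⁻ t : Fin p ⊕ Fin p' → ℝ, ∑ τ : Fin p ⊕ Fin p' → Fin 3,
        (if ∀ i, τ i ≠ 0 → actO k k' i then ∫⁻ θ : Fin p ⊕ Fin p' → ℝ,
          F2Z Z P y n n' (mk2 (fun i => kdO (k i) (τ (Sum.inl i)))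
            (fun i => kdO (k' i) (τ (Sum.inr i))) fun i => (t i, θ i))
          ∂(Measure.pi fun _ => (volume : Measure ℝ).restrict (Set.Ioc 0 1)) else 0)
        ∂(Measure.pi fun _ => volume) := by
  unfold termQ
  rw [← integral_const_mul]
  refine (enorm_integral_le_lintegral_enorm _).trans (lintegral_mono fun t => ?_)
  refine (hW p p' k k' hk hk' t).trans (Finset.sum_le_sum fun τ _ => ?_)
  by_cases h : ∀ i, τ i ≠ 0 → actO k k' i
  · rw [if_pos h]
    by_cases h' : nsat (o3 k k') true τ ≤ nA n k ∧ nsat (o3 k k') false τ ≤ nA n' k'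
    · rw [if_pos ⟨h, h'⟩]
      refine le_of_eq (lintegral_congr fun θ => ?_)
      unfold F2Z FZ
      have e1 := chg_true k k' τ h (fun i => (t i, θ i))
      have e2 := chg_false k k' τ h (fun i => (t i, θ i))
      unfold mk2
      rw [e1, e2]
      obtain ⟨h1, h2⟩ := h'
      unfold nA at h1 h2 ⊢
      rw [if_pos ⟨by omega, by omega⟩, Nat.sub_sub, Nat.sub_sub]
    · rw [if_neg fun hh => h' hh.2]
      exact bot_le
  · rw [if_neg h, if_neg fun hh => h hh.1]

/-- the sum over the objects, different numbers of quanta (right side of `NURow.stage2Q`) -/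
def ZobjQ (X Y : Option O3 → ℂ → ℂ) (α : ℝ) (n n' : ℕ) (lnX : Lns) (lnY : Lns') : ℂ :=
  ∑ p' ∈ Finset.range (n' + 1), ∑ p ∈ Finset.range (n + 1),
    ((p'.factorial : ℕ) : ℂ)⁻¹ * ((p.factorial : ℕ) : ℂ)⁻¹ *
    ∑ k' : Fin p' → O3, ∑ k : Fin p → O3,
      if ∑ i, c3 (k' i) ≤ n' ∧ ∑ i, c3 (k i) ≤ n then
        termQ X Y α n n' k k' (lnX p p' k k') (lnY p p' k k') else 0

/-- **Line form of the representation corollary.** -/
theorem ZobjQ_le {Z : Bool → Option O3 → ℂ → ℂ} {P : NUO.Par} {x0 y : ℝ} {n n' : ℕ}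
    (hP : ∀ r, Measurable (P.rad r)) (hZ : ∀ s k, Measurable (Z s k))
    (hW : WordLeZ Z P x0 y n n') :
    ‖ZobjQ (Z true) (Z false) x0 n n' (lX P) (lY P)‖ₑ ≤
      ∑ r ∈ range (2 * max n n' + 1), ((r.factorial : ℕ) : ℝ≥0∞)⁻¹ *
        ∫⁻ O : Fin r → Xo, FOZ Z P y n n' O ∂(Measure.pi fun _ => nu) := by
  refine le_trans ?_ (merge_F2Z Z P y n n' (max n n'))
  unfold ZobjQ
  refine (enorm_sum_le _ _).trans ?_
  rw [Finset.sum_comm (f := fun p p' => ((p.factorial : ℕ) : ℝ≥0∞)⁻¹ *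
      ((p'.factorial : ℕ) : ℝ≥0∞)⁻¹ * ∑ K : Fin p → Kind, ∑ K' : Fin p' → Kind,
        ∫⁻ x : Fin p ⊕ Fin p' → ℝ × ℝ, F2Z Z P y n n' (mk2 K K' x) ∂(Measure.pi fun _ => muE))]
  refine (Finset.sum_le_sum fun p' _ => (enorm_sum_le _ _)).trans ?_
  refine le_trans (Finset.sum_le_sum fun p' _ => Finset.sum_le_sum_of_subset
    (t := range (max n n' + 1)) fun q hq => ?_) ?_
  · exact Finset.mem_range.2 (by have := Finset.mem_range.1 hq; have := le_max_left n n'; omega)
  refine le_trans (Finset.sum_le_sum_of_subset (t := range (max n n' + 1)) fun q hq => ?_) ?_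
  · exact Finset.mem_range.2 (by have := Finset.mem_range.1 hq; have := le_max_right n n'; omega)
  refine Finset.sum_le_sum fun p' _ => Finset.sum_le_sum fun p _ => ?_
  have hf : ∀ q : ℕ, ‖((q.factorial : ℕ) : ℂ)⁻¹‖ₑ = ((q.factorial : ℕ) : ℝ≥0∞)⁻¹ := by
    intro q
    have h0 : ((q.factorial : ℕ) : ℂ) ≠ 0 := by exact_mod_cast q.factorial_ne_zero
    rw [enorm_inv h0]
    congr 1
    rw [← ofReal_norm, Complex.norm_natCast, ENNReal.ofReal_natCast]
  rw [enorm_mul, enorm_mul, hf, hf, mul_comm (((p'.factorial : ℕ) : ℝ≥0∞)⁻¹)]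
  refine mul_le_mul_right ?_ _
  calc ‖∑ k' : Fin p' → O3, ∑ k : Fin p → O3, if ∑ i, c3 (k' i) ≤ n' ∧ ∑ i, c3 (k i) ≤ n then
          termQ (Z true) (Z false) x0 n n' k k' (lX P p p' k k') (lY P p p' k k') else 0‖ₑ
      ≤ ∑ k' : Fin p' → O3, ∑ k : Fin p → O3, ∫⁻ t : Fin p ⊕ Fin p' → ℝ,
        ∑ τ : Fin p ⊕ Fin p' → Fin 3,
        (if ∀ i, τ i ≠ 0 → actO k k' i then ∫⁻ θ : Fin p ⊕ Fin p' → ℝ,
          F2Z Z P y n n' (mk2 (fun i => kdO (k i) (τ (Sum.inl i)))
            (fun i => kdO (k' i) (τ (Sum.inr i))) fun i => (t i, θ i))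
          ∂(Measure.pi fun _ => (volume : Measure ℝ).restrict (Set.Ioc 0 1)) else 0)
        ∂(Measure.pi fun _ => volume) := by
        refine (enorm_sum_le _ _).trans (Finset.sum_le_sum fun k' _ =>
          (enorm_sum_le _ _).trans (Finset.sum_le_sum fun k _ => ?_))
        by_cases h : ∑ i, c3 (k' i) ≤ n' ∧ ∑ i, c3 (k i) ≤ n
        · rw [if_pos h]
          exact termQ_le hW k k' h.2 h.1
        · rw [if_neg h, enorm_zero]
          exact bot_le
    _ = ∑ k' : Fin p' → O3, ∑ k : Fin p → O3, ∑ τ : Fin p ⊕ Fin p' → Fin 3,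
        (if ∀ i, τ i ≠ 0 → actO k k' i then ∫⁻ t : Fin p ⊕ Fin p' → ℝ,
          ∫⁻ θ : Fin p ⊕ Fin p' → ℝ,
          F2Z Z P y n n' (mk2 (fun i => kdO (k i) (τ (Sum.inl i)))
            (fun i => kdO (k' i) (τ (Sum.inr i))) fun i => (t i, θ i))
          ∂(Measure.pi fun _ => (volume : Measure ℝ).restrict (Set.Ioc 0 1))
          ∂(Measure.pi fun _ => volume) else 0) := by
        refine Finset.sum_congr rfl fun k' _ => Finset.sum_congr rfl fun k _ => ?_
        rw [lintegral_finsetSum]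
        · refine Finset.sum_congr rfl fun τ _ => ?_
          by_cases h : ∀ i, τ i ≠ 0 → actO k k' i
          · simp only [if_pos h]
          · simp only [if_neg h, lintegral_zero]
        · intro τ _
          by_cases h : ∀ i, τ i ≠ 0 → actO k k' i
          · simp only [if_pos h]
            exact measurable_inZ P hP hZ y n n' _ _
          · simp only [if_neg h]
            exact measurable_const
    _ = ∑ K : Fin p → Kind, ∑ K' : Fin p' → Kind, ∫⁻ t : Fin p ⊕ Fin p' → ℝ,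
          ∫⁻ θ : Fin p ⊕ Fin p' → ℝ, F2Z Z P y n n' (mk2 K K' fun i => (t i, θ i))
          ∂(Measure.pi fun _ => (volume : Measure ℝ).restrict (Set.Ioc 0 1))
          ∂(Measure.pi fun _ => volume) :=
        sum_kdO_two (fun K K' => ∫⁻ t : Fin p ⊕ Fin p' → ℝ,
          ∫⁻ θ : Fin p ⊕ Fin p' → ℝ, F2Z Z P y n n' (mk2 K K' fun i => (t i, θ i))
          ∂(Measure.pi fun _ => (volume : Measure ℝ).restrict (Set.Ioc 0 1))
          ∂(Measure.pi fun _ => volume))
    _ = _ := Finset.sum_congr rfl fun K _ => Finset.sum_congr rfl fun K' _ =>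
        fubini2Z P hP hZ y n n' K K'

end main

end NUP1S.AbC

end
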