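import Pool.Agent.NUP1S.WordC
import Pool.Agent.NUP1S.AbsC

/-!
# The representation corollary, line form, for two different families and any numbers of quanta
-/

set_option autoImplicit false
set_option linter.unusedSectionVars false

noncomputable section

open Complex MeasureTheory Set Filter Topology
open scoped Real ENNReal

namespace NUP1S

open NUP1 NUO Ab AbC

theorem obQ_eq (Z : Bool → Option O3 → ℂ → ℂ) (jL e ρ : ℝ) (x : Xo) :
    obQ Z jL e ρ x = obZ Z jL e ρ x := by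
  unfold obQ obX obZ mixX
  rcases kd x with _ | _ | _ | _ | _ <;> rfl

/-- the hypothesis of `AbC.ZobjQ_le` -/
theorem word_Z {P : NUO.Par} {x0 : ℝ} (h : GoodQ P x0) {Z : Bool → Option O3 → ℂ → ℂ}
    {κ : ℝ} (hκ : 0 < κ) {n n' : ℕ} {q0 : ℤ} (hq : (n : ℤ) - n' = q0)
    (hm : ∀ s, Measurable (Z s none))
    (hd : ∀ s, ∀ u : ℂ, x0 ≤ u.re → u.re ≤ l → DifferentiableAt ℂ (Z s none) u)
    (hb : ∀ s, DecOn (κ + 2 * (sg s * q0 : ℤ)) (Icc x0 l) (Z s none)) :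
    WordLeZ Z P x0 l n n' := by
  intro p p' k k' hk hk' t
  have h1 := word_ptQ h hκ hq hm hd hb hk hk' t
  unfold WordAt at h1
  refine h1.trans (le_of_eq ?_)
  rw [Fintype.sum_unique (ι := Unit), one_mul]
  refine Finset.sum_congr rfl fun τ _ => ?_
  simp only [add_zero, obQ_eq]
  rfl

/-- **Line form of the representation corollary**, two families. -/
theorem ZobjQ_le' {P : NUO.Par} {x0 : ℝ} (h : GoodQ P x0) (hP : ∀ r, Measurable (P.rad r))
    {Z : Bool → Option O3 → ℂ → ℂ} (hZ : ∀ s k, Measurable (Z s k)) {κ : ℝ} (hκ : 0 < κ)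
    {n n' : ℕ} {q0 : ℤ} (hq : (n : ℤ) - n' = q0)
    (hd : ∀ s, ∀ u : ℂ, x0 ≤ u.re → u.re ≤ l → DifferentiableAt ℂ (Z s none) u)
    (hb : ∀ s, DecOn (κ + 2 * (sg s * q0 : ℤ)) (Icc x0 l) (Z s none)) :
    ‖ZobjQ (Z true) (Z false) x0 n n' (lX P) (lY P)‖ₑ ≤
      ∑ r ∈ Finset.range (2 * max n n' + 1), ((r.factorial : ℕ) : ℝ≥0∞)⁻¹ *
        ∫⁻ O : Fin r → Xo, FOZ Z P l n n' O ∂(Measure.pi fun _ => nu) :=
  ZobjQ_le hP hZ (word_Z h hκ hq (fun s => hZ s none) hd hb)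

end NUP1S

end
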