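import Pool.Agent.NUP1S.Stage2
import Pool.Agent.NUP1.ExactW

/-!
# Stage 2 for the rows: one body functions, final formula for the disc function
-/

set_option autoImplicit false
set_option linter.unusedSectionVars false

noncomputable section

open Complex MeasureTheory

namespace NUP1S

open NUP1 NUP1.Bd NUP1.ExM

/-! ## bounds over sets of real parts -/

theorem Bdd.pow {K : Set ℝ} {s : ℝ} {g : ℂ → ℂ} (h : Bdd K s g) (n : ℕ) :
    Bdd K (n * s) (fun z => g z ^ n) := by
  induction n with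
  | zero => exact ⟨1, zero_le_one, fun z _ => by simp⟩
  | succ n ih =>
    have := (ih.mul h).rate (show (n : ℝ) * s + s = ((n + 1 : ℕ) : ℝ) * s by push_cast; ring)
    simpa only [pow_succ] using this

theorem Bdd.const (K : Set ℝ) (c : ℂ) : Bdd K 0 (fun _ => c) :=
  ⟨‖c‖, norm_nonneg _, fun z _ => by simp⟩

theorem Bdd.mono_rate {K : Set ℝ} {s s' : ℝ} {g : ℂ → ℂ} (h : Bdd K s g) (hs : s ≤ s') :
    Bdd K s' g := by
  obtain ⟨C, hC, h⟩ := h
  refine ⟨C, hC, fun z hz => (h z hz).trans (mul_le_mul_of_nonneg_left (Real.exp_le_exp.2 ?_) hC)⟩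
  exact mul_le_mul_of_nonneg_right hs (abs_nonneg _)

theorem Bdd.sub {K : Set ℝ} {s : ℝ} {g g' : ℂ → ℂ} (h : Bdd K s g) (h' : Bdd K s g') :
    Bdd K s (fun z => g z - g' z) := by
  obtain ⟨C, hC, h⟩ := h
  obtain ⟨D, hD, h'⟩ := h'
  refine ⟨C + D, add_nonneg hC hD, fun z hz => ?_⟩
  refine (norm_sub_le _ _).trans ?_
  rw [add_mul]
  exact add_le_add (h z hz) (h' z hz)

theorem bdd_sin (K : Set ℝ) (a : ℝ) : Bdd K 1 (fun z => sin (z + a)) := by
  refine ⟨1, zero_le_one, fun z _ => ?_⟩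
  rw [one_mul, one_mul]
  exact (norm_sin_add_le z a).trans (Bd.cosh_le_exp _)

theorem bdd_inv_sin {K : Set ℝ} (hK : IsCompact K) (a : ℝ)
    (h : ∀ d ∈ K, Real.sin (d + a) ≠ 0) : Bdd K (-1) (fun z => 1 / sin (z + a)) := by
  obtain ⟨δ, hδ, h⟩ := exists_deltaK hK a h
  refine ⟨2 / δ, by positivity, fun z hz => ?_⟩
  have h1 := le_norm_sin_add z a
  have h2 := h _ hz
  have h3 := exp_le_cosh z.im
  have h4 : δ * (Real.exp |z.im| / 2) ≤ ‖sin (z + a)‖ := by
    refine le_trans ?_ h1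
    exact mul_le_mul h2 (by linarith) (by positivity) (abs_nonneg _)
  rw [norm_div, norm_one]
  have h5 : 0 < δ * (Real.exp |z.im| / 2) := by positivity
  calc 1 / ‖sin (z + a)‖ ≤ 1 / (δ * (Real.exp |z.im| / 2)) :=
        one_div_le_one_div_of_le h5 h4
    _ = 2 / δ * Real.exp (-1 * |z.im|) := by
        rw [neg_one_mul, Real.exp_neg]
        field_simp

/-! ## the rows -/

/-- factor of `m` pairs of rows at `0` -/
def R0 (c : ℂ) (m : ℕ) (u : ℂ) : ℂ :=
  c * (1 / sin u) ^ m * (1 / sin (u - 2 * l)) ^ m * (sin (u + 3 * l) ^ 2) ^ m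

/-- cutoff with `M` points at `0` -/
def ph (β : ℝ) (M : ℕ) (u : ℂ) : ℂ := 1 - psi β u ^ M

theorem phi_ofFn_zero (β : ℝ) (M : ℕ) (u : ℂ) :
    phi β (List.ofFn fun _ : Fin M => (0 : ℂ)) u = ph β M u := by
  rw [List.ofFn_const, phi_replicate, sub_zero]
  rfl

theorem GC_zero (c : ℂ) (β : ℝ) (m M : ℕ) (u : ℂ) :
    GC c β (fun _ : Fin m => 0) (fun _ => 0) (fun _ : Fin M => 0) u = R0 c m u * ph β M u := by
  unfold GC R0
  rw [phi_ofFn_zero]
  simp only [sub_zero, Finset.prod_const, Finset.card_univ, Fintype.card_fin]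

/-- one body functions of the four kinds; `φ₀ = ph β' M` = cutoff of the strings S -/
def XR (c : ℂ) (β β' : ℝ) (m M : ℕ) : Option O3 → ℂ → ℂ
  | none, u => R0 c m u * ph β M u
  | some .L, u => R0 c m u * ph β M u
  | some .S, w => R0 c m w * R0 c m (w - l) * ph β' M w
  | some .T, w => R0 c m w * R0 c m (w - l) * (ph β M w * ph β M (w - l) - ph β' M w)

theorem XR_split (c : ℂ) (β β' : ℝ) (m M : ℕ) (α β₀ : ℝ) (k : Ob) (t : ℝ) :
    oneL α β₀ (GC c β (fun _ : Fin m => 0) (fun _ => 0) (fun _ : Fin M => 0)) k t =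
      ∑ a ∈ Finset.univ.filter (fun a => ob4 a = k), one4L α β₀ (XR c β β' m M) a t := by
  have e : ∀ a, one4L α β₀ (XR c β β' m M) a t = XR c β β' m M a (pt α β₀ (ob4 a) t) :=
    fun _ => rfl
  unfold oneL
  cases k
  · have : (Finset.univ.filter fun a => ob4 a = Ob.A) = {none} := by decide
    rw [this, Finset.sum_singleton, e]
    exact GC_zero ..
  · have : (Finset.univ.filter fun a => ob4 a = Ob.L) = {some .L} := by decide
    rw [this, Finset.sum_singleton, e]
    exact GC_zero ..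
  · have : (Finset.univ.filter fun a => ob4 a = Ob.S) = {some .S, some .T} := by decide
    rw [this, Finset.sum_pair (by decide), e, e]
    simp only [one, GC_zero, XR, ob4, Option.elim, ob3]
    ring

theorem measurable_R0 (c : ℂ) (m : ℕ) : Measurable (R0 c m) := by
  unfold R0
  fun_prop

theorem measurable_ph (β : ℝ) (M : ℕ) : Measurable (ph β M) := by
  have h := measurable_psi β 0
  simp only [sub_zero] at h
  unfold ph
  fun_prop

theorem measurable_XR (c : ℂ) (β β' : ℝ) (m M : ℕ) (k : Option O3) :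
    Measurable (XR c β β' m M k) := by
  have h1 := measurable_R0 c m
  have h2 := measurable_ph β M
  have h3 := measurable_ph β' M
  have h4 : Measurable fun w : ℂ => R0 c m (w - l) := h1.comp (measurable_id.sub_const _)
  have h5 : Measurable fun w : ℂ => ph β M (w - l) := h2.comp (measurable_id.sub_const _)
  rcases k with _ | k
  · exact h1.mul h2
  · cases k
    · exact h1.mul h2
    · exact (h1.mul h4).mul h3
    · exact (h1.mul h4).mul ((h2.mul h5).sub h3)

/-- the real parts without poles of the rows -/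
def NP (x : ℝ) : Prop := Real.sin x ≠ 0 ∧ Real.sin (x - 2 * l) ≠ 0

theorem NP_pos {x : ℝ} (h0 : 0 < x) (h1 : x < 2 * l) : NP x := by
  have hl := Bd.l_pos
  refine ⟨(sin_pos_of h0 (by linarith)).ne', ?_⟩
  have := sin_pos_of (x := -(x - 2 * l)) (by linarith) (by linarith)
  rw [Real.sin_neg] at this
  exact (by linarith : Real.sin (x - 2 * l) < 0).ne

theorem NP_neg {x : ℝ} (h0 : -(6 * l) < x) (h1 : x < 0) : NP x := by
  have hl := Bd.l_pos
  constructor
  · have := sin_pos_of (x := -x) (by linarith) (by linarith)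
    rw [Real.sin_neg] at this
    exact (by linarith : Real.sin x < 0).ne
  · have := sin_pos_of (x := -(x - 2 * l)) (by linarith) (by linarith)
    rw [Real.sin_neg] at this
    exact (by linarith : Real.sin (x - 2 * l) < 0).ne

theorem bdd_R0 (c : ℂ) (m : ℕ) {K : Set ℝ} (hK : IsCompact K) (h : ∀ x ∈ K, NP x) :
    Bdd K 0 (R0 c m) := by
  have h1 := (bdd_inv_sin hK 0 fun d hd => by simpa using (h d hd).1).pow m
  have h2 := (bdd_inv_sin hK (-(2 * l)) fun d hd => by
    simpa [sub_eq_add_neg] using (h d hd).2).pow m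
  have h3 := ((bdd_sin K (3 * l)).pow 2).pow m
  have h4 := ((((Bdd.const K c).mul h1).mul h2).mul h3).rate (s' := 0) (by push_cast; ring)
  have e : (fun z : ℂ => c * (1 / sin (z + ((0 : ℝ) : ℂ))) ^ m *
      (1 / sin (z + ((-(2 * l) : ℝ) : ℂ))) ^ m * (sin (z + ((3 * l : ℝ) : ℂ)) ^ 2) ^ m) =
      R0 c m := by
    funext z
    unfold R0
    push_cast
    rw [add_zero, ← sub_eq_add_neg]
  rw [e] at h4
  exact h4

theorem bdd_ph {β s : ℝ} (h : Adm β s) (M : ℕ) {K : Set ℝ} (hK : ∀ x ∈ K, |x + l / 2| ≤ s) :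
    Bdd K (-(2 * β)) (ph β M) := by
  have hk := h.kap_pos
  refine ⟨4 / kap β s * (M * Real.exp (2 * β * 0)), by positivity, fun z hz => ?_⟩
  have := norm_phi_le' (X := List.replicate M 0) (u := z) h (fun x hx => by
    rw [(List.mem_replicate.1 hx).2, sub_zero]
    exact hK _ hz) (r := 0) (fun x hx => by
    rw [(List.mem_replicate.1 hx).2]
    simp)
  rw [phi_replicate, sub_zero, List.length_replicate] at this
  exact this

theorem bdd_shift_l {K : Set ℝ} {s : ℝ} {g : ℂ → ℂ} (h : Bdd ((fun d => d + -l) '' K) s g) :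
    Bdd K s (fun z => g (z - l)) := by
  have := Bdd.shift (-l) h
  simpa [sub_eq_add_neg] using this

theorem DecOn_of_Bdd {κ s : ℝ} {K : Set ℝ} {g : ℂ → ℂ} (h : Bdd K s g) (hs : s ≤ -κ) :
    DecOn κ K g := by
  obtain ⟨C, hC, h⟩ := h.mono_rate hs
  exact ⟨C, fun z hz => by
    have := h z hz
    rwa [neg_mul] at this⟩

theorem diffAt_R0 (c : ℂ) (m : ℕ) {z : ℂ} (h : NP z.re) : DifferentiableAt ℂ (R0 c m) z := by
  have h1 : sin z ≠ 0 := sin_ne_zero_of_re h.1
  have h2 : sin (z - 2 * l) ≠ 0 := sin_ne_zero_of_re (by simpa using h.2)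
  unfold R0
  fun_prop (disch := assumption)

theorem diffAt_ph {β s : ℝ} (h : Adm β s) (M : ℕ) {z : ℂ} (hz : |z.re + l / 2| ≤ s) :
    DifferentiableAt ℂ (ph β M) z := by
  have := differentiableAt_psi h hz
  unfold ph
  fun_prop

/-- the parameters: `β₀` = first line L, `β` = rate and `s` = half width of the cutoff,
`β'`, `s'` = the same for the cutoff of the strings S -/
structure Par (α β₀ β s β' s' bl bh sl sh tl th : ℝ) : Prop where
  lines : Lines α β₀ β s
  two : β₀ + 2 * l < α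
  al : α < l
  b0 : -(2 * l) < β₀
  adm : Adm β' s'
  le : β ≤ β'
  strips : Strips α bl bh sl sh tl th
  hb : β₀ ∈ Set.Icc bl bh
  ht : β₀ + l ∈ Set.Icc tl th
  pbl : -(2 * l) ≤ bl
  pbs : -s ≤ bl + l / 2
  pbh : bh < 0
  psl : -(2 * l) ≤ sl
  pss : -s' ≤ sl + l / 2
  psh : sh < 0
  ps' : l / 2 ≤ s'
  ptl : -s ≤ tl - l / 2

section Data

variable {α β₀ β s β' s' bl bh sl sh tl th : ℝ}

theorem Par.cutA (h : Par α β₀ β s β' s' bl bh sl sh tl th) : |α + l / 2| ≤ s := by
  have hl := Bd.l_pos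
  have h1 := h.lines.as
  have h2 := h.lines.a1
  rw [abs_le]
  constructor <;> linarith

theorem Par.cutL (h : Par α β₀ β s β' s' bl bh sl sh tl th) {x : ℝ} (hx : x ∈ Set.Icc bl bh) :
    |x + l / 2| ≤ s := by
  have hl := Bd.l_pos
  have h1 := h.lines.as
  have h2 := h.lines.a1
  have h3 := h.pbs
  have h4 := h.pbh
  have h5 := hx.1
  have h6 := hx.2
  rw [abs_le]
  constructor <;> linarith

theorem Par.cutS (h : Par α β₀ β s β' s' bl bh sl sh tl th) {x : ℝ} (hx : x ∈ Set.Icc sl sh) :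
    |x + l / 2| ≤ s' := by
  have hl := Bd.l_pos
  have h3 := h.pss
  have h4 := h.psh
  have h5 := hx.1
  have h6 := hx.2
  have h7 := h.ps'
  rw [abs_le]
  constructor <;> linarith

theorem Par.subT (h : Par α β₀ β s β' s' bl bh sl sh tl th) {x : ℝ} (hx : x ∈ Set.Icc tl th) :
    x ∈ Set.Icc sl sh := ⟨h.strips.ht1.trans hx.1, hx.2.trans h.strips.ht2⟩

theorem Par.cutT (h : Par α β₀ β s β' s' bl bh sl sh tl th) {x : ℝ} (hx : x ∈ Set.Icc tl th) :
    |x + l / 2| ≤ s ∧ |x - l + l / 2| ≤ s := by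
  have hl := Bd.l_pos
  have h1 := h.lines.as
  have h2 := h.lines.a1
  have h3 := h.ptl
  have h4 := h.psh
  have h5 := hx.1
  have h6 := (h.subT hx).2
  rw [abs_le, abs_le]
  refine ⟨⟨?_, ?_⟩, ⟨?_, ?_⟩⟩ <;> linarith

theorem Par.npA (h : Par α β₀ β s β' s' bl bh sl sh tl th) : NP α :=
  NP_pos h.lines.a1 h.lines.a2

theorem Par.npL (h : Par α β₀ β s β' s' bl bh sl sh tl th) {x : ℝ} (hx : x ∈ Set.Icc bl bh) :
    NP x := by
  have hl := Bd.l_pos
  exact NP_neg (by linarith [h.pbl, hx.1]) (by linarith [h.pbh, hx.2])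

theorem Par.npS (h : Par α β₀ β s β' s' bl bh sl sh tl th) {x : ℝ} (hx : x ∈ Set.Icc sl sh) :
    NP x ∧ NP (x - l) := by
  have hl := Bd.l_pos
  exact ⟨NP_neg (by linarith [h.psl, hx.1]) (by linarith [h.psh, hx.2]),
    NP_neg (by linarith [h.psl, hx.1]) (by linarith [h.psh, hx.2])⟩

theorem bdd_RR (c : ℂ) (m : ℕ) {K : Set ℝ} (hK : IsCompact K) (h : ∀ x ∈ K, NP x ∧ NP (x - l)) :
    Bdd K 0 (fun w => R0 c m w * R0 c m (w - l)) := by
  have h1 := bdd_R0 c m hK fun x hx => (h x hx).1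
  have h2 := bdd_shift_l (bdd_R0 c m (hK.image (f := fun d => d + -l) (by fun_prop)) (by
    rintro _ ⟨x, hx, rfl⟩
    have := (h x hx).2
    rwa [sub_eq_add_neg] at this))
  exact (h1.mul h2).rate (by norm_num)

theorem diffAt_RR (c : ℂ) (m : ℕ) {z : ℂ} (h : NP z.re ∧ NP (z.re - l)) :
    DifferentiableAt ℂ (fun w => R0 c m w * R0 c m (w - l)) z := by
  have h1 := diffAt_R0 c m h.1
  have h2 : DifferentiableAt ℂ (R0 c m) (z - l) := diffAt_R0 c m (by simpa using h.2)
  exact h1.mul (h2.comp z (differentiableAt_id.sub_const _))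

theorem Par.dec (h : Par α β₀ β s β' s' bl bh sl sh tl th) (c : ℂ) (m M : ℕ) (k : Option O3) :
    DecOn (2 * β) (Set.Icc (lo4 α bl sl tl k) (lo4 α bh sh th k)) (XR c β β' m M k) := by
  have hβ := h.lines.adm.pos
  rcases k with _ | k
  · have h1 := bdd_R0 c m (K := Set.Icc α α) isCompact_Icc fun x hx => by
      rw [Set.Icc_self, Set.mem_singleton_iff] at hx
      rw [hx]
      exact h.npA
    have h2 := bdd_ph h.lines.adm M (K := Set.Icc α α) fun x hx => by
      rw [Set.Icc_self, Set.mem_singleton_iff] at hx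
      rw [hx]
      exact h.cutA
    exact DecOn_of_Bdd (h1.mul h2) (by linarith)
  · cases k
    · have h1 := bdd_R0 c m (K := Set.Icc bl bh) isCompact_Icc fun x hx => h.npL hx
      have h2 := bdd_ph h.lines.adm M (K := Set.Icc bl bh) fun x hx => h.cutL hx
      exact DecOn_of_Bdd (h1.mul h2) (by linarith)
    · have h1 := bdd_RR c m (K := Set.Icc sl sh) isCompact_Icc fun x hx => h.npS hx
      have h2 := bdd_ph h.adm M (K := Set.Icc sl sh) fun x hx => h.cutS hx
      exact DecOn_of_Bdd (h1.mul h2) (by linarith [h.le])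
    · have h1 := bdd_RR c m (K := Set.Icc tl th) isCompact_Icc fun x hx => h.npS (h.subT hx)
      have h2 := bdd_ph h.adm M (K := Set.Icc tl th) fun x hx => h.cutS (h.subT hx)
      have h3 := bdd_ph h.lines.adm M (K := Set.Icc tl th) fun x hx => (h.cutT hx).1
      have h4 := bdd_shift_l (bdd_ph h.lines.adm M (K := (fun d => d + -l) '' Set.Icc tl th) (by
        rintro _ ⟨x, hx, rfl⟩
        have := (h.cutT hx).2
        rwa [sub_eq_add_neg] at this))
      have h5 := ((h3.mul h4).mono_rate (s' := -(2 * β)) (by linarith)).sub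
        (h2.mono_rate (by linarith [h.le]))
      exact DecOn_of_Bdd (h1.mul h5) (by linarith)

theorem Par.diffAt (h : Par α β₀ β s β' s' bl bh sl sh tl th) (c : ℂ) (m M : ℕ) (k : O3)
    {z : ℂ} (hz : z.re ∈ Set.Icc (lo4 α bl sl tl k) (lo4 α bh sh th k)) :
    DifferentiableAt ℂ (XR c β β' m M k) z := by
  cases k
  · exact (diffAt_R0 c m (h.npL hz)).mul (diffAt_ph h.lines.adm M (h.cutL hz))
  · exact (diffAt_RR c m (h.npS hz)).mul (diffAt_ph h.adm M (h.cutS hz))
  · have h2 := diffAt_ph h.adm M (h.cutS (h.subT hz))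
    have h3 := diffAt_ph h.lines.adm M (h.cutT hz).1
    have h4 : DifferentiableAt ℂ (ph β M) (z - l) :=
      diffAt_ph h.lines.adm M (by simpa using (h.cutT hz).2)
    have h5 : DifferentiableAt ℂ (fun w : ℂ => ph β M (w - l)) z :=
      DifferentiableAt.comp (g := ph β M) (f := fun w : ℂ => w - l) z h4
        (differentiableAt_id.sub_const _)
    exact (diffAt_RR c m (h.npS (h.subT hz))).mul ((h3.mul h5).sub h2)

theorem Par.data (h : Par α β₀ β s β' s' bl bh sl sh tl th) (c : ℂ) (m M : ℕ) :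
    Data α β₀ bl bh sl sh tl th (2 * β)
      (GC c β (fun _ : Fin m => 0) (fun _ => 0) (fun _ : Fin M => 0)) (XR c β β' m M) where
  meas := measurable_XR c β β' m M
  dec := h.dec c m M
  cont k := fun _ hz => (h.diffAt c m M k hz).continuousAt.continuousWithinAt
  diff k := fun _ hz => (h.diffAt c m M k ⟨hz.1.le, hz.2.le⟩).differentiableWithinAt
  split := XR_split c β β' m M α β₀

end Data

/-! ## the formula -/

/-- **Stage 2 for the rows.** -/
theorem Z2_rows {α β₀ β s β' s' bl bh sl sh tl th : ℝ}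
    (h : Par α β₀ β s β' s' bl bh sl sh tl th) (c : ℂ) (m M n : ℕ)
    (lnX : ∀ p p' : ℕ, (Fin p → O3) → (Fin p' → O3) → Fin p → ℝ)
    (lnY : ∀ p p' : ℕ, (Fin p → O3) → (Fin p' → O3) → Fin p' → ℝ)
    (hlX : ∀ p p' k k' i,
      lnX p p' k k' i ∈ Set.Icc (lo4 α bl sl tl (some (k i))) (lo4 α bh sh th (some (k i))))
    (hlY : ∀ p p' k k' i,
      lnY p p' k k' i ∈ Set.Icc (lo4 α bl sl tl (some (k' i))) (lo4 α bh sh th (some (k' i)))) :
    Bd.Z2 α β₀ n (GC c β (fun _ : Fin m => 0) (fun _ => 0) (fun _ : Fin M => 0))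
      (GC c β (fun _ : Fin m => 0) (fun _ => 0) (fun _ : Fin M => 0)) =
      ∑ p' ∈ Finset.range (n + 1), ∑ p ∈ Finset.range (n + 1),
        ((p'.factorial : ℕ) : ℂ)⁻¹ * ((p.factorial : ℕ) : ℂ)⁻¹ *
        ∑ k' : Fin p' → O3, ∑ k : Fin p → O3,
          if ∑ i, c3 (k' i) ≤ n ∧ ∑ i, c3 (k i) ≤ n then
            term (XR c β β' m M) (XR c β β' m M) α n k k' (lnX p p' k k') (lnY p p' k k')
          else 0 := by
  have := h.lines.adm.pos
  exact stage2 h.strips h.hb h.ht (κ := 2 * β) (by linarith) (h.data c m M) (h.data c m M) n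
    lnX lnY hlX hlY

/-- **The disc function at equal points after stage 2.** -/
theorem Wd_stage2 {α β₀ β s β' s' bl bh sl sh tl th : ℝ}
    (h : Par α β₀ β s β' s' bl bh sl sh tl th) {σ om : ℂ}
    (hσ : σ ^ 2 = 2 - NUMv.eta + NUMv.eta ^ 3) (hom : om ≠ 0) {m M : ℕ} (hM : m ≤ M)
    (lnX : ∀ p p' : ℕ, (Fin p → O3) → (Fin p' → O3) → Fin p → ℝ)
    (lnY : ∀ p p' : ℕ, (Fin p → O3) → (Fin p' → O3) → Fin p' → ℝ)
    (hlX : ∀ p p' k k' i,
      lnX p p' k k' i ∈ Set.Icc (lo4 α bl sl tl (some (k i))) (lo4 α bh sh th (some (k i))))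
    (hlY : ∀ p p' k k' i,
      lnY p p' k k' i ∈ Set.Icc (lo4 α bl sl tl (some (k' i))) (lo4 α bh sh th (some (k' i)))) :
    (Pool.Agent.NUF.near_WW (om + om⁻¹)).Wd (List.replicate m 1) (List.replicate m 1) =
      A0 σ m * A0 σ m * ∑ n ∈ Finset.range (2 * m + 1), om ^ ((m : ℤ) - n) *
      ∑ p' ∈ Finset.range (n + 1), ∑ p ∈ Finset.range (n + 1),
        ((p'.factorial : ℕ) : ℂ)⁻¹ * ((p.factorial : ℕ) : ℂ)⁻¹ *
        ∑ k' : Fin p' → O3, ∑ k : Fin p → O3,
          if ∑ i, c3 (k' i) ≤ n ∧ ∑ i, c3 (k i) ≤ n then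
            term (XR (-2 * sin (2 * l) / σ) β β' m M) (XR (-2 * sin (2 * l) / σ) β β' m M) α n
              k k' (lnX p p' k k') (lnY p p' k k')
          else 0 := by
  rw [Wd_eq h.lines h.two h.al h.b0 hσ hom hM]
  congr 1
  refine Finset.sum_congr rfl fun n _ => ?_
  rw [Z2_rows h _ m M n lnX lnY hlX hlY]

/-! ## the standard parameters -/

/-- `α = l / 4` (offset 3/4), first line L at offset 19/10, strings S between the offsets
3/2 and 53/20, strings T between 3/2 and 19/10, L between 21/10 and 29/10. -/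
theorem par_std {ε : ℝ} (h0 : 0 < ε) (h1 : ε < 1) :
    Par (l / 4) (-(19 / 10 * l)) (4 / 3 * (1 - ε)) (3 * l / 2) (4 / 3) (5 / 4 * l)
      (-(19 / 10 * l)) (-(11 / 10 * l)) (-(33 / 20 * l)) (-(l / 2)) (-(9 / 10 * l)) (-(l / 2)) := by
  have hl := Bd.l_pos
  have ha := adm (ε := ε) (r := 0) h0 h1 le_rfl (by linarith)
  rw [add_zero] at ha
  have hpi : Real.pi = 8 * l := Bd.pi_eq
  have ha' : Adm (4 / 3) (5 / 4 * l) :=
    { pos := by norm_num
      snn := by linarith
      sl := by rw [hpi]; linarith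
      bl := by rw [hpi]; linarith }
  exact
  { lines :=
      { adm := ha
        lo := by linarith
        hi := by linarith
        a1 := by linarith
        a2 := by linarith
        b1 := by linarith
        b2 := by linarith
        as := by linarith
        bs := by linarith }
    two := by linarith
    al := by linarith
    b0 := by linarith
    adm := ha'
    le := by linarith
    strips :=
      { ht1 := by linarith
        ht2 := le_rfl
        h1 := by linarith
        h2 := by linarith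
        h3 := by linarith
        h4 := by linarith
        h5 := by linarith
        h6 := by linarith
        h7 := by linarith
        h8 := by linarith }
    hb := ⟨le_rfl, by linarith⟩
    ht := ⟨by linarith, by linarith⟩
    pbl := by linarith
    pbs := by linarith
    pbh := by linarith
    psl := by linarith
    pss := by linarith
    psh := by linarith
    ps' := by linarith
    ptl := by linarith }

end NUP1S

end
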