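import Pool.Agent.NUP1S.LgK
import Pool.Agent.NUP1S.Inst2

/-!
# The sectors with a complex number of rows

`Zc ... n s` is entire in the number of rows `s`; for integers `s = J` it is the contour side with
`J` rows and a cutoff with `M` points.
-/

set_option autoImplicit false
set_option linter.unusedSectionVars false

noncomputable section

open Complex MeasureTheory

namespace NUP1S

open NUP1 NUP1.Bd NUP1.ExM
open NUCR (Fr lgA lgL lgR)

section

variable {α β bl bh sl sh tl th κ : ℝ}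

/-- **At an integer number of rows the sum over objects with a complex power is the contour
side.** -/
theorem Z2_eq_Zobj (hs : Strips α bl bh sl sh tl th) (hβ : β ∈ Set.Icc bl bh)
    (hβ' : β + l ∈ Set.Icc tl th) (hκ : 0 < κ) (hr : RowOk α bl bh sl sh tl th) (tc : ℝ)
    {G : ℂ → ℂ} {XJ X0 : Option O3 → ℂ → ℂ} (hX : Data α β bl bh sl sh tl th κ G XJ) (J : ℕ)
    (hrel : ∀ k u, XJ k u = X0 k u * FRk k u ^ J * ((-1) ^ J) ^ (k.elim 1 c3)) (n : ℕ)
    {lnX : Lns} {lnY : Lns'} (hln : LnOk α bl bh sl sh tl th lnX lnY) :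
    Bd.Z2 α β n G G = Zobj (Xp X0 (lgk tc) J) (Xp X0 (lgk tc) J) α n lnX lnY := by
  have h1 : Bd.Z2 α β n G G = Zobj XJ XJ α n lnX lnY :=
    stage2 hs hβ hβ' hκ hX hX n lnX lnY hln.X hln.Y
  have h2 : ∀ k u, u.re ∈ Set.Icc (lo4 α bl sl tl k) (lo4 α bh sh th k) →
      XJ k u = Xp X0 (lgk tc) J k u * ((-1) ^ J) ^ (k.elim 1 c3) := by
    intro k u hu
    rw [hrel k u, Xp_nat hr tc X0 J k hu]
  rw [h1, Zobj_congr hln h2 h2 n, Zobj_scale, ← pow_mul,
    show J * (2 * n) = 2 * (J * n) by ring, pow_mul]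
  norm_num

end

/-! ## the rows -/

theorem R0_eq (c : ℂ) (m : ℕ) (u : ℂ) : R0 c m u = c * ((-1) ^ m * Fr u ^ m) := by
  have h := NUCR.row_pow u m
  unfold R0
  rw [← h, l_eq]
  ring

theorem XR_eq (c : ℂ) (β β' : ℝ) (J M : ℕ) (k : Option O3) (u : ℂ) :
    XR c β β' J M k u =
      XR c β β' 0 M k u * FRk k u ^ J * ((-1) ^ J) ^ (k.elim 1 c3) := by
  rcases k with _ | k
  · simp only [XR, FRk, Option.elim, R0_eq, pow_zero, mul_one, pow_one]
    ring
  · cases k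
    · simp only [XR, FRk, Option.elim, R0_eq, pow_zero, mul_one, c3, ob3, chg, pow_one]
      ring
    · simp only [XR, FRk, Option.elim, R0_eq, pow_zero, mul_one, c3, ob3, chg]
      ring
    · simp only [XR, FRk, Option.elim, R0_eq, pow_zero, mul_one, c3, ob3, chg]
      ring

/-- **The sector of `n` quanta with a complex number `s` of pairs of rows**, cutoff with `M`
points, cut height `tc`. -/
def Zc (c : ℂ) (β β' : ℝ) (M : ℕ) (tc α : ℝ) (lnX : Lns) (lnY : Lns') (n : ℕ) (s : ℂ) : ℂ :=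
  Zobj (Xp (XR c β β' 0 M) (lgk tc) s) (Xp (XR c β β' 0 M) (lgk tc) s) α n lnX lnY

section

variable {α β₀ β s β' s' bl bh sl sh tl th : ℝ}

theorem Par.rowOk (h : Par α β₀ β s β' s' bl bh sl sh tl th) (hsl : -(2 * l) < sl) :
    RowOk α bl bh sl sh tl th where
  a1 := h.lines.a1
  a2 := h.lines.a2
  b1 := by linarith [lpos, h.pbl]
  b2 := h.pbh
  s1 := hsl
  s2 := h.psh
  t1 := h.strips.ht1
  t2 := h.strips.ht2

/-- the conditions on the one body functions and the logarithms -/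
theorem Par.pw (h : Par α β₀ β s β' s' bl bh sl sh tl th) (hsl : -(2 * l) < sl) (c : ℂ) (M : ℕ)
    (tc : ℝ) : Pw α bl bh sl sh tl th (2 * β) (XR c β β' 0 M) (lgk tc) :=
  pw_lgk (h.rowOk hsl) tc (measurable_XR c β β' 0 M) (h.dec c 0 M)

/-- **Entire in the number of rows.** -/
theorem Zc_entire (h : Par α β₀ β s β' s' bl bh sl sh tl th) (hsl : -(2 * l) < sl) (c : ℂ) (M : ℕ)
    (tc : ℝ) {lnX : Lns} {lnY : Lns'} (hln : LnOk α bl bh sl sh tl th lnX lnY) (n : ℕ) :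
    Differentiable ℂ (Zc c β β' M tc α lnX lnY n) := by
  have := h.lines.adm.pos
  exact entire_Zobj h.strips (κ := 2 * β) (by linarith) (h.pw hsl c M tc) (h.pw hsl c M tc) n hln

/-- **Exact at integers.** -/
theorem Z2_eq_Zc (h : Par α β₀ β s β' s' bl bh sl sh tl th) (hsl : -(2 * l) < sl) (c : ℂ)
    (J M : ℕ) (tc : ℝ) {lnX : Lns} {lnY : Lns'} (hln : LnOk α bl bh sl sh tl th lnX lnY) (n : ℕ) :
    Bd.Z2 α β₀ n (GC c β (fun _ : Fin J => 0) (fun _ => 0) (fun _ : Fin M => 0))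
      (GC c β (fun _ : Fin J => 0) (fun _ => 0) (fun _ : Fin M => 0)) =
      Zc c β β' M tc α lnX lnY n J := by
  have := h.lines.adm.pos
  exact Z2_eq_Zobj h.strips h.hb h.ht (κ := 2 * β) (by linarith) (h.rowOk hsl) tc
    (h.data c J M) J (XR_eq c β β' J M) n hln

/-- **The disc function at equal points in terms of the entire functions.** -/
theorem Wd_eq_Zc (h : Par α β₀ β s β' s' bl bh sl sh tl th) (hsl : -(2 * l) < sl) {σ : ℂ}
    (hσ : σ ^ 2 = 2 - NUMv.eta + NUMv.eta ^ 3) (b : ℂ) {J M : ℕ} (hM : J ≤ M) {K : ℕ}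
    (hK : 2 * J < K) (tc : ℝ) {lnX : Lns} {lnY : Lns'}
    (hln : LnOk α bl bh sl sh tl th lnX lnY) :
    (Pool.Agent.NUF.near_WW (2 * cosh b)).Wd (List.replicate J 1) (List.replicate J 1) =
      A0 σ J * A0 σ J * ∑ n ∈ Finset.range K, exp (b * ((J : ℂ) - n)) *
        Zc (-2 * sin (2 * l) / σ) β β' M tc α lnX lnY n J := by
  rw [Wd_cosh h.lines h.two h.al h.b0 hσ b hM hK]
  congr 1
  refine Finset.sum_congr rfl fun n _ => ?_
  rw [Z2_eq_Zc h hsl _ J M tc hln n]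

/-- no quanta beyond `2 J` -/
theorem Zc_eq_zero (h : Par α β₀ β s β' s' bl bh sl sh tl th) (hsl : -(2 * l) < sl) (c : ℂ)
    {J M : ℕ} (hM : J ≤ M) (tc : ℝ) {lnX : Lns} {lnY : Lns'}
    (hln : LnOk α bl bh sl sh tl th lnX lnY) {n : ℕ} (hn : 2 * J < n) :
    Zc c β β' M tc α lnX lnY n J = 0 := by
  rw [← Z2_eq_Zc h hsl c J M tc hln n]
  exact Z2_eq_zero h.lines h.two h.al h.b0 c hM hn

end

end NUP1S

end
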