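import Pool.Agent.NUP1S.Chain
import Pool.Agent.NUKer.Pair

/-!
# The line of the quanta becomes a curve

`crvC s τ D D1` is the contour `u = τ + i (t + D t)` with the bounded complex displacement `D`.  If there is no pole of the one body data in the closed strip `a' ≤ re u ≤ b'` which
contains the line and the curve, then the line `re u = τ` can be replaced by the curve.
-/

set_option autoImplicit false
set_option linter.unusedSectionVars false

noncomputable section

open Complex MeasureTheory NUP1 NUP1.Bd Set Filter Topology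
open scoped Real

namespace NUP1S

variable {pl : Bool → Finset ℂ} {κ a b : ℝ}

/-- the curve `u = τ + i (t + D t)` -/
def crvC (s : Bool) (τ : ℝ) (D D1 : ℝ → ℂ) : Ct :=
  ⟨s, fun t => (2 * π : ℂ)⁻¹ * (1 + D1 t), fun t => vl τ t + I * D t⟩

/-- bounded displacement, the curve and the line are in the strip `a' ≤ re u ≤ b'` -/
structure Crv (a' b' τ : ℝ) (D D1 : ℝ → ℂ) : Prop where
  der : ∀ t, HasDerivAt D (D1 t) t
  cont : Continuous D1
  bdd : ∃ M : ℝ, 0 ≤ M ∧ ∀ t, ‖D t‖ ≤ M ∧ ‖D1 t‖ ≤ M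
  tau : a' ≤ τ ∧ τ ≤ b'
  re1 : ∀ t, a' ≤ τ - (D t).im
  re2 : ∀ t, τ - (D t).im ≤ b'

variable {a' b' τ : ℝ} {D D1 : ℝ → ℂ}

/-- displacements of compact support -/
theorem Crv.of_supp (der : ∀ t, HasDerivAt D (D1 t) t) (cont : Continuous D1)
    (supp : ∃ R : ℝ, 0 ≤ R ∧ ∀ t, R ≤ |t| → D t = 0 ∧ D1 t = 0)
    (re1 : ∀ t, a' ≤ τ - (D t).im) (re2 : ∀ t, τ - (D t).im ≤ b') : Crv a' b' τ D D1 := by
  have hcD : Continuous D := continuous_iff_continuousAt.2 fun t => (der t).continuousAt
  obtain ⟨R, hR0, hR⟩ := supp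
  refine ⟨der, cont, ?_, ?_, re1, re2⟩
  · obtain ⟨M, hM⟩ := (isCompact_Icc (a := -R) (b := R)).exists_bound_of_continuousOn
      (f := D) hcD.continuousOn
    obtain ⟨M', hM'⟩ := (isCompact_Icc (a := -R) (b := R)).exists_bound_of_continuousOn
      (f := D1) cont.continuousOn
    refine ⟨max 0 (max M M'), le_max_left _ _, fun t => ?_⟩
    by_cases ht : t ∈ Icc (-R) R
    · exact ⟨(hM t ht).trans ((le_max_left _ _).trans (le_max_right _ _)),
        (hM' t ht).trans ((le_max_right _ _).trans (le_max_right _ _))⟩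
    · have : R ≤ |t| := by
        by_contra hc
        exact ht (abs_le.1 (not_le.1 hc).le)
      rw [(hR t this).1, (hR t this).2]
      simp
  · have h1 := re1 R
    have h2 := re2 R
    rw [(hR R (le_abs_self R)).1] at h1 h2
    simpa using And.intro h1 h2

theorem Crv.contD (C : Crv a' b' τ D D1) : Continuous D :=
  continuous_iff_continuousAt.2 fun t => (C.der t).continuousAt

theorem crv_re (s : Bool) (τ : ℝ) (D D1 : ℝ → ℂ) (t : ℝ) :
    ((crvC s τ D D1).pos t).re = τ - (D t).im := by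
  simp [crvC, vl]
  ring

theorem crv_im (s : Bool) (τ : ℝ) (D D1 : ℝ → ℂ) (t : ℝ) :
    ((crvC s τ D D1).pos t).im = t + (D t).re := by
  simp [crvC, vl]

theorem Crv.cpos (C : Crv a' b' τ D D1) (s : Bool) : Continuous (crvC s τ D D1).pos := by
  have := C.contD
  unfold crvC vl
  fun_prop

theorem Crv.com (C : Crv a' b' τ D D1) (s : Bool) : Continuous (crvC s τ D D1).om := by
  have := C.cont
  unfold crvC
  fun_prop

theorem okC_crv (hκ : 0 < κ) (C : Crv a' b' τ D D1) {s : Bool} (h1 : a ≤ a') (h2 : b' ≤ b)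
    (h3 : ∀ p ∈ pl s, p.re < a' ∨ b' < p.re) : OkC pl κ a b (crvC s τ D D1) := by
  obtain ⟨δ, hδ, hd⟩ := exists_pos_lb (F := pl s) (φ := fun p => max (a' - p.re) (p.re - b'))
    (fun p hp => by
      rcases h3 p hp with h | h
      · exact lt_max_of_lt_left (sub_pos.2 h)
      · exact lt_max_of_lt_right (sub_pos.2 h))
  obtain ⟨M, hM0, hM⟩ := C.bdd
  refine ⟨(C.com s).measurable, (C.cpos s).measurable, fun t => ?_, fun t => ?_,
    ⟨δ, hδ, fun t p hp => ?_⟩, ?_⟩
  · rw [crv_re]
    exact h1.trans (C.re1 t)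
  · rw [crv_re]
    exact (C.re2 t).trans h2
  · refine (hd p hp).trans ?_
    have k := abs_re_le_norm ((crvC s τ D D1).pos t - p)
    rw [sub_re, crv_re] at k
    refine le_trans ?_ k
    refine max_le ?_ ?_
    · exact (sub_le_sub_right (C.re1 t) _).trans (le_abs_self _)
    · rw [abs_sub_comm]
      exact (sub_le_sub_left (C.re2 t) _).trans (le_abs_self _)
  · have hi : Integrable fun t : ℝ => (‖(2 * π : ℂ)⁻¹‖ * (1 + M) * Real.exp (κ * M)) *
        Real.exp (-(κ * |t|)) := (Bd.integrable_exp_neg_abs hκ).const_mul _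
    refine hi.mono' ?_ (Eventually.of_forall fun t => ?_)
    · have c1 := C.com s
      have c2 := C.cpos s
      exact (c1.norm.mul (Real.continuous_exp.comp
        (continuous_const.mul (continuous_im.comp c2).abs).neg)).aestronglyMeasurable
    · rw [norm_mul, norm_norm, Real.norm_eq_abs, abs_of_pos (Real.exp_pos _), crv_im]
      have e1 : ‖(crvC s τ D D1).om t‖ ≤ ‖(2 * π : ℂ)⁻¹‖ * (1 + M) := by
        show ‖(2 * π : ℂ)⁻¹ * (1 + D1 t)‖ ≤ _
        rw [norm_mul]
        refine mul_le_mul_of_nonneg_left ?_ (norm_nonneg _)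
        refine (norm_add_le _ _).trans ?_
        rw [norm_one]
        linarith [(hM t).2]
      have e2 : -(κ * |t + (D t).re|) ≤ κ * M + -(κ * |t|) := by
        have k1 : |t| ≤ |t + (D t).re| + M := by
          have := abs_sub_abs_le_abs_sub t (-(D t).re)
          rw [sub_neg_eq_add, abs_neg] at this
          have k2 := (abs_re_le_norm (D t)).trans (hM t).1
          linarith
        nlinarith
      calc _ ≤ (‖(2 * π : ℂ)⁻¹‖ * (1 + M)) * Real.exp (κ * M + -(κ * |t|)) :=
            mul_le_mul e1 (Real.exp_le_exp.2 e2) (Real.exp_pos _).le (by positivity)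
        _ = _ := by
            rw [Real.exp_add]
            ring

/-! ## one variable -/

theorem convex_CS (a' b' : ℝ) : Convex ℝ (CS a' b') := by
  have : CS a' b' = Complex.reLm ⁻¹' (Icc a' b') := by
    ext z
    simp [CS]
  rw [this]
  exact (convex_Icc _ _).linear_preimage _

theorem crv_interval {f : ℂ → ℂ} (hf : DifferentiableOn ℂ f (CS a' b')) (C : Crv a' b' τ D D1)
    {M : ℝ} (hM : ∀ t, ‖D t‖ ≤ M) {x y e : ℝ}
    (hx : ∀ u ∈ CS a' b', |u.im - x| ≤ M → ‖f u‖ ≤ e)
    (hy : ∀ u ∈ CS a' b', |u.im - y| ≤ M → ‖f u‖ ≤ e) :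
    ‖(∫ t in x..y, (1 + D1 t) * f (vl τ t + I * D t)) - ∫ t in x..y, f (vl τ t)‖ ≤
      2 * (e * M) := by
  have hM0 : 0 ≤ M := (norm_nonneg _).trans (hM 0)
  obtain ⟨g, hg⟩ := (convex_CS a' b').exists_forall_hasDerivWithinAt hf
  have hm1 : ∀ t : ℝ, vl τ t + I * D t ∈ CS a' b' := fun t => by
    have e := crv_re true τ D D1 t
    have e' : (vl τ t + I * D t).re = τ - (D t).im := e
    exact ⟨by rw [e']; exact C.re1 t, by rw [e']; exact C.re2 t⟩
  have hm2 : ∀ t : ℝ, vl τ t ∈ CS a' b' := fun t => by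
    have e' : (vl τ t).re = τ := by simp [vl]
    exact ⟨by rw [e']; exact C.tau.1, by rw [e']; exact C.tau.2⟩
  have hv : ∀ t : ℝ, HasDerivAt (fun t : ℝ => vl τ t) I t := fun t => by
    have h1 : HasDerivAt (fun t : ℝ => (t : ℂ)) 1 t := Complex.ofRealCLM.hasDerivAt
    have := (h1.mul_const I).const_add (τ : ℂ)
    rw [one_mul] at this
    exact this
  have h1 : ∀ t : ℝ, HasDerivAt (fun t => -I * g (vl τ t + I * D t))
      ((1 + D1 t) * f (vl τ t + I * D t)) t := by
    intro t
    have hd : HasDerivAt (fun t : ℝ => vl τ t + I * D t) (I + I * D1 t) t :=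
      (hv t).add ((C.der t).const_mul I)
    have := (hg (vl τ t + I * D t) (hm1 t)).scomp_hasDerivAt t hd hm1
    rw [smul_eq_mul] at this
    have h := this.const_mul (-I)
    have e : -I * ((I + I * D1 t) * f (vl τ t + I * D t)) =
        (1 + D1 t) * f (vl τ t + I * D t) := by
      linear_combination (-(1 + D1 t) * f (vl τ t + I * D t)) * I_mul_I
    rw [e] at h
    exact h
  have h2 : ∀ t : ℝ, HasDerivAt (fun t : ℝ => -I * g (vl τ t)) (f (vl τ t)) t := by
    intro t
    have := (hg (vl τ t) (hm2 t)).scomp_hasDerivAt t (hv t) hm2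
    rw [smul_eq_mul] at this
    have h := this.const_mul (-I)
    have e : -I * (I * f (vl τ t)) = f (vl τ t) := by
      linear_combination (-f (vl τ t)) * I_mul_I
    rw [e] at h
    exact h
  have cv : Continuous fun t : ℝ => vl τ t := by unfold vl; fun_prop
  have cD := C.contD
  have cD1 := C.cont
  have c1 : Continuous fun t => (1 + D1 t) * f (vl τ t + I * D t) := by
    refine Continuous.mul (by fun_prop) ?_
    exact hf.continuousOn.comp_continuous (by fun_prop) hm1
  have c2 : Continuous fun t : ℝ => f (vl τ t) := hf.continuousOn.comp_continuous cv hm2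
  -- variation of the primitive between the line and the curve
  have h3 : ∀ t : ℝ, (∀ u ∈ CS a' b', |u.im - t| ≤ M → ‖f u‖ ≤ e) →
      ‖g (vl τ t + I * D t) - g (vl τ t)‖ ≤ e * M := by
    intro t ht
    set S : Set ℂ := CS a' b' ∩ {u | |u.im - t| ≤ M} with hS
    have hcS : Convex ℝ S := by
      refine (convex_CS a' b').inter ?_
      have h4 : {u : ℂ | |u.im - t| ≤ M} = Complex.imLm ⁻¹' (Icc (t - M) (t + M)) := by
        ext u
        simp only [mem_setOf_eq, mem_preimage, Complex.imLm_coe, mem_Icc, abs_le]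
        constructor <;> rintro ⟨h5, h6⟩ <;> constructor <;> linarith
      rw [h4]
      exact (convex_Icc _ _).linear_preimage _
    have m1 : vl τ t ∈ S := ⟨hm2 t, by simp [vl, hM0]⟩
    have m2 : vl τ t + I * D t ∈ S := by
      refine ⟨hm1 t, ?_⟩
      show |(vl τ t + I * D t).im - t| ≤ M
      have : (vl τ t + I * D t).im - t = (D t).re := by simp [vl]
      rw [this]
      exact (abs_re_le_norm _).trans (hM t)
    have h5 := hcS.norm_image_sub_le_of_norm_hasDerivWithin_le (f := g) (f' := f) (C := e)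
      (fun u hu => (hg u hu.1).mono inter_subset_left) (fun u hu => ht u hu.1 hu.2) m1 m2
    refine h5.trans ?_
    have he : 0 ≤ e := (norm_nonneg _).trans (ht _ m1.1 m1.2)
    refine mul_le_mul_of_nonneg_left ?_ he
    rw [add_sub_cancel_left, norm_mul, norm_I, one_mul]
    exact hM t
  rw [intervalIntegral.integral_eq_sub_of_hasDerivAt (fun t _ => h1 t) (c1.intervalIntegrable _ _),
    intervalIntegral.integral_eq_sub_of_hasDerivAt (fun t _ => h2 t) (c2.intervalIntegrable _ _)]
  have e1 : -I * g (vl τ y + I * D y) - -I * g (vl τ x + I * D x) -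
      (-I * g (vl τ y) - -I * g (vl τ x)) =
      -I * (g (vl τ y + I * D y) - g (vl τ y)) - -I * (g (vl τ x + I * D x) - g (vl τ x)) := by
    ring
  rw [e1]
  refine (norm_sub_le _ _).trans ?_
  rw [norm_mul, norm_mul, norm_neg, norm_I, one_mul, one_mul]
  linarith [h3 y hy, h3 x hx]

/-- a continuous function with exponential decay is integrable -/
theorem integrable_decay {F : ℝ → ℂ} (hF : Continuous F) {K R δ : ℝ} (hδ : 0 < δ)
    (h : ∀ t, R ≤ |t| → ‖F t‖ ≤ K * Real.exp (-(δ * |t|))) : Integrable F := by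
  obtain ⟨K', hK'⟩ := (isCompact_Icc (a := -|R|) (b := |R|)).exists_bound_of_continuousOn
    (f := fun t => F t * (Real.exp (δ * |t|) : ℂ)) (by fun_prop)
  refine ((Bd.integrable_exp_neg_abs hδ).const_mul (max K K')).mono' hF.aestronglyMeasurable
    (Eventually.of_forall fun t => ?_)
  rcases le_total R |t| with ht | ht
  · exact (h t ht).trans (mul_le_mul_of_nonneg_right (le_max_left _ _) (Real.exp_pos _).le)
  · have h1 := hK' t (abs_le.1 (ht.trans (le_abs_self R)))
    rw [norm_mul, Complex.norm_real, Real.norm_eq_abs,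
      abs_of_pos (Real.exp_pos _)] at h1
    have h2 : ‖F t‖ ≤ K' * Real.exp (-(δ * |t|)) := by
      rw [Real.exp_neg, ← div_eq_mul_inv, le_div_iff₀ (Real.exp_pos _)]
      exact h1
    exact h2.trans (mul_le_mul_of_nonneg_right (le_max_right _ _) (Real.exp_pos _).le)

/-- **the line = the curve, one variable** -/
theorem crv_line {f : ℂ → ℂ} (hf : DifferentiableOn ℂ f (CS a' b')) (C : Crv a' b' τ D D1)
    {K R δ : ℝ} (hδ : 0 < δ) (hd : ∀ u ∈ CS a' b', R ≤ |u.im| →
      ‖f u‖ ≤ K * Real.exp (-(δ * |u.im|))) :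
    ∫ t : ℝ, (1 + D1 t) * f (vl τ t + I * D t) = ∫ t : ℝ, f (vl τ t) := by
  obtain ⟨M, hM0, hM⟩ := C.bdd
  have hm1 : ∀ t : ℝ, vl τ t + I * D t ∈ CS a' b' := fun t => by
    have e' : (vl τ t + I * D t).re = τ - (D t).im := crv_re true τ D D1 t
    exact ⟨by rw [e']; exact C.re1 t, by rw [e']; exact C.re2 t⟩
  have hm2 : ∀ t : ℝ, vl τ t ∈ CS a' b' := fun t => by
    have e' : (vl τ t).re = τ := by simp [vl]
    exact ⟨by rw [e']; exact C.tau.1, by rw [e']; exact C.tau.2⟩
  have cv : Continuous fun t : ℝ => vl τ t := by unfold vl; fun_prop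
  have cD := C.contD
  have cD1 := C.cont
  have c1 : Continuous fun t => (1 + D1 t) * f (vl τ t + I * D t) := by
    refine Continuous.mul (by fun_prop) ?_
    exact hf.continuousOn.comp_continuous (by fun_prop) hm1
  have c2 : Continuous fun t : ℝ => f (vl τ t) := hf.continuousOn.comp_continuous cv hm2
  -- decay within distance `M`
  have hK : ∀ u ∈ CS a' b', R ≤ |u.im| → ‖f u‖ ≤ |K| * Real.exp (-(δ * |u.im|)) :=
    fun u hu hR => (hd u hu hR).trans
      (mul_le_mul_of_nonneg_right (le_abs_self _) (Real.exp_pos _).le)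
  have hnear : ∀ t : ℝ, R + M ≤ |t| → ∀ u ∈ CS a' b', |u.im - t| ≤ M →
      ‖f u‖ ≤ |K| * Real.exp (δ * M) * Real.exp (-(δ * |t|)) := by
    intro t ht u hu hut
    have h1 : |t| - M ≤ |u.im| := by
      have := abs_sub_abs_le_abs_sub t u.im
      rw [abs_sub_comm] at this
      linarith
    refine (hK u hu (by linarith)).trans ?_
    rw [mul_assoc, ← Real.exp_add]
    refine mul_le_mul_of_nonneg_left (Real.exp_le_exp.2 ?_) (abs_nonneg _)
    nlinarith
  have i2 : Integrable fun t : ℝ => f (vl τ t) := by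
    refine integrable_decay c2 (K := |K| * Real.exp (δ * M)) (R := R + M) hδ fun t ht => ?_
    exact hnear t ht _ (hm2 t) (by simp [vl, hM0])
  have i1 : Integrable fun t : ℝ => (1 + D1 t) * f (vl τ t + I * D t) := by
    refine integrable_decay c1 (K := (1 + M) * (|K| * Real.exp (δ * M))) (R := R + M) hδ
      fun t ht => ?_
    rw [norm_mul, mul_assoc (1 + M)]
    refine mul_le_mul ?_ (hnear t ht _ (hm1 t) ?_) (norm_nonneg _) (by linarith)
    · refine (norm_add_le _ _).trans ?_
      rw [norm_one]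
      linarith [(hM t).2]
    · have : (vl τ t + I * D t).im - t = (D t).re := by simp [vl]
      rw [this]
      exact (abs_re_le_norm _).trans (hM t).1
  have t1 := intervalIntegral_tendsto_integral i1 tendsto_neg_atTop_atBot tendsto_id
  have t2 := intervalIntegral_tendsto_integral i2 tendsto_neg_atTop_atBot tendsto_id
  have t3 := (t1.sub t2).norm
  have t4 : Tendsto (fun x : ℝ => 2 * (|K| * Real.exp (δ * M) * Real.exp (-(δ * x)) * M)) atTop
      (𝓝 0) := by
    have h1 : Tendsto (fun x : ℝ => Real.exp (-(δ * x))) atTop (𝓝 0) :=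
      Real.tendsto_exp_neg_atTop_nhds_zero.comp (tendsto_id.const_mul_atTop hδ)
    have h2 := ((h1.const_mul (|K| * Real.exp (δ * M))).mul_const M).const_mul 2
    simpa using h2
  have h0 : ‖(∫ t : ℝ, (1 + D1 t) * f (vl τ t + I * D t)) - ∫ t : ℝ, f (vl τ t)‖ ≤ 0 := by
    refine le_of_tendsto_of_tendsto t3 t4 ?_
    filter_upwards [eventually_ge_atTop (|R| + M)] with x hx
    have hx0 : 0 ≤ x := by
      have := abs_nonneg R
      linarith
    have hxR : R + M ≤ |x| := by
      rw [abs_of_nonneg hx0]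
      linarith [le_abs_self R]
    have h1 := crv_interval hf C (fun t => (hM t).1) (x := -x) (y := x)
      (e := |K| * Real.exp (δ * M) * Real.exp (-(δ * x)))
      (fun u hu hut => by
        have := hnear (-x) (by rwa [abs_neg]) u hu hut
        rwa [abs_neg, abs_of_nonneg hx0] at this)
      (fun u hu hut => by
        have := hnear x hxR u hu hut
        rwa [abs_of_nonneg hx0] at this)
    exact h1
  exact sub_eq_zero.1 (norm_le_zero_iff.1 h0)

/-- the one body weight is holomorphic on a closed strip without poles -/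
theorem Wt_diffOn (G : Geo pl κ a b) {s : Bool} {Q : ℤ} {g : Bool → ℂ → ℂ}
    (hg : Reg pl κ a b Q g) (h1 : a ≤ a') (h2 : b' ≤ b)
    (hp : ∀ p ∈ pl s, p.re < a' ∨ b' < p.re) : DifferentiableOn ℂ (Wt pl g s) (CS a' b') := by
  intro u hu
  refine DifferentiableAt.differentiableWithinAt ?_
  unfold Wt
  refine (hg.diff s u (h1.trans hu.1) (hu.2.trans h2)).div ?_ ?_
  · have := DifferentiableAt.fun_finsetProd (𝕜 := ℂ) (u := pl s)
      (f := fun p' u => sin (u - p') ^ 2) (x := u) (fun b _ => by fun_prop)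
    simpa using this
  · refine Finset.prod_ne_zero_iff.2 fun p' hp' => pow_ne_zero 2 ?_
    have hl := Bd.l_pos
    have hpi := Bd.pi_eq
    have hwd := G.wd
    have hpin := G.pin s p' hp'
    refine sin_ne ?_ ?_ (sub_ne_zero.2 ?_)
    · rw [sub_re]
      linarith [hu.1, hu.2, hpin.1, hpin.2]
    · rw [sub_re]
      linarith [hu.1, hu.2, hpin.1, hpin.2]
    · rintro rfl
      rcases hp u hp' with h | h
      · linarith [hu.1]
      · linarith [hu.2]

/-- **the line = the curve, one quantum** -/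
theorem int_crv (G : Geo pl κ a b) (C : Crv a' b' τ D D1) {s : Bool} {Q : ℤ} {g : Bool → ℂ → ℂ}
    (hg : Reg pl κ a b Q g) (hQ : 0 ≤ sg s * Q) (h1 : a ≤ a') (h2 : b' ≤ b)
    (hp : ∀ p ∈ pl s, p.re < a' ∨ b' < p.re) :
    ∫ t, hh pl g (lineC s τ) t = ∫ t, hh pl g (crvC s τ D D1) t := by
  obtain ⟨K, R, hK⟩ := Wt_decay G hg s
  have hQ' : (0 : ℝ) ≤ ((sg s * Q : ℤ) : ℝ) := by exact_mod_cast hQ
  have key := crv_line (Wt_diffOn G hg h1 h2 hp) C (K := K) (R := R)
    (δ := κ + 2 * ((sg s * Q : ℤ) : ℝ)) (by linarith [G.kpos])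
    (fun u hu hR => hK u (h1.trans hu.1) (hu.2.trans h2) hR)
  have e1 : ∫ t, hh pl g (lineC s τ) t = (2 * π : ℂ)⁻¹ * ∫ t : ℝ, Wt pl g s (vl τ t) := by
    rw [← integral_const_mul]
    rfl
  have e2 : ∫ t, hh pl g (crvC s τ D D1) t = (2 * π : ℂ)⁻¹ *
      ∫ t : ℝ, (1 + D1 t) * Wt pl g s (vl τ t + I * D t) := by
    rw [← integral_const_mul]
    refine integral_congr_ae (Eventually.of_forall fun t => ?_)
    show (2 * π : ℂ)⁻¹ * (1 + D1 t) * Wt pl g s (vl τ t + I * D t) = _
    ring
  rw [e1, e2, key]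

theorem rep_crv (G : Geo pl κ a b) (C : Crv a' b' τ D D1) {s : Bool} (h1 : a ≤ a') (h2 : b' ≤ b)
    (hp : ∀ p ∈ pl s, p.re < a' ∨ b' < p.re) (z : ℂ) :
    Rep pl κ a b (lineC s τ) (crvC s τ D D1) (zC s z) := by
  intro g hg
  have e0 : ∫ t, hh pl g (zC s z) t = 0 := by
    have : ∀ t, hh pl g (zC s z) t = 0 := fun t => by
      show (0 : ℂ) * _ = 0
      rw [zero_mul]
    simp [this]
  rw [e0, add_zero]
  refine int_crv G C hg ?_ h1 h2 hp
  show 0 ≤ sg s * sg s
  rw [sg_sq]
  norm_num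

/-! ## all quanta -/

/-- a contour which alone replaces another one -/
theorem Z1_rep (G : Geo pl κ a b) {e c : Ct} {z : ℂ} (hc' : c.sp = e.sp)
    (he : OkC pl κ a b e) (hc : OkC pl κ a b c) (hz : OkC pl κ a b (zC e.sp z))
    (hr : Rep pl κ a b e c (zC e.sp z)) {L : List Ct} (hL : ∀ x ∈ L, OkC pl κ a b x) (n : ℕ)
    (g : Bool → ℂ → ℂ) (h : Reg pl κ a b (n * sg e.sp + chL L) g) :
    Z1 pl e n L g = Z1 pl c n L g := by
  refine (Z1_sum G (e := e) (c := c) (d := zC e.sp z) hc' rfl he hc hz hr hL n h).trans ?_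
  rw [Finset.sum_eq_single_of_mem 0 (by simp)]
  · simp [Z1]
  · intro k hk hk0
    have hkn : k ≤ n := by
      have := Finset.mem_range.1 hk
      omega
    obtain ⟨j, rfl⟩ : ∃ j, k = j + 1 := ⟨k - 1, by omega⟩
    have e : NI pl (List.replicate (n - (j + 1)) c ++
        (List.replicate (j + 1) (zC e.sp z) ++ L)) g = 0 := by
      have hperm : (List.replicate (n - (j + 1)) c ++
        (List.replicate (j + 1) (zC e.sp z) ++ L)).Perm (zC e.sp z ::
          (List.replicate (n - (j + 1)) c ++ (List.replicate j (zC e.sp z) ++ L))) :=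
        List.perm_middle
      rw [NI_perm G hperm ?_ g ?_]
      · show ∫ t, hh pl g (zC e.sp z) t * _ = 0
        have : ∀ t, hh pl g (zC e.sp z) t = 0 := fun t => by
          show (0 : ℂ) * _ = 0
          rw [zero_mul]
        simp [this]
      · intro x hx
        simp only [List.mem_append, List.mem_replicate] at hx
        rcases hx with ⟨_, rfl⟩ | ⟨_, rfl⟩ | hx
        · exact hc
        · exact hz
        · exact hL x hx
      · rw [chL_append, chL_append, chL_replicate, chL_replicate, hc']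
        show Reg pl κ a b (((n - (j + 1) : ℕ) : ℤ) * sg e.sp +
          (((j + 1 : ℕ) : ℤ) * sg e.sp + chL L)) g
        convert h using 1
        push_cast [hkn]
        ring
    unfold Z1
    rw [e, mul_zero, mul_zero]

/-- geometry of the curve: strip and poles of the species `s` -/
structure CrvOk (pl : Bool → Finset ℂ) (a b : ℝ) (s : Bool) (τ : ℝ) (D D1 : ℝ → ℂ) : Prop where
  ex : ∃ a' b' : ℝ, Crv a' b' τ D D1 ∧ a ≤ a' ∧ b' ≤ b ∧ ∀ p ∈ pl s, p.re < a' ∨ b' < p.re

theorem CrvOk.line (G : Geo pl κ a b) {s : Bool} (C : CrvOk pl a b s τ D D1) :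
    OkC pl κ a b (lineC s τ) := by
  obtain ⟨a', b', C, h1, h2, hp⟩ := C.ex
  have ht := C.tau
  exact okC_line G.kpos (h1.trans ht.1) (ht.2.trans h2) fun p hp' => by
    rcases hp p hp' with h | h
    · exact (h.trans_le ht.1).ne
    · exact (ht.2.trans_lt h).ne'

theorem CrvOk.ok (G : Geo pl κ a b) {s : Bool} (C : CrvOk pl a b s τ D D1) :
    OkC pl κ a b (crvC s τ D D1) := by
  obtain ⟨a', b', C, h1, h2, hp⟩ := C.ex
  exact okC_crv G.kpos C h1 h2 hp

/-- **`n` quanta: the line = the curve** -/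
theorem Z1_crv (G : Geo pl κ a b) {s : Bool} (C : CrvOk pl a b s τ D D1) {L : List Ct}
    (hL : ∀ x ∈ L, OkC pl κ a b x) (n : ℕ) (g : Bool → ℂ → ℂ)
    (h : Reg pl κ a b (n * sg s + chL L) g) :
    Z1 pl (lineC s τ) n L g = Z1 pl (crvC s τ D D1) n L g := by
  have ok1 := C.line G
  have ok2 := C.ok G
  obtain ⟨a', b', C, h1, h2, hp⟩ := C.ex
  have ht := C.tau
  have hz : (τ : ℂ) ∉ pl s := by
    intro hmem
    rcases hp _ hmem with h | h
    · rw [ofReal_re] at h
      linarith [ht.1]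
    · rw [ofReal_re] at h
      linarith [ht.2]
  have ok3 : OkC pl κ a b (zC s (τ : ℂ)) :=
    okC_z (by simpa using h1.trans ht.1) (by simpa using ht.2.trans h2) hz
  exact Z1_rep G (e := lineC s τ) (c := crvC s τ D D1) (z := (τ : ℂ)) rfl ok1 ok2 ok3
    (rep_crv G C h1 h2 hp _) hL n g h

/-- two species on two contours -/
def Jc (pl : Bool → Finset ℂ) (c : Ct) (m : ℕ) (c' : Ct) (n : ℕ) (g : Bool → ℂ → ℂ) : ℂ :=
  ((n.factorial : ℕ) : ℂ)⁻¹ * Z1 pl c m (List.replicate n c') g

theorem Jc_symm (G : Geo pl κ a b) {c c' : Ct} (hc : OkC pl κ a b c) (hc' : OkC pl κ a b c')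
    (m n : ℕ) {g : Bool → ℂ → ℂ} (hg : Reg pl κ a b (m * sg c.sp + n * sg c'.sp) g) :
    Jc pl c m c' n g = Jc pl c' n c m g := by
  unfold Jc Z1
  rw [NI_perm G (L := List.replicate m c ++ List.replicate n c')
    (L' := List.replicate n c' ++ List.replicate m c) List.perm_append_comm
    (fun z hz => by
      simp only [List.mem_append, List.mem_replicate] at hz
      rcases hz with ⟨_, rfl⟩ | ⟨_, rfl⟩
      · exact hc
      · exact hc') g (by
      rw [chL_append, chL_replicate, chL_replicate]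
      exact hg)]
  ring

/-- **Both species: the lines = the curves.** -/
theorem J_crv (G : Geo pl κ a b) {s : Bool} {x y : ℝ} {D D1 E E1 : ℝ → ℂ}
    (CX : CrvOk pl a b s x D D1) (CY : CrvOk pl a b (!s) y E E1) (m n : ℕ)
    {g : Bool → ℂ → ℂ} (hg : Reg pl κ a b (m * sg s + n * sg (!s)) g) :
    J pl s x m y n g = Jc pl (crvC s x D D1) m (crvC (!s) y E E1) n g := by
  have okx := CX.line G
  have oky := CY.line G
  have okx' := CX.ok G
  have oky' := CY.ok G
  have e1 : J pl s x m y n g = Jc pl (crvC s x D D1) m (lineC (!s) y) n g := by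
    unfold J Jc
    rw [Z1_crv G CX (fun z hz => by rw [(List.mem_replicate.1 hz).2]; exact oky) m g (by
      rw [chL_replicate]
      exact hg)]
  have e2 : Jc pl (lineC (!s) y) n (crvC s x D D1) m g =
      Jc pl (crvC (!s) y E E1) n (crvC s x D D1) m g := by
    unfold Jc
    rw [Z1_crv G CY (fun z hz => by rw [(List.mem_replicate.1 hz).2]; exact okx') n g (by
      rw [chL_replicate]
      show Reg pl κ a b ((n : ℤ) * sg (!s) + (m : ℤ) * sg s) g
      rwa [add_comm])]
  rw [e1, Jc_symm G okx' oky m n hg, e2,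
    Jc_symm G oky' okx' n m (by
      show Reg pl κ a b ((n : ℤ) * sg (!s) + (m : ℤ) * sg s) g
      rwa [add_comm])]

/-! ## the pair functions on the line `re u = τ` -/

theorem sin_add_mul_sin_sub (x y : ℂ) : sin (x + y) * sin (x - y) = sin x ^ 2 - sin y ^ 2 := by
  rw [sin_add, sin_sub]
  have h1 := sin_sq_add_cos_sq x
  have h2 := sin_sq_add_cos_sq y
  linear_combination (sin x ^ 2) * h2 - (sin y ^ 2) * h1

theorem sin_I_mul' (z : ℂ) : sin (I * z) = I * sinh z := by
  rw [mul_comm, Complex.sin_mul_I, mul_comm]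

theorem cos_I_mul' (z : ℂ) : cos (I * z) = cosh z := by
  rw [mul_comm, Complex.cos_mul_I]

theorem sin_sq_2l : sin (2 * (l : ℂ)) ^ 2 = 1 / 2 := by
  have e : (2 * (l : ℂ)) = ((Real.pi / 4 : ℝ) : ℂ) := by
    have := Bd.pi_eq
    rw [this]
    push_cast
    ring
  rw [e, ← ofReal_sin, Real.sin_pi_div_four]
  have h : (Real.sqrt 2 / 2) ^ 2 = 1 / 2 := by
    rw [div_pow, Real.sq_sqrt (by norm_num)]
    norm_num
  rw [← ofReal_pow, h]
  push_cast
  norm_num

theorem cos_2l : cos (2 * (l : ℂ)) = (NUMF.r : ℂ) := by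
  have e : (2 * (l : ℂ)) = ((Real.pi / 4 : ℝ) : ℂ) := by
    have := Bd.pi_eq
    rw [this]
    push_cast
    ring
  rw [e, ← ofReal_cos, Real.cos_pi_div_four]
  rfl

theorem sin_sq_l : sin (l : ℂ) ^ 2 = (1 - NUMF.r) / 2 := by
  have h1 := cos_two_mul (l : ℂ)
  have h2 := sin_sq_add_cos_sq (l : ℂ)
  rw [cos_2l] at h1
  linear_combination h2 + h1 / 2

theorem sin_sq_3l : sin (3 * (l : ℂ)) ^ 2 = (1 + NUMF.r) / 2 := by
  have e : (3 * (l : ℂ)) = ((Real.pi / 2 : ℝ) : ℂ) - l := by
    have := Bd.pi_eq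
    rw [this]
    push_cast
    ring
  have h2 := sin_sq_add_cos_sq (l : ℂ)
  have h3 : sin (3 * (l : ℂ)) = cos (l : ℂ) := by
    rw [e]
    push_cast
    rw [Complex.sin_pi_div_two_sub]
  rw [h3]
  linear_combination h2 - sin_sq_l

/-- **own pair function** -/
theorem q_I_mul (z : ℂ) : q (I * z) = NUKer.wcx z := by
  have h1 := sin_add_mul_sin_sub (I * z) (2 * l)
  have h2 := sin_add_mul_sin_sub (I * z) l
  have h3 := cosh_two_mul z
  have h4 := cosh_sq z
  rw [sin_I_mul', sin_sq_2l] at h1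
  rw [sin_I_mul', sin_sq_l] at h2
  have e1 : sin (I * z + 2 * l) * sin (I * z - 2 * l) = -(cosh (2 * z)) / 2 := by
    rw [h1, h3]
    linear_combination (sinh z ^ 2) * I_mul_I + h4 / 2
  have e2 : sin (I * z + l) * sin (I * z - l) = -(cosh (2 * z) - NUMF.r) / 2 := by
    rw [h2, h3]
    linear_combination (sinh z ^ 2) * I_mul_I + h4 / 2
  unfold q NUKer.wcx
  rw [e2, mul_assoc, e1, sin_I_mul', mul_pow, I_sq]
  by_cases h : cosh (2 * z) - (NUMF.r : ℂ) = 0
  · rw [h]
    simp
  · field_simp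

/-- **cross pair function** -/
theorem qg_I_mul (z : ℂ) : qg (I * z) = NUKer.gcx z := by
  have h2 := sin_add_mul_sin_sub (I * z) (3 * l)
  have h3 := cosh_two_mul z
  have h4 := cosh_sq z
  rw [sin_I_mul', sin_sq_3l] at h2
  have e2 : sin (I * z + 3 * l) * sin (I * z - 3 * l) = -(cosh (2 * z) + NUMF.r) / 2 := by
    rw [h2, h3]
    linear_combination (sinh z ^ 2) * I_mul_I + h4 / 2
  unfold qg NUKer.gcx
  rw [← mul_pow, e2, cos_I_mul']
  by_cases h : cosh (2 * z) + (NUMF.r : ℂ) = 0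
  · rw [h]
    simp
  · field_simp
    norm_num

end NUP1S

end
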