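import Pool.Agent.NUP1S.ConfO
import Pool.Agent.NUO.MeasGas

/-!
# The line form for one word: all satellites, norms, measurability
-/

set_option autoImplicit false
set_option linter.unusedSectionVars false

noncomputable section

open Complex MeasureTheory NUP1 Set Filter Topology
open scoped Real ENNReal

namespace NUP1S

open NUP1.Bd (cwz pwz qg chg sin_pos_of Ob wt)
open Ab (Part ppC potG WW ppC_single ppC_cons PU_two PU_mul PU_congr)
open NUO (Xo Kind kd ht an posL posT posS posV parts aS)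

/-- modulus of the one body weight of an object, generic one body functions -/
def obX (X : Option O3 → ℂ → ℂ) (jL e ρ : ℝ) (x : Xo) : ℝ :=
  match kd x with
  | .L => (2 * π)⁻¹ * ‖X (some .L) (posL jL (ht x))‖
  | .St => aS * ‖X (some .T) (posT (ht x))‖
  | .S => aS * ‖X (some .S) (posS e (ht x))‖
  | .Sv => aS * ‖X (some .S) (posS e (ht x))‖ * (ρ * ‖X none (posV e ρ (ht x) (an x))‖ *
      ‖Kn.cz false true (posV e ρ (ht x) (an x) - posS e (ht x))‖)
  | .Svv => aS * ‖X (some .S) (posS e (ht x))‖ * (4 * Real.cos l ^ 2 *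
      (‖X none (posS e (ht x) + 2 * l)‖ / Real.sin (5 * l) ^ 2) ^ 2)

theorem aS_pos : 0 < aS := by
  have hl := Bd.l_pos
  have hpi := Bd.pi_eq
  have h1 : 0 < Real.sin l := Real.sin_pos_of_pos_of_lt_pi hl (by linarith)
  have h2 : 0 < Real.sin (2 * l) := Real.sin_pos_of_pos_of_lt_pi (by linarith) (by linarith)
  have h3 : 0 < Real.sin (3 * l) := Real.sin_pos_of_pos_of_lt_pi (by linarith) (by linarith)
  unfold aS
  positivity

theorem norm_wt_L : ‖wt .L‖ = (2 * π)⁻¹ := by
  show ‖-(2 * (π : ℂ))⁻¹‖ = _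
  rw [norm_neg, norm_inv, norm_mul, norm_real, Real.norm_of_nonneg Real.pi_pos.le]
  norm_num

theorem norm_wt_S : ‖wt .S‖ = aS := by
  have e : wt .S = ((aS : ℝ) : ℂ) := by
    show rho * (2 * (π : ℂ))⁻¹ = _
    unfold rho aS
    push_cast
    rw [div_eq_mul_inv _ (2 * (π : ℂ))]
  rw [e, norm_real, Real.norm_of_nonneg aS_pos.le]

theorem two_cos : (sin (2 * l) / sin l : ℂ) = ((2 * Real.cos l : ℝ) : ℂ) := by
  have hl := Bd.l_pos
  have hpi := Bd.pi_eq
  have h1 : sin (l : ℂ) ≠ 0 := sin_ne_strip (by simpa using hl) (by simp; linarith)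
  rw [sin_two_mul]
  push_cast
  field_simp

theorem norm_two_cos : ‖(sin (2 * l) / sin l : ℂ) ^ 2‖ = 4 * Real.cos l ^ 2 := by
  rw [two_cos, norm_pow, norm_real, Real.norm_eq_abs, sq_abs]
  ring

theorem norm_sin5 : ‖(1 / sin (5 * l) ^ 2 : ℂ)‖ = 1 / Real.sin (5 * l) ^ 2 := by
  have e : (1 / sin (5 * l) ^ 2 : ℂ) = ((1 / Real.sin (5 * l) ^ 2 : ℝ) : ℂ) := by
    push_cast
    rfl
  rw [e, norm_real, Real.norm_of_nonneg (by positivity)]

variable {ι : Type*} [Fintype ι] [DecidableEq ι]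

/-- **one body weights** -/
theorem obX_eq (X : Option O3 → ℂ → ℂ) {o : ι → CO} {z : ι → ℂ} {ρ : ι → ℝ} {G : Bool → ℂ → ℂ}
    {τ : ι → Fin 3} {θ : ι → ℝ} {P : NUO.Par} {r : ℕ} {k : ι → O3} {n : ι → ℕ} {t : ι → ℝ}
    {i : ι} {s : Bool} (hG : G (!s) = X none) (hρ : 0 ≤ ρ i) (hτ : τ i ≠ 0 → k i = .S)
    (ho : o i = (s, ob3 (k i))) (hz : z i = vl (lnO P r (n i) (k i)) (t i)) :
    ‖wt (ob3 (k i)) * (X (some (k i)) (z i) * om0 o z ρ G τ θ i)‖ =
      obX X P.jL (P.e + P.d r * ((n i : ℝ) / r)) (ρ i) ((s, kdO (k i) (τ i)), (t i, θ i)) := by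
  unfold om0
  rw [ho, hz]
  rcases hk : k i with _ | _ | _
  · have h0 : τ i = 0 := by
      by_contra h
      have := hτ h
      rw [hk] at this
      exact O3.noConfusion this
    rw [h0, if_pos rfl, mul_one, norm_mul]
    show ‖wt .L‖ * _ = _
    rw [norm_wt_L]
    rfl
  · show ‖wt .S * _‖ = _
    rcases fin3_cases (τ i) with h | h | h
    · rw [h, if_pos rfl, mul_one, norm_mul, norm_wt_S]
      rfl
    · rw [h, if_neg (by decide), if_pos rfl, norm_mul, norm_wt_S, norm_mul, norm_mul, norm_mul,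
        norm_neg, cM_eq, cM_eq, hG]
      have e1 : ‖(0 : ℂ) + ρ i * Complex.exp (2 * π * θ i * I)‖ = ρ i := by
        rw [zero_add, norm_mul, norm_real, Real.norm_of_nonneg hρ]
        have : Complex.exp (2 * π * θ i * I) = Complex.exp (((2 * π * θ i : ℝ) : ℂ) * I) := by
          push_cast
          rfl
        rw [this, norm_exp_ofReal_mul_I, mul_one]
      rw [e1]
      have e2 : ∀ w : ℂ, gz (!s, .A) (s, ob3 .S) w = Kn.cz false true w := by
        intro w
        unfold gz
        rw [if_neg (by cases s <;> decide)]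
        rfl
      have e3 : ∀ w : ℂ, gz (!(s, ob3 O3.S).1, Ob.A) (s, ob3 .S) w = Kn.cz false true w := e2
      rw [e3]
      show aS * (‖X (some .S) (posS (P.e + P.d r * ((n i : ℝ) / r)) (t i))‖ * (ρ i *
        (‖X none (posV (P.e + P.d r * ((n i : ℝ) / r)) (ρ i) (t i) (θ i))‖ *
        ‖Kn.cz false true (posV (P.e + P.d r * ((n i : ℝ) / r)) (ρ i) (t i) (θ i) -
          posS (P.e + P.d r * ((n i : ℝ) / r)) (t i))‖))) =
        aS * ‖X (some .S) (posS (P.e + P.d r * ((n i : ℝ) / r)) (t i))‖ * (ρ i *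
        ‖X none (posV (P.e + P.d r * ((n i : ℝ) / r)) (ρ i) (t i) (θ i))‖ *
        ‖Kn.cz false true (posV (P.e + P.d r * ((n i : ℝ) / r)) (ρ i) (t i) (θ i) -
          posS (P.e + P.d r * ((n i : ℝ) / r)) (t i))‖)
      ring
    · rw [h, if_neg (by decide), if_neg (by decide), norm_mul, norm_wt_S, norm_mul, norm_mul,
        norm_two_cos, norm_pow, norm_mul, norm_sin5, hG, mul_one_div]
      show aS * (‖X (some .S) (posS (P.e + P.d r * ((n i : ℝ) / r)) (t i))‖ * (4 * Real.cos l ^ 2 *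
        (‖X none (posS (P.e + P.d r * ((n i : ℝ) / r)) (t i) + 2 * l)‖ /
          Real.sin (5 * l) ^ 2) ^ 2)) =
        aS * ‖X (some .S) (posS (P.e + P.d r * ((n i : ℝ) / r)) (t i))‖ * (4 * Real.cos l ^ 2 *
        (‖X none (posS (P.e + P.d r * ((n i : ℝ) / r)) (t i) + 2 * l)‖ /
          Real.sin (5 * l) ^ 2) ^ 2)
      ring
  · have h0 : τ i = 0 := by
      by_contra h
      have := hτ h
      rw [hk] at this
      exact O3.noConfusion this
    rw [h0, if_pos rfl, mul_one, norm_mul]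
    show ‖wt .S‖ * _ = _
    rw [norm_wt_S]
    rfl

/-! ## the integrand of the line form -/

/-- constituents, `n i` = rank of the object `i` in its species -/
def cW (P : NUO.Par) (r : ℕ) (n : ι → ℕ) (O : ι → Xo) (i : ι) : List Part :=
  parts P.jL (P.e + P.d r * ((n i : ℝ) / r)) (P.rad r (ht (O i))) (O i)

/-- one body weights -/
def oW (X : Option O3 → ℂ → ℂ) (P : NUO.Par) (r : ℕ) (n : ι → ℕ) (O : ι → Xo) (i : ι) : ℝ :=
  obX X P.jL (P.e + P.d r * ((n i : ℝ) / r)) (P.rad r (ht (O i))) (O i)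

/-- the number of quanta of species `s` -/
def chI' (O : ι → Xo) (s : Bool) : ℕ := ∑ i, NUO.chg s (O i)

/-- the integrand of the line form -/
def FW (P : NUO.Par) (X : Option O3 → ℂ → ℂ) (N r : ℕ) (n : ι → ℕ) (O : ι → Xo) : ℝ≥0∞ :=
  if chI' O true ≤ N ∧ chI' O false ≤ N then
    ENNReal.ofReal (WW (oW X P r n O) (cW P r n O)) *
      ‖gas (N - chI' O true) (N - chI' O false) l
        (fun z => X none z * potG (cW P r n O) true z)
        (fun z => X none z * potG (cW P r n O) false z)‖ₑ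
  else 0

theorem FW_equiv {ι' : Type*} [Fintype ι'] [DecidableEq ι'] (e : ι ≃ ι') (P : NUO.Par)
    (X : Option O3 → ℂ → ℂ) (N r : ℕ) (n : ι' → ℕ) (O : ι' → Xo) :
    FW P X N r (n ∘ e) (O ∘ e) = FW P X N r n O := by
  have h1 : ∀ s, chI' (O ∘ e) s = chI' O s := fun s => e.sum_comp fun i => NUO.chg s (O i)
  have h2 : WW (oW X P r (n ∘ e) (O ∘ e)) (cW P r (n ∘ e) (O ∘ e)) =
      WW (oW X P r n O) (cW P r n O) := Ab.WW_equiv e (oW X P r n O) (cW P r n O)
  have h3 : ∀ s z, potG (cW P r (n ∘ e) (O ∘ e)) s z = potG (cW P r n O) s z := fun s z =>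
    Ab.potG_equiv e (cW P r n O) s z
  unfold FW
  rw [h1, h1, h2]
  simp only [h3]

/-! ## measurability -/

theorem measurable_obX {Y : Type*} [MeasurableSpace Y] {X : Option O3 → ℂ → ℂ}
    (hX : ∀ k, Measurable (X k)) (jL e : ℝ) (k : Bool × Kind)
    {t a ρ : Y → ℝ} (ht : Measurable t) (ha : Measurable a) (hρ : Measurable ρ) :
    Measurable fun y => obX X jL e (ρ y) (k, (t y, a y)) := by
  obtain ⟨s, k⟩ := k
  have hS : Measurable fun y => posS e (t y) := NUO.measurable_vl ht _
  have hV : Measurable fun y => posV e (ρ y) (t y) (a y) := NUO.measurable_posV ht ha hρ e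
  cases k
  · exact (((hX (some .L)).comp (NUO.measurable_vl ht _)).norm).const_mul _
  · exact (((hX (some .T)).comp (NUO.measurable_vl ht _)).norm).const_mul _
  · exact (((hX (some .S)).comp hS).norm).const_mul _
  · have h0 : Measurable fun y => aS * ‖X (some .S) (posS e (t y))‖ :=
      (((hX (some .S)).comp hS).norm).const_mul _
    have h1 : Measurable fun y => ‖X none (posV e (ρ y) (t y) (a y))‖ :=
      ((hX none).comp hV).norm
    have h2 : Measurable fun y => ‖Kn.cz false true (posV e (ρ y) (t y) (a y) -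
        posS e (t y))‖ := ((NUO.measurable_cz false true).comp (hV.sub hS)).norm
    exact h0.mul ((hρ.mul h1).mul h2)
  · have h0 : Measurable fun y => aS * ‖X (some .S) (posS e (t y))‖ :=
      (((hX (some .S)).comp hS).norm).const_mul _
    have h1 : Measurable fun y => ‖X none (posS e (t y) + 2 * l)‖ :=
      ((hX none).comp (hS.add_const _)).norm
    exact h0.mul (((h1.div_const _).pow_const 2).const_mul _)

theorem measurable_FW {P : NUO.Par} {X : Option O3 → ℂ → ℂ} (hX : ∀ k, Measurable (X k)) {r : ℕ}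
    (hP : Measurable (P.rad r)) (N : ℕ) (n : ι → ℕ) (K : ι → Bool × Kind) :
    Measurable fun x : ι → ℝ × ℝ => FW P X N r n fun i => (K i, x i) := by
  have hc : ∀ s (x : ι → ℝ × ℝ), chI' (fun i => (K i, x i)) s =
      chI' (fun i => (K i, ((0 : ℝ), (0 : ℝ)))) s := fun _ _ => rfl
  unfold FW
  simp only [hc]
  split_ifs
  · have ht : ∀ i, Measurable fun x : ι → ℝ × ℝ => (x i).1 := fun i =>
      measurable_fst.comp (measurable_pi_apply i)
    have ha : ∀ i, Measurable fun x : ι → ℝ × ℝ => (x i).2 := fun i =>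
      measurable_snd.comp (measurable_pi_apply i)
    have hev : ∀ i, ∃ L : List (Bool × Bool × ((ι → ℝ × ℝ) → ℂ)), (∀ p ∈ L, Measurable p.2.2) ∧
        ∀ x : ι → ℝ × ℝ, cW P r n (fun i => (K i, x i)) i = NUO.evl L x := fun i => by
      obtain ⟨L, h1, h2⟩ := NUO.exists_evl (K i) (ht i) (ha i) (hP.comp (ht i)) P.jL
        (P.e + P.d r * ((n i : ℝ) / r))
      exact ⟨L, h1, fun x => h2 x⟩
    choose L hL hLe using hev
    have a1 : Measurable fun x : ι → ℝ × ℝ => ENNReal.ofReal
        (WW (oW X P r n fun i => (K i, x i)) (cW P r n fun i => (K i, x i))) := by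
      refine Measurable.ennreal_ofReal ?_
      unfold WW
      have b1 : Measurable fun x : ι → ℝ × ℝ => ∏ i, oW X P r n (fun i => (K i, x i)) i :=
        Finset.measurable_prod _ fun i _ =>
          measurable_obX hX _ _ (K i) (ht i) (ha i) (hP.comp (ht i))
      have b2 : Measurable fun x : ι → ℝ × ℝ => PU fun i j =>
          ppC (cW P r n (fun i => (K i, x i)) i) (cW P r n (fun i => (K i, x i)) j) := by
        refine measurable_PU (fun i j (x : ι → ℝ × ℝ) => ppC (cW P r n (fun i => (K i, x i)) i)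
          (cW P r n (fun i => (K i, x i)) j)) fun i j => ?_
        simp only [hLe]
        exact NUO.measurable_ppC_evl (hL i) (hL j)
      exact b1.mul b2.norm
    have hpot : ∀ s, Measurable fun p : (ι → ℝ × ℝ) × ℂ =>
        potG (cW P r n fun i => (K i, p.1 i)) s p.2 := by
      intro s
      unfold potG
      refine Finset.measurable_prod _ fun i _ => ?_
      simp only [hLe]
      have h1 := NUO.measurable_ppC_evl
        (L := [(s, false, fun p : (ι → ℝ × ℝ) × ℂ => p.2)])
        (M := (L i).map fun q => (q.1, q.2.1, fun p : (ι → ℝ × ℝ) × ℂ => q.2.2 p.1))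
        (fun p hp => by
          rw [List.mem_singleton] at hp
          subst hp
          exact measurable_snd)
        (fun p hp => by
          obtain ⟨q, hq, rfl⟩ := List.mem_map.1 hp
          exact (hL i q hq).comp measurable_fst)
      refine (congrArg Measurable (funext fun p => ?_)).mpr h1
      congr 1
      unfold NUO.evl
      rw [List.map_map]
      rfl
    have hH : ∀ s, Measurable fun p : (ι → ℝ × ℝ) × ℂ =>
        X none p.2 * potG (cW P r n fun i => (K i, p.1 i)) s p.2 := fun s =>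
      ((hX none).comp measurable_snd).mul (hpot s)
    exact a1.mul (NUO.measurable_gas _ _ l (hH true) (hH false)).enorm
  · exact measurable_const

/-! ## one word -/

section word
variable {p p' : ℕ}

/-- species of the objects -/
def isl : Fin p ⊕ Fin p' → Bool := Sum.elim (fun _ => true) (fun _ => false)

/-- species and kind of the objects -/
def Kw (k : Fin p → O3) (k' : Fin p' → O3) (τ : Fin p ⊕ Fin p' → Fin 3) (i : Fin p ⊕ Fin p') :
    Bool × Kind := (isl i, kdO (Sum.elim k k' i) (τ i))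

theorem chg_kdO_same (s : Bool) (k : O3) (τ : Fin 3) (x : ℝ × ℝ) :
    NUO.chg s ((s, kdO k τ), x) = c3 k := by
  cases k
  · simp [NUO.chg, kdO, c3, ob3, chg]
  · rcases fin3_cases τ with h | h | h <;> rw [h] <;> simp [NUO.chg, kdO, c3, ob3, chg]
  · simp [NUO.chg, kdO, c3, ob3, chg]

theorem chg_kdO_other {s s' : Bool} (hs : s' ≠ s) {k : O3} {τ : Fin 3} (hτ : τ ≠ 0 → k = .S)
    (x : ℝ × ℝ) : NUO.chg s ((s', kdO k τ), x) = τ := by
  cases k
  · have : τ = 0 := by
      by_contra h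
      exact O3.noConfusion (hτ h)
    rw [this]
    simp [NUO.chg, kdO, hs]
  · rcases fin3_cases τ with h | h | h <;> rw [h] <;> simp [NUO.chg, kdO, hs]
  · have : τ = 0 := by
      by_contra h
      exact O3.noConfusion (hτ h)
    rw [this]
    simp [NUO.chg, kdO, hs]

theorem nsat_true (k : Fin p → O3) (k' : Fin p' → O3) (τ : Fin p ⊕ Fin p' → Fin 3) :
    nsat (o3 k k') true τ = ∑ j : Fin p', (τ (Sum.inr j) : ℕ) := by
  unfold nsat
  rw [Finset.sum_filter, Fintype.sum_sum_type]
  have e1 : ∀ i : Fin p, (if (!(o3 k k' (Sum.inl i)).1) = true then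
      (τ (Sum.inl i) : ℕ) else 0) = 0 := fun i => by simp [o3, oo]
  have e2 : ∀ i : Fin p', (if (!(o3 k k' (Sum.inr i)).1) = true then
      (τ (Sum.inr i) : ℕ) else 0) = τ (Sum.inr i) := fun i => by simp [o3, oo]
  simp only [e1, e2, Finset.sum_const_zero, zero_add]

theorem nsat_false (k : Fin p → O3) (k' : Fin p' → O3) (τ : Fin p ⊕ Fin p' → Fin 3) :
    nsat (o3 k k') false τ = ∑ i : Fin p, (τ (Sum.inl i) : ℕ) := by
  unfold nsat
  rw [Finset.sum_filter, Fintype.sum_sum_type]
  have e1 : ∀ i : Fin p, (if (!(o3 k k' (Sum.inl i)).1) = false then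
      (τ (Sum.inl i) : ℕ) else 0) = τ (Sum.inl i) := fun i => by simp [o3, oo]
  have e2 : ∀ i : Fin p', (if (!(o3 k k' (Sum.inr i)).1) = false then
      (τ (Sum.inr i) : ℕ) else 0) = 0 := fun i => by simp [o3, oo]
  simp only [e1, e2, Finset.sum_const_zero, add_zero]

theorem chI_true {k : Fin p → O3} {k' : Fin p' → O3} {τ : Fin p ⊕ Fin p' → Fin 3}
    (hτ : ∀ i, τ i ≠ 0 → actO k k' i) (x : Fin p ⊕ Fin p' → ℝ × ℝ) :
    chI' (fun i => (Kw k k' τ i, x i)) true = (∑ i, c3 (k i)) + nsat (o3 k k') true τ := by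
  unfold chI'
  rw [Fintype.sum_sum_type, nsat_true]
  congr 1
  · exact Finset.sum_congr rfl fun i _ => chg_kdO_same true (k i) _ _
  · exact Finset.sum_congr rfl fun j _ => chg_kdO_other (by simp [isl]) (hτ (Sum.inr j)) _

theorem chI_false {k : Fin p → O3} {k' : Fin p' → O3} {τ : Fin p ⊕ Fin p' → Fin 3}
    (hτ : ∀ i, τ i ≠ 0 → actO k k' i) (x : Fin p ⊕ Fin p' → ℝ × ℝ) :
    chI' (fun i => (Kw k k' τ i, x i)) false = (∑ i, c3 (k' i)) + nsat (o3 k k') false τ := by
  unfold chI'
  rw [Fintype.sum_sum_type, nsat_false, add_comm]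
  congr 1
  · exact Finset.sum_congr rfl fun j _ => chg_kdO_same false (k' j) _ _
  · exact Finset.sum_congr rfl fun i _ => chg_kdO_other (by simp [isl]) (hτ (Sum.inl i)) _

/-- positions of the objects on the lines -/
def zO (P : NUO.Par) (k : Fin p → O3) (k' : Fin p' → O3) (t : Fin p ⊕ Fin p' → ℝ) :
    Fin p ⊕ Fin p' → ℂ := pos (Sum.elim (lX P p p' k k') (lY P p p' k k')) t

theorem cW_eq {P : NUO.Par} {k : Fin p → O3} {k' : Fin p' → O3} {τ : Fin p ⊕ Fin p' → Fin 3}
    (hτ : ∀ i, τ i ≠ 0 → actO k k' i) (t θ : Fin p ⊕ Fin p' → ℝ) :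
    cW P (p + p') rkS (fun i => (Kw k k' τ i, (t i, θ i))) =
      cc (o3 k k') (zO P k k' t) (fun i => P.rad (p + p') (t i)) τ θ := by
  funext i
  refine parts_cc (o := o3 k k') (z := zO P k k' t) (ρ := fun i => P.rad (p + p') (t i)) (τ := τ)
    (θ := θ) (P := P) (r := p + p') (k := Sum.elim k k') (n := rkS) (t := t) (s := isl i)
    (fun h => ?_) ?_ ?_
  · rcases i with i | i <;> exact hτ _ h
  · rcases i with i | i <;> rfl
  · rcases i with i | i <;> rfl

theorem WW_eq {P : NUO.Par} (h : GoodP P) (X : Option O3 → ℂ → ℂ) {k : Fin p → O3}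
    {k' : Fin p' → O3} {τ : Fin p ⊕ Fin p' → Fin 3} (hτ : ∀ i, τ i ≠ 0 → actO k k' i)
    (t θ : Fin p ⊕ Fin p' → ℝ) :
    ‖(∏ i, wt (ob3 (k i))) * (∏ i, wt (ob3 (k' i))) * (Fg (o3 k k') (h3 X X k k') (zO P k k' t) *
      SWf (o3 k k') (zO P k k' t) (fun i => P.rad (p + p') (t i)) (fun _ => X none) τ θ)‖ =
    WW (oW X P (p + p') rkS (fun i => (Kw k k' τ i, (t i, θ i))))
      (cW P (p + p') rkS (fun i => (Kw k k' τ i, (t i, θ i)))) := by
  rw [norm_mul, norm_weight, cW_eq hτ]
  unfold WW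
  rw [← mul_assoc]
  congr 1
  have e1 : (∏ i, wt (ob3 (k i))) * (∏ i, wt (ob3 (k' i))) =
      ∏ i, wt (ob3 (Sum.elim k k' i)) := by
    rw [Fintype.prod_sum_type]
    rfl
  rw [e1, norm_prod, ← Finset.prod_mul_distrib]
  refine Finset.prod_congr rfl fun i _ => ?_
  rw [← norm_mul]
  have e2 : h3 X X k k' i (zO P k k' t i) = X (some (Sum.elim k k' i)) (zO P k k' t i) := by
    rcases i with i | i <;> rfl
  rw [e2]
  refine obX_eq X (n := rkS) (t := t) (s := isl i) rfl (h.r0 _ _).le (fun hi => ?_) ?_ ?_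
  · rcases i with i | i <;> exact hτ _ hi
  · rcases i with i | i <;> rfl
  · rcases i with i | i <;> rfl

/-- heights and angles together -/
theorem lint_pair {ι : Type*} [Fintype ι] {F : (ι → ℝ × ℝ) → ℝ≥0∞} (hF : Measurable F) :
    ∫⁻ t : ι → ℝ, ∫⁻ θ : ι → ℝ, F (fun i => (t i, θ i)) ∂(Measure.pi fun _ => mu1)
      ∂(Measure.pi fun _ => volume) =
      ∫⁻ x, F x ∂(Measure.pi fun _ => (volume : Measure ℝ).prod mu1) := by
  have mp := measurePreserving_arrowProdEquivProdArrow ℝ ℝ ι (fun _ => (volume : Measure ℝ))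
    (fun _ => mu1)
  have hm : Measurable fun q : (ι → ℝ) × (ι → ℝ) => F fun i => (q.1 i, q.2 i) := by
    refine hF.comp (measurable_pi_lambda _ fun i => ?_)
    exact ((measurable_pi_apply i).comp measurable_fst).prodMk
      ((measurable_pi_apply i).comp measurable_snd)
  have h2 := mp.lintegral_comp_emb (MeasurableEquiv.measurableEmbedding _)
    (fun q : (ι → ℝ) × (ι → ℝ) => F fun i => (q.1 i, q.2 i))
  rw [← lintegral_prod _ hm.aemeasurable, ← h2]
  rfl

/-- **The line form of one word.** -/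
theorem word_term {P : NUO.Par} (h : GoodP P) {X : Option O3 → ℂ → ℂ}
    (hX : ∀ k, Measurable (X k)) (hP : Measurable (P.rad (p + p'))) {κ : ℝ} (hκ : 0 < κ)
    (hd : ∀ u : ℂ, l / 4 ≤ u.re → u.re ≤ l → DifferentiableAt ℂ (X none) u)
    (hb : DecOn κ (Icc (l / 4) l) (X none)) {n : ℕ} {k : Fin p → O3} {k' : Fin p' → O3}
    (hk : ∑ i, c3 (k i) ≤ n) (hk' : ∑ i, c3 (k' i) ≤ n) :
    ‖term X X (l / 4) n k k' (lX P p p' k k') (lY P p p' k k')‖ₑ ≤
      ∑ τ ∈ Finset.univ.filter (fun τ : Fin p ⊕ Fin p' → Fin 3 => ∀ i, τ i ≠ 0 → actO k k' i),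
        ∫⁻ x, FW P X n (p + p') rkS (fun i => (Kw k k' τ i, x i))
          ∂(Measure.pi fun _ => (volume : Measure ℝ).prod mu1) := by
  classical
  set T := Finset.univ.filter
    (fun τ : Fin p ⊕ Fin p' → Fin 3 => ∀ i, τ i ≠ 0 → actO k k' i) with hT
  set W : ℂ := (∏ i, wt (ob3 (k i))) * (∏ i, wt (ob3 (k' i))) with hW
  set F : (Fin p ⊕ Fin p' → Fin 3) → (Fin p ⊕ Fin p' → ℝ × ℝ) → ℝ≥0∞ :=
    fun τ x => FW P X n (p + p') rkS (fun i => (Kw k k' τ i, x i)) with hF
  have hFm : ∀ τ, Measurable (F τ) := fun τ => measurable_FW hX hP n rkS (Kw k k' τ)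
  have hpair : ∀ τ, Measurable fun q : (Fin p ⊕ Fin p' → ℝ) × (Fin p ⊕ Fin p' → ℝ) =>
      F τ fun i => (q.1 i, q.2 i) := fun τ => by
    refine (hFm τ).comp (measurable_pi_lambda _ fun i => ?_)
    exact ((measurable_pi_apply i).comp measurable_fst).prodMk
      ((measurable_pi_apply i).comp measurable_snd)
  -- the gas on the left line, at fixed heights
  have key : ∀ t : Fin p ⊕ Fin p' → ℝ,
      ‖W * (Fg (o3 k k') (h3 X X k k') (zO P k k' t) *
        gas (nA n k) (nA n k') (l / 4) (fld (o3 k k') (zO P k k' t) (true, .A) (X none))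
          (fld (o3 k k') (zO P k k' t) (false, .A) (X none)))‖ₑ ≤
      ∑ τ ∈ T, ∫⁻ θ : Fin p ⊕ Fin p' → ℝ, F τ (fun i => (t i, θ i))
        ∂(Measure.pi fun _ => mu1) := by
    intro t
    have ex := (host_O h k k' t).exact (G := fun _ => X none) hκ (fun _ => hX none)
      (fun _ => hd) (fun _ => hb) (nA n k) (nA n k') (neutral_O hk hk')
    have e0 : gas (nA n k) (nA n k') (l / 4) (fld (o3 k k') (zO P k k' t) (true, .A) (X none))
        (fld (o3 k k') (zO P k k' t) (false, .A) (X none)) = _ := ex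
    rw [e0, Finset.mul_sum, Finset.mul_sum]
    refine (enorm_sum_le _ _).trans ?_
    rw [hT, Finset.sum_filter]
    refine Finset.sum_le_sum fun τ _ => ?_
    by_cases hτ : ∀ i, τ i ≠ 0 → actO k k' i
    · rw [if_pos hτ]
      by_cases hc : nsat (o3 k k') true τ ≤ nA n k ∧ nsat (o3 k k') false τ ≤ nA n k'
      · rw [if_pos ⟨hτ, hc⟩, ← integral_const_mul, ← integral_const_mul]
        refine (enorm_integral_le_lintegral_enorm _).trans ?_
        refine lintegral_mono fun θ => ?_
        have c1 := chI_true hτ (fun i => (t i, θ i))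
        have c2 := chI_false hτ (fun i => (t i, θ i))
        have g1 : chI' (fun i => (Kw k k' τ i, (t i, θ i))) true ≤ n := by
          rw [c1]
          have := hc.1
          unfold nA at this
          omega
        have g2 : chI' (fun i => (Kw k k' τ i, (t i, θ i))) false ≤ n := by
          rw [c2]
          have := hc.2
          unfold nA at this
          omega
        have g3 : n - chI' (fun i => (Kw k k' τ i, (t i, θ i))) true =
            nA n k - nsat (o3 k k') true τ := by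
          rw [c1]
          unfold nA
          omega
        have g4 : n - chI' (fun i => (Kw k k' τ i, (t i, θ i))) false =
            nA n k' - nsat (o3 k k') false τ := by
          rw [c2]
          unfold nA
          omega
        have hf : ∀ s, Hfs (o3 k k') (zO P k k' t) (fun i => P.rad (p + p') (t i))
            (fun _ => X none) τ θ s = fun z => X none z *
              potG (cW P (p + p') rkS (fun i => (Kw k k' τ i, (t i, θ i)))) s z := by
          intro s
          funext z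
          rw [field_eq, cW_eq hτ]
        show _ ≤ FW P X n (p + p') rkS (fun i => (Kw k k' τ i, (t i, θ i)))
        unfold FW
        rw [if_pos ⟨g1, g2⟩, g3, g4, ← WW_eq h X hτ t θ, ← hW, ← hf true, ← hf false,
          ofReal_norm, ← enorm_mul]
        refine le_of_eq ?_
        congr 1
        show W * (Fg (o3 k k') (h3 X X k k') (zO P k k' t) *
          (SWf (o3 k k') (zO P k k' t) (fun i => P.rad (p + p') (t i)) (fun _ => X none) τ θ *
            gas (nA n k - nsat (o3 k k') true τ) (nA n k' - nsat (o3 k k') false τ) l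
              (Hfs (o3 k k') (zO P k k' t) (fun i => P.rad (p + p') (t i)) (fun _ => X none) τ θ
                true)
              (Hfs (o3 k k') (zO P k k' t) (fun i => P.rad (p + p') (t i)) (fun _ => X none) τ θ
                false))) = _
        ring
      · rw [if_neg fun hc' => hc hc'.2, mul_zero, mul_zero, enorm_zero]
        exact zero_le
    · rw [if_neg hτ, if_neg fun hc' => hτ hc'.1, mul_zero, mul_zero, enorm_zero]
  unfold term
  rw [← integral_const_mul]
  refine (enorm_integral_le_lintegral_enorm _).trans ?_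
  refine (lintegral_mono fun t => key t).trans ?_
  rw [lintegral_finsetSum _ fun τ _ => (hpair τ).lintegral_prod_right']
  exact Finset.sum_le_sum fun τ _ => (lint_pair (hFm τ)).le

/-- elements of the line of an object -/
abbrev elO (P : NUO.Par) (i : Fin p ⊕ Fin p') : ℝ :=
  P.e + P.d (p + p') * ((rkS i : ℝ) / ((p + p' : ℕ) : ℝ))

/-- the objects of a word -/
abbrev OO (k : Fin p → O3) (k' : Fin p' → O3) (τ : Fin p ⊕ Fin p' → Fin 3)
    (t θ : Fin p ⊕ Fin p' → ℝ) (i : Fin p ⊕ Fin p') : Xo :=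
  (Sum.elim (fun i => (true, kdO (k i) (τ (Sum.inl i))))
    (fun i => (false, kdO (k' i) (τ (Sum.inr i)))) i, (t i, θ i))

theorem OO_eq (k : Fin p → O3) (k' : Fin p' → O3) (τ : Fin p ⊕ Fin p' → Fin 3)
    (t θ : Fin p ⊕ Fin p' → ℝ) : OO k k' τ t θ = fun i => (Kw k k' τ i, (t i, θ i)) := by
  funext i
  rcases i with i | i <;> rfl

/-- **One word, fixed heights.** -/
theorem word_key {P : NUO.Par} (h : GoodP P) {X : Option O3 → ℂ → ℂ}
    (hX : Measurable (X none)) {κ : ℝ} (hκ : 0 < κ)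
    (hd : ∀ u : ℂ, l / 4 ≤ u.re → u.re ≤ l → DifferentiableAt ℂ (X none) u)
    (hb : DecOn κ (Icc (l / 4) l) (X none)) {n : ℕ} {k : Fin p → O3} {k' : Fin p' → O3}
    (hk : ∑ i, c3 (k i) ≤ n) (hk' : ∑ i, c3 (k' i) ≤ n) (t : Fin p ⊕ Fin p' → ℝ) :
    ‖(∏ i, wt (ob3 (k i))) * (∏ i, wt (ob3 (k' i))) *
      (Fg (o3 k k') (h3 X X k k') (pos (Sum.elim (lX P p p' k k') (lY P p p' k k')) t) *
        gas (nA n k) (nA n k') (l / 4)
          (fld (o3 k k') (pos (Sum.elim (lX P p p' k k') (lY P p p' k k')) t) (true, .A) (X none))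
          (fld (o3 k k') (pos (Sum.elim (lX P p p' k k') (lY P p p' k k')) t) (false, .A)
            (X none)))‖ₑ ≤
    ∑ τ : Fin p ⊕ Fin p' → Fin 3,
      if (∀ i, τ i ≠ 0 → actO k k' i) ∧ nsat (o3 k k') true τ ≤ nA n k ∧
        nsat (o3 k k') false τ ≤ nA n k' then
        ∫⁻ θ : Fin p ⊕ Fin p' → ℝ,
          ENNReal.ofReal (WW (fun i => obX X P.jL (elO P i) (P.rad (p + p') (t i))
              (OO k k' τ t θ i))
            (fun i => parts P.jL (elO P i) (P.rad (p + p') (t i)) (OO k k' τ t θ i))) *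
          ‖gas (nA n k - nsat (o3 k k') true τ) (nA n k' - nsat (o3 k k') false τ) l
            (fun z => X none z * potG (fun i => parts P.jL (elO P i) (P.rad (p + p') (t i))
              (OO k k' τ t θ i)) true z)
            (fun z => X none z * potG (fun i => parts P.jL (elO P i) (P.rad (p + p') (t i))
              (OO k k' τ t θ i)) false z)‖ₑ
          ∂(Measure.pi fun _ => volume.restrict (Ioc (0 : ℝ) 1))
      else 0 := by
  set W : ℂ := (∏ i, wt (ob3 (k i))) * (∏ i, wt (ob3 (k' i))) with hW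
  have ex := (host_O h k k' t).exact (G := fun _ => X none) hκ (fun _ => hX)
    (fun _ => hd) (fun _ => hb) (nA n k) (nA n k') (neutral_O hk hk')
  have e0 : gas (nA n k) (nA n k') (l / 4) (fld (o3 k k') (zO P k k' t) (true, .A) (X none))
      (fld (o3 k k') (zO P k k' t) (false, .A) (X none)) = _ := ex
  show ‖W * (Fg (o3 k k') (h3 X X k k') (zO P k k' t) *
        gas (nA n k) (nA n k') (l / 4) (fld (o3 k k') (zO P k k' t) (true, .A) (X none))
          (fld (o3 k k') (zO P k k' t) (false, .A) (X none)))‖ₑ ≤ _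
  rw [e0, Finset.mul_sum, Finset.mul_sum]
  refine (enorm_sum_le _ _).trans (Finset.sum_le_sum fun τ _ => ?_)
  by_cases hc : (∀ i, τ i ≠ 0 → actO k k' i) ∧ nsat (o3 k k') true τ ≤ nA n k ∧
      nsat (o3 k k') false τ ≤ nA n k'
  · rw [if_pos hc, if_pos hc, ← integral_const_mul, ← integral_const_mul]
    obtain ⟨hτ, -, -⟩ := hc
    refine (enorm_integral_le_lintegral_enorm _).trans (lintegral_mono fun θ => ?_)
    have hf : ∀ s, Hfs (o3 k k') (zO P k k' t) (fun i => P.rad (p + p') (t i))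
        (fun _ => X none) τ θ s = fun z => X none z *
          potG (cW P (p + p') rkS (OO k k' τ t θ)) s z := by
      intro s
      funext z
      rw [field_eq, OO_eq, cW_eq hτ]
    have hw := WW_eq h X hτ t θ
    rw [← OO_eq, ← hW] at hw
    show _ ≤ ENNReal.ofReal (WW (oW X P (p + p') rkS (OO k k' τ t θ))
      (cW P (p + p') rkS (OO k k' τ t θ))) *
      ‖gas (nA n k - nsat (o3 k k') true τ) (nA n k' - nsat (o3 k k') false τ) l
        (fun z => X none z * potG (cW P (p + p') rkS (OO k k' τ t θ)) true z)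
        (fun z => X none z * potG (cW P (p + p') rkS (OO k k' τ t θ)) false z)‖ₑ
    rw [← hw, ← hf true, ← hf false, ofReal_norm, ← enorm_mul]
    refine le_of_eq ?_
    congr 1
    show W * (Fg (o3 k k') (h3 X X k k') (zO P k k' t) *
      (SWf (o3 k k') (zO P k k' t) (fun i => P.rad (p + p') (t i)) (fun _ => X none) τ θ *
        gas (nA n k - nsat (o3 k k') true τ) (nA n k' - nsat (o3 k k') false τ) l
          (Hfs (o3 k k') (zO P k k' t) (fun i => P.rad (p + p') (t i)) (fun _ => X none) τ θ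
            true)
          (Hfs (o3 k k') (zO P k k' t) (fun i => P.rad (p + p') (t i)) (fun _ => X none) τ θ
            false))) = _
    ring
  · rw [if_neg hc, if_neg hc, mul_zero, mul_zero, enorm_zero]

theorem kdO_inj {k k₂ : O3} {τ τ₂ : Fin 3} (h : τ ≠ 0 → k = .S) (h₂ : τ₂ ≠ 0 → k₂ = .S)
    (e : kdO k τ = kdO k₂ τ₂) : k = k₂ ∧ τ = τ₂ := by
  revert h h₂ e
  revert k k₂ τ τ₂
  decide

/-- **The line form for all words of given lengths.** -/
theorem word_sum {P : NUO.Par} (h : GoodP P) {X : Option O3 → ℂ → ℂ}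
    (hX : ∀ k, Measurable (X k)) (hP : Measurable (P.rad (p + p'))) {κ : ℝ} (hκ : 0 < κ)
    (hd : ∀ u : ℂ, l / 4 ≤ u.re → u.re ≤ l → DifferentiableAt ℂ (X none) u)
    (hb : DecOn κ (Icc (l / 4) l) (X none)) (n : ℕ) :
    ∑ k' : Fin p' → O3, ∑ k : Fin p → O3,
      ‖if ∑ i, c3 (k' i) ≤ n ∧ ∑ i, c3 (k i) ≤ n then
        term X X (l / 4) n k k' (lX P p p' k k') (lY P p p' k k') else 0‖ₑ ≤
      ∑ K : Fin p ⊕ Fin p' → Kind,
        ∫⁻ x, FW P X n (p + p') rkS (fun i => ((isl i, K i), x i))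
          ∂(Measure.pi fun _ => (volume : Measure ℝ).prod mu1) := by
  classical
  set f : (Fin p ⊕ Fin p' → Kind) → ℝ≥0∞ := fun K =>
    ∫⁻ x, FW P X n (p + p') rkS (fun i => ((isl i, K i), x i))
      ∂(Measure.pi fun _ => (volume : Measure ℝ).prod mu1) with hf
  set g : (Fin p' → O3) × (Fin p → O3) × (Fin p ⊕ Fin p' → Fin 3) → Fin p ⊕ Fin p' → Kind :=
    fun a i => kdO (Sum.elim a.2.1 a.1 i) (a.2.2 i) with hg
  have h1 : ∀ (k' : Fin p' → O3) (k : Fin p → O3),
      ‖if ∑ i, c3 (k' i) ≤ n ∧ ∑ i, c3 (k i) ≤ n then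
        term X X (l / 4) n k k' (lX P p p' k k') (lY P p p' k k') else 0‖ₑ ≤
      ∑ τ : Fin p ⊕ Fin p' → Fin 3, if ∀ i, τ i ≠ 0 → actO k k' i then f (g (k', k, τ)) else 0 := by
    intro k' k
    split_ifs with hc
    · rw [← Finset.sum_filter]
      exact word_term h hX hP hκ hd hb hc.2 hc.1
    · rw [enorm_zero]
      exact zero_le
  refine (Finset.sum_le_sum fun k' _ => Finset.sum_le_sum fun k _ => h1 k' k).trans ?_
  have h2 : ∑ k' : Fin p' → O3, ∑ k : Fin p → O3, ∑ τ : Fin p ⊕ Fin p' → Fin 3,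
      (if ∀ i, τ i ≠ 0 → actO k k' i then f (g (k', k, τ)) else 0) =
      ∑ a : (Fin p' → O3) × (Fin p → O3) × (Fin p ⊕ Fin p' → Fin 3),
        if ∀ i, a.2.2 i ≠ 0 → actO a.2.1 a.1 i then f (g a) else 0 := by
    rw [Fintype.sum_prod_type]
    refine Finset.sum_congr rfl fun k' _ => ?_
    rw [Fintype.sum_prod_type]
  rw [h2, ← Finset.sum_filter, ← Finset.sum_image (g := g) (f := f)]
  · exact Finset.sum_le_sum_of_subset (Finset.subset_univ _)
  · intro a ha b hb hab
    have ha := (Finset.mem_filter.1 ha).2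
    have hb := (Finset.mem_filter.1 hb).2
    have key : ∀ i, Sum.elim a.2.1 a.1 i = Sum.elim b.2.1 b.1 i ∧ a.2.2 i = b.2.2 i := by
      intro i
      refine kdO_inj (fun hi => ?_) (fun hi => ?_) (congrFun hab i)
      · have := ha i hi
        rcases i with i | i <;> exact this
      · have := hb i hi
        rcases i with i | i <;> exact this
    refine Prod.ext ?_ (Prod.ext ?_ ?_)
    · funext i
      exact (key (Sum.inr i)).1
    · funext i
      exact (key (Sum.inl i)).1
    · funext i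
      exact (key i).2

end word

end NUP1S

end
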