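import Pool.Agent.NUP1S.Simple3
import Pool.Agent.NUP1S.ConfP

/-!
# The line form of one word: two different species, total charge, simple poles of the spectators

`X s none` = one body function of a quantum of species `s` (and of the satellites of species `s`),
`X s (some k)` = one body function of an object of kind `k` and species `s`.  Start line `x0`,
final line `l`.  `word_keyX` : `X s none = GX es ep Gr s` with simple poles `ep`; `word_keyQ`: no
simple poles.
-/

set_option autoImplicit false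
set_option linter.unusedSectionVars false

noncomputable section

open Complex MeasureTheory NUP1 Set Filter Topology
open scoped Real ENNReal

namespace NUP1S

open NUP1.Bd (cwz pwz qg chg sin_pos_of Ob wt)
open Ab (Part ppC potG WW ppC_single ppC_cons PU_two PU_mul PU_congr)
open NUO (Xo Kind kd ht an posL posT posS posV parts aS)

/-- one body functions seen by an object of species `s`: its own ones for the object, the ones of
the quanta of the other species for its satellites -/
def mixX (X : Bool → Option O3 → ℂ → ℂ) (s : Bool) : Option O3 → ℂ → ℂ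
  | none => X (!s) none
  | some k => X s (some k)

/-- modulus of the one body weight of an object, one body functions depending on the species -/
def obQ (X : Bool → Option O3 → ℂ → ℂ) (jL e ρ : ℝ) (x : Xo) : ℝ :=
  obX (mixX X x.1.1) jL e ρ x

theorem measurable_mixX {X : Bool → Option O3 → ℂ → ℂ} (hX : ∀ s k, Measurable (X s k)) (s : Bool) :
    ∀ k, Measurable (mixX X s k)
  | none => hX _ _
  | some _ => hX _ _

theorem measurable_obQ {Y : Type*} [MeasurableSpace Y] {X : Bool → Option O3 → ℂ → ℂ}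
    (hX : ∀ s k, Measurable (X s k)) (jL e : ℝ) (k : Bool × Kind)
    {t a ρ : Y → ℝ} (ht : Measurable t) (ha : Measurable a) (hρ : Measurable ρ) :
    Measurable fun y => obQ X jL e (ρ y) (k, (t y, a y)) :=
  measurable_obX (measurable_mixX hX k.1) jL e k ht ha hρ

/-- conditions on the parameters, start line `x0` -/
structure GoodQ (P : NUO.Par) (x0 : ℝ) : Prop extends GoodP P where
  xp : 0 < x0
  xl : ∀ r, x0 < (1 - (P.e + 9 / 8 * P.d r)) * l

section host
variable {p p' : ℕ}

theorem GoodQ.rad {P : NUO.Par} {x0 : ℝ} (h : GoodQ P x0) (r : ℕ) (t : ℝ) :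
    P.rad r t ≤ l * P.d r / 8 := by
  have hl := Bd.l_pos
  have h4 := h.d0 r
  refine (h.r1 r t).trans ?_
  rw [div_le_div_iff₀ (by positivity) (by norm_num)]
  have hr : (0 : ℝ) ≤ r := Nat.cast_nonneg _
  nlinarith [mul_pos hl h4, mul_nonneg (mul_pos hl h4).le hr]

/-- **The lines of `NUO.Obj` are admissible**, start line `x0`. -/
theorem host_Q {P : NUO.Par} {x0 : ℝ} (h : GoodQ P x0) (k : Fin p → O3) (k' : Fin p' → O3)
    (t : Fin p ⊕ Fin p' → ℝ) :
    Host (o3 k k') (pos (Sum.elim (lX P p p' k k') (lY P p p' k k')) t)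
      (fun i => P.rad (p + p') (t i)) (actO k k') x0 l := by
  have hl := Bd.l_pos
  have hx0 := h.xp
  have hx1 := h.xl (p + p')
  have hx1' : x0 < l := by
    have h1 := h.e1
    have h2 := h.d0 (p + p')
    nlinarith
  have hS : ∀ i, actO k k' i → Sum.elim (lX P p p' k k') (lY P p p' k k') i =
      lnO P (p + p') (rkS i) .S := by
    intro i hi
    rw [line_eq]
    rcases i with i | i
    · have : k i = .S := hi
      show lnO P (p + p') _ (k i) = _
      rw [this]
    · have : k' i = .S := hi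
      show lnO P (p + p') _ (k' i) = _
      rw [this]
  have hS' : ∀ i : Fin p ⊕ Fin p', -((1 + (P.e + P.d (p + p'))) * l) ≤
      lnO P (p + p') (rkS i) .S ∧ lnO P (p + p') (rkS i) .S ≤ -(11 / 10 * l) := by
    intro i
    obtain ⟨h1, h2⟩ := h.toGoodP.shift (rkS_lt i)
    have h3 : ((rkS i : ℕ) : ℝ) / ((p + p' : ℕ) : ℝ) ≤ 1 := by
      have hr : (0 : ℝ) < ((p + p' : ℕ) : ℝ) := by
        exact_mod_cast (Nat.zero_le _).trans_lt (rkS_lt i)
      rw [div_le_one hr]
      exact_mod_cast (rkS_lt i).le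
    have h4 := h.d0 (p + p')
    have h5 := mul_le_mul_of_nonneg_left h3 h4.le
    show -((1 + (P.e + P.d (p + p'))) * l) ≤
      -((1 + (P.e + P.d (p + p') * ((rkS i : ℕ) / ((p + p' : ℕ) : ℝ)))) * l) ∧
      -((1 + (P.e + P.d (p + p') * ((rkS i : ℕ) / ((p + p' : ℕ) : ℝ)))) * l) ≤ _
    constructor <;> nlinarith
  refine ⟨by linarith, by linarith, ?_, fun i _ => h.r0 _ _, ?_, ?_, ?_, ?_⟩
  · rintro (i | i) hi
    · have : k i = .S := hi
      show ob3 (k i) = _
      rw [this]
      rfl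
    · have : k' i = .S := hi
      show ob3 (k' i) = _
      rw [this]
      rfl
  · intro i hi
    rw [pos_re, hS i hi]
    have := (hS' i).1
    have := h.rad (p + p') (t i)
    nlinarith
  · intro i hi
    rw [pos_re, hS i hi]
    have := (hS' i).2
    have := rad_bound h.toGoodP (p + p') (t i)
    linarith
  · intro i j hi hj hne hsp
    rw [pos_re, pos_re, hS i hi, hS j hj]
    refine rad_sep h.toGoodP (rkS_lt i) (fun hr => hne ?_) _ _
    rcases i with i | i <;> rcases j with j | j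
    · exact congrArg Sum.inl (Fin.ext hr)
    · exact absurd hsp (by simp [o3, oo])
    · exact absurd hsp (by simp [o3, oo])
    · exact congrArg Sum.inr (Fin.ext hr)
  · intro i hi s v hv
    rw [pos_re, line_eq]
    have hjl1 := h.j1
    have hjl2 := h.j2
    have key : ∀ (c : Bool) (ki : O3), ki ≠ .S → ∀ n : ℕ,
        Ok (s, .A) (c, ob3 ki) (v - lnO P (p + p') n ki) := by
      intro c ki hki n
      refine Ok_of_RO ?_
      unfold RO
      have hv1 := hv.1
      have hv2 := hv.2
      cases ki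
      · -- L
        have a1 : (1 - P.jL) * l < -l := by nlinarith
        have a2 : -(2 * l) < (1 - P.jL) * l := by nlinarith
        show if s = c then (|v - (1 - P.jL) * l| < l ∨ (l < |v - (1 - P.jL) * l| ∧
          |v - (1 - P.jL) * l| < 7 * l)) else
          -(3 * l) < v - (1 - P.jL) * l ∧ v - (1 - P.jL) * l < 3 * l
        have a3 : 0 < v - (1 - P.jL) * l := by linarith
        rw [abs_of_pos a3]
        split_ifs
        · right
          constructor <;> linarith
        · constructor <;> linarith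
      · exact absurd rfl hki
      · -- T
        show if s = c then True else
          -(3 * l) < v - -(1 / 2 * l) ∧ v - -(1 / 2 * l) < 2 * l
        split_ifs
        constructor <;> linarith
    rcases i with i | i
    · exact key true (k i) (fun h => hi h) _
    · exact key false (k' i) (fun h => hi h) _

/-- total charge -/
theorem neutral_Q {n n' : ℕ} {k : Fin p → O3} {k' : Fin p' → O3} (h : ∑ i, c3 (k i) ≤ n)
    (h' : ∑ i, c3 (k' i) ≤ n') {q0 : ℤ} (hq : (n : ℤ) - n' = q0) :
    ((nA n k : ℕ) : ℝ) - (nA n' k' : ℕ) + ∑ b, sc (o3 k k' b) = q0 := by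
  rw [Fintype.sum_sum_type, ← hq]
  have e1 : ∑ i, sc (o3 k k' (Sum.inl i)) = ((∑ i, c3 (k i) : ℕ) : ℝ) := by
    push_cast
    rfl
  have e2 : ∑ i, sc (o3 k k' (Sum.inr i)) = -((∑ i, c3 (k' i) : ℕ) : ℝ) := by
    push_cast
    rw [← Finset.sum_neg_distrib]
    rfl
  rw [e1, e2]
  unfold nA
  push_cast [h, h']
  ring

theorem WW_eqQ {P : NUO.Par} (h : GoodP P) (X : Bool → Option O3 → ℂ → ℂ) {k : Fin p → O3}
    {k' : Fin p' → O3} {τ : Fin p ⊕ Fin p' → Fin 3} (hτ : ∀ i, τ i ≠ 0 → actO k k' i)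
    (t θ : Fin p ⊕ Fin p' → ℝ) :
    ‖(∏ i, wt (ob3 (k i))) * (∏ i, wt (ob3 (k' i))) *
      (Fg (o3 k k') (h3 (X true) (X false) k k') (zO P k k' t) *
      SWf (o3 k k') (zO P k k' t) (fun i => P.rad (p + p') (t i)) (fun s => X s none) τ θ)‖ =
    WW (fun i => obQ X P.jL (elO P i) (P.rad (p + p') (t i)) (OO k k' τ t θ i))
      (fun i => parts P.jL (elO P i) (P.rad (p + p') (t i)) (OO k k' τ t θ i)) := by
  have hc : (fun i => parts P.jL (elO P i) (P.rad (p + p') (t i)) (OO k k' τ t θ i)) =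
      cc (o3 k k') (zO P k k' t) (fun i => P.rad (p + p') (t i)) τ θ := by
    rw [OO_eq]
    exact cW_eq hτ t θ
  rw [norm_mul, norm_weight, hc]
  unfold WW
  rw [← mul_assoc]
  congr 1
  have e1 : (∏ i, wt (ob3 (k i))) * (∏ i, wt (ob3 (k' i))) =
      ∏ i, wt (ob3 (Sum.elim k k' i)) := by
    rw [Fintype.prod_sum_type]
    rfl
  rw [e1, norm_prod, ← Finset.prod_mul_distrib]
  refine Finset.prod_congr rfl fun i _ => ?_
  rw [← norm_mul, OO_eq]
  have e2 : h3 (X true) (X false) k k' i (zO P k k' t i) =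
      mixX X (isl i) (some (Sum.elim k k' i)) (zO P k k' t i) := by
    rcases i with i | i <;> rfl
  rw [e2]
  refine obX_eq (mixX X (isl i)) (n := rkS) (t := t) (s := isl i) rfl (h.r0 _ _).le
    (fun hi => ?_) ?_ ?_
  · rcases i with i | i <;> exact hτ _ hi
  · rcases i with i | i <;> rfl
  · rcases i with i | i <;> rfl

end host

/-- **One word, one vector of heights**: `U` = extra finite sum (quanta at the simple poles), `c`
weights, `m`, `m'` numbers of quanta X, Y at the simple poles, `Y` one body functions in their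
presence. -/
def WordAt {U : Type*} [Fintype U] (x0 : ℝ) (X : Bool → Option O3 → ℂ → ℂ) (P : NUO.Par)
    (n n' : ℕ) (c : U → ℝ≥0∞) (m m' : U → ℕ) (Y : U → Bool → Option O3 → ℂ → ℂ) {p p' : ℕ}
    (k : Fin p → O3) (k' : Fin p' → O3) (t : Fin p ⊕ Fin p' → ℝ) : Prop :=
    ‖((∏ i, wt (ob3 (k i))) * (∏ i, wt (ob3 (k' i)))) *
      (Fg (o3 k k') (h3 (X true) (X false) k k')
          (pos (Sum.elim (lX P p p' k k') (lY P p p' k k')) t) *
        gas (nA n k) (nA n' k') x0
          (fld (o3 k k') (pos (Sum.elim (lX P p p' k k') (lY P p p' k k')) t) (true, .A)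
            (X true none))
          (fld (o3 k k') (pos (Sum.elim (lX P p p' k k') (lY P p p' k k')) t) (false, .A)
            (X false none)))‖ₑ ≤
    ∑ u : U, c u * ∑ τ : Fin p ⊕ Fin p' → Fin 3,
      if (∀ i, τ i ≠ 0 → actO k k' i) ∧ nsat (o3 k k') true τ + m u ≤ nA n k ∧
        nsat (o3 k k') false τ + m' u ≤ nA n' k' then
        ∫⁻ θ : Fin p ⊕ Fin p' → ℝ,
          ENNReal.ofReal (WW (fun i => obQ (Y u) P.jL (elO P i) (P.rad (p + p') (t i))
              (OO k k' τ t θ i))
            (fun i => parts P.jL (elO P i) (P.rad (p + p') (t i)) (OO k k' τ t θ i))) *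
          ‖gas (nA n k - (nsat (o3 k k') true τ + m u))
            (nA n' k' - (nsat (o3 k k') false τ + m' u)) l
            (fun z => Y u true none z * potG (fun i => parts P.jL (elO P i)
              (P.rad (p + p') (t i)) (OO k k' τ t θ i)) true z)
            (fun z => Y u false none z * potG (fun i => parts P.jL (elO P i)
              (P.rad (p + p') (t i)) (OO k k' τ t θ i)) false z)‖ₑ
          ∂(Measure.pi fun _ => volume.restrict (Ioc (0 : ℝ) 1))
      else 0

/-- all words, all heights -/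
def WordLeQ {U : Type*} [Fintype U] (x0 : ℝ) (X : Bool → Option O3 → ℂ → ℂ) (P : NUO.Par)
    (n n' : ℕ) (c : U → ℝ≥0∞) (m m' : U → ℕ) (Y : U → Bool → Option O3 → ℂ → ℂ) : Prop :=
  ∀ (p p' : ℕ) (k : Fin p → O3) (k' : Fin p' → O3), ∑ i, c3 (k i) ≤ n → ∑ i, c3 (k' i) ≤ n' →
    ∀ t : Fin p ⊕ Fin p' → ℝ, WordAt x0 X P n n' c m m' Y k k' t

section key
variable {ε : Type*} [Fintype ε] [DecidableEq ε]

/-- one body functions in the presence of the quanta at the simple poles -/
def XU (X : Bool → Option O3 → ℂ → ℂ) (es : ε → Bool) (ep : ε → ℂ) (υ : ε → Fin 3) (s : Bool) :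
    Option O3 → ℂ → ℂ
  | none => fun u => X s none u * ∏ j, PP s (es j) (u - ep j) ^ (υ j : ℕ)
  | some k => fun w => X s (some k) w * oE es ep υ (s, ob3 k) w

theorem measurable_XU {X : Bool → Option O3 → ℂ → ℂ} (hX : ∀ s k, Measurable (X s k))
    (es : ε → Bool) (ep : ε → ℂ) (υ : ε → Fin 3) (s : Bool) : ∀ k, Measurable (XU X es ep υ s k)
  | none => (hX s none).mul (Finset.measurable_prod _ fun j _ =>
      (((measurable_PP s (es j)).comp (measurable_id.sub_const _)).pow_const _))
  | some k => (hX s (some k)).mul (Finset.measurable_prod _ fun j _ =>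
      (((measurable_gz (es j, .A) (s, ob3 k)).comp (measurable_const.sub measurable_id)).pow_const
        _))

/-- **One word, one vector of heights, simple poles.** -/
theorem word_ptX {P : NUO.Par} {x0 : ℝ} (h : GoodQ P x0) {X : Bool → Option O3 → ℂ → ℂ}
    {es : ε → Bool} {ep : ε → ℂ} {Gr : Bool → ℂ → ℂ} (hX0 : ∀ s, X s none = GX es ep Gr s)
    {κ : ℝ} (hκ : 0 < κ) {n n' : ℕ} {q0 : ℤ} (hq : (n : ℤ) - n' = q0)
    (hm : ∀ s, Measurable (Gr s))
    (hd : ∀ s, ∀ u : ℂ, x0 ≤ u.re → u.re ≤ l → DifferentiableAt ℂ (Gr s) u)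
    (hb : ∀ s, DecOn (κ + 2 * (sg s * q0 : ℤ) - cE es s) (Icc x0 l) (Gr s))
    (hx : ∀ j, x0 < (ep j).re ∧ (ep j).re < l)
    (hxx : ∀ j k, j ≠ k → es j = es k → (ep j).re ≠ (ep k).re) {p p' : ℕ}
    {k : Fin p → O3} {k' : Fin p' → O3} (hk : ∑ i, c3 (k i) ≤ n) (hk' : ∑ i, c3 (k' i) ≤ n')
    {t : Fin p ⊕ Fin p' → ℝ}
    (hsep : ∀ i j, actO k k' i → (o3 k k' i).1 ≠ es j → P.rad (p + p') (t i) <
      |(zO P k k' t i).re + 2 * l - (ep j).re|) :
    WordAt x0 X P n n' (fun υ : ε → Fin 3 => if ∀ j, υ j ≠ 2 then ‖wE es ep υ Gr‖ₑ else 0)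
      (nE es true) (nE es false) (XU X es ep) k k' t := by
  set W : ℂ := (∏ i, wt (ob3 (k i))) * (∏ i, wt (ob3 (k' i))) with hW
  have hH := host_Q h k k' t
  have hHX : HostX (o3 k k') (zO P k k' t) (fun i => P.rad (p + p') (t i)) (actO k k') es ep
      x0 l := ⟨hH, fun j => (hx j).1, fun j => (hx j).2, hsep, hxx⟩
  have ex := hHX.exact hκ q0 hm hd hb (nA n k) (nA n' k') (neutral_Q hk hk' hq)
  have e0 : gas (nA n k) (nA n' k') x0 (fld (o3 k k') (zO P k k' t) (true, .A) (X true none))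
      (fld (o3 k k') (zO P k k' t) (false, .A) (X false none)) =
      gas (nA n k) (nA n' k') x0 (Hf0 (o3 k k') (zO P k k' t) (GX es ep Gr) true)
        (Hf0 (o3 k k') (zO P k k' t) (GX es ep Gr) false) := by
    rw [hX0, hX0]
    rfl
  show ‖W * (Fg (o3 k k') (h3 (X true) (X false) k k') (zO P k k' t) *
        gas (nA n k) (nA n' k') x0 (fld (o3 k k') (zO P k k' t) (true, .A) (X true none))
          (fld (o3 k k') (zO P k k' t) (false, .A) (X false none)))‖ₑ ≤ _
  rw [e0, ex, Finset.mul_sum, Finset.mul_sum]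
  refine (enorm_sum_le _ _).trans (Finset.sum_le_sum fun υ _ => ?_)
  rw [Finset.mul_sum, Finset.mul_sum, Finset.mul_sum]
  refine (enorm_sum_le _ _).trans (Finset.sum_le_sum fun τ _ => ?_)
  set G := GU es ep υ (GX es ep Gr) with hGd
  have hG : G = fun s => XU X es ep υ s none := by
    funext s u
    show GX es ep Gr s u * _ = X s none u * _
    rw [hX0]
  by_cases hc : (∀ j, υ j ≠ 2) ∧ (∀ i, τ i ≠ 0 → actO k k' i) ∧
      nsat (o3 k k') true τ + nE es true υ ≤ nA n k ∧
      nsat (o3 k k') false τ + nE es false υ ≤ nA n' k'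
  · have ecw : (fun υ : ε → Fin 3 => if ∀ j, υ j ≠ 2 then ‖wE es ep υ Gr‖ₑ else 0) υ =
        ‖wE es ep υ Gr‖ₑ := if_pos hc.1
    rw [if_pos hc, if_pos hc.2, ecw]
    obtain ⟨-, hτ, -, -⟩ := hc
    have e1 : ∀ I : ℂ, W * (Fg (o3 k k') (h3 (X true) (X false) k k') (zO P k k' t) *
        ((wE es ep υ Gr * ∏ b, oE es ep υ (o3 k k' b) (zO P k k' t b)) * I)) =
        wE es ep υ Gr * (W * (Fg (o3 k k') (h3 (XU X es ep υ true) (XU X es ep υ false) k k')
          (zO P k k' t) * I)) := by
      intro I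
      have e2 : Fg (o3 k k') (h3 (XU X es ep υ true) (XU X es ep υ false) k k') (zO P k k' t) =
          Fg (o3 k k') (h3 (X true) (X false) k k') (zO P k k' t) *
            ∏ b, oE es ep υ (o3 k k' b) (zO P k k' t b) := by
        rw [Fg_oE]
        unfold Fg
        congr 1
        refine Finset.prod_congr rfl fun i _ => ?_
        rcases i with i | i <;> rfl
      rw [e2]
      ring
    rw [e1, enorm_mul]
    refine mul_le_mul_right (a := ‖wE es ep υ Gr‖ₑ) ?_
    rw [← integral_const_mul, ← integral_const_mul]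
    refine (enorm_integral_le_lintegral_enorm _).trans (lintegral_mono fun θ => ?_)
    have hcW : cc (o3 k k') (zO P k k' t) (fun i => P.rad (p + p') (t i)) τ θ =
        fun i => parts P.jL (elO P i) (P.rad (p + p') (t i)) (OO k k' τ t θ i) := by
      rw [OO_eq]
      exact (cW_eq hτ t θ).symm
    have hf : ∀ s, Hfs (o3 k k') (zO P k k' t) (fun i => P.rad (p + p') (t i)) G τ θ s =
        fun z => XU X es ep υ s none z *
          potG (fun i => parts P.jL (elO P i) (P.rad (p + p') (t i)) (OO k k' τ t θ i)) s z := by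
      intro s
      funext z
      rw [field_eq, hcW, hG]
    have hw := WW_eqQ h.toGoodP (XU X es ep υ) hτ t θ
    rw [← hW, ← hG] at hw
    rw [← hw, ← hf true, ← hf false, ofReal_norm, ← enorm_mul]
    refine le_of_eq ?_
    congr 1
    ring
  · rw [if_neg hc, mul_zero, mul_zero, enorm_zero]
    exact zero_le

/-- real part of a string `S` of a word -/
theorem zO_S {P : NUO.Par} {p p' : ℕ} {k : Fin p → O3} {k' : Fin p' → O3}
    (t : Fin p ⊕ Fin p' → ℝ) {i : Fin p ⊕ Fin p'} (hi : actO k k' i) :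
    (zO P k k' t i).re = lnO P (p + p') (rkS i) .S := by
  show (pos _ t i).re = _
  rw [pos_re, line_eq]
  rcases i with i | i
  · have : k i = .S := hi
    show lnO P (p + p') _ (k i) = _
    rw [this]
  · have : k' i = .S := hi
    show lnO P (p + p') _ (k' i) = _
    rw [this]

/-- **All words, simple poles.** -/
theorem word_keyX {P : NUO.Par} {x0 : ℝ} (h : GoodQ P x0) {X : Bool → Option O3 → ℂ → ℂ}
    {es : ε → Bool} {ep : ε → ℂ} {Gr : Bool → ℂ → ℂ} (hX0 : ∀ s, X s none = GX es ep Gr s)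
    {κ : ℝ} (hκ : 0 < κ) {n n' : ℕ} {q0 : ℤ} (hq : (n : ℤ) - n' = q0)
    (hm : ∀ s, Measurable (Gr s))
    (hd : ∀ s, ∀ u : ℂ, x0 ≤ u.re → u.re ≤ l → DifferentiableAt ℂ (Gr s) u)
    (hb : ∀ s, DecOn (κ + 2 * (sg s * q0 : ℤ) - cE es s) (Icc x0 l) (Gr s))
    (hx : ∀ j, x0 < (ep j).re ∧ (ep j).re < l)
    (hsep : ∀ r i, i < r → ∀ j, l * P.d r / (8 * (r + 1)) <
      |lnO P r i .S + 2 * l - (ep j).re|)
    (hxx : ∀ j k, j ≠ k → es j = es k → (ep j).re ≠ (ep k).re) :
    WordLeQ x0 X P n n' (fun υ : ε → Fin 3 => if ∀ j, υ j ≠ 2 then ‖wE es ep υ Gr‖ₑ else 0)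
      (nE es true) (nE es false) (XU X es ep) := by
  intro p p' k k' hk hk' t
  refine word_ptX h hX0 hκ hq hm hd hb hx hxx hk hk' fun i j hi _ => ?_
  rw [zO_S t hi]
  exact (h.r1 _ _).trans_lt (hsep _ _ (rkS_lt i) j)

/-- **One word, one vector of heights**, no simple poles. -/
theorem word_ptQ {P : NUO.Par} {x0 : ℝ} (h : GoodQ P x0) {X : Bool → Option O3 → ℂ → ℂ}
    {κ : ℝ} (hκ : 0 < κ) {n n' : ℕ} {q0 : ℤ} (hq : (n : ℤ) - n' = q0)
    (hm : ∀ s, Measurable (X s none))
    (hd : ∀ s, ∀ u : ℂ, x0 ≤ u.re → u.re ≤ l → DifferentiableAt ℂ (X s none) u)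
    (hb : ∀ s, DecOn (κ + 2 * (sg s * q0 : ℤ)) (Icc x0 l) (X s none)) {p p' : ℕ}
    {k : Fin p → O3} {k' : Fin p' → O3} (hk : ∑ i, c3 (k i) ≤ n) (hk' : ∑ i, c3 (k' i) ≤ n')
    (t : Fin p ⊕ Fin p' → ℝ) :
    WordAt (U := Unit) x0 X P n n' (fun _ => 1) (fun _ => 0) (fun _ => 0) (fun _ => X) k k' t := by
  have h1 := word_ptX (ε := Fin 0) h (X := X) (es := Fin.elim0) (ep := Fin.elim0)
    (Gr := fun s => X s none) (fun s => by
      funext u
      show X s none u = X s none u / dX _ _ s u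
      unfold dX
      rw [Fintype.prod_empty, _root_.div_one]) hκ hq hm hd (fun s => by
      have : cE (ε := Fin 0) Fin.elim0 s = 0 := by
        unfold cE
        rw [Fintype.sum_empty]
      rw [this, sub_zero]
      exact hb s) (fun j => j.elim0) (fun j => j.elim0) hk hk' (t := t) (fun _ j => j.elim0)
  refine h1.trans (le_of_eq ?_)
  rw [Fintype.sum_unique (ι := Fin 0 → Fin 3), Fintype.sum_unique (ι := Unit)]
  have e1 : ∀ υ, (XU X (Fin.elim0 : Fin 0 → Bool) (Fin.elim0 : Fin 0 → ℂ) υ) = X := by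
    intro υ
    funext s k
    cases k
    · funext u
      show X s none u * ∏ j : Fin 0, _ = _
      rw [Fintype.prod_empty, mul_one]
    · funext u
      show X s _ u * oE _ _ _ _ u = _
      unfold oE
      rw [Fintype.prod_empty, mul_one]
  have e2 : ∀ s υ, nE (ε := Fin 0) Fin.elim0 s υ = 0 := fun s υ => by
    unfold nE
    exact Finset.sum_eq_zero fun j _ => j.elim0
  have e3 : ∀ υ, wE (ε := Fin 0) Fin.elim0 Fin.elim0 υ (fun s => X s none) = 1 := by
    intro υ
    unfold wE
    rw [Fintype.prod_empty, one_mul]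
    exact (PU_fin (fun a => a.elim0)).trans (Grand.P_zero _)
  beta_reduce
  simp only [e1, e2]
  rw [if_pos fun j => j.elim0, e3, enorm_one]

/-- **All words**, no simple poles. -/
theorem word_keyQ {P : NUO.Par} {x0 : ℝ} (h : GoodQ P x0) {X : Bool → Option O3 → ℂ → ℂ}
    {κ : ℝ} (hκ : 0 < κ) {n n' : ℕ} {q0 : ℤ} (hq : (n : ℤ) - n' = q0)
    (hm : ∀ s, Measurable (X s none))
    (hd : ∀ s, ∀ u : ℂ, x0 ≤ u.re → u.re ≤ l → DifferentiableAt ℂ (X s none) u)
    (hb : ∀ s, DecOn (κ + 2 * (sg s * q0 : ℤ)) (Icc x0 l) (X s none)) :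
    WordLeQ (U := Unit) x0 X P n n' (fun _ => 1) (fun _ => 0) (fun _ => 0) (fun _ => X) :=
  fun _ _ _ _ hk hk' t => word_ptQ h hκ hq hm hd hb hk hk' t

end key

end NUP1S

end
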