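import Pool.Agent.NUP1S.AbsG
import Pool.Agent.NUP1S.WordC
import Pool.Agent.NUO.MeasGas

/-!
# Functionals for the line form: extra finite sums and marked objects

`trm` = weight of a family of objects times the modulus of the gas of the other quanta in its
field; `Fn.word` = sum over `u : U` of `c u * trm (Y u)` (form of `WordLeQ`); `Fn.mark` = sum over a
marked object `i0` of the same with `c`, `Y` depending on the position `posS e t + 2 l` of the
spectator bound to `i0`.
-/

set_option autoImplicit false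
set_option linter.unusedSectionVars false

noncomputable section

open Complex MeasureTheory Finset
open scoped ENNReal

namespace NUP1S.AbG

open NUP1 NUO NUP1S.Mg NUP1S.Ab NURow

/-- the constituents -/
def pa (jL : ℝ) {ι : Type} (a : ι → ℝ × ℝ × Xo) (i : ι) : List Part :=
  parts jL (a i).1 (a i).2.1 (a i).2.2

/-- the number of quanta of species `s` -/
def qa {ι : Type} [Fintype ι] (a : ι → ℝ × ℝ × Xo) (s : Bool) : ℕ := ∑ i, chg s (a i).2.2

/-- the weight of a family of objects and of the gas of the other quanta on `Re u = y` -/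
def trm (X : Bool → Option O3 → ℂ → ℂ) (jL y : ℝ) (n n' m m' : ℕ) {ι : Type} [Fintype ι]
    (a : ι → ℝ × ℝ × Xo) : ℝ≥0∞ :=
  if qa a true + m ≤ n ∧ qa a false + m' ≤ n' then
    ENNReal.ofReal (WW (fun i => obQ X jL (a i).1 (a i).2.1 (a i).2.2) (pa jL a)) *
      ‖gas (n - (qa a true + m)) (n' - (qa a false + m')) y
        (fun z => X true none z * potG (pa jL a) true z)
        (fun z => X false none z * potG (pa jL a) false z)‖ₑ
  else 0

theorem trm_equiv (X : Bool → Option O3 → ℂ → ℂ) (jL y : ℝ) (n n' m m' : ℕ) {ι ι' : Type}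
    [Fintype ι] [Fintype ι'] (e : ι ≃ ι') (a : ι' → ℝ × ℝ × Xo) :
    trm X jL y n n' m m' (fun i => a (e i)) = trm X jL y n n' m m' a := by
  have h1 : ∀ s, qa (fun i => a (e i)) s = qa a s := fun s =>
    e.sum_comp fun i => chg s (a i).2.2
  have h2 : ∀ s z, potG (pa jL fun i => a (e i)) s z = potG (pa jL a) s z := fun s z =>
    potG_equiv e (pa jL a) s z
  have h3 : WW (fun i => obQ X jL (a (e i)).1 (a (e i)).2.1 (a (e i)).2.2)
      (pa jL fun i => a (e i)) = WW (fun i => obQ X jL (a i).1 (a i).2.1 (a i).2.2) (pa jL a) :=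
    WW_equiv e (fun i => obQ X jL (a i).1 (a i).2.1 (a i).2.2) (pa jL a)
  unfold trm
  simp only [h1, h2, h3]

/-! ### measurability with parameters -/

section meas

variable {Ω : Type} [MeasurableSpace Ω]

theorem measurable_obXp {X : Ω → Option O3 → ℂ → ℂ}
    (hX : ∀ k, Measurable fun q : Ω × ℂ => X q.1 k q.2) (jL e : ℝ) (k : Bool × Kind)
    {t a ρ : Ω → ℝ} (ht : Measurable t) (ha : Measurable a) (hρ : Measurable ρ) :
    Measurable fun y => obX (X y) jL e (ρ y) (k, (t y, a y)) := by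
  obtain ⟨s, k⟩ := k
  have hS : Measurable fun y => posS e (t y) := NUO.measurable_vl ht _
  have hS' : Measurable fun y => posS e (t y) + 2 * l := hS.add_const _
  have hV : Measurable fun y => posV e (ρ y) (t y) (a y) := NUO.measurable_posV ht ha hρ e
  have hL : Measurable fun y => posL jL (t y) := NUO.measurable_vl ht _
  have hT : Measurable fun y => posT (t y) := NUO.measurable_vl ht _
  have hc : ∀ (k : Option O3) {f : Ω → ℂ}, Measurable f → Measurable fun y => ‖X y k (f y)‖ :=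
    fun k f hf => ((hX k).comp (measurable_id.prodMk hf)).norm
  cases k
  · exact (hc (some .L) hL).const_mul _
  · exact (hc (some .T) hT).const_mul _
  · exact (hc (some .S) hS).const_mul _
  · have h0 : Measurable fun y => aS * ‖X y (some .S) (posS e (t y))‖ :=
      (hc (some .S) hS).const_mul _
    have h1 := hc none hV
    have h2 : Measurable fun y => ‖Kn.cz false true (posV e (ρ y) (t y) (a y) -
        posS e (t y))‖ := ((NUO.measurable_cz false true).comp (hV.sub hS)).norm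
    exact h0.mul ((hρ.mul h1).mul h2)
  · have h0 : Measurable fun y => aS * ‖X y (some .S) (posS e (t y))‖ :=
      (hc (some .S) hS).const_mul _
    have h1 := hc none hS'
    exact h0.mul (((h1.div_const _).pow_const 2).const_mul _)

theorem measurable_obQp {X : Ω → Bool → Option O3 → ℂ → ℂ}
    (hX : ∀ s k, Measurable fun q : Ω × ℂ => X q.1 s k q.2) (jL e : ℝ) (k : Bool × Kind)
    {t a ρ : Ω → ℝ} (ht : Measurable t) (ha : Measurable a) (hρ : Measurable ρ) :
    Measurable fun y => obQ (X y) jL e (ρ y) (k, (t y, a y)) := by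
  refine measurable_obXp (X := fun y => mixX (X y) k.1) (fun j => ?_) jL e k ht ha hρ
  cases j with
  | none => exact hX _ none
  | some j => exact hX _ (some j)

variable {r : ℕ}

theorem measurable_trm {X : Ω → Bool → Option O3 → ℂ → ℂ}
    (hX : ∀ s k, Measurable fun q : Ω × ℂ => X q.1 s k q.2) (jL y : ℝ) (n n' m m' : ℕ)
    (e : Fin r → ℝ) (K : Fin r → Bool × Kind) {t a ρ : Fin r → Ω → ℝ}
    (ht : ∀ i, Measurable (t i)) (ha : ∀ i, Measurable (a i)) (hρ : ∀ i, Measurable (ρ i)) :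
    Measurable fun ω : Ω => trm (X ω) jL y n n' m m'
      fun i => (e i, ρ i ω, (K i, (t i ω, a i ω))) := by
  have hq : ∀ ω s, qa (fun i => ((e i, ρ i ω, (K i, (t i ω, a i ω))) : ℝ × ℝ × Xo)) s =
      ∑ i, chg s (K i, ((0 : ℝ), (0 : ℝ))) := fun ω s => rfl
  have hL : ∀ i, ∃ L : List (Bool × Bool × (Ω → ℂ)), (∀ p ∈ L, Measurable p.2.2) ∧
      ∀ ω, parts jL (e i) (ρ i ω) (K i, (t i ω, a i ω)) = evl L ω := fun i =>
    exists_evl (K i) (ht i) (ha i) (hρ i) jL (e i)
  choose L hLm hLe using hL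
  have hpa : ∀ ω, pa jL (fun i => ((e i, ρ i ω, (K i, (t i ω, a i ω))) : ℝ × ℝ × Xo)) =
      fun i => evl (L i) ω := fun ω => funext fun i => hLe i ω
  have hWW : Measurable fun ω => WW (fun i => obQ (X ω) jL (e i) (ρ i ω) (K i, (t i ω, a i ω)))
      (fun i => evl (L i) ω) := by
    unfold WW
    refine Measurable.mul ?_ (Measurable.norm ?_)
    · exact Finset.measurable_prod _ fun i _ =>
        measurable_obQp hX jL (e i) (K i) (ht i) (ha i) (hρ i)
    · exact measurable_PU (fun i j ω => ppC (evl (L i) ω) (evl (L j) ω)) fun i j =>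
        measurable_ppC_evl (hLm i) (hLm j)
  have hpot : ∀ s, Measurable fun q : Ω × ℂ => potG (fun i => evl (L i) q.1) s q.2 := by
    intro s
    unfold potG
    refine Finset.measurable_prod _ fun i _ => ?_
    have h1 := measurable_ppC_evl (Y := Ω × ℂ) (L := [(s, false, fun p => p.2)])
      (M := (L i).map fun p => (p.1, p.2.1, fun q : Ω × ℂ => p.2.2 q.1))
      (fun p hp => by
        rw [List.mem_singleton] at hp
        subst hp
        exact measurable_snd)
      (fun p hp => by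
        obtain ⟨p', hp', rfl⟩ := List.mem_map.1 hp
        exact (hLm i p' hp').comp measurable_fst)
    refine (congrArg Measurable (funext fun p => ?_)).mpr h1
    congr 1
    unfold evl
    rw [List.map_map]
    rfl
  have hgas : ∀ a b : ℕ, Measurable fun ω => ‖gas a b y
      (fun z => X ω true none z * potG (fun i => evl (L i) ω) true z)
      (fun z => X ω false none z * potG (fun i => evl (L i) ω) false z)‖ₑ := fun a b =>
    (measurable_gas a b y ((hX true none).mul (hpot true))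
      ((hX false none).mul (hpot false))).enorm
  unfold trm
  simp only [hq, hpa]
  by_cases h : (∑ i, chg true (K i, ((0 : ℝ), (0 : ℝ)))) + m ≤ n ∧
      (∑ i, chg false (K i, ((0 : ℝ), (0 : ℝ)))) + m' ≤ n'
  · simp only [if_pos h]
    exact hWW.ennreal_ofReal.mul (hgas _ _)
  · simp only [if_neg h]
    exact measurable_const

end meas

/-! ### the functionals -/

/-- one term -/
def Fn.one (jL y : ℝ) (n n' m m' : ℕ) (Y : Bool → Option O3 → ℂ → ℂ)
    (hY : ∀ s k, Measurable (Y s k)) : Fn where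
  f _ _ a := trm Y jL y n n' m m' a
  equiv _ _ _ _ e a := trm_equiv Y jL y n n' m m' e a
  meas r e K := measurable_trm
    (Ω := Fin r → ℝ × (ℝ × ℝ)) (X := fun _ => Y) (fun s k => (hY s k).comp measurable_snd)
    jL y n n' m m' e K
    (t := fun i ω => (ω i).2.1) (a := fun i ω => (ω i).2.2) (ρ := fun i ω => (ω i).1)
    (fun i => measurable_fst.comp (measurable_snd.comp (measurable_pi_apply i)))
    (fun i => measurable_snd.comp (measurable_snd.comp (measurable_pi_apply i)))
    (fun i => measurable_fst.comp (measurable_pi_apply i))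

/-- **extra finite sum**: `U` = choices, `c u` weights, `Y u` one body functions, `m u`, `m' u`
numbers of further quanta -/
def Fn.word {U : Type*} [Fintype U] (jL y : ℝ) (n n' : ℕ) (c : U → ℝ≥0∞) (m m' : U → ℕ)
    (Y : U → Bool → Option O3 → ℂ → ℂ) (hY : ∀ u s k, Measurable (Y u s k)) : Fn where
  f ι _ a := ∑ u, c u * trm (Y u) jL y n n' (m u) (m' u) a
  equiv ι ι' _ _ e a := by simp only [trm_equiv]
  meas r e K := Finset.measurable_sum _ fun u _ => (measurable_trm
    (Ω := Fin r → ℝ × (ℝ × ℝ)) (X := fun _ => Y u) (fun s k => (hY u s k).comp measurable_snd)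
    jL y n n' (m u) (m' u) e K
    (t := fun i ω => (ω i).2.1) (a := fun i ω => (ω i).2.2) (ρ := fun i ω => (ω i).1)
    (fun i => measurable_fst.comp (measurable_snd.comp (measurable_pi_apply i)))
    (fun i => measurable_snd.comp (measurable_snd.comp (measurable_pi_apply i)))
    (fun i => measurable_fst.comp (measurable_pi_apply i))).const_mul _

/-- the position of the spectator bound to an object -/
def pw (d : ℝ × ℝ × Xo) : ℂ := posS d.1 (ht d.2.2) + 2 * l

/-- **a functional of a finite family of objects and a marked one** -/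
structure FnI where
  f : ∀ (ι : Type) [Fintype ι], ι → (ι → ℝ × ℝ × Xo) → ℝ≥0∞
  equiv : ∀ (ι ι' : Type) [Fintype ι] [Fintype ι'] (e : ι ≃ ι') (i0 : ι) (a : ι' → ℝ × ℝ × Xo),
    f ι i0 (fun i => a (e i)) = f ι' (e i0) a
  meas : ∀ (r : ℕ) (e : Fin r → ℝ) (K : Fin r → Bool × Kind) (i0 : Fin r),
    Measurable fun y : Fin r → ℝ × (ℝ × ℝ) => f (Fin r) i0 fun i => (e i, (y i).1, (K i, (y i).2))

/-- the sum over the marked object -/
def FnI.sum (Ψ : FnI) : Fn where
  f _ _ a := ∑ i0, Ψ.f _ i0 a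
  equiv ι ι' _ _ e a := by
    simp only [Ψ.equiv]
    exact e.sum_comp fun i0 => Ψ.f ι' i0 a
  meas r e K := Finset.measurable_sum _ fun i0 _ => Ψ.meas r e K i0

/-- **marked objects**: `mk (s, k)` = the objects of species `s` and base kind `k` can be marked;
weights and one body functions depend on the position of the spectator -/
def FnI.mark {U : Type*} [Fintype U] (mk : Bool × O3 → Prop) [DecidablePred mk] (jL y : ℝ)
    (n n' : ℕ) (c : U → ℂ → ℝ≥0∞) (m m' : U → ℕ) (Y : U → ℂ → Bool → Option O3 → ℂ → ℂ)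
    (hc : ∀ u, Measurable (c u))
    (hY : ∀ u s k, Measurable fun q : ℂ × ℂ => Y u q.1 s k q.2) : FnI where
  f _ _ i0 a := if mk ((a i0).2.2.1.1, b3 (a i0).2.2.1.2) then
    ∑ u, c u (pw (a i0)) * trm (Y u (pw (a i0))) jL y n n' (m u) (m' u) a else 0
  equiv _ _ _ _ e i0 a := by simp only [trm_equiv]
  meas r e K i0 := by
    by_cases h : mk ((K i0).1, b3 (K i0).2)
    · simp only [if_pos h]
      have ht : Measurable fun ω : Fin r → ℝ × (ℝ × ℝ) => (ω i0).2.1 :=
        measurable_fst.comp (measurable_snd.comp (measurable_pi_apply i0))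
      have hp : Measurable fun ω : Fin r → ℝ × (ℝ × ℝ) =>
          pw (e i0, (ω i0).1, (K i0, (ω i0).2)) :=
        (NUO.measurable_vl ht (-((1 + e i0) * l))).add_const (2 * (l : ℂ))
      refine Finset.measurable_sum _ fun u _ => ((hc u).comp hp).mul ?_
      exact measurable_trm (Ω := Fin r → ℝ × (ℝ × ℝ))
        (X := fun ω => Y u (pw (e i0, (ω i0).1, (K i0, (ω i0).2))))
        (fun s k => (hY u s k).comp ((hp.comp measurable_fst).prodMk measurable_snd))
        jL y n n' (m u) (m' u) e K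
        (t := fun i ω => (ω i).2.1) (a := fun i ω => (ω i).2.2) (ρ := fun i ω => (ω i).1)
        (fun i => measurable_fst.comp (measurable_snd.comp (measurable_pi_apply i)))
        (fun i => measurable_snd.comp (measurable_snd.comp (measurable_pi_apply i)))
        (fun i => measurable_fst.comp (measurable_pi_apply i))
    · simp only [if_neg h]
      exact measurable_const

/-- the term of the configuration `O` -/
def FOQ (Y : Bool → Option O3 → ℂ → ℂ) (P : NUO.Par) (n n' m m' : ℕ) {r : ℕ}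
    (O : Fin r → Xo) : ℝ≥0∞ :=
  if chgO O true + m ≤ n ∧ chgO O false + m' ≤ n' then
    ENNReal.ofReal (WW (fun i => obQ Y P.jL (ei P O i) (rr P O i) (O i)) (cons P O)) *
      ‖gas (n - (chgO O true + m)) (n' - (chgO O false + m')) l
        (fun z => Y true none z * potC P O true z)
        (fun z => Y false none z * potC P O false z)‖ₑ
  else 0

theorem trm_dG (Y : Bool → Option O3 → ℂ → ℂ) (P : NUO.Par) (n n' m m' : ℕ) {r : ℕ}
    (O : Fin r → Xo) : trm Y P.jL l n n' m m' (dG P O) = FOQ Y P n n' m m' O := rfl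

section link
variable {p p' : ℕ}

/-- the term of a word with satellites `τ` -/
theorem trm_d2 (X : Bool → Option O3 → ℂ → ℂ) (P : NUO.Par) {n n' : ℕ} (m m' : ℕ)
    {k : Fin p → O3} {k' : Fin p' → O3} (hk : ∑ i, c3 (k i) ≤ n) (hk' : ∑ i, c3 (k' i) ≤ n')
    {τ : Fin p ⊕ Fin p' → Fin 3} (hτ : ∀ i, τ i ≠ 0 → actO k k' i) (t θ : Fin p ⊕ Fin p' → ℝ) :
    trm X P.jL l n n' m m' (d2 P (mk2 (fun i => kdO (k i) (τ (Sum.inl i)))
      (fun i => kdO (k' i) (τ (Sum.inr i))) fun i => (t i, θ i))) =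
    if nsat (o3 k k') true τ + m ≤ nA n k ∧ nsat (o3 k k') false τ + m' ≤ nA n' k' then
      ENNReal.ofReal (WW (fun i => obQ X P.jL (elO P i) (P.rad (p + p') (t i))
          (OO k k' τ t θ i))
        (fun i => parts P.jL (elO P i) (P.rad (p + p') (t i)) (OO k k' τ t θ i))) *
      ‖gas (nA n k - (nsat (o3 k k') true τ + m))
        (nA n' k' - (nsat (o3 k k') false τ + m')) l
        (fun z => X true none z * potG (fun i => parts P.jL (elO P i)
          (P.rad (p + p') (t i)) (OO k k' τ t θ i)) true z)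
        (fun z => X false none z * potG (fun i => parts P.jL (elO P i)
          (P.rad (p + p') (t i)) (OO k k' τ t θ i)) false z)‖ₑ
    else 0 := by
  have e1 : qa (d2 P (mk2 (fun i => kdO (k i) (τ (Sum.inl i)))
      (fun i => kdO (k' i) (τ (Sum.inr i))) fun i => (t i, θ i))) true =
      ∑ i, c3 (k i) + nsat (o3 k k') true τ := chg_true k k' τ hτ (fun i => (t i, θ i))
  have e2 : qa (d2 P (mk2 (fun i => kdO (k i) (τ (Sum.inl i)))
      (fun i => kdO (k' i) (τ (Sum.inr i))) fun i => (t i, θ i))) false =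
      ∑ i, c3 (k' i) + nsat (o3 k k') false τ := chg_false k k' τ hτ (fun i => (t i, θ i))
  unfold trm
  rw [e1, e2]
  have h1 : (∑ i, c3 (k i) + nsat (o3 k k') true τ + m ≤ n ∧
      ∑ i, c3 (k' i) + nsat (o3 k k') false τ + m' ≤ n') ↔
      (nsat (o3 k k') true τ + m ≤ nA n k ∧ nsat (o3 k k') false τ + m' ≤ nA n' k') := by
    unfold nA
    constructor
    · rintro ⟨h1, h2⟩
      exact ⟨by omega, by omega⟩
    · rintro ⟨h1, h2⟩
      exact ⟨by omega, by omega⟩
  by_cases h : nsat (o3 k k') true τ + m ≤ nA n k ∧ nsat (o3 k k') false τ + m' ≤ nA n' k'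
  · rw [if_pos h, if_pos (h1.2 h)]
    have e3 : n - (∑ i, c3 (k i) + nsat (o3 k k') true τ + m) =
        nA n k - (nsat (o3 k k') true τ + m) := by
      unfold nA
      omega
    have e4 : n' - (∑ i, c3 (k' i) + nsat (o3 k k') false τ + m') =
        nA n' k' - (nsat (o3 k k') false τ + m') := by
      unfold nA
      omega
    rw [e3, e4]
    rfl
  · rw [if_neg h, if_neg fun h' => h (h1.1 h')]

/-- the integrand of a word -/
def TTq (X : Bool → Option O3 → ℂ → ℂ) (P : NUO.Par) (x0 : ℝ) (n n' : ℕ) : Integrands :=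
  fun p p' k k' t =>
    ((∏ i, Bd.wt (ob3 (k i))) * (∏ i, Bd.wt (ob3 (k' i)))) *
      (Fg (o3 k k') (h3 (X true) (X false) k k')
          (pos (Sum.elim (lX P p p' k k') (lY P p p' k k')) t) *
        gas (nA n k) (nA n' k') x0
          (fld (o3 k k') (pos (Sum.elim (lX P p p' k k') (lY P p p' k k')) t) (true, .A)
            (X true none))
          (fld (o3 k k') (pos (Sum.elim (lX P p p' k k') (lY P p p' k k')) t) (false, .A)
            (X false none)))

theorem measurable_trm_d2 (P : NUO.Par) (hP : ∀ r, Measurable (P.rad r))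
    (n n' m m' : ℕ) {Y : Bool → Option O3 → ℂ → ℂ} (hY : ∀ s k, Measurable (Y s k))
    (K : Fin p → Kind) (K' : Fin p' → Kind) (t : Fin p ⊕ Fin p' → ℝ) :
    Measurable fun θ : Fin p ⊕ Fin p' → ℝ =>
      trm Y P.jL l n n' m m' (d2 P (mk2 K K' fun i => (t i, θ i))) := by
  have h1 := measurable_pairG (Fn.one P.jL l n n' m m' Y hY) P hP K K'
  have h2 : Measurable fun θ : Fin p ⊕ Fin p' → ℝ => (t, θ) := measurable_prodMk_left
  have h3 := h1.comp h2
  simp only [Function.comp_def, Fn.one] at h3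
  exact h3

/-- the right side of `WordLeQ` -/
theorem rhs_eq {U : Type*} [Fintype U] {P : NUO.Par} (hP : ∀ r, Measurable (P.rad r)) {n n' : ℕ}
    (c : U → ℝ≥0∞) (m m' : U → ℕ) {Y : U → Bool → Option O3 → ℂ → ℂ}
    (hY : ∀ u s k, Measurable (Y u s k)) {k : Fin p → O3} {k' : Fin p' → O3}
    (hk : ∑ i, c3 (k i) ≤ n) (hk' : ∑ i, c3 (k' i) ≤ n') (t : Fin p ⊕ Fin p' → ℝ) :
    ∑ u : U, c u * ∑ τ : Fin p ⊕ Fin p' → Fin 3,
      (if (∀ i, τ i ≠ 0 → actO k k' i) ∧ nsat (o3 k k') true τ + m u ≤ nA n k ∧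
        nsat (o3 k k') false τ + m' u ≤ nA n' k' then
        ∫⁻ θ : Fin p ⊕ Fin p' → ℝ,
          ENNReal.ofReal (WW (fun i => obQ (Y u) P.jL (elO P i) (P.rad (p + p') (t i))
              (OO k k' τ t θ i))
            (fun i => parts P.jL (elO P i) (P.rad (p + p') (t i)) (OO k k' τ t θ i))) *
          ‖gas (nA n k - (nsat (o3 k k') true τ + m u))
            (nA n' k' - (nsat (o3 k k') false τ + m' u)) l
            (fun z => Y u true none z * potG (fun i => parts P.jL (elO P i)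
              (P.rad (p + p') (t i)) (OO k k' τ t θ i)) true z)
            (fun z => Y u false none z * potG (fun i => parts P.jL (elO P i)
              (P.rad (p + p') (t i)) (OO k k' τ t θ i)) false z)‖ₑ
          ∂(Measure.pi fun _ => volume.restrict (Set.Ioc (0 : ℝ) 1))
      else 0) =
    ∑ τ : Fin p ⊕ Fin p' → Fin 3,
      if ∀ i, τ i ≠ 0 → actO k k' i then
        ∫⁻ θ : Fin p ⊕ Fin p' → ℝ, ∑ u, c u * trm (Y u) P.jL l n n' (m u) (m' u)
          (d2 P (mk2 (fun i => kdO (k i) (τ (Sum.inl i)))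
            (fun i => kdO (k' i) (τ (Sum.inr i))) fun i => (t i, θ i)))
          ∂(Measure.pi fun _ => (volume : Measure ℝ).restrict (Set.Ioc 0 1))
      else 0 := by
  simp_rw [Finset.mul_sum]
  rw [Finset.sum_comm]
  refine Finset.sum_congr rfl fun τ _ => ?_
  by_cases hτ : ∀ i, τ i ≠ 0 → actO k k' i
  · rw [if_pos hτ, lintegral_finsetSum _ fun u _ =>
      (measurable_trm_d2 P hP n n' (m u) (m' u) (hY u) _ _ t).const_mul _]
    refine Finset.sum_congr rfl fun u _ => ?_
    rw [lintegral_const_mul _ (measurable_trm_d2 P hP n n' (m u) (m' u) (hY u) _ _ t)]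
    congr 1
    by_cases h : nsat (o3 k k') true τ + m u ≤ nA n k ∧ nsat (o3 k k') false τ + m' u ≤ nA n' k'
    · rw [if_pos ⟨hτ, h⟩]
      refine lintegral_congr fun θ => ?_
      rw [trm_d2 (Y u) P (m u) (m' u) hk hk' hτ t θ, if_pos h]
    · rw [if_neg fun h' => h h'.2]
      refine (lintegral_eq_zero_of_ae_eq_zero (Filter.Eventually.of_forall fun θ => ?_)).symm
      show _ = 0
      rw [trm_d2 (Y u) P (m u) (m' u) hk hk' hτ t θ, if_neg h]
  · rw [if_neg hτ]
    refine Finset.sum_eq_zero fun u _ => ?_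
    rw [if_neg fun h => hτ h.1, mul_zero]

theorem wordG_of {U : Type*} [Fintype U] {x0 : ℝ} {X : Bool → Option O3 → ℂ → ℂ} {P : NUO.Par}
    (hP : ∀ r, Measurable (P.rad r))
    {n n' : ℕ} {c : U → ℝ≥0∞} {m m' : U → ℕ} {Y : U → Bool → Option O3 → ℂ → ℂ}
    (hY : ∀ u s k, Measurable (Y u s k)) (h : WordLeQ x0 X P n n' c m m' Y) :
    WordG (TTq X P x0 n n') P (Fn.word P.jL l n n' c m m' Y hY) n n' := by
  intro p p' k k' hk hk' t
  refine (h p p' k k' hk hk' t).trans (le_of_eq ?_)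
  rw [rhs_eq hP c m m' hY hk hk' t]
  rfl

/-- `ZobjQ` is the sum over the words -/
theorem ZG_TTq (X : Bool → Option O3 → ℂ → ℂ) (P : NUO.Par) (x0 : ℝ) (n n' : ℕ) :
    ZG (TTq X P x0 n n') n n' = AbC.ZobjQ (X true) (X false) x0 n n' (lX P) (lY P) := by
  unfold ZG AbC.ZobjQ
  refine Finset.sum_congr rfl fun p' _ => Finset.sum_congr rfl fun p _ => ?_
  congr 1
  refine Finset.sum_congr rfl fun k' _ => Finset.sum_congr rfl fun k _ => ?_
  split_ifs
  · unfold termQ TTq
    rw [integral_const_mul]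
  · rfl

/-- **Line form**, extra finite sum -/
theorem ZobjQ_leU {U : Type*} [Fintype U] {x0 : ℝ} {X : Bool → Option O3 → ℂ → ℂ} {P : NUO.Par}
    (hP : ∀ r, Measurable (P.rad r))
    {n n' : ℕ} {c : U → ℝ≥0∞} {m m' : U → ℕ} {Y : U → Bool → Option O3 → ℂ → ℂ}
    (hY : ∀ u s k, Measurable (Y u s k)) (h : WordLeQ x0 X P n n' c m m' Y) :
    ‖AbC.ZobjQ (X true) (X false) x0 n n' (lX P) (lY P)‖ₑ ≤
      ∑ r ∈ range (n + n' + 1), ((r.factorial : ℕ) : ℝ≥0∞)⁻¹ *
        ∫⁻ O : Fin r → Xo, ∑ u, c u * FOQ (Y u) P n n' (m u) (m' u) O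
          ∂(Measure.pi fun _ => nu) := by
  rw [← ZG_TTq]
  exact ZG_le hP (wordG_of hP hY h)

/-- **Line form**, no simple poles: all hypotheses on the one body functions -/
theorem ZobjQ_leQ {x0 : ℝ} {X : Bool → Option O3 → ℂ → ℂ} {P : NUO.Par} (hG : GoodQ P x0)
    (hP : ∀ r, Measurable (P.rad r)) (hX : ∀ s k, Measurable (X s k)) {κ : ℝ} (hκ : 0 < κ)
    {n n' : ℕ} {q0 : ℤ} (hq : (n : ℤ) - n' = q0)
    (hd : ∀ s, ∀ u : ℂ, x0 ≤ u.re → u.re ≤ l → DifferentiableAt ℂ (X s none) u)
    (hb : ∀ s, DecOn (κ + 2 * (sg s * q0 : ℤ)) (Set.Icc x0 l) (X s none)) :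
    ‖AbC.ZobjQ (X true) (X false) x0 n n' (lX P) (lY P)‖ₑ ≤
      ∑ r ∈ range (n + n' + 1), ((r.factorial : ℕ) : ℝ≥0∞)⁻¹ *
        ∫⁻ O : Fin r → Xo, FOQ X P n n' 0 0 O ∂(Measure.pi fun _ => nu) := by
  refine (ZobjQ_leU hP (fun _ => hX)
    (word_keyQ hG hκ hq (fun s => hX s none) hd hb)).trans (le_of_eq ?_)
  simp only [Finset.univ_unique, Finset.sum_singleton, one_mul]

/-! ### marked objects -/

/-- the integrands of the words at fixed heights with a marked object -/
abbrev IntegrandsI : Type :=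
  ∀ (p p' : ℕ) (_ : Fin p → O3) (_ : Fin p' → O3) (_ : Fin p ⊕ Fin p' → ℝ) (_ : Fin p ⊕ Fin p'), ℂ

theorem sum_lint_le {α β : Type*} [MeasurableSpace α] (μ : Measure α) (s : Finset β)
    (f : β → α → ℝ≥0∞) : ∑ i ∈ s, ∫⁻ a, f i a ∂μ ≤ ∫⁻ a, ∑ i ∈ s, f i a ∂μ := by
  classical
  induction s using Finset.induction_on with
  | empty => simp
  | insert i s hi ih =>
    rw [Finset.sum_insert hi]
    refine (add_le_add le_rfl ih).trans ((le_lintegral_add _ _).trans (le_of_eq ?_))
    refine lintegral_congr fun a => ?_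
    rw [Finset.sum_insert hi]

/-- **one word at fixed heights with a marked object** -/
def WordI (T : IntegrandsI) (P : NUO.Par) (Ψ : FnI) (n n' : ℕ) : Prop :=
  ∀ (p p' : ℕ) (k : Fin p → O3) (k' : Fin p' → O3), ∑ i, c3 (k i) ≤ n → ∑ i, c3 (k' i) ≤ n' →
    ∀ (t : Fin p ⊕ Fin p' → ℝ) (i0 : Fin p ⊕ Fin p'), ‖T p p' k k' t i0‖ₑ ≤
    ∑ τ : Fin p ⊕ Fin p' → Fin 3,
      if ∀ i, τ i ≠ 0 → actO k k' i then
        ∫⁻ θ : Fin p ⊕ Fin p' → ℝ, Ψ.f (Fin p ⊕ Fin p') i0
          (d2 P (mk2 (fun i => kdO (k i) (τ (Sum.inl i)))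
            (fun i => kdO (k' i) (τ (Sum.inr i))) fun i => (t i, θ i)))
          ∂(Measure.pi fun _ => (volume : Measure ℝ).restrict (Set.Ioc 0 1))
      else 0

theorem wordG_sum {T : IntegrandsI} {P : NUO.Par} {Ψ : FnI} {n n' : ℕ} (h : WordI T P Ψ n n') :
    WordG (fun p p' k k' t => ∑ i0, T p p' k k' t i0) P Ψ.sum n n' := by
  intro p p' k k' hk hk' t
  refine (enorm_sum_le _ _).trans ?_
  refine (Finset.sum_le_sum fun i0 _ => h p p' k k' hk hk' t i0).trans ?_
  rw [Finset.sum_comm]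
  refine Finset.sum_le_sum fun τ _ => ?_
  by_cases hτ : ∀ i, τ i ≠ 0 → actO k k' i
  · simp only [if_pos hτ]
    exact sum_lint_le _ _ _
  · simp only [if_neg hτ, Finset.sum_const_zero]
    exact le_rfl

/-- the position of the spectator bound to the object `i0` of a word -/
def pwW (P : NUO.Par) (t : Fin p ⊕ Fin p' → ℝ) (i0 : Fin p ⊕ Fin p') : ℂ :=
  posS (elO P i0) (t i0) + 2 * l

/-- species and base kind of an object of a word -/
def sk (k : Fin p → O3) (k' : Fin p' → O3) (i0 : Fin p ⊕ Fin p') : Bool × O3 :=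
  Sum.elim (fun i => (true, k i)) (fun i => (false, k' i)) i0

/-- the integrand of a word with a marked object: `Kp` prefactor, `X` one body functions, both
depending on the position of the spectator -/
def TTm (mk : Bool × O3 → Prop) [DecidablePred mk] (Kp : ℂ → ℂ)
    (X : ℂ → Bool → Option O3 → ℂ → ℂ) (P : NUO.Par) (x0 : ℝ) (n n' : ℕ) : IntegrandsI :=
  fun p p' k k' t i0 => if mk (sk k k' i0) then
    Kp (pwW P t i0) * TTq (X (pwW P t i0)) P x0 n n' p p' k k' t else 0

theorem wordI_mark {U : Type*} [Fintype U] {x0 : ℝ} (mk : Bool × O3 → Prop) [DecidablePred mk]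
    {Kp : ℂ → ℂ} {X : ℂ → Bool → Option O3 → ℂ → ℂ} {P : NUO.Par}
    (hP : ∀ r, Measurable (P.rad r)) {n n' : ℕ} {c : U → ℂ → ℝ≥0∞} {m m' : U → ℕ}
    {Y : U → ℂ → Bool → Option O3 → ℂ → ℂ} (hK : Measurable Kp) (hc : ∀ u, Measurable (c u))
    (hY : ∀ u s k, Measurable fun q : ℂ × ℂ => Y u q.1 s k q.2)
    (h : ∀ (p p' : ℕ) (k : Fin p → O3) (k' : Fin p' → O3), ∑ i, c3 (k i) ≤ n →
      ∑ i, c3 (k' i) ≤ n' → ∀ (t : Fin p ⊕ Fin p' → ℝ) (i0 : Fin p ⊕ Fin p'), mk (sk k k' i0) →
      WordAt x0 (X (pwW P t i0)) P n n' (fun u => c u (pwW P t i0)) m m'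
        (fun u => Y u (pwW P t i0)) k k' t) :
    WordI (TTm mk Kp X P x0 n n') P
      (FnI.mark mk P.jL l n n' (fun u q => ‖Kp q‖ₑ * c u q) m m' Y
        (fun u => hK.enorm.mul (hc u)) hY) n n' := by
  intro p p' k k' hk hk' t i0
  have hsk : ∀ (τ : Fin p ⊕ Fin p' → Fin 3) (θ : Fin p ⊕ Fin p' → ℝ),
      (((d2 P (mk2 (fun i => kdO (k i) (τ (Sum.inl i)))
        (fun i => kdO (k' i) (τ (Sum.inr i))) fun i => (t i, θ i))) i0).2.2.1.1,
      b3 ((d2 P (mk2 (fun i => kdO (k i) (τ (Sum.inl i)))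
        (fun i => kdO (k' i) (τ (Sum.inr i))) fun i => (t i, θ i))) i0).2.2.1.2) =
      sk k k' i0 := by
    intro τ θ
    rcases i0 with i | i
    · show (true, b3 (kdO (k i) _)) = (true, k i)
      rw [b3_kdO]
    · show (false, b3 (kdO (k' i) _)) = (false, k' i)
      rw [b3_kdO]
  unfold TTm FnI.mark
  simp only [hsk]
  by_cases hm : mk (sk k k' i0)
  · simp only [if_pos hm]
    have h1 := (h p p' k k' hk hk' t i0 hm).trans (le_of_eq (rhs_eq hP _ m m'
      (fun u s j => (hY u s j).comp measurable_prodMk_left) hk hk' t))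
    rw [enorm_mul]
    refine (mul_le_mul_right h1 _).trans (le_of_eq ?_)
    rw [Finset.mul_sum]
    refine Finset.sum_congr rfl fun τ _ => ?_
    by_cases hτ : ∀ i, τ i ≠ 0 → actO k k' i
    · rw [if_pos hτ, if_pos hτ, ← lintegral_const_mul _ (Finset.measurable_sum _ fun u _ =>
        (measurable_trm_d2 P hP n n' (m u) (m' u)
          (fun s j => (hY u s j).comp measurable_prodMk_left) _ _ t).const_mul _)]
      refine lintegral_congr fun θ => ?_
      rw [Finset.mul_sum]
      refine Finset.sum_congr rfl fun u _ => ?_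
      rw [← mul_assoc]
      rfl
    · rw [if_neg hτ, if_neg hτ, mul_zero]
  · simp only [if_neg hm]
    rw [enorm_zero]
    exact bot_le

/-- **Line form of a marked class** -/
theorem ZG_mark_le {U : Type*} [Fintype U] {x0 : ℝ} (mk : Bool × O3 → Prop) [DecidablePred mk]
    {Kp : ℂ → ℂ} {X : ℂ → Bool → Option O3 → ℂ → ℂ} {P : NUO.Par}
    (hP : ∀ r, Measurable (P.rad r)) {n n' : ℕ} {c : U → ℂ → ℝ≥0∞} {m m' : U → ℕ}
    {Y : U → ℂ → Bool → Option O3 → ℂ → ℂ} (hK : Measurable Kp) (hc : ∀ u, Measurable (c u))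
    (hY : ∀ u s k, Measurable fun q : ℂ × ℂ => Y u q.1 s k q.2)
    (h : ∀ (p p' : ℕ) (k : Fin p → O3) (k' : Fin p' → O3), ∑ i, c3 (k i) ≤ n →
      ∑ i, c3 (k' i) ≤ n' → ∀ (t : Fin p ⊕ Fin p' → ℝ) (i0 : Fin p ⊕ Fin p'), mk (sk k k' i0) →
      WordAt x0 (X (pwW P t i0)) P n n' (fun u => c u (pwW P t i0)) m m'
        (fun u => Y u (pwW P t i0)) k k' t) :
    ‖ZG (fun p p' k k' t => ∑ i0, TTm mk Kp X P x0 n n' p p' k k' t i0) n n'‖ₑ ≤
      ∑ r ∈ range (n + n' + 1), ((r.factorial : ℕ) : ℝ≥0∞)⁻¹ *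
        ∫⁻ O : Fin r → Xo, ∑ i0, (if mk (sp (O i0), b3 (kd (O i0))) then
          ∑ u, ‖Kp (posS (ei P O i0) (ht (O i0)) + 2 * l)‖ₑ *
            c u (posS (ei P O i0) (ht (O i0)) + 2 * l) *
            FOQ (Y u (posS (ei P O i0) (ht (O i0)) + 2 * l)) P n n' (m u) (m' u) O else 0)
          ∂(Measure.pi fun _ => nu) :=
  ZG_le hP (wordG_sum (wordI_mark mk hP hK hc hY h))

end link

end NUP1S.AbG

end
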