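import Pool.Agent.NUP1S.Eval3

/-!
# Two species: the sum over the satellites
-/

set_option autoImplicit false
set_option linter.unusedSectionVars false

noncomputable section

open Complex MeasureTheory NUP1 Set Filter Topology
open scoped Real

namespace NUP1S

variable {ι : Type*} [Fintype ι] [DecidableEq ι]

/-! ## geometry -/

/-- the double poles: `act i` = the pole `i` is present -/
def SD.pl (D : SD ι) (act : ι → Prop) [DecidablePred act] (s : Bool) : Finset ℂ :=
  (Finset.univ.filter fun i => act i ∧ D.sp i = s).image D.p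

/-- the geometry of the poles between the lines `x` and `y` -/
structure SD.Geom (D : SD ι) (act : ι → Prop) (x y : ℝ) : Prop where
  xy : x < y
  wd : y - x < l
  r0 : ∀ i, act i → 0 < D.r i
  lo : ∀ i, act i → x < (D.p i).re - D.r i
  hi : ∀ i, act i → (D.p i).re + D.r i < y
  sep : ∀ i j, act i → act j → i ≠ j → D.sp i = D.sp j →
    D.r i + D.r j < |(D.p i).re - (D.p j).re|

variable {D : SD ι} {act : ι → Prop} [DecidablePred act] {x y κ : ℝ}

theorem SD.mem_pl {s : Bool} {p : ℂ} :
    p ∈ D.pl act s ↔ ∃ i, act i ∧ D.sp i = s ∧ D.p i = p := by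
  unfold SD.pl
  simp only [Finset.mem_image, Finset.mem_filter, Finset.mem_univ, true_and, and_assoc]

theorem SD.Geom.re_lt (h : D.Geom act x y) {i : ι} (hi : act i) :
    x < (D.p i).re ∧ (D.p i).re < y := by
  have := h.r0 i hi
  have := h.lo i hi
  have := h.hi i hi
  constructor <;> linarith

theorem SD.Geom.geo (h : D.Geom act x y) (hκ : 0 < κ) : Geo (D.pl act) κ x y where
  kpos := hκ
  ab := h.xy.le
  wd := h.wd
  pin s p hp := by
    obtain ⟨i, h1, _, rfl⟩ := SD.mem_pl.1 hp
    exact ⟨(h.re_lt h1).1.le, (h.re_lt h1).2.le⟩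

theorem SD.Geom.line (h : D.Geom act x y) (hκ : 0 < κ) (s : Bool) :
    OkC (D.pl act) κ x y (lineC s x) ∧ OkC (D.pl act) κ x y (lineC s y) := by
  constructor
  · refine okC_line hκ le_rfl h.xy.le fun p hp => ?_
    obtain ⟨i, h1, _, rfl⟩ := SD.mem_pl.1 hp
    exact (h.re_lt h1).1.ne'
  · refine okC_line hκ h.xy.le le_rfl fun p hp => ?_
    obtain ⟨i, h1, _, rfl⟩ := SD.mem_pl.1 hp
    exact (h.re_lt h1).2.ne

theorem SD.Geom.inj (h : D.Geom act x y) {i j : ι} (hi : act i) (hj : act j)
    (hs : D.sp i = D.sp j) (hp : D.p i = D.p j) : i = j := by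
  by_contra hne
  have h1 := h.sep i j hi hj hne hs
  have h2 := h.r0 i hi
  have h3 := h.r0 j hj
  rw [hp, sub_self, abs_zero] at h1
  linarith

/-- one step of the geometry -/
theorem SD.Geom.exSG (h : D.Geom act x y) (hκ : 0 < κ) {i : ι} (hi : act i) :
    ∃ σ τ, SG (D.pl act) κ x y (D.sp i) σ τ (D.p i) (D.r i) := by
  obtain ⟨δ, hδ, hd⟩ := exists_pos_lb (F := D.pl act (D.sp i))
    (φ := fun p' => if p' = D.p i then 1 else |p'.re - (D.p i).re| - D.r i) (fun p' hp' => by
      split_ifs with h0
      · exact one_pos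
      · obtain ⟨j, h1, h2, rfl⟩ := SD.mem_pl.1 hp'
        have hne : j ≠ i := by
          rintro rfl
          exact h0 rfl
        have := h.sep j i h1 hi hne h2
        have := h.r0 j h1
        linarith)
  obtain ⟨δ', h1, h2, h3, h4⟩ : ∃ δ' : ℝ, 0 < δ' ∧ δ' < δ ∧ δ' < (D.p i).re - D.r i - x ∧
      δ' < y - ((D.p i).re + D.r i) := by
    have a1 := h.lo i hi
    have a2 := h.hi i hi
    refine ⟨min (δ / 2) (min (((D.p i).re - D.r i - x) / 2) ((y - ((D.p i).re + D.r i)) / 2)),
      ?_, ?_, ?_, ?_⟩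
    · exact lt_min (by linarith) (lt_min (by linarith) (by linarith))
    · exact (min_le_left _ _).trans_lt (by linarith)
    · exact ((min_le_right _ _).trans (min_le_left _ _)).trans_lt (by linarith)
    · exact ((min_le_right _ _).trans (min_le_right _ _)).trans_lt (by linarith)
  refine ⟨(D.p i).re - D.r i - δ', (D.p i).re + D.r i + δ', h.geo hκ, by linarith, by linarith,
    h.r0 i hi, SD.mem_pl.2 ⟨i, hi, rfl, rfl⟩, by linarith, by linarith, fun p' hp' hne => ?_⟩
  have h5 := hd p' hp'
  simp only [if_neg hne] at h5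
  rcases le_total 0 (p'.re - (D.p i).re) with h0 | h0
  · rw [abs_of_nonneg h0] at h5
    right
    linarith
  · rw [abs_of_nonpos h0] at h5
    left
    linarith

theorem SD.Geom.cond (h : D.Geom act x y) (hκ : 0 < κ) {i : ι} (hi : act i) :
    D.Cond (D.pl act) κ x y i := by
  obtain ⟨σ, τ, S⟩ := h.exSG hκ hi
  exact ⟨S.ok3, S.hp, S.pair⟩

/-! ## sorted lists of poles -/

theorem chn_of_pairwise (L : List (ℂ × ℝ)) : ∀ x y : ℝ, x < y →
    (∀ pr ∈ L, 0 < pr.2 ∧ x < pr.1.re - pr.2 ∧ pr.1.re + pr.2 < y) →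
    L.Pairwise (fun c d => c.1.re + c.2 < d.1.re - d.2) → Chn x L y := by
  induction L with
  | nil => intro x y h _ _; exact h
  | cons pr L ih =>
    intro x y h h1 h2
    obtain ⟨a1, a2, a3⟩ := h1 pr (by simp)
    rw [List.pairwise_cons] at h2
    refine ⟨a1, a2, ih _ y a3 (fun q hq => ?_) h2.2⟩
    obtain ⟨b1, b2, b3⟩ := h1 q (List.mem_cons_of_mem _ hq)
    exact ⟨b1, h2.1 q hq, b3⟩

/-- comparison of the real parts -/
def SD.le (D : SD ι) (i j : ι) : Prop := (D.p i).re ≤ (D.p j).re

instance (D : SD ι) : Std.Total D.le := ⟨fun _ _ => le_total _ _⟩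
instance (D : SD ι) : IsTrans ι D.le := ⟨fun _ _ _ => le_trans⟩

open scoped Classical in
/-- the sorted list of the poles of species `s` -/
def SD.ls (D : SD ι) (act : ι → Prop) [DecidablePred act] (s : Bool) : List ι :=
  (Finset.univ.filter fun i => act i ∧ D.sp i = s).toList.insertionSort D.le

open scoped Classical in
theorem SD.ls_perm (s : Bool) : (D.ls act s).Perm
    (Finset.univ.filter fun i => act i ∧ D.sp i = s).toList := List.perm_insertionSort _ _

theorem SD.mem_ls {s : Bool} {i : ι} : i ∈ D.ls act s ↔ act i ∧ D.sp i = s := by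
  rw [(SD.ls_perm s).mem_iff]
  simp

theorem SD.ls_nodup (s : Bool) : (D.ls act s).Nodup :=
  (SD.ls_perm s).nodup_iff.2 (Finset.nodup_toList _)

theorem SD.Geom.chn (h : D.Geom act x y) (s : Bool) :
    Chn x ((D.ls act s).map fun i => (D.p i, D.r i)) y := by
  classical
  refine chn_of_pairwise _ _ _ h.xy ?_ ?_
  · intro pr hpr
    obtain ⟨i, hi, rfl⟩ := List.mem_map.1 hpr
    have h1 := (SD.mem_ls.1 hi).1
    exact ⟨h.r0 i h1, h.lo i h1, h.hi i h1⟩
  · rw [List.pairwise_map]
    have h1 : (D.ls act s).Pairwise D.le := List.pairwise_insertionSort _ _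
    have h2 : (D.ls act s).Pairwise (· ≠ ·) := SD.ls_nodup s
    refine (h1.and h2).imp_of_mem fun {i j} hi hj hij => ?_
    obtain ⟨a1, a2⟩ := SD.mem_ls.1 hi
    obtain ⟨b1, b2⟩ := SD.mem_ls.1 hj
    have h3 := h.sep i j a1 b1 hij.2 (a2.trans b2.symm)
    have h4 : (D.p i).re ≤ (D.p j).re := hij.1
    rw [abs_of_nonpos (by linarith)] at h3
    show (D.p i).re + D.r i < (D.p j).re - D.r j
    linarith

/-! ## the sum over both species -/

theorem mem_Sup_ls {s : Bool} {τ : ι → Fin 3} :
    τ ∈ Sup (D.ls act s) ↔ ∀ i, τ i ≠ 0 → act i ∧ D.sp i = s := by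
  rw [mem_Sup]
  simp only [SD.mem_ls]

/-- two species of satellites as one function -/
theorem sum_Sup_two (F : (ι → Fin 3) → (ι → Fin 3) → ℂ) :
    ∑ τ₁ ∈ Sup (D.ls act true), ∑ τ₂ ∈ Sup (D.ls act false), F τ₁ τ₂ =
      ∑ τ ∈ Finset.univ.filter (fun τ : ι → Fin 3 => ∀ i, τ i ≠ 0 → act i),
        F (fun i => if D.sp i = true then τ i else 0) (fun i => if D.sp i = true then 0 else τ i) := by
  rw [← Finset.sum_product']
  refine Finset.sum_nbij' (fun q i => if D.sp i = true then q.1 i else q.2 i)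
    (fun τ => (fun i => if D.sp i = true then τ i else 0,
      fun i => if D.sp i = true then 0 else τ i)) ?_ ?_ ?_ ?_ ?_
  · rintro ⟨τ₁, τ₂⟩ hq
    rw [Finset.mem_product] at hq
    have h1 := mem_Sup_ls.1 hq.1
    have h2 := mem_Sup_ls.1 hq.2
    rw [Finset.mem_filter]
    refine ⟨Finset.mem_univ _, fun i hi => ?_⟩
    by_cases hs : D.sp i = true
    · simp only [if_pos hs] at hi
      exact (h1 i hi).1
    · simp only [if_neg hs] at hi
      exact (h2 i hi).1
  · intro τ hτ
    have h1 := (Finset.mem_filter.1 hτ).2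
    rw [Finset.mem_product]
    constructor
    · refine mem_Sup_ls.2 fun i hi => ?_
      by_cases hs : D.sp i = true
      · simp only [if_pos hs] at hi
        exact ⟨h1 i hi, hs⟩
      · simp [hs] at hi
    · refine mem_Sup_ls.2 fun i hi => ?_
      by_cases hs : D.sp i = true
      · simp [hs] at hi
      · simp only [if_neg hs] at hi
        exact ⟨h1 i hi, by simpa using hs⟩
  · rintro ⟨τ₁, τ₂⟩ hq
    rw [Finset.mem_product] at hq
    have h1 := mem_Sup_ls.1 hq.1
    have h2 := mem_Sup_ls.1 hq.2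
    have e1 : (fun i => if D.sp i = true then (if D.sp i = true then τ₁ i else τ₂ i) else 0) = τ₁ := by
      funext i
      by_cases hs : D.sp i = true
      · simp [hs]
      · rw [if_neg hs]
        by_contra hne
        exact hs (h1 i (Ne.symm hne)).2
    have e2 : (fun i => if D.sp i = true then 0 else (if D.sp i = true then τ₁ i else τ₂ i)) = τ₂ := by
      funext i
      by_cases hs : D.sp i = true
      · rw [if_pos hs]
        by_contra hne
        have := (h2 i (Ne.symm hne)).2
        rw [hs] at this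
        exact Bool.noConfusion this
      · simp [hs]
    exact Prod.ext e1 e2
  · intro τ _
    funext i
    by_cases hs : D.sp i = true <;> simp [hs]
  · rintro ⟨τ₁, τ₂⟩ hq
    rw [Finset.mem_product] at hq
    have h1 := mem_Sup_ls.1 hq.1
    have h2 := mem_Sup_ls.1 hq.2
    have e1 : (fun i => if D.sp i = true then (if D.sp i = true then τ₁ i else τ₂ i) else 0) = τ₁ := by
      funext i
      by_cases hs : D.sp i = true
      · simp [hs]
      · rw [if_neg hs]
        by_contra hne
        exact hs (h1 i (Ne.symm hne)).2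
    have e2 : (fun i => if D.sp i = true then 0 else (if D.sp i = true then τ₁ i else τ₂ i)) = τ₂ := by
      funext i
      by_cases hs : D.sp i = true
      · rw [if_pos hs]
        by_contra hne
        have := (h2 i (Ne.symm hne)).2
        rw [hs] at this
        exact Bool.noConfusion this
      · simp [hs]
    simp only []
    rw [e1, e2]

/-- quanta of the two species on the line `x` -/
def ZZ (pl : Bool → Finset ℂ) (x : ℝ) (a a' : ℕ) (g : Bool → ℂ → ℂ) : ℂ :=
  ((a.factorial : ℕ) : ℂ)⁻¹ * ((a'.factorial : ℕ) : ℂ)⁻¹ *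
    NI pl (List.replicate a (lineC true x) ++ List.replicate a' (lineC false x)) g

/-- number of satellites of species `s` -/
def SD.nn (D : SD ι) (s : Bool) (τ : ι → Fin 3) : ℕ :=
  ∑ i ∈ Finset.univ.filter (fun i => D.sp i = s), (τ i : ℕ)

theorem nS_ls {s : Bool} {τ τ' : ι → Fin 3} (hτ : ∀ i, τ i ≠ 0 → act i)
    (h : ∀ i, D.sp i = s → τ' i = τ i) : nS (D.ls act s) τ' = D.nn s τ := by
  unfold nS SD.nn
  rw [((SD.ls_perm s).map _).sum_eq, Finset.sum_map_toList]
  have e : ∑ i ∈ Finset.univ.filter (fun i => act i ∧ D.sp i = s), (τ' i : ℕ) =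
      ∑ i ∈ Finset.univ.filter (fun i => act i ∧ D.sp i = s), (τ i : ℕ) := by
    refine Finset.sum_congr rfl fun i hi => ?_
    rw [h i (Finset.mem_filter.1 hi).2.2]
  rw [e]
  refine Finset.sum_subset (fun i hi => ?_) fun i hi hi' => ?_
  · rw [Finset.mem_filter] at hi ⊢
    exact ⟨hi.1, hi.2.2⟩
  · rw [Finset.mem_filter] at hi hi'
    by_contra hne
    have h0 : τ i ≠ 0 := by
      intro h0
      rw [h0] at hne
      exact hne rfl
    exact hi' ⟨hi.1, hτ i h0, hi.2⟩

theorem fS_ls {s : Bool} {τ τ' : ι → Fin 3} (h : ∀ i, D.sp i = s → τ' i = τ i) :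
    fS (D.ls act s) τ' = fS (D.ls act s) τ := by
  unfold fS
  congr 1
  refine List.map_congr_left fun i hi => ?_
  rw [h i (SD.mem_ls.1 hi).2]

theorem cS_ls {s : Bool} {τ τ' : ι → Fin 3} (h : ∀ i, D.sp i = s → τ' i = τ i) :
    cS s (fun i => (D.p i, D.r i)) (D.ls act s) τ' = D.cL τ (D.ls act s) := by
  unfold cS SD.cL
  refine List.flatMap_congr fun i hi => ?_
  have hs := (SD.mem_ls.1 hi).2
  rw [h i hs]
  unfold SD.ci
  rw [hs]

theorem univ_split {τ : ι → Fin 3} (hτ : ∀ i, τ i ≠ 0 → act i) : ∃ l0 : List ι,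
    (∀ i ∈ l0, τ i = 0) ∧
    (D.ls act true ++ (D.ls act false ++ l0)).Nodup ∧
    ∀ i, i ∈ D.ls act true ++ (D.ls act false ++ l0) := by
  classical
  refine ⟨(Finset.univ.filter fun i => ¬ act i).toList, fun i hi => ?_, ?_, fun i => ?_⟩
  · by_contra hne
    have := hτ i hne
    simp at hi
    exact hi this
  · rw [List.nodup_append, List.nodup_append]
    refine ⟨SD.ls_nodup _, ⟨SD.ls_nodup _, Finset.nodup_toList _, ?_⟩, ?_⟩
    · rintro i hi j hj rfl
      have h1 := (SD.mem_ls.1 hi).1
      simp at hj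
      exact hj h1
    · rintro i hi j hj rfl
      have h1 := SD.mem_ls.1 hi
      rcases List.mem_append.1 hj with hj | hj
      · have h2 := (SD.mem_ls.1 hj).2
        rw [h1.2] at h2
        exact Bool.noConfusion h2
      · simp at hj
        exact hj h1.1
  · by_cases h : act i
    · rw [List.mem_append, List.mem_append, SD.mem_ls, SD.mem_ls]
      rcases Bool.eq_false_or_eq_true (D.sp i) with h1 | h1
      · exact Or.inl ⟨h, h1⟩
      · exact Or.inr (Or.inl ⟨h, h1⟩)
    · rw [List.mem_append, List.mem_append]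
      right
      right
      simpa using h

theorem SD.Geom.okCL (h : D.Geom act x y) (hκ : 0 < κ) {τ : ι → Fin 3} {l : List ι}
    (hl : ∀ i ∈ l, act i) : ∀ c ∈ D.cL τ l, OkC (D.pl act) κ x y c := by
  intro c hc
  unfold SD.cL at hc
  obtain ⟨j, hj, hz⟩ := List.mem_flatMap.1 hc
  rw [(List.mem_replicate.1 hz).2]
  exact (h.cond hκ (hl j hj)).ok

theorem chL_cL_ls {s : Bool} {τ : ι → Fin 3} (hτ : ∀ i, τ i ≠ 0 → act i) :
    chL (D.cL τ (D.ls act s)) = D.nn s τ * sg s := by
  rw [← cS_ls (fun _ _ => rfl), chL_cS, nS_ls hτ fun _ _ => rfl]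

theorem ok_rep {pl : Bool → Finset ℂ} {a b : ℝ} {c : Ct} (h : OkC pl κ a b c) (n : ℕ) :
    ∀ z ∈ List.replicate n c, OkC pl κ a b z := fun z hz => by
  rw [(List.mem_replicate.1 hz).2]
  exact h

theorem ok_app {pl : Bool → Finset ℂ} {a b : ℝ} {L L' : List Ct} (h : ∀ z ∈ L, OkC pl κ a b z)
    (h' : ∀ z ∈ L', OkC pl κ a b z) : ∀ z ∈ L ++ L', OkC pl κ a b z := fun z hz => by
  rcases List.mem_append.1 hz with hz | hz
  · exact h z hz
  · exact h' z hz

/-- **Stage 3, two species.** -/
theorem SD.Geom.expand (h : D.Geom act x y) (hκ : 0 < κ) (a a' : ℕ) {g : Bool → ℂ → ℂ}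
    (hg : Reg (D.pl act) κ x y (a * sg true + a' * sg false) g) :
    ZZ (D.pl act) x a a' g = ∑ τ : ι → Fin 3,
      if (∀ i, τ i ≠ 0 → act i) ∧ D.nn true τ ≤ a ∧ D.nn false τ ≤ a' then
        ∫ θ : ι → ℝ, D.SW τ (D.pl act) g θ *
          ZZ (D.pl act) y (a - D.nn true τ) (a' - D.nn false τ) (D.aS τ g θ)
          ∂(Measure.pi fun _ => mu1)
      else 0 := by
  have G := h.geo hκ
  set pl := D.pl act with hpl
  set P : ι → ℂ × ℝ := fun i => (D.p i, D.r i) with hP
  set lt := D.ls act true with hlt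
  set lf := D.ls act false with hlf
  have oxt := (h.line hκ true).1
  have oxf := (h.line hκ false).1
  have oyt := (h.line hκ true).2
  have oyf := (h.line hκ false).2
  have hin : ∀ s, ∀ i ∈ D.ls act s, (P i).1 ∈ pl s := fun s i hi =>
    SD.mem_pl.2 ⟨i, (SD.mem_ls.1 hi).1, (SD.mem_ls.1 hi).2, rfl⟩
  have hou : ∀ s, ∀ p ∈ pl s, (∃ i ∈ D.ls act s, (P i).1 = p) ∨ p.re < x ∨ y < p.re := by
    intro s p hp
    obtain ⟨i, h1, h2, h3⟩ := SD.mem_pl.1 hp
    exact Or.inl ⟨i, SD.mem_ls.2 ⟨h1, h2⟩, h3⟩
  have okcS : ∀ s τ, ∀ z ∈ cS s P (D.ls act s) τ, OkC pl κ x y z := by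
    intro s τ
    rw [cS_ls (τ := τ) fun _ _ => rfl]
    exact h.okCL hκ fun i hi => (SD.mem_ls.1 hi).1
  -- species X
  have s1 : ZZ pl x a a' g = ((a'.factorial : ℕ) : ℂ)⁻¹ *
      Z1 pl (lineC true x) a (List.replicate a' (lineC false x)) g := by
    unfold ZZ Z1
    ring
  have hg1 : Reg pl κ x y (a * sg true + chL (List.replicate a' (lineC false x))) g := by
    rw [chL_replicate]
    exact hg
  rw [s1, expand_one G (s := true) le_rfl P lt x a (List.replicate a' (lineC false x)) g
    (SD.ls_nodup _) (ok_rep oxf a') le_rfl (h.chn true) (hin true) (hou true) hg1,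
    Finset.mul_sum]
  -- species Y
  have s2 : ∀ τ₁ ∈ Sup lt, ((a'.factorial : ℕ) : ℂ)⁻¹ * (if nS lt τ₁ ≤ a then
      fS lt τ₁ * Z1 pl (lineC true y) (a - nS lt τ₁)
        (cS true P lt τ₁ ++ List.replicate a' (lineC false x)) g else 0) =
      ∑ τ₂ ∈ Sup lf, if nS lt τ₁ ≤ a then (if nS lf τ₂ ≤ a' then
        fS lt τ₁ * fS lf τ₂ * ((((a - nS lt τ₁).factorial : ℕ) : ℂ)⁻¹ *
          Z1 pl (lineC false y) (a' - nS lf τ₂) (cS false P lf τ₂ ++
            (cS true P lt τ₁ ++ List.replicate (a - nS lt τ₁) (lineC true y))) g) else 0) else 0 := by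
    intro τ₁ _
    by_cases h1 : nS lt τ₁ ≤ a
    · simp only [if_pos h1]
      have hperm : (List.replicate (a - nS lt τ₁) (lineC true y) ++
          (cS true P lt τ₁ ++ List.replicate a' (lineC false x))).Perm
          (List.replicate a' (lineC false x) ++
            (cS true P lt τ₁ ++ List.replicate (a - nS lt τ₁) (lineC true y))) := by
        rw [← List.append_assoc]
        refine List.perm_append_comm.trans ?_
        exact List.Perm.append_left _ List.perm_append_comm
      have ok1 : ∀ z ∈ List.replicate (a - nS lt τ₁) (lineC true y) ++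
          (cS true P lt τ₁ ++ List.replicate a' (lineC false x)), OkC pl κ x y z :=
        ok_app (ok_rep oyt _) (ok_app (okcS true τ₁) (ok_rep oxf _))
      have hch : chL (List.replicate (a - nS lt τ₁) (lineC true y) ++
          (cS true P lt τ₁ ++ List.replicate a' (lineC false x))) =
          a * sg true + a' * sg false := by
        rw [chL_append, chL_append, chL_replicate, chL_replicate, chL_cS]
        show ((a - nS lt τ₁ : ℕ) : ℤ) * sg true + ((nS lt τ₁ : ℤ) * sg true +
          (a' : ℤ) * sg false) = _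
        push_cast [h1]
        ring
      have e1 : ((a'.factorial : ℕ) : ℂ)⁻¹ * (fS lt τ₁ * Z1 pl (lineC true y) (a - nS lt τ₁)
          (cS true P lt τ₁ ++ List.replicate a' (lineC false x)) g) =
          fS lt τ₁ * ((((a - nS lt τ₁).factorial : ℕ) : ℂ)⁻¹ * Z1 pl (lineC false x) a'
            (cS true P lt τ₁ ++ List.replicate (a - nS lt τ₁) (lineC true y)) g) := by
        unfold Z1
        rw [NI_perm G hperm ok1 g (by rw [hch]; exact hg)]
        ring
      have hg2 : Reg pl κ x y (a' * sg false +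
          chL (cS true P lt τ₁ ++ List.replicate (a - nS lt τ₁) (lineC true y))) g := by
        have := chL_perm hperm
        rw [hch, chL_append, chL_replicate] at this
        have e3 : (a' : ℤ) * sg false +
          chL (cS true P lt τ₁ ++ List.replicate (a - nS lt τ₁) (lineC true y)) =
            a * sg true + a' * sg false := this.symm
        rw [e3]
        exact hg
      rw [e1, expand_one G (s := false) le_rfl P lf x a'
        (cS true P lt τ₁ ++ List.replicate (a - nS lt τ₁) (lineC true y)) g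
        (SD.ls_nodup _) (ok_app (okcS true τ₁) (ok_rep oyt _)) le_rfl (h.chn false) (hin false)
        (hou false) hg2, Finset.mul_sum, Finset.mul_sum]
      refine Finset.sum_congr rfl fun τ₂ _ => ?_
      split_ifs
      · ring
      · ring
    · simp only [if_neg h1, mul_zero, Finset.sum_const_zero]
  rw [Finset.sum_congr rfl s2, sum_Sup_two, Finset.sum_filter]
  refine Finset.sum_congr rfl fun τ _ => ?_
  by_cases hτ : ∀ i, τ i ≠ 0 → act i
  · have d1 : ∀ i, D.sp i = true → (fun i => if D.sp i = true then τ i else 0) i = τ i :=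
      fun i hi => if_pos hi
    have d2 : ∀ i, D.sp i = false → (fun i => if D.sp i = true then 0 else τ i) i = τ i :=
      fun i hi => if_neg (by rw [hi]; decide)
    rw [if_pos hτ, nS_ls hτ d1, nS_ls hτ d2, fS_ls d1, fS_ls d2, cS_ls d1, cS_ls d2]
    by_cases h1 : D.nn true τ ≤ a
    · by_cases h2 : D.nn false τ ≤ a'
      · rw [if_pos h1, if_pos h2, if_pos ⟨hτ, h1, h2⟩]
        obtain ⟨l0, hl0, hnd, hun⟩ := univ_split (D := D) hτ
        set R := List.replicate (a - D.nn true τ) (lineC true y) ++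
          List.replicate (a' - D.nn false τ) (lineC false y) with hR
        have okR : ∀ z ∈ R, OkC pl κ x y z := ok_app (ok_rep oyt _) (ok_rep oyf _)
        have hcl : D.cL τ (lt ++ (lf ++ l0)) = D.cL τ lt ++ D.cL τ lf := by
          rw [SD.cL_append, SD.cL_append, SD.cL_zero hl0, List.append_nil]
        have hfs : fS (lt ++ (lf ++ l0)) τ = fS lt τ * fS lf τ := by
          rw [fS_append, fS_append, fS_zero hl0, mul_one]
        have hch : chL (D.cL τ (lt ++ (lf ++ l0))) + chL R = a * sg true + a' * sg false := by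
          rw [hcl, hR, chL_append, chL_append, chL_replicate, chL_replicate, chL_cL_ls hτ,
            chL_cL_ls hτ]
          show (D.nn true τ : ℤ) * sg true + (D.nn false τ : ℤ) * sg false +
            (((a - D.nn true τ : ℕ) : ℤ) * sg true +
            ((a' - D.nn false τ : ℕ) : ℤ) * sg false) = _
          push_cast [h1, h2]
          ring
        have ev := SD.eval (σ := τ) G hnd hun (fun i hi => h.cond hκ (hτ i hi)) okR g
          (by rw [hch]; exact hg)
        rw [hfs, hcl] at ev
        have hperm : (List.replicate (a' - D.nn false τ) (lineC false y) ++ (D.cL τ lf ++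
            (D.cL τ lt ++ List.replicate (a - D.nn true τ) (lineC true y)))).Perm
            (D.cL τ lt ++ D.cL τ lf ++ R) := by
          rw [hR]
          refine List.perm_append_comm.trans ?_
          rw [← List.append_assoc, ← List.append_assoc]
          refine List.Perm.append_right _ ?_
          exact List.Perm.append_right _ List.perm_append_comm
        have hcl2 : chL (D.cL τ lt ++ D.cL τ lf ++ R) = a * sg true + a' * sg false := by
          rw [chL_append, ← hcl]
          exact hch
        have okall : ∀ z ∈ D.cL τ lt ++ D.cL τ lf ++ R, OkC pl κ x y z :=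
          ok_app (ok_app (h.okCL hκ fun i hi => (SD.mem_ls.1 hi).1)
            (h.okCL hκ fun i hi => (SD.mem_ls.1 hi).1)) okR
        have e1 : NI pl (List.replicate (a' - D.nn false τ) (lineC false y) ++ (D.cL τ lf ++
            (D.cL τ lt ++ List.replicate (a - D.nn true τ) (lineC true y)))) g =
            NI pl (D.cL τ lt ++ D.cL τ lf ++ R) g :=
          NI_perm G hperm (fun z hz => okall z (hperm.mem_iff.1 hz)) g
            (by rw [chL_perm hperm, hcl2]; exact hg)
        have e2 : fS lt τ * fS lf τ * ((((a - D.nn true τ).factorial : ℕ) : ℂ)⁻¹ *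
            Z1 pl (lineC false y) (a' - D.nn false τ) (D.cL τ lf ++
              (D.cL τ lt ++ List.replicate (a - D.nn true τ) (lineC true y))) g) =
            (((a - D.nn true τ).factorial : ℕ) : ℂ)⁻¹ *
            (((a' - D.nn false τ).factorial : ℕ) : ℂ)⁻¹ *
            (fS lt τ * fS lf τ * NI pl (D.cL τ lt ++ D.cL τ lf ++ R) g) := by
          unfold Z1
          rw [e1]
          ring
        rw [e2, ev, ← integral_const_mul]
        refine integral_congr_ae (Eventually.of_forall fun θ => ?_)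
        unfold ZZ
        simp only []
        ring
      · rw [if_pos h1, if_neg h2, if_neg fun hc => h2 hc.2.2]
    · rw [if_neg h1, if_neg fun hc => h1 hc.2.1]
  · rw [if_neg hτ, if_neg fun hc => hτ hc.1]

end NUP1S

end
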