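import Pool.Agent.NUP1S.Curve
import Pool.Agent.NUP1S.TwoSat
import Pool.Agent.NU42.Defs

/-!
# The gas of quanta on the curves: product form and modulus

`ZZ_crv`: the gas on the line = the gas on the curves; `ZZ_le`: its modulus is at most the integral
of the positive gas `NU42.WO`; `gas_le`: the same for `gas`.
-/

set_option autoImplicit false
set_option linter.unusedSectionVars false

noncomputable section

open Complex MeasureTheory NUP1 NUP1.Bd Set Filter Topology
open scoped Real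

namespace NUP1S

variable {pl : Bool → Finset ℂ} {κ a b : ℝ}

/-- the curves instead of the line -/
theorem ZZ_crv (G : Geo pl κ a b) {x : ℝ} {D D1 E E1 : ℝ → ℂ}
    (CX : CrvOk pl a b true x D D1) (CY : CrvOk pl a b false x E E1) (m n : ℕ)
    {g : Bool → ℂ → ℂ} (hg : Reg pl κ a b ((m : ℤ) - n) g) :
    ZZ pl x m n g = ((m.factorial : ℕ) : ℂ)⁻¹ * ((n.factorial : ℕ) : ℂ)⁻¹ *
      NI pl (List.replicate m (crvC true x D D1) ++ List.replicate n (crvC false x E E1)) g := by
  have hg' : Reg pl κ a b (m * sg true + n * sg (!true)) g := by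
    convert hg using 1
    simp [sg]
    ring
  have := J_crv G (s := true) (x := x) (y := x) CX CY m n hg'
  unfold J Jc Z1 at this
  unfold ZZ
  simp only [Bool.not_true] at this
  linear_combination this

/-- the contours of the two species -/
def cCt (m n : ℕ) (cX cY : Ct) : Fin m ⊕ Fin n → Ct := Sum.elim (fun _ => cX) (fun _ => cY)

theorem NI_two (G : Geo pl κ a b) {cX cY : Ct} (hX : OkC pl κ a b cX) (hY : OkC pl κ a b cY)
    (sX : cX.sp = true) (sY : cY.sp = false) (m n : ℕ) {g : Bool → ℂ → ℂ}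
    (hg : Reg pl κ a b ((m : ℤ) - n) g) :
    Integrable (fun p : (Fin m → ℝ) × (Fin n → ℝ) => Fc pl g (cCt m n cX cY) (Sum.elim p.1 p.2))
      ((Measure.pi fun _ => volume).prod (Measure.pi fun _ => volume)) ∧
    NI pl (List.replicate m cX ++ List.replicate n cY) g =
      ∫ p : (Fin m → ℝ) × (Fin n → ℝ), Fc pl g (cCt m n cX cY) (Sum.elim p.1 p.2)
        ∂((Measure.pi fun _ => volume).prod (Measure.pi fun _ => volume)) := by
  have hC : ∀ i, OkC pl κ a b (cCt m n cX cY i) := by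
    rintro (i | i)
    · exact hX
    · exact hY
  have hQ : chI (cCt m n cX cY) = (m : ℤ) - n := by
    unfold chI cCt
    rw [Fintype.sum_sum_type]
    simp [sX, sY, sg]
    ring
  have hI := integrable_Fc G hC (g := g) (by rw [hQ]; exact hg)
  refine ⟨integrable_sum hI, ?_⟩
  have hL : chL (List.replicate m cX ++ List.replicate n cY) = (m : ℤ) - n := by
    rw [chL_append, chL_replicate, chL_replicate, sX, sY]
    simp [sg]
    ring
  have hlen : m + n = (List.replicate m cX ++ List.replicate n cY).length := by simp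
  obtain ⟨e, he⟩ : ∃ e : Fin m ⊕ Fin n ≃ Fin (List.replicate m cX ++ List.replicate n cY).length,
      ∀ i, cCt m n cX cY i = (List.replicate m cX ++ List.replicate n cY).get (e i) := by
    refine ⟨finSumFinEquiv.trans (finCongr hlen), ?_⟩
    rintro (i | i)
    · simp [cCt]
    · simp [cCt]
  rw [NI_eq_int G _ (fun c hc => by
      simp only [List.mem_append, List.mem_replicate] at hc
      rcases hc with ⟨_, rfl⟩ | ⟨_, rfl⟩
      · exact hX
      · exact hY) g (by rw [hL]; exact hg) _ e he, integral_sum]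

/-! ## the modulus -/

theorem norm_P {r : ℕ} (f : Fin r → Fin r → ℂ) :
    ‖Grand.P f‖ = ∏ i, ∏ j ∈ Finset.Ioi i, ‖f i j‖ := by
  unfold Grand.P
  rw [norm_prod]
  refine Finset.prod_congr rfl fun i _ => ?_
  rw [norm_prod]
  rw [← Finset.prod_filter_mul_prod_filter_not Finset.univ (fun j => i < j)]
  have e2 : ∏ j ∈ Finset.univ.filter (fun j => ¬ i < j), ‖if i < j then f i j else 1‖ = 1 := by
    refine Finset.prod_eq_one fun j hj => ?_
    rw [if_neg (Finset.mem_filter.1 hj).2, norm_one]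
  rw [e2, mul_one]
  have e3 : Finset.univ.filter (fun j => i < j) = Finset.Ioi i := by
    ext j
    simp
  rw [e3]
  refine Finset.prod_congr rfl fun j hj => ?_
  rw [if_pos (Finset.mem_Ioi.1 hj)]

theorem pos_sub (s s' : Bool) (τ : ℝ) (D D1 E E1 : ℝ → ℂ) (t t' : ℝ) :
    (crvC s τ D D1).pos t - (crvC s' τ E E1).pos t' = I * ((t + D t) - (t' + E t')) := by
  show (vl τ t + I * D t) - (vl τ t' + I * E t') = _
  unfold vl
  ring

theorem pwc_own (s : Bool) (τ : ℝ) (D D1 : ℝ → ℂ) (t t' : ℝ) :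
    pwc (crvC s τ D D1) (crvC s τ D D1) t t' = NUKer.wcx ((t + D t) - (t' + D t')) := by
  unfold pwc
  rw [pos_sub]
  show PP s s _ = _
  rw [PP, if_pos rfl, q_I_mul]

theorem pwc_cross (τ : ℝ) (D D1 E E1 : ℝ → ℂ) (t t' : ℝ) :
    pwc (crvC true τ D D1) (crvC false τ E E1) t t' = NUKer.gcx ((t + D t) - (t' + E t')) := by
  unfold pwc
  rw [pos_sub]
  show PP true false _ = _
  rw [PP, if_neg (by simp), qg_I_mul]

theorem hh_crv (g : Bool → ℂ → ℂ) (s : Bool) (τ : ℝ) (D D1 : ℝ → ℂ) (t : ℝ) :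
    ‖hh pl g (crvC s τ D D1) t‖ = (2 * π)⁻¹ * (‖1 + D1 t‖ * ‖Wt pl g s (vl τ t + I * D t)‖) := by
  show ‖(2 * π : ℂ)⁻¹ * (1 + D1 t) * Wt pl g s (vl τ t + I * D t)‖ = _
  rw [norm_mul, norm_mul, norm_inv]
  have : ‖(2 * π : ℂ)‖ = 2 * π := by
    rw [norm_mul, Complex.norm_real, Real.norm_of_nonneg Real.pi_pos.le]
    simp
  rw [this, mul_assoc]

/-- the modulus of the integrand is the positive gas -/
theorem norm_Fc {m n : ℕ} (g : Bool → ℂ → ℂ) (τ : ℝ) (D D1 E E1 : ℝ → ℂ) (t : Fin m → ℝ)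
    (t' : Fin n → ℝ) :
    ‖Fc pl g (cCt m n (crvC true τ D D1) (crvC false τ E E1)) (Sum.elim t t')‖ =
      (2 * π)⁻¹ ^ (m + n) * NU42.WO D D1 E E1 (fun t => ‖Wt pl g true (vl τ t + I * D t)‖)
        (fun t => ‖Wt pl g false (vl τ t + I * E t)‖) t t' := by
  unfold Fc cCt
  rw [PU_sum (pwc_pair_symm _ _), Fintype.prod_sum_type]
  simp only [Sum.elim_inl, Sum.elim_inr]
  rw [PU_fin (fun a b => pwc_symm _ _ _ _), PU_fin (fun a b => pwc_symm _ _ _ _), norm_mul,
    norm_mul, norm_mul, norm_mul, norm_P, norm_P, norm_prod, norm_prod, norm_prod]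
  simp only [pwc_own, norm_prod, pwc_cross, hh_crv]
  rw [Finset.prod_mul_distrib (s := Finset.univ (α := Fin m)),
    Finset.prod_mul_distrib (s := Finset.univ (α := Fin n)), Finset.prod_const, Finset.prod_const,
    Finset.card_univ, Finset.card_univ, Fintype.card_fin, Fintype.card_fin, pow_add]
  unfold NU42.WO NU42.ow NU42.cr NU42.ob
  ring

/-- **The gas on the line is bounded by the positive gas on the curves.** -/
theorem ZZ_le (G : Geo pl κ a b) {x : ℝ} {D D1 E E1 : ℝ → ℂ}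
    (CX : CrvOk pl a b true x D D1) (CY : CrvOk pl a b false x E E1) (m n : ℕ)
    {g : Bool → ℂ → ℂ} (hg : Reg pl κ a b ((m : ℤ) - n) g) :
    Integrable (fun p : (Fin m → ℝ) × (Fin n → ℝ) =>
      NU42.WO D D1 E E1 (fun t => ‖Wt pl g true (vl x t + I * D t)‖)
        (fun t => ‖Wt pl g false (vl x t + I * E t)‖) p.1 p.2)
      ((Measure.pi fun _ => volume).prod (Measure.pi fun _ => volume)) ∧
    ‖ZZ pl x m n g‖ ≤ ((m.factorial : ℝ) * n.factorial * (2 * π) ^ (m + n))⁻¹ *
      ∫ p : (Fin m → ℝ) × (Fin n → ℝ),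
        NU42.WO D D1 E E1 (fun t => ‖Wt pl g true (vl x t + I * D t)‖)
          (fun t => ‖Wt pl g false (vl x t + I * E t)‖) p.1 p.2
        ∂((Measure.pi fun _ => volume).prod (Measure.pi fun _ => volume)) := by
  obtain ⟨hI, hN⟩ := NI_two G (CX.ok G) (CY.ok G) rfl rfl m n hg
  have h2pi : (0 : ℝ) < 2 * π := by positivity
  have e : ∀ p : (Fin m → ℝ) × (Fin n → ℝ),
      NU42.WO D D1 E E1 (fun t => ‖Wt pl g true (vl x t + I * D t)‖)
        (fun t => ‖Wt pl g false (vl x t + I * E t)‖) p.1 p.2 =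
      (2 * π) ^ (m + n) *
        ‖Fc pl g (cCt m n (crvC true x D D1) (crvC false x E E1)) (Sum.elim p.1 p.2)‖ := by
    intro p
    rw [norm_Fc, ← mul_assoc, ← mul_pow, mul_inv_cancel₀ h2pi.ne', one_pow, one_mul]
  constructor
  · refine (hI.norm.const_mul ((2 * π) ^ (m + n))).congr (Eventually.of_forall fun p => ?_)
    exact (e p).symm
  · rw [ZZ_crv G CX CY m n hg, hN, norm_mul, norm_mul, norm_inv, norm_inv, Complex.norm_natCast,
      Complex.norm_natCast]
    simp only [e]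
    rw [integral_const_mul, mul_inv, mul_inv, mul_assoc ((m.factorial : ℝ)⁻¹ * (n.factorial : ℝ)⁻¹),
      ← mul_assoc (((2 * π) ^ (m + n))⁻¹), inv_mul_cancel₀ (by positivity), one_mul]
    exact mul_le_mul_of_nonneg_left (norm_integral_le_integral_norm _) (by positivity)

/-! ## the gas of stage 2 -/

/-- no poles -/
def p0 : Bool → Finset ℂ := fun _ => ∅

theorem Wt_p0 (g : Bool → ℂ → ℂ) (s : Bool) (u : ℂ) : Wt p0 g s u = g s u := by
  simp [Wt, p0]

/-- one body functions of the two species -/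
def g2 (H H' : ℂ → ℂ) : Bool → ℂ → ℂ := fun s => if s then H else H'

theorem geo_p0 {κ a b : ℝ} (hκ : 0 < κ) (hab : a ≤ b) (hw : b - a < l) : Geo p0 κ a b :=
  ⟨hκ, hab, hw, fun s p hp => by simp [p0] at hp⟩

theorem gas_eq_ZZc {κ a b x : ℝ} (G : Geo p0 κ a b) (h1 : a ≤ x) (h2 : x ≤ b) (m n : ℕ)
    {H H' : ℂ → ℂ} (hg : Reg p0 κ a b ((m : ℤ) - n) (g2 H H')) :
    gas m n x H H' = ZZ p0 x m n (g2 H H') := by
  have okl : ∀ s, OkC p0 κ a b (lineC s x) := fun s =>
    okC_line G.kpos h1 h2 fun p hp => by simp [p0] at hp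
  rw [ZZ, (NI_two G (okl true) (okl false) rfl rfl m n hg).2, ← integral_sum
    (f := fun t => Fc p0 (g2 H H') (cCt m n (lineC true x) (lineC false x)) t)]
  unfold gas Ig
  rw [← integral_const_mul, ← integral_const_mul]
  refine integral_congr_ae (Eventually.of_forall fun t => ?_)
  simp only []
  have e1 : ∏ i, hh p0 (g2 H H') (cCt m n (lineC true x) (lineC false x) i) (t i) =
      ((2 * π : ℂ)⁻¹ ^ m * (2 * π : ℂ)⁻¹ ^ n) *
        ∏ i : Fin m ⊕ Fin n, (Sum.elim (fun _ => H) (fun _ => H') i : ℂ → ℂ) (pos (fun _ => x) t i) := by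
    rw [Fintype.prod_sum_type, Fintype.prod_sum_type]
    have k1 : ∀ i : Fin m, hh p0 (g2 H H') (cCt m n (lineC true x) (lineC false x) (.inl i))
        (t (.inl i)) = (2 * π : ℂ)⁻¹ * H (vl x (t (.inl i))) := fun i => by
      show (2 * π : ℂ)⁻¹ * Wt p0 (g2 H H') true (vl x (t (.inl i))) = _
      rw [Wt_p0]
      rfl
    have k2 : ∀ i : Fin n, hh p0 (g2 H H') (cCt m n (lineC true x) (lineC false x) (.inr i))
        (t (.inr i)) = (2 * π : ℂ)⁻¹ * H' (vl x (t (.inr i))) := fun i => by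
      show (2 * π : ℂ)⁻¹ * Wt p0 (g2 H H') false (vl x (t (.inr i))) = _
      rw [Wt_p0]
      rfl
    simp only [k1, k2]
    rw [Finset.prod_mul_distrib, Finset.prod_mul_distrib, Finset.prod_const, Finset.prod_const,
      Finset.card_univ, Finset.card_univ, Fintype.card_fin, Fintype.card_fin]
    simp only [Sum.elim_inl, Sum.elim_inr, pos]
    ring
  have e2 : (fun i j => pwc (cCt m n (lineC true x) (lineC false x) i)
      (cCt m n (lineC true x) (lineC false x) j) (t i) (t j)) =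
      fun i j => gz (oo (fun _ : Fin m => Ob.A) (fun _ : Fin n => Ob.A) i)
        (oo (fun _ : Fin m => Ob.A) (fun _ : Fin n => Ob.A) j)
        (pos (fun _ => x) t i - pos (fun _ => x) t j) := by
    funext i j
    rcases i with i | i <;> rcases j with j | j <;>
      simp [pwc, cCt, lineC, gz, oo, PP, pwz, cwz, pos]
  unfold Fc Fg
  rw [e1, e2]
  ring

/-- **The gas of stage 2 on the curves.** -/
theorem gas_le {κ a b x : ℝ} (hκ : 0 < κ) (hw : b - a < l) {D D1 E E1 : ℝ → ℂ}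
    (CX : Crv a b x D D1) (CY : Crv a b x E E1) (m n : ℕ)
    {H H' : ℂ → ℂ} (hg : Reg p0 κ a b ((m : ℤ) - n) (g2 H H')) :
    Integrable (fun p : (Fin m → ℝ) × (Fin n → ℝ) =>
      NU42.WO D D1 E E1 (fun t => ‖H (vl x t + I * D t)‖) (fun t => ‖H' (vl x t + I * E t)‖) p.1 p.2)
      ((Measure.pi fun _ => volume).prod (Measure.pi fun _ => volume)) ∧
    ‖gas m n x H H'‖ ≤ ((m.factorial : ℝ) * n.factorial * (2 * π) ^ (m + n))⁻¹ *
      ∫ p : (Fin m → ℝ) × (Fin n → ℝ),
        NU42.WO D D1 E E1 (fun t => ‖H (vl x t + I * D t)‖)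
          (fun t => ‖H' (vl x t + I * E t)‖) p.1 p.2
        ∂((Measure.pi fun _ => volume).prod (Measure.pi fun _ => volume)) := by
  have ht := CX.tau
  have G := geo_p0 hκ (ht.1.trans ht.2) hw
  have cX : CrvOk p0 a b true x D D1 := ⟨a, b, CX, le_rfl, le_rfl, fun p hp => by simp [p0] at hp⟩
  have cY : CrvOk p0 a b false x E E1 := ⟨a, b, CY, le_rfl, le_rfl, fun p hp => by simp [p0] at hp⟩
  have := ZZ_le G cX cY m n hg
  simp only [Wt_p0] at this
  rw [gas_eq_ZZc G ht.1 ht.2 m n hg]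
  exact this

/-- the class `Reg` without poles -/
theorem reg_p0 {κ a b : ℝ} {Q : ℤ} {H H' : ℂ → ℂ} (m1 : Measurable H) (m2 : Measurable H')
    (d1 : ∀ u : ℂ, a ≤ u.re → u.re ≤ b → DifferentiableAt ℂ H u)
    (d2 : ∀ u : ℂ, a ≤ u.re → u.re ≤ b → DifferentiableAt ℂ H' u)
    (b1 : DecOn (κ + 2 * Q) (Icc a b) H) (b2 : DecOn (κ - 2 * Q) (Icc a b) H') :
    Reg p0 κ a b Q (g2 H H') := by
  obtain ⟨B1, h1⟩ := b1
  obtain ⟨B2, h2⟩ := b2
  refine ⟨fun s => ?_, fun s u h3 h4 => ?_, max 0 (max B1 B2), le_max_left _ _, fun s u h3 h4 => ?_⟩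
  · cases s
    · exact m2
    · exact m1
  · cases s
    · exact d2 u h3 h4
    · exact d1 u h3 h4
  · cases s
    · refine (h2 u ⟨h3, h4⟩).trans ?_
      have e : -((κ - 2 * (Q : ℝ)) * |u.im|) =
          -((κ + 2 * ((sg false * Q : ℤ) : ℝ) - 2 * ((p0 false).card : ℝ)) * |u.im|) := by
        rw [show ((sg false * Q : ℤ) : ℝ) = -(Q : ℝ) by simp [sg],
          show ((p0 false).card : ℝ) = 0 by simp [p0]]
        ring
      rw [e]
      exact mul_le_mul_of_nonneg_right ((le_max_right _ _).trans (le_max_right _ _))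
        (Real.exp_pos _).le
    · refine (h1 u ⟨h3, h4⟩).trans ?_
      have e : -((κ + 2 * (Q : ℝ)) * |u.im|) =
          -((κ + 2 * ((sg true * Q : ℤ) : ℝ) - 2 * ((p0 true).card : ℝ)) * |u.im|) := by
        simp [sg, p0]
      rw [e]
      exact mul_le_mul_of_nonneg_right ((le_max_left _ _).trans (le_max_right _ _))
        (Real.exp_pos _).le

end NUP1S

end
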