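import Pool.Agent.NUP1S.Abs
import Pool.Agent.NUP1S.Inst2
import Pool.Agent.NUO.GasPot

/-!
# R4: the representation corollary for the rows
-/

set_option autoImplicit false
set_option linter.unusedSectionVars false

noncomputable section

open Complex MeasureTheory Finset
open scoped ENNReal

namespace NUP1S.Ab

open NUP1 NUO NUP1S.Mg

theorem goodP_of {P : NUO.Par} {η η' : ℝ → ℝ} (h : Good P η η') : GoodP P :=
  ⟨h.j1, h.j2, h.e1, h.d0, h.e2, h.r0, h.r1⟩

/-! ### the one body functions -/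

theorem cc_norm : ‖NUO.cc‖ = 2 * Real.cos l := by
  unfold NUO.cc
  rw [norm_mul, norm_neg, Complex.norm_ofNat, Complex.norm_real, Real.norm_of_nonneg]
  apply Real.cos_nonneg_of_mem_Icc
  have := NUP1.l_pos
  have := Real.pi_pos
  have : l = Real.pi / 8 := rfl
  constructor <;> linarith

theorem norm_R0 (m : ℕ) (u : ℂ) : ‖R0 NUO.cc m u‖ = RN m u := by
  unfold R0 RN
  rw [norm_mul, norm_mul, norm_mul, cc_norm]
  simp only [norm_pow, norm_div, norm_one]
  rw [mul_assoc, mul_assoc, ← mul_pow, ← mul_pow]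
  congr 2
  rw [one_div, one_div, div_eq_mul_inv, mul_inv]
  ring

theorem norm_XR_none (β β' : ℝ) (m : ℕ) (u : ℂ) :
    ‖XR NUO.cc β β' m m none u‖ = RN m u * ‖NUO.ph m β u‖ := by
  show ‖R0 NUO.cc m u * NUP1S.ph β m u‖ = _
  rw [norm_mul, norm_R0]
  rfl

theorem XR_none (β β' : ℝ) (m : ℕ) (u : ℂ) : XR NUO.cc β β' m m none u = G0 m m β u := by
  show R0 NUO.cc m u * NUP1S.ph β m u = _
  unfold R0 NUP1S.ph G0
  ring

theorem obX_eq (β jL e ρ : ℝ) (m : ℕ) (x : Xo) :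
    obX (XR NUO.cc β (4 / 3) m m) jL e ρ x = ob1 m β jL e ρ x := by
  unfold obX ob1 oS
  have e1 := norm_XR_none β (4 / 3) m
  have e2 : ∀ u, ‖XR NUO.cc β (4 / 3) m m (some .L) u‖ = RN m u * ‖NUO.ph m β u‖ := e1
  have e3 : ∀ w, ‖XR NUO.cc β (4 / 3) m m (some .S) w‖ =
      RN m w * RN m (w - l) * ‖NUO.ph m (4 / 3) w‖ := by
    intro w
    show ‖R0 NUO.cc m w * R0 NUO.cc m (w - l) * NUP1S.ph (4 / 3) m w‖ = _
    rw [norm_mul, norm_mul, norm_R0, norm_R0]
    rfl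
  have e4 : ∀ w, ‖XR NUO.cc β (4 / 3) m m (some .T) w‖ =
      RN m w * RN m (w - l) * ‖NUO.ph m β w * NUO.ph m β (w - l) - NUO.ph m (4 / 3) w‖ := by
    intro w
    show ‖R0 NUO.cc m w * R0 NUO.cc m (w - l) *
      (NUP1S.ph β m w * NUP1S.ph β m (w - l) - NUP1S.ph (4 / 3) m w)‖ = _
    rw [norm_mul, norm_mul, norm_R0, norm_R0]
    rfl
  rcases kd x with _ | _ | _ | _ | _
  · simp only [e2]
  · simp only [e4]
    ring
  · simp only [e3]
    ring
  · simp only [e3, e1]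
    ring
  · simp only [e3, e1]
    ring

theorem oX_eq (β : ℝ) (m : ℕ) (P : NUO.Par) {r : ℕ} (O : Fin r → Xo) :
    oX (XR NUO.cc β (4 / 3) m m) P O = ob m β P O := by
  funext i
  exact obX_eq β P.jL (ei P O i) (rr P O i) m (O i)

/-- the function of the quanta on the strip of `A'` -/
theorem adm_A {β : ℝ} (h0 : 0 < β) (h1 : β < 4 / 3) : Adm β (3 * l / 2) := by
  have h := adm (ε := 1 - 3 * β / 4) (r := 0) (by linarith) (by linarith) le_rfl
    (by nlinarith [NUP1.l_pos])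
  rw [add_zero] at h
  convert h using 1
  ring

theorem dec_A {β : ℝ} (h0 : 0 < β) (h1 : β < 4 / 3) (β' : ℝ) (m : ℕ) :
    DecOn (2 * β) (Set.Icc (l / 4) l) (XR NUO.cc β β' m m none) := by
  have hl := NUP1.l_pos
  have a1 := bdd_R0 NUO.cc m (K := Set.Icc (l / 4) l) isCompact_Icc fun x hx =>
    NP_pos (by linarith [hx.1]) (by linarith [hx.2])
  have a2 := bdd_ph (adm_A h0 h1) m (K := Set.Icc (l / 4) l) fun x hx => by
    rw [abs_of_pos (by linarith [hx.1])]
    linarith [hx.2]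
  exact DecOn_of_Bdd (a1.mul a2) (by linarith)

theorem diff_A {β : ℝ} (h0 : 0 < β) (h1 : β < 4 / 3) (β' : ℝ) (m : ℕ) (u : ℂ) (hu : l / 4 ≤ u.re)
    (hu' : u.re ≤ l) : DifferentiableAt ℂ (XR NUO.cc β β' m m none) u := by
  have hl := NUP1.l_pos
  refine (diffAt_R0 NUO.cc m (NP_pos (by linarith) (by linarith))).mul
    (diffAt_ph (adm_A h0 h1) m ?_)
  rw [abs_of_pos (by linarith)]
  linarith

/-! ### the formula for `Zn` -/

theorem Zn_eq {β : ℝ} (h0 : 0 < β) (h1 : β < 4 / 3) {P : NUO.Par} (hP : GoodP P) (m n : ℕ) :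
    Zn m m β n = Zobj (XR NUO.cc β (4 / 3) m m) (XR NUO.cc β (4 / 3) m m) (l / 4) n (lX P) (lY P) := by
  have hp := par_J (ε := 1 - 3 * β / 4) (by linarith) (by linarith) hP.j1 hP.j2
  have hb : 4 / 3 * (1 - (1 - 3 * β / 4)) = β := by ring
  rw [hb] at hp
  have h := Z2_rows hp NUO.cc m m n (lX P) (lY P)
    (fun p p' k k' i => lnO_mem hP (i.2.trans_le (Nat.le_add_right _ _)) _)
    (fun p p' k k' i => lnO_mem hP (i.2.trans_le (Nat.le_add_left _ _)) _)
  have e : ExM.GC NUO.cc β (fun _ : Fin m => 0) (fun _ => 0) (fun _ : Fin m => 0) = G0 m m β := by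
    rw [NUO.GC_zero]
    rfl
  rw [e] at h
  unfold Zn
  rw [show -(19 / 10) * l = -(19 / 10 * l) by ring, h]
  rfl

/-- **R4**: the representation corollary -/
theorem r4 : R4 := by
  intro m β h0 h1 P η η' hG n
  have hP := goodP_of hG
  rw [Zn_eq h0 h1 hP]
  refine (Zobj_le' hP hG.rm (measurable_XR NUO.cc β (4 / 3) m m) (κ := 2 * β) (by linarith)
    (diff_A h0 h1 (4 / 3) m) (dec_A h0 h1 (4 / 3) m) n).trans ?_
  refine Finset.sum_le_sum fun r _ => mul_le_mul_right (lintegral_mono fun O => ?_) _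
  unfold FO FF Fn
  by_cases h : chgO O true ≤ n ∧ chgO O false ≤ n
  · rw [if_pos h, if_pos h, oX_eq, WW_objW]
    refine mul_le_mul_right ?_ _
    unfold gasO
    simp only [XR_none]
    exact gas_le_Z1 h0 h1 hG O (by omega)
  · rw [if_neg h]
    exact bot_le

end NUP1S.Ab

end
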