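import Pool.Agent.NUP1S.AbsC

/-!
# The line form of the representation corollary: abstract version

A functional `Φ : Fn` of finite families of objects (every object with its line and its radius).
If for every word and all heights the integrand of the word is at most the sum over the satellites
of the integral over the angles of `Φ`, the sum over all words is at most the sum over the
configurations of `Φ` (`sum_le`).  Nothing is assumed about the form of the integrand: the one body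
functions may depend on the whole configuration and on a marked object.
-/

set_option autoImplicit false
set_option linter.unusedSectionVars false

noncomputable section

open Complex MeasureTheory Finset
open scoped ENNReal

namespace NUP1S.AbG

open NUP1 NUO NUP1S.Mg NUP1S.Ab NURow

/-- **a functional of finite families of objects**: every object comes with its line, its radius
and itself -/
structure Fn where
  f : ∀ (ι : Type) [Fintype ι], (ι → ℝ × ℝ × Xo) → ℝ≥0∞
  equiv : ∀ (ι ι' : Type) [Fintype ι] [Fintype ι'] (e : ι ≃ ι') (a : ι' → ℝ × ℝ × Xo),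
    f ι (fun i => a (e i)) = f ι' a
  meas : ∀ (r : ℕ) (e : Fin r → ℝ) (K : Fin r → Bool × Kind),
    Measurable fun y : Fin r → ℝ × (ℝ × ℝ) => f (Fin r) fun i => (e i, (y i).1, (K i, (y i).2))

/-- the data of a configuration -/
def dG (P : NUO.Par) {r : ℕ} (O : Fin r → Xo) (i : Fin r) : ℝ × ℝ × Xo :=
  (ei P O i, rr P O i, O i)

/-- the data of two families -/
def d2 (P : NUO.Par) {p p' : ℕ} (O : Fin p ⊕ Fin p' → Xo) (i : Fin p ⊕ Fin p') : ℝ × ℝ × Xo :=
  (el2 P i, P.rad (p + p') (ht (O i)), O i)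

section two
variable {p p' : ℕ} (Φ : Fn)

theorem f_eq (P : NUO.Par) {r : ℕ} (s : Finset (Fin r)) (ha : s.card = p) (hp : sᶜ.card = p')
    (O : Fin r → Xo) (hO : ∀ j, sp (O j) = true ↔ j ∈ s) :
    Φ.f (Fin r) (dG P O) = Φ.f (Fin p ⊕ Fin p') (d2 P fun i => O (finSumEquivOfFinset ha hp i)) := by
  have hr : p + p' = r := by
    have := s.card_add_card_compl
    rw [ha, hp, Fintype.card_fin] at this
    exact this
  set e := finSumEquivOfFinset ha hp with he
  have hrk : ∀ i, rk O (e i) = rkS i := by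
    rintro (i | i)
    · exact rk_inl s ha hp O hO i
    · exact rk_inr s ha hp O hO i
  have hei : ∀ i, ei P O (e i) = el2 P i := by
    intro i
    unfold ei el2
    rw [hrk, hr]
  rw [← Φ.equiv (Fin p ⊕ Fin p') (Fin r) e]
  congr 1
  funext i
  unfold dG d2 rr
  rw [hei, hr]

theorem lint_wordG (P : NUO.Par) {r : ℕ} (s : Finset (Fin r)) (ha : s.card = p)
    (hp : sᶜ.card = p') (K : Fin p → Kind) (K' : Fin p' → Kind) :
    ∫⁻ x : Fin r → ℝ × ℝ,
      Φ.f (Fin r) (dG P fun i => ((wd2 K K' ∘ (finSumEquivOfFinset ha hp).symm) i, x i))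
      ∂(Measure.pi fun _ => muE) =
    ∫⁻ x : Fin p ⊕ Fin p' → ℝ × ℝ, Φ.f (Fin p ⊕ Fin p') (d2 P (mk2 K K' x))
      ∂(Measure.pi fun _ => muE) := by
  set e := finSumEquivOfFinset ha hp with he
  have h := measurePreserving_piCongrLeft (α := fun _ : Fin r => ℝ × ℝ) (fun _ : Fin r => muE) e
  have h2 := h.lintegral_comp_emb (MeasurableEquiv.measurableEmbedding _)
    (fun x : Fin r → ℝ × ℝ => Φ.f (Fin r) (dG P fun i => ((wd2 K K' ∘ e.symm) i, x i)))
  rw [← h2]
  refine lintegral_congr fun x => ?_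
  rw [f_eq Φ P s ha hp]
  · congr 2
    funext i
    rw [← he]
    simp only [Function.comp, e.symm_apply_apply]
    unfold mk2
    congr 1
    exact Equiv.piCongrLeft_apply_apply (fun _ : Fin r => ℝ × ℝ) e x i
  · intro j
    obtain ⟨i, rfl⟩ := e.surjective j
    simp only [Function.comp, e.symm_apply_apply]
    rcases i with i | i
    · simp only [wd2, Sum.elim_inl, true_iff]
      rw [he, finSumEquivOfFinset_inl]
      exact orderEmbOfFin_mem s ha i
    · rw [he, finSumEquivOfFinset_inr]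
      exact ⟨fun h => (Bool.false_ne_true h).elim, fun h =>
        absurd h (mem_compl.1 (orderEmbOfFin_mem sᶜ hp i))⟩

end two

/-- **merging the two families** -/
theorem merge_G (Φ : Fn) (P : NUO.Par) (n n' : ℕ) :
    ∑ p ∈ range (n + 1), ∑ p' ∈ range (n' + 1), ((p.factorial : ℕ) : ℝ≥0∞)⁻¹ *
      ((p'.factorial : ℕ) : ℝ≥0∞)⁻¹ * ∑ K : Fin p → Kind, ∑ K' : Fin p' → Kind,
        ∫⁻ x : Fin p ⊕ Fin p' → ℝ × ℝ, Φ.f (Fin p ⊕ Fin p') (d2 P (mk2 K K' x))
          ∂(Measure.pi fun _ => muE) ≤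
    ∑ r ∈ range (n + n' + 1), ((r.factorial : ℕ) : ℝ≥0∞)⁻¹ *
      ∫⁻ O : Fin r → Xo, Φ.f (Fin r) (dG P O) ∂(Measure.pi fun _ => nu) := by
  have H := mergeR (K := Kind) (fun r k => if r ≤ n + n' then
      ∫⁻ x : Fin r → ℝ × ℝ, Φ.f (Fin r) (dG P fun i => (k i, x i))
        ∂(Measure.pi fun _ => muE) else 0)
    (fun p p' K K' => if p + p' ≤ n + n' then
      ∫⁻ x : Fin p ⊕ Fin p' → ℝ × ℝ, Φ.f (Fin p ⊕ Fin p') (d2 P (mk2 K K' x))
        ∂(Measure.pi fun _ => muE) else 0) (fun r s a p ha hp kX kY => by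
      have hr : a + p = r := by
        have := s.card_add_card_compl
        rw [ha, hp, Fintype.card_fin] at this
        exact this
      simp only [hr]
      by_cases h : r ≤ n + n'
      · simp only [if_pos h]
        exact lint_wordG Φ P s ha hp kX kY
      · simp only [if_neg h]) (n + n')
  refine le_trans ?_ (H.trans ?_)
  · refine (Finset.sum_le_sum fun p hp => ?_).trans
      (Finset.sum_le_sum_of_subset (s := range (n + 1)) fun q hq => ?_)
    · refine (Finset.sum_le_sum fun p' hp' => ?_).trans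
        (Finset.sum_le_sum_of_subset (s := range (n' + 1)) fun q hq => ?_)
      · have h1 := Finset.mem_range.1 hp
        have h2 := Finset.mem_range.1 hp'
        have h : p + p' ≤ n + n' := by omega
        simp only [if_pos h]
        exact le_rfl
      · exact Finset.mem_range.2 (by have := Finset.mem_range.1 hq; omega)
    · exact Finset.mem_range.2 (by have := Finset.mem_range.1 hq; omega)
  · rw [← Finset.sum_subset (s₁ := range (n + n' + 1)) (s₂ := range (2 * (n + n') + 1))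
      (fun q hq => Finset.mem_range.2 (by have := Finset.mem_range.1 hq; omega))]
    · refine Finset.sum_le_sum fun r hr => ?_
      have h : r ≤ n + n' := by have := Finset.mem_range.1 hr; omega
      simp only [if_pos h]
      refine le_of_eq ?_
      congr 1
      exact (words_lint muE (Fin r) (fun k x => Φ.f (Fin r) (dG P fun i => (k i, x i)))).symm
    · intro r _ hr
      have h : ¬ r ≤ n + n' := by
        intro h
        exact hr (Finset.mem_range.2 (by omega))
      simp only [if_neg h, Finset.sum_const_zero, mul_zero]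

/-! ### measurability -/

section meas

variable {r : ℕ} (Φ : Fn) (P : NUO.Par)

theorem measurable_G (hP : Measurable (P.rad r)) :
    Measurable fun O : Fin r → Xo => Φ.f (Fin r) (dG P O) := by
  refine measurable_config' fun K => ?_
  have h := Φ.meas r (ei P (fun i => (K i, ((0 : ℝ), (0 : ℝ))))) K
  have h2 : Measurable fun x : Fin r → ℝ × ℝ =>
      (fun i => (P.rad r (x i).1, x i) : Fin r → ℝ × (ℝ × ℝ)) :=
    measurable_pi_lambda _ fun i => (hP.comp (measurable_fst.comp (measurable_pi_apply i))).prodMk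
      (measurable_pi_apply i)
  exact h.comp h2

end meas

section two
variable {p p' : ℕ} (Φ : Fn)

theorem measurable_2 (P : NUO.Par) (hP : ∀ r, Measurable (P.rad r))
    (K : Fin p → Kind) (K' : Fin p' → Kind) :
    Measurable fun x : Fin p ⊕ Fin p' → ℝ × ℝ =>
      Φ.f (Fin p ⊕ Fin p') (d2 P (mk2 K K' x)) := by
  set e := finSumEquivOfFinset (card_fst p p') (card_fst_compl p p') with he
  have h1 : ∀ x, Φ.f (Fin p ⊕ Fin p') (d2 P (mk2 K K' x)) =
      Φ.f (Fin (p + p')) (dG P fun j => mk2 K K' x (e.symm j)) := by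
    intro x
    rw [f_eq Φ P (fst' p p') (card_fst p p') (card_fst_compl p p')]
    · congr 2
      funext i
      rw [← he, e.symm_apply_apply]
    · intro j
      obtain ⟨i, rfl⟩ := e.surjective j
      rw [e.symm_apply_apply]
      rcases i with i | i
      · simp only [mk2, wd2, Sum.elim_inl, true_iff]
        rw [he, finSumEquivOfFinset_inl]
        exact orderEmbOfFin_mem _ _ i
      · rw [he, finSumEquivOfFinset_inr]
        exact ⟨fun h => (Bool.false_ne_true h).elim, fun h =>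
          absurd h (mem_compl.1 (orderEmbOfFin_mem (fst' p p')ᶜ (card_fst_compl p p') i))⟩
  simp_rw [h1]
  refine (measurable_G Φ P (hP _)).comp (measurable_pi_lambda _ fun j => ?_)
  exact measurable_const.prodMk (measurable_pi_apply _)

theorem measurable_pairG (P : NUO.Par) (hP : ∀ r, Measurable (P.rad r))
    (K : Fin p → Kind) (K' : Fin p' → Kind) :
    Measurable fun q : (Fin p ⊕ Fin p' → ℝ) × (Fin p ⊕ Fin p' → ℝ) =>
      Φ.f (Fin p ⊕ Fin p') (d2 P (mk2 K K' fun i => (q.1 i, q.2 i))) := by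
  refine (measurable_2 Φ P hP K K').comp (measurable_pi_lambda _ fun i => ?_)
  exact ((measurable_pi_apply i).comp measurable_fst).prodMk
    ((measurable_pi_apply i).comp measurable_snd)

/-- heights and angles -/
theorem fubiniG (P : NUO.Par) (hP : ∀ r, Measurable (P.rad r)) (K : Fin p → Kind)
    (K' : Fin p' → Kind) :
    ∫⁻ t : Fin p ⊕ Fin p' → ℝ, ∫⁻ θ : Fin p ⊕ Fin p' → ℝ,
      Φ.f (Fin p ⊕ Fin p') (d2 P (mk2 K K' fun i => (t i, θ i)))
      ∂(Measure.pi fun _ => (volume : Measure ℝ).restrict (Set.Ioc 0 1))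
      ∂(Measure.pi fun _ => volume) =
    ∫⁻ x : Fin p ⊕ Fin p' → ℝ × ℝ, Φ.f (Fin p ⊕ Fin p') (d2 P (mk2 K K' x))
      ∂(Measure.pi fun _ => muE) := by
  have h := measurePreserving_arrowProdEquivProdArrow ℝ ℝ (Fin p ⊕ Fin p')
    (fun _ => (volume : Measure ℝ)) (fun _ => (volume : Measure ℝ).restrict (Set.Ioc 0 1))
  have h2 := h.lintegral_comp_emb (MeasurableEquiv.measurableEmbedding _)
    (fun q => Φ.f (Fin p ⊕ Fin p') (d2 P (mk2 K K' fun i => (q.1 i, q.2 i))))
  rw [lintegral_prod _ (measurable_pairG Φ P hP K K').aemeasurable] at h2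
  rw [← h2]
  rfl

theorem measurable_inG (P : NUO.Par) (hP : ∀ r, Measurable (P.rad r))
    (K : Fin p → Kind) (K' : Fin p' → Kind) :
    Measurable fun t : Fin p ⊕ Fin p' → ℝ => ∫⁻ θ : Fin p ⊕ Fin p' → ℝ,
      Φ.f (Fin p ⊕ Fin p') (d2 P (mk2 K K' fun i => (t i, θ i)))
      ∂(Measure.pi fun _ => (volume : Measure ℝ).restrict (Set.Ioc 0 1)) :=
  (measurable_pairG Φ P hP K K').lintegral_prod_right'

end two

/-! ### the abstract line form -/

section main

/-- the integrands of the words at fixed heights -/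
abbrev Integrands : Type :=
  ∀ (p p' : ℕ) (_ : Fin p → O3) (_ : Fin p' → O3) (_ : Fin p ⊕ Fin p' → ℝ), ℂ

/-- the sum over the words of the integrals over the heights -/
def ZG (TT : Integrands) (n n' : ℕ) : ℂ :=
  ∑ p' ∈ Finset.range (n' + 1), ∑ p ∈ Finset.range (n + 1),
    ((p'.factorial : ℕ) : ℂ)⁻¹ * ((p.factorial : ℕ) : ℂ)⁻¹ *
    ∑ k' : Fin p' → O3, ∑ k : Fin p → O3,
      if ∑ i, c3 (k' i) ≤ n' ∧ ∑ i, c3 (k i) ≤ n then
        ∫ t : Fin p ⊕ Fin p' → ℝ, TT p p' k k' t ∂(Measure.pi fun _ => volume) else 0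

/-- **one word at fixed heights** -/
def WordG (TT : Integrands) (P : NUO.Par) (Φ : Fn) (n n' : ℕ) : Prop :=
  ∀ (p p' : ℕ) (k : Fin p → O3) (k' : Fin p' → O3), ∑ i, c3 (k i) ≤ n → ∑ i, c3 (k' i) ≤ n' →
    ∀ t : Fin p ⊕ Fin p' → ℝ, ‖TT p p' k k' t‖ₑ ≤
    ∑ τ : Fin p ⊕ Fin p' → Fin 3,
      if ∀ i, τ i ≠ 0 → actO k k' i then
        ∫⁻ θ : Fin p ⊕ Fin p' → ℝ, Φ.f (Fin p ⊕ Fin p')
          (d2 P (mk2 (fun i => kdO (k i) (τ (Sum.inl i)))
            (fun i => kdO (k' i) (τ (Sum.inr i))) fun i => (t i, θ i)))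
          ∂(Measure.pi fun _ => (volume : Measure ℝ).restrict (Set.Ioc 0 1))
      else 0

theorem ZG_le {TT : Integrands} {P : NUO.Par} {Φ : Fn} {n n' : ℕ}
    (hP : ∀ r, Measurable (P.rad r)) (hW : WordG TT P Φ n n') :
    ‖ZG TT n n'‖ₑ ≤ ∑ r ∈ range (n + n' + 1), ((r.factorial : ℕ) : ℝ≥0∞)⁻¹ *
        ∫⁻ O : Fin r → Xo, Φ.f (Fin r) (dG P O) ∂(Measure.pi fun _ => nu) := by
  refine le_trans ?_ (merge_G Φ P n n')
  unfold ZG
  refine (enorm_sum_le _ _).trans ?_
  rw [Finset.sum_comm (f := fun p p' => ((p.factorial : ℕ) : ℝ≥0∞)⁻¹ *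
      ((p'.factorial : ℕ) : ℝ≥0∞)⁻¹ * ∑ K : Fin p → Kind, ∑ K' : Fin p' → Kind,
        ∫⁻ x : Fin p ⊕ Fin p' → ℝ × ℝ, Φ.f (Fin p ⊕ Fin p') (d2 P (mk2 K K' x))
          ∂(Measure.pi fun _ => muE))]
  refine (Finset.sum_le_sum fun p' _ => (enorm_sum_le _ _)).trans ?_
  refine Finset.sum_le_sum fun p' _ => Finset.sum_le_sum fun p _ => ?_
  have hf : ∀ q : ℕ, ‖((q.factorial : ℕ) : ℂ)⁻¹‖ₑ = ((q.factorial : ℕ) : ℝ≥0∞)⁻¹ := by
    intro q
    have h0 : ((q.factorial : ℕ) : ℂ) ≠ 0 := by exact_mod_cast q.factorial_ne_zero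
    rw [enorm_inv h0]
    congr 1
    rw [← ofReal_norm, Complex.norm_natCast, ENNReal.ofReal_natCast]
  rw [enorm_mul, enorm_mul, hf, hf, mul_comm (((p'.factorial : ℕ) : ℝ≥0∞)⁻¹)]
  refine mul_le_mul_right ?_ _
  calc ‖∑ k' : Fin p' → O3, ∑ k : Fin p → O3, if ∑ i, c3 (k' i) ≤ n' ∧ ∑ i, c3 (k i) ≤ n then
          ∫ t : Fin p ⊕ Fin p' → ℝ, TT p p' k k' t ∂(Measure.pi fun _ => volume) else 0‖ₑ
      ≤ ∑ k' : Fin p' → O3, ∑ k : Fin p → O3, ∫⁻ t : Fin p ⊕ Fin p' → ℝ,
        ∑ τ : Fin p ⊕ Fin p' → Fin 3,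
        (if ∀ i, τ i ≠ 0 → actO k k' i then ∫⁻ θ : Fin p ⊕ Fin p' → ℝ,
          Φ.f (Fin p ⊕ Fin p') (d2 P (mk2 (fun i => kdO (k i) (τ (Sum.inl i)))
            (fun i => kdO (k' i) (τ (Sum.inr i))) fun i => (t i, θ i)))
          ∂(Measure.pi fun _ => (volume : Measure ℝ).restrict (Set.Ioc 0 1)) else 0)
        ∂(Measure.pi fun _ => volume) := by
        refine (enorm_sum_le _ _).trans (Finset.sum_le_sum fun k' _ =>
          (enorm_sum_le _ _).trans (Finset.sum_le_sum fun k _ => ?_))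
        by_cases h : ∑ i, c3 (k' i) ≤ n' ∧ ∑ i, c3 (k i) ≤ n
        · rw [if_pos h]
          exact (enorm_integral_le_lintegral_enorm _).trans
            (lintegral_mono fun t => hW p p' k k' h.2 h.1 t)
        · rw [if_neg h, enorm_zero]
          exact bot_le
    _ = ∑ k' : Fin p' → O3, ∑ k : Fin p → O3, ∑ τ : Fin p ⊕ Fin p' → Fin 3,
        (if ∀ i, τ i ≠ 0 → actO k k' i then ∫⁻ t : Fin p ⊕ Fin p' → ℝ,
          ∫⁻ θ : Fin p ⊕ Fin p' → ℝ,
          Φ.f (Fin p ⊕ Fin p') (d2 P (mk2 (fun i => kdO (k i) (τ (Sum.inl i)))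
            (fun i => kdO (k' i) (τ (Sum.inr i))) fun i => (t i, θ i)))
          ∂(Measure.pi fun _ => (volume : Measure ℝ).restrict (Set.Ioc 0 1))
          ∂(Measure.pi fun _ => volume) else 0) := by
        refine Finset.sum_congr rfl fun k' _ => Finset.sum_congr rfl fun k _ => ?_
        rw [lintegral_finsetSum]
        · refine Finset.sum_congr rfl fun τ _ => ?_
          by_cases h : ∀ i, τ i ≠ 0 → actO k k' i
          · simp only [if_pos h]
          · simp only [if_neg h, lintegral_zero]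
        · intro τ _
          by_cases h : ∀ i, τ i ≠ 0 → actO k k' i
          · simp only [if_pos h]
            exact measurable_inG Φ P hP _ _
          · simp only [if_neg h]
            exact measurable_const
    _ = ∑ K : Fin p → Kind, ∑ K' : Fin p' → Kind, ∫⁻ t : Fin p ⊕ Fin p' → ℝ,
          ∫⁻ θ : Fin p ⊕ Fin p' → ℝ, Φ.f (Fin p ⊕ Fin p') (d2 P (mk2 K K' fun i => (t i, θ i)))
          ∂(Measure.pi fun _ => (volume : Measure ℝ).restrict (Set.Ioc 0 1))
          ∂(Measure.pi fun _ => volume) :=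
        sum_kdO_two (fun K K' => ∫⁻ t : Fin p ⊕ Fin p' → ℝ,
          ∫⁻ θ : Fin p ⊕ Fin p' → ℝ, Φ.f (Fin p ⊕ Fin p') (d2 P (mk2 K K' fun i => (t i, θ i)))
          ∂(Measure.pi fun _ => (volume : Measure ℝ).restrict (Set.Ioc 0 1))
          ∂(Measure.pi fun _ => volume))
    _ = _ := Finset.sum_congr rfl fun K _ => Finset.sum_congr rfl fun K' _ => fubiniG Φ P hP K K'

end main

end NUP1S.AbG

end
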