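import Pool.Agent.NUP1S.Chain
import Pool.Agent.NUP1S.Stage2

/-!
# The product integrand over a general index type, blocks
-/

set_option autoImplicit false
set_option linter.unusedSectionVars false

noncomputable section

open Complex MeasureTheory NUP1 Set Filter Topology
open scoped Real

namespace NUP1S

variable {pl : Bool → Finset ℂ} {κ a b : ℝ}

section
variable {ι ι' : Type*} [Fintype ι] [Fintype ι']

/-- the product integrand -/
def Fc (pl : Bool → Finset ℂ) (g : Bool → ℂ → ℂ) (C : ι → Ct) (t : ι → ℝ) : ℂ :=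
  (∏ i, hh pl g (C i) (t i)) * PU fun i j => pwc (C i) (C j) (t i) (t j)

theorem pwc_pair_symm (C : ι → Ct) (t : ι → ℝ) (i j : ι) :
    pwc (C i) (C j) (t i) (t j) = pwc (C j) (C i) (t j) (t i) := pwc_symm _ _ _ _

theorem Fc_equiv (e : ι ≃ ι') (g : Bool → ℂ → ℂ) (C : ι' → Ct) (t : ι' → ℝ) :
    Fc pl g (fun i => C (e i)) (fun i => t (e i)) = Fc pl g C t := by
  unfold Fc
  rw [← PU_equiv e (pwc_pair_symm C t), ← e.prod_comp]

theorem Fc_fin {n : ℕ} (g : Bool → ℂ → ℂ) (C : Fin n → Ct) (t : Fin n → ℝ) :
    Fc pl g C t = Grand.f pwc C (hh pl g) t := by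
  unfold Fc Grand.f
  rw [PU_fin (pwc_pair_symm C t)]

theorem int_equiv (e : ι ≃ ι') (g : Bool → ℂ → ℂ) (C : ι' → Ct) :
    ∫ t : ι → ℝ, Fc pl g (fun i => C (e i)) t ∂(Measure.pi fun _ => volume) =
      ∫ t : ι' → ℝ, Fc pl g C t ∂(Measure.pi fun _ => volume) := by
  have mp := measurePreserving_piCongrLeft (fun _ : ι' => (volume : Measure ℝ)) e
  rw [← mp.integral_comp']
  refine integral_congr_ae (Filter.Eventually.of_forall fun t => ?_)
  simp only []
  rw [← Fc_equiv e g C]
  congr 1
  funext i
  exact (MeasurableEquiv.piCongrLeft_apply_apply (β := fun _ => ℝ) e t i).symm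

theorem integrable_equiv' (e : ι ≃ ι') (g : Bool → ℂ → ℂ) (C : ι' → Ct)
    (hI : Integrable (fun t : ι → ℝ => Fc pl g (fun i => C (e i)) t) (Measure.pi fun _ => volume)) :
    Integrable (fun t : ι' → ℝ => Fc pl g C t) (Measure.pi fun _ => volume) := by
  have mp := measurePreserving_piCongrLeft (fun _ : ι' => (volume : Measure ℝ)) e
  refine (mp.integrable_comp_emb (MeasurableEquiv.measurableEmbedding _)).1 ?_
  refine hI.congr (Filter.Eventually.of_forall fun t => ?_)
  simp only [Function.comp]
  rw [← Fc_equiv e g C]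
  congr 1
  funext i
  exact (MeasurableEquiv.piCongrLeft_apply_apply (β := fun _ => ℝ) e t i).symm

/-- charge of a family -/
def chI (C : ι → Ct) : ℤ := ∑ i, sg (C i).sp

theorem integrable_Fc (G : Geo pl κ a b) {g : Bool → ℂ → ℂ} {C : ι → Ct}
    (hC : ∀ i, OkC pl κ a b (C i)) (hg : Reg pl κ a b (chI C) g) :
    Integrable (fun t : ι → ℝ => Fc pl g C t) (Measure.pi fun _ => volume) := by
  have e := (Fintype.equivFin ι).symm
  refine integrable_equiv' e g C ?_
  have h1 := integrable_f G (fun i => C (e i)) (fun i => hC _) (g := g) (by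
    rw [e.sum_comp (fun i => sg (C i).sp)]
    exact hg)
  refine h1.congr (Eventually.of_forall fun t => ?_)
  exact (Fc_fin g _ t).symm

/-- the nested integral is the product integral over any enumeration of the contours -/
theorem NI_eq_int (G : Geo pl κ a b) (L : List Ct) (hL : ∀ c ∈ L, OkC pl κ a b c)
    (g : Bool → ℂ → ℂ) (h : Reg pl κ a b (chL L) g) (C : ι → Ct)
    (e : ι ≃ Fin L.length) (hC : ∀ i, C i = L.get (e i)) :
    NI pl L g = ∫ t : ι → ℝ, Fc pl g C t ∂(Measure.pi fun _ => volume) := by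
  rw [NI_eq_I G L hL g h, show C = fun i => L.get (e i) from funext hC,
    int_equiv e g (fun i => L.get i)]
  unfold Grand.I
  refine integral_congr_ae (Eventually.of_forall fun t => ?_)
  exact (Fc_fin g _ t).symm

/-- one body data in the presence of a family of quanta -/
def adI (g : Bool → ℂ → ℂ) (s : ι → Bool) (z : ι → ℂ) : Bool → ℂ → ℂ :=
  fun r u => g r u * ∏ i, PP r (s i) (u - z i)

theorem Fc_sum (g : Bool → ℂ → ℂ) (C : ι → Ct) (C' : ι' → Ct) (t : ι → ℝ) (t' : ι' → ℝ) :
    Fc pl g (Sum.elim C C') (Sum.elim t t') =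
      Fc pl g C t * Fc pl (adI g (fun i => (C i).sp) fun i => (C i).pos (t i)) C' t' := by
  unfold Fc
  rw [PU_sum (pwc_pair_symm _ _), Fintype.prod_sum_type]
  simp only [Sum.elim_inl, Sum.elim_inr]
  have e : ∏ j, hh pl (adI g (fun i => (C i).sp) fun i => (C i).pos (t i)) (C' j) (t' j) =
      (∏ j, hh pl g (C' j) (t' j)) * ∏ i, ∏ j, pwc (C i) (C' j) (t i) (t' j) := by
    rw [Finset.prod_comm, ← Finset.prod_mul_distrib]
    refine Finset.prod_congr rfl fun j _ => ?_
    unfold hh Wt adI
    have : ∏ i, pwc (C i) (C' j) (t i) (t' j) =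
        ∏ i, PP (C' j).sp (C i).sp ((C' j).pos (t' j) - (C i).pos (t i)) := by
      refine Finset.prod_congr rfl fun i _ => ?_
      rw [pwc_symm]
      rfl
    rw [this]
    ring
  rw [e]
  ring

/-- **Blocks.** -/
theorem block (G : Geo pl κ a b) {g : Bool → ℂ → ℂ} {C : ι → Ct} {C' : ι' → Ct}
    (hC : ∀ i, OkC pl κ a b (C i)) (hC' : ∀ i, OkC pl κ a b (C' i))
    (hg : Reg pl κ a b (chI C + chI C') g) :
    Integrable (fun t : ι → ℝ => Fc pl g C t *
        ∫ t' : ι' → ℝ, Fc pl (adI g (fun i => (C i).sp) fun i => (C i).pos (t i)) C' t'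
          ∂(Measure.pi fun _ => volume)) (Measure.pi fun _ => volume) ∧
    ∫ t : ι ⊕ ι' → ℝ, Fc pl g (Sum.elim C C') t ∂(Measure.pi fun _ => volume) =
      ∫ t : ι → ℝ, Fc pl g C t *
        ∫ t' : ι' → ℝ, Fc pl (adI g (fun i => (C i).sp) fun i => (C i).pos (t i)) C' t'
          ∂(Measure.pi fun _ => volume) ∂(Measure.pi fun _ => volume) := by
  have hI : Integrable (fun t : ι ⊕ ι' → ℝ => Fc pl g (Sum.elim C C') t)
      (Measure.pi fun _ => volume) := by
    refine integrable_Fc G ?_ ?_
    · rintro (i | i)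
      · exact hC i
      · exact hC' i
    · unfold chI at *
      rw [Fintype.sum_sum_type]
      exact hg
  have h2 := integrable_sum hI
  have e : ∀ t : ι → ℝ, ∫ t' : ι' → ℝ, Fc pl g (Sum.elim C C') (Sum.elim t t')
      ∂(Measure.pi fun _ => volume) = Fc pl g C t *
        ∫ t' : ι' → ℝ, Fc pl (adI g (fun i => (C i).sp) fun i => (C i).pos (t i)) C' t'
          ∂(Measure.pi fun _ => volume) := by
    intro t
    rw [← integral_const_mul]
    refine integral_congr_ae (Eventually.of_forall fun t' => ?_)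
    exact Fc_sum g C C' t t'
  constructor
  · have := h2.integral_prod_left
    simp only [e] at this
    exact this
  · rw [integral_sum, integral_prod _ h2]
    refine integral_congr_ae (Eventually.of_forall fun t => ?_)
    exact e t

end

theorem Reg.adI (G : Geo pl κ a b) {n : ℕ} : ∀ {Q : ℤ} {g : Bool → ℂ → ℂ}, Reg pl κ a b Q g →
    ∀ (s : Fin n → Bool) {z : Fin n → ℂ}, (∀ i, a ≤ (z i).re) → (∀ i, (z i).re ≤ b) →
    Reg pl κ a b (Q - ∑ i, sg (s i)) (NUP1S.adI g s z) := by
  induction n with
  | zero =>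
    intro Q g h s z _ _
    have e : NUP1S.adI g s z = g := by
      funext r u
      simp [NUP1S.adI]
    rw [e]
    simpa using h
  | succ n ih =>
    intro Q g h s z h1 h2
    have e : NUP1S.adI g s z = NUP1S.adI (NUP1S.ad g (s 0) (z 0)) (fun i : Fin n => s i.succ)
        (fun i : Fin n => z i.succ) := by
      funext r u
      unfold NUP1S.adI NUP1S.ad
      rw [Fin.prod_univ_succ, mul_assoc]
    rw [e, Fin.sum_univ_succ]
    have := ih (h.ad G (s 0) (h1 0) (h2 0)) (fun i => s i.succ) (z := fun i => z i.succ)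
      (fun i => h1 _) (fun i => h2 _)
    convert this using 1
    ring

/-- **Blocks of lists.** -/
theorem blockNI (G : Geo pl κ a b) (L R : List Ct) (hL : ∀ c ∈ L, OkC pl κ a b c)
    (hR : ∀ c ∈ R, OkC pl κ a b c) {g : Bool → ℂ → ℂ} (hg : Reg pl κ a b (chL L + chL R) g) :
    Integrable (fun t : Fin L.length → ℝ => Fc pl g (fun i => L.get i) t *
      NI pl R (adI g (fun i => (L.get i).sp) fun i => (L.get i).pos (t i)))
      (Measure.pi fun _ => volume) ∧
    NI pl (L ++ R) g = ∫ t : Fin L.length → ℝ, Fc pl g (fun i => L.get i) t *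
      NI pl R (adI g (fun i => (L.get i).sp) fun i => (L.get i).pos (t i))
      ∂(Measure.pi fun _ => volume) := by
  have hok : ∀ c ∈ L ++ R, OkC pl κ a b c := fun c hc => by
    rcases List.mem_append.1 hc with h | h
    · exact hL c h
    · exact hR c h
  have hlen : L.length + R.length = (L ++ R).length := List.length_append.symm
  obtain ⟨e, he⟩ : ∃ e : Fin L.length ⊕ Fin R.length ≃ Fin (L ++ R).length,
      ∀ i, (Sum.elim (fun i => L.get i) (fun i => R.get i) i : Ct) = (L ++ R).get (e i) := by
    refine ⟨finSumFinEquiv.trans (finCongr hlen), ?_⟩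
    rintro (i | i)
    · simp
    · simp
  obtain ⟨i1, i2⟩ := block G (C := fun i : Fin L.length => L.get i)
    (C' := fun i : Fin R.length => R.get i) (fun i => hL _ (List.get_mem _ _))
    (fun i => hR _ (List.get_mem _ _)) (g := g) (by
      unfold chI
      rw [sum_get, sum_get]
      exact hg)
  have e1 : ∀ t : Fin L.length → ℝ,
      ∫ t' : Fin R.length → ℝ, Fc pl (adI g (fun i => (L.get i).sp) fun i => (L.get i).pos (t i))
        (fun i => R.get i) t' ∂(Measure.pi fun _ => volume) =
      NI pl R (adI g (fun i => (L.get i).sp) fun i => (L.get i).pos (t i)) := by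
    intro t
    refine (NI_eq_int G R hR _ ?_ (fun i => R.get i) (Equiv.refl _) (fun i => rfl)).symm
    have := hg.adI G (fun i => (L.get i).sp) (z := fun i => (L.get i).pos (t i))
      (fun i => (hL _ (List.get_mem _ _)).re1 _) (fun i => (hL _ (List.get_mem _ _)).re2 _)
    rwa [sum_get, add_sub_cancel_left] at this
  constructor
  · simp only [e1] at i1
    exact i1
  · rw [NI_eq_int G (L ++ R) hok g (by rwa [chL_append]) _ e he, i2]
    refine integral_congr_ae (Eventually.of_forall fun t => ?_)
    simp only [e1]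

/-! ## dummy variables -/

/-- restriction along an injection preserves products of a probability measure -/
theorem mp_comp {E : Type*} [MeasurableSpace E] (μ : Measure E) [IsProbabilityMeasure μ]
    {ι ι' : Type*} [Fintype ι] [Fintype ι'] (v : ι' → ι) (hv : Function.Injective v) :
    MeasurePreserving (fun t : ι → E => fun i => t (v i)) (Measure.pi fun _ => μ)
      (Measure.pi fun _ => μ) := by
  classical
  have hm : Measurable (fun t : ι → E => fun i => t (v i)) :=
    measurable_pi_lambda _ fun i => measurable_pi_apply _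
  refine ⟨hm, ?_⟩
  symm
  refine Measure.pi_eq fun s hs => ?_
  rw [Measure.map_apply hm (MeasurableSet.univ_pi hs)]
  have e : (fun t : ι → E => fun i => t (v i)) ⁻¹' (Set.pi univ s) =
      Set.pi univ (fun j => ⋂ i : {i // v i = j}, s i) := by
    ext t
    simp only [mem_preimage, mem_univ_pi, mem_iInter, Subtype.forall]
    constructor
    · rintro h j i rfl
      exact h i
    · intro h i
      exact h (v i) i rfl
  rw [e, Measure.pi_pi]
  symm
  refine Fintype.prod_of_injective v hv _ _ (fun j hj => ?_) fun i => ?_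
  · have : IsEmpty {i // v i = j} := ⟨fun x => hj ⟨x.1, x.2⟩⟩
    rw [iInter_of_empty, measure_univ]
  · congr 1
    ext x
    simp only [mem_iInter, Subtype.forall]
    constructor
    · intro h i' hi'
      rwa [hv hi']
    · intro h
      exact h i rfl

end NUP1S

end
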