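import Pool.Agent.NUP1S.Sat

/-!
# Stage 3: the right line moves across the double poles of the strings of the other species
-/

set_option autoImplicit false
set_option linter.unusedSectionVars false

noncomputable section

open Complex MeasureTheory NUP1 Set Filter Topology
open scoped Real

namespace NUP1S

variable {pl : Bool → Finset ℂ} {κ a b : ℝ}

/-! ## no pole -/

/-- the empty contour -/
def zC (s : Bool) (z : ℂ) : Ct := ⟨s, fun _ => 0, fun _ => z⟩

theorem okC_z {s : Bool} {z : ℂ} (h1 : a ≤ z.re) (h2 : z.re ≤ b) (h3 : z ∉ pl s) :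
    OkC pl κ a b (zC s z) := by
  obtain ⟨δ, hδ, hd⟩ := exists_pos_lb (F := pl s) (φ := fun p => ‖z - p‖)
    (fun p hp => norm_pos_iff.2 (sub_ne_zero.2 (by rintro rfl; exact h3 hp)))
  refine ⟨measurable_const, measurable_const, fun _ => h1, fun _ => h2, ⟨δ, hδ, fun t p hp => hd p hp⟩, ?_⟩
  show Integrable fun t : ℝ => ‖(0 : ℂ)‖ * Real.exp (-(κ * |z.im|))
  simp

theorem rep_none (G : Geo pl κ a b) {s : Bool} {σ τ : ℝ} (h1 : a ≤ σ) (h2 : σ ≤ τ) (h3 : τ ≤ b)
    (hp : ∀ p ∈ pl s, p.re < σ ∨ τ < p.re) (z : ℂ) :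
    Rep pl κ a b (lineC s σ) (lineC s τ) (zC s z) := by
  intro g hg
  have hg : Reg pl κ a b (sg s) g := hg
  have e0 : ∫ t, hh pl g (zC s z) t = 0 := by
    have : ∀ t, hh pl g (zC s z) t = 0 := fun t => by
      show (0 : ℂ) * _ = 0
      rw [zero_mul]
    simp [this]
  rw [e0, add_zero]
  have hd : ∀ u ∈ CS σ τ, DifferentiableAt ℂ (Wt pl g s) u := by
    intro u hu
    unfold Wt
    refine (hg.diff s u (h1.trans hu.1) (hu.2.trans h3)).div ?_ ?_
    · have := DifferentiableAt.fun_finsetProd (𝕜 := ℂ) (u := pl s)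
        (f := fun p' u => sin (u - p') ^ 2) (x := u) (fun b _ => by fun_prop)
      simpa using this
    · refine Finset.prod_ne_zero_iff.2 fun p' hp' => pow_ne_zero 2 ?_
      have hl := Bd.l_pos
      have hpi := Bd.pi_eq
      have hwd := G.wd
      have hpin := G.pin s p' hp'
      refine sin_ne ?_ ?_ (sub_ne_zero.2 ?_)
      · rw [sub_re]
        linarith [hu.1, hu.2, hpin.1, hpin.2]
      · rw [sub_re]
        linarith [hu.1, hu.2, hpin.1, hpin.2]
      · rintro rfl
        rcases hp u hp' with h | h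
        · linarith [hu.1]
        · linarith [hu.2]
  obtain ⟨C, R, hC⟩ := Wt_decay G hg s
  have hk := G.kpos
  have key := line_shift0 h2 (G := Wt pl g s)
    (fun u hu => (hd u hu).continuousAt.continuousWithinAt)
    (fun u hu => (hd u (OS_sub_CS _ _ hu)).differentiableWithinAt) (C := C) (δ := κ + 2) (t₀ := R)
    (by linarith) (fun x t h4 h5 h6 => by
      have := hC ((x : ℂ) + t * I) (by rw [vl_re]; exact h1.trans h4)
        (by rw [vl_re]; exact h5.trans h3) (by rwa [vl_im])
      rw [vl_im] at this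
      refine this.trans (le_of_eq ?_)
      have e : ((sg s * sg s : ℤ) : ℝ) = 1 := by rw [sg_sq]; norm_num
      rw [e]
      ring_nf)
  have e1 : ∀ x : ℝ, ∫ t, hh pl g (lineC s x) t =
      (2 * π : ℂ)⁻¹ * ∫ t : ℝ, Wt pl g s (x + t * I) := by
    intro x
    rw [← integral_const_mul]
    rfl
  rw [e1, e1, key]

/-- **No pole: the line can be moved.** -/
theorem Z1_shift (G : Geo pl κ a b) {s : Bool} {σ τ : ℝ} (h1 : a ≤ σ) (h2 : σ ≤ τ) (h3 : τ ≤ b)
    (hp : ∀ p ∈ pl s, p.re < σ ∨ τ < p.re) {L : List Ct} (hL : ∀ x ∈ L, OkC pl κ a b x) (n : ℕ)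
    (g : Bool → ℂ → ℂ) (h : Reg pl κ a b (n * sg s + chL L) g) :
    Z1 pl (lineC s σ) n L g = Z1 pl (lineC s τ) n L g := by
  have ok1 : OkC pl κ a b (lineC s σ) := okC_line G.kpos h1 (h2.trans h3) fun p hp' => by
    rcases hp p hp' with h | h
    · exact h.ne
    · exact (h2.trans_lt h).ne'
  have ok2 : OkC pl κ a b (lineC s τ) := okC_line G.kpos (h1.trans h2) h3 fun p hp' => by
    rcases hp p hp' with h | h
    · exact (h.trans_le h2).ne
    · exact h.ne'
  have hz : (σ : ℂ) ∉ pl s := by
    intro hmem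
    rcases hp _ hmem with h | h
    · simp at h
    · rw [ofReal_re] at h
      linarith
  have ok3 : OkC pl κ a b (zC s (σ : ℂ)) :=
    okC_z (by simpa using h1) (by simpa using h2.trans h3) hz
  refine (Z1_sum G (e := lineC s σ) (c := lineC s τ) (d := zC s (σ : ℂ)) rfl rfl ok1 ok2 ok3
    (rep_none G h1 h2 h3 hp _) hL n h).trans ?_
  rw [Finset.sum_eq_single_of_mem 0 (by simp)]
  · simp [Z1]
  · intro k hk hk0
    have hkn : k ≤ n := by
      have := Finset.mem_range.1 hk
      omega
    obtain ⟨j, rfl⟩ : ∃ j, k = j + 1 := ⟨k - 1, by omega⟩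
    have e : NI pl (List.replicate (n - (j + 1)) (lineC s τ) ++
        (List.replicate (j + 1) (zC s (σ : ℂ)) ++ L)) g = 0 := by
      have hperm : (List.replicate (n - (j + 1)) (lineC s τ) ++
        (List.replicate (j + 1) (zC s (σ : ℂ)) ++ L)).Perm (zC s (σ : ℂ) ::
          (List.replicate (n - (j + 1)) (lineC s τ) ++ (List.replicate j (zC s (σ : ℂ)) ++ L))) :=
        List.perm_middle
      rw [NI_perm G hperm ?_ g ?_]
      · show ∫ t, hh pl g (zC s (σ : ℂ)) t * _ = 0
        have : ∀ t, hh pl g (zC s (σ : ℂ)) t = 0 := fun t => by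
          show (0 : ℂ) * _ = 0
          rw [zero_mul]
        simp [this]
      · intro x hx
        simp only [List.mem_append, List.mem_replicate] at hx
        rcases hx with ⟨_, rfl⟩ | ⟨_, rfl⟩ | hx
        · exact ok2
        · exact ok3
        · exact hL x hx
      · rw [chL_append, chL_append, chL_replicate, chL_replicate]
        show Reg pl κ a b (((n - (j + 1) : ℕ) : ℤ) * sg s + (((j + 1 : ℕ) : ℤ) * sg s + chL L)) g
        convert h using 1
        push_cast [hkn]
        ring
    unfold Z1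
    rw [e, mul_zero, mul_zero]

/-! ## chains of poles -/

/-- poles with radii, sorted, with disjoint vertical strips between `x` and `y` -/
def Chn : ℝ → List (ℂ × ℝ) → ℝ → Prop
  | x, [], y => x < y
  | x, pr :: L, y => 0 < pr.2 ∧ x < pr.1.re - pr.2 ∧ Chn (pr.1.re + pr.2) L y

theorem Chn.lt {L : List (ℂ × ℝ)} : ∀ {x y : ℝ}, Chn x L y → x < y := by
  induction L with
  | nil => intro x y h; exact h
  | cons pr L ih =>
    intro x y h
    have := ih h.2.2
    have := h.2.1
    have := h.1
    linarith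

theorem Chn.mid {L : List (ℂ × ℝ)} {x y : ℝ} (h : Chn x L y) : ∃ τ, x < τ ∧ Chn τ L y := by
  cases L with
  | nil =>
    have h : x < y := h
    exact ⟨(x + y) / 2, by linarith, show (x + y) / 2 < y by linarith⟩
  | cons pr L =>
    refine ⟨(x + (pr.1.re - pr.2)) / 2, by linarith [h.2.1], h.1, by linarith [h.2.1], h.2.2⟩

theorem Chn.mem {L : List (ℂ × ℝ)} : ∀ {x y : ℝ}, Chn x L y → ∀ p ∈ L.map Prod.fst, x < p.re := by
  induction L with
  | nil => intro x y _ p hp; simp at hp
  | cons pr L ih =>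
    intro x y h p hp
    rw [List.map_cons, List.mem_cons] at hp
    have h1 := h.1
    have h2 := h.2.1
    rcases hp with rfl | hp
    · linarith
    · have := ih h.2.2 p hp
      linarith

theorem Chn.mem' {L : List (ℂ × ℝ)} : ∀ {x y : ℝ}, Chn x L y → ∀ p ∈ L.map Prod.fst, p.re < y := by
  induction L with
  | nil => intro x y _ p hp; simp at hp
  | cons pr L ih =>
    intro x y h p hp
    rw [List.map_cons, List.mem_cons] at hp
    have h1 := h.1
    have h2 := h.2.2.lt
    rcases hp with rfl | hp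
    · linarith
    · exact ih h.2.2 p hp

/-- The sum over the satellites (no, one or two at each pole of the list); `F n g` = the rest with
`n` quanta left and one body data `g`. -/
def Sat (pl : Bool → Finset ℂ) (s : Bool) (F : ℕ → (Bool → ℂ → ℂ) → ℂ) :
    List (ℂ × ℝ) → ℕ → (Bool → ℂ → ℂ) → ℂ
  | [], n, g => F n g
  | pr :: L, n, g => Sat pl s F L n g +
      (if 1 ≤ n then ∫ t, hh pl g (circC s pr.1 pr.2) t *
        Sat pl s F L (n - 1) (ad g s (cM pr.1 pr.2 t)) else 0) +
      (if 2 ≤ n then (sin (2 * l) / sin l) ^ 2 * rg pl g s pr.1 ^ 2 *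
        Sat pl s F L (n - 2) (ad2 g s pr.1) else 0)

/-- **Stage 3 for one species.** -/
theorem host_one (G : Geo pl κ a b) {s : Bool} {y : ℝ} (hy : y ≤ b) {L : List Ct}
    (hL : ∀ x ∈ L, OkC pl κ a b x) (PL : List (ℂ × ℝ)) : ∀ (x : ℝ) (n : ℕ) (g : Bool → ℂ → ℂ),
    a ≤ x → Chn x PL y → (∀ p ∈ PL.map Prod.fst, p ∈ pl s) →
    (∀ p ∈ pl s, p ∈ PL.map Prod.fst ∨ p.re < x ∨ y < p.re) →
    Reg pl κ a b (n * sg s + chL L) g →
    Z1 pl (lineC s x) n L g = Sat pl s (fun n g => Z1 pl (lineC s y) n L g) PL n g := by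
  induction PL with
  | nil =>
    intro x n g hx hc _ ho hg
    exact Z1_shift G hx (le_of_lt hc) hy (fun p hp => by simpa using ho p hp) hL n g hg
  | cons pr PL ih =>
    intro x n g hx hc hin ho hg
    obtain ⟨τ, h1, h2⟩ := hc.2.2.mid
    have hτy := h2.lt
    have S : SG pl κ a b s x τ pr.1 pr.2 := by
      refine ⟨G, hx, (hτy.le.trans hy), hc.1, hin _ (by simp), hc.2.1, h1, fun p' hp' hne => ?_⟩
      rcases ho p' hp' with h | h | h
      · rw [List.map_cons, List.mem_cons] at h
        rcases h with h | h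
        · exact absurd h hne
        · exact Or.inr (h2.mem p' h)
      · exact Or.inl h
      · exact Or.inr (hτy.trans h)
    have hin' : ∀ p ∈ PL.map Prod.fst, p ∈ pl s := fun p hp => hin p (by
      rw [List.map_cons, List.mem_cons]
      exact Or.inr hp)
    have ho' : ∀ p ∈ pl s, p ∈ PL.map Prod.fst ∨ p.re < τ ∨ y < p.re := by
      intro p hp
      have h3 := hc.1
      rcases ho p hp with h | h | h
      · rw [List.map_cons, List.mem_cons] at h
        rcases h with h | h
        · exact Or.inr (Or.inl (by rw [h]; linarith))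
        · exact Or.inl h
      · exact Or.inr (Or.inl (by
          have := S.στ
          linarith))
      · exact Or.inr (Or.inr h)
    have haτ : a ≤ τ := hx.trans S.στ
    have ihs := fun n g => ih τ n g haτ h2 hin' ho'
    rw [S.step hL n hg, ihs n g hg]
    show _ = Sat pl s _ PL n g + _ + _
    congr 1
    · congr 1
      split_ifs with h3
      · refine integral_congr_ae (Eventually.of_forall fun t => ?_)
        show hh pl g (circC s pr.1 pr.2) t * _ = hh pl g (circC s pr.1 pr.2) t * _
        rw [ihs]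
        have h4 := hg.ad G s (z0 := cM pr.1 pr.2 t)
          (S.ok3.re1 t) (S.ok3.re2 t)
        convert h4 using 1
        push_cast [h3]
        ring
      · rfl
    · split_ifs with h3
      · congr 1
        rw [ihs]
        have h4 := hg.ad2 G s S.hp
        convert h4 using 1
        push_cast [h3]
        ring
      · rfl

/-- the rest only matters on the class -/
theorem Sat_congr (G : Geo pl κ a b) {s : Bool} {F F' : ℕ → (Bool → ℂ → ℂ) → ℂ} {Q : ℤ}
    (hF : ∀ (n : ℕ) g, Reg pl κ a b (n * sg s + Q) g → F n g = F' n g) (PL : List (ℂ × ℝ)) :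
    ∀ (n : ℕ) (g : Bool → ℂ → ℂ), (∀ pr ∈ PL, pr.1 ∈ pl s ∧ 0 ≤ pr.2 ∧ a ≤ pr.1.re - pr.2 ∧
      pr.1.re + pr.2 ≤ b) → Reg pl κ a b (n * sg s + Q) g → Sat pl s F PL n g = Sat pl s F' PL n g := by
  induction PL with
  | nil => intro n g _ hg; exact hF n g hg
  | cons pr PL ih =>
    intro n g hin hg
    obtain ⟨h1, h0, h2, h3⟩ := hin pr (by simp)
    have ihs := fun n g => ih n g (fun pr' hp => hin pr' (by simp [hp]))
    show Sat pl s F PL n g + _ + _ = Sat pl s F' PL n g + _ + _
    rw [ihs n g hg]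
    congr 1
    · congr 1
      split_ifs with h5
      · refine integral_congr_ae (Eventually.of_forall fun t => ?_)
        show hh pl g (circC s pr.1 pr.2) t * _ = hh pl g (circC s pr.1 pr.2) t * _
        rw [ihs]
        have h4 := hg.ad G s (z0 := cM pr.1 pr.2 t)
          (h2.trans (circle_re pr.1 h0 t).1) ((circle_re pr.1 h0 t).2.trans h3)
        convert h4 using 1
        push_cast [h5]
        ring
      · rfl
    · split_ifs with h5
      · congr 1
        rw [ihs]
        have h4 := hg.ad2 G s h1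
        convert h4 using 1
        push_cast [h5]
        ring
      · rfl

/-- two species: `m` quanta of species `s` on the line `x`, `n` quanta of the other species on the
line `y` -/
def J (pl : Bool → Finset ℂ) (s : Bool) (x : ℝ) (m : ℕ) (y : ℝ) (n : ℕ) (g : Bool → ℂ → ℂ) : ℂ :=
  ((n.factorial : ℕ) : ℂ)⁻¹ * Z1 pl (lineC s x) m (List.replicate n (lineC (!s) y)) g

theorem J_symm (G : Geo pl κ a b) (s : Bool) {x y : ℝ} (hx : OkC pl κ a b (lineC s x))
    (hy : OkC pl κ a b (lineC (!s) y)) (m n : ℕ) {g : Bool → ℂ → ℂ}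
    (hg : Reg pl κ a b (m * sg s + n * sg (!s)) g) :
    J pl s x m y n g = J pl (!s) y n x m g := by
  unfold J Z1
  rw [Bool.not_not, NI_perm G (L := List.replicate m (lineC s x) ++ List.replicate n (lineC (!s) y))
    (L' := List.replicate n (lineC (!s) y) ++ List.replicate m (lineC s x)) List.perm_append_comm
    (fun z hz => by
      simp only [List.mem_append, List.mem_replicate] at hz
      rcases hz with ⟨_, rfl⟩ | ⟨_, rfl⟩
      · exact hx
      · exact hy) g (by
      rw [chL_append, chL_replicate, chL_replicate]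
      exact hg)]
  ring

theorem Sat_const_mul {s : Bool} {F : ℕ → (Bool → ℂ → ℂ) → ℂ} (c : ℂ) (PL : List (ℂ × ℝ)) :
    ∀ (n : ℕ) (g : Bool → ℂ → ℂ),
      Sat pl s (fun n g => c * F n g) PL n g = c * Sat pl s F PL n g := by
  induction PL with
  | nil => intro n g; rfl
  | cons pr PL ih =>
    intro n g
    show Sat pl s (fun n g => c * F n g) PL n g +
      (if 1 ≤ n then ∫ t, hh pl g (circC s pr.1 pr.2) t *
        Sat pl s (fun n g => c * F n g) PL (n - 1) (ad g s (cM pr.1 pr.2 t)) else 0) +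
      (if 2 ≤ n then (sin (2 * l) / sin l) ^ 2 * rg pl g s pr.1 ^ 2 *
        Sat pl s (fun n g => c * F n g) PL (n - 2) (ad2 g s pr.1) else 0) =
      c * (Sat pl s F PL n g +
      (if 1 ≤ n then ∫ t, hh pl g (circC s pr.1 pr.2) t *
        Sat pl s F PL (n - 1) (ad g s (cM pr.1 pr.2 t)) else 0) +
      (if 2 ≤ n then (sin (2 * l) / sin l) ^ 2 * rg pl g s pr.1 ^ 2 *
        Sat pl s F PL (n - 2) (ad2 g s pr.1) else 0))
    simp only [ih]
    rw [mul_add, mul_add]
    congr 1
    · congr 1
      split_ifs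
      · rw [← integral_const_mul]
        refine integral_congr_ae (Eventually.of_forall fun t => ?_)
        simp only []
        ring
      · rw [mul_zero]
    · split_ifs
      · ring
      · rw [mul_zero]

theorem Chn.geo {L : List (ℂ × ℝ)} : ∀ {x y : ℝ}, Chn x L y → ∀ pr ∈ L,
    0 ≤ pr.2 ∧ x ≤ pr.1.re - pr.2 ∧ pr.1.re + pr.2 ≤ y := by
  induction L with
  | nil => intro x y _ p hp; simp at hp
  | cons pr L ih =>
    intro x y h p hp
    have h1 := h.1
    have h2 := h.2.1
    have h3 := h.2.2.lt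
    rcases List.mem_cons.1 hp with rfl | hp
    · exact ⟨h1.le, h2.le, h3.le⟩
    · obtain ⟨h4, h5, h6⟩ := ih h.2.2 p hp
      exact ⟨h4, by linarith, h6⟩

/-- **Stage 3.**  `m` quanta of species `s` and `n` quanta of the other species on the line `x`
= the sum over the satellites of both species of the gas on the line `y`. -/
theorem host_two (G : Geo pl κ a b) (s : Bool) {x y : ℝ} (hx : a ≤ x) (hy : y ≤ b)
    (PX PY : List (ℂ × ℝ)) (cX : Chn x PX y) (cY : Chn x PY y)
    (hX : ∀ p ∈ PX.map Prod.fst, p ∈ pl s) (hY : ∀ p ∈ PY.map Prod.fst, p ∈ pl (!s))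
    (oX : ∀ p ∈ pl s, p ∈ PX.map Prod.fst ∨ p.re < x ∨ y < p.re)
    (oY : ∀ p ∈ pl (!s), p ∈ PY.map Prod.fst ∨ p.re < x ∨ y < p.re) (m n : ℕ)
    {g : Bool → ℂ → ℂ} (hg : Reg pl κ a b (m * sg s + n * sg (!s)) g) :
    J pl s x m x n g =
      Sat pl s (fun m g => Sat pl (!s) (fun n g => J pl (!s) y n y m g) PY n g) PX m g := by
  have hxy := cX.lt
  have okx : OkC pl κ a b (lineC (!s) x) := okC_line G.kpos hx (hxy.le.trans hy) fun p hp => by
    rcases oY p hp with h | h | h
    · exact (cY.mem p h).ne'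
    · exact h.ne
    · exact (hxy.trans h).ne'
  have oky : OkC pl κ a b (lineC s y) := okC_line G.kpos (hx.trans hxy.le) hy fun p hp => by
    rcases oX p hp with h | h | h
    · exact (cX.mem' p h).ne
    · exact (h.trans hxy).ne
    · exact h.ne'
  have okL : ∀ n, ∀ z ∈ List.replicate n (lineC (!s) x), OkC pl κ a b z := fun n z hz => by
    rw [(List.mem_replicate.1 hz).2]
    exact okx
  have okL' : ∀ m, ∀ z ∈ List.replicate m (lineC s y), OkC pl κ a b z := fun n z hz => by
    rw [(List.mem_replicate.1 hz).2]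
    exact oky
  have e1 : J pl s x m x n g = Sat pl s (fun m g => J pl s y m x n g) PX m g := by
    unfold J
    rw [Sat_const_mul, host_one G hy (okL n) PX x m g hx cX hX oX (by
      rw [chL_replicate]
      exact hg)]
  rw [e1]
  refine Sat_congr G (Q := n * sg (!s)) (fun m g hg => ?_) PX m g (fun pr hpr => ?_) hg
  · rw [J_symm G s oky okx m n hg]
    unfold J
    rw [Bool.not_not, Sat_const_mul, host_one G hy (okL' m) PY x n g hx cY hY oY (by
      rw [chL_replicate]
      show Reg pl κ a b ((n : ℤ) * sg (!s) + (m : ℤ) * sg s) g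
      rwa [add_comm])]
  · obtain ⟨h1, h2, h3⟩ := cX.geo pr hpr
    exact ⟨hX _ (List.mem_map_of_mem hpr), h1, hx.trans h2, h3.trans hy⟩

end NUP1S

end
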