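import Pool.Agent.NUP1S.Nest

/-!
# Vertical lines and small circles: one variable
-/

set_option autoImplicit false
set_option linter.unusedSectionVars false

noncomputable section

open Complex MeasureTheory NUP1 Set Filter Topology
open scoped Real

namespace NUP1S

/-- the circle of radius `r` around `p`, parametrised by the angle divided by `2 π` -/
def cM (p : ℂ) (r t : ℝ) : ℂ := circleMap p r (2 * π * t)

/-- weight of a small circle of radius `r` (negative orientation, divided by `2 π i`) -/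
def cOm (r : ℝ) (t : ℝ) : ℂ := (Ioc 0 1).indicator (fun t => -cM 0 r t) t

/-- the vertical line `re u = σ` -/
def lineC (s : Bool) (σ : ℝ) : Ct := ⟨s, fun _ => (2 * π : ℂ)⁻¹, fun t => vl σ t⟩

/-- the circle of radius `r` around `p` -/
def circC (s : Bool) (p : ℂ) (r : ℝ) : Ct := ⟨s, cOm r, fun t => cM p r t⟩

theorem cM_mem {p : ℂ} {r : ℝ} (hr : 0 ≤ r) (t : ℝ) : cM p r t ∈ Metric.sphere p r :=
  circleMap_mem_sphere p hr _

theorem continuous_cM (p : ℂ) (r : ℝ) : Continuous fun t => cM p r t :=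
  (continuous_circleMap p r).comp (continuous_const.mul continuous_id)

theorem int_cOm (p : ℂ) (r : ℝ) (F : ℂ → ℂ) :
    ∫ t, cOm r t * F (cM p r t) = -(2 * π * I : ℂ)⁻¹ * ∮ z in C(p, r), F z := by
  have e1 : (fun t => cOm r t * F (cM p r t)) = (Ioc 0 1).indicator
      (fun t => (fun x => -(circleMap 0 r x * F (circleMap p r x))) (2 * π * t)) := by
    funext t
    unfold cOm cM
    by_cases ht : t ∈ Ioc (0 : ℝ) 1
    · rw [indicator_of_mem ht, indicator_of_mem ht]
      ring
    · rw [indicator_of_notMem ht, indicator_of_notMem ht, zero_mul]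
  have e2 : (∮ z in C(p, r), F z) =
      I * ∫ x in (0 : ℝ)..(2 * π), circleMap 0 r x * F (circleMap p r x) := by
    rw [circleIntegral, ← intervalIntegral.integral_const_mul]
    refine intervalIntegral.integral_congr fun x _ => ?_
    simp only [deriv_circleMap, smul_eq_mul]
    ring
  rw [e1, integral_indicator measurableSet_Ioc, ← intervalIntegral.integral_of_le zero_le_one,
    intervalIntegral.integral_comp_mul_left
      (fun x => -(circleMap 0 r x * F (circleMap p r x))) (by positivity : 2 * π ≠ 0),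
    mul_zero, mul_one, intervalIntegral.integral_neg, e2]
  generalize (∫ x in (0 : ℝ)..(2 * π), circleMap 0 r x * F (circleMap p r x)) = X
  rw [Complex.real_smul]
  push_cast
  have hpi : (π : ℂ) ≠ 0 := by exact_mod_cast Real.pi_ne_zero
  have hI : I ≠ 0 := I_ne_zero
  field_simp

section circ
variable {U : Set ℂ} {p : ℂ} {r : ℝ} (hU : IsOpen U) (hB : Metric.closedBall p r ⊆ U) (hr : 0 < r)
  (hpi : ∀ u ∈ U, |(u - p).re| < π)

include hU hB hr

theorem circ_zero {F : ℂ → ℂ} (hF : DifferentiableOn ℂ F U) : ∮ z in C(p, r), F z = 0 := by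
  refine circleIntegral_eq_zero_of_differentiable_on_off_countable hr.le countable_empty
    (hF.continuousOn.mono hB) fun z hz => ?_
  exact hF.differentiableAt (hU.mem_nhds (hB (Metric.ball_subset_closedBall hz.1)))

include hpi

omit hr in
theorem sin_ne_U {u : ℂ} (hu : u ∈ U) (h : u ≠ p) : sin (u - p) ≠ 0 := by
  obtain ⟨h1, h2⟩ := abs_lt.1 (hpi u hu)
  exact sin_ne h1 h2 (sub_ne_zero.2 h)

/-- `sin (u - p) / (u - p)` -/
theorem exists_S : ∃ S : ℂ → ℂ, DifferentiableOn ℂ S U ∧ (∀ u ∈ U, S u ≠ 0) ∧ S p = 1 ∧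
    ∀ u, sin (u - p) = S u * (u - p) := by
  have hp : p ∈ U := hB (Metric.mem_closedBall_self hr.le)
  obtain ⟨T, hT⟩ : ∃ T : ℂ → ℂ, T = fun z => sin (z - p) := ⟨_, rfl⟩
  have hTd : Differentiable ℂ T := by rw [hT]; fun_prop
  have hT0 : T p = 0 := by rw [hT]; simp
  have hd : HasDerivAt T 1 p := by
    rw [hT]
    simpa using ((hasDerivAt_id p).sub_const p).csin
  refine ⟨dslope T p, ?_, fun u hu => ?_, ?_, fun u => ?_⟩
  · exact (Complex.differentiableOn_dslope (hU.mem_nhds hp)).2 hTd.differentiableOn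
  · by_cases h : u = p
    · rw [h, dslope_same, hd.deriv]
      exact one_ne_zero
    · rw [dslope_of_ne _ h, slope_def_field, hT0, sub_zero]
      refine div_ne_zero ?_ (sub_ne_zero.2 h)
      rw [hT]
      exact sin_ne_U hU hB hpi hu h
  · rw [dslope_same, hd.deriv]
  · have := sub_smul_dslope T p u
    rw [hT0, sub_zero, smul_eq_mul] at this
    rw [mul_comm, this, hT]

theorem circ_one {F : ℂ → ℂ} (hF : DifferentiableOn ℂ F U) :
    ∮ z in C(p, r), F z / sin (z - p) = 2 * π * I * F p := by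
  obtain ⟨S, h1, h2, h3, h4⟩ := exists_S hU hB hr hpi
  have hd : DifferentiableOn ℂ (fun u => F u / S u) U := hF.div h1 h2
  have := (hd.diffContOnCl_ball hB).circleIntegral_sub_inv_smul (Metric.mem_ball_self hr)
  simp only [smul_eq_mul, h3, _root_.div_one] at this
  rw [← this]
  refine circleIntegral.integral_congr hr.le fun z hz => ?_
  have hz' : z ≠ p := by
    rintro rfl
    rw [Metric.mem_sphere, dist_self] at hz
    exact hr.ne hz
  have hzU : z ∈ U := hB (Metric.sphere_subset_closedBall hz)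
  have hS := h2 z hzU
  have hzp := sub_ne_zero.2 hz'
  simp only [h4]
  field_simp

theorem circ_cos : ∮ z in C(p, r), cos (z - p) / sin (z - p) ^ 2 = 0 := by
  refine circleIntegral.integral_eq_zero_of_hasDerivWithinAt (f := fun z => -(sin (z - p))⁻¹)
    hr.le fun z hz => ?_
  have hz' : z ≠ p := by
    rintro rfl
    rw [Metric.mem_sphere, dist_self] at hz
    exact hr.ne hz
  have hzU : z ∈ U := hB (Metric.sphere_subset_closedBall hz)
  have h0 := sin_ne_U hU hB hpi hzU hz'
  have h1 : HasDerivAt (fun z => sin (z - p)) (cos (z - p)) z := by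
    simpa using ((hasDerivAt_id z).sub_const p).csin
  have h2 := (h1.inv h0).neg
  rw [neg_div, neg_neg] at h2
  exact h2.hasDerivWithinAt

theorem circ_two {H N : ℂ → ℂ} (hN : DifferentiableOn ℂ N U)
    (hHN : ∀ u ∈ U, H u = H p * cos (u - p) + N u * sin (u - p)) :
    ∮ z in C(p, r), H z / sin (z - p) ^ 2 = 2 * π * I * N p := by
  have hne : ∀ z ∈ Metric.sphere p r, sin (z - p) ≠ 0 := by
    intro z hz
    refine sin_ne_U hU hB hpi (hB (Metric.sphere_subset_closedBall hz)) ?_
    rintro rfl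
    rw [Metric.mem_sphere, dist_self] at hz
    exact hr.ne hz
  have hsub : Metric.sphere p r ⊆ U := Metric.sphere_subset_closedBall.trans hB
  have c1 : CircleIntegrable (fun z => H p * (cos (z - p) / sin (z - p) ^ 2)) p r := by
    refine ContinuousOn.circleIntegrable hr.le ?_
    refine continuousOn_const.mul (ContinuousOn.div (by fun_prop) (by fun_prop) fun z hz => ?_)
    exact pow_ne_zero 2 (hne z hz)
  have c2 : CircleIntegrable (fun z => N z / sin (z - p)) p r := by
    refine ContinuousOn.circleIntegrable hr.le ?_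
    exact ContinuousOn.div (hN.continuousOn.mono hsub) (by fun_prop) hne
  rw [circleIntegral.integral_congr (g := fun z => H p * (cos (z - p) / sin (z - p) ^ 2) +
    N z / sin (z - p)) hr.le]
  · rw [circleIntegral.integral_add c1 c2, circ_one hU hB hr hpi hN]
    have := circ_cos hU hB hr hpi
    have h5 : (∮ z in C(p, r), H p * (cos (z - p) / sin (z - p) ^ 2)) = 0 := by
      rw [circleIntegral.integral_const_mul, this, mul_zero]
    rw [h5, zero_add]
  · intro z hz
    have h0 := hne z hz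
    simp only []
    rw [hHN z (hsub hz)]
    field_simp

end circ

/-! ## double integrals on a circle -/

/-- weight of a double circle integral -/
def W2 (p : ℂ) (r : ℝ) (F : ℂ → ℂ → ℂ) (x : ℝ × ℝ) : ℂ := deriv (circleMap p r) x.1 *
  (deriv (circleMap p r) x.2 * F (circleMap p r x.1) (circleMap p r x.2))

theorem circ_prod {p : ℂ} {r : ℝ} {F : ℂ → ℂ → ℂ}
    (hF : ContinuousOn (fun x : ℂ × ℂ => F x.1 x.2) (Metric.sphere p |r| ×ˢ Metric.sphere p |r|)) :
    Integrable (W2 p r F) ((volume.restrict (Ioc 0 (2 * π))).prod (volume.restrict (Ioc 0 (2 * π)))) ∧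
    (∮ z in C(p, r), ∮ w in C(p, r), F z w) =
      ∫ x, W2 p r F x ∂((volume.restrict (Ioc 0 (2 * π))).prod (volume.restrict (Ioc 0 (2 * π)))) := by
  have hc : Continuous (W2 p r F) := by
    have h1 : Continuous fun x : ℝ × ℝ => F (circleMap p r x.1) (circleMap p r x.2) := by
      rw [← continuousOn_univ]
      refine hF.comp (f := fun x : ℝ × ℝ => (circleMap p r x.1, circleMap p r x.2))
        (Continuous.continuousOn ?_) fun x _ => ?_
      · exact ((continuous_circleMap p r).comp continuous_fst).prodMk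
          ((continuous_circleMap p r).comp continuous_snd)
      · exact ⟨circleMap_mem_sphere' p r _, circleMap_mem_sphere' p r _⟩
    have h2 : Continuous (deriv (circleMap p r)) := by
      have : deriv (circleMap p r) = fun t => circleMap 0 r t * I := by
        funext t
        exact deriv_circleMap p r t
      rw [this]
      exact (continuous_circleMap 0 r).mul continuous_const
    exact (h2.comp continuous_fst).mul ((h2.comp continuous_snd).mul h1)
  have hi : Integrable (W2 p r F)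
      ((volume.restrict (Ioc 0 (2 * π))).prod (volume.restrict (Ioc 0 (2 * π)))) := by
    have : IntegrableOn (W2 p r F) (Icc 0 (2 * π) ×ˢ Icc 0 (2 * π)) (volume.prod volume) :=
      hc.continuousOn.integrableOn_compact (isCompact_Icc.prod isCompact_Icc)
    rw [Measure.prod_restrict]
    exact this.mono_set (prod_mono Ioc_subset_Icc_self Ioc_subset_Icc_self)
  refine ⟨hi, ?_⟩
  rw [integral_prod _ hi]
  unfold circleIntegral
  simp only [intervalIntegral.integral_of_le (show (0 : ℝ) ≤ 2 * π by positivity), smul_eq_mul]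
  simp_rw [← integral_const_mul]
  rfl

theorem circ_add {p : ℂ} {r : ℝ} {F G : ℂ → ℂ → ℂ}
    (hF : ContinuousOn (fun x : ℂ × ℂ => F x.1 x.2) (Metric.sphere p |r| ×ˢ Metric.sphere p |r|))
    (hG : ContinuousOn (fun x : ℂ × ℂ => G x.1 x.2) (Metric.sphere p |r| ×ˢ Metric.sphere p |r|)) :
    (∮ z in C(p, r), ∮ w in C(p, r), (F z w + G z w)) =
      (∮ z in C(p, r), ∮ w in C(p, r), F z w) + ∮ z in C(p, r), ∮ w in C(p, r), G z w := by
  obtain ⟨i1, e1⟩ := circ_prod hF
  obtain ⟨i2, e2⟩ := circ_prod hG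
  obtain ⟨i3, e3⟩ := circ_prod (F := fun z w => F z w + G z w) (hF.add hG)
  rw [e1, e2, e3, ← integral_add i1 i2]
  congr 1
  funext x
  unfold W2
  ring

theorem circ_swap {p : ℂ} {r : ℝ} {F : ℂ → ℂ → ℂ}
    (hF : ContinuousOn (fun x : ℂ × ℂ => F x.1 x.2) (Metric.sphere p |r| ×ˢ Metric.sphere p |r|)) :
    (∮ z in C(p, r), ∮ w in C(p, r), F z w) = ∮ w in C(p, r), ∮ z in C(p, r), F z w := by
  obtain ⟨i1, e1⟩ := circ_prod hF
  obtain ⟨i2, e2⟩ := circ_prod (F := fun w z => F z w) (r := r) (p := p)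
    (hF.comp (continuous_swap.continuousOn) fun x hx => ⟨hx.2, hx.1⟩)
  rw [e1, e2, ← integral_prod_swap]
  congr 1
  funext x
  unfold W2
  simp only [Prod.fst_swap, Prod.snd_swap]
  ring

/-! ## the lines -/

/-- `H u = H p cos (u - p) + N u sin (u - p)` -/
theorem exists_N {σ τ : ℝ} (hw : τ - σ < π) {p : ℂ} (hp : p ∈ OS σ τ) {H : ℂ → ℂ}
    (hH : ContinuousOn H (CS σ τ)) (hHd : DifferentiableOn ℂ H (OS σ τ)) :
    ∃ N : ℂ → ℂ, ContinuousOn N (CS σ τ) ∧ DifferentiableOn ℂ N (OS σ τ) ∧
      ∀ u ∈ CS σ τ, H u = H p * cos (u - p) + N u * sin (u - p) := by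
  obtain ⟨N, h1, h2, h3⟩ := NUP1.div_one hw hp (N := fun u => H u - H p * cos (u - p))
    (hH.sub (Continuous.continuousOn (by fun_prop)))
    (hHd.sub (Differentiable.differentiableOn (by fun_prop))) (by simp)
  exact ⟨N, h1, h2, fun u hu => by rw [← h3 u hu]; ring⟩

theorem norm_cos_sin_sq {z : ℂ} (hz : 1 ≤ |z.im|) :
    ‖cos z / sin z ^ 2‖ ≤ 16 * Real.exp (-1 * |z.im|) := by
  have h1 := norm_inv_sin_le hz
  have h2 := Bd.norm_cos_le z
  have h3 := Bd.cosh_le_exp z.im
  have e : cos z / sin z ^ 2 = cos z * ((sin z)⁻¹ * (sin z)⁻¹) := by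
    rw [div_eq_mul_inv, sq, mul_inv]
  rw [e, norm_mul, norm_mul]
  calc _ ≤ Real.exp |z.im| * ((4 * Real.exp (-1 * |z.im|)) * (4 * Real.exp (-1 * |z.im|))) :=
        mul_le_mul (h2.trans h3) (mul_le_mul h1 h1 (norm_nonneg _) (by positivity))
          (by positivity) (by positivity)
    _ = 16 * (Real.exp |z.im| * Real.exp (-1 * |z.im|) * Real.exp (-1 * |z.im|)) := by ring
    _ = _ := by
        rw [← Real.exp_add, ← Real.exp_add]
        ring_nf

theorem norm_cos_sin_sq_sub {p u : ℂ} (h : 1 + |p.im| ≤ |u.im|) :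
    ‖cos (u - p) / sin (u - p) ^ 2‖ ≤ 16 * Real.exp |p.im| * Real.exp (-1 * |u.im|) := by
  have h1 : |u.im| - |p.im| ≤ |(u - p).im| := by rw [sub_im]; exact abs_sub_abs_le_abs_sub _ _
  refine (norm_cos_sin_sq (by linarith)).trans ?_
  rw [mul_assoc, ← Real.exp_add]
  gcongr; linarith

/-- the principal part has no residue -/
theorem int_cos_line {p : ℂ} {σ : ℝ} (h1 : σ - p.re < π) (h2 : -π < σ - p.re) (h3 : σ ≠ p.re) :
    Integrable (fun t : ℝ => cos ((σ : ℂ) + t * I - p) / sin ((σ : ℂ) + t * I - p) ^ 2) ∧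
    ∫ t : ℝ, cos ((σ : ℂ) + t * I - p) / sin ((σ : ℂ) + t * I - p) ^ 2 = 0 := by
  have hne : ∀ t : ℝ, sin ((σ : ℂ) + t * I - p) ≠ 0 := by
    intro t
    refine sin_ne ?_ ?_ ?_
    · rw [sub_re, vl_re]; exact h2
    · rw [sub_re, vl_re]; exact h1
    · intro h
      have := congrArg Complex.re h
      rw [sub_re, vl_re, zero_re] at this
      exact h3 (sub_eq_zero.1 this)
  have hi : Integrable (fun t : ℝ => cos ((σ : ℂ) + t * I - p) / sin ((σ : ℂ) + t * I - p) ^ 2) := by
    refine integrable_of_decay (Continuous.div (by fun_prop) (by fun_prop) fun t =>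
      pow_ne_zero 2 (hne t)) one_pos (C := 16 * Real.exp |p.im|) (t₀ := 1 + |p.im|) fun t ht => ?_
    have := norm_cos_sin_sq_sub (p := p) (u := (σ : ℂ) + t * I) (by rwa [vl_im])
    rwa [vl_im] at this
  refine ⟨hi, ?_⟩
  have hd : ∀ t : ℝ, HasDerivAt (fun t : ℝ => I * (sin ((σ : ℂ) + t * I - p))⁻¹)
      (cos ((σ : ℂ) + t * I - p) / sin ((σ : ℂ) + t * I - p) ^ 2) t := by
    intro t
    have e0 : HasDerivAt (fun t : ℝ => (σ : ℂ) + t * I - p) I t := by
      have := ((hasDerivAt_id t).ofReal_comp).mul_const I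
      have := (this.const_add (σ : ℂ)).sub_const p
      simpa using this
    have e2 : HasDerivAt (fun t : ℝ => sin ((σ : ℂ) + t * I - p)) (cos ((σ : ℂ) + t * I - p) * I) t :=
      (Complex.hasDerivAt_sin _).comp t e0
    have e1 := (e2.inv (hne t)).const_mul I
    have h0 := hne t
    have hI : I * I = -1 := I_mul_I
    rw [← mul_div_assoc, show I * -(cos ((σ : ℂ) + t * I - p) * I) = cos ((σ : ℂ) + t * I - p) by
      linear_combination (-cos ((σ : ℂ) + t * I - p)) * hI] at e1
    exact e1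
  have ht : ∀ l' : Filter ℝ, (Tendsto (fun t : ℝ => |t|) l' atTop) →
      Tendsto (fun t : ℝ => I * (sin ((σ : ℂ) + t * I - p))⁻¹) l' (𝓝 0) := by
    intro l' hl'
    rw [tendsto_zero_iff_norm_tendsto_zero]
    have h0 : Tendsto (fun t : ℝ => 4 * Real.exp |p.im| * Real.exp (-1 * |t|)) l' (𝓝 0) := by
      have : Tendsto (fun t : ℝ => Real.exp (-1 * |t|)) l' (𝓝 0) :=
        Real.tendsto_exp_atBot.comp (hl'.const_mul_atTop_of_neg (by norm_num))
      simpa using this.const_mul (4 * Real.exp |p.im|)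
    refine squeeze_zero' (Eventually.of_forall fun _ => norm_nonneg _) ?_ h0
    filter_upwards [hl'.eventually_ge_atTop (1 + |p.im|)] with t ht
    have := norm_inv_sin_sub_le (p := p) (u := (σ : ℂ) + t * I) (by rwa [vl_im])
    rw [vl_im] at this
    rwa [norm_mul, norm_I, one_mul]
  rw [integral_of_hasDerivAt_of_tendsto hd hi (ht _ tendsto_abs_atBot_atTop)
    (ht _ tendsto_abs_atTop_atTop), sub_zero]

/-- **Double pole between two vertical lines.** -/
theorem line_two {σ τ : ℝ} (hστ : σ ≤ τ) (hw : τ - σ < π) {p : ℂ} (hp : p ∈ OS σ τ) {H N : ℂ → ℂ}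
    (hN : ContinuousOn N (CS σ τ)) (hNd : DifferentiableOn ℂ N (OS σ τ))
    (hHN : ∀ u ∈ CS σ τ, H u = H p * cos (u - p) + N u * sin (u - p))
    {C δ t₀ : ℝ} (hδ : 0 < δ)
    (h : ∀ s t : ℝ, σ ≤ s → s ≤ τ → t₀ ≤ |t| →
      ‖H (s + t * I) / sin (s + t * I - p) ^ 2‖ ≤ C * Real.exp (-δ * |t|)) :
    (∫ t : ℝ, H (τ + t * I) / sin (τ + t * I - p) ^ 2) -
      (∫ t : ℝ, H (σ + t * I) / sin (σ + t * I - p) ^ 2) = 2 * π * N p := by
  classical
  have hne : ∀ u ∈ CS σ τ, u ≠ p → sin (u - p) ≠ 0 := fun u hu hup => sin_sub_ne hw hu hp hup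
  -- decay of the simple pole part
  have hdec : ∀ s t : ℝ, σ ≤ s → s ≤ τ → max t₀ (1 + |p.im|) ≤ |t| →
      ‖N (s + t * I) / sin (s + t * I - p)‖ ≤
        (|C| + ‖H p‖ * (16 * Real.exp |p.im|)) * Real.exp (-(min δ 1) * |t|) := by
    intro s t h1 h2 h3
    have hu : ((s : ℂ) + t * I) ∈ CS σ τ := by
      show σ ≤ ((s : ℂ) + t * I).re ∧ ((s : ℂ) + t * I).re ≤ τ
      rw [vl_re]
      exact ⟨h1, h2⟩
    have hup : ((s : ℂ) + t * I) ≠ p := by
      intro h0
      have := (le_max_right t₀ (1 + |p.im|)).trans h3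
      rw [← h0, vl_im] at this
      linarith
    have h0 := hne _ hu hup
    have e : N (s + t * I) / sin (s + t * I - p) = H (s + t * I) / sin (s + t * I - p) ^ 2 -
        H p * (cos (s + t * I - p) / sin (s + t * I - p) ^ 2) := by
      rw [hHN _ hu]
      field_simp
      ring
    have b1 := h s t h1 h2 ((le_max_left _ _).trans h3)
    have b2 := norm_cos_sin_sq_sub (p := p) (u := (s : ℂ) + t * I) (by
      rw [vl_im]; exact (le_max_right _ _).trans h3)
    rw [vl_im] at b2
    have c1 : Real.exp (-δ * |t|) ≤ Real.exp (-(min δ 1) * |t|) :=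
      Real.exp_le_exp.2 (by nlinarith [min_le_left δ 1, abs_nonneg t])
    have c2 : Real.exp (-1 * |t|) ≤ Real.exp (-(min δ 1) * |t|) :=
      Real.exp_le_exp.2 (by nlinarith [min_le_right δ 1, abs_nonneg t])
    rw [e]
    refine (norm_sub_le _ _).trans ?_
    rw [norm_mul, add_mul]
    refine add_le_add (b1.trans ?_) ?_
    · exact mul_le_mul (le_abs_self C) c1 (Real.exp_pos _).le (abs_nonneg _)
    · rw [mul_assoc]
      refine mul_le_mul_of_nonneg_left (b2.trans ?_) (norm_nonneg _)
      exact mul_le_mul_of_nonneg_left c2 (by positivity)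
  have key := line_shift hστ hw {p} (by simpa using hp) (f := fun u => N u / sin (u - p)) (H := N)
    hN hNd (fun u _ _ => by simp) (lt_min hδ one_pos) hdec
  obtain ⟨i1, i2, i3⟩ := key
  have hres : res {p} N p = N p := by simp [res]
  rw [Finset.sum_singleton, hres] at i3
  have hσp : σ < p.re := hp.1
  have hτp : p.re < τ := hp.2
  obtain ⟨j1, j2⟩ := int_cos_line (p := p) (σ := σ) (by linarith) (by linarith) (by linarith)
  obtain ⟨k1, k2⟩ := int_cos_line (p := p) (σ := τ) (by linarith) (by linarith) (by linarith)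
  have e : ∀ s : ℝ, σ ≤ s → s ≤ τ → s ≠ p.re → ∀ t : ℝ, H (s + t * I) / sin (s + t * I - p) ^ 2 =
      H p * (cos (s + t * I - p) / sin (s + t * I - p) ^ 2) + N (s + t * I) / sin (s + t * I - p) := by
    intro s h1 h2 h3 t
    have hu : ((s : ℂ) + t * I) ∈ CS σ τ := by
      show σ ≤ ((s : ℂ) + t * I).re ∧ ((s : ℂ) + t * I).re ≤ τ
      rw [vl_re]
      exact ⟨h1, h2⟩
    have hup : ((s : ℂ) + t * I) ≠ p := by
      intro h0
      have := congrArg Complex.re h0
      rw [vl_re] at this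
      exact h3 this
    have h0 := hne _ hu hup
    rw [hHN _ hu]
    field_simp
  simp_rw [e σ le_rfl hστ hσp.ne, e τ hστ le_rfl hτp.ne']
  rw [integral_add (k1.const_mul _) i2, integral_add (j1.const_mul _) i1, integral_const_mul,
    integral_const_mul, j2, k2, mul_zero, zero_add, zero_add]
  exact i3

end NUP1S

end
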