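import Pool.Agent.NUP1S.HostO
import Pool.Agent.NUP1S.Obw

/-!
# The weight of a word with satellites = the weight of a configuration of objects
-/

set_option autoImplicit false
set_option linter.unusedSectionVars false

noncomputable section

open Complex MeasureTheory NUP1 Set Filter Topology
open scoped Real

namespace NUP1S

open NUP1.Bd (cwz pwz qg chg sin_pos_of Ob)
open Ab (Part ppC potG WW ppC_single ppC_cons PU_two PU_mul PU_congr)

/-- type of an object: `true` = string -/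
def tyB : Ob → Bool
  | .S => true
  | _ => false

theorem gz_pp (o o' : CO) (z z' : ℂ) :
    gz o o' (z - z') = NUO.pp (o.1, tyB o.2, z) (o'.1, tyB o'.2, z') := by
  obtain ⟨c, k⟩ := o
  obtain ⟨c', k'⟩ := o'
  unfold gz NUO.pp
  by_cases h : c = c'
  · simp only [if_pos h]
    cases k <;> cases k' <;> rfl
  · simp only [if_neg h]
    cases k <;> cases k' <;> rfl

variable {ι : Type*} [Fintype ι] [DecidableEq ι]

/-- the constituents: the object `i` and its satellites -/
def cc (o : ι → CO) (z : ι → ℂ) (ρ : ι → ℝ) (τ : ι → Fin 3) (θ : ι → ℝ) (i : ι) : List Part :=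
  ((o i).1, tyB (o i).2, z i) :: List.replicate (τ i) (!(o i).1, false, cf z ρ τ θ i)

/-- own factor of the satellites of the object `i` -/
def om0 (o : ι → CO) (z : ι → ℂ) (ρ : ι → ℝ) (G : Bool → ℂ → ℂ) (τ : ι → Fin 3) (θ : ι → ℝ)
    (i : ι) : ℂ :=
  if τ i = 0 then 1
  else if τ i = 1 then -cM 0 (ρ i) (θ i) * (G (!(o i).1) (cM (z i + 2 * l) (ρ i) (θ i)) *
    gz (!(o i).1, .A) (o i) (cM (z i + 2 * l) (ρ i) (θ i) - z i))
  else (sin (2 * l) / sin l) ^ 2 * (G (!(o i).1) (z i + 2 * l) * (1 / sin (5 * l) ^ 2)) ^ 2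

variable (o : ι → CO) (z : ι → ℂ) (ρ : ι → ℝ) (G : Bool → ℂ → ℂ) (τ : ι → Fin 3) (θ : ι → ℝ)

/-- interaction of the satellites of `i` with the object `b` -/
def gi (i b : ι) : ℂ := gz (!(o i).1, .A) (o b) (cf z ρ τ θ i - z b) ^ (τ i : ℕ)

theorem omf_eq (i : ι) : omf o z ρ G τ θ i =
    om0 o z ρ G τ θ i * ∏ b ∈ Finset.univ.erase i, gi o z ρ τ θ i b := by
  unfold omf om0 gi cf
  rcases fin3_cases (τ i) with h | h | h
  · simp [h]
  · have h0 : τ i ≠ 0 := by rw [h]; decide
    simp only [if_neg h0, if_pos h]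
    unfold Hf0
    rw [← Finset.mul_prod_erase Finset.univ _ (Finset.mem_univ i)]
    simp only [h, Fin.val_one, pow_one]
    ring
  · have h0 : τ i ≠ 0 := by rw [h]; decide
    have h1 : τ i ≠ 1 := by rw [h]; decide
    simp only [if_neg h0, if_neg h1]
    simp only [h, Fin.val_two]
    rw [Finset.prod_pow]
    ring

theorem prod_replicate {n : ℕ} (a : Part) (f : Part → ℂ) :
    ((List.replicate n a).map f).prod = f a ^ n := by
  rw [List.map_replicate, List.prod_replicate]

theorem ppC_cc (i j : ι) : ppC (cc o z ρ τ θ i) (cc o z ρ τ θ j) =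
    gz (o i) (o j) (z i - z j) * (gi o z ρ τ θ i j * gi o z ρ τ θ j i) *
      PP (!(o i).1) (!(o j).1) (cf z ρ τ θ i - cf z ρ τ θ j) ^ ((τ i : ℕ) * (τ j : ℕ)) := by
  unfold ppC cc gi
  simp only [List.map_cons, List.prod_cons, prod_replicate]
  rw [← gz_pp (o i) (o j)]
  have e1 : NUO.pp ((o i).1, tyB (o i).2, z i) (!(o j).1, false, cf z ρ τ θ j) =
      gz (!(o j).1, .A) (o i) (cf z ρ τ θ j - z i) := by
    rw [Ab.pp_symm]
    exact (gz_pp (!(o j).1, .A) (o i) _ _).symm
  have e2 : NUO.pp (!(o i).1, false, cf z ρ τ θ i) ((o j).1, tyB (o j).2, z j) =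
      gz (!(o i).1, .A) (o j) (cf z ρ τ θ i - z j) :=
    (gz_pp (!(o i).1, .A) (o j) _ _).symm
  rw [e1, e2, Ab.pp_quanta, mul_pow, ← pow_mul, mul_comm (τ j : ℕ) (τ i : ℕ)]
  ring

/-- **weight of a word with satellites** -/
theorem weight_eq (h : ι → ℂ → ℂ) : Fg o h z * SWf o z ρ G τ θ =
    (∏ i, h i (z i) * om0 o z ρ G τ θ i) *
      PU fun i j => ppC (cc o z ρ τ θ i) (cc o z ρ τ θ j) := by
  unfold Fg SWf
  have e0 : ∏ x, ∏ b ∈ Finset.univ.erase x, gi o z ρ τ θ x b =
      PU fun i j => gi o z ρ τ θ i j * gi o z ρ τ θ j i := by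
    rw [PU_two]
    refine Finset.prod_congr rfl fun x _ => Finset.prod_congr ?_ fun _ _ => rfl
    ext b
    simp
  rw [Finset.prod_congr rfl fun i _ => omf_eq o z ρ G τ θ i, Finset.prod_mul_distrib,
    e0, Finset.prod_mul_distrib]
  have e : (PU fun i j => ppC (cc o z ρ τ θ i) (cc o z ρ τ θ j)) =
      PU (fun i j => gz (o i) (o j) (z i - z j) * (gi o z ρ τ θ i j * gi o z ρ τ θ j i)) *
        PU fun i j => PP (!(o i).1) (!(o j).1) (cf z ρ τ θ i - cf z ρ τ θ j) ^
          ((τ i : ℕ) * (τ j : ℕ)) := by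
    rw [← PU_mul]
    exact PU_congr fun i j => ppC_cc o z ρ τ θ i j
  have e2 := PU_mul (fun i j => gz (o i) (o j) (z i - z j))
    (fun i j => gi o z ρ τ θ i j * gi o z ρ τ θ j i)
  rw [e, e2]
  ring

/-- **field of a word with satellites** -/
theorem field_eq (s : Bool) (u : ℂ) :
    Hfs o z ρ G τ θ s u = G s u * potG (cc o z ρ τ θ) s u := by
  unfold Hfs Hf0 potG
  rw [mul_assoc, ← Finset.prod_mul_distrib]
  congr 1
  refine Finset.prod_congr rfl fun i _ => ?_
  rw [ppC_single]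
  unfold cc
  simp only [List.map_cons, List.prod_cons, prod_replicate]
  rw [Ab.pp_quanta]
  congr 1
  exact gz_pp (s, .A) (o i) _ _

/-! ## the objects of `NUO.Obj` -/

/-- kind of an object with satellites -/
def kdO : O3 → Fin 3 → NUO.Kind
  | .L, _ => .L
  | .T, _ => .St
  | .S, 0 => .S
  | .S, 1 => .Sv
  | .S, 2 => .Svv

theorem cM_eq (p : ℂ) (r t : ℝ) : cM p r t = p + r * Complex.exp (2 * π * t * I) := by
  unfold cM circleMap
  push_cast
  rfl

/-- the constituents of an object of `NUO.Obj` -/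
theorem parts_cc {P : NUO.Par} {r : ℕ} {k : ι → O3} {n : ι → ℕ} {t : ι → ℝ} {i : ι} {s : Bool}
    (hτ : τ i ≠ 0 → k i = .S) (ho : o i = (s, ob3 (k i)))
    (hz : z i = vl (lnO P r (n i) (k i)) (t i)) :
    NUO.parts P.jL (P.e + P.d r * ((n i : ℝ) / r)) (ρ i)
      ((s, kdO (k i) (τ i)), (t i, θ i)) = cc o z ρ τ θ i := by
  unfold cc cf
  rw [ho, hz]
  rcases hk : k i with _ | _ | _
  · have h0 : τ i = 0 := by
      by_contra h
      have := hτ h
      rw [hk] at this
      exact O3.noConfusion this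
    rw [h0]
    rfl
  · rcases fin3_cases (τ i) with h | h | h
    · rw [h]
      rfl
    · rw [h, cM_eq]
      rfl
    · rw [h]
      rfl
  · have h0 : τ i = 0 := by
      by_contra h
      have := hτ h
      rw [hk] at this
      exact O3.noConfusion this
    rw [h0]
    rfl

/-- modulus of the weight of a word with satellites -/
theorem norm_weight (h : ι → ℂ → ℂ) : ‖Fg o h z * SWf o z ρ G τ θ‖ =
    WW (fun i => ‖h i (z i) * om0 o z ρ G τ θ i‖) (cc o z ρ τ θ) := by
  rw [weight_eq, norm_mul, norm_prod]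
  rfl

end NUP1S

end
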