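import Pool.Agent.NUP1S.Expand

/-!
# Evaluation of the satellites: pairs at the poles, single satellites on circles
-/

set_option autoImplicit false
set_option linter.unusedSectionVars false

noncomputable section

open Complex MeasureTheory NUP1 Set Filter Topology
open scoped Real

namespace NUP1S

variable {pl : Bool → Finset ℂ} {κ a b : ℝ}

/-- the constant of a pair -/
def kp : ℂ := (sin (2 * l) / sin l) ^ 2

/-- data of the poles: species, pole, radius -/
structure SD (ι : Type*) where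
  sp : ι → Bool
  p : ι → ℂ
  r : ι → ℝ

variable {ι : Type*} [Fintype ι] [DecidableEq ι] (D : SD ι) (σ : ι → Fin 3)

/-- the circle of the pole `i` -/
def SD.ci (i : ι) : Ct := circC (D.sp i) (D.p i) (D.r i)

/-- position of the satellites of the pole `i` -/
def SD.c (θ : ι → ℝ) (i : ι) : ℂ := if σ i = 1 then cM (D.p i) (D.r i) (θ i) else D.p i

/-- one body weight of the satellites of the pole `i` -/
def SD.om (pl : Bool → Finset ℂ) (g : Bool → ℂ → ℂ) (θ : ι → ℝ) (i : ι) : ℂ :=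
  if σ i = 0 then 1
  else if σ i = 1 then -cM 0 (D.r i) (θ i) * Wt pl g (D.sp i) (cM (D.p i) (D.r i) (θ i))
  else kp * rg pl g (D.sp i) (D.p i) ^ 2

/-- one body data in the presence of the satellites of the pole `i` -/
def SD.ak (θ : ι → ℝ) (g : Bool → ℂ → ℂ) (i : ι) : Bool → ℂ → ℂ :=
  fun s u => g s u * PP s (D.sp i) (u - D.c σ θ i) ^ (σ i : ℕ)

/-- pair weight of satellites -/
def SD.pr (θ : ι → ℝ) (i j : ι) : ℂ :=
  PP (D.sp i) (D.sp j) (D.c σ θ i - D.c σ θ j) ^ ((σ i : ℕ) * (σ j : ℕ))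

/-- weight of the satellites of a list of poles, by recursion -/
def SD.W (pl : Bool → Finset ℂ) (θ : ι → ℝ) : List ι → (Bool → ℂ → ℂ) → ℂ
  | [], _ => 1
  | i :: l, g => D.om σ pl g θ i * SD.W pl θ l (D.ak σ θ g i)

/-- one body data in the presence of the satellites of a list of poles -/
def SD.aL (θ : ι → ℝ) : List ι → (Bool → ℂ → ℂ) → Bool → ℂ → ℂ
  | [], g => g
  | i :: l, g => SD.aL θ l (D.ak σ θ g i)

variable {D σ}

theorem fin3_cases (k : Fin 3) : k = 0 ∨ k = 1 ∨ k = 2 := by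
  fin_cases k <;> simp

theorem SD.ak_comm (θ : ι → ℝ) (g : Bool → ℂ → ℂ) (i j : ι) :
    D.ak σ θ (D.ak σ θ g i) j = D.ak σ θ (D.ak σ θ g j) i := by
  funext s u
  unfold SD.ak
  ring

theorem SD.pr_symm (θ : ι → ℝ) (i j : ι) : D.pr σ θ i j = D.pr σ θ j i := by
  unfold SD.pr
  rw [PP_comm, ← PP_neg, neg_sub, mul_comm]

theorem SD.om_ak (θ : ι → ℝ) (g : Bool → ℂ → ℂ) (i j : ι) :
    D.om σ pl (D.ak σ θ g j) θ i = D.om σ pl g θ i * D.pr σ θ i j := by
  unfold SD.om SD.pr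
  rcases fin3_cases (σ i) with h | h | h
  · simp [h]
  · have h0 : σ i ≠ 0 := by rw [h]; decide
    rw [if_neg h0, if_neg h0, if_pos h, if_pos h]
    have hc : D.c σ θ i = cM (D.p i) (D.r i) (θ i) := by
      unfold SD.c
      rw [if_pos h]
    rw [hc]
    unfold Wt SD.ak
    rw [h]
    simp only [Fin.val_one, one_mul]
    ring
  · have h0 : σ i ≠ 0 := by rw [h]; decide
    have h1 : σ i ≠ 1 := by rw [h]; decide
    rw [if_neg h0, if_neg h0, if_neg h1, if_neg h1]
    have hc : D.c σ θ i = D.p i := by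
      unfold SD.c
      rw [if_neg h1]
    rw [hc, h]
    have e : rg pl (D.ak σ θ g j) (D.sp i) (D.p i) =
        rg pl g (D.sp i) (D.p i) * PP (D.sp i) (D.sp j) (D.p i - D.c σ θ j) ^ (σ j : ℕ) := by
      unfold rg SD.ak
      ring
    rw [e, Fin.val_two, mul_comm 2 (σ j : ℕ), pow_mul]
    ring

theorem SD.W_perm (θ : ι → ℝ) {l l' : List ι} (h : l.Perm l') (g : Bool → ℂ → ℂ) :
    D.W σ pl θ l g = D.W σ pl θ l' g := by
  induction h generalizing g with
  | nil => rfl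
  | cons i _ ih => unfold SD.W; rw [ih]
  | swap i j l =>
    unfold SD.W SD.W
    rw [SD.om_ak, SD.om_ak, SD.ak_comm, SD.pr_symm θ i j]
    ring
  | trans _ _ ih ih' => rw [ih, ih']

theorem SD.aL_eq (θ : ι → ℝ) (l : List ι) : ∀ (g : Bool → ℂ → ℂ) (s : Bool) (u : ℂ),
    D.aL σ θ l g s u =
      g s u * (l.map fun i => PP s (D.sp i) (u - D.c σ θ i) ^ (σ i : ℕ)).prod := by
  induction l with
  | nil => intro g s u; simp [SD.aL]
  | cons i l ih =>
    intro g s u
    unfold SD.aL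
    rw [ih, List.map_cons, List.prod_cons]
    unfold SD.ak
    ring

theorem SD.aL_perm (θ : ι → ℝ) {l l' : List ι} (h : l.Perm l') (g : Bool → ℂ → ℂ) :
    D.aL σ θ l g = D.aL σ θ l' g := by
  funext s u
  rw [SD.aL_eq, SD.aL_eq]
  congr 1
  exact (h.map _).prod_eq

theorem SD.W_append (θ : ι → ℝ) (l l' : List ι) : ∀ g : Bool → ℂ → ℂ,
    D.W σ pl θ (l ++ l') g = D.W σ pl θ l g * D.W σ pl θ l' (D.aL σ θ l g) := by
  induction l with
  | nil => intro g; simp [SD.W, SD.aL]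
  | cons i l ih =>
    intro g
    show D.om σ pl g θ i * D.W σ pl θ (l ++ l') (D.ak σ θ g i) = _
    rw [ih]
    show _ = (D.om σ pl g θ i * D.W σ pl θ l (D.ak σ θ g i)) *
      D.W σ pl θ l' (D.aL σ θ l (D.ak σ θ g i))
    ring

theorem SD.aL_append (θ : ι → ℝ) (l l' : List ι) : ∀ g : Bool → ℂ → ℂ,
    D.aL σ θ (l ++ l') g = D.aL σ θ l' (D.aL σ θ l g) := by
  induction l with
  | nil => intro g; rfl
  | cons i l ih =>
    intro g
    exact ih _

/-- the recursion as a product -/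
theorem SD.W_ofFn (θ : ι → ℝ) {n : ℕ} : ∀ (v : Fin n → ι) (g : Bool → ℂ → ℂ),
    D.W σ pl θ (List.ofFn v) g =
      (∏ k, D.om σ pl g θ (v k)) * Grand.P fun k k' => D.pr σ θ (v k) (v k') := by
  induction n with
  | zero =>
    intro v g
    simp [SD.W, Grand.P_zero]
  | succ n ih =>
    intro v g
    rw [List.ofFn_succ]
    show D.om σ pl g θ (v 0) * D.W σ pl θ (List.ofFn fun i => v i.succ) (D.ak σ θ g (v 0)) = _
    rw [ih, Grand.P_succAbove (fun k k' => D.pr σ θ (v k) (v k'))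
      (fun k k' => SD.pr_symm θ _ _) 0, Fin.prod_univ_succ]
    simp only [Fin.zero_succAbove, SD.om_ak, Finset.prod_mul_distrib]
    ring

/-- weight of all satellites -/
def SD.SW (D : SD ι) (σ : ι → Fin 3) (pl : Bool → Finset ℂ) (g : Bool → ℂ → ℂ) (θ : ι → ℝ) : ℂ :=
  (∏ i, D.om σ pl g θ i) * PU fun i j => D.pr σ θ i j

/-- one body data in the presence of all satellites -/
def SD.aS (D : SD ι) (σ : ι → Fin 3) (g : Bool → ℂ → ℂ) (θ : ι → ℝ) : Bool → ℂ → ℂ :=
  fun s u => g s u * ∏ i, PP s (D.sp i) (u - D.c σ θ i) ^ (σ i : ℕ)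

theorem univ_perm {l : List ι} (h1 : l.Nodup) (h2 : ∀ i, i ∈ l) {n : ℕ} (e : Fin n ≃ ι) :
    l.Perm (List.ofFn fun k => e k) := by
  refine List.perm_of_nodup_nodup_toFinset_eq h1 ?_ ?_
  · rw [List.nodup_ofFn]
    exact e.injective
  · ext i
    simp only [List.mem_toFinset, h2, true_iff, List.mem_ofFn]
    exact ⟨e.symm i, by simp⟩

theorem SD.W_univ (θ : ι → ℝ) {l : List ι} (h1 : l.Nodup) (h2 : ∀ i, i ∈ l) (g : Bool → ℂ → ℂ) :
    D.W σ pl θ l g = D.SW σ pl g θ := by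
  have e := (Fintype.equivFin ι).symm
  rw [SD.W_perm θ (univ_perm h1 h2 e), SD.W_ofFn]
  unfold SD.SW
  rw [← PU_fin (fun k k' => SD.pr_symm θ _ _), PU_equiv e (fun i j => SD.pr_symm θ i j),
    e.prod_comp]

theorem SD.aL_univ (θ : ι → ℝ) {l : List ι} (h1 : l.Nodup) (h2 : ∀ i, i ∈ l) (g : Bool → ℂ → ℂ) :
    D.aL σ θ l g = D.aS σ g θ := by
  funext s u
  rw [SD.aL_eq]
  unfold SD.aS
  congr 1
  have e := (Fintype.equivFin ι).symm
  rw [((univ_perm h1 h2 e).map _).prod_eq, List.map_ofFn, List.prod_ofFn]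
  exact e.prod_comp (fun i => PP s (D.sp i) (u - D.c σ θ i) ^ (σ i : ℕ))

end NUP1S

end
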