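import Pool.Agent.NUP1S.Eval

/-!
# Evaluation of the satellites (continued)
-/

set_option autoImplicit false
set_option linter.unusedSectionVars false

noncomputable section

open Complex MeasureTheory NUP1 Set Filter Topology
open scoped Real

namespace NUP1S

variable {pl : Bool → Finset ℂ} {κ a b : ℝ}

theorem chL_ofFn {n : ℕ} (C : Fin n → Ct) : chL (List.ofFn C) = ∑ i, sg (C i).sp := by
  unfold chL
  rw [List.map_ofFn, List.sum_ofFn]
  rfl

/-- **Blocks of vectors.** -/
theorem blockV (G : Geo pl κ a b) {n : ℕ} (C : Fin n → Ct) (R : List Ct)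
    (hC : ∀ i, OkC pl κ a b (C i)) (hR : ∀ c ∈ R, OkC pl κ a b c) {g : Bool → ℂ → ℂ}
    (hg : Reg pl κ a b (chL (List.ofFn C) + chL R) g) :
    Integrable (fun t : Fin n → ℝ => Fc pl g C t *
      NI pl R (adI g (fun i => (C i).sp) fun i => (C i).pos (t i)))
      (Measure.pi fun _ => volume) ∧
    NI pl (List.ofFn C ++ R) g = ∫ t : Fin n → ℝ, Fc pl g C t *
      NI pl R (adI g (fun i => (C i).sp) fun i => (C i).pos (t i))
      ∂(Measure.pi fun _ => volume) := by
  have hok : ∀ c ∈ List.ofFn C ++ R, OkC pl κ a b c := fun c hc => by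
    rcases List.mem_append.1 hc with h | h
    · obtain ⟨i, rfl⟩ := List.mem_ofFn.1 h
      exact hC i
    · exact hR c h
  have hlen : n + R.length = (List.ofFn C ++ R).length := by
    rw [List.length_append, List.length_ofFn]
  obtain ⟨e, he⟩ : ∃ e : Fin n ⊕ Fin R.length ≃ Fin (List.ofFn C ++ R).length,
      ∀ i, (Sum.elim C (fun i => R.get i) i : Ct) = (List.ofFn C ++ R).get (e i) := by
    refine ⟨finSumFinEquiv.trans (finCongr hlen), ?_⟩
    rintro (i | i)
    · simp
    · simp
  obtain ⟨i1, i2⟩ := block G (C := C) (C' := fun i : Fin R.length => R.get i) hC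
    (fun i => hR _ (List.get_mem _ _)) (g := g) (by
      unfold chI
      rw [sum_get, ← chL_ofFn]
      exact hg)
  have e1 : ∀ t : Fin n → ℝ,
      ∫ t' : Fin R.length → ℝ, Fc pl (adI g (fun i => (C i).sp) fun i => (C i).pos (t i))
        (fun i => R.get i) t' ∂(Measure.pi fun _ => volume) =
      NI pl R (adI g (fun i => (C i).sp) fun i => (C i).pos (t i)) := by
    intro t
    refine (NI_eq_int G R hR _ ?_ (fun i => R.get i) (Equiv.refl _) (fun i => rfl)).symm
    have := hg.adI G (fun i => (C i).sp) (z := fun i => (C i).pos (t i))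
      (fun i => (hC i).re1 _) (fun i => (hC i).re2 _)
    rwa [← chL_ofFn, add_sub_cancel_left] at this
  constructor
  · simp only [e1] at i1
    exact i1
  · rw [NI_eq_int G (List.ofFn C ++ R) hok g (by rwa [chL_append]) _ e he, i2]
    refine integral_congr_ae (Eventually.of_forall fun t => ?_)
    simp only [e1]

/-- the uniform measure on angles -/
abbrev mu1 : Measure ℝ := volume.restrict (Ioc (0 : ℝ) 1)

instance : IsProbabilityMeasure mu1 := ⟨by simp [mu1]⟩

variable {ι : Type*} [Fintype ι] [DecidableEq ι] {D : SD ι} {σ : ι → Fin 3}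

/-- the circles of the satellites -/
def SD.cL (D : SD ι) (σ : ι → Fin 3) (l : List ι) : List Ct :=
  l.flatMap fun i => List.replicate (σ i) (D.ci i)

theorem SD.cL_zero {l : List ι} (h : ∀ i ∈ l, σ i = 0) : D.cL σ l = [] := by
  induction l with
  | nil => rfl
  | cons i l ih =>
    unfold SD.cL at *
    rw [List.flatMap_cons, ih fun j hj => h j (List.mem_cons_of_mem _ hj), h i (by simp)]
    rfl

theorem SD.W_zero {l : List ι} (h : ∀ i ∈ l, σ i = 0) (θ : ι → ℝ) :
    ∀ g : Bool → ℂ → ℂ, D.W σ pl θ l g = 1 ∧ D.aL σ θ l g = g := by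
  induction l with
  | nil => intro g; exact ⟨rfl, rfl⟩
  | cons i l ih =>
    intro g
    have h0 : σ i = 0 := h i (by simp)
    have e : D.ak σ θ g i = g := by
      funext s u
      simp [SD.ak, h0]
    have e2 : D.om σ pl g θ i = 1 := by
      simp [SD.om, h0]
    have := ih (fun j hj => h j (List.mem_cons_of_mem _ hj)) g
    unfold SD.W SD.aL
    rw [e, e2, one_mul]
    exact this

/-- conditions on the poles with satellites -/
structure SD.Cond (pl : Bool → Finset ℂ) (κ a b : ℝ) (D : SD ι) (i : ι) : Prop where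
  ok : OkC pl κ a b (D.ci i)
  mem : D.p i ∈ pl (D.sp i)
  pair : Pair pl κ a b (D.ci i) (D.p i) (2 * kp)

theorem chL_cL_two {l : List ι} (h : ∀ i ∈ l, σ i = 2) (i : ι) (hi : σ i = 2) :
    chL (D.cL σ (i :: l)) = sg (D.sp i) + (sg (D.sp i) + chL (D.cL σ l)) := by
  unfold SD.cL
  rw [List.flatMap_cons, chL_append, hi, chL_replicate]
  show ((2 : ℕ) : ℤ) * sg (D.sp i) + _ = _
  push_cast
  ring

/-- pairs -/
theorem SD.eval_two (G : Geo pl κ a b) {l : List ι} (h : ∀ i ∈ l, σ i = 2)
    (hD : ∀ i ∈ l, D.Cond pl κ a b i) {M : List Ct} (hM : ∀ c ∈ M, OkC pl κ a b c)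
    (θ : ι → ℝ) : ∀ g : Bool → ℂ → ℂ, Reg pl κ a b (chL (D.cL σ l) + chL M) g →
    fS l σ * NI pl (D.cL σ l ++ M) g = D.W σ pl θ l g * NI pl M (D.aL σ θ l g) ∧
      Reg pl κ a b (chL M) (D.aL σ θ l g) := by
  induction l with
  | nil =>
    intro g hg
    have e : chL (D.cL σ ([] : List ι)) = 0 := by simp [SD.cL]
    rw [e, zero_add] at hg
    exact ⟨by simp [fS, SD.cL, SD.W, SD.aL], hg⟩
  | cons i l ih =>
    intro g hg
    have hi : σ i = 2 := h i (by simp)
    have hl : ∀ j ∈ l, σ j = 2 := fun j hj => h j (List.mem_cons_of_mem _ hj)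
    have hc := hD i (by simp)
    have hDl : ∀ j ∈ l, D.Cond pl κ a b j := fun j hj => hD j (List.mem_cons_of_mem _ hj)
    have h0 : σ i ≠ 0 := by rw [hi]; decide
    have h1 : σ i ≠ 1 := by rw [hi]; decide
    have e1 : D.ak σ θ g i = ad2 g (D.sp i) (D.p i) := by
      funext s u
      unfold SD.ak SD.c ad2 ad
      rw [if_neg h1, hi, Fin.val_two]
      ring
    have e2 : D.om σ pl g θ i = kp * rg pl g (D.sp i) (D.p i) ^ 2 := by
      unfold SD.om
      rw [if_neg h0, if_neg h1]
    have e3 : D.cL σ (i :: l) ++ M = D.ci i :: D.ci i :: (D.cL σ l ++ M) := by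
      unfold SD.cL
      rw [List.flatMap_cons, hi]
      rfl
    rw [chL_cL_two hl i hi] at hg
    have okl : ∀ z ∈ D.cL σ l ++ M, OkC pl κ a b z := by
      intro z hz
      rcases List.mem_append.1 hz with hz | hz
      · unfold SD.cL at hz
        obtain ⟨j, hj, hz⟩ := List.mem_flatMap.1 hz
        rw [(List.mem_replicate.1 hz).2]
        exact (hDl j hj).ok
      · exact hM z hz
    have hg2 : Reg pl κ a b (chL (D.ci i :: D.ci i :: (D.cL σ l ++ M))) g := by
      rw [chL_cons, chL_cons, chL_append]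
      show Reg pl κ a b (sg (D.sp i) + (sg (D.sp i) + (chL (D.cL σ l) + chL M))) g
      convert hg using 1
      ring
    have key := NI_pair G hc.ok hc.mem hc.pair (D.cL σ l ++ M) okl g hg2
    have hg3 : Reg pl κ a b (chL (D.cL σ l) + chL M) (D.ak σ θ g i) := by
      rw [e1]
      have := hg.ad2 G (D.sp i) hc.mem
      convert this using 1
      ring
    obtain ⟨ih1, ih2⟩ := ih hl hDl (D.ak σ θ g i) hg3
    refine ⟨?_, ih2⟩
    rw [e3, key]
    show fS (i :: l) σ * (2 * kp * rg pl g (D.sp i) (D.p i) ^ 2 *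
      NI pl (D.cL σ l ++ M) (ad2 g (D.sp i) (D.p i))) =
      (D.om σ pl g θ i * D.W σ pl θ l (D.ak σ θ g i)) * NI pl M (D.aL σ θ l (D.ak σ θ g i))
    have e4 : fS (i :: l) σ = 2⁻¹ * fS l σ := by
      unfold fS
      rw [List.map_cons, List.prod_cons, hi, Fin.val_two, Nat.factorial_two]
      norm_num
    rw [mul_assoc (D.om σ pl g θ i), ← ih1, e4, e2, e1]
    ring

theorem SD.cL_one {n : ℕ} {v : Fin n → ι} (h : ∀ k, σ (v k) = 1) :
    D.cL σ (List.ofFn v) = List.ofFn fun k => D.ci (v k) := by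
  induction n with
  | zero => simp [SD.cL]
  | succ n ih =>
    unfold SD.cL at *
    rw [List.ofFn_succ, List.flatMap_cons, ih fun k => h _, h 0, List.ofFn_succ]
    rfl

theorem fS_one {n : ℕ} {v : Fin n → ι} (h : ∀ k, σ (v k) = 1) : fS (List.ofFn v) σ = 1 := by
  unfold fS
  rw [List.map_ofFn, List.prod_ofFn]
  refine Finset.prod_eq_one fun k _ => ?_
  simp [h k]

/-- single satellites -/
theorem SD.eval_one (G : Geo pl κ a b) {n : ℕ} {v : Fin n → ι} (hv : Function.Injective v)
    (h : ∀ k, σ (v k) = 1) (hD : ∀ k, D.Cond pl κ a b (v k)) {M : List Ct}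
    (hM : ∀ c ∈ M, OkC pl κ a b c) (g : Bool → ℂ → ℂ)
    (hg : Reg pl κ a b (chL (D.cL σ (List.ofFn v)) + chL M) g) :
    NI pl (D.cL σ (List.ofFn v) ++ M) g =
      ∫ θ : ι → ℝ, D.W σ pl θ (List.ofFn v) g * NI pl M (D.aL σ θ (List.ofFn v) g)
        ∂(Measure.pi fun _ => mu1) := by
  rw [SD.cL_one h] at hg ⊢
  obtain ⟨i1, i2⟩ := blockV G (fun k => D.ci (v k)) M (fun k => (hD k).ok) hM hg
  rw [i2]
  -- the function of the angles of the single satellites
  set h1 : (Fin n → ℝ) → ℂ := fun t =>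
    ((∏ k, (-cM 0 (D.r (v k)) (t k) * Wt pl g (D.sp (v k)) (cM (D.p (v k)) (D.r (v k)) (t k)))) *
      PU fun k k' => pwc (D.ci (v k)) (D.ci (v k')) (t k) (t k')) *
    NI pl M (adI g (fun k => D.sp (v k)) fun k => cM (D.p (v k)) (D.r (v k)) (t k)) with hh1
  set box : Set (Fin n → ℝ) := Set.pi univ fun _ => Ioc (0 : ℝ) 1 with hbox
  have hboxm : MeasurableSet box := MeasurableSet.univ_pi fun _ => measurableSet_Ioc
  have e1 : ∀ t : Fin n → ℝ, Fc pl g (fun k => D.ci (v k)) t *
      NI pl M (adI g (fun k => (D.ci (v k)).sp) fun k => (D.ci (v k)).pos (t k)) =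
      box.indicator h1 t := by
    intro t
    by_cases ht : t ∈ box
    · rw [indicator_of_mem ht, hh1]
      show _ = (_ * _) * _
      congr 1
      unfold Fc
      congr 1
      refine Finset.prod_congr rfl fun k _ => ?_
      show cOm (D.r (v k)) (t k) * _ = _
      unfold cOm
      rw [indicator_of_mem (ht k (mem_univ k))]
      rfl
    · rw [indicator_of_notMem ht]
      have : ∃ k, t k ∉ Ioc (0 : ℝ) 1 := by
        by_contra hcon
        push Not at hcon
        exact ht fun k _ => hcon k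
      obtain ⟨k, hk⟩ := this
      unfold Fc
      rw [Finset.prod_eq_zero (Finset.mem_univ k), zero_mul, zero_mul]
      show cOm (D.r (v k)) (t k) * _ = 0
      unfold cOm
      rw [indicator_of_notMem hk, zero_mul]
  have e2 : (Measure.pi fun _ : Fin n => mu1) =
      (Measure.pi fun _ : Fin n => (volume : Measure ℝ)).restrict box := by
    rw [hbox, Measure.restrict_pi_pi]
  have h2 : Integrable h1 (Measure.pi fun _ : Fin n => mu1) := by
    rw [e2]
    refine (integrable_indicator_iff hboxm).1 ?_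
    refine i1.congr (Eventually.of_forall fun t => ?_)
    exact e1 t
  have mp := mp_comp mu1 v hv
  have e3 : ∀ θ : ι → ℝ, D.W σ pl θ (List.ofFn v) g * NI pl M (D.aL σ θ (List.ofFn v) g) =
      h1 (fun k => θ (v k)) := by
    intro θ
    have hc : ∀ k, D.c σ θ (v k) = cM (D.p (v k)) (D.r (v k)) (θ (v k)) := fun k => by
      unfold SD.c
      rw [if_pos (h k)]
    rw [hh1, SD.W_ofFn]
    show _ = (_ * _) * _
    congr 1
    · congr 1
      · refine Finset.prod_congr rfl fun k _ => ?_
        unfold SD.om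
        rw [if_neg (by rw [h k]; decide), if_pos (h k)]
      · rw [← PU_fin (fun k k' => SD.pr_symm θ _ _)]
        congr 1
        funext k k'
        unfold SD.pr
        rw [hc, hc, h k, h k', Fin.val_one, mul_one, pow_one]
        rfl
    · congr 1
      funext s u
      rw [SD.aL_eq, List.map_ofFn, List.prod_ofFn]
      unfold adI
      congr 1
      refine Finset.prod_congr rfl fun k _ => ?_
      show PP s (D.sp (v k)) (u - D.c σ θ (v k)) ^ ((σ (v k) : Fin 3) : ℕ) = _
      rw [hc, h k, Fin.val_one, pow_one]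
  simp only [e1]
  rw [integral_indicator hboxm, ← e2]
  simp_rw [e3]
  rw [← integral_map mp.measurable.aemeasurable (by rw [mp.map_eq]; exact h2.aestronglyMeasurable),
    mp.map_eq]

end NUP1S

end
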