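import Pool.Agent.NUP1S.Eval2

/-!
# Evaluation of the satellites: the theorem
-/

set_option autoImplicit false
set_option linter.unusedSectionVars false

noncomputable section

open Complex MeasureTheory NUP1 Set Filter Topology
open scoped Real

namespace NUP1S

variable {pl : Bool → Finset ℂ} {κ a b : ℝ}
variable {ι : Type*} [Fintype ι] [DecidableEq ι] {D : SD ι} {σ : ι → Fin 3}

theorem SD.two_const {l : List ι} (h : ∀ i ∈ l, σ i = 2) (θ θ' : ι → ℝ) :
    ∀ g : Bool → ℂ → ℂ, D.W σ pl θ l g = D.W σ pl θ' l g ∧ D.aL σ θ l g = D.aL σ θ' l g := by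
  induction l with
  | nil => intro g; exact ⟨rfl, rfl⟩
  | cons i l ih =>
    intro g
    have hi : σ i = 2 := h i (by simp)
    have h1 : σ i ≠ 1 := by rw [hi]; decide
    have h0 : σ i ≠ 0 := by rw [hi]; decide
    have e1 : D.ak σ θ g i = D.ak σ θ' g i := by
      funext s u
      unfold SD.ak SD.c
      rw [if_neg h1, if_neg h1]
    have e2 : D.om σ pl g θ i = D.om σ pl g θ' i := by
      unfold SD.om
      rw [if_neg h0, if_neg h1, if_neg h0, if_neg h1]
    have := ih (fun j hj => h j (List.mem_cons_of_mem _ hj)) (D.ak σ θ' g i)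
    unfold SD.W SD.aL
    rw [e1, e2, this.1, this.2]
    exact ⟨rfl, rfl⟩

theorem fS_append (l l' : List ι) : fS (l ++ l') σ = fS l σ * fS l' σ := by
  unfold fS
  rw [List.map_append, List.prod_append]

theorem fS_perm {l l' : List ι} (h : l.Perm l') : fS l σ = fS l' σ := by
  unfold fS
  exact (h.map _).prod_eq

theorem fS_zero {l : List ι} (h : ∀ i ∈ l, σ i = 0) : fS l σ = 1 := by
  induction l with
  | nil => simp [fS]
  | cons i l ih =>
    have e := ih fun j hj => h j (List.mem_cons_of_mem _ hj)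
    unfold fS at *
    rw [List.map_cons, List.prod_cons, e, h i (by simp)]
    simp

theorem SD.cL_append (l l' : List ι) : D.cL σ (l ++ l') = D.cL σ l ++ D.cL σ l' := by
  unfold SD.cL
  exact List.flatMap_append

theorem SD.cL_perm {l l' : List ι} (h : l.Perm l') : (D.cL σ l).Perm (D.cL σ l') := by
  unfold SD.cL
  exact h.flatMap_right _

theorem perm_filters (l : List ι) (σ : ι → Fin 3) :
    l.Perm (l.filter (fun i => σ i = 2) ++ (l.filter (fun i => σ i = 1) ++
      l.filter (fun i => σ i = 0))) := by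
  induction l with
  | nil => exact List.Perm.nil
  | cons i l ih =>
    rcases fin3_cases (σ i) with h | h | h
    · rw [List.filter_cons_of_neg (by simp [h]), List.filter_cons_of_neg (by simp [h]),
        List.filter_cons_of_pos (by simp [h])]
      refine (ih.cons i).trans ?_
      refine List.Perm.trans ?_ (List.Perm.append_left _ List.perm_middle.symm)
      exact List.perm_middle.symm
    · rw [List.filter_cons_of_neg (by simp [h]), List.filter_cons_of_pos (by simp [h]),
        List.filter_cons_of_neg (by simp [h])]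
      refine (ih.cons i).trans ?_
      exact List.perm_middle.symm
    · rw [List.filter_cons_of_pos (by simp [h]), List.filter_cons_of_neg (by simp [h]),
        List.filter_cons_of_neg (by simp [h])]
      exact ih.cons i

theorem chL_cL_perm {l l' : List ι} (h : l.Perm l') : chL (D.cL σ l) = chL (D.cL σ l') :=
  chL_perm (SD.cL_perm h)

/-- **Evaluation of the satellites.** -/
theorem SD.eval (G : Geo pl κ a b) {l : List ι} (hnd : l.Nodup) (hun : ∀ i, i ∈ l)
    (hD : ∀ i, σ i ≠ 0 → D.Cond pl κ a b i) {R : List Ct} (hR : ∀ c ∈ R, OkC pl κ a b c)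
    (g : Bool → ℂ → ℂ) (hg : Reg pl κ a b (chL (D.cL σ l) + chL R) g) :
    fS l σ * NI pl (D.cL σ l ++ R) g =
      ∫ θ : ι → ℝ, D.SW σ pl g θ * NI pl R (D.aS σ g θ) ∂(Measure.pi fun _ => mu1) := by
  set l2 := l.filter (fun i => σ i = 2) with hl2
  set l1 := l.filter (fun i => σ i = 1) with hl1
  set l0 := l.filter (fun i => σ i = 0) with hl0
  have hp : l.Perm (l2 ++ (l1 ++ l0)) := perm_filters l σ
  have h2 : ∀ i ∈ l2, σ i = 2 := fun i hi => by
    simpa using (List.mem_filter.1 hi).2
  have h1 : ∀ i ∈ l1, σ i = 1 := fun i hi => by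
    simpa using (List.mem_filter.1 hi).2
  have h0 : ∀ i ∈ l0, σ i = 0 := fun i hi => by
    simpa using (List.mem_filter.1 hi).2
  have hD2 : ∀ i ∈ l2, D.Cond pl κ a b i := fun i hi => hD i (by rw [h2 i hi]; decide)
  have hD1 : ∀ i ∈ l1, D.Cond pl κ a b i := fun i hi => hD i (by rw [h1 i hi]; decide)
  have hnd1 : l1.Nodup := hnd.filter _
  -- the circles
  have hcL : (D.cL σ l).Perm (D.cL σ l2 ++ D.cL σ l1) := by
    refine (SD.cL_perm hp).trans ?_
    rw [SD.cL_append, SD.cL_append, SD.cL_zero h0, List.append_nil]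
  have okC : ∀ l' : List ι, (∀ i ∈ l', D.Cond pl κ a b i) → ∀ c ∈ D.cL σ l', OkC pl κ a b c := by
    intro l' hl' c hc
    unfold SD.cL at hc
    obtain ⟨j, hj, hz⟩ := List.mem_flatMap.1 hc
    rw [(List.mem_replicate.1 hz).2]
    exact (hl' j hj).ok
  have okl : ∀ c ∈ D.cL σ l ++ R, OkC pl κ a b c := by
    intro c hc
    rcases List.mem_append.1 hc with hc | hc
    · rcases List.mem_append.1 (hcL.mem_iff.1 hc) with hc | hc
      · exact okC l2 hD2 c hc
      · exact okC l1 hD1 c hc
    · exact hR c hc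
  have hch : chL (D.cL σ l) + chL R = chL (D.cL σ l2) + chL (D.cL σ l1 ++ R) := by
    rw [chL_perm hcL, chL_append, chL_append, add_assoc]
  have e1 : NI pl (D.cL σ l ++ R) g = NI pl (D.cL σ l2 ++ (D.cL σ l1 ++ R)) g := by
    refine NI_perm G ?_ okl g (by rw [chL_append]; exact hg)
    rw [← List.append_assoc]
    exact hcL.append_right R
  have e2 : fS l σ = fS l2 σ := by
    rw [fS_perm hp, fS_append, fS_append, fS_zero h0, mul_one]
    have : fS l1 σ = 1 := by
      rw [← List.ofFn_get l1]
      exact fS_one fun k => h1 _ (List.get_mem _ _)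
    rw [this, mul_one]
  have okM : ∀ c ∈ D.cL σ l1 ++ R, OkC pl κ a b c := by
    intro c hc
    rcases List.mem_append.1 hc with hc | hc
    · exact okC l1 hD1 c hc
    · exact hR c hc
  have hg2 : Reg pl κ a b (chL (D.cL σ l2) + chL (D.cL σ l1 ++ R)) g := by
    rw [← hch]
    exact hg
  obtain ⟨e3, hg3⟩ := SD.eval_two G h2 hD2 okM (fun _ => 0) g hg2
  rw [e1, e2, e3]
  have hv : Function.Injective l1.get := List.nodup_iff_injective_get.1 hnd1
  have e4 := SD.eval_one (D := D) (σ := σ) G hv (fun k => h1 _ (List.get_mem _ _))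
    (fun k => hD1 _ (List.get_mem _ _)) hR (D.aL σ (fun _ => 0) l2 g) (by
      rw [List.ofFn_get, ← chL_append]
      exact hg3)
  rw [List.ofFn_get] at e4
  rw [e4, ← integral_const_mul]
  refine integral_congr_ae (Eventually.of_forall fun θ => ?_)
  simp only []
  have hnd' : (l2 ++ (l1 ++ l0)).Nodup := hp.nodup_iff.1 hnd
  have hun' : ∀ i, i ∈ l2 ++ (l1 ++ l0) := fun i => hp.mem_iff.1 (hun i)
  obtain ⟨c1, c2⟩ := SD.two_const (pl := pl) (D := D) h2 (fun _ => 0) θ g
  rw [← SD.W_univ θ hnd' hun' g, ← SD.aL_univ θ hnd' hun' g, SD.W_append, SD.W_append,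
    SD.aL_append, SD.aL_append, (SD.W_zero (pl := pl) h0 θ _).1, (SD.W_zero (pl := pl) h0 θ _).2,
    mul_one, c1, c2]
  ring

end NUP1S

end
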