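import Pool.Agent.NUP1S.TwoSat
import Pool.Agent.NUP1S.Inst2

/-!
# Stage 3: the gas of quanta in the field of fixed objects, line on the left of the poles = sum over
the satellites of gases on a line on the right of the poles
-/

set_option autoImplicit false
set_option linter.unusedSectionVars false

noncomputable section

open Complex MeasureTheory NUP1 Set Filter Topology
open scoped Real

namespace NUP1S

open NUP1.Bd (cwz pwz qg chg sin_pos_of Ob)

/-! ## the double pole of a string -/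

theorem cwz_AS {w : ℂ} (h1 : l < w.re) (h2 : w.re < 3 * l) :
    cwz .A .S w = 1 / sin (w + 3 * l) ^ 2 / sin (w - 2 * l) ^ 2 := by
  have hl := Bd.l_pos
  have hpi := Bd.pi_eq
  have hpiC : (π : ℂ) = 8 * l := by
    rw [hpi]
    push_cast
    ring
  have n1 : sin (w - 3 * l) ≠ 0 := sin_ne_strip' (by simp; linarith) (by simp; linarith)
  have n2 : sin (w + 4 * l) ≠ 0 := sin_ne_strip (by simp; linarith) (by simp; linarith)
  have n3 : sin (w + 3 * l) ≠ 0 := sin_ne_strip (by simp; linarith) (by simp; linarith)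
  have e1 : cos w ^ 2 = sin (w + 4 * l) ^ 2 := by
    rw [show w + 4 * l = w + π / 2 by rw [hpiC]; ring, sin_add_pi_div_two]
  have e2 : cos (w + l) ^ 2 = sin (w - 3 * l) ^ 2 := by
    rw [show w - 3 * l = w + l - π / 2 by rw [hpiC]; ring, sin_sub_pi_div_two, neg_sq]
  show qg w * qg (w + l) = _
  unfold qg
  rw [e1, e2, show w + l + 3 * l = w + 4 * l by ring, show w + l - 3 * l = w - 2 * l by ring]
  clear e1 e2
  generalize sin (w - 3 * l) = A at *
  generalize sin (w + 4 * l) = B at *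
  generalize sin (w + 3 * l) = C at *
  generalize sin (w - 2 * l) = D
  by_cases n4 : D = 0
  · rw [n4]
    simp
  · field_simp

theorem sin5 : sin (5 * l : ℂ) ≠ 0 := by
  have hl := Bd.l_pos
  have hpi := Bd.pi_eq
  exact sin_ne_strip (by simp; linarith) (by simp; linarith)

/-! ## objects with poles -/

variable {ι : Type*} [Fintype ι] [DecidableEq ι]

/-- fixed objects `o` at `z`; `act i` = strings with a double pole between the lines `x` and `y`,
`ρ i` = radius of the circle of the satellites -/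
structure Host (o : ι → CO) (z : ι → ℂ) (ρ : ι → ℝ) (act : ι → Prop) (x y : ℝ) : Prop where
  xy : x < y
  wd : y - x < l
  str : ∀ i, act i → (o i).2 = .S
  r0 : ∀ i, act i → 0 < ρ i
  lo : ∀ i, act i → x < (z i).re + 2 * l - ρ i
  hi : ∀ i, act i → (z i).re + 2 * l + ρ i < y
  sep : ∀ i j, act i → act j → i ≠ j → (o i).1 = (o j).1 → ρ i + ρ j < |(z i).re - (z j).re|
  ok : ∀ i, ¬ act i → ∀ s, ∀ v ∈ Icc x y, Ok (s, .A) (o i) (v - (z i).re)

/-- data of the poles -/
def DD (o : ι → CO) (z : ι → ℂ) (ρ : ι → ℝ) : SD ι := ⟨fun i => !(o i).1, fun i => z i + 2 * l, ρ⟩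

/-- field of the objects at a quantum -/
def Hf0 (o : ι → CO) (z : ι → ℂ) (G : Bool → ℂ → ℂ) (s : Bool) (u : ℂ) : ℂ :=
  G s u * ∏ b, gz (s, .A) (o b) (u - z b)

/-- regular part of the pair weight of a quantum and an object -/
def gR (o : ι → CO) (act : ι → Prop) [DecidablePred act] (s : Bool) (b : ι) (w : ℂ) : ℂ :=
  if act b ∧ (o b).1 ≠ s then 1 / sin (w + 3 * l) ^ 2 else gz (s, .A) (o b) w

/-- regular part of the field -/
def gr (o : ι → CO) (z : ι → ℂ) (act : ι → Prop) [DecidablePred act] (G : Bool → ℂ → ℂ) (s : Bool)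
    (u : ℂ) : ℂ := G s u * ∏ b, gR o act s b (u - z b)

variable {o : ι → CO} {z : ι → ℂ} {ρ : ι → ℝ} {act : ι → Prop} [DecidablePred act] {x y κ : ℝ}
  {G : Bool → ℂ → ℂ}

theorem Host.geom (h : Host o z ρ act x y) : (DD o z ρ).Geom act x y where
  xy := h.xy
  wd := h.wd
  r0 := h.r0
  lo i hi := by
    have := h.lo i hi
    show x < (z i + 2 * l).re - ρ i
    simpa using this
  hi i hi := by
    have := h.hi i hi
    show (z i + 2 * l).re + ρ i < y
    simpa using this
  sep i j hi hj hne hs := by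
    have h1 : (o i).1 = (o j).1 := by
      have : (!(o i).1) = !(o j).1 := hs
      simpa using this
    have := h.sep i j hi hj hne h1
    show ρ i + ρ j < |(z i + 2 * l).re - (z j + 2 * l).re|
    simpa using this

theorem Host.rng (h : Host o z ρ act x y) {i : ι} (hi : act i) {u : ℂ} (h1 : x ≤ u.re)
    (h2 : u.re ≤ y) : l < (u - z i).re ∧ (u - z i).re < 3 * l := by
  have := h.lo i hi
  have := h.hi i hi
  have := h.r0 i hi
  have := h.wd
  rw [sub_re]
  constructor <;> linarith

theorem gz_split (h : Host o z ρ act x y) {s : Bool} {b : ι} (hb : act b) (hs : (o b).1 ≠ s)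
    {u : ℂ} (h1 : x ≤ u.re) (h2 : u.re ≤ y) :
    gz (s, .A) (o b) (u - z b) = gR o act s b (u - z b) / sin (u - (z b + 2 * l)) ^ 2 := by
  obtain ⟨h3, h4⟩ := h.rng hb h1 h2
  unfold gR
  rw [if_pos ⟨hb, hs⟩]
  have e := h.str b hb
  have hs' : ¬ s = (o b).1 := fun h => hs h.symm
  unfold gz
  simp only [if_neg hs', e]
  rw [cwz_AS h3 h4]
  congr 3
  ring

theorem Host.prod_pl (h : Host o z ρ act x y) (s : Bool) (F : ℂ → ℂ) :
    ∏ p ∈ (DD o z ρ).pl act s, F p =
      ∏ i, if act i ∧ (o i).1 ≠ s then F (z i + 2 * l) else 1 := by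
  unfold SD.pl
  rw [Finset.prod_image]
  · rw [Finset.prod_filter]
    refine Finset.prod_congr rfl fun i _ => ?_
    have e : (act i ∧ (DD o z ρ).sp i = s) ↔ (act i ∧ (o i).1 ≠ s) := by
      show (act i ∧ (!(o i).1) = s) ↔ _
      cases s <;> cases (o i).1 <;> simp
    simp only [e]
    rfl
  · intro i hi j hj hij
    have hi := (Finset.mem_filter.1 hi).2
    have hj := (Finset.mem_filter.1 hj).2
    exact h.geom.inj hi.1 hj.1 (hi.2.trans hj.2.symm) hij

/-- the field is the regular part divided by the double poles -/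
theorem Host.Wt_gr (h : Host o z ρ act x y) (s : Bool) {u : ℂ} (h1 : x ≤ u.re)
    (h2 : u.re ≤ y) : Wt ((DD o z ρ).pl act) (gr o z act G) s u = Hf0 o z G s u := by
  unfold Wt gr Hf0
  rw [h.prod_pl s fun p => sin (u - p) ^ 2, mul_div_assoc, ← Finset.prod_div_distrib]
  congr 1
  refine Finset.prod_congr rfl fun b _ => ?_
  by_cases hb : act b ∧ (o b).1 ≠ s
  · rw [if_pos hb, gz_split h hb.1 hb.2 h1 h2]
  · rw [if_neg hb, _root_.div_one]
    unfold gR
    rw [if_neg hb]

/-! ### the regular part is regular -/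

theorem measurable_gR (s : Bool) (b : ι) : Measurable (gR o act s b) := by
  unfold gR
  by_cases hb : act b ∧ (o b).1 ≠ s
  · simp only [if_pos hb]
    fun_prop
  · simp only [if_neg hb]
    exact measurable_gz _ _

theorem Host.okz (h : Host o z ρ act x y) {s : Bool} {b : ι} (hb : ¬ (act b ∧ (o b).1 ≠ s))
    {v : ℝ} (hv : v ∈ Icc x y) : Ok (s, .A) (o b) (v - (z b).re) := by
  by_cases h1 : act b
  · have h2 : s = (o b).1 := by
      by_contra hne
      exact hb ⟨h1, fun h => hne h.symm⟩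
    have h3 := h.str b h1
    intro t ht
    unfold poles at ht
    rw [if_pos h2, h3] at ht
    simp at ht
  · exact h.ok b h1 s v hv

theorem Host.diff_gR (h : Host o z ρ act x y) (s : Bool) (b : ι) {u : ℂ} (h1 : x ≤ u.re)
    (h2 : u.re ≤ y) : DifferentiableAt ℂ (gR o act s b) (u - z b) := by
  have hl := Bd.l_pos
  have hpi := Bd.pi_eq
  by_cases hb : act b ∧ (o b).1 ≠ s
  · obtain ⟨h3, h4⟩ := h.rng hb.1 h1 h2
    have n : sin (u - z b + 3 * l) ≠ 0 := by
      refine sin_ne_strip ?_ ?_ <;> rw [add_re] <;> simp only [mul_re, ofReal_re, ofReal_im] <;>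
        norm_num <;> rw [sub_re] at h3 h4 <;> linarith
    unfold gR
    simp only [if_pos hb]
    refine DifferentiableAt.div (by fun_prop) (by fun_prop) (pow_ne_zero 2 n)
  · unfold gR
    simp only [if_neg hb]
    refine differentiableAt_gz _ _ ?_
    rw [sub_re]
    exact h.okz hb ⟨h1, h2⟩

/-- rate of the regular part -/
def rR (o : ι → CO) (act : ι → Prop) [DecidablePred act] (s : Bool) (b : ι) : ℝ :=
  rt (s, .A) (o b) + if act b ∧ (o b).1 ≠ s then 2 else 0

theorem Host.bdd_gR (h : Host o z ρ act x y) (s : Bool) (b : ι) :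
    Bdd ((fun v => v + -(z b).re) '' Icc x y) (rR o act s b) (gR o act s b) := by
  have hl := Bd.l_pos
  have hK : IsCompact ((fun v => v + -(z b).re) '' Icc x y) :=
    isCompact_Icc.image (by fun_prop)
  by_cases hb : act b ∧ (o b).1 ≠ s
  · have h1 := (bdd_inv_sin hK (3 * l) fun d hd => by
      obtain ⟨v, hv, rfl⟩ := hd
      have := h.lo b hb.1
      have := h.hi b hb.1
      have := h.r0 b hb.1
      have := h.wd
      have h1 := hv.1
      have h2 := hv.2
      exact (sin_pos_of (by linarith) (by linarith)).ne').pow 2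
    have e : rR o act s b = ((2 : ℕ) : ℝ) * -1 := by
      unfold rR rt
      rw [if_pos hb]
      have h3 := h.str b hb.1
      have h4 := hb.2
      unfold sc
      rw [h3]
      cases s <;> cases h5 : (o b).1
      · exact absurd h5 h4
      · simp [chg]
        norm_num
      · simp [chg]
        norm_num
      · exact absurd h5 h4
    rw [e]
    obtain ⟨C, hC, h2⟩ := h1
    refine ⟨C, hC, fun w hw => (le_of_eq ?_).trans (h2 w hw)⟩
    unfold gR
    rw [if_pos hb]
    congr 1
    push_cast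
    rw [div_pow, one_pow]
  · have e : rR o act s b = rt (s, .A) (o b) := by
      unfold rR
      rw [if_neg hb, add_zero]
    have e2 : gR o act s b = gz (s, .A) (o b) := by
      funext w
      unfold gR
      rw [if_neg hb]
    rw [e, e2]
    refine bdd_gz hK _ _ ?_
    rintro _ ⟨v, hv, rfl⟩
    exact h.okz hb hv

/-- bounds of a translate -/
theorem Bdd.translate {K : Set ℝ} {r : ℝ} {f : ℂ → ℂ} {z0 : ℂ}
    (h : Bdd ((fun v => v + -z0.re) '' K) r f) : Bdd K r fun u => f (u - z0) := by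
  obtain ⟨C, hC, h⟩ := h
  refine ⟨C * Real.exp (|r| * |z0.im|), by positivity, fun u hu => ?_⟩
  refine (h (u - z0) ⟨u.re, hu, by rw [sub_re]; rfl⟩).trans ?_
  rw [mul_assoc, ← Real.exp_add]
  refine mul_le_mul_of_nonneg_left (Real.exp_le_exp.2 ?_) hC
  rw [sub_im]
  have h1 := abs_sub_abs_le_abs_sub u.im z0.im
  have h2 := abs_sub u.im z0.im
  rcases le_total 0 r with hr | hr
  · rw [abs_of_nonneg hr]
    nlinarith
  · rw [abs_of_nonpos hr]
    nlinarith

theorem bdd_prod {K : Set ℝ} {r : ι → ℝ} {f : ι → ℂ → ℂ} (h : ∀ b, Bdd K (r b) (f b)) :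
    Bdd K (∑ b, r b) fun u => ∏ b, f b u := by
  choose C hC h using h
  refine ⟨∏ b, C b, Finset.prod_nonneg fun b _ => hC b, fun u hu => ?_⟩
  rw [norm_prod, Finset.sum_mul, Real.exp_sum, ← Finset.prod_mul_distrib]
  exact Finset.prod_le_prod (fun b _ => norm_nonneg _) fun b _ => h b u hu

theorem Host.card_pl (h : Host o z ρ act x y) (s : Bool) :
    (((DD o z ρ).pl act s).card : ℝ) = ∑ b, if act b ∧ (o b).1 ≠ s then 1 else 0 := by
  unfold SD.pl
  rw [Finset.card_image_of_injOn, Finset.card_filter]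
  · push_cast
    refine Finset.sum_congr rfl fun i _ => ?_
    have e : (act i ∧ (DD o z ρ).sp i = s) ↔ (act i ∧ (o i).1 ≠ s) := by
      show (act i ∧ (!(o i).1) = s) ↔ _
      cases s <;> cases (o i).1 <;> simp
    simp only [e]
  · intro i hi j hj hij
    have hi := (Finset.mem_filter.1 hi).2
    have hj := (Finset.mem_filter.1 hj).2
    exact h.geom.inj hi.1 hj.1 (hi.2.trans hj.2.symm) hij

theorem sc_sA (s : Bool) : sc (s, .A) = (sg s : ℝ) := by
  cases s <;> simp [sc, sg, chg]

theorem Host.reg (h : Host o z ρ act x y) (hm : ∀ s, Measurable (G s))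
    (hd : ∀ s, ∀ u : ℂ, x ≤ u.re → u.re ≤ y → DifferentiableAt ℂ (G s) u)
    (hb : ∀ s, DecOn κ (Icc x y) (G s)) {Q : ℤ} (hQ : (Q : ℝ) + ∑ b, sc (o b) = 0) :
    Reg ((DD o z ρ).pl act) κ x y Q (gr o z act G) where
  meas s := by
    unfold gr
    refine (hm s).mul (Finset.measurable_prod _ fun b _ => ?_)
    exact (measurable_gR s b).comp (measurable_id.sub_const _)
  diff s u h1 h2 := by
    unfold gr
    refine (hd s u h1 h2).mul ?_
    refine DifferentiableAt.fun_finsetProd fun b _ => ?_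
    exact (h.diff_gR s b h1 h2).comp u (differentiableAt_id.sub_const _)
  bd := by
    have h1 : ∀ s, Bdd (Icc x y) (∑ b, rR o act s b) fun u => ∏ b, gR o act s b (u - z b) :=
      fun s => bdd_prod fun b => (h.bdd_gR s b).translate
    have h2 : ∀ s, ∑ b, rR o act s b =
        -(2 * (sg s * Q : ℤ) - 2 * ((DD o z ρ).pl act s).card) := by
      intro s
      unfold rR rt
      rw [Finset.sum_add_distrib, ← Finset.mul_sum, ← Finset.mul_sum, sc_sA, h.card_pl s]
      have e : (∑ b, if act b ∧ (o b).1 ≠ s then (2 : ℝ) else 0) =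
          2 * ∑ b, if act b ∧ (o b).1 ≠ s then (1 : ℝ) else 0 := by
        rw [Finset.mul_sum]
        refine Finset.sum_congr rfl fun b _ => ?_
        split_ifs <;> norm_num
      rw [e, show ∑ b, sc (o b) = -(Q : ℝ) by linarith]
      push_cast
      ring
    have hb' : ∀ s, ∃ C : ℝ, ∀ u : ℂ, u.re ∈ Icc x y → ‖G s u‖ ≤ C * Real.exp (-(κ * |u.im|)) := hb
    choose C hG using hb'
    choose C' hC' hG' using h1
    refine ⟨|C true| * C' true + |C false| * C' false, ?_, fun s u a1 a2 => ?_⟩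
    · have := hC' true
      have := hC' false
      positivity
    · have b1 := hG s u ⟨a1, a2⟩
      have b2 := hG' s u ⟨a1, a2⟩
      rw [h2 s] at b2
      unfold gr
      rw [norm_mul]
      have b3 : ‖G s u‖ ≤ |C s| * Real.exp (-(κ * |u.im|)) :=
        b1.trans (mul_le_mul_of_nonneg_right (le_abs_self _) (Real.exp_pos _).le)
      refine (mul_le_mul b3 b2 (norm_nonneg _) (by positivity)).trans ?_
      have e : |C s| * Real.exp (-(κ * |u.im|)) * (C' s * Real.exp (-(2 * ((sg s * Q : ℤ) : ℝ) -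
          2 * ((DD o z ρ).pl act s).card) * |u.im|)) = |C s| * C' s *
          Real.exp (-((κ + 2 * ((sg s * Q : ℤ) : ℝ) - 2 * ((DD o z ρ).pl act s).card) *
            |u.im|)) := by
        rw [mul_mul_mul_comm, ← Real.exp_add]
        congr 2
        ring
      rw [e]
      refine mul_le_mul_of_nonneg_right ?_ (Real.exp_pos _).le
      have := hC' true
      have := hC' false
      cases s
      · have := mul_nonneg (abs_nonneg (C true)) (hC' true)
        linarith
      · have := mul_nonneg (abs_nonneg (C false)) (hC' false)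
        linarith

/-! ## the exact formula -/

theorem PU_congr' {ι : Type*} [Fintype ι] {f g : ι → ι → ℂ} (h : ∀ a b, f a b = g a b) :
    PU f = PU g := by
  congr 1
  funext a b
  exact h a b

/-- the gas on the line `x` -/
theorem gas_eq_ZZ {pl : Bool → Finset ℂ} (Ge : Geo pl κ x y) (c : ℝ)
    (ok : ∀ s, OkC pl κ x y (lineC s c)) (a a' : ℕ) {g : Bool → ℂ → ℂ}
    (hg : Reg pl κ x y (a * sg true + a' * sg false) g) {H H' : ℂ → ℂ}
    (hH : ∀ u : ℂ, u.re = c → H u = Wt pl g true u)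
    (hH' : ∀ u : ℂ, u.re = c → H' u = Wt pl g false u) :
    gas a a' c H H' = ZZ pl c a a' g := by
  set L := List.replicate a (lineC true c) ++ List.replicate a' (lineC false c) with hL
  have okL : ∀ z ∈ L, OkC pl κ x y z := ok_app (ok_rep (ok true) _) (ok_rep (ok false) _)
  have hlen : a + a' = L.length := by
    rw [hL, List.length_append, List.length_replicate, List.length_replicate]
  have hch : chL L = a * sg true + a' * sg false := by
    rw [hL, chL_append, chL_replicate, chL_replicate]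
    rfl
  set C : Fin a ⊕ Fin a' → Ct := Sum.elim (fun _ => lineC true c) (fun _ => lineC false c) with hC
  obtain ⟨e, he⟩ : ∃ e : Fin a ⊕ Fin a' ≃ Fin L.length, ∀ i, C i = L.get (e i) := by
    refine ⟨finSumFinEquiv.trans (finCongr hlen), ?_⟩
    rintro (i | i)
    · simp [hL, hC]
    · simp [hL, hC]
  unfold gas ZZ
  rw [NI_eq_int Ge L okL g (by rw [hch]; exact hg) C e he, mul_assoc]
  congr 1
  unfold Ig
  rw [← integral_const_mul]
  refine integral_congr_ae (Eventually.of_forall fun t => ?_)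
  simp only []
  unfold Fg Fc
  rw [← mul_assoc]
  congr 1
  · rw [Fintype.prod_sum_type, Fintype.prod_sum_type]
    have e1 : ∏ i, Sum.elim (fun _ : Fin a => H) (fun _ : Fin a' => H') (Sum.inl i)
        (pos (fun _ => c) t (Sum.inl i)) = ∏ i : Fin a, Wt pl g true (vl c (t (Sum.inl i))) :=
      Finset.prod_congr rfl fun i _ => hH _ (re_vl _ _)
    have e2 : ∏ i, Sum.elim (fun _ : Fin a => H) (fun _ : Fin a' => H') (Sum.inr i)
        (pos (fun _ => c) t (Sum.inr i)) = ∏ i : Fin a', Wt pl g false (vl c (t (Sum.inr i))) :=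
      Finset.prod_congr rfl fun i _ => hH' _ (re_vl _ _)
    have e3 : ∏ i, hh pl g (C (Sum.inl i)) (t (Sum.inl i)) =
        (2 * π : ℂ)⁻¹ ^ a * ∏ i : Fin a, Wt pl g true (vl c (t (Sum.inl i))) := by
      have : ∀ i : Fin a, hh pl g (C (Sum.inl i)) (t (Sum.inl i)) =
          (2 * π : ℂ)⁻¹ * Wt pl g true (vl c (t (Sum.inl i))) := fun _ => rfl
      rw [Finset.prod_congr rfl fun i _ => this i, Finset.prod_mul_distrib, Finset.prod_const,
        Finset.card_univ, Fintype.card_fin]
    have e4 : ∏ i, hh pl g (C (Sum.inr i)) (t (Sum.inr i)) =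
        (2 * π : ℂ)⁻¹ ^ a' * ∏ i : Fin a', Wt pl g false (vl c (t (Sum.inr i))) := by
      have : ∀ i : Fin a', hh pl g (C (Sum.inr i)) (t (Sum.inr i)) =
          (2 * π : ℂ)⁻¹ * Wt pl g false (vl c (t (Sum.inr i))) := fun _ => rfl
      rw [Finset.prod_congr rfl fun i _ => this i, Finset.prod_mul_distrib, Finset.prod_const,
        Finset.card_univ, Fintype.card_fin]
    rw [e1, e2, e3, e4]
    ring
  · refine PU_congr' fun i j => ?_
    rcases i with i | i <;> rcases j with j | j <;> rfl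

/-- position of the satellites of the string `i` -/
def cf (z : ι → ℂ) (ρ : ι → ℝ) (τ : ι → Fin 3) (θ : ι → ℝ) (i : ι) : ℂ :=
  if τ i = 1 then cM (z i + 2 * l) (ρ i) (θ i) else z i + 2 * l

/-- one body factor of the satellites of the string `i` -/
def omf (o : ι → CO) (z : ι → ℂ) (ρ : ι → ℝ) (G : Bool → ℂ → ℂ) (τ : ι → Fin 3) (θ : ι → ℝ)
    (i : ι) : ℂ :=
  if τ i = 0 then 1
  else if τ i = 1 then -cM 0 (ρ i) (θ i) * Hf0 o z G (!(o i).1) (cM (z i + 2 * l) (ρ i) (θ i))
  else (sin (2 * l) / sin l) ^ 2 * (G (!(o i).1) (z i + 2 * l) * (1 / sin (5 * l) ^ 2) *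
    ∏ b ∈ Finset.univ.erase i, gz (!(o i).1, .A) (o b) (z i + 2 * l - z b)) ^ 2

/-- weight of all satellites -/
def SWf (o : ι → CO) (z : ι → ℂ) (ρ : ι → ℝ) (G : Bool → ℂ → ℂ) (τ : ι → Fin 3) (θ : ι → ℝ) : ℂ :=
  (∏ i, omf o z ρ G τ θ i) * PU fun i j =>
    PP (!(o i).1) (!(o j).1) (cf z ρ τ θ i - cf z ρ τ θ j) ^ ((τ i : ℕ) * (τ j : ℕ))

/-- field of the objects and satellites at a quantum -/
def Hfs (o : ι → CO) (z : ι → ℂ) (ρ : ι → ℝ) (G : Bool → ℂ → ℂ) (τ : ι → Fin 3) (θ : ι → ℝ)
    (s : Bool) (u : ℂ) : ℂ :=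
  Hf0 o z G s u * ∏ i, PP s (!(o i).1) (u - cf z ρ τ θ i) ^ (τ i : ℕ)

/-- number of satellites of species `s` -/
def nsat (o : ι → CO) (s : Bool) (τ : ι → Fin 3) : ℕ :=
  ∑ i ∈ Finset.univ.filter (fun i => (!(o i).1) = s), (τ i : ℕ)

theorem Host.circ_re (h : Host o z ρ act x y) {i : ι} (hi : act i) (t : ℝ) :
    x ≤ (cM (z i + 2 * l) (ρ i) t).re ∧ (cM (z i + 2 * l) (ρ i) t).re ≤ y := by
  have h1 := circle_re (z i + 2 * l) (h.r0 i hi).le t
  have h2 := h.lo i hi
  have h3 := h.hi i hi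
  have e : (z i + 2 * l).re = (z i).re + 2 * l := by simp
  rw [e] at h1
  constructor <;> linarith [h1.1, h1.2]

theorem Host.rg_gr (h : Host o z ρ act x y) {i : ι} (hi : act i) :
    rg ((DD o z ρ).pl act) (gr o z act G) (!(o i).1) (z i + 2 * l) =
      G (!(o i).1) (z i + 2 * l) * (1 / sin (5 * l) ^ 2) *
        ∏ b ∈ Finset.univ.erase i, gz (!(o i).1, .A) (o b) (z i + 2 * l - z b) := by
  classical
  have hl := Bd.l_pos
  set s : Bool := !(o i).1 with hs
  have hne : (o i).1 ≠ s := by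
    rw [hs]
    cases (o i).1 <;> simp
  have hx : x ≤ (z i + 2 * l).re ∧ (z i + 2 * l).re ≤ y := by
    have := h.lo i hi
    have := h.hi i hi
    have := h.r0 i hi
    have e : (z i + 2 * l).re = (z i).re + 2 * l := by simp
    rw [e]
    constructor <;> linarith
  have e1 : ∏ p' ∈ ((DD o z ρ).pl act s).erase (z i + 2 * l), sin (z i + 2 * l - p') ^ 2 =
      ∏ b ∈ Finset.univ.erase i,
        if act b ∧ (o b).1 ≠ s then sin (z i + 2 * l - (z b + 2 * l)) ^ 2 else 1 := by
    have h1 : ((DD o z ρ).pl act s).erase (z i + 2 * l) =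
        ((Finset.univ.filter fun b => act b ∧ (o b).1 ≠ s).erase i).image fun b => z b + 2 * l := by
      ext p
      rw [Finset.mem_erase, SD.mem_pl]
      simp only [Finset.mem_image, Finset.mem_erase, Finset.mem_filter, Finset.mem_univ, true_and]
      constructor
      · rintro ⟨h2, b, h3, h4, h5⟩
        have h4 : (!(o b).1) = s := h4
        have h5 : z b + 2 * l = p := h5
        refine ⟨b, ⟨?_, h3, ?_⟩, h5⟩
        · rintro rfl
          exact h2 h5.symm
        · rw [← h4]
          cases (o b).1 <;> simp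
      · rintro ⟨b, ⟨h2, h3, h4⟩, h5⟩
        have h6 : (!(o b).1) = s := by
          revert h4
          cases (o b).1 <;> cases s <;> simp
        refine ⟨?_, b, h3, h6, h5⟩
        rintro rfl
        exact h2 (h.geom.inj h3 hi (show (!(o b).1) = (!(o i).1) by rw [h6]) h5)
    have h7 : (Finset.univ.filter fun b => act b ∧ (o b).1 ≠ s).erase i =
        (Finset.univ.erase i).filter fun b => act b ∧ (o b).1 ≠ s := by
      ext b
      simp only [Finset.mem_erase, Finset.mem_filter, Finset.mem_univ, true_and, and_true]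
    rw [h1, Finset.prod_image, h7, Finset.prod_filter]
    · intro b hb c hc hbc
      have hb := Finset.mem_filter.1 (Finset.mem_erase.1 hb).2
      have hc := Finset.mem_filter.1 (Finset.mem_erase.1 hc).2
      refine h.geom.inj hb.2.1 hc.2.1 ?_ hbc
      show (!(o b).1) = !(o c).1
      have h2 := hb.2.2
      have h3 := hc.2.2
      revert h2 h3
      cases (o b).1 <;> cases (o c).1 <;> cases s <;> simp
  unfold rg gr
  rw [e1, ← Finset.mul_prod_erase Finset.univ (fun b => gR o act s b (z i + 2 * l - z b))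
    (Finset.mem_univ i)]
  have e2 : gR o act s i (z i + 2 * l - z i) = 1 / sin (5 * l) ^ 2 := by
    unfold gR
    rw [if_pos ⟨hi, hne⟩]
    congr 3
    ring
  rw [e2, ← mul_assoc, mul_div_assoc, ← Finset.prod_div_distrib]
  congr 1
  refine Finset.prod_congr rfl fun b _ => ?_
  by_cases hb : act b ∧ (o b).1 ≠ s
  · rw [if_pos hb, gz_split h hb.1 hb.2 hx.1 hx.2]
  · rw [if_neg hb, _root_.div_one]
    unfold gR
    rw [if_neg hb]

theorem Host.om_eq (h : Host o z ρ act x y) {τ : ι → Fin 3} (hτ : ∀ i, τ i ≠ 0 → act i)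
    (θ : ι → ℝ) (i : ι) :
    (DD o z ρ).om τ ((DD o z ρ).pl act) (gr o z act G) θ i = omf o z ρ G τ θ i := by
  unfold SD.om omf
  by_cases h0 : τ i = 0
  · rw [if_pos h0, if_pos h0]
  · have hi := hτ i h0
    rw [if_neg h0, if_neg h0]
    by_cases h1 : τ i = 1
    · rw [if_pos h1, if_pos h1]
      show -cM 0 (ρ i) (θ i) * Wt ((DD o z ρ).pl act) (gr o z act G) (!(o i).1)
        (cM (z i + 2 * l) (ρ i) (θ i)) = _
      rw [h.Wt_gr _ (h.circ_re hi _).1 (h.circ_re hi _).2]
    · rw [if_neg h1, if_neg h1]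
      show kp * rg ((DD o z ρ).pl act) (gr o z act G) (!(o i).1) (z i + 2 * l) ^ 2 = _
      rw [h.rg_gr hi]
      rfl

theorem Host.SW_eq (h : Host o z ρ act x y) {τ : ι → Fin 3} (hτ : ∀ i, τ i ≠ 0 → act i)
    (θ : ι → ℝ) :
    (DD o z ρ).SW τ ((DD o z ρ).pl act) (gr o z act G) θ = SWf o z ρ G τ θ := by
  unfold SD.SW SWf
  rw [Finset.prod_congr rfl fun i _ => h.om_eq hτ θ i]
  rfl

theorem Host.Wt_aS (h : Host o z ρ act x y) (τ : ι → Fin 3) (θ : ι → ℝ) (s : Bool) {u : ℂ}
    (h1 : x ≤ u.re) (h2 : u.re ≤ y) :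
    Wt ((DD o z ρ).pl act) ((DD o z ρ).aS τ (gr o z act G) θ) s u = Hfs o z ρ G τ θ s u := by
  unfold Hfs
  rw [← h.Wt_gr s h1 h2]
  unfold Wt SD.aS
  rw [div_mul_eq_mul_div]
  rfl

theorem Reg.aL {κ a b : ℝ} {pl : Bool → Finset ℂ} (Ge : Geo pl κ a b) {D : SD ι}
    {τ : ι → Fin 3} {θ : ι → ℝ} (hc : ∀ i, τ i ≠ 0 → a ≤ (D.c τ θ i).re ∧ (D.c τ θ i).re ≤ b)
    (L : List ι) : ∀ {Q : ℤ} {g : Bool → ℂ → ℂ}, Reg pl κ a b Q g →
    Reg pl κ a b (Q - (L.map fun i => ((τ i : ℕ) : ℤ) * sg (D.sp i)).sum) (D.aL τ θ L g) := by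
  induction L with
  | nil =>
    intro Q g h
    simpa [SD.aL] using h
  | cons i L ih =>
    intro Q g h
    have h1 : Reg pl κ a b (Q - ((τ i : ℕ) : ℤ) * sg (D.sp i)) (D.ak τ θ g i) := by
      rcases fin3_cases (τ i) with h0 | h0 | h0
      · have e : D.ak τ θ g i = g := by
          funext s u
          simp [SD.ak, h0]
        rw [e, h0]
        simpa using h
      · have e : D.ak τ θ g i = NUP1S.ad g (D.sp i) (D.c τ θ i) := by
          funext s u
          simp [SD.ak, NUP1S.ad, h0]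
        obtain ⟨c1, c2⟩ := hc i (by rw [h0]; decide)
        rw [e, h0]
        simpa using h.ad Ge (D.sp i) c1 c2
      · have e : D.ak τ θ g i =
            NUP1S.ad (NUP1S.ad g (D.sp i) (D.c τ θ i)) (D.sp i) (D.c τ θ i) := by
          funext s u
          unfold SD.ak NUP1S.ad
          rw [h0, Fin.val_two]
          ring
        obtain ⟨c1, c2⟩ := hc i (by rw [h0]; decide)
        rw [e, h0]
        have := (h.ad Ge (D.sp i) c1 c2).ad Ge (D.sp i) c1 c2
        convert this using 1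
        rw [Fin.val_two]
        push_cast
        ring
    have h2 := ih h1
    rw [List.map_cons, List.sum_cons]
    unfold SD.aL
    convert h2 using 1
    ring

theorem Reg.aS {κ a b : ℝ} {pl : Bool → Finset ℂ} (Ge : Geo pl κ a b) {D : SD ι}
    {τ : ι → Fin 3} {θ : ι → ℝ} (hc : ∀ i, τ i ≠ 0 → a ≤ (D.c τ θ i).re ∧ (D.c τ θ i).re ≤ b)
    {Q : ℤ} {g : Bool → ℂ → ℂ} (h : Reg pl κ a b Q g) :
    Reg pl κ a b (Q - ∑ i, ((τ i : ℕ) : ℤ) * sg (D.sp i)) (D.aS τ g θ) := by
  have h1 := Reg.aL Ge hc Finset.univ.toList h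
  rw [Finset.sum_map_toList, SD.aL_univ θ (Finset.nodup_toList _) (fun i => by simp)] at h1
  exact h1

theorem nn_sum (D : SD ι) (τ : ι → Fin 3) : ∑ i, ((τ i : ℕ) : ℤ) * sg (D.sp i) =
    D.nn true τ * sg true + D.nn false τ * sg false := by
  unfold SD.nn
  rw [← Finset.sum_filter_add_sum_filter_not Finset.univ (fun i => D.sp i = true)]
  push_cast
  rw [Finset.sum_mul, Finset.sum_mul]
  congr 1
  · refine Finset.sum_congr rfl fun i hi => ?_
    rw [(Finset.mem_filter.1 hi).2]
  · have e : (Finset.univ.filter fun i => ¬ D.sp i = true) =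
        Finset.univ.filter fun i => D.sp i = false := by
      ext i
      simp
    rw [e]
    refine Finset.sum_congr rfl fun i hi => ?_
    rw [(Finset.mem_filter.1 hi).2]

/-- **Stage 3, exact formula.** -/
theorem Host.exact (h : Host o z ρ act x y) (hκ : 0 < κ) (hm : ∀ s, Measurable (G s))
    (hd : ∀ s, ∀ u : ℂ, x ≤ u.re → u.re ≤ y → DifferentiableAt ℂ (G s) u)
    (hb : ∀ s, DecOn κ (Icc x y) (G s)) (a a' : ℕ)
    (hQ : (a : ℝ) - a' + ∑ b, sc (o b) = 0) :
    gas a a' x (Hf0 o z G true) (Hf0 o z G false) = ∑ τ : ι → Fin 3,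
      if (∀ i, τ i ≠ 0 → act i) ∧ nsat o true τ ≤ a ∧ nsat o false τ ≤ a' then
        ∫ θ : ι → ℝ, SWf o z ρ G τ θ *
          gas (a - nsat o true τ) (a' - nsat o false τ) y (Hfs o z ρ G τ θ true)
            (Hfs o z ρ G τ θ false) ∂(Measure.pi fun _ => volume.restrict (Ioc (0 : ℝ) 1))
      else 0 := by
  have Ge := h.geom.geo hκ
  have hg : Reg ((DD o z ρ).pl act) κ x y (a * sg true + a' * sg false) (gr o z act G) := by
    refine h.reg hm hd hb ?_
    rw [← hQ]
    simp [sg]
    ring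
  rw [gas_eq_ZZ Ge x (fun s => (h.geom.line hκ s).1) a a' hg
    (fun u hu => (h.Wt_gr true hu.ge (hu.le.trans h.xy.le)).symm)
    (fun u hu => (h.Wt_gr false hu.ge (hu.le.trans h.xy.le)).symm), h.geom.expand hκ a a' hg]
  refine Finset.sum_congr rfl fun τ _ => ?_
  have e1 : ∀ s, (DD o z ρ).nn s τ = nsat o s τ := fun _ => rfl
  rw [e1, e1]
  split_ifs with hc
  · obtain ⟨hτ, h1, h2⟩ := hc
    refine integral_congr_ae (Eventually.of_forall fun θ => ?_)
    simp only []
    rw [h.SW_eq hτ θ]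
    congr 1
    symm
    refine gas_eq_ZZ Ge y (fun s => (h.geom.line hκ s).2) _ _ ?_
      (fun u hu => (h.Wt_aS τ θ true (h.xy.le.trans hu.ge) hu.le).symm)
      (fun u hu => (h.Wt_aS τ θ false (h.xy.le.trans hu.ge) hu.le).symm)
    have h3 := Reg.aS (D := DD o z ρ) (τ := τ) (θ := θ) Ge (fun i hi => ?_) hg
    · convert h3 using 1
      rw [nn_sum, e1, e1]
      push_cast [h1, h2]
      ring
    · have hi' := hτ i hi
      unfold SD.c
      split_ifs
      · exact h.circ_re hi' _
      · have := h.geom.re_lt hi'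
        exact ⟨this.1.le, this.2.le⟩
  · rfl

end NUP1S

end
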