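import Pool.Agent.NUP1S.ConfO

/-!
# Stage 3 with spectators: one body functions of charge `q0`

As `Host.exact`, but the one body functions may carry a charge `q0`: `G s` is of order
`exp (-(κ + 2 sg s q0) |im u|)` and the total charge of the gas and of the objects is `q0`
(spectators included in `G`).  `Host.norm_q` = the same in terms of moduli, for any finite index type.
-/

set_option autoImplicit false
set_option linter.unusedSectionVars false

noncomputable section

open Complex MeasureTheory NUP1 Set Filter Topology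
open scoped Real ENNReal

namespace NUP1S

open NUP1.Bd (cwz pwz qg chg sin_pos_of Ob)
open Ab (Part ppC potG WW ppC_single ppC_cons PU_two PU_mul PU_congr)

variable {ι : Type*} [Fintype ι] [DecidableEq ι]
  {o : ι → CO} {z : ι → ℂ} {ρ : ι → ℝ} {act : ι → Prop} [DecidablePred act] {x y κ : ℝ}
  {G : Bool → ℂ → ℂ}

theorem Host.reg_q (h : Host o z ρ act x y) (q0 : ℤ) (hm : ∀ s, Measurable (G s))
    (hd : ∀ s, ∀ u : ℂ, x ≤ u.re → u.re ≤ y → DifferentiableAt ℂ (G s) u)
    (hb : ∀ s, DecOn (κ + 2 * (sg s * q0 : ℤ)) (Icc x y) (G s)) {Q : ℤ}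
    (hQ : (Q : ℝ) + ∑ b, sc (o b) = q0) :
    Reg ((DD o z ρ).pl act) κ x y Q (gr o z act G) where
  meas s := by
    unfold gr
    refine (hm s).mul (Finset.measurable_prod _ fun b _ => ?_)
    exact (measurable_gR s b).comp (measurable_id.sub_const _)
  diff s u h1 h2 := by
    unfold gr
    refine (hd s u h1 h2).mul ?_
    refine DifferentiableAt.fun_finsetProd fun b _ => ?_
    exact (h.diff_gR s b h1 h2).comp u (differentiableAt_id.sub_const _)
  bd := by
    have h1 : ∀ s, Bdd (Icc x y) (∑ b, rR o act s b) fun u => ∏ b, gR o act s b (u - z b) :=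
      fun s => bdd_prod fun b => (h.bdd_gR s b).translate
    have h2 : ∀ s, ∑ b, rR o act s b =
        -(2 * (sg s * Q : ℤ) - 2 * (sg s * q0 : ℤ) - 2 * ((DD o z ρ).pl act s).card) := by
      intro s
      unfold rR rt
      rw [Finset.sum_add_distrib, ← Finset.mul_sum, ← Finset.mul_sum, sc_sA, h.card_pl s]
      have e : (∑ b, if act b ∧ (o b).1 ≠ s then (2 : ℝ) else 0) =
          2 * ∑ b, if act b ∧ (o b).1 ≠ s then (1 : ℝ) else 0 := by
        rw [Finset.mul_sum]
        refine Finset.sum_congr rfl fun b _ => ?_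
        split_ifs <;> norm_num
      rw [e, show ∑ b, sc (o b) = q0 - (Q : ℝ) by linarith]
      push_cast
      ring
    have hb' : ∀ s, ∃ C : ℝ, ∀ u : ℂ, u.re ∈ Icc x y →
        ‖G s u‖ ≤ C * Real.exp (-((κ + 2 * (sg s * q0 : ℤ)) * |u.im|)) := hb
    choose C hG using hb'
    choose C' hC' hG' using h1
    refine ⟨|C true| * C' true + |C false| * C' false, ?_, fun s u a1 a2 => ?_⟩
    · have := hC' true
      have := hC' false
      positivity
    · have b1 := hG s u ⟨a1, a2⟩
      have b2 := hG' s u ⟨a1, a2⟩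
      rw [h2 s] at b2
      unfold gr
      rw [norm_mul]
      have b3 : ‖G s u‖ ≤ |C s| * Real.exp (-((κ + 2 * (sg s * q0 : ℤ)) * |u.im|)) :=
        b1.trans (mul_le_mul_of_nonneg_right (le_abs_self _) (Real.exp_pos _).le)
      refine (mul_le_mul b3 b2 (norm_nonneg _) (by positivity)).trans ?_
      rw [mul_mul_mul_comm, ← Real.exp_add]
      have e : -((κ + 2 * ((sg s * q0 : ℤ) : ℝ)) * |u.im|) + -(2 * ((sg s * Q : ℤ) : ℝ) -
          2 * ((sg s * q0 : ℤ) : ℝ) - 2 * ((DD o z ρ).pl act s).card) * |u.im| =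
          -((κ + 2 * ((sg s * Q : ℤ) : ℝ) - 2 * ((DD o z ρ).pl act s).card) * |u.im|) := by
        ring
      rw [e]
      refine mul_le_mul_of_nonneg_right ?_ (Real.exp_pos _).le
      have := hC' true
      have := hC' false
      cases s
      · have := mul_nonneg (abs_nonneg (C true)) (hC' true)
        linarith
      · have := mul_nonneg (abs_nonneg (C false)) (hC' false)
        linarith

/-- **Stage 3 with spectators, exact formula.** -/
theorem Host.exact_q (h : Host o z ρ act x y) (hκ : 0 < κ) (q0 : ℤ) (hm : ∀ s, Measurable (G s))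
    (hd : ∀ s, ∀ u : ℂ, x ≤ u.re → u.re ≤ y → DifferentiableAt ℂ (G s) u)
    (hb : ∀ s, DecOn (κ + 2 * (sg s * q0 : ℤ)) (Icc x y) (G s)) (a a' : ℕ)
    (hQ : (a : ℝ) - a' + ∑ b, sc (o b) = q0) :
    gas a a' x (Hf0 o z G true) (Hf0 o z G false) = ∑ τ : ι → Fin 3,
      if (∀ i, τ i ≠ 0 → act i) ∧ nsat o true τ ≤ a ∧ nsat o false τ ≤ a' then
        ∫ θ : ι → ℝ, SWf o z ρ G τ θ *
          gas (a - nsat o true τ) (a' - nsat o false τ) y (Hfs o z ρ G τ θ true)
            (Hfs o z ρ G τ θ false) ∂(Measure.pi fun _ => volume.restrict (Ioc (0 : ℝ) 1))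
      else 0 := by
  have Ge := h.geom.geo hκ
  have hg : Reg ((DD o z ρ).pl act) κ x y (a * sg true + a' * sg false) (gr o z act G) := by
    refine h.reg_q q0 hm hd hb ?_
    rw [← hQ]
    simp [sg]
    ring
  rw [gas_eq_ZZ Ge x (fun s => (h.geom.line hκ s).1) a a' hg
    (fun u hu => (h.Wt_gr true hu.ge (hu.le.trans h.xy.le)).symm)
    (fun u hu => (h.Wt_gr false hu.ge (hu.le.trans h.xy.le)).symm), h.geom.expand hκ a a' hg]
  refine Finset.sum_congr rfl fun τ _ => ?_
  have e1 : ∀ s, (DD o z ρ).nn s τ = nsat o s τ := fun _ => rfl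
  rw [e1, e1]
  split_ifs with hc
  · obtain ⟨hτ, h1, h2⟩ := hc
    refine integral_congr_ae (Eventually.of_forall fun θ => ?_)
    simp only []
    rw [h.SW_eq hτ θ]
    congr 1
    symm
    refine gas_eq_ZZ Ge y (fun s => (h.geom.line hκ s).2) _ _ ?_
      (fun u hu => (h.Wt_aS τ θ true (h.xy.le.trans hu.ge) hu.le).symm)
      (fun u hu => (h.Wt_aS τ θ false (h.xy.le.trans hu.ge) hu.le).symm)
    have h3 := Reg.aS (D := DD o z ρ) (τ := τ) (θ := θ) Ge (fun i hi => ?_) hg
    · convert h3 using 1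
      rw [nn_sum, e1, e1]
      push_cast [h1, h2]
      ring
    · have hi' := hτ i hi
      unfold SD.c
      split_ifs
      · exact h.circ_re hi' _
      · have := h.geom.re_lt hi'
        exact ⟨this.1.le, this.2.le⟩
  · rfl

/-- **Stage 3 with spectators, moduli.** -/
theorem Host.norm_q (h : Host o z ρ act x y) (hκ : 0 < κ) (q0 : ℤ) (hm : ∀ s, Measurable (G s))
    (hd : ∀ s, ∀ u : ℂ, x ≤ u.re → u.re ≤ y → DifferentiableAt ℂ (G s) u)
    (hb : ∀ s, DecOn (κ + 2 * (sg s * q0 : ℤ)) (Icc x y) (G s)) (a a' : ℕ)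
    (hQ : (a : ℝ) - a' + ∑ b, sc (o b) = q0) (hf : ι → ℂ → ℂ) :
    ‖Fg o hf z * gas a a' x (Hf0 o z G true) (Hf0 o z G false)‖ₑ ≤ ∑ τ : ι → Fin 3,
      if (∀ i, τ i ≠ 0 → act i) ∧ nsat o true τ ≤ a ∧ nsat o false τ ≤ a' then
        ∫⁻ θ : ι → ℝ, ENNReal.ofReal (WW (fun i => ‖hf i (z i) * om0 o z ρ G τ θ i‖)
            (cc o z ρ τ θ)) *
          ‖gas (a - nsat o true τ) (a' - nsat o false τ) y
            (fun u => G true u * potG (cc o z ρ τ θ) true u)
            (fun u => G false u * potG (cc o z ρ τ θ) false u)‖ₑ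
          ∂(Measure.pi fun _ => volume.restrict (Ioc (0 : ℝ) 1))
      else 0 := by
  rw [h.exact_q hκ q0 hm hd hb a a' hQ, Finset.mul_sum]
  refine (enorm_sum_le _ _).trans (Finset.sum_le_sum fun τ _ => ?_)
  by_cases hc : (∀ i, τ i ≠ 0 → act i) ∧ nsat o true τ ≤ a ∧ nsat o false τ ≤ a'
  · rw [if_pos hc, if_pos hc, ← integral_const_mul]
    refine (enorm_integral_le_lintegral_enorm _).trans (lintegral_mono fun θ => ?_)
    have e : ∀ s, Hfs o z ρ G τ θ s = fun u => G s u * potG (cc o z ρ τ θ) s u := fun s => by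
      funext u
      exact field_eq o z ρ G τ θ s u
    rw [← norm_weight, ofReal_norm, ← e true, ← e false, ← enorm_mul]
    refine le_of_eq ?_
    congr 1
    ring
  · rw [if_neg hc, if_neg hc, mul_zero, enorm_zero]

end NUP1S

end
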