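import Pool.Agent.NUP1S.Block

/-!
# Expansion over the satellites (circles as contours)
-/

set_option autoImplicit false
set_option linter.unusedSectionVars false

noncomputable section

open Complex MeasureTheory NUP1 Set Filter Topology
open scoped Real

namespace NUP1S

variable {pl : Bool → Finset ℂ} {κ a b : ℝ}

section step
variable {s : Bool} {σ τ : ℝ} {p : ℂ} {r : ℝ} {L : List Ct} {g : Bool → ℂ → ℂ}

/-- three quanta on one circle -/
theorem SG.three (S : SG pl κ a b s σ τ p r) (M : List Ct) (hM : ∀ x ∈ M, OkC pl κ a b x)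
    (hg : Reg pl κ a b (chL (circC s p r :: circC s p r :: circC s p r :: M)) g) :
    NI pl (circC s p r :: circC s p r :: circC s p r :: M) g = 0 := by
  have e := NI_pair S.G S.ok3 S.hp S.pair (circC s p r :: M) (fun x hx => by
    rcases List.mem_cons.1 hx with rfl | hx
    · exact S.ok3
    · exact hM x hx) g hg
  have e3 : NI pl (circC s p r :: M) (ad2 g s p) = 0 := NI_kill S.G S.ok3 S.hp S.kill M hM g hg
  rw [e]
  show _ * NI pl (circC s p r :: M) (ad2 g s p) = 0
  rw [e3, mul_zero]

theorem SG.step0 (S : SG pl κ a b s σ τ p r) (hL : ∀ x ∈ L, OkC pl κ a b x) (n : ℕ)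
    (h : Reg pl κ a b (n * sg s + chL L) g) :
    Z1 pl (lineC s σ) n L g = ∑ k : Fin 3, if (k : ℕ) ≤ n then
      (((k : ℕ).factorial : ℕ) : ℂ)⁻¹ *
        Z1 pl (lineC s τ) (n - k) (List.replicate k (circC s p r) ++ L) g else 0 := by
  have okA := S.ok2
  have okC := S.ok3
  refine (Z1_sum S.G (e := lineC s σ) (c := lineC s τ) (d := circC s p r) rfl rfl S.ok1 okA okC
    S.rep hL n h).trans ?_
  rw [sum_three, Fin.sum_univ_three]
  · simp
  · intro k hk hkn
    obtain ⟨j, rfl⟩ : ∃ j, k = j + 3 := ⟨k - 3, by omega⟩
    have hp : (List.replicate (n - (j + 3)) (lineC s τ) ++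
        (List.replicate (j + 3) (circC s p r) ++ L)).Perm
        (circC s p r :: circC s p r :: circC s p r :: (List.replicate (n - (j + 3)) (lineC s τ) ++
          (List.replicate j (circC s p r) ++ L))) := by
      have e : List.replicate (j + 3) (circC s p r) ++ L =
        [circC s p r, circC s p r, circC s p r] ++ (List.replicate j (circC s p r) ++ L) := rfl
      rw [e, ← List.append_assoc]
      exact List.perm_append_comm.append_right _
    have okl : ∀ x ∈ List.replicate (n - (j + 3)) (lineC s τ) ++
        (List.replicate (j + 3) (circC s p r) ++ L), OkC pl κ a b x := by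
      intro x hx
      simp only [List.mem_append, List.mem_replicate] at hx
      rcases hx with ⟨_, rfl⟩ | ⟨_, rfl⟩ | hx
      · exact okA
      · exact okC
      · exact hL x hx
    have hch : chL (List.replicate (n - (j + 3)) (lineC s τ) ++
        (List.replicate (j + 3) (circC s p r) ++ L)) = n * sg s + chL L := by
      rw [chL_append, chL_append, chL_replicate, chL_replicate]
      show ((n - (j + 3) : ℕ) : ℤ) * sg s + (((j + 3 : ℕ) : ℤ) * sg s + chL L) = _
      push_cast [hkn]
      ring
    unfold Z1
    rw [NI_perm S.G hp okl g (by rw [hch]; exact h), S.three _ ?_ ?_, mul_zero, mul_zero]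
    · intro x hx
      refine okl x ?_
      simp only [List.mem_append, List.mem_replicate] at hx ⊢
      rcases hx with h | ⟨_, h⟩ | h
      · exact Or.inl h
      · exact Or.inr (Or.inl ⟨by omega, h⟩)
      · exact Or.inr (Or.inr h)
    · rw [← chL_perm hp, hch]
      exact h

end step

theorem Chn.pos_rad {L : List (ℂ × ℝ)} : ∀ {x y : ℝ}, Chn x L y → ∀ pr ∈ L, 0 < pr.2 := by
  induction L with
  | nil => intro x y _ p hp; simp at hp
  | cons pr L ih =>
    intro x y h p hp
    rcases List.mem_cons.1 hp with rfl | hp
    · exact h.1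
    · exact ih h.2.2 p hp

theorem Chn.sep {L : List (ℂ × ℝ)} : ∀ {x y : ℝ}, Chn x L y → ∀ pr ∈ L, ∀ p' ∈ L.map Prod.fst,
    p' ≠ pr.1 → pr.2 < |pr.1.re - p'.re| := by
  induction L with
  | nil => intro x y _ p hp; simp at hp
  | cons qr L ih =>
    intro x y h pr hpr p' hp' hne
    have h1 := h.1
    rw [List.map_cons] at hp'
    rcases List.mem_cons.1 hpr with rfl | hpr <;> rcases List.mem_cons.1 hp' with rfl | hp'
    · exact absurd rfl hne
    · have := h.2.2.mem p' hp'
      rw [abs_sub_comm]
      exact lt_of_lt_of_le (by linarith) (le_abs_self _)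
    · have := (h.2.2.geo pr hpr).2.1
      exact lt_of_lt_of_le (by linarith) (le_abs_self _)
    · exact ih h.2.2 pr hpr p' hp' hne

theorem chn_sep {L : List (ℂ × ℝ)} {x y : ℝ} (h : Chn x L y) {pr : ℂ × ℝ} (hpr : pr ∈ L) {p' : ℂ}
    (hne : p' ≠ pr.1) (hp' : p' ∈ L.map Prod.fst ∨ p'.re < x ∨ y < p'.re) :
    pr.2 < ‖pr.1 - p'‖ := by
  have h1 := abs_re_le_norm (pr.1 - p')
  rw [sub_re] at h1
  refine lt_of_lt_of_le ?_ h1
  obtain ⟨h2, h3, h4⟩ := h.geo pr hpr
  rcases hp' with h5 | h5 | h5
  · exact h.sep pr hpr p' h5 hne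
  · exact lt_of_lt_of_le (by linarith) (le_abs_self _)
  · rw [abs_sub_comm]
    exact lt_of_lt_of_le (by linarith) (le_abs_self _)

/-! ## sums over functions with support in a list -/

section supp
variable {ι : Type*} [Fintype ι] [DecidableEq ι]

/-- functions to `{0, 1, 2}` with support in `l` -/
def Sup (l : List ι) : Finset (ι → Fin 3) :=
  Fintype.piFinset fun i => if i ∈ l then Finset.univ else {0}

theorem mem_Sup {l : List ι} {σ : ι → Fin 3} : σ ∈ Sup l ↔ ∀ i, σ i ≠ 0 → i ∈ l := by
  unfold Sup
  rw [Fintype.mem_piFinset]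
  refine forall_congr' fun i => ?_
  by_cases h : i ∈ l <;> simp [h]

theorem sum_Sup_cons {l : List ι} {i : ι} (hi : i ∉ l) (F : (ι → Fin 3) → ℂ) :
    ∑ σ ∈ Sup (i :: l), F σ = ∑ k : Fin 3, ∑ σ ∈ Sup l, F (Function.update σ i k) := by
  rw [← Finset.sum_product']
  symm
  refine Finset.sum_nbij' (fun x => Function.update x.2 i x.1) (fun σ => (σ i, Function.update σ i 0))
    ?_ ?_ ?_ ?_ ?_
  · rintro ⟨k, σ⟩ hx
    rw [Finset.mem_product] at hx
    have h := mem_Sup.1 hx.2
    refine mem_Sup.2 fun j hj => ?_
    by_cases hji : j = i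
    · rw [hji]
      exact List.mem_cons_self
    · simp only [Function.update_of_ne hji] at hj
      exact List.mem_cons_of_mem _ (h j hj)
  · intro σ hσ
    have h := mem_Sup.1 hσ
    rw [Finset.mem_product]
    refine ⟨Finset.mem_univ _, mem_Sup.2 fun j hj => ?_⟩
    by_cases hji : j = i
    · rw [hji] at hj
      simp at hj
    · simp only [Function.update_of_ne hji] at hj
      exact (List.mem_cons.1 (h j hj)).resolve_left hji
  · rintro ⟨k, σ⟩ hx
    rw [Finset.mem_product] at hx
    have h := mem_Sup.1 hx.2
    have h0 : σ i = 0 := by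
      by_contra hne
      exact hi (h i hne)
    simp only [Function.update_self, Function.update_idem]
    rw [← h0, Function.update_eq_self]
  · intro σ _
    simp only [Function.update_idem, Function.update_eq_self]
  · intro x _
    rfl

/-- number of satellites at the poles of the list -/
def nS (l : List ι) (σ : ι → Fin 3) : ℕ := (l.map fun i => (σ i : ℕ)).sum

/-- the circles of the satellites -/
def cS (s : Bool) (P : ι → ℂ × ℝ) (l : List ι) (σ : ι → Fin 3) : List Ct :=
  l.flatMap fun i => List.replicate (σ i) (circC s (P i).1 (P i).2)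

/-- product of the inverse factorials -/
def fS (l : List ι) (σ : ι → Fin 3) : ℂ := (l.map fun i => (((σ i : ℕ).factorial : ℕ) : ℂ)⁻¹).prod

theorem nS_update {l : List ι} {i : ι} (hi : i ∉ l) (σ : ι → Fin 3) (k : Fin 3) :
    nS (i :: l) (Function.update σ i k) = k + nS l σ := by
  unfold nS
  rw [List.map_cons, List.sum_cons, Function.update_self]
  congr 2
  refine List.map_congr_left fun j hj => ?_
  rw [Function.update_of_ne (by rintro rfl; exact hi hj)]

theorem fS_update {l : List ι} {i : ι} (hi : i ∉ l) (σ : ι → Fin 3) (k : Fin 3) :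
    fS (i :: l) (Function.update σ i k) = (((k : ℕ).factorial : ℕ) : ℂ)⁻¹ * fS l σ := by
  unfold fS
  rw [List.map_cons, List.prod_cons, Function.update_self]
  congr 2
  refine List.map_congr_left fun j hj => ?_
  rw [Function.update_of_ne (by rintro rfl; exact hi hj)]

theorem cS_update {s : Bool} {P : ι → ℂ × ℝ} {l : List ι} {i : ι} (hi : i ∉ l) (σ : ι → Fin 3)
    (k : Fin 3) : cS s P (i :: l) (Function.update σ i k) =
      List.replicate k (circC s (P i).1 (P i).2) ++ cS s P l σ := by
  unfold cS
  rw [List.flatMap_cons, Function.update_self]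
  congr 1
  refine List.flatMap_congr fun j hj => ?_
  rw [Function.update_of_ne (by rintro rfl; exact hi hj)]

theorem chL_cS (s : Bool) (P : ι → ℂ × ℝ) (l : List ι) (σ : ι → Fin 3) :
    chL (cS s P l σ) = nS l σ * sg s := by
  induction l with
  | nil => simp [cS, nS]
  | cons i l ih =>
    unfold cS nS at *
    rw [List.flatMap_cons, chL_append, ih, chL_replicate, List.map_cons, List.sum_cons]
    show ((σ i : ℕ) : ℤ) * sg s + _ = _
    push_cast
    ring

/-- **Expansion over the satellites of one species.** -/
theorem expand_one (G : Geo pl κ a b) {s : Bool} {y : ℝ} (hy : y ≤ b) (P : ι → ℂ × ℝ) (l : List ι) :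
    ∀ (x : ℝ) (n : ℕ) (L : List Ct) (g : Bool → ℂ → ℂ), l.Nodup → (∀ z ∈ L, OkC pl κ a b z) →
    a ≤ x → Chn x (l.map P) y → (∀ i ∈ l, (P i).1 ∈ pl s) →
    (∀ p ∈ pl s, (∃ i ∈ l, (P i).1 = p) ∨ p.re < x ∨ y < p.re) →
    Reg pl κ a b (n * sg s + chL L) g →
    Z1 pl (lineC s x) n L g = ∑ σ ∈ Sup l, if nS l σ ≤ n then
      fS l σ * Z1 pl (lineC s y) (n - nS l σ) (cS s P l σ ++ L) g else 0 := by
  induction l with
  | nil =>
    intro x n L g _ hL hx hc _ ho hg
    have e : Sup ([] : List ι) = {fun _ => 0} := by
      ext σ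
      rw [mem_Sup, Finset.mem_singleton]
      constructor
      · intro h
        funext i
        by_contra hne
        simpa using h i hne
      · rintro rfl i hi
        exact absurd rfl hi
    rw [e, Finset.sum_singleton]
    simp only [nS, cS, fS, List.map_nil, List.sum_nil, List.prod_nil, List.flatMap_nil,
      List.nil_append, Nat.zero_le, if_true, Nat.sub_zero, one_mul]
    exact Z1_shift G hx (le_of_lt hc) hy (fun p hp => by simpa using ho p hp) hL n g hg
  | cons i l ih =>
    intro x n L g hnd hL hx hc hin ho hg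
    obtain ⟨hi, hnd'⟩ := List.nodup_cons.1 hnd
    obtain ⟨τ, h1, h2⟩ := hc.2.2.mid
    have hτy := h2.lt
    have hmem : ∀ j ∈ l, (P j).1 ∈ (l.map P).map Prod.fst := fun j hj =>
      List.mem_map_of_mem (List.mem_map_of_mem hj)
    have S : SG pl κ a b s x τ (P i).1 (P i).2 := by
      refine ⟨G, hx, (hτy.le.trans hy), hc.1, hin _ (by simp), hc.2.1, h1, fun p' hp' hne => ?_⟩
      rcases ho p' hp' with ⟨j, hj, h⟩ | h | h
      · rcases List.mem_cons.1 hj with rfl | hj
        · exact absurd h.symm hne
        · exact Or.inr (h ▸ h2.mem _ (hmem j hj))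
      · exact Or.inl h
      · exact Or.inr (hτy.trans h)
    have hin' : ∀ j ∈ l, (P j).1 ∈ pl s := fun j hj => hin j (List.mem_cons_of_mem _ hj)
    have ho' : ∀ p ∈ pl s, (∃ j ∈ l, (P j).1 = p) ∨ p.re < τ ∨ y < p.re := by
      intro p hp
      have h3 := hc.1
      rcases ho p hp with ⟨j, hj, h⟩ | h | h
      · rcases List.mem_cons.1 hj with rfl | hj
        · exact Or.inr (Or.inl (by rw [← h]; linarith))
        · exact Or.inl ⟨j, hj, h⟩
      · exact Or.inr (Or.inl (by
          have := S.στ
          linarith))
      · exact Or.inr (Or.inr h)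
    have haτ : a ≤ τ := hx.trans S.στ
    rw [S.step0 hL n hg, sum_Sup_cons hi]
    refine Finset.sum_congr rfl fun k _ => ?_
    by_cases hk : (k : ℕ) ≤ n
    · rw [if_pos hk, ih τ (n - k) (List.replicate k (circC s (P i).1 (P i).2) ++ L) g hnd' ?_ haτ h2
        hin' ho' ?_, Finset.mul_sum]
      · refine Finset.sum_congr rfl fun σ _ => ?_
        rw [nS_update hi, fS_update hi, cS_update hi]
        by_cases hσ : nS l σ ≤ n - k
        · have h4 : (k : ℕ) + nS l σ ≤ n := by omega
          rw [if_pos hσ, if_pos h4, ← mul_assoc]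
          congr 1
          unfold Z1
          rw [show n - k - nS l σ = n - (k + nS l σ) by omega]
          congr 1
          refine NI_perm G ?_ ?_ g ?_
          · refine List.Perm.append_left _ ?_
            rw [← List.append_assoc]
            exact List.perm_append_comm.append_right L
          · intro z hz
            simp only [List.mem_append, List.mem_replicate, cS, List.mem_flatMap] at hz
            rcases hz with ⟨_, rfl⟩ | ⟨j, hj, _, rfl⟩ | ⟨_, rfl⟩ | hz
            · refine okC_line G.kpos (hx.trans (S.στ.trans hτy.le)) hy fun p hp => ?_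
              rcases ho p hp with ⟨j, hj, h⟩ | h | h
              · rw [← h]
                exact (hc.mem' _ (List.mem_map_of_mem (List.mem_map_of_mem hj))).ne
              · have := hc.lt
                exact (by linarith : p.re < y).ne
              · exact h.ne'
            · -- the other circles
              have hgeo := h2.geo (P j) (List.mem_map_of_mem hj)
              have hpos : 0 < (P j).2 := h2.pos_rad (P j) (List.mem_map_of_mem hj)
              refine okC_circ hpos (haτ.trans hgeo.2.1) (hgeo.2.2.trans hy) fun p' hp' hne => ?_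
              exact chn_sep h2 (List.mem_map_of_mem hj) hne (by
                rcases ho' p' hp' with ⟨j', hj', h⟩ | h | h
                · exact Or.inl (h ▸ List.mem_map_of_mem (List.mem_map_of_mem hj'))
                · exact Or.inr (Or.inl h)
                · exact Or.inr (Or.inr h))
            · exact S.ok3
            · exact hL z hz
          · rw [chL_append, chL_append, chL_append, chL_replicate, chL_replicate, chL_cS]
            show Reg pl κ a b (((n - (k + nS l σ) : ℕ) : ℤ) * sg s +
              ((nS l σ : ℤ) * sg s + (((k : ℕ) : ℤ) * sg s + chL L))) g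
            convert hg using 1
            push_cast [h4]
            ring
        · have h4 : ¬ (k : ℕ) + nS l σ ≤ n := by omega
          rw [if_neg hσ, if_neg h4, mul_zero]
      · intro z hz
        simp only [List.mem_append, List.mem_replicate] at hz
        rcases hz with ⟨_, rfl⟩ | hz
        · exact S.ok3
        · exact hL z hz
      · rw [chL_append, chL_replicate]
        show Reg pl κ a b (((n - k : ℕ) : ℤ) * sg s + (((k : ℕ) : ℤ) * sg s + chL L)) g
        convert hg using 1
        push_cast [hk]
        ring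
    · rw [if_neg hk]
      symm
      refine Finset.sum_eq_zero fun σ _ => ?_
      rw [nS_update hi, if_neg (by omega)]

end supp

end NUP1S

end
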