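import Pool.Agent.NUP1S.Exact

/-!
# Stage 3 for arbitrary fields: double poles and simple poles

`H s` = one body function of a quantum of species `s` in the field of everything fixed; on the strip
between the lines `x` and `y` it is `gr s / ∏ sin (u - p) ^ 2` over the poles `p` of species `s`.
A simple pole is a double pole with `gr s p = 0`: then no pair of quanta sits at the pole
(`omX` of `τ i = 2` is `0`), and one quantum on the circle is the residue term.
-/

set_option autoImplicit false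
set_option linter.unusedSectionVars false

noncomputable section

open Complex MeasureTheory NUP1 Set Filter Topology
open scoped Real

namespace NUP1S

variable {ι : Type*} [Fintype ι] [DecidableEq ι] {D : SD ι} {act : ι → Prop} [DecidablePred act]
  {x y κ : ℝ}

/-- one body weight of the satellites of the pole `i`; `R i` = regular part at the double pole -/
def omX (D : SD ι) (H : Bool → ℂ → ℂ) (R : ι → ℂ) (τ : ι → Fin 3) (θ : ι → ℝ) (i : ι) : ℂ :=
  if τ i = 0 then 1
  else if τ i = 1 then -cM 0 (D.r i) (θ i) * H (D.sp i) (cM (D.p i) (D.r i) (θ i))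
  else (sin (2 * l) / sin l) ^ 2 * R i ^ 2

/-- weight of all satellites -/
def SWX (D : SD ι) (H : Bool → ℂ → ℂ) (R : ι → ℂ) (τ : ι → Fin 3) (θ : ι → ℝ) : ℂ :=
  (∏ i, omX D H R τ θ i) * PU fun i j =>
    PP (D.sp i) (D.sp j) (D.c τ θ i - D.c τ θ j) ^ ((τ i : ℕ) * (τ j : ℕ))

/-- field in the presence of the satellites -/
def HX (D : SD ι) (H : Bool → ℂ → ℂ) (τ : ι → Fin 3) (θ : ι → ℝ) (s : Bool) (u : ℂ) : ℂ :=
  H s u * ∏ i, PP s (D.sp i) (u - D.c τ θ i) ^ (τ i : ℕ)

theorem SD.Geom.circ_re (h : D.Geom act x y) {i : ι} (hi : act i) (t : ℝ) :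
    x ≤ (cM (D.p i) (D.r i) t).re ∧ (cM (D.p i) (D.r i) t).re ≤ y := by
  have h1 := circle_re (D.p i) (h.r0 i hi).le t
  have h2 := h.lo i hi
  have h3 := h.hi i hi
  constructor <;> linarith [h1.1, h1.2]

/-- **Stage 3 for arbitrary fields.** -/
theorem gas_expand (h : D.Geom act x y) (hκ : 0 < κ) (a a' : ℕ) {gr H : Bool → ℂ → ℂ} {R : ι → ℂ}
    (hg : Reg (D.pl act) κ x y (a * sg true + a' * sg false) gr)
    (hH : ∀ s, ∀ u : ℂ, x ≤ u.re → u.re ≤ y → H s u = Wt (D.pl act) gr s u)
    (hR : ∀ i, act i → R i = rg (D.pl act) gr (D.sp i) (D.p i)) :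
    gas a a' x (H true) (H false) = ∑ τ : ι → Fin 3,
      if (∀ i, τ i ≠ 0 → act i) ∧ D.nn true τ ≤ a ∧ D.nn false τ ≤ a' then
        ∫ θ : ι → ℝ, SWX D H R τ θ *
          gas (a - D.nn true τ) (a' - D.nn false τ) y (HX D H τ θ true) (HX D H τ θ false)
          ∂(Measure.pi fun _ => volume.restrict (Ioc (0 : ℝ) 1))
      else 0 := by
  have Ge := h.geo hκ
  rw [gas_eq_ZZ Ge x (fun s => (h.line hκ s).1) a a' hg
    (fun u hu => hH true u hu.ge (hu.le.trans h.xy.le))
    (fun u hu => hH false u hu.ge (hu.le.trans h.xy.le)), h.expand hκ a a' hg]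
  refine Finset.sum_congr rfl fun τ _ => ?_
  split_ifs with hc
  · obtain ⟨hτ, h1, h2⟩ := hc
    refine integral_congr_ae (Eventually.of_forall fun θ => ?_)
    simp only []
    have e1 : D.SW τ (D.pl act) gr θ = SWX D H R τ θ := by
      unfold SD.SW SWX
      congr 1
      refine Finset.prod_congr rfl fun i _ => ?_
      unfold SD.om omX
      by_cases h0 : τ i = 0
      · rw [if_pos h0, if_pos h0]
      · have hi := hτ i h0
        rw [if_neg h0, if_neg h0]
        by_cases h1 : τ i = 1
        · rw [if_pos h1, if_pos h1, hH _ _ (h.circ_re hi _).1 (h.circ_re hi _).2]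
        · rw [if_neg h1, if_neg h1, hR i hi]
          rfl
    rw [e1]
    congr 1
    symm
    have e2 : ∀ s, ∀ u : ℂ, u.re = y → HX D H τ θ s u = Wt (D.pl act) (D.aS τ gr θ) s u := by
      intro s u hu
      unfold HX
      rw [hH s u (h.xy.le.trans hu.ge) hu.le]
      unfold Wt SD.aS
      rw [div_mul_eq_mul_div]
    refine gas_eq_ZZ Ge y (fun s => (h.line hκ s).2) _ _ ?_ (e2 true) (e2 false)
    have h3 := Reg.aS (D := D) (τ := τ) (θ := θ) Ge (fun i hi => ?_) hg
    · convert h3 using 1
      rw [nn_sum]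
      push_cast [h1, h2]
      ring
    · have hi' := hτ i hi
      unfold SD.c
      split_ifs
      · exact h.circ_re hi' _
      · have := h.re_lt hi'
        exact ⟨this.1.le, this.2.le⟩
  · rfl

/-- no pair at a simple pole -/
theorem omX_simple {H : Bool → ℂ → ℂ} {R : ι → ℂ} {τ : ι → Fin 3} {θ : ι → ℝ} {i : ι}
    (hR : R i = 0) (hτ : τ i = 2) : omX D H R τ θ i = 0 := by
  unfold omX
  rw [if_neg (by rw [hτ]; decide), if_neg (by rw [hτ]; decide), hR]
  ring

theorem rg_simple {pl : Bool → Finset ℂ} {gr : Bool → ℂ → ℂ} {s : Bool} {p : ℂ}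
    (h : gr s p = 0) : rg pl gr s p = 0 := by
  unfold rg
  rw [h, zero_div]

end NUP1S

end
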