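import Pool.Agent.NUP1S.Circ

/-!
# One double pole between two vertical lines: lines, circle, pair at the pole
-/

set_option autoImplicit false
set_option linter.unusedSectionVars false

noncomputable section

open Complex MeasureTheory NUP1 Set Filter Topology
open scoped Real

namespace NUP1S

variable {pl : Bool → Finset ℂ} {κ a b : ℝ}

theorem exists_pos_lb {F : Finset ℂ} {φ : ℂ → ℝ} (h : ∀ p ∈ F, 0 < φ p) :
    ∃ δ : ℝ, 0 < δ ∧ ∀ p ∈ F, δ ≤ φ p := by
  classical
  induction F using Finset.induction_on with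
  | empty => exact ⟨1, one_pos, by simp⟩
  | insert c F _ ih =>
    obtain ⟨δ, h1, h2⟩ := ih fun p hp => h p (by simp [hp])
    refine ⟨min δ (φ c), lt_min h1 (h c (by simp)), fun p hp => ?_⟩
    rcases Finset.mem_insert.1 hp with rfl | hp
    · exact min_le_right _ _
    · exact (min_le_left _ _).trans (h2 p hp)

theorem okC_line (hκ : 0 < κ) {s : Bool} {σ : ℝ} (h1 : a ≤ σ) (h2 : σ ≤ b)
    (h3 : ∀ p ∈ pl s, p.re ≠ σ) : OkC pl κ a b (lineC s σ) := by
  obtain ⟨δ, hδ, hd⟩ := exists_pos_lb (F := pl s) (φ := fun p => |σ - p.re|)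
    (fun p hp => abs_pos.2 (sub_ne_zero.2 (h3 p hp).symm))
  refine ⟨measurable_const, ?_, fun t => ?_, fun t => ?_, ⟨δ, hδ, fun t p hp => ?_⟩, ?_⟩
  · unfold lineC vl
    fun_prop
  · show a ≤ (vl σ t).re
    rw [re_vl]; exact h1
  · show (vl σ t).re ≤ b
    rw [re_vl]; exact h2
  · refine (hd p hp).trans ?_
    have := abs_re_le_norm (vl σ t - p)
    rwa [sub_re, re_vl] at this
  · have : Integrable fun t : ℝ => ‖(2 * π : ℂ)⁻¹‖ * Real.exp (-(κ * |t|)) :=
      (Bd.integrable_exp_neg_abs hκ).const_mul _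
    refine this.congr (Eventually.of_forall fun t => ?_)
    show _ = ‖(2 * π : ℂ)⁻¹‖ * Real.exp (-(κ * |(vl σ t).im|))
    rw [im_vl]

theorem norm_cM_sub (p : ℂ) (r t : ℝ) : ‖cM p r t - p‖ = |r| := by
  unfold cM
  rw [circleMap_sub_center, norm_circleMap_zero]

theorem norm_circle_sub (p q : ℂ) {r : ℝ} (t : ℝ) : ‖p - q‖ - |r| ≤ ‖cM p r t - q‖ := by
  have h1 := norm_cM_sub p r t
  have h2 := norm_sub_le (cM p r t - q) (cM p r t - p)
  rw [sub_sub_sub_cancel_left, h1] at h2
  linarith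

theorem circle_re (p : ℂ) {r : ℝ} (hr : 0 ≤ r) (t : ℝ) :
    p.re - r ≤ (cM p r t).re ∧ (cM p r t).re ≤ p.re + r := by
  have h1 := norm_cM_sub p r t
  have h2 := abs_re_le_norm (cM p r t - p)
  rw [h1, abs_of_nonneg hr, sub_re, abs_le] at h2
  constructor <;> linarith [h2.1, h2.2]

theorem okC_circ {s : Bool} {p : ℂ} {r : ℝ} (hr : 0 < r) (h1 : a ≤ p.re - r) (h2 : p.re + r ≤ b)
    (h3 : ∀ p' ∈ pl s, p' ≠ p → r < ‖p - p'‖) : OkC pl κ a b (circC s p r) := by
  obtain ⟨δ, hδ, hd⟩ := exists_pos_lb (F := pl s) (φ := fun p' => if p' = p then r else ‖p - p'‖ - r)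
    (fun p' hp' => by
      split_ifs with h
      · exact hr
      · exact sub_pos.2 (h3 p' hp' h))
  refine ⟨?_, (continuous_cM p r).measurable, fun t => ?_, fun t => ?_,
    ⟨δ, hδ, fun t p' hp' => ?_⟩, ?_⟩
  · exact ((continuous_cM 0 r).neg).measurable.indicator measurableSet_Ioc
  · exact h1.trans (circle_re p hr.le t).1
  · exact (circle_re p hr.le t).2.trans h2
  · refine (hd p' hp').trans ?_
    show _ ≤ ‖cM p r t - p'‖
    split_ifs with h
    · rw [h, norm_cM_sub, abs_of_pos hr]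
    · have := norm_circle_sub p p' (r := r) t
      rwa [abs_of_pos hr] at this
  · have e : (fun t => ‖(circC s p r).om t‖ * Real.exp (-(κ * |((circC s p r).pos t).im|))) =
        (Ioc 0 1).indicator (fun t => ‖-cM 0 r t‖ *
          Real.exp (-(κ * |(cM p r t).im|))) := by
      funext t
      show ‖cOm r t‖ * _ = _
      unfold cOm
      by_cases ht : t ∈ Ioc (0 : ℝ) 1
      · rw [indicator_of_mem ht, indicator_of_mem ht]
        rfl
      · rw [indicator_of_notMem ht, indicator_of_notMem ht, norm_zero, zero_mul]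
    rw [e, integrable_indicator_iff measurableSet_Ioc]
    have hc : Continuous fun t : ℝ => ‖-cM 0 r t‖ *
        Real.exp (-(κ * |(cM p r t).im|)) := by
      have h1 := continuous_cM 0 r
      have h2 := continuous_cM p r
      fun_prop
    exact (hc.continuousOn.integrableOn_compact (isCompact_Icc (a := (0 : ℝ)) (b := 1))).mono_set
      Ioc_subset_Icc_self

/-- The geometry of one step: the only pole of species `s` between the lines `σ < τ` is `p`. -/
structure SG (pl : Bool → Finset ℂ) (κ a b : ℝ) (s : Bool) (σ τ : ℝ) (p : ℂ) (r : ℝ) : Prop where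
  G : Geo pl κ a b
  aσ : a ≤ σ
  τb : τ ≤ b
  hr : 0 < r
  hp : p ∈ pl s
  h1 : σ < p.re - r
  h2 : p.re + r < τ
  oth : ∀ p' ∈ pl s, p' ≠ p → p'.re < σ ∨ τ < p'.re

section step
variable {s : Bool} {σ τ : ℝ} {p : ℂ} {r : ℝ}

theorem SG.στ (S : SG pl κ a b s σ τ p r) : σ ≤ τ := by
  have := S.h1; have := S.h2; have := S.hr; linarith

theorem SG.wd (S : SG pl κ a b s σ τ p r) : τ - σ < π := by
  have := S.aσ; have := S.τb; have := S.G.wd; have := Bd.l_pos; have := Bd.pi_eq
  linarith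

theorem SG.pOS (S : SG pl κ a b s σ τ p r) : p ∈ OS σ τ :=
  ⟨by have := S.h1; have := S.hr; linarith, by have := S.h2; have := S.hr; linarith⟩

theorem SG.ball (S : SG pl κ a b s σ τ p r) : Metric.closedBall p r ⊆ OS σ τ := by
  intro u hu
  rw [Metric.mem_closedBall, dist_eq_norm] at hu
  have h := (abs_re_le_norm (u - p)).trans hu
  rw [sub_re, abs_le] at h
  exact ⟨by have := S.h1; linarith [h.1], by have := S.h2; linarith [h.2]⟩

theorem SG.piU (S : SG pl κ a b s σ τ p r) : ∀ u ∈ OS σ τ, |(u - p).re| < π := by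
  intro u hu
  have h1 := S.pOS
  have h2 := S.wd
  rw [sub_re, abs_lt]
  constructor <;> linarith [hu.1, hu.2, h1.1, h1.2]

theorem SG.ok1 (S : SG pl κ a b s σ τ p r) : OkC pl κ a b (lineC s σ) := by
  refine okC_line S.G.kpos S.aσ (S.στ.trans S.τb) fun p' hp' => ?_
  by_cases h : p' = p
  · rw [h]
    exact (S.pOS.1).ne'
  · rcases S.oth p' hp' h with h | h
    · exact h.ne
    · exact (S.στ.trans_lt h).ne'

theorem SG.ok2 (S : SG pl κ a b s σ τ p r) : OkC pl κ a b (lineC s τ) := by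
  refine okC_line S.G.kpos (S.aσ.trans S.στ) S.τb fun p' hp' => ?_
  by_cases h : p' = p
  · rw [h]
    exact (S.pOS.2).ne
  · rcases S.oth p' hp' h with h | h
    · exact (h.trans_le S.στ).ne
    · exact h.ne'

theorem SG.ok3 (S : SG pl κ a b s σ τ p r) : OkC pl κ a b (circC s p r) := by
  refine okC_circ S.hr (S.aσ.trans S.h1.le) (S.h2.le.trans S.τb) fun p' hp' hne => ?_
  have := abs_re_le_norm (p - p')
  refine lt_of_lt_of_le ?_ this
  rw [sub_re]
  have h1 := S.h1
  have h2 := S.h2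
  rcases S.oth p' hp' hne with h | h
  · exact lt_of_lt_of_le (by linarith) (le_abs_self _)
  · exact lt_of_lt_of_le (by linarith) (neg_le_abs _)

/-- regular part near `p` -/
def Hf (pl : Bool → Finset ℂ) (g : Bool → ℂ → ℂ) (s : Bool) (p u : ℂ) : ℂ :=
  g s u / ∏ p' ∈ (pl s).erase p, sin (u - p') ^ 2

theorem Hf_self (g : Bool → ℂ → ℂ) : Hf pl g s p p = rg pl g s p := rfl

theorem Wt_eq (hp : p ∈ pl s) (g : Bool → ℂ → ℂ) (u : ℂ) :
    Wt pl g s u = Hf pl g s p u / sin (u - p) ^ 2 := by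
  unfold Wt Hf
  rw [← Finset.mul_prod_erase _ _ hp, div_div, mul_comm]

theorem SG.Hdiff (S : SG pl κ a b s σ τ p r) {Q : ℤ} {g : Bool → ℂ → ℂ} (h : Reg pl κ a b Q g)
    {u : ℂ} (hu : u ∈ CS σ τ) : DifferentiableAt ℂ (Hf pl g s p) u := by
  unfold Hf
  refine (h.diff s u (S.aσ.trans hu.1) (hu.2.trans S.τb)).div ?_ ?_
  · have := DifferentiableAt.fun_finsetProd (𝕜 := ℂ) (u := (pl s).erase p)
      (f := fun p' u => sin (u - p') ^ 2) (x := u) (fun b _ => by fun_prop)
    simpa using this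
  · refine Finset.prod_ne_zero_iff.2 fun p' hp' => pow_ne_zero 2 ?_
    obtain ⟨h1, h2⟩ := Finset.mem_erase.1 hp'
    have hl := Bd.l_pos
    have hpi := Bd.pi_eq
    have hwd := S.G.wd
    have hpin := S.G.pin s p' h2
    have haσ := S.aσ
    have hτb := S.τb
    refine sin_ne ?_ ?_ (sub_ne_zero.2 ?_)
    · rw [sub_re]
      linarith [hu.1, hu.2, hpin.1, hpin.2]
    · rw [sub_re]
      linarith [hu.1, hu.2, hpin.1, hpin.2]
    · rintro rfl
      rcases S.oth u h2 h1 with h | h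
      · linarith [hu.1]
      · linarith [hu.2]

theorem Wt_decay (G : Geo pl κ a b) {Q : ℤ} {g : Bool → ℂ → ℂ} (h : Reg pl κ a b Q g) (s : Bool) :
    ∃ C R : ℝ, ∀ u : ℂ, a ≤ u.re → u.re ≤ b → R ≤ |u.im| →
      ‖Wt pl g s u‖ ≤ C * Real.exp (-((κ + 2 * (sg s * Q : ℤ)) * |u.im|)) := by
  obtain ⟨m, hm, hml⟩ := prod_lower (δ := 1) one_pos G.wd (G.pin s)
  obtain ⟨D, hD, hg⟩ := h.bd
  refine ⟨D / m, 1 + ∑ p ∈ pl s, |p.im|, fun u h1 h2 h3 => ?_⟩
  have e1 := hg s u h1 h2
  have e2 := hml u h1 h2 (fun p hp => by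
    have : |p.im| ≤ ∑ p ∈ pl s, |p.im| :=
      Finset.single_le_sum (f := fun p : ℂ => |p.im|) (fun p _ => abs_nonneg _) hp
    have h4 := abs_im_le_norm (u - p)
    rw [sub_im] at h4
    have h5 := abs_sub_abs_le_abs_sub u.im p.im
    linarith)
  unfold Wt
  rw [norm_div]
  have hpos : 0 < m * Real.exp (2 * (pl s).card * |u.im|) := by positivity
  refine (div_le_div₀ (by positivity) e1 hpos e2).trans (le_of_eq ?_)
  rw [mul_div_mul_comm, ← Real.exp_sub]
  congr 2
  ring

theorem sg_cast (s : Bool) (n : ℤ) : ((sg s * (n * sg s) : ℤ) : ℝ) = n := by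
  rw [show sg s * (n * sg s) = n * (sg s * sg s) by ring, sg_sq, mul_one]

/-- **Replacement of the line `σ` by the line `τ` and the circle.** -/
theorem SG.rep (S : SG pl κ a b s σ τ p r) :
    Rep pl κ a b (lineC s σ) (lineC s τ) (circC s p r) := by
  intro g hg
  have hg : Reg pl κ a b (sg s) g := hg
  have hH : ∀ u ∈ CS σ τ, DifferentiableAt ℂ (Hf pl g s p) u := fun u hu => S.Hdiff hg hu
  obtain ⟨N, n1, n2, n3⟩ := exists_N S.wd S.pOS (H := Hf pl g s p)
    (fun u hu => (hH u hu).continuousAt.continuousWithinAt)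
    (fun u hu => (hH u (OS_sub_CS _ _ hu)).differentiableWithinAt)
  obtain ⟨C, R, hC⟩ := Wt_decay S.G hg s
  have hk := S.G.kpos
  have key := line_two S.στ S.wd S.pOS n1 n2 n3 (C := C) (δ := κ + 2) (t₀ := R) (by linarith)
    (fun x t h1 h2 h3 => by
      have := hC ((x : ℂ) + t * I) (by rw [vl_re]; exact S.aσ.trans h1)
        (by rw [vl_re]; exact h2.trans S.τb) (by rwa [vl_im])
      rw [Wt_eq S.hp, vl_im] at this
      refine this.trans (le_of_eq ?_)
      have e : ((sg s * sg s : ℤ) : ℝ) = 1 := by rw [sg_sq]; norm_num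
      rw [e]
      ring_nf)
  have hcirc := circ_two (isOpen_OS σ τ) S.ball S.hr S.piU n2 (H := Hf pl g s p)
    (fun u hu => n3 u (OS_sub_CS _ _ hu))
  have e1 : ∀ x : ℝ, ∫ t, hh pl g (lineC s x) t =
      (2 * π : ℂ)⁻¹ * ∫ t : ℝ, Hf pl g s p (x + t * I) / sin (x + t * I - p) ^ 2 := by
    intro x
    rw [← integral_const_mul]
    refine integral_congr_ae (Eventually.of_forall fun t => ?_)
    show (2 * π : ℂ)⁻¹ * Wt pl g s (vl x t) = _
    rw [Wt_eq S.hp, vl_eq]
  have e2 : ∫ t, hh pl g (circC s p r) t = -N p := by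
    have : ∀ t, hh pl g (circC s p r) t = cOm r t *
        (fun z => Hf pl g s p z / sin (z - p) ^ 2) (cM p r t) := by
      intro t
      show cOm r t * Wt pl g s (cM p r t) = _
      rw [Wt_eq S.hp]
    rw [integral_congr_ae (Eventually.of_forall this), int_cOm p r
      (fun z => Hf pl g s p z / sin (z - p) ^ 2), hcirc]
    have h2 : (2 * π * I : ℂ) ≠ 0 := by
      have := Real.pi_ne_zero
      simp [I_ne_zero]
    field_simp
  have hpi : (2 * π : ℂ) ≠ 0 := by
    have := Real.pi_ne_zero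
    simp
  rw [e1, e1, e2]
  have e3 : ∫ t : ℝ, Hf pl g s p (τ + t * I) / sin (τ + t * I - p) ^ 2 =
      2 * π * N p + ∫ t : ℝ, Hf pl g s p (σ + t * I) / sin (σ + t * I - p) ^ 2 := by
    rw [← key]
    ring
  rw [e3]
  generalize (∫ t : ℝ, Hf pl g s p (σ + t * I) / sin (σ + t * I - p) ^ 2) = X
  field_simp
  ring

/-! ### pairs -/

/-- `q z / sin z ^ 2` -/
def kq (z : ℂ) : ℂ := -(sin (z + 2 * l) * sin (z - 2 * l)) / (sin (z + l) * sin (z - l))

theorem q_eq (z : ℂ) : q z = sin z ^ 2 * kq z := by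
  unfold q kq
  ring

theorem kq_zero : kq 0 = -(sin (2 * l) / sin l) ^ 2 := by
  have h : sin (l : ℂ) ≠ 0 := by
    have hl := Bd.l_pos
    have hpi := Bd.pi_eq
    exact sin_ne (by simp; linarith) (by simp; linarith) (by exact_mod_cast hl.ne')
  unfold kq
  rw [zero_add, zero_add, zero_sub, zero_sub, sin_neg, sin_neg]
  field_simp

theorem kq_diff {z : ℂ} (h : |z.re| < l) : DifferentiableAt ℂ kq z := by
  have hl := Bd.l_pos
  have hpi := Bd.pi_eq
  obtain ⟨h1, h2⟩ := abs_lt.1 h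
  have n1 : sin (z + l) ≠ 0 := sin_ne_strip (by simp; linarith) (by simp; linarith)
  have n2 : sin (z - l) ≠ 0 := sin_ne_strip' (by simp; linarith) (by simp; linarith)
  unfold kq
  exact DifferentiableAt.div (by fun_prop) (by fun_prop) (mul_ne_zero n1 n2)

theorem SG.lt_l (S : SG pl κ a b s σ τ p r) {u w : ℂ} (hu : u ∈ OS σ τ) (hw : w ∈ OS σ τ) :
    |(u - w).re| < l := by
  have h1 := S.aσ
  have h2 := S.τb
  have h3 := S.G.wd
  rw [sub_re, abs_lt]
  constructor <;> linarith [hu.1, hu.2, hw.1, hw.2]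

theorem SG.Hd (S : SG pl κ a b s σ τ p r) {Q : ℤ} {g : Bool → ℂ → ℂ} (h : Reg pl κ a b Q g) :
    DifferentiableOn ℂ (Hf pl g s p) (OS σ τ) :=
  fun _ hu => (S.Hdiff h (OS_sub_CS _ _ hu)).differentiableWithinAt

theorem SG.sph (S : SG pl κ a b s σ τ p r) {u : ℂ} (hu : u ∈ Metric.sphere p r) :
    u ∈ OS σ τ ∧ sin (u - p) ≠ 0 := by
  have h1 := S.ball (Metric.sphere_subset_closedBall hu)
  refine ⟨h1, sin_ne_U (isOpen_OS σ τ) S.ball S.piU h1 ?_⟩
  rintro rfl
  rw [Metric.mem_sphere, dist_self] at hu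
  exact S.hr.ne hu

/-- **No third quantum.** -/
theorem SG.kill (S : SG pl κ a b s σ τ p r) : Kill pl κ a b (circC s p r) p := by
  intro g hg
  have hg : Reg pl κ a b (sg s + sg s + sg s) g := hg
  show ∫ t, hh pl (ad2 g s p) (circC s p r) t = 0
  have e : ∀ t, hh pl (ad2 g s p) (circC s p r) t = cOm r t *
      (fun z => Hf pl g s p z * sin (z - p) ^ 2 * kq (z - p) ^ 2) (cM p r t) := by
    intro t
    show cOm r t * Wt pl (ad2 g s p) s (cM p r t) = _
    have hz : cM p r t ∈ Metric.sphere p r := cM_mem S.hr.le t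
    have h0 := (S.sph hz).2
    rw [Wt_eq S.hp]
    congr 1
    have e2 : Hf pl (ad2 g s p) s p (cM p r t) =
        Hf pl g s p (cM p r t) * q (cM p r t - p) ^ 2 := by
      unfold Hf ad2 ad PP
      simp only [if_true]
      ring
    rw [e2, q_eq]
    field_simp
  rw [integral_congr_ae (Eventually.of_forall e), int_cOm p r
    (fun z => Hf pl g s p z * sin (z - p) ^ 2 * kq (z - p) ^ 2),
    circ_zero (isOpen_OS σ τ) S.ball S.hr, mul_zero]
  refine ((S.Hd hg).mul ?_).mul ?_
  · exact Differentiable.differentiableOn (by fun_prop)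
  · intro u hu
    have := (kq_diff (S.lt_l hu S.pOS)).comp u (differentiableAt_id.sub_const p)
    exact (this.pow 2).differentiableWithinAt

theorem kq_cont (S : SG pl κ a b s σ τ p r) :
    ContinuousOn (fun x : ℂ × ℂ => kq (x.2 - x.1)) (Metric.sphere p |r| ×ˢ Metric.sphere p |r|) := by
  intro x hx
  rw [abs_of_pos S.hr] at hx
  have h1 := (kq_diff (S.lt_l (S.sph hx.2).1 (S.sph hx.1).1)).continuousAt
  have h2 : ContinuousAt (fun x : ℂ × ℂ => x.2 - x.1) x := by fun_prop
  exact (ContinuousAt.comp (f := fun x : ℂ × ℂ => x.2 - x.1) (g := kq) h1 h2).continuousWithinAt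

/-- **Two quanta on the circle = two quanta at the pole.** -/
theorem SG.pair (S : SG pl κ a b s σ τ p r) :
    Pair pl κ a b (circC s p r) p (2 * (sin (2 * l) / sin l) ^ 2) := by
  intro g hg
  have hg : Reg pl κ a b (sg s + sg s) g := hg
  show ∫ t, hh pl g (circC s p r) t * ∫ t', hh pl (ad g s (cM p r t)) (circC s p r) t' =
    2 * (sin (2 * l) / sin l) ^ 2 * rg pl g s p ^ 2
  obtain ⟨H, hH⟩ : ∃ H : ℂ → ℂ, H = Hf pl g s p := ⟨_, rfl⟩
  have hHd : DifferentiableOn ℂ H (OS σ τ) := hH ▸ S.Hd hg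
  have hU := isOpen_OS σ τ
  have hrr : |r| = r := abs_of_pos S.hr
  -- the integrand
  have e1 : ∀ u, ∫ t', hh pl (ad g s u) (circC s p r) t' =
      -(2 * π * I : ℂ)⁻¹ * ∮ w in C(p, r), H w / sin (w - p) ^ 2 * q (w - u) := by
    intro u
    have : ∀ t', hh pl (ad g s u) (circC s p r) t' = cOm r t' *
        (fun w => H w / sin (w - p) ^ 2 * q (w - u)) (cM p r t') := by
      intro t'
      show cOm r t' * Wt pl (ad g s u) s (cM p r t') = _
      rw [Wt_eq S.hp, hH]
      unfold Hf ad PP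
      simp only [if_true]
      ring
    rw [integral_congr_ae (Eventually.of_forall this), int_cOm p r
      (fun w => H w / sin (w - p) ^ 2 * q (w - u))]
  have e2 : ∀ t, hh pl g (circC s p r) t * ∫ t', hh pl (ad g s (cM p r t)) (circC s p r) t' =
      cOm r t * (fun u => -(2 * π * I : ℂ)⁻¹ * ∮ w in C(p, r),
        H u / sin (u - p) ^ 2 * (H w / sin (w - p) ^ 2 * q (w - u))) (cM p r t) := by
    intro t
    rw [e1]
    show cOm r t * Wt pl g s (cM p r t) * _ = _
    rw [Wt_eq S.hp, ← hH]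
    show _ = cOm r t * (-(2 * π * I : ℂ)⁻¹ * ∮ w in C(p, r),
      H (cM p r t) / sin (cM p r t - p) ^ 2 *
        (H w / sin (w - p) ^ 2 * q (w - cM p r t)))
    rw [circleIntegral.integral_const_mul]
    ring
  rw [integral_congr_ae (Eventually.of_forall e2), int_cOm p r (fun u => -(2 * π * I : ℂ)⁻¹ *
    ∮ w in C(p, r), H u / sin (u - p) ^ 2 * (H w / sin (w - p) ^ 2 * q (w - u))),
    circleIntegral.integral_const_mul]
  -- splitting
  have e3 : (∮ u in C(p, r), ∮ w in C(p, r),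
      H u / sin (u - p) ^ 2 * (H w / sin (w - p) ^ 2 * q (w - u))) =
      ∮ u in C(p, r), ∮ w in C(p, r), ((H u * H w * kq (w - u) * (cos (u - p) ^ 2 / sin (u - p) ^ 2) +
        H u * H w * kq (w - u) * (cos (w - p) ^ 2 / sin (w - p) ^ 2)) +
        -2 * (H u * H w * kq (w - u) * (cos (u - p) / sin (u - p)) * (cos (w - p) / sin (w - p)))) := by
    refine circleIntegral.integral_congr S.hr.le fun u hu => ?_
    refine circleIntegral.integral_congr S.hr.le fun w hw => ?_
    have h1 := (S.sph hu).2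
    have h2 := (S.sph hw).2
    have h3 : sin (w - u) = sin (w - p) * cos (u - p) - cos (w - p) * sin (u - p) := by
      rw [← Complex.sin_sub]
      congr 1
      ring
    rw [q_eq, h3]
    field_simp
    ring
  have cH1 : ContinuousOn (fun x : ℂ × ℂ => H x.1) (Metric.sphere p |r| ×ˢ Metric.sphere p |r|) :=
    hHd.continuousOn.comp continuousOn_fst fun x hx => (S.sph (hrr ▸ hx.1)).1
  have cH2 : ContinuousOn (fun x : ℂ × ℂ => H x.2) (Metric.sphere p |r| ×ˢ Metric.sphere p |r|) :=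
    hHd.continuousOn.comp continuousOn_snd fun x hx => (S.sph (hrr ▸ hx.2)).1
  have cF : ContinuousOn (fun x : ℂ × ℂ => H x.1 * H x.2 * kq (x.2 - x.1))
      (Metric.sphere p |r| ×ˢ Metric.sphere p |r|) := (cH1.mul cH2).mul (kq_cont S)
  have c1 : ContinuousOn (fun x : ℂ × ℂ => H x.1 * H x.2 * kq (x.2 - x.1) *
      (cos (x.1 - p) ^ 2 / sin (x.1 - p) ^ 2)) (Metric.sphere p |r| ×ˢ Metric.sphere p |r|) :=
    cF.mul (ContinuousOn.div (by fun_prop) (by fun_prop) fun x hx =>
      pow_ne_zero 2 (S.sph (hrr ▸ hx.1)).2)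
  have c2 : ContinuousOn (fun x : ℂ × ℂ => H x.1 * H x.2 * kq (x.2 - x.1) *
      (cos (x.2 - p) ^ 2 / sin (x.2 - p) ^ 2)) (Metric.sphere p |r| ×ˢ Metric.sphere p |r|) :=
    cF.mul (ContinuousOn.div (by fun_prop) (by fun_prop) fun x hx =>
      pow_ne_zero 2 (S.sph (hrr ▸ hx.2)).2)
  have c3 : ContinuousOn (fun x : ℂ × ℂ => -2 * (H x.1 * H x.2 * kq (x.2 - x.1) *
      (cos (x.1 - p) / sin (x.1 - p)) * (cos (x.2 - p) / sin (x.2 - p))))
      (Metric.sphere p |r| ×ˢ Metric.sphere p |r|) :=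
    continuousOn_const.mul ((cF.mul (ContinuousOn.div (by fun_prop) (by fun_prop) fun x hx =>
      (S.sph (hrr ▸ hx.1)).2)).mul (ContinuousOn.div (by fun_prop) (by fun_prop) fun x hx =>
      (S.sph (hrr ▸ hx.2)).2))
  have dk1 : ∀ u ∈ OS σ τ, DifferentiableOn ℂ (fun w => kq (w - u)) (OS σ τ) := fun u hu w hw =>
    ((kq_diff (S.lt_l hw hu)).comp w (differentiableAt_id.sub_const u)).differentiableWithinAt
  have dk2 : ∀ w ∈ OS σ τ, DifferentiableOn ℂ (fun u => kq (w - u)) (OS σ τ) := fun w hw u hu =>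
    ((kq_diff (S.lt_l hw hu)).comp u (differentiableAt_id.const_sub w)).differentiableWithinAt
  have t1 : (∮ u in C(p, r), ∮ w in C(p, r),
      H u * H w * kq (w - u) * (cos (u - p) ^ 2 / sin (u - p) ^ 2)) = 0 := by
    rw [circleIntegral.integral_congr (g := fun _ => 0) S.hr.le]
    · simp [circleIntegral]
    · intro u hu
      have h1 := (S.sph hu).1
      exact circ_zero hU S.ball S.hr
        (((hHd.const_mul (H u)).mul (dk1 u h1)).mul_const _)
  have t2 : (∮ u in C(p, r), ∮ w in C(p, r),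
      H u * H w * kq (w - u) * (cos (w - p) ^ 2 / sin (w - p) ^ 2)) = 0 := by
    rw [circ_swap c2, circleIntegral.integral_congr (g := fun _ => 0) S.hr.le]
    · simp [circleIntegral]
    · intro w hw
      have h1 := (S.sph hw).1
      exact circ_zero hU S.ball S.hr
        (((hHd.mul_const (H w)).mul (dk2 w h1)).mul_const _)
  have t3 : (∮ u in C(p, r), ∮ w in C(p, r), -2 * (H u * H w * kq (w - u) *
      (cos (u - p) / sin (u - p)) * (cos (w - p) / sin (w - p)))) =
      -2 * (2 * π * I) ^ 2 * kq 0 * H p ^ 2 := by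
    have i1 : ∀ u ∈ Metric.sphere p r, (∮ w in C(p, r), -2 * (H u * H w * kq (w - u) *
        (cos (u - p) / sin (u - p)) * (cos (w - p) / sin (w - p)))) =
        (-2 * (2 * π * I) * H p * (H u * kq (p - u) * cos (u - p))) / sin (u - p) := by
      intro u hu
      obtain ⟨h1, h2⟩ := S.sph hu
      have := circ_one hU S.ball S.hr S.piU (F := fun w => -2 * (cos (u - p) / sin (u - p)) * H u *
        (H w * kq (w - u) * cos (w - p)))
        (((hHd.mul (dk1 u h1)).mul (Differentiable.differentiableOn (by fun_prop))).const_mul _)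
      rw [circleIntegral.integral_congr (g := fun w => -2 * (cos (u - p) / sin (u - p)) * H u *
        (H w * kq (w - u) * cos (w - p)) / sin (w - p)) S.hr.le (fun w _ => by
          simp only []
          ring), this, sub_self, cos_zero]
      field_simp
    rw [circleIntegral.integral_congr S.hr.le i1, circ_one hU S.ball S.hr S.piU
      (F := fun u => -2 * (2 * π * I) * H p * (H u * kq (p - u) * cos (u - p)))
      (((hHd.mul (dk2 p S.pOS)).mul (Differentiable.differentiableOn (by fun_prop))).const_mul _)]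
    rw [sub_self, cos_zero]
    ring
  rw [e3, circ_add (c1.add c2) c3, circ_add c1 c2, t1, t2, t3, kq_zero, hH, Hf_self]
  have h2 : (2 * π * I : ℂ) ≠ 0 := by
    have := Real.pi_ne_zero
    simp [I_ne_zero]
  generalize (2 * π * I : ℂ) = X at h2
  field_simp
  ring

end step

end NUP1S

end
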