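import Pool.Agent.NUP1S.Lg

/-!
# The logarithms of the kinds
-/

set_option autoImplicit false
set_option linter.unusedSectionVars false

noncomputable section

open Complex MeasureTheory

namespace NUP1S

open NUP1 NUP1.Bd
open NUCR (Fr lgA lgL lgR)

/-- row factors of the kinds -/
def FRk : Option O3 → ℂ → ℂ
  | none => Fr
  | some .L => Fr
  | some .S => fun w => Fr w * Fr (w - l)
  | some .T => fun w => Fr w * Fr (w - l)

/-- logarithms of the row factors of the kinds, cut height `tc` -/
def lgk (tc : ℝ) : Option O3 → ℂ → ℂ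
  | none => lgA
  | some .L => lgc tc
  | some .S => fun w => lgc tc w + lgc tc (w - l)
  | some .T => fun w => lgc tc w + lgc tc (w - l)

/-- positions of the strips with respect to the rows -/
structure RowOk (α bl bh sl sh tl th : ℝ) : Prop where
  a1 : 0 < α
  a2 : α < 2 * l
  b1 : -(3 * l) < bl
  b2 : bh < 0
  s1 : -(2 * l) < sl
  s2 : sh < 0
  t1 : sl ≤ tl
  t2 : th ≤ sh

section

variable {α bl bh sl sh tl th κ : ℝ}

theorem exp_lgk (h : RowOk α bl bh sl sh tl th) (tc : ℝ) (k : Option O3) {u : ℂ}
    (hu : u.re ∈ Set.Icc (lo4 α bl sl tl k) (lo4 α bh sh th k)) : exp (lgk tc k u) = FRk k u := by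
  have hl := lpos
  obtain ⟨a1, a2, b1, b2, s1, s2, t1, t2⟩ := h
  have key : ∀ w : ℂ, sl ≤ w.re → w.re ≤ sh →
      exp (lgc tc w + lgc tc (w - l)) = Fr w * Fr (w - l) := by
    intro w h1 h2
    have e1 : (w - (l : ℂ)).re = w.re - l := by simp
    rw [exp_add, exp_lgc tc (by linarith) (by linarith),
      exp_lgc tc (u := w - l) (by rw [e1]; linarith) (by rw [e1]; linarith)]
  rcases k with _ | k
  · obtain ⟨h1, h2⟩ := hu
    simp only [lo4] at h1 h2
    exact NUCR.exp_lgA (by linarith) (by rw [l_eq]; linarith)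
  · cases k
    · obtain ⟨h1, h2⟩ := hu
      simp only [lo4] at h1 h2
      exact exp_lgc tc (by linarith) (by linarith)
    · obtain ⟨h1, h2⟩ := hu
      simp only [lo4] at h1 h2
      exact key u h1 h2
    · obtain ⟨h1, h2⟩ := hu
      simp only [lo4] at h1 h2
      exact key u (t1.trans h1) (h2.trans t2)

theorem measurable_lgk (tc : ℝ) (k : Option O3) : Measurable (lgk tc k) := by
  have h2 : Measurable fun w : ℂ => lgc tc w + lgc tc (w - l) :=
    (measurable_lgc tc).add ((measurable_lgc tc).comp (measurable_id.sub_const _))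
  rcases k with _ | k
  · exact measurable_lgA
  · cases k
    · exact measurable_lgc tc
    · exact h2
    · exact h2

theorem bdOn_lgk (h : RowOk α bl bh sl sh tl th) (tc : ℝ) (k : Option O3) :
    ∀ d ∈ Set.Icc (lo4 α bl sl tl k) (lo4 α bh sh th k), BdOn {d} (lgk tc k) := by
  have hl := lpos
  obtain ⟨a1, a2, b1, b2, s1, s2, t1, t2⟩ := h
  have key : ∀ d ∈ Set.Icc sl sh, BdOn {d} fun w => lgc tc w + lgc tc (w - l) := by
    intro d hd
    obtain ⟨B, hB⟩ := bdOn_lgc tc (d := d) (by linarith [hd.1]) (by linarith [hd.2])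
    obtain ⟨B', hB'⟩ := bdOn_lgc tc (d := d - l) (by linarith [hd.1]) (by linarith [hd.2])
    refine ⟨B + B', fun z hz => (norm_add_le _ _).trans (add_le_add (hB z hz) (hB' _ ?_))⟩
    have e1 : (z - (l : ℂ)).re = z.re - l := by simp
    rw [e1]
    have : z.re = d := hz
    simp [this]
  intro d hd
  rcases k with _ | k
  · simp only [lo4] at hd
    exact bdOn_lgA (by linarith [hd.1]) (by linarith [hd.2])
  · cases k
    · simp only [lo4] at hd
      exact bdOn_lgc tc (by linarith [hd.1]) (by linarith [hd.2])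
    · exact key d hd
    · exact key d (Set.Icc_subset_Icc t1 t2 hd)

/-- **The conditions for the complex number of rows.** -/
theorem pw_lgk (h : RowOk α bl bh sl sh tl th) (tc : ℝ) {X : Option O3 → ℂ → ℂ}
    (hm : ∀ k, Measurable (X k))
    (hd : ∀ k, DecOn κ (Set.Icc (lo4 α bl sl tl k) (lo4 α bh sh th k)) (X k)) :
    Pw α bl bh sl sh tl th κ X (lgk tc) where
  meas := hm
  dec k _ hd' := (hd k).mono (Set.singleton_subset_iff.2 hd')
  lmeas := measurable_lgk tc
  lbd := bdOn_lgk h tc

/-- at an integer number of rows: powers of the row factor -/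
theorem Xp_nat (h : RowOk α bl bh sl sh tl th) (tc : ℝ) (X : Option O3 → ℂ → ℂ) (J : ℕ)
    (k : Option O3) {u : ℂ} (hu : u.re ∈ Set.Icc (lo4 α bl sl tl k) (lo4 α bh sh th k)) :
    Xp X (lgk tc) J k u = X k u * FRk k u ^ J := by
  unfold Xp
  rw [exp_nat_mul, exp_lgk h tc k hu]

end

/-! ## equal one body functions on the lines -/

theorem Fg_congr {ι : Type*} [Fintype ι] {o : ι → CO} {h h' : ι → ℂ → ℂ} {z : ι → ℂ}
    (e : ∀ i, h i (z i) = h' i (z i)) : Fg o h z = Fg o h' z := by
  unfold Fg
  congr 1
  exact Finset.prod_congr rfl fun i _ => e i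

/-- the sum over the objects depends only on the values on the lines -/
theorem Zobj_congr {X Y X' Y' : Option O3 → ℂ → ℂ} {α bl bh sl sh tl th : ℝ}
    {lnX : Lns} {lnY : Lns'} (hln : LnOk α bl bh sl sh tl th lnX lnY)
    (hX : ∀ k u, u.re ∈ Set.Icc (lo4 α bl sl tl k) (lo4 α bh sh th k) → X k u = X' k u)
    (hY : ∀ k u, u.re ∈ Set.Icc (lo4 α bl sl tl k) (lo4 α bh sh th k) → Y k u = Y' k u)
    (n : ℕ) : Zobj X Y α n lnX lnY = Zobj X' Y' α n lnX lnY := by
  unfold Zobj
  refine Finset.sum_congr rfl fun p' _ => Finset.sum_congr rfl fun p _ => ?_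
  congr 1
  refine Finset.sum_congr rfl fun k' _ => Finset.sum_congr rfl fun k _ => ?_
  split_ifs with hc
  · unfold term gas Ig
    congr 1
    refine integral_congr_ae (Filter.Eventually.of_forall fun t => ?_)
    simp only []
    congr 1
    · refine Fg_congr fun i => ?_
      rcases i with i | i
      · exact hX _ _ (by simpa using hln.X p p' k k' i)
      · exact hY _ _ (by simpa using hln.Y p p' k k' i)
    · congr 1
      refine integral_congr_ae (Filter.Eventually.of_forall fun v => ?_)
      simp only []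
      refine Fg_congr fun i => ?_
      rcases i with i | i
      · simp only [Sum.elim_inl, fld]
        rw [hX none _ (by simp [lo4])]
      · simp only [Sum.elim_inr, fld]
        rw [hY none _ (by simp [lo4])]
  · rfl

end NUP1S

end
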