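import Pool.Agent.NUP1S.Gen

/-!
# The factor of a pair of rows: closed form, values for offsets in `(-1, 1)`
-/

set_option autoImplicit false
set_option linter.unusedSectionVars false

noncomputable section

open Complex MeasureTheory

namespace NUP1S

open NUP1 NUP1.Bd

/-- the factor of a pair of rows on a quantum -/
def FR (u : ℂ) : ℂ := -(sin (u + 3 * l)) ^ 2 / (sin u * sin (u - 2 * l))

/-- the constant `cos 2l` -/
theorem cos_two_l : Real.cos (2 * l) = Real.cos (Real.pi / 4) := by
  congr 1
  unfold l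
  ring

theorem cos_two_l_pos : 0 < Real.cos (2 * l) := by
  rw [cos_two_l, Real.cos_pi_div_four]
  positivity

theorem FR_eq (u : ℂ) :
    FR u = (1 + cos (2 * (u - l))) / (cos (2 * (u - l)) - Real.cos (2 * l)) := by
  have h8 : (8 : ℂ) * l = Real.pi := by
    unfold l
    push_cast
    ring
  have e1 : 2 * sin (u + 3 * l) ^ 2 = 1 + cos (2 * (u - l)) := by
    have h1 := Complex.cos_sq' (u + 3 * l)
    have h2 : cos (2 * (u + 3 * l)) = -cos (2 * (u - l)) := by
      rw [show 2 * (u + 3 * l) = 2 * (u - l) + Real.pi by rw [← h8]; ring, Complex.cos_add_pi]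
    have h3 := Complex.cos_two_mul (u + 3 * l)
    rw [h2, h1] at h3
    linear_combination h3
  have e2 : 2 * (sin u * sin (u - 2 * l)) = Real.cos (2 * l) - cos (2 * (u - l)) := by
    have h1 := Complex.cos_sub u (u - 2 * l)
    have h2 := Complex.cos_add u (u - 2 * l)
    rw [show u - (u - 2 * l) = 2 * l by ring] at h1
    rw [show u + (u - 2 * l) = 2 * (u - l) by ring] at h2
    push_cast
    rw [h1, h2]
    ring
  unfold FR
  rw [← e1]
  have e3 : cos (2 * (u - l)) - Real.cos (2 * l) = -(2 * (sin u * sin (u - 2 * l))) := by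
    rw [e2]
    ring
  rw [e3, neg_div, mul_comm (2 : ℂ) (_ ^ 2), mul_comm (2 : ℂ) (sin u * _), div_neg,
    mul_div_mul_right _ _ two_ne_zero]

theorem FR_slit {u : ℂ} (h0 : 0 < u.re) (h2 : u.re < 2 * l) : FR u ∈ slitPlane := by
  have hl := Bd.l_pos
  have hpi := Bd.pi_eq
  set c0 : ℝ := Real.cos (2 * l) with hc0
  have hc0p : 0 < c0 := cos_two_l_pos
  set a : ℝ := 2 * (u.re - l) with ha
  set b : ℝ := 2 * u.im with hb
  have hC : cos (2 * (u - l)) = (Real.cos a * Real.cosh b : ℝ) -
      (Real.sin a * Real.sinh b : ℝ) * I := by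
    have e1 : 2 * (u - l) = (a : ℂ) + b * I := by
      apply Complex.ext <;> simp [ha, hb]
    rw [e1, Complex.cos_add, Complex.cos_mul_I, Complex.sin_mul_I]
    push_cast
    ring
  have hre : (cos (2 * (u - l))).re = Real.cos a * Real.cosh b := by
    rw [hC]
    simp only [sub_re, ofReal_re, mul_re, ofReal_im, I_re, I_im, mul_zero, mul_one, sub_zero]
  have him : (cos (2 * (u - l))).im = -(Real.sin a * Real.sinh b) := by
    rw [hC]
    simp only [sub_im, ofReal_im, mul_im, ofReal_re, I_re, I_im, mul_zero, mul_one, zero_sub,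
      add_zero]
  have ha1 : |a| < 2 * l := by
    rw [abs_lt, ha]
    constructor <;> linarith
  set w : ℂ := cos (2 * (u - l)) - (c0 : ℂ) with hw
  have hwre : w.re = Real.cos a * Real.cosh b - c0 := by
    rw [hw, sub_re, hre, ofReal_re]
  have hwim : w.im = -(Real.sin a * Real.sinh b) := by
    rw [hw, sub_im, him, ofReal_im, sub_zero]
  have hcos : c0 < Real.cos a := by
    rw [hc0, ← Real.cos_abs a]
    exact Real.cos_lt_cos_of_nonneg_of_le_pi (abs_nonneg a) (by linarith) ha1
  have hwpos : 0 < w.re := by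
    rw [hwre]
    have h1 := Real.one_le_cosh b
    nlinarith
  have hw0 : w ≠ 0 := fun h => by
    rw [h, zero_re] at hwpos
    exact lt_irrefl _ hwpos
  have hF : FR u = 1 + ((1 + c0 : ℝ) : ℂ) * w⁻¹ := by
    rw [FR_eq, ← hc0, ← hw]
    field_simp
    rw [hw]
    push_cast
    ring
  have hns : 0 < normSq w := normSq_pos.2 hw0
  rw [mem_slitPlane_iff]
  left
  rw [hF, add_re, one_re, mul_re, ofReal_re, ofReal_im, zero_mul, sub_zero, inv_re]
  positivity

end NUP1S

end
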