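import Pool.Agent.NUP1S.Simple3

/-!
# Marked strings: the satellite sits exactly at the pole

`M i` = marked strings; the one body function vanishes at the double pole of a marked string, which
therefore is a simple pole of the field: at most one satellite, exactly at the pole.
-/

set_option autoImplicit false
set_option linter.unusedSectionVars false

noncomputable section

open Complex MeasureTheory NUP1 Set Filter Topology
open scoped Real ENNReal

namespace NUP1S

variable {pl : Bool → Finset ℂ} {κ a b : ℝ}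

section several
variable {ε : Type*} {E : SD ε} {υ : ε → Fin 3}

/-- **quanta at simple poles**, conditions only at the occupied poles -/
theorem SD.eval0' [DecidableEq ε] (G : Geo pl κ a b) {l : List ε} (h2 : ∀ i ∈ l, υ i ≠ 2)
    (hD : ∀ i ∈ l, υ i ≠ 0 → E.CondS pl κ a b i) {M : List Ct} (hM : ∀ c ∈ M, OkC pl κ a b c) :
    ∀ g : Bool → ℂ → ℂ, Reg pl κ a b (chL (E.cL υ l) + chL M) g →
    (∀ i ∈ l, υ i ≠ 0 → g (E.sp i) (E.p i) = 0) →
    NI pl (E.cL υ l ++ M) g = SD.W0 E υ pl l g * NI pl M (E.a0 υ l g) ∧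
      Reg pl κ a b (chL M) (E.a0 υ l g) := by
  induction l with
  | nil =>
    intro g hg _
    have e : chL (E.cL υ ([] : List ε)) = 0 := rfl
    rw [e, zero_add] at hg
    refine ⟨?_, hg⟩
    show NI pl M g = 1 * NI pl M g
    rw [one_mul]
  | cons i l ih =>
    intro g hg h0
    have hDl : ∀ j ∈ l, υ j ≠ 0 → E.CondS pl κ a b j := fun j hj =>
      hD j (List.mem_cons_of_mem _ hj)
    have h2l : ∀ j ∈ l, υ j ≠ 2 := fun j hj => h2 j (List.mem_cons_of_mem _ hj)
    have okl : ∀ z ∈ E.cL υ l ++ M, OkC pl κ a b z := by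
      intro z hz
      rcases List.mem_append.1 hz with hz | hz
      · unfold SD.cL at hz
        obtain ⟨j, hj, hz⟩ := List.mem_flatMap.1 hz
        obtain ⟨hn, hz⟩ := List.mem_replicate.1 hz
        rw [hz]
        refine (hDl j hj ?_).ok
        intro h0
        rw [h0] at hn
        exact hn rfl
      · exact hM z hz
    have h0' : ∀ j ∈ l, υ j ≠ 0 → (E.ak0 υ g i) (E.sp j) (E.p j) = 0 := fun j hj hj' => by
      show g (E.sp j) (E.p j) * _ = 0
      rw [h0 j (List.mem_cons_of_mem _ hj) hj', zero_mul]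
    rw [SD.cL_cons', chL_append, chL_rep] at hg
    rw [SD.cL_cons']
    rcases fin3_cases (υ i) with h | h | h
    · have e : E.ak0 υ g i = g := by
        funext s u
        simp [SD.ak0, h]
      have e2 : E.om0 υ pl g i = 1 := by
        unfold SD.om0
        rw [if_neg (by rw [h]; decide)]
      have := ih h2l hDl (E.ak0 υ g i) (by rw [e]; rw [h] at hg; simpa using hg) h0'
      unfold SD.W0 SD.a0
      rw [e2, one_mul, h]
      rw [e] at this ⊢
      exact this
    · have hi0 : υ i ≠ 0 := by rw [h]; decide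
      have hc := hD i (by simp) hi0
      have e : E.ak0 υ g i = ad g (E.sp i) (E.p i) := by
        funext s u
        simp [SD.ak0, ad, h]
      have e2 : E.om0 υ pl g i = -rs pl g (E.sp i) (E.p i) := by
        unfold SD.om0
        rw [if_pos h]
      have hg1 : Reg pl κ a b (chL (E.ci i :: (E.cL υ l ++ M))) g := by
        rw [chL_cons, chL_append]
        rw [h] at hg
        have e3 : (E.ci i).sp = E.sp i := rfl
        rw [e3]
        convert hg using 1
        simp
        ring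
      have key := NI_simple G hc.ok hc.mem hc.smp (E.cL υ l ++ M) okl g hg1
        (h0 i (by simp) hi0)
      have hg2 : Reg pl κ a b (chL (E.cL υ l) + chL M) (E.ak0 υ g i) := by
        have hp := G.pin _ _ hc.mem
        have := hg1.ad G (E.sp i) hp.1 hp.2
        rw [chL_cons, chL_append] at this
        have e3 : (E.ci i).sp = E.sp i := rfl
        rw [e3] at this
        rw [e]
        convert this using 1
        ring
      obtain ⟨ih1, ih2⟩ := ih h2l hDl (E.ak0 υ g i) hg2 h0'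
      refine ⟨?_, ih2⟩
      unfold SD.W0 SD.a0
      rw [e2, h]
      show NI pl (E.ci i :: (E.cL υ l ++ M)) g = _
      rw [key]
      show -rs pl g (E.sp i) (E.p i) * NI pl (E.cL υ l ++ M) (ad g (E.sp i) (E.p i)) = _
      rw [← e, ih1]
      ring
    · exact absurd h (h2 i (by simp))

/-- no pair at a simple pole -/
theorem SD.eval0_two' [DecidableEq ε] (G : Geo pl κ a b) {l : List ε} {i : ε} (hi : i ∈ l)
    (h2 : υ i = 2) (hc : E.CondS pl κ a b i) (hD : ∀ i ∈ l, υ i ≠ 0 → OkC pl κ a b (E.ci i))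
    {M : List Ct} (hM : ∀ c ∈ M, OkC pl κ a b c) {g : Bool → ℂ → ℂ}
    (hg : Reg pl κ a b (chL (E.cL υ l) + chL M) g) (h0 : g (E.sp i) (E.p i) = 0) :
    NI pl (E.cL υ l ++ M) g = 0 := by
  obtain ⟨l1, l2, rfl⟩ := List.append_of_mem hi
  have okc : ∀ z ∈ E.cL υ (l1 ++ i :: l2), OkC pl κ a b z := by
    intro z hz
    unfold SD.cL at hz
    obtain ⟨j, hj, hz⟩ := List.mem_flatMap.1 hz
    obtain ⟨hn, hz⟩ := List.mem_replicate.1 hz
    rw [hz]
    refine hD j hj ?_
    intro h0
    rw [h0] at hn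
    exact hn rfl
  have e : E.cL υ (l1 ++ i :: l2) = E.cL υ l1 ++ ([E.ci i, E.ci i] ++ E.cL υ l2) := by
    unfold SD.cL
    rw [List.flatMap_append, List.flatMap_cons, h2]
    rfl
  have hp : (E.cL υ (l1 ++ i :: l2) ++ M).Perm
      (E.ci i :: E.ci i :: (E.cL υ l1 ++ (E.cL υ l2 ++ M))) := by
    rw [e]
    have h1 : (E.cL υ l1 ++ ([E.ci i, E.ci i] ++ E.cL υ l2)).Perm
        ([E.ci i, E.ci i] ++ (E.cL υ l1 ++ E.cL υ l2)) := by
      rw [← List.append_assoc, ← List.append_assoc]
      exact List.perm_append_comm.append_right _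
    refine (h1.append_right M).trans ?_
    rw [List.append_assoc, List.append_assoc]
    exact List.Perm.refl _
  have okall : ∀ z ∈ E.cL υ (l1 ++ i :: l2) ++ M, OkC pl κ a b z := fun z hz => by
    rcases List.mem_append.1 hz with hz | hz
    · exact okc z hz
    · exact hM z hz
  have hg1 : Reg pl κ a b (chL (E.cL υ (l1 ++ i :: l2) ++ M)) g := by
    rw [chL_append]
    exact hg
  rw [NI_perm G hp okall g hg1, NI_pair G hc.ok hc.mem hc.pair (E.cL υ l1 ++ (E.cL υ l2 ++ M))
    (fun z hz => okall z (hp.mem_iff.2 (List.mem_cons_of_mem _ (List.mem_cons_of_mem _ hz)))) g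
    (by rw [← chL_perm hp]; exact hg1)]
  have hz : rg pl g (E.ci i).sp (E.p i) = 0 := by
    show g (E.sp i) (E.p i) / _ = 0
    rw [h0, zero_div]
  rw [hz]
  ring

/-- the recursion as a product -/
theorem SD.W0_ofFn' {n : ℕ} : ∀ (v : Fin n → ε) (g : Bool → ℂ → ℂ),
    (∀ k, υ (v k) ≠ 0 → g (E.sp (v k)) (E.p (v k)) = 0) →
    (∀ k, υ (v k) ≠ 0 → DifferentiableAt ℂ (g (E.sp (v k))) (E.p (v k))) →
    (∀ k k', υ (v k) ≠ 0 → υ (v k') ≠ 0 → |(E.p (v k) - E.p (v k')).re| < l) →
    (∀ k, υ (v k) ≠ 2) →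
    SD.W0 E υ pl (List.ofFn v) g = (∏ k, E.om0 υ pl g (v k)) *
      Grand.P fun k k' => E.pr0 υ (v k) (v k') := by
  induction n with
  | zero =>
    intro v g _ _ _ _
    simp [SD.W0, Grand.P_zero]
  | succ n ih =>
    intro v g h0 hd hw h2
    rw [List.ofFn_succ]
    show E.om0 υ pl g (v 0) *
      SD.W0 E υ pl (List.ofFn fun i => v i.succ) (E.ak0 υ g (v 0)) = _
    have hak0 : υ (v 0) = 0 → E.ak0 υ g (v 0) = g := fun h' => by
      funext s u
      simp [SD.ak0, h']
    rw [ih (fun i => v i.succ) (E.ak0 υ g (v 0))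
      (fun k hk => by
        show g _ _ * _ = 0
        rw [h0 _ hk, zero_mul])
      (fun k hk => by
        by_cases h' : υ (v 0) = 0
        · rw [hak0 h']
          exact hd _ hk
        · exact (hd k.succ hk).mul ((DifferentiableAt.comp
            (g := PP (E.sp (v k.succ)) (E.sp (v 0)))
            (f := fun u => u - E.p (v 0)) _ (PP_diff _ _ (hw k.succ 0 hk h'))
            (differentiableAt_id.sub_const _)).pow _))
      (fun k k' => hw _ _) (fun k => h2 _),
      Grand.P_succAbove (fun k k' => E.pr0 υ (v k) (v k')) (fun k k' => SD.pr0_symm _ _) 0,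
      Fin.prod_univ_succ]
    have e : ∀ k : Fin n, E.om0 υ pl (E.ak0 υ g (v 0)) (v k.succ) =
        E.om0 υ pl g (v k.succ) * E.pr0 υ (v 0) (v k.succ) := fun k => by
      rw [SD.pr0_symm]
      unfold SD.om0 SD.pr0
      rcases fin3_cases (υ (v k.succ)) with h | h | h
      · rw [h, if_neg (by decide), if_neg (by decide)]
        simp
      · have hk : υ (v k.succ) ≠ 0 := by rw [h]; decide
        rw [h, if_pos rfl, if_pos rfl]
        rcases fin3_cases (υ (v 0)) with h' | h' | h'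
        · rw [hak0 h', h']
          simp
        · have e3 : E.ak0 υ g (v 0) = ad g (E.sp (v 0)) (E.p (v 0)) := by
            funext s u
            simp [SD.ak0, ad, h']
          rw [e3, h', rs_ad (h0 _ hk) (hd _ hk) (hw _ _ hk (by rw [h']; decide))]
          simp
        · exact absurd h' (h2 0)
      · exact absurd h (h2 _)
    simp only [Fin.zero_succAbove, e, Finset.prod_mul_distrib]
    have e4 : ∏ x : Fin n, E.pr0 υ (v x.succ) (v 0) = ∏ x : Fin n, E.pr0 υ (v 0) (v x.succ) :=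
      Finset.prod_congr rfl fun x _ => SD.pr0_symm _ _
    rw [← e4]
    ring

variable [Fintype ε] [DecidableEq ε]

theorem SD.W0_univ' {g : Bool → ℂ → ℂ} (h0 : ∀ i, υ i ≠ 0 → g (E.sp i) (E.p i) = 0)
    (hd : ∀ i, υ i ≠ 0 → DifferentiableAt ℂ (g (E.sp i)) (E.p i))
    (hw : ∀ i j, υ i ≠ 0 → υ j ≠ 0 → |(E.p i - E.p j).re| < l) (h2 : ∀ i, υ i ≠ 2)
    (e : Fin (Fintype.card ε) ≃ ε) :
    SD.W0 E υ pl (List.ofFn fun k => e k) g =
      (∏ i, E.om0 υ pl g i) * PU fun i j => E.pr0 υ i j := by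
  rw [SD.W0_ofFn' _ _ (fun k => h0 _) (fun k => hd _) (fun k k' => hw _ _) (fun k => h2 _),
    ← PU_fin (fun k k' => SD.pr0_symm _ _), PU_equiv e (fun i j => SD.pr0_symm i j),
    e.prod_comp fun i => E.om0 υ pl g i]

end several

/-! ## marked poles -/

section marked
variable {ι : Type*} [Fintype ι] [DecidableEq ι] {D : SD ι} {act : ι → Prop} [DecidablePred act]
  {M : ι → Prop} [DecidablePred M] {x y : ℝ}

/-- radius zero at the marked poles -/
def SD.z0 (D : SD ι) (M : ι → Prop) [DecidablePred M] : SD ι :=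
  ⟨D.sp, D.p, fun i => if M i then 0 else D.r i⟩

/-- the marked part -/
def tM (M : ι → Prop) [DecidablePred M] (τ : ι → Fin 3) (i : ι) : Fin 3 := if M i then τ i else 0

/-- the rest -/
def tR (M : ι → Prop) [DecidablePred M] (τ : ι → Fin 3) (i : ι) : Fin 3 := if M i then 0 else τ i

theorem cL_split (τ : ι → Fin 3) (L : List ι) :
    (D.cL τ L).Perm (D.cL (tM M τ) L ++ D.cL (tR M τ) L) := by
  induction L with
  | nil => exact List.Perm.refl _
  | cons i L ih =>
    rw [SD.cL_cons', SD.cL_cons', SD.cL_cons']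
    by_cases h : M i
    · have e1 : tM M τ i = τ i := if_pos h
      have e2 : tR M τ i = 0 := if_pos h
      rw [e1, e2, List.append_assoc]
      exact List.Perm.append_left _ ih
    · have e1 : tM M τ i = 0 := if_neg h
      have e2 : tR M τ i = τ i := if_neg h
      rw [e1, e2]
      refine (List.Perm.append_left _ ih).trans ?_
      show (List.replicate (τ i) (D.ci i) ++ (D.cL (tM M τ) L ++ D.cL (tR M τ) L)).Perm
        (D.cL (tM M τ) L ++ (List.replicate (τ i) (D.ci i) ++ D.cL (tR M τ) L))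
      rw [← List.append_assoc, ← List.append_assoc]
      exact List.perm_append_comm.append_right _

theorem fS_split (τ : ι → Fin 3) (L : List ι) (h : ∀ i, M i → τ i ≠ 2) :
    fS L τ = fS L (tR M τ) := by
  unfold fS
  congr 1
  refine List.map_congr_left fun i _ => ?_
  by_cases hi : M i
  · have e2 : tR M τ i = 0 := if_pos hi
    rw [e2]
    rcases fin3_cases (τ i) with h0 | h0 | h0
    · rw [h0]
    · rw [h0]
      simp
    · exact absurd h0 (h i hi)
  · have e2 : tR M τ i = τ i := if_neg hi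
    rw [e2]

/-- one body weight of the satellites, marked poles included -/
def SD.omM (D : SD ι) (M : ι → Prop) [DecidablePred M] (τ : ι → Fin 3) (pl : Bool → Finset ℂ)
    (g : Bool → ℂ → ℂ) (θ : ι → ℝ) (i : ι) : ℂ :=
  if M i then (if τ i = 1 then -rs pl g (D.sp i) (D.p i) else 1) else D.om τ pl g θ i

/-- weight of all satellites -/
def SD.SWM (D : SD ι) (M : ι → Prop) [DecidablePred M] (τ : ι → Fin 3) (pl : Bool → Finset ℂ)
    (g : Bool → ℂ → ℂ) (θ : ι → ℝ) : ℂ :=
  (∏ i, D.omM M τ pl g θ i) * PU fun i j => (D.z0 M).pr τ θ i j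

theorem cM_zero (p : ℂ) (t : ℝ) : cM p 0 t = p := by simp [cM]

theorem z0_c_mark {τ : ι → Fin 3} (θ : ι → ℝ) {i : ι} (h : M i) :
    (D.z0 M).c τ θ i = D.p i := by
  unfold SD.c SD.z0
  simp only [if_pos h, cM_zero]
  split_ifs <;> rfl

theorem z0_c_rest {τ : ι → Fin 3} (θ : ι → ℝ) {i : ι} (h : ¬ M i) :
    (D.z0 M).c τ θ i = D.c (tR M τ) θ i := by
  have e2 : tR M τ i = τ i := if_neg h
  unfold SD.c SD.z0
  rw [e2]
  simp only [if_neg h]

/-- interaction of the satellites `i` with the marked quanta `j` -/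
def gM (D : SD ι) (M : ι → Prop) [DecidablePred M] (τ : ι → Fin 3) (θ : ι → ℝ) (i j : ι) : ℂ :=
  PP (D.sp i) (D.sp j) (D.c (tR M τ) θ i - D.p j) ^ ((tR M τ i : ℕ) * (tM M τ j : ℕ))

theorem z0_pr (τ : ι → Fin 3) (θ : ι → ℝ) (i j : ι) : (D.z0 M).pr τ θ i j =
    D.pr0 (tM M τ) i j * D.pr (tR M τ) θ i j * (gM D M τ θ i j * gM D M τ θ j i) := by
  have hs : ∀ s s' (z w : ℂ), PP s s' (z - w) = PP s' s (w - z) := fun s s' z w => by
    rw [PP_comm, ← PP_neg, neg_sub]
  unfold SD.pr SD.pr0 gM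
  by_cases hi : M i <;> by_cases hj : M j
  · have a1 : tM M τ i = τ i := if_pos hi
    have a2 : tR M τ i = 0 := if_pos hi
    have b1 : tM M τ j = τ j := if_pos hj
    have b2 : tR M τ j = 0 := if_pos hj
    rw [z0_c_mark θ hi, z0_c_mark θ hj, a1, a2, b1, b2]
    simp [SD.z0]
  · have a1 : tM M τ i = τ i := if_pos hi
    have a2 : tR M τ i = 0 := if_pos hi
    have b1 : tM M τ j = 0 := if_neg hj
    have b2 : tR M τ j = τ j := if_neg hj
    rw [z0_c_mark θ hi, z0_c_rest θ hj, a1, a2, b1, b2, hs (D.sp j)]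
    simp [SD.z0, mul_comm]
  · have a1 : tM M τ i = 0 := if_neg hi
    have a2 : tR M τ i = τ i := if_neg hi
    have b1 : tM M τ j = τ j := if_pos hj
    have b2 : tR M τ j = 0 := if_pos hj
    rw [z0_c_rest θ hi, z0_c_mark θ hj, a1, a2, b1, b2]
    simp [SD.z0]
  · have a1 : tM M τ i = 0 := if_neg hi
    have a2 : tR M τ i = τ i := if_neg hi
    have b1 : tM M τ j = 0 := if_neg hj
    have b2 : tR M τ j = τ j := if_neg hj
    rw [z0_c_rest θ hi, z0_c_rest θ hj, a1, a2, b1, b2]
    simp [SD.z0]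

/-- one body weights in the presence of the marked quanta -/
theorem om_aU (τ : ι → Fin 3) (θ : ι → ℝ) (g : Bool → ℂ → ℂ) (i : ι) :
    D.om (tR M τ) pl (D.aU (tM M τ) g) θ i =
      D.om (tR M τ) pl g θ i * ∏ j, gM D M τ θ i j := by
  unfold SD.om gM
  rcases fin3_cases (tR M τ i) with h | h | h
  · simp [h]
  · have h0 : tR M τ i ≠ 0 := by rw [h]; decide
    rw [if_neg h0, if_neg h0, if_pos h, if_pos h]
    have hc : D.c (tR M τ) θ i = cM (D.p i) (D.r i) (θ i) := by
      unfold SD.c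
      rw [if_pos h]
    rw [hc]
    unfold Wt SD.aU
    rw [h]
    simp only [Fin.val_one, one_mul]
    ring
  · have h0 : tR M τ i ≠ 0 := by rw [h]; decide
    have h1 : tR M τ i ≠ 1 := by rw [h]; decide
    rw [if_neg h0, if_neg h0, if_neg h1, if_neg h1]
    have hc : D.c (tR M τ) θ i = D.p i := by
      unfold SD.c
      rw [if_neg h1]
    rw [hc, h]
    have e : rg pl (D.aU (tM M τ) g) (D.sp i) (D.p i) =
        rg pl g (D.sp i) (D.p i) *
          ∏ j, PP (D.sp i) (D.sp j) (D.p i - D.p j) ^ (tM M τ j : ℕ) := by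
      unfold rg SD.aU
      ring
    have e2 : ∏ j, PP (D.sp i) (D.sp j) (D.p i - D.p j) ^ ((((2 : Fin 3) : ℕ)) * (tM M τ j : ℕ)) =
        (∏ j, PP (D.sp i) (D.sp j) (D.p i - D.p j) ^ (tM M τ j : ℕ)) ^ 2 := by
      rw [← Finset.prod_pow]
      refine Finset.prod_congr rfl fun j _ => ?_
      rw [Fin.val_two, mul_comm, pow_mul]
    rw [e, e2]
    ring

theorem SWM_eq (τ : ι → Fin 3) (θ : ι → ℝ) (g : Bool → ℂ → ℂ) :
    ((∏ i, D.om0 (tM M τ) pl g i) * PU fun i j => D.pr0 (tM M τ) i j) *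
      D.SW (tR M τ) pl (D.aU (tM M τ) g) θ = D.SWM M τ pl g θ := by
  classical
  unfold SD.SW SD.SWM
  have e1 : (PU fun i j => (D.z0 M).pr τ θ i j) =
      PU (fun i j => D.pr0 (tM M τ) i j) * PU (fun i j => D.pr (tR M τ) θ i j) *
        ∏ i, ∏ j, gM D M τ θ i j := by
    rw [PU_congr' fun i j => z0_pr (D := D) (M := M) τ θ i j, Ab.PU_mul, Ab.PU_mul, Ab.PU_two]
    congr 1
    refine Finset.prod_congr rfl fun i _ => ?_
    have hii : gM D M τ θ i i = 1 := by
      unfold gM tR tM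
      by_cases h : M i <;> simp [h]
    rw [← Finset.mul_prod_erase Finset.univ _ (Finset.mem_univ i), hii, one_mul]
    refine Finset.prod_congr ?_ fun _ _ => rfl
    ext j
    simp
  have e2 : ∏ i, D.omM M τ pl g θ i = (∏ i, D.om0 (tM M τ) pl g i) *
      ∏ i, D.om (tR M τ) pl g θ i := by
    rw [← Finset.prod_mul_distrib]
    refine Finset.prod_congr rfl fun i _ => ?_
    unfold SD.omM SD.om0 SD.om
    by_cases h : M i
    · have a1 : tM M τ i = τ i := if_pos h
      have a2 : tR M τ i = 0 := if_pos h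
      rw [if_pos h, a1, a2, if_pos rfl, mul_one]
    · have a1 : tM M τ i = 0 := if_neg h
      have a2 : tR M τ i = τ i := if_neg h
      rw [if_neg h, a1, a2, if_neg (show ¬ ((0 : Fin 3) = 1) by decide), one_mul]
  rw [e1, e2, Finset.prod_congr rfl fun i _ => om_aU (D := D) (M := M) (pl := pl) τ θ g i,
    Finset.prod_mul_distrib]
  ring

theorem aS_aU (τ : ι → Fin 3) (θ : ι → ℝ) (g : Bool → ℂ → ℂ) :
    D.aS (tR M τ) (D.aU (tM M τ) g) θ = (D.z0 M).aS τ g θ := by
  funext s u
  unfold SD.aS SD.aU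
  rw [mul_assoc, ← Finset.prod_mul_distrib]
  congr 1
  refine Finset.prod_congr rfl fun i _ => ?_
  by_cases h : M i
  · have a1 : tM M τ i = τ i := if_pos h
    have a2 : tR M τ i = 0 := if_pos h
    rw [z0_c_mark θ h, a1, a2]
    simp [SD.z0]
  · have a1 : tM M τ i = 0 := if_neg h
    have a2 : tR M τ i = τ i := if_neg h
    rw [z0_c_rest θ h, a1, a2]
    simp [SD.z0]

/-- **Stage 3, two species, marked poles.** -/
theorem SD.Geom.expandM (h : D.Geom act x y) (hκ : 0 < κ) (a a' : ℕ) {g : Bool → ℂ → ℂ}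
    (hg : Reg (D.pl act) κ x y (a * sg true + a' * sg false) g) (hM : ∀ i, M i → act i)
    (h0 : ∀ i, M i → g (D.sp i) (D.p i) = 0) :
    ZZ (D.pl act) x a a' g = ∑ τ : ι → Fin 3,
      if (∀ i, τ i ≠ 0 → act i) ∧ (∀ i, M i → τ i ≠ 2) ∧ D.nn true τ ≤ a ∧ D.nn false τ ≤ a' then
        ∫ θ : ι → ℝ, D.SWM M τ (D.pl act) g θ *
          ZZ (D.pl act) y (a - D.nn true τ) (a' - D.nn false τ) ((D.z0 M).aS τ g θ)
          ∂(Measure.pi fun _ => mu1)
      else 0 := by
  classical
  have G := h.geo hκ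
  set pl := D.pl act with hpl
  let e : Fin (Fintype.card ι) ≃ ι := (Fintype.equivFin ι).symm
  set L : List ι := List.ofFn fun k => e k with hL
  have hnd : L.Nodup := List.nodup_ofFn.2 e.injective
  have hun : ∀ i, i ∈ L := fun j => (List.mem_ofFn' _ _).2 ⟨e.symm j, e.apply_symm_apply j⟩
  rw [h.expand0 hκ a a' hg hnd hun]
  refine Finset.sum_congr rfl fun τ _ => ?_
  by_cases hc : (∀ i, τ i ≠ 0 → act i) ∧ D.nn true τ ≤ a ∧ D.nn false τ ≤ a'
  swap
  · rw [if_neg hc, if_neg fun h1 => hc ⟨h1.1, h1.2.2⟩]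
  rw [if_pos hc]
  obtain ⟨hτ, h1, h2⟩ := hc
  set R := List.replicate (a - D.nn true τ) (lineC true y) ++
    List.replicate (a' - D.nn false τ) (lineC false y) with hR
  have okR : ∀ z ∈ R, OkC pl κ x y z :=
    ok_app (ok_rep (h.line hκ true).2 _) (ok_rep (h.line hκ false).2 _)
  have tMτ : ∀ i, tM M τ i ≠ 0 → M i ∧ τ i ≠ 0 := fun i hi => by
    unfold tM at hi
    by_cases hm : M i
    · rw [if_pos hm] at hi
      exact ⟨hm, hi⟩
    · rw [if_neg hm] at hi
      exact absurd rfl hi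
  have tRτ : ∀ i, tR M τ i ≠ 0 → act i := fun i hi => by
    unfold tR at hi
    by_cases hm : M i
    · rw [if_pos hm] at hi
      exact absurd rfl hi
    · rw [if_neg hm] at hi
      exact hτ i hi
  have okc : ∀ σ : ι → Fin 3, (∀ i, σ i ≠ 0 → act i) → ∀ z ∈ D.cL σ L, OkC pl κ x y z := by
    intro σ hσ c hc
    unfold SD.cL at hc
    obtain ⟨j, hj, hz⟩ := List.mem_flatMap.1 hc
    obtain ⟨hn, hz⟩ := List.mem_replicate.1 hz
    rw [hz]
    refine (h.cond hκ (hσ j ?_)).ok
    intro h0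
    rw [h0] at hn
    exact hn rfl
  have okM : ∀ z ∈ D.cL (tM M τ) L, OkC pl κ x y z := okc _ fun i hi => hM i (tMτ i hi).1
  have okRr : ∀ z ∈ D.cL (tR M τ) L, OkC pl κ x y z := okc _ tRτ
  have hcondS : ∀ i, M i → D.CondS pl κ x y i := fun i hi =>
    { ok := (h.cond hκ (hM i hi)).ok
      mem := (h.cond hκ (hM i hi)).mem
      smp := h.smp hκ (hM i hi)
      pair := (h.cond hκ (hM i hi)).pair }
  have hch : chL (D.cL τ L ++ R) = a * sg true + a' * sg false := by
    rw [chL_append, chL_cL_univ τ hnd hun, nn_sum, hR, chL_append, chL_replicate, chL_replicate]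
    show (D.nn true τ : ℤ) * sg true + (D.nn false τ : ℤ) * sg false +
      (((a - D.nn true τ : ℕ) : ℤ) * sg true + ((a' - D.nn false τ : ℕ) : ℤ) * sg false) = _
    push_cast [h1, h2]
    ring
  have hperm : (D.cL τ L ++ R).Perm (D.cL (tM M τ) L ++ (D.cL (tR M τ) L ++ R)) :=
    ((cL_split (D := D) (M := M) τ L).append_right R).trans
      (by rw [List.append_assoc])
  have okall : ∀ z ∈ D.cL (tM M τ) L ++ (D.cL (tR M τ) L ++ R), OkC pl κ x y z :=
    ok_app okM (ok_app okRr okR)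
  have hch2 : chL (D.cL (tM M τ) L) + chL (D.cL (tR M τ) L ++ R) =
      a * sg true + a' * sg false := by
    rw [← chL_append, ← chL_perm hperm, hch]
  rw [NI_perm G hperm (fun z hz => okall z (hperm.mem_iff.1 hz)) g (by rw [hch]; exact hg)]
  by_cases h3 : ∀ i, M i → τ i ≠ 2
  · rw [if_pos ⟨hτ, h3, h1, h2⟩]
    have h3' : ∀ i, tM M τ i ≠ 2 := fun i => by
      unfold tM
      by_cases hm : M i
      · rw [if_pos hm]
        exact h3 i hm
      · rw [if_neg hm]
        decide
    obtain ⟨k1, k2⟩ := SD.eval0' (υ := tM M τ) G (fun i _ => h3' i)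
      (fun i (_ : i ∈ L) hi => hcondS i (tMτ i hi).1) (ok_app okRr okR) g
      (by rw [hch2]; exact hg) (fun i _ hi => h0 i (tMτ i hi).1)
    rw [show D.a0 (tM M τ) L g = D.aU (tM M τ) g from SD.a0_univ g e] at k1 k2
    rw [chL_append] at k2
    have k3 : SD.W0 D (tM M τ) pl L g =
        (∏ j, D.om0 (tM M τ) pl g j) * PU fun i j => D.pr0 (tM M τ) i j := by
      refine SD.W0_univ' (fun i hi => h0 i (tMτ i hi).1) (fun i hi => ?_) (fun i j hi hj => ?_)
        h3' e
      · have := G.pin _ _ (hcondS i (tMτ i hi).1).mem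
        exact hg.diff _ _ this.1 this.2
      · have a1 := G.pin _ _ (hcondS i (tMτ i hi).1).mem
        have a2 := G.pin _ _ (hcondS j (tMτ j hj).1).mem
        have a3 := G.wd
        rw [sub_re, abs_lt]
        constructor <;> linarith [a1.1, a1.2, a2.1, a2.2]
    have ev := SD.eval (σ := tR M τ) G hnd hun (fun i hi => h.cond hκ (tRτ i hi)) okR
      (D.aU (tM M τ) g) k2
    rw [k1, k3, fS_split (M := M) τ L h3]
    rw [show (((a - D.nn true τ).factorial : ℕ) : ℂ)⁻¹ *
        (((a' - D.nn false τ).factorial : ℕ) : ℂ)⁻¹ *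
        (fS L (tR M τ) * (((∏ j, D.om0 (tM M τ) pl g j) * PU fun i j => D.pr0 (tM M τ) i j) *
          NI pl (D.cL (tR M τ) L ++ R) (D.aU (tM M τ) g))) =
        ((∏ j, D.om0 (tM M τ) pl g j) * PU fun i j => D.pr0 (tM M τ) i j) *
        ((((a - D.nn true τ).factorial : ℕ) : ℂ)⁻¹ *
        (((a' - D.nn false τ).factorial : ℕ) : ℂ)⁻¹ *
        (fS L (tR M τ) * NI pl (D.cL (tR M τ) L ++ R) (D.aU (tM M τ) g))) by ring, ev,
      ← integral_const_mul, ← integral_const_mul]
    refine integral_congr_ae (Eventually.of_forall fun θ => ?_)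
    simp only []
    rw [← SWM_eq, ← aS_aU]
    unfold ZZ
    ring
  · rw [if_neg fun hc => h3 hc.2.1]
    push Not at h3
    obtain ⟨j, hj, hj2⟩ := h3
    have e2 : tM M τ j = 2 := (if_pos hj).trans hj2
    rw [SD.eval0_two' G (hun j) e2 (hcondS j hj)
      (fun i _ hi => (hcondS i (tMτ i hi).1).ok) (ok_app okRr okR)
      (by rw [hch2]; exact hg) (h0 j hj)]
    ring

end marked

end NUP1S

end
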