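import Pool.Agent.NUP1S.Mark
import Pool.Agent.NUP1S.WordC

/-!
# Marked strings of a configuration of objects

`Host.exactM`: as `Host.exact_q`, the one body functions vanish at the double poles of the marked
strings `M`: no pair of satellites there, one satellite sits exactly at the pole, its weight is the
derivative of the one body function.  `word_ptM` = the line form of one word with marked strings.
-/

set_option autoImplicit false
set_option linter.unusedSectionVars false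

noncomputable section

open Complex MeasureTheory NUP1 Set Filter Topology
open scoped Real ENNReal

namespace NUP1S

open NUP1.Bd (cwz pwz qg chg sin_pos_of Ob wt)
open Ab (Part ppC potG WW ppC_single ppC_cons PU_two PU_mul PU_congr)
open NUO (Xo Kind kd ht an posL posT posS posV parts aS)

section obj
variable {ι : Type*} [Fintype ι] [DecidableEq ι]
  {o : ι → CO} {z : ι → ℂ} {ρ : ι → ℝ} {act : ι → Prop} [DecidablePred act] {x y κ : ℝ}
  {G : Bool → ℂ → ℂ} {M : ι → Prop} [DecidablePred M]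

/-- radius zero at the marked strings -/
def rM (M : ι → Prop) [DecidablePred M] (ρ : ι → ℝ) (i : ι) : ℝ := if M i then 0 else ρ i

/-- one body factor of the satellites of the string `i`, marked strings included -/
def omfM (o : ι → CO) (z : ι → ℂ) (ρ : ι → ℝ) (M : ι → Prop) [DecidablePred M]
    (G : Bool → ℂ → ℂ) (τ : ι → Fin 3) (θ : ι → ℝ) (i : ι) : ℂ :=
  if M i then (if τ i = 1 then -(deriv (G (!(o i).1)) (z i + 2 * l) * (1 / sin (5 * l) ^ 2) *
    ∏ b ∈ Finset.univ.erase i, gz (!(o i).1, .A) (o b) (z i + 2 * l - z b)) else 1)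
  else omf o z (rM M ρ) G τ θ i

/-- weight of all satellites, marked strings included -/
def SWfM (o : ι → CO) (z : ι → ℂ) (ρ : ι → ℝ) (M : ι → Prop) [DecidablePred M]
    (G : Bool → ℂ → ℂ) (τ : ι → Fin 3) (θ : ι → ℝ) : ℂ :=
  (∏ i, omfM o z ρ M G τ θ i) * PU fun i j =>
    PP (!(o i).1) (!(o j).1) (cf z (rM M ρ) τ θ i - cf z (rM M ρ) τ θ j) ^
      ((τ i : ℕ) * (τ j : ℕ))

theorem Host.rs_gr (h : Host o z ρ act x y) {i : ι} (hi : act i)
    (h0 : G (!(o i).1) (z i + 2 * l) = 0)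
    (hd : DifferentiableAt ℂ (G (!(o i).1)) (z i + 2 * l)) :
    rs ((DD o z ρ).pl act) (gr o z act G) (!(o i).1) (z i + 2 * l) =
      deriv (G (!(o i).1)) (z i + 2 * l) * (1 / sin (5 * l) ^ 2) *
        ∏ b ∈ Finset.univ.erase i, gz (!(o i).1, .A) (o b) (z i + 2 * l - z b) := by
  have hp := h.geom.re_lt hi
  have hpre : x ≤ (z i + 2 * l).re ∧ (z i + 2 * l).re ≤ y := ⟨hp.1.le, hp.2.le⟩
  set s : Bool := !(o i).1 with hs
  set p : ℂ := z i + 2 * l with hpd
  have hRd : DifferentiableAt ℂ (fun u => ∏ b, gR o act s b (u - z b)) p := by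
    refine DifferentiableAt.fun_finsetProd fun b _ => ?_
    exact (h.diff_gR s b hpre.1 hpre.2).comp p (differentiableAt_id.sub_const _)
  have d1 : HasDerivAt (gr o z act G s) (deriv (G s) p * ∏ b, gR o act s b (p - z b)) p := by
    have h1 := (hd.hasDerivAt.mul hRd.hasDerivAt)
    refine (h1.congr_deriv ?_)
    show deriv (G s) p * (∏ b, gR o act s b (p - z b)) +
      G s p * deriv (fun u => ∏ b, gR o act s b (u - z b)) p = _
    rw [h0]
    ring
  have e := h.rg_gr (G := fun _ _ => 1) hi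
  rw [← hs, ← hpd] at e
  unfold rg gr at e
  rw [one_mul, one_mul] at e
  unfold rs
  rw [d1.deriv, mul_div_assoc, e, mul_assoc]

theorem Host.SWM_eq (h : Host o z ρ act x y) (hM : ∀ i, M i → act i)
    (hd : ∀ s, ∀ u : ℂ, x ≤ u.re → u.re ≤ y → DifferentiableAt ℂ (G s) u)
    (h0 : ∀ i, M i → G (!(o i).1) (z i + 2 * l) = 0) {τ : ι → Fin 3}
    (hτ : ∀ i, τ i ≠ 0 → act i) (θ : ι → ℝ) :
    (DD o z ρ).SWM M τ ((DD o z ρ).pl act) (gr o z act G) θ = SWfM o z ρ M G τ θ := by
  unfold SD.SWM SWfM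
  congr 1
  refine Finset.prod_congr rfl fun i _ => ?_
  unfold SD.omM omfM
  by_cases hi : M i
  · rw [if_pos hi, if_pos hi]
    by_cases h1 : τ i = 1
    · rw [if_pos h1, if_pos h1]
      have hp := h.geom.re_lt (hM i hi)
      show -rs _ (gr o z act G) (!(o i).1) (z i + 2 * l) = _
      rw [h.rs_gr (hM i hi) (h0 i hi) (hd _ _ hp.1.le hp.2.le)]
    · rw [if_neg h1, if_neg h1]
  · rw [if_neg hi, if_neg hi, h.om_eq hτ]
    unfold omf rM
    rw [if_neg hi]

theorem Host.Wt_aSM (h : Host o z ρ act x y) (τ : ι → Fin 3) (θ : ι → ℝ) (s : Bool) {u : ℂ}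
    (h1 : x ≤ u.re) (h2 : u.re ≤ y) :
    Wt ((DD o z ρ).pl act) (((DD o z ρ).z0 M).aS τ (gr o z act G) θ) s u =
      Hfs o z (rM M ρ) G τ θ s u := by
  unfold Hfs
  rw [← h.Wt_gr s h1 h2]
  unfold Wt SD.aS
  rw [div_mul_eq_mul_div]
  rfl

/-- **Stage 3, exact formula with marked strings.** -/
theorem Host.exactM (h : Host o z ρ act x y) (hκ : 0 < κ) (q0 : ℤ) (hm : ∀ s, Measurable (G s))
    (hd : ∀ s, ∀ u : ℂ, x ≤ u.re → u.re ≤ y → DifferentiableAt ℂ (G s) u)
    (hb : ∀ s, DecOn (κ + 2 * (sg s * q0 : ℤ)) (Icc x y) (G s)) (a a' : ℕ)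
    (hQ : (a : ℝ) - a' + ∑ b, sc (o b) = q0) (hM : ∀ i, M i → act i)
    (h0 : ∀ i, M i → G (!(o i).1) (z i + 2 * l) = 0) :
    gas a a' x (Hf0 o z G true) (Hf0 o z G false) = ∑ τ : ι → Fin 3,
      if (∀ i, τ i ≠ 0 → act i) ∧ (∀ i, M i → τ i ≠ 2) ∧ nsat o true τ ≤ a ∧
          nsat o false τ ≤ a' then
        ∫ θ : ι → ℝ, SWfM o z ρ M G τ θ *
          gas (a - nsat o true τ) (a' - nsat o false τ) y (Hfs o z (rM M ρ) G τ θ true)
            (Hfs o z (rM M ρ) G τ θ false) ∂(Measure.pi fun _ => volume.restrict (Ioc (0 : ℝ) 1))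
      else 0 := by
  have Ge := h.geom.geo hκ
  have hg : Reg ((DD o z ρ).pl act) κ x y (a * sg true + a' * sg false) (gr o z act G) := by
    refine h.reg_q q0 hm hd hb ?_
    rw [← hQ]
    simp [sg]
    ring
  rw [gas_eq_ZZ Ge x (fun s => (h.geom.line hκ s).1) a a' hg
    (fun u hu => (h.Wt_gr true hu.ge (hu.le.trans h.xy.le)).symm)
    (fun u hu => (h.Wt_gr false hu.ge (hu.le.trans h.xy.le)).symm),
    h.geom.expandM hκ a a' hg hM (fun i hi => by
      show G (!(o i).1) (z i + 2 * l) * _ = 0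
      rw [h0 i hi, zero_mul])]
  refine Finset.sum_congr rfl fun τ _ => ?_
  have e1 : ∀ s, (DD o z ρ).nn s τ = nsat o s τ := fun _ => rfl
  rw [e1, e1]
  split_ifs with hc
  · obtain ⟨hτ, -, h1, h2⟩ := hc
    refine integral_congr_ae (Eventually.of_forall fun θ => ?_)
    simp only []
    rw [h.SWM_eq hM hd h0 hτ θ]
    congr 1
    symm
    refine gas_eq_ZZ Ge y (fun s => (h.geom.line hκ s).2) _ _ ?_
      (fun u hu => (h.Wt_aSM τ θ true (h.xy.le.trans hu.ge) hu.le).symm)
      (fun u hu => (h.Wt_aSM τ θ false (h.xy.le.trans hu.ge) hu.le).symm)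
    have h3 := Reg.aS (D := (DD o z ρ).z0 M) (τ := τ) (θ := θ) Ge (fun i hi => ?_) hg
    · convert h3 using 1
      rw [nn_sum]
      show _ = _ - (((nsat o true τ : ℕ) : ℤ) * sg true + ((nsat o false τ : ℕ) : ℤ) * sg false)
      push_cast [h1, h2]
      ring
    · have hi' := hτ i hi
      have h4 := h.geom.re_lt hi'
      by_cases hm : M i
      · rw [z0_c_mark θ hm]
        exact ⟨h4.1.le, h4.2.le⟩
      · rw [z0_c_rest θ hm]
        unfold SD.c
        split_ifs
        · exact h.circ_re hi' _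
        · exact ⟨h4.1.le, h4.2.le⟩
  · rfl

/-! ## the weight -/

/-- own factor of the satellites of the object `i`, marked strings included -/
def om0M (o : ι → CO) (z : ι → ℂ) (ρ : ι → ℝ) (M : ι → Prop) [DecidablePred M]
    (G : Bool → ℂ → ℂ) (τ : ι → Fin 3) (θ : ι → ℝ) (i : ι) : ℂ :=
  if M i then (if τ i = 1 then -(deriv (G (!(o i).1)) (z i + 2 * l) * (1 / sin (5 * l) ^ 2))
    else 1)
  else om0 o z (rM M ρ) G τ θ i

theorem omfM_eq {τ : ι → Fin 3} (h2 : ∀ i, M i → τ i ≠ 2) (θ : ι → ℝ) (i : ι) :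
    omfM o z ρ M G τ θ i =
      om0M o z ρ M G τ θ i * ∏ b ∈ Finset.univ.erase i, gi o z (rM M ρ) τ θ i b := by
  unfold omfM om0M
  by_cases hi : M i
  · rw [if_pos hi, if_pos hi]
    rcases fin3_cases (τ i) with h | h | h
    · have h1 : ¬ τ i = 1 := by rw [h]; decide
      rw [if_neg h1, if_neg h1]
      unfold gi
      simp [h]
    · rw [if_pos h, if_pos h]
      have hc : cf z (rM M ρ) τ θ i = z i + 2 * l := by
        unfold cf rM
        rw [if_pos h, if_pos hi, cM_zero]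
      unfold gi
      rw [hc, h]
      simp only [Fin.val_one, pow_one]
      ring
    · exact absurd h (h2 i hi)
  · rw [if_neg hi, if_neg hi]
    exact omf_eq o z (rM M ρ) G τ θ i

/-- **weight of a word with satellites, marked strings** -/
theorem weight_eqM {τ : ι → Fin 3} (h2 : ∀ i, M i → τ i ≠ 2) (θ : ι → ℝ) (h : ι → ℂ → ℂ) :
    Fg o h z * SWfM o z ρ M G τ θ =
    (∏ i, h i (z i) * om0M o z ρ M G τ θ i) *
      PU fun i j => ppC (cc o z (rM M ρ) τ θ i) (cc o z (rM M ρ) τ θ j) := by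
  unfold Fg SWfM
  have e0 : ∏ x, ∏ b ∈ Finset.univ.erase x, gi o z (rM M ρ) τ θ x b =
      PU fun i j => gi o z (rM M ρ) τ θ i j * gi o z (rM M ρ) τ θ j i := by
    rw [PU_two]
    refine Finset.prod_congr rfl fun x _ => Finset.prod_congr ?_ fun _ _ => rfl
    ext b
    simp
  rw [Finset.prod_congr rfl fun i _ => omfM_eq (o := o) (z := z) (ρ := ρ) (G := G) h2 θ i,
    Finset.prod_mul_distrib, e0, Finset.prod_mul_distrib]
  have e : (PU fun i j => ppC (cc o z (rM M ρ) τ θ i) (cc o z (rM M ρ) τ θ j)) =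
      PU (fun i j => gz (o i) (o j) (z i - z j) *
        (gi o z (rM M ρ) τ θ i j * gi o z (rM M ρ) τ θ j i)) *
        PU fun i j => PP (!(o i).1) (!(o j).1) (cf z (rM M ρ) τ θ i - cf z (rM M ρ) τ θ j) ^
          ((τ i : ℕ) * (τ j : ℕ)) := by
    rw [← PU_mul]
    exact PU_congr fun i j => ppC_cc o z (rM M ρ) τ θ i j
  have e2 := PU_mul (fun i j => gz (o i) (o j) (z i - z j))
    (fun i j => gi o z (rM M ρ) τ θ i j * gi o z (rM M ρ) τ θ j i)
  rw [e, e2]
  ring

theorem norm_weightM {τ : ι → Fin 3} (h2 : ∀ i, M i → τ i ≠ 2) (θ : ι → ℝ) (h : ι → ℂ → ℂ) :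
    ‖Fg o h z * SWfM o z ρ M G τ θ‖ =
      WW (fun i => ‖h i (z i) * om0M o z ρ M G τ θ i‖) (cc o z (rM M ρ) τ θ) := by
  rw [weight_eqM h2, norm_mul, norm_prod]
  rfl

end obj

/-! ## words -/

/-- modulus of the one body weight of a marked string; `d` = modulus of the derivative of the one
body function at the pole -/
def obM (X : Bool → Option O3 → ℂ → ℂ) (d e : ℝ) (x : Xo) : ℝ :=
  match kd x with
  | .S => aS * ‖X x.1.1 (some .S) (posS e (ht x))‖
  | .Sv => aS * ‖X x.1.1 (some .S) (posS e (ht x))‖ * (d / Real.sin (5 * l) ^ 2)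
  | _ => 0

section word
variable {p p' : ℕ} {M : Fin p ⊕ Fin p' → Prop} [DecidablePred M]

/-- one body weights, marked strings included -/
def obW (P : NUO.Par) (X : Bool → Option O3 → ℂ → ℂ) (M : Fin p ⊕ Fin p' → Prop)
    [DecidablePred M] (dd : Fin p ⊕ Fin p' → ℂ) (t : Fin p ⊕ Fin p' → ℝ)
    (O : Fin p ⊕ Fin p' → Xo) (i : Fin p ⊕ Fin p') : ℝ :=
  if M i then obM X ‖dd i‖ (elO P i) (O i)
  else obQ X P.jL (elO P i) (P.rad (p + p') (t i)) (O i)

/-- constituents, marked strings included: radius zero -/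
def paW (P : NUO.Par) (M : Fin p ⊕ Fin p' → Prop) [DecidablePred M] (t : Fin p ⊕ Fin p' → ℝ)
    (O : Fin p ⊕ Fin p' → Xo) (i : Fin p ⊕ Fin p') : List Part :=
  parts P.jL (elO P i) (rM M (fun i => P.rad (p + p') (t i)) i) (O i)

theorem cW_eqM {P : NUO.Par} {k : Fin p → O3} {k' : Fin p' → O3} {τ : Fin p ⊕ Fin p' → Fin 3}
    (hτ : ∀ i, τ i ≠ 0 → actO k k' i) (t θ : Fin p ⊕ Fin p' → ℝ) :
    paW P M t (OO k k' τ t θ) =
      cc (o3 k k') (zO P k k' t) (rM M fun i => P.rad (p + p') (t i)) τ θ := by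
  funext i
  rw [OO_eq]
  refine parts_cc (o := o3 k k') (z := zO P k k' t) (ρ := rM M fun i => P.rad (p + p') (t i))
    (τ := τ) (θ := θ) (P := P) (r := p + p') (k := Sum.elim k k') (n := rkS) (t := t)
    (s := isl i) (fun h => ?_) ?_ ?_
  · rcases i with i | i <;> exact hτ _ h
  · rcases i with i | i <;> rfl
  · rcases i with i | i <;> rfl

theorem WW_eqM {P : NUO.Par} (h : GoodP P) (X : Bool → Option O3 → ℂ → ℂ) {k : Fin p → O3}
    {k' : Fin p' → O3} (hM : ∀ i, M i → actO k k' i) {τ : Fin p ⊕ Fin p' → Fin 3}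
    (hτ : ∀ i, τ i ≠ 0 → actO k k' i)
    (h2 : ∀ i, M i → τ i ≠ 2) (t θ : Fin p ⊕ Fin p' → ℝ) {dd : Fin p ⊕ Fin p' → ℂ}
    (hdd : ∀ i, M i → deriv (X (!isl i) none) (zO P k k' t i + 2 * l) = dd i) :
    ‖(∏ i, wt (ob3 (k i))) * (∏ i, wt (ob3 (k' i))) *
      (Fg (o3 k k') (h3 (X true) (X false) k k') (zO P k k' t) *
      SWfM (o3 k k') (zO P k k' t) (fun i => P.rad (p + p') (t i)) M (fun s => X s none) τ θ)‖ =
    WW (obW P X M dd t (OO k k' τ t θ)) (paW P M t (OO k k' τ t θ)) := by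
  rw [norm_mul, norm_weightM h2, cW_eqM hτ]
  unfold WW
  rw [← mul_assoc]
  congr 1
  have e1 : (∏ i, wt (ob3 (k i))) * (∏ i, wt (ob3 (k' i))) =
      ∏ i, wt (ob3 (Sum.elim k k' i)) := by
    rw [Fintype.prod_sum_type]
    rfl
  rw [e1, norm_prod, ← Finset.prod_mul_distrib]
  refine Finset.prod_congr rfl fun i _ => ?_
  rw [← norm_mul, OO_eq]
  have e2 : h3 (X true) (X false) k k' i (zO P k k' t i) =
      mixX X (isl i) (some (Sum.elim k k' i)) (zO P k k' t i) := by
    rcases i with i | i <;> rfl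
  rw [e2]
  unfold obW om0M
  by_cases hi : M i
  · rw [if_pos hi, if_pos hi]
    have hkS : Sum.elim k k' i = .S := by
      have := hM i hi
      rcases i with i | i <;> exact this
    have hz : zO P k k' t i = posS (elO P i) (t i) := by
      show pos _ t i = _
      have e3 : pos (Sum.elim (lX P p p' k k') (lY P p p' k k')) t i =
          vl (lnO P (p + p') (rkS i) (Sum.elim k k' i)) (t i) := by
        rw [← line_eq]
        rfl
      rw [e3, hkS]
      rfl
    have ho : (!(o3 k k' i).1) = !isl i := by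
      rcases i with i | i <;> rfl
    rw [hkS, hz]
    show ‖wt .S * _‖ = _
    rcases fin3_cases (τ i) with h3 | h3 | h3
    · have h1 : ¬ τ i = 1 := by rw [h3]; decide
      rw [if_neg h1, mul_one, norm_mul, norm_wt_S]
      show _ = obM X ‖dd i‖ (elO P i) ((isl i, kdO (Sum.elim k k' i) (τ i)), (t i, θ i))
      rw [hkS, h3]
      rfl
    · rw [if_pos h3, norm_mul, norm_mul, norm_wt_S, norm_neg, norm_mul, norm_sin5, ho, ← hz,
        hdd i hi, mul_one_div]
      show _ = obM X ‖dd i‖ (elO P i) ((isl i, kdO (Sum.elim k k' i) (τ i)), (t i, θ i))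
      rw [hkS, h3]
      show _ = aS * ‖X (isl i) (some .S) (posS (elO P i) (t i))‖ *
        (‖dd i‖ / Real.sin (5 * l) ^ 2)
      rw [mul_assoc, hz]
      rfl
    · exact absurd h3 (h2 i hi)
  · rw [if_neg hi, if_neg hi]
    have e4 : om0 (o3 k k') (zO P k k' t) (rM M fun i => P.rad (p + p') (t i))
        (fun s => X s none) τ θ i =
        om0 (o3 k k') (zO P k k' t) (fun i => P.rad (p + p') (t i)) (fun s => X s none) τ θ i := by
      unfold om0 rM
      rw [if_neg hi]
    rw [e4]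
    refine obX_eq (mixX X (isl i)) (n := rkS) (t := t) (s := isl i) rfl (h.r0 _ _).le
      (fun hi => ?_) ?_ ?_
    · rcases i with i | i <;> exact hτ _ hi
    · rcases i with i | i <;> rfl
    · rcases i with i | i <;> rfl

/-- **One word, one vector of heights, marked strings.**  `M` = marked strings `S`; the one body
function of the quanta of the other species vanishes at the pole `z i + 2 l` of the marked string
`i` and has the derivative `dd i` there. -/
theorem word_ptM {P : NUO.Par} {x0 : ℝ} (h : GoodQ P x0) {X : Bool → Option O3 → ℂ → ℂ}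
    {κ : ℝ} (hκ : 0 < κ) {n n' : ℕ} {q0 : ℤ} (hq : (n : ℤ) - n' = q0)
    (hm : ∀ s, Measurable (X s none))
    (hd : ∀ s, ∀ u : ℂ, x0 ≤ u.re → u.re ≤ l → DifferentiableAt ℂ (X s none) u)
    (hb : ∀ s, DecOn (κ + 2 * (sg s * q0 : ℤ)) (Icc x0 l) (X s none))
    {k : Fin p → O3} {k' : Fin p' → O3} (hk : ∑ i, c3 (k i) ≤ n) (hk' : ∑ i, c3 (k' i) ≤ n')
    (t : Fin p ⊕ Fin p' → ℝ) (hM : ∀ i, M i → actO k k' i)
    (h0 : ∀ i, M i → X (!isl i) none (zO P k k' t i + 2 * l) = 0) {dd : Fin p ⊕ Fin p' → ℂ}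
    (hdd : ∀ i, M i → deriv (X (!isl i) none) (zO P k k' t i + 2 * l) = dd i) :
    ‖((∏ i, wt (ob3 (k i))) * (∏ i, wt (ob3 (k' i)))) *
      (Fg (o3 k k') (h3 (X true) (X false) k k')
          (pos (Sum.elim (lX P p p' k k') (lY P p p' k k')) t) *
        gas (nA n k) (nA n' k') x0
          (fld (o3 k k') (pos (Sum.elim (lX P p p' k k') (lY P p p' k k')) t) (true, .A)
            (X true none))
          (fld (o3 k k') (pos (Sum.elim (lX P p p' k k') (lY P p p' k k')) t) (false, .A)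
            (X false none)))‖ₑ ≤
    ∑ τ : Fin p ⊕ Fin p' → Fin 3,
      if (∀ i, τ i ≠ 0 → actO k k' i) ∧ (∀ i, M i → τ i ≠ 2) ∧
        nsat (o3 k k') true τ ≤ nA n k ∧ nsat (o3 k k') false τ ≤ nA n' k' then
        ∫⁻ θ : Fin p ⊕ Fin p' → ℝ,
          ENNReal.ofReal (WW (obW P X M dd t (OO k k' τ t θ)) (paW P M t (OO k k' τ t θ))) *
          ‖gas (nA n k - nsat (o3 k k') true τ) (nA n' k' - nsat (o3 k k') false τ) l
            (fun z => X true none z * potG (paW P M t (OO k k' τ t θ)) true z)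
            (fun z => X false none z * potG (paW P M t (OO k k' τ t θ)) false z)‖ₑ
          ∂(Measure.pi fun _ => volume.restrict (Ioc (0 : ℝ) 1))
      else 0 := by
  set W : ℂ := (∏ i, wt (ob3 (k i))) * (∏ i, wt (ob3 (k' i))) with hW
  have hH := host_Q h k k' t
  have hsl : ∀ i, (!(o3 k k' i).1) = !isl i := fun i => by rcases i with i | i <;> rfl
  have ex := hH.exactM (G := fun s => X s none) (M := M) hκ q0 hm hd hb (nA n k) (nA n' k')
    (neutral_Q hk hk' hq) hM (fun i hi => by rw [hsl]; exact h0 i hi)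
  have e0 : gas (nA n k) (nA n' k') x0 (fld (o3 k k') (zO P k k' t) (true, .A) (X true none))
      (fld (o3 k k') (zO P k k' t) (false, .A) (X false none)) = _ := ex
  show ‖W * (Fg (o3 k k') (h3 (X true) (X false) k k') (zO P k k' t) *
        gas (nA n k) (nA n' k') x0 (fld (o3 k k') (zO P k k' t) (true, .A) (X true none))
          (fld (o3 k k') (zO P k k' t) (false, .A) (X false none)))‖ₑ ≤ _
  rw [e0, Finset.mul_sum, Finset.mul_sum]
  refine (enorm_sum_le _ _).trans (Finset.sum_le_sum fun τ _ => ?_)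
  by_cases hc : (∀ i, τ i ≠ 0 → actO k k' i) ∧ (∀ i, M i → τ i ≠ 2) ∧
      nsat (o3 k k') true τ ≤ nA n k ∧ nsat (o3 k k') false τ ≤ nA n' k'
  · rw [if_pos hc, if_pos hc, ← integral_const_mul, ← integral_const_mul]
    obtain ⟨hτ, h2, -, -⟩ := hc
    refine (enorm_integral_le_lintegral_enorm _).trans (lintegral_mono fun θ => ?_)
    have hf : ∀ s, Hfs (o3 k k') (zO P k k' t) (rM M fun i => P.rad (p + p') (t i))
        (fun s => X s none) τ θ s = fun z => X s none z *
          potG (paW P M t (OO k k' τ t θ)) s z := by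
      intro s
      funext z
      rw [field_eq, cW_eqM hτ]
    have hw := WW_eqM h.toGoodP X hM hτ h2 t θ hdd
    rw [← hW] at hw
    rw [← hw, ← hf true, ← hf false, ofReal_norm, ← enorm_mul]
    refine le_of_eq ?_
    congr 1
    show W * (Fg (o3 k k') (h3 (X true) (X false) k k') (zO P k k' t) *
      (SWfM (o3 k k') (zO P k k' t) (fun i => P.rad (p + p') (t i)) M (fun s => X s none) τ θ *
        gas (nA n k - nsat (o3 k k') true τ) (nA n' k' - nsat (o3 k k') false τ) l
          (Hfs (o3 k k') (zO P k k' t) (rM M fun i => P.rad (p + p') (t i)) (fun s => X s none)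
            τ θ true)
          (Hfs (o3 k k') (zO P k k' t) (rM M fun i => P.rad (p + p') (t i)) (fun s => X s none)
            τ θ false))) = _
    ring
  · rw [if_neg hc, if_neg hc, mul_zero, mul_zero, enorm_zero]

end word

end NUP1S

end
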