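import Mathlib

/-!
# Merging the words of the two species into words over `Bool × K`, words and positions into configurations
-/

set_option autoImplicit false
set_option linter.unusedSectionVars false

noncomputable section

namespace NUP1S

namespace Mg

open Finset Nat MeasureTheory
open scoped ENNReal

variable {K : Type} [Fintype K] [DecidableEq K]

/-- the word with the letters of the first species first -/
def wd2 {a p : ℕ} (kX : Fin a → K) (kY : Fin p → K) : Fin a ⊕ Fin p → Bool × K :=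
  Sum.elim (fun i => (true, kX i)) (fun i => (false, kY i))

section alg

variable {R : Type*} [CommSemiring R]

theorem sum_set {r a p : ℕ} (s : Finset (Fin r)) (ha : s.card = a) (hp : sᶜ.card = p)
    (G : (Fin r → Bool × K) → R) :
    ∑ k ∈ univ.filter (fun k : Fin r → Bool × K => univ.filter (fun i => (k i).1 = true) = s), G k =
      ∑ kX : Fin a → K, ∑ kY : Fin p → K, G (wd2 kX kY ∘ (finSumEquivOfFinset ha hp).symm) := by
  set e := finSumEquivOfFinset ha hp with he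
  have hL : ∀ i : Fin a, e (Sum.inl i) ∈ s := fun i => by
    rw [he, finSumEquivOfFinset_inl]
    exact orderEmbOfFin_mem s ha i
  have hR : ∀ i : Fin p, e (Sum.inr i) ∉ s := fun i => by
    rw [he, finSumEquivOfFinset_inr]
    exact mem_compl.1 (orderEmbOfFin_mem sᶜ hp i)
  have e0 : ∑ kX : Fin a → K, ∑ kY : Fin p → K, G (wd2 kX kY ∘ e.symm) =
      ∑ q : (Fin a → K) × (Fin p → K), G (wd2 q.1 q.2 ∘ e.symm) := by
    rw [← univ_product_univ, sum_product]
  rw [e0]
  symm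
  refine sum_bij (fun q _ => wd2 q.1 q.2 ∘ e.symm) ?_ ?_ ?_ ?_
  · intro q _
    rw [mem_filter]
    refine ⟨mem_univ _, ?_⟩
    ext i
    simp only [mem_filter, mem_univ, true_and, Function.comp_apply]
    obtain ⟨x, rfl⟩ := e.surjective i
    rw [e.symm_apply_apply]
    rcases x with x | x
    · simp [wd2, hL x]
    · simp [wd2, hR x]
  · intro q _ q' _ h
    refine Prod.ext ?_ ?_
    · funext i
      have := congrFun h (e (Sum.inl i))
      simpa [wd2] using this
    · funext i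
      have := congrFun h (e (Sum.inr i))
      simpa [wd2] using this
  · intro k hk
    have hk' := (mem_filter.1 hk).2
    refine ⟨(fun i => (k (e (Sum.inl i))).2, fun i => (k (e (Sum.inr i))).2), mem_univ _, ?_⟩
    funext i
    obtain ⟨x, rfl⟩ := e.surjective i
    simp only [Function.comp_apply, e.symm_apply_apply]
    rcases x with x | x
    · have h1 : e (Sum.inl x) ∈ univ.filter (fun i => (k i).1 = true) := by
        rw [hk']
        exact hL x
      have h2 := (mem_filter.1 h1).2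
      simp only [wd2, Sum.elim_inl]
      exact Prod.ext h2.symm rfl
    · have h1 : e (Sum.inr x) ∉ univ.filter (fun i => (k i).1 = true) := by
        rw [hk']
        exact hR x
      have h2 : (k (e (Sum.inr x))).1 = false := by
        rw [← Bool.not_eq_true]
        intro h3
        exact h1 (mem_filter.2 ⟨mem_univ _, h3⟩)
      simp only [wd2, Sum.elim_inr]
      exact Prod.ext h2.symm rfl
  · intro k _
    rfl

/-- all words of length r -/
theorem sum_words (Phi : ∀ (i : Type) [Fintype i], (i → Bool × K) → R)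
    (hPhi : ∀ (i i' : Type) [Fintype i] [Fintype i'] (e : i ≃ i') (k : i' → Bool × K), Phi i (k ∘ e) = Phi i' k)
    (r : ℕ) :
    ∑ k : Fin r → Bool × K, Phi (Fin r) k = ∑ a ∈ range (r + 1), (r.choose a : R) *
      ∑ kX : Fin a → K, ∑ kY : Fin (r - a) → K, Phi (Fin a ⊕ Fin (r - a)) (wd2 kX kY) := by
  have e1 : ∀ s : Finset (Fin r),
      ∑ k ∈ univ.filter (fun k : Fin r → Bool × K => univ.filter (fun i => (k i).1 = true) = s), Phi (Fin r) k =
        ∑ kX : Fin s.card → K, ∑ kY : Fin (r - s.card) → K, Phi (Fin s.card ⊕ Fin (r - s.card)) (wd2 kX kY) := by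
    intro s
    have hp : sᶜ.card = r - s.card := by rw [card_compl, Fintype.card_fin]
    rw [sum_set s rfl hp]
    refine sum_congr rfl fun kX _ => sum_congr rfl fun kY _ => ?_
    rw [hPhi]
  rw [← sum_fiberwise (s := univ) (g := fun k : Fin r → Bool × K =>
    univ.filter (fun i => (k i).1 = true)), sum_congr rfl fun s _ => e1 s, ← powerset_univ,
    sum_powerset_apply_card (fun a => ∑ kX : Fin a → K, ∑ kY : Fin (r - a) → K,
      Phi (Fin a ⊕ Fin (r - a)) (wd2 kX kY)), Finset.card_univ, Fintype.card_fin]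
  simp

/-- merging at a fixed total length; w r is the inverse factorial -/
theorem merge_fix (w : ℕ → R) (hw : ∀ a p, w (a + p) * ((a + p).choose a : R) = w a * w p)
    (Phi : ∀ (i : Type) [Fintype i], (i → Bool × K) → R)
    (hPhi : ∀ (i i' : Type) [Fintype i] [Fintype i'] (e : i ≃ i') (k : i' → Bool × K), Phi i (k ∘ e) = Phi i' k)
    (r : ℕ) :
    w r * ∑ k : Fin r → Bool × K, Phi (Fin r) k = ∑ x ∈ antidiagonal r, w x.1 * w x.2 *
      ∑ kX : Fin x.1 → K, ∑ kY : Fin x.2 → K, Phi (Fin x.1 ⊕ Fin x.2) (wd2 kX kY) := by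
  rw [sum_words Phi hPhi r, mul_sum, Nat.sum_antidiagonal_eq_sum_range_succ
    (f := fun a p => w a * w p * ∑ kX : Fin a → K, ∑ kY : Fin p → K, Phi (Fin a ⊕ Fin p) (wd2 kX kY))]
  refine sum_congr rfl fun a ha => ?_
  have ha' : a ≤ r := by
    rw [mem_range] at ha
    omega
  have h := hw a (r - a)
  rw [Nat.add_sub_cancel' ha'] at h
  rw [← mul_assoc, h]

/-- **merging**: the sums over the words of the two species -/
theorem merge (w : ℕ → R) (hw : ∀ a p, w (a + p) * ((a + p).choose a : R) = w a * w p)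
    (Phi : ∀ (i : Type) [Fintype i], (i → Bool × K) → R)
    (hPhi : ∀ (i i' : Type) [Fintype i] [Fintype i'] (e : i ≃ i') (k : i' → Bool × K), Phi i (k ∘ e) = Phi i' k)
    (N : ℕ) (h0 : ∀ (a p : ℕ) (kX : Fin a → K) (kY : Fin p → K), N < a ∨ N < p →
      Phi (Fin a ⊕ Fin p) (wd2 kX kY) = 0) :
    ∑ a ∈ range (N + 1), ∑ p ∈ range (N + 1), w a * w p *
      ∑ kX : Fin a → K, ∑ kY : Fin p → K, Phi (Fin a ⊕ Fin p) (wd2 kX kY) =
    ∑ r ∈ range (2 * N + 1), w r * ∑ k : Fin r → Bool × K, Phi (Fin r) k := by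
  set T : ℕ → ℕ → R := fun a p => ∑ kX : Fin a → K, ∑ kY : Fin p → K, Phi (Fin a ⊕ Fin p) (wd2 kX kY) with hT
  have hT0 : ∀ a p, N < a ∨ N < p → T a p = 0 := by
    intro a p h
    exact sum_eq_zero fun kX _ => sum_eq_zero fun kY _ => h0 a p kX kY h
  have h4 : ∑ a ∈ range (N + 1), ∑ p ∈ range (N + 1), w a * w p * T a p =
      ∑ x ∈ (range (N + 1) ×ˢ range (N + 1)), w x.1 * w x.2 * T x.1 x.2 := by
    rw [sum_product]
  rw [h4, sum_congr rfl fun r _ => merge_fix w hw Phi hPhi r,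
    ← sum_fiberwise_of_maps_to (s := range (N + 1) ×ˢ range (N + 1))
      (t := range (2 * N + 1)) (g := fun x => x.1 + x.2)]
  · refine sum_congr rfl fun r _ => ?_
    refine sum_subset ?_ ?_
    · intro x hx
      rw [HasAntidiagonal.mem_antidiagonal]
      exact (mem_filter.1 hx).2
    · intro x hx hx2
      rw [HasAntidiagonal.mem_antidiagonal] at hx
      have h5 : N < x.1 ∨ N < x.2 := by
        by_contra hcon
        apply hx2
        rw [mem_filter, mem_product, mem_range, mem_range]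
        omega
      show w x.1 * w x.2 * T x.1 x.2 = 0
      rw [hT0 _ _ h5, mul_zero]
  · intro x hx
    rw [mem_product, mem_range, mem_range] at hx
    rw [mem_range]
    omega

end alg

/-- inverse factorials in `ℝ≥0∞` -/
theorem inv_fact (a p : ℕ) : (((a + p) ! : ℕ) : ℝ≥0∞)⁻¹ * ((a + p).choose a : ℝ≥0∞) =
    ((a ! : ℕ) : ℝ≥0∞)⁻¹ * ((p ! : ℕ) : ℝ≥0∞)⁻¹ := by
  have n1 : ((a ! : ℕ) : ℝ≥0∞) ≠ 0 := by exact_mod_cast factorial_ne_zero a
  have n2 : ((p ! : ℕ) : ℝ≥0∞) ≠ 0 := by exact_mod_cast factorial_ne_zero p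
  have n3 : (((a + p) ! : ℕ) : ℝ≥0∞) ≠ 0 := by exact_mod_cast factorial_ne_zero (a + p)
  have t1 : ((a ! : ℕ) : ℝ≥0∞) ≠ ∞ := ENNReal.natCast_ne_top _
  have t2 : ((p ! : ℕ) : ℝ≥0∞) ≠ ∞ := ENNReal.natCast_ne_top _
  have t3 : (((a + p) ! : ℕ) : ℝ≥0∞) ≠ ∞ := ENNReal.natCast_ne_top _
  have hf : ((a + p).choose a : ℝ≥0∞) * (((a ! : ℕ) : ℝ≥0∞) * ((p ! : ℕ) : ℝ≥0∞)) = (((a + p) ! : ℕ) : ℝ≥0∞) := by
    have := Nat.choose_mul_factorial_mul_factorial (Nat.le_add_right a p)
    rw [Nat.add_sub_cancel_left] at this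
    rw [← mul_assoc]
    exact_mod_cast this
  rw [← ENNReal.mul_inv (Or.inl n1) (Or.inl t1), ← hf]
  have n4 : ((a ! : ℕ) : ℝ≥0∞) * ((p ! : ℕ) : ℝ≥0∞) ≠ 0 := mul_ne_zero n1 n2
  have t4 : ((a ! : ℕ) : ℝ≥0∞) * ((p ! : ℕ) : ℝ≥0∞) ≠ ∞ := ENNReal.mul_ne_top t1 t2
  have nc : ((a + p).choose a : ℝ≥0∞) ≠ 0 := by
    intro h
    rw [h, zero_mul] at hf
    exact n3 hf.symm
  have tc : ((a + p).choose a : ℝ≥0∞) ≠ ∞ := ENNReal.natCast_ne_top _
  rw [ENNReal.mul_inv (Or.inl nc) (Or.inl tc), mul_comm (((a + p).choose a : ℝ≥0∞)⁻¹), mul_assoc,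
    ENNReal.inv_mul_cancel nc tc, mul_one]

/-- inverse factorials in `ℂ` -/
theorem inv_factC (a p : ℕ) : (((a + p) ! : ℕ) : ℂ)⁻¹ * ((a + p).choose a : ℂ) =
    ((a ! : ℕ) : ℂ)⁻¹ * ((p ! : ℕ) : ℂ)⁻¹ := by
  have n1 : ((a ! : ℕ) : ℂ) ≠ 0 := by exact_mod_cast factorial_ne_zero a
  have n2 : ((p ! : ℕ) : ℂ) ≠ 0 := by exact_mod_cast factorial_ne_zero p
  have n3 : (((a + p) ! : ℕ) : ℂ) ≠ 0 := by exact_mod_cast factorial_ne_zero (a + p)
  have hf : ((a + p).choose a : ℂ) * ((a ! : ℕ) : ℂ) * ((p ! : ℕ) : ℂ) = (((a + p) ! : ℕ) : ℂ) := by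
    have := Nat.choose_mul_factorial_mul_factorial (Nat.le_add_right a p)
    rw [Nat.add_sub_cancel_left] at this
    exact_mod_cast this
  field_simp
  linear_combination hf

/-- **merging**, extended nonnegative version -/
theorem mergeE (Phi : ∀ (i : Type) [Fintype i], (i → Bool × K) → ℝ≥0∞)
    (hPhi : ∀ (i i' : Type) [Fintype i] [Fintype i'] (e : i ≃ i') (k : i' → Bool × K), Phi i (k ∘ e) = Phi i' k)
    (N : ℕ) (h0 : ∀ (a p : ℕ) (kX : Fin a → K) (kY : Fin p → K), N < a ∨ N < p →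
      Phi (Fin a ⊕ Fin p) (wd2 kX kY) = 0) :
    ∑ a ∈ range (N + 1), ∑ p ∈ range (N + 1), ((a ! : ℕ) : ℝ≥0∞)⁻¹ * ((p ! : ℕ) : ℝ≥0∞)⁻¹ *
      ∑ kX : Fin a → K, ∑ kY : Fin p → K, Phi (Fin a ⊕ Fin p) (wd2 kX kY) =
    ∑ r ∈ range (2 * N + 1), ((r ! : ℕ) : ℝ≥0∞)⁻¹ * ∑ k : Fin r → Bool × K, Phi (Fin r) k :=
  merge (fun r => ((r ! : ℕ) : ℝ≥0∞)⁻¹) inv_fact Phi hPhi N h0

/-- **merging**, complex version -/
theorem mergeC (Phi : ∀ (i : Type) [Fintype i], (i → Bool × K) → ℂ)
    (hPhi : ∀ (i i' : Type) [Fintype i] [Fintype i'] (e : i ≃ i') (k : i' → Bool × K), Phi i (k ∘ e) = Phi i' k)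
    (N : ℕ) (h0 : ∀ (a p : ℕ) (kX : Fin a → K) (kY : Fin p → K), N < a ∨ N < p →
      Phi (Fin a ⊕ Fin p) (wd2 kX kY) = 0) :
    ∑ a ∈ range (N + 1), ∑ p ∈ range (N + 1), ((a ! : ℕ) : ℂ)⁻¹ * ((p ! : ℕ) : ℂ)⁻¹ *
      ∑ kX : Fin a → K, ∑ kY : Fin p → K, Phi (Fin a ⊕ Fin p) (wd2 kX kY) =
    ∑ r ∈ range (2 * N + 1), ((r ! : ℕ) : ℂ)⁻¹ * ∑ k : Fin r → Bool × K, Phi (Fin r) k :=
  merge (fun r => ((r ! : ℕ) : ℂ)⁻¹) inv_factC Phi hPhi N h0

section meas

variable {L E : Type*} [MeasurableSpace E]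

/-- integration over the positions is invariant under reindexing -/
theorem lint_inv (μ : Measure E) [SigmaFinite μ] (F : ∀ (i : Type) [Fintype i], (i → L) → (i → E) → ℝ≥0∞)
    (hF : ∀ (i i' : Type) [Fintype i] [Fintype i'] (e : i ≃ i') (k : i' → L) (x : i' → E),
      F i (k ∘ e) (x ∘ e) = F i' k x)
    (i i' : Type) [Fintype i] [Fintype i'] (e : i ≃ i') (k : i' → L) :
    ∫⁻ x, F i (k ∘ e) x ∂(Measure.pi fun _ : i => μ) = ∫⁻ x, F i' k x ∂(Measure.pi fun _ : i' => μ) := by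
  have h := measurePreserving_piCongrLeft (α := fun _ : i' => E) (fun _ : i' => μ) e
  have h2 := h.lintegral_comp_emb (MeasurableEquiv.measurableEmbedding _) (F i' k)
  rw [← h2]
  refine lintegral_congr fun x => ?_
  have h3 : (MeasurableEquiv.piCongrLeft (fun _ : i' => E) e x) ∘ e = x := by
    funext j
    exact Equiv.piCongrLeft_apply_apply (fun _ : i' => E) e x j
  rw [← hF i i' e k, h3]

/-- the counting measure on the words is the product of the counting measures -/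
theorem pi_count [Fintype L] [DecidableEq L] [MeasurableSpace L] [MeasurableSingletonClass L] (i : Type)
    [Fintype i] [DecidableEq i] :
    (Measure.pi fun _ : i => (Measure.count : Measure L)) = Measure.count := by
  refine Measure.ext_of_singleton fun k => ?_
  rw [Measure.pi_singleton, Measure.count_singleton]
  simp

/-- words and positions = configurations -/
theorem words_lint [Fintype L] [DecidableEq L] [MeasurableSpace L] [MeasurableSingletonClass L]
    (μ : Measure E) [SigmaFinite μ] (i : Type) [Fintype i] [DecidableEq i] (F : (i → L) → (i → E) → ℝ≥0∞) :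
    ∫⁻ O, F (fun j => (O j).1) (fun j => (O j).2)
      ∂(Measure.pi fun _ : i => (Measure.count : Measure L).prod μ) =
      ∑ k : i → L, ∫⁻ x, F k x ∂(Measure.pi fun _ : i => μ) := by
  have h := measurePreserving_arrowProdEquivProdArrow L E i (fun _ => (Measure.count : Measure L)) (fun _ => μ)
  have h2 := h.lintegral_comp_emb (MeasurableEquiv.measurableEmbedding _) (fun q => F q.1 q.2)
  have h3 : ∫⁻ O, F (fun j => (O j).1) (fun j => (O j).2)
      ∂(Measure.pi fun _ : i => (Measure.count : Measure L).prod μ) =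
      ∫⁻ q, F q.1 q.2 ∂((Measure.pi fun _ : i => (Measure.count : Measure L)).prod
        (Measure.pi fun _ : i => μ)) := by
    rw [← h2]
    rfl
  rw [h3, pi_count]
  have h4 : (Measure.count : Measure (i → L)).prod (Measure.pi fun _ : i => μ) =
      Measure.sum (fun k : i → L => (Measure.pi fun _ : i => μ).map (Prod.mk k)) := by
    unfold Measure.count
    rw [Measure.prod_sum_left]
    congr 1
    funext k
    rw [Measure.dirac_prod]
  rw [h4, lintegral_sum_measure, tsum_fintype]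
  refine sum_congr rfl fun k _ => ?_
  rw [(measurableEmbedding_prodMk_left k).lintegral_map]

end meas

/-- **words, positions, two species**: everything together -/
theorem mergeL {E : Type*} [MeasurableSpace E] [MeasurableSpace (Bool × K)] [MeasurableSingletonClass (Bool × K)]
    (μ : Measure E) [SigmaFinite μ] (F : ∀ (i : Type) [Fintype i], (i → Bool × K) → (i → E) → ℝ≥0∞)
    (hF : ∀ (i i' : Type) [Fintype i] [Fintype i'] (e : i ≃ i') (k : i' → Bool × K) (x : i' → E),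
      F i (k ∘ e) (x ∘ e) = F i' k x)
    (N : ℕ) (h0 : ∀ (a p : ℕ) (kX : Fin a → K) (kY : Fin p → K) (x : Fin a ⊕ Fin p → E), N < a ∨ N < p →
      F (Fin a ⊕ Fin p) (wd2 kX kY) x = 0) :
    ∑ a ∈ range (N + 1), ∑ p ∈ range (N + 1), ((a ! : ℕ) : ℝ≥0∞)⁻¹ * ((p ! : ℕ) : ℝ≥0∞)⁻¹ *
      ∑ kX : Fin a → K, ∑ kY : Fin p → K,
        ∫⁻ x, F (Fin a ⊕ Fin p) (wd2 kX kY) x ∂(Measure.pi fun _ : Fin a ⊕ Fin p => μ) =
    ∑ r ∈ range (2 * N + 1), ((r ! : ℕ) : ℝ≥0∞)⁻¹ *
      ∫⁻ O, F (Fin r) (fun j => (O j).1) (fun j => (O j).2)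
        ∂(Measure.pi fun _ : Fin r => (Measure.count : Measure (Bool × K)).prod μ) := by
  have h := mergeE (fun (i : Type) [Fintype i] (k : i → Bool × K) =>
    ∫⁻ x, F i k x ∂(Measure.pi fun _ : i => μ)) (fun i i' _ _ e k => lint_inv μ F hF i i' e k) N
    (fun a p kX kY hap => by
      rw [lintegral_congr (fun x => h0 a p kX kY x hap), lintegral_zero])
  rw [h]
  refine sum_congr rfl fun r _ => ?_
  rw [words_lint μ (Fin r) (F (Fin r))]

end Mg

end NUP1S

end
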