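import Pool.Agent.NUP1S.Gas

/-!
# Nested integrals: order, replacement of a contour, pairs on a circle
-/

set_option autoImplicit false
set_option linter.unusedSectionVars false

noncomputable section

open Complex MeasureTheory NUP1 NUP1.Bd
open NUP1.Grand (f add P P_succAbove)

namespace NUP1S

/-- charge of a list of contours -/
def chL (L : List Ct) : ℤ := (L.map fun c => sg c.sp).sum

@[simp] theorem chL_nil : chL [] = 0 := rfl
@[simp] theorem chL_cons (c : Ct) (L : List Ct) : chL (c :: L) = sg c.sp + chL L := by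
  simp [chL]

theorem chL_perm {L L' : List Ct} (h : L.Perm L') : chL L = chL L' := by
  unfold chL
  exact (h.map _).sum_eq

theorem sum_get (L : List Ct) : ∑ i : Fin L.length, sg (L.get i).sp = chL L := by
  induction L with
  | nil => simp
  | cons c L ih =>
    rw [chL_cons, ← ih]
    exact Fin.sum_univ_succ (fun i : Fin (L.length + 1) => sg ((c :: L).get i).sp)

variable {pl : Bool → Finset ℂ} {κ a b : ℝ}

theorem reg_tail (G : Geo pl κ a b) {c : Ct} {L : List Ct} (hc : OkC pl κ a b c)
    {g : Bool → ℂ → ℂ} (h : Reg pl κ a b (chL (c :: L)) g) (t : ℝ) :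
    Reg pl κ a b (chL L) (ad g c.sp (c.pos t)) := by
  have := h.ad G c.sp (hc.re1 t) (hc.re2 t)
  rwa [chL_cons, add_sub_cancel_left] at this

theorem NI_eq_I (G : Geo pl κ a b) (L : List Ct) (hL : ∀ c ∈ L, OkC pl κ a b c)
    (g : Bool → ℂ → ℂ) (h : Reg pl κ a b (chL L) g) :
    NI pl L g = Grand.I volume pwc (fun i : Fin L.length => L.get i) (hh pl g) := by
  induction L generalizing g with
  | nil =>
    unfold NI Grand.I f
    simp only [Grand.P_zero, List.length_nil, Finset.univ_eq_empty, Finset.prod_empty, mul_one]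
    rw [integral_const]
    simp [Measure.real]
  | cons c L ih =>
    have hc := hL c (by simp)
    have hi := integrable_f G (fun i : Fin (c :: L).length => (c :: L).get i)
      (fun i => hL _ (List.get_mem _ _)) (g := g) (by rw [sum_get]; exact h)
    have := (fubini volume pwc pwc_symm (fun i : Fin (L.length + 1) => (c :: L).get i)
      (hh pl g) 0 hi).1
    show ∫ t, hh pl g c t * NI pl L (ad g c.sp (c.pos t)) = _
    refine Eq.trans ?_ this.symm
    refine integral_congr_ae (Filter.Eventually.of_forall fun t => ?_)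
    show hh pl g c t * NI pl L (ad g c.sp (c.pos t)) = _
    rw [ih (fun x hx => hL x (by simp [hx])) _ (reg_tail G hc h t), hh_ad]
    rfl

theorem NI_int (G : Geo pl κ a b) (c : Ct) (L : List Ct) (hL : ∀ x ∈ c :: L, OkC pl κ a b x)
    (g : Bool → ℂ → ℂ) (h : Reg pl κ a b (chL (c :: L)) g) :
    Integrable (fun t => hh pl g c t * NI pl L (ad g c.sp (c.pos t))) := by
  have hc := hL c (by simp)
  have hi := integrable_f G (fun i : Fin (c :: L).length => (c :: L).get i)
    (fun i => hL _ (List.get_mem _ _)) (g := g) (by rw [sum_get]; exact h)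
  have := (fubini volume pwc pwc_symm (fun i : Fin (L.length + 1) => (c :: L).get i)
    (hh pl g) 0 hi).2
  refine this.congr (Filter.Eventually.of_forall fun t => ?_)
  show _ = hh pl g c t * NI pl L (ad g c.sp (c.pos t))
  rw [NI_eq_I G L (fun x hx => hL x (by simp [hx])) _ (reg_tail G hc h t), hh_ad]
  rfl

theorem NI_swap (G : Geo pl κ a b) (c d : Ct) (L : List Ct)
    (hL : ∀ x ∈ c :: d :: L, OkC pl κ a b x) (g : Bool → ℂ → ℂ)
    (h : Reg pl κ a b (chL (c :: d :: L)) g) : NI pl (c :: d :: L) g = NI pl (d :: c :: L) g := by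
  have hc := hL c (by simp)
  have hd := hL d (by simp)
  have hi := integrable_f G (fun i : Fin (c :: d :: L).length => (c :: d :: L).get i)
    (fun i => hL _ (List.get_mem _ _)) (g := g) (by rw [sum_get]; exact h)
  have h1 := (fubini volume pwc pwc_symm (fun i : Fin (L.length + 1 + 1) => (c :: d :: L).get i)
    (hh pl g) 1 hi).1
  rw [NI_eq_I G _ hL g h]
  refine Eq.trans h1 ?_
  show _ = ∫ t, hh pl g d t * NI pl (c :: L) (ad g d.sp (d.pos t))
  refine integral_congr_ae (Filter.Eventually.of_forall fun t => ?_)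
  show _ = hh pl g d t * NI pl (c :: L) (ad g d.sp (d.pos t))
  have h' : Reg pl κ a b (chL (d :: c :: L)) g := by
    have e : chL (c :: d :: L) = chL (d :: c :: L) := by
      rw [chL_cons, chL_cons, chL_cons, chL_cons]
      ring
    rwa [e] at h
  rw [NI_eq_I G (c :: L) (fun x hx => hL x (by
    simp only [List.mem_cons] at hx ⊢
    tauto)) _ (reg_tail G hd h' t), hh_ad]
  have e : (fun j : Fin (L.length + 1) => (c :: d :: L).get ((1 : Fin (L.length + 2)).succAbove j)) =
      fun i : Fin (c :: L).length => (c :: L).get i := by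
    funext j
    refine Fin.cases ?_ (fun i => ?_) j
    · rfl
    · rw [Fin.one_succAbove_succ]
      rfl
  rw [e]
  rfl

theorem NI_perm (G : Geo pl κ a b) {L L' : List Ct} (hp : L.Perm L')
    (hL : ∀ x ∈ L, OkC pl κ a b x) (g : Bool → ℂ → ℂ) (h : Reg pl κ a b (chL L) g) :
    NI pl L g = NI pl L' g := by
  induction hp generalizing g with
  | nil => rfl
  | cons c hp ih =>
    show ∫ t, hh pl g c t * NI pl _ (ad g c.sp (c.pos t)) =
      ∫ t, hh pl g c t * NI pl _ (ad g c.sp (c.pos t))
    refine integral_congr_ae (Filter.Eventually.of_forall fun t => ?_)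
    show hh pl g c t * NI pl _ (ad g c.sp (c.pos t)) = hh pl g c t * NI pl _ (ad g c.sp (c.pos t))
    rw [ih (fun x hx => hL x (by simp [hx])) _ (reg_tail G (hL c (by simp)) h t)]
  | swap c d L => exact NI_swap G d c L hL g h
  | trans hp hp' ih ih' =>
    rw [ih hL g h]
    exact ih' (fun x hx => hL x (hp.mem_iff.2 hx)) g (by rwa [← chL_perm hp])

/-! ## replacement of a contour -/

/-- two contours `c`, `d` together replace the contour `e` (one quantum) -/
def Rep (pl : Bool → Finset ℂ) (κ a b : ℝ) (e c d : Ct) : Prop :=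
  ∀ g, Reg pl κ a b (sg e.sp) g → ∫ t, hh pl g e t = (∫ t, hh pl g c t) + ∫ t, hh pl g d t

theorem NI_replace (G : Geo pl κ a b) {e c d : Ct} (hc' : c.sp = e.sp) (hd' : d.sp = e.sp)
    (he : OkC pl κ a b e) (hc : OkC pl κ a b c) (hd : OkC pl κ a b d) (hr : Rep pl κ a b e c d)
    (L : List Ct) (hL : ∀ x ∈ L, OkC pl κ a b x) (g : Bool → ℂ → ℂ)
    (h : Reg pl κ a b (chL (e :: L)) g) :
    NI pl (e :: L) g = NI pl (c :: L) g + NI pl (d :: L) g := by
  induction L generalizing g with
  | nil =>
    have h' : Reg pl κ a b (sg e.sp) g := by simpa using h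
    simpa [NI] using hr g h'
  | cons x L ih =>
    have hx := hL x (by simp)
    have ok : ∀ y, OkC pl κ a b y → ∀ z ∈ y :: x :: L, OkC pl κ a b z := fun y hy z hz => by
      simp only [List.mem_cons] at hz
      rcases hz with rfl | rfl | hz
      · exact hy
      · exact hx
      · exact hL z (by simp [hz])
    have ok' : ∀ y, OkC pl κ a b y → ∀ z ∈ x :: y :: L, OkC pl κ a b z := fun y hy z hz => by
      refine ok y hy z ?_
      simp only [List.mem_cons] at hz ⊢
      tauto
    have hh1 : ∀ y : Ct, y.sp = e.sp → Reg pl κ a b (chL (y :: x :: L)) g := fun y hy => by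
      rw [chL_cons, hy, ← chL_cons]
      exact h
    have hh2 : ∀ y : Ct, y.sp = e.sp → Reg pl κ a b (chL (x :: y :: L)) g := fun y hy => by
      have := hh1 y hy
      rwa [chL_cons, chL_cons, ← add_assoc, add_comm (sg y.sp), add_assoc, ← chL_cons,
        ← chL_cons] at this
    rw [NI_swap G e x L (ok e he) g h, NI_swap G c x L (ok c hc) g (hh1 c hc'),
      NI_swap G d x L (ok d hd) g (hh1 d hd')]
    show ∫ t, hh pl g x t * NI pl (e :: L) (ad g x.sp (x.pos t)) =
      (∫ t, hh pl g x t * NI pl (c :: L) (ad g x.sp (x.pos t))) +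
      ∫ t, hh pl g x t * NI pl (d :: L) (ad g x.sp (x.pos t))
    rw [← integral_add (NI_int G x (c :: L) (ok' c hc) g (hh2 c hc'))
      (NI_int G x (d :: L) (ok' d hd) g (hh2 d hd'))]
    refine integral_congr_ae (Filter.Eventually.of_forall fun t => ?_)
    show hh pl g x t * NI pl (e :: L) (ad g x.sp (x.pos t)) =
      hh pl g x t * NI pl (c :: L) (ad g x.sp (x.pos t)) +
      hh pl g x t * NI pl (d :: L) (ad g x.sp (x.pos t))
    rw [ih (fun z hz => hL z (by simp [hz])) _ (reg_tail G hx (hh2 e rfl) t), mul_add]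

/-! ## two quanta on a circle around a pole -/

/-- regular part at the pole `p` -/
def rg (pl : Bool → Finset ℂ) (g : Bool → ℂ → ℂ) (s : Bool) (p : ℂ) : ℂ :=
  g s p / ∏ p' ∈ (pl s).erase p, sin (p - p') ^ 2

theorem rg_ad (g : Bool → ℂ → ℂ) (s s0 : Bool) (p z0 : ℂ) :
    rg pl (ad g s0 z0) s p = rg pl g s p * PP s s0 (p - z0) := by
  unfold rg ad
  ring

/-- two quanta at the point `p` -/
def ad2 (g : Bool → ℂ → ℂ) (s : Bool) (p : ℂ) : Bool → ℂ → ℂ := ad (ad g s p) s p

theorem ad2_ad (g : Bool → ℂ → ℂ) (s s0 : Bool) (p z0 : ℂ) :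
    ad2 (ad g s0 z0) s p = ad (ad2 g s p) s0 z0 := by
  unfold ad2
  rw [ad_comm g, ad_comm _ s0 s]

theorem Reg.ad2 {Q : ℤ} {g : Bool → ℂ → ℂ} (G : Geo pl κ a b) (h : Reg pl κ a b Q g) (s : Bool)
    {p : ℂ} (hp : p ∈ pl s) : Reg pl κ a b (Q - sg s - sg s) (NUP1S.ad2 g s p) :=
  (h.ad G s (G.pin s p hp).1 (G.pin s p hp).2).ad G s (G.pin s p hp).1 (G.pin s p hp).2

/-- the pair on the contour `c` is the point `p`, with the constant `K` -/
def Pair (pl : Bool → Finset ℂ) (κ a b : ℝ) (c : Ct) (p : ℂ) (K : ℂ) : Prop :=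
  ∀ g, Reg pl κ a b (sg c.sp + sg c.sp) g →
    ∫ t, hh pl g c t * ∫ t', hh pl (ad g c.sp (c.pos t)) c t' = K * rg pl g c.sp p ^ 2

theorem NI_pair (G : Geo pl κ a b) {c : Ct} (hc : OkC pl κ a b c) {p : ℂ} (hp : p ∈ pl c.sp)
    {K : ℂ} (hP : Pair pl κ a b c p K) (L : List Ct) (hL : ∀ x ∈ L, OkC pl κ a b x)
    (g : Bool → ℂ → ℂ) (h : Reg pl κ a b (chL (c :: c :: L)) g) :
    NI pl (c :: c :: L) g = K * rg pl g c.sp p ^ 2 * NI pl L (ad2 g c.sp p) := by
  induction L generalizing g with
  | nil =>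
    have h' : Reg pl κ a b (sg c.sp + sg c.sp) g := by simpa using h
    simpa [NI] using hP g h'
  | cons x L ih =>
    have hx := hL x (by simp)
    have ok : ∀ z ∈ [c, c, x] ++ L, OkC pl κ a b z := fun z hz => by
      simp only [List.mem_cons, List.cons_append, List.nil_append] at hz
      rcases hz with rfl | rfl | rfl | hz
      · exact hc
      · exact hc
      · exact hx
      · exact hL z (by simp [hz])
    have hp1 : (c :: c :: x :: L).Perm (x :: c :: c :: L) := by
      have : (c :: c :: x :: L).Perm (c :: x :: c :: L) := (List.Perm.swap x c L).cons c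
      exact this.trans (List.Perm.swap x c (c :: L))
    rw [NI_perm G hp1 ok g h]
    have h2 : Reg pl κ a b (chL (x :: c :: c :: L)) g := by rwa [← chL_perm hp1]
    show ∫ t, hh pl g x t * NI pl (c :: c :: L) (ad g x.sp (x.pos t)) =
      K * rg pl g c.sp p ^ 2 *
        ∫ t, hh pl (ad2 g c.sp p) x t * NI pl L (ad (ad2 g c.sp p) x.sp (x.pos t))
    rw [← integral_const_mul]
    refine integral_congr_ae (Filter.Eventually.of_forall fun t => ?_)
    show hh pl g x t * NI pl (c :: c :: L) (ad g x.sp (x.pos t)) =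
      K * rg pl g c.sp p ^ 2 *
        (hh pl (ad2 g c.sp p) x t * NI pl L (ad (ad2 g c.sp p) x.sp (x.pos t)))
    rw [ih (fun z hz => hL z (by simp [hz])) _ (reg_tail G hx h2 t), ad2_ad, rg_ad]
    have e : hh pl (ad2 g c.sp p) x t = hh pl g x t * PP c.sp x.sp (p - x.pos t) ^ 2 := by
      unfold hh Wt ad2 ad
      rw [PP_comm x.sp c.sp, ← PP_neg c.sp x.sp (p - x.pos t), neg_sub]
      ring
    rw [e]
    ring

/-- no quantum on the contour `c` if there are two at the point `p` -/
def Kill (pl : Bool → Finset ℂ) (κ a b : ℝ) (c : Ct) (p : ℂ) : Prop :=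
  ∀ g, Reg pl κ a b (sg c.sp + sg c.sp + sg c.sp) g → ∫ t, hh pl (ad2 g c.sp p) c t = 0

theorem NI_kill (G : Geo pl κ a b) {c : Ct} (hc : OkC pl κ a b c) {p : ℂ} (hp : p ∈ pl c.sp)
    (hK : Kill pl κ a b c p) (L : List Ct) (hL : ∀ x ∈ L, OkC pl κ a b x)
    (g : Bool → ℂ → ℂ) (h : Reg pl κ a b (chL (c :: c :: c :: L)) g) :
    NI pl (c :: L) (ad2 g c.sp p) = 0 := by
  induction L generalizing g with
  | nil =>
    have h' : Reg pl κ a b (sg c.sp + sg c.sp + sg c.sp) g := by
      simpa [add_assoc] using h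
    simpa [NI] using hK g h'
  | cons x L ih =>
    have hx := hL x (by simp)
    have ok : ∀ z ∈ [c, x] ++ L, OkC pl κ a b z := fun z hz => by
      simp only [List.mem_cons, List.cons_append, List.nil_append] at hz
      rcases hz with rfl | rfl | hz
      · exact hc
      · exact hx
      · exact hL z (by simp [hz])
    have h1 : Reg pl κ a b (chL (c :: x :: L)) (NUP1S.ad2 g c.sp p) := by
      have := h.ad2 G c.sp hp
      simp only [chL_cons] at this ⊢
      convert this using 1
      ring
    rw [NI_swap G c x L ok _ h1]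
    show ∫ t, hh pl (ad2 g c.sp p) x t * NI pl (c :: L) (ad (ad2 g c.sp p) x.sp (x.pos t)) = 0
    rw [← integral_zero ℝ ℂ]
    refine integral_congr_ae (Filter.Eventually.of_forall fun t => ?_)
    show hh pl (ad2 g c.sp p) x t * NI pl (c :: L) (ad (ad2 g c.sp p) x.sp (x.pos t)) = 0
    rw [← ad2_ad, ih (fun z hz => hL z (by simp [hz])) (ad g x.sp (x.pos t)), mul_zero]
    have h2 := h.ad G x.sp (hx.re1 t) (hx.re2 t)
    simp only [chL_cons] at h2 ⊢
    convert h2 using 1
    ring

end NUP1S

end
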