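import Pool.Agent.NUP1.Two

/-!
# Products over unordered pairs of a finite type
-/

set_option autoImplicit false
set_option linter.unusedSectionVars false

noncomputable section

open Complex MeasureTheory
open scoped Classical

namespace NUP1S

/-- a strict comparison of all pairs -/
structure Tour {ι : Type*} (r : ι → ι → Prop) : Prop where
  irr : ∀ a, ¬ r a a
  tot : ∀ a b, a ≠ b → (r a b ↔ ¬ r b a)

variable {ι ι' : Type*} [Fintype ι] [Fintype ι']

/-- product over the pairs of a relation -/
def PR (r : ι → ι → Prop) (f : ι → ι → ℂ) : ℂ := ∏ a, ∏ b, if r a b then f a b else 1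

theorem PR_indep {r r' : ι → ι → Prop} (hr : Tour r) (hr' : Tour r') {f : ι → ι → ℂ}
    (hf : ∀ a b, f a b = f b a) : PR r f = PR r' f := by
  have e1 : ∀ (s s' : ι → ι → Prop), PR s f =
      (∏ a, ∏ b, if s a b ∧ s' a b then f a b else 1) *
        ∏ a, ∏ b, if s a b ∧ ¬ s' a b then f a b else 1 := by
    intro s s'
    unfold PR
    rw [← Finset.prod_mul_distrib]
    refine Finset.prod_congr rfl fun a _ => ?_
    rw [← Finset.prod_mul_distrib]
    refine Finset.prod_congr rfl fun b _ => ?_
    by_cases h : s a b <;> by_cases h' : s' a b <;> simp [h, h']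
  rw [e1 r r', e1 r' r]
  congr 1
  · refine Finset.prod_congr rfl fun a _ => Finset.prod_congr rfl fun b _ => ?_
    simp only [and_comm]
  · rw [Finset.prod_comm]
    refine Finset.prod_congr rfl fun a _ => Finset.prod_congr rfl fun b _ => ?_
    by_cases hab : a = b
    · subst hab
      simp [hr.irr, hr'.irr]
    · have h1 := hr.tot a b hab
      have h2 := hr'.tot a b hab
      have h3 : (r b a ∧ ¬ r' b a) ↔ (r' a b ∧ ¬ r a b) := by tauto
      simp only [h3, hf b a]

/-- the comparison through an enumeration -/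
def er (ι : Type*) [Fintype ι] (a b : ι) : Prop := Fintype.equivFin ι a < Fintype.equivFin ι b

theorem tour_of_inj {α : Type*} [LinearOrder α] {g : ι → α} (hg : Function.Injective g) :
    Tour (fun a b => g a < g b) where
  irr a := lt_irrefl _
  tot a b hab := by
    have : g a ≠ g b := fun h => hab (hg h)
    constructor
    · exact fun h => not_lt.2 h.le
    · exact fun h => lt_of_le_of_ne (not_lt.1 h) this

theorem tour_er (ι : Type*) [Fintype ι] : Tour (er ι) :=
  tour_of_inj (Fintype.equivFin ι).injective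

/-- product over the unordered pairs -/
def PU (f : ι → ι → ℂ) : ℂ := PR (er ι) f

theorem PU_eq {r : ι → ι → Prop} (hr : Tour r) {f : ι → ι → ℂ} (hf : ∀ a b, f a b = f b a) :
    PU f = PR r f := PR_indep (tour_er ι) hr hf

theorem PU_equiv (e : ι ≃ ι') {f : ι' → ι' → ℂ} (hf : ∀ a b, f a b = f b a) :
    PU (fun a b => f (e a) (e b)) = PU f := by
  have h : Tour (fun a b : ι => er ι' (e a) (e b)) :=
    { irr := fun a => (tour_er ι').irr _
      tot := fun a b hab => (tour_er ι').tot _ _ (fun h => hab (e.injective h)) }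
  rw [PU_eq h (fun a b => hf _ _)]
  unfold PU PR
  rw [← e.prod_comp]
  refine Finset.prod_congr rfl fun a _ => ?_
  rw [← e.prod_comp]

theorem PU_fin {n : ℕ} {f : Fin n → Fin n → ℂ} (hf : ∀ a b, f a b = f b a) :
    PU f = NUP1.Grand.P f := by
  rw [PU_eq (tour_of_inj Function.injective_id) hf]
  unfold PR NUP1.Grand.P
  refine Finset.prod_congr rfl fun a _ => Finset.prod_congr rfl fun b _ => ?_
  simp only [id]
  by_cases h : a < b <;> simp [h]

/-- lexicographic comparison of a sum -/
def lexr (ι ι' : Type*) [Fintype ι] [Fintype ι'] : ι ⊕ ι' → ι ⊕ ι' → Prop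
  | .inl a, .inl b => er ι a b
  | .inl _, .inr _ => True
  | .inr _, .inl _ => False
  | .inr a, .inr b => er ι' a b

theorem tour_lexr (ι ι' : Type*) [Fintype ι] [Fintype ι'] : Tour (lexr ι ι') where
  irr a := by
    rcases a with a | a
    · exact (tour_er ι).irr a
    · exact (tour_er ι').irr a
  tot a b hab := by
    rcases a with a | a <;> rcases b with b | b <;> simp only [lexr, not_true_eq_false, not_false_eq_true]
    · exact (tour_er ι).tot a b (fun h => hab (h ▸ rfl))
    · exact (tour_er ι').tot a b (fun h => hab (h ▸ rfl))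

theorem PU_sum {f : ι ⊕ ι' → ι ⊕ ι' → ℂ} (hf : ∀ a b, f a b = f b a) :
    PU f = PU (fun a b => f (.inl a) (.inl b)) * PU (fun a b => f (.inr a) (.inr b)) *
      ∏ a, ∏ b, f (.inl a) (.inr b) := by
  rw [PU_eq (tour_lexr ι ι') hf]
  unfold PU PR
  rw [Fintype.prod_sum_type]
  simp_rw [Fintype.prod_sum_type]
  have h1 : ∀ a b, (if lexr ι ι' (.inl a) (.inl b) then f (.inl a) (.inl b) else 1) =
      if er ι a b then f (.inl a) (.inl b) else 1 := fun a b => rfl
  have h2 : ∀ a b, (if lexr ι ι' (.inl a) (.inr b) then f (.inl a) (.inr b) else 1) =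
      f (.inl a) (.inr b) := fun a b => if_pos trivial
  have h3 : ∀ a b, (if lexr ι ι' (.inr a) (.inl b) then f (.inr a) (.inl b) else 1) = 1 :=
    fun a b => if_neg (fun h => h)
  have h4 : ∀ a b, (if lexr ι ι' (.inr a) (.inr b) then f (.inr a) (.inr b) else 1) =
      if er ι' a b then f (.inr a) (.inr b) else 1 := fun a b => rfl
  simp only [h1, h2, h3, h4, Finset.prod_mul_distrib, Finset.prod_const_one, one_mul]
  rw [mul_right_comm]

theorem sum_er (x : ι → ι → ℝ) (hxs : ∀ a b, x a b = x b a) (hx0 : ∀ a, x a a = 0) :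
    ∑ a, ∑ b, (if er ι a b then 2 * x a b else 0) = ∑ a, ∑ b, x a b := by
  have e1 : ∀ a b, x a b = (if er ι a b then x a b else 0) + (if er ι b a then x b a else 0) := by
    intro a b
    by_cases hab : a = b
    · subst hab
      simp [(tour_er ι).irr, hx0]
    · have := (tour_er ι).tot a b hab
      by_cases h : er ι a b
      · rw [if_pos h, if_neg (this.1 h), add_zero]
      · have h' : er ι b a := by
          by_contra h2
          exact h (this.2 h2)
        rw [if_neg h, if_pos h', zero_add, hxs]
  have e2 : ∑ a, ∑ b, x a b = ∑ a, ∑ b, (if er ι a b then x a b else 0) +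
      ∑ a, ∑ b, (if er ι b a then x b a else 0) := by
    rw [← Finset.sum_add_distrib]
    refine Finset.sum_congr rfl fun a _ => ?_
    rw [← Finset.sum_add_distrib]
    exact Finset.sum_congr rfl fun b _ => e1 a b
  rw [e2, Finset.sum_comm (f := fun a b => if er ι b a then x b a else 0), ← two_mul,
    Finset.mul_sum]
  refine Finset.sum_congr rfl fun a _ => ?_
  rw [Finset.mul_sum]
  refine Finset.sum_congr rfl fun b _ => ?_
  split_ifs <;> simp

theorem PU_norm_le (f : ι → ι → ℂ) (x : ι → ι → ℝ)
    (hxs : ∀ a b, x a b = x b a) (hx0 : ∀ a, x a a = 0) {C : ℝ} (hC : 1 ≤ C)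
    (h : ∀ a b, a ≠ b → ‖f a b‖ ≤ C * Real.exp (2 * x a b)) :
    ‖PU f‖ ≤ C ^ (Fintype.card ι * Fintype.card ι) * Real.exp (∑ a, ∑ b, x a b) := by
  have hC0 : 0 ≤ C := zero_le_one.trans hC
  unfold PU PR
  rw [norm_prod]
  simp_rw [norm_prod]
  calc _ ≤ ∏ a : ι, ∏ b : ι, (C * Real.exp (if er ι a b then 2 * x a b else 0)) := by
        refine Finset.prod_le_prod (fun a _ => Finset.prod_nonneg fun b _ => norm_nonneg _)
          fun a _ => Finset.prod_le_prod (fun b _ => norm_nonneg _) fun b _ => ?_
        split_ifs with hab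
        · refine h a b ?_
          rintro rfl
          exact (tour_er ι).irr a hab
        · rw [norm_one, Real.exp_zero, mul_one]
          exact hC
    _ = C ^ (Fintype.card ι * Fintype.card ι) * Real.exp (∑ a, ∑ b, x a b) := by
        simp_rw [Finset.prod_mul_distrib, ← Real.exp_sum, Finset.prod_const, Finset.card_univ]
        rw [← pow_mul, sum_er x hxs hx0]

theorem measurable_PU {X : Type*} [MeasurableSpace X] (f : ι → ι → X → ℂ)
    (h : ∀ a b, Measurable (f a b)) : Measurable fun x => PU fun a b => f a b x := by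
  unfold PU PR
  refine Finset.measurable_prod _ fun a _ => Finset.measurable_prod _ fun b _ => ?_
  split_ifs
  · exact h a b
  · exact measurable_const

end NUP1S

end
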