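import Pool.Agent.NUP1S.Host

/-!
# Moving all quanta of a species across double poles: satellites
-/

set_option autoImplicit false
set_option linter.unusedSectionVars false

noncomputable section

open Complex MeasureTheory NUP1 Set Filter Topology
open scoped Real

namespace NUP1S

variable {pl : Bool → Finset ℂ} {κ a b : ℝ}

theorem chL_append (L L' : List Ct) : chL (L ++ L') = chL L + chL L' := by
  simp [chL]

theorem chL_replicate (n : ℕ) (c : Ct) : chL (List.replicate n c) = n * sg c.sp := by
  simp [chL]

section binom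
variable {e c d : Ct} {L : List Ct} {g : Bool → ℂ → ℂ}

/-- `i` quanta on `e`, `j` on `c`, `k` on `d` -/
def Tn (pl : Bool → Finset ℂ) (e c d : Ct) (L : List Ct) (g : Bool → ℂ → ℂ) (i j k : ℕ) : ℂ :=
  NI pl (List.replicate i e ++ (List.replicate j c ++ (List.replicate k d ++ L))) g

theorem Tn_succ (G : Geo pl κ a b) (hc' : c.sp = e.sp) (hd' : d.sp = e.sp)
    (he : OkC pl κ a b e) (hc : OkC pl κ a b c) (hd : OkC pl κ a b d) (hr : Rep pl κ a b e c d)
    (hL : ∀ x ∈ L, OkC pl κ a b x) (i j k : ℕ)
    (h : Reg pl κ a b ((i + 1 + j + k : ℕ) * sg e.sp + chL L) g) :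
    Tn pl e c d L g (i + 1) j k = Tn pl e c d L g i (j + 1) k + Tn pl e c d L g i j (k + 1) := by
  unfold Tn
  have ok : ∀ i j k, ∀ x ∈ List.replicate i e ++ (List.replicate j c ++ (List.replicate k d ++ L)),
      OkC pl κ a b x := by
    intro i j k x hx
    simp only [List.mem_append, List.mem_replicate] at hx
    rcases hx with ⟨_, rfl⟩ | ⟨_, rfl⟩ | ⟨_, rfl⟩ | hx
    · exact he
    · exact hc
    · exact hd
    · exact hL x hx
  have ch : ∀ i j k : ℕ, chL (List.replicate i e ++ (List.replicate j c ++
      (List.replicate k d ++ L))) = (i + j + k : ℕ) * sg e.sp + chL L := by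
    intro i j k
    rw [chL_append, chL_append, chL_append, chL_replicate, chL_replicate, chL_replicate, hc', hd']
    push_cast
    ring
  have h1 : Reg pl κ a b (chL (e :: (List.replicate i e ++ (List.replicate j c ++
      (List.replicate k d ++ L))))) g := by
    rw [chL_cons, ch]
    convert h using 1
    push_cast
    ring
  have hr1 := NI_replace G hc' hd' he hc hd hr _ (ok i j k) g h1
  have p1 : (c :: (List.replicate i e ++ (List.replicate j c ++ (List.replicate k d ++ L)))).Perm
      (List.replicate i e ++ (List.replicate (j + 1) c ++ (List.replicate k d ++ L))) :=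
    List.perm_middle.symm
  have p2 : (d :: (List.replicate i e ++ (List.replicate j c ++ (List.replicate k d ++ L)))).Perm
      (List.replicate i e ++ (List.replicate j c ++ (List.replicate (k + 1) d ++ L))) := by
    have q1 : (List.replicate j c ++ (List.replicate (k + 1) d ++ L)).Perm
        (d :: (List.replicate j c ++ (List.replicate k d ++ L))) := List.perm_middle
    exact (List.perm_middle.symm).trans (q1.symm.append_left (List.replicate i e))
  have e1 := NI_perm G p1 (fun x hx => by
    rcases List.mem_cons.1 hx with rfl | hx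
    · exact hc
    · exact ok i j k x hx) g (by rwa [chL_cons, hc', ← chL_cons])
  have e2 := NI_perm G p2 (fun x hx => by
    rcases List.mem_cons.1 hx with rfl | hx
    · exact hd
    · exact ok i j k x hx) g (by rwa [chL_cons, hd', ← chL_cons])
  rw [← e1, ← e2, ← hr1]
  rfl

theorem Tn_sum (G : Geo pl κ a b) (hc' : c.sp = e.sp) (hd' : d.sp = e.sp)
    (he : OkC pl κ a b e) (hc : OkC pl κ a b c) (hd : OkC pl κ a b d) (hr : Rep pl κ a b e c d)
    (hL : ∀ x ∈ L, OkC pl κ a b x) (i : ℕ) : ∀ (j k : ℕ),
    Reg pl κ a b ((i + j + k : ℕ) * sg e.sp + chL L) g →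
    Tn pl e c d L g i j k = ∑ x ∈ Finset.HasAntidiagonal.antidiagonal i,
      (i.choose x.1 : ℂ) * Tn pl e c d L g 0 (x.1 + j) (x.2 + k) := by
  induction i with
  | zero => intro j k _; simp
  | succ i ih =>
    intro j k h
    have h1 : Reg pl κ a b ((i + 1 + j + k : ℕ) * sg e.sp + chL L) g := h
    have h2 : Reg pl κ a b ((i + (j + 1) + k : ℕ) * sg e.sp + chL L) g := by
      rwa [show i + (j + 1) + k = i + 1 + j + k by ring]
    have h3 : Reg pl κ a b ((i + j + (k + 1) : ℕ) * sg e.sp + chL L) g := by
      rwa [show i + j + (k + 1) = i + 1 + j + k by ring]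
    rw [Tn_succ G hc' hd' he hc hd hr hL i j k h1, ih _ _ h2, ih _ _ h3,
      Finset.sum_antidiagonal_choose_succ_mul (fun x y => Tn pl e c d L g 0 (x + j) (y + k)),
      add_comm]
    congr 1
    · refine Finset.sum_congr rfl fun x hx => ?_
      rw [show x.2 + (k + 1) = x.2 + 1 + k by ring]
    · refine Finset.sum_congr rfl fun x hx => ?_
      rw [show x.1 + (j + 1) = x.1 + 1 + j by ring,
        Nat.choose_symm_of_eq_add (Finset.HasAntidiagonal.mem_antidiagonal.1 hx).symm]

/-- `(1 / n!)` times the integral over `n` quanta on the contour `c` -/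
def Z1 (pl : Bool → Finset ℂ) (c : Ct) (n : ℕ) (L : List Ct) (g : Bool → ℂ → ℂ) : ℂ :=
  ((n.factorial : ℕ) : ℂ)⁻¹ * NI pl (List.replicate n c ++ L) g

theorem Z1_sum (G : Geo pl κ a b) (hc' : c.sp = e.sp) (hd' : d.sp = e.sp)
    (he : OkC pl κ a b e) (hc : OkC pl κ a b c) (hd : OkC pl κ a b d) (hr : Rep pl κ a b e c d)
    (hL : ∀ x ∈ L, OkC pl κ a b x) (n : ℕ) (h : Reg pl κ a b (n * sg e.sp + chL L) g) :
    Z1 pl e n L g = ∑ k ∈ Finset.range (n + 1), ((k.factorial : ℕ) : ℂ)⁻¹ *
      Z1 pl c (n - k) (List.replicate k d ++ L) g := by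
  have key := Tn_sum G hc' hd' he hc hd hr hL n 0 0 (by simpa using h)
  have e1 : Tn pl e c d L g n 0 0 = NI pl (List.replicate n e ++ L) g := by
    simp [Tn]
  unfold Z1
  rw [← e1, key, Finset.mul_sum, ← Finset.Nat.sum_antidiagonal_swap,
    Finset.Nat.sum_antidiagonal_eq_sum_range_succ_mk]
  refine Finset.sum_congr rfl fun k hk => ?_
  have hk' : k ≤ n := by
    have := Finset.mem_range.1 hk
    omega
  simp only [Prod.swap_prod_mk, add_zero]
  have e2 : Tn pl e c d L g 0 (n - k) k =
      NI pl (List.replicate (n - k) c ++ (List.replicate k d ++ L)) g := by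
    simp [Tn]
  rw [e2]
  have h3 : ((n.factorial : ℕ) : ℂ)⁻¹ * (n.choose (n - k) : ℂ) =
      ((k.factorial : ℕ) : ℂ)⁻¹ * (((n - k).factorial : ℕ) : ℂ)⁻¹ := by
    have h4 := Nat.choose_mul_factorial_mul_factorial hk'
    have h5 : (n.choose k : ℂ) * (k.factorial : ℂ) * ((n - k).factorial : ℂ) = (n.factorial : ℂ) := by
      exact_mod_cast h4
    rw [Nat.choose_symm hk']
    have a1 : ((n.factorial : ℕ) : ℂ) ≠ 0 := by exact_mod_cast Nat.factorial_ne_zero n
    have a2 : ((k.factorial : ℕ) : ℂ) ≠ 0 := by exact_mod_cast Nat.factorial_ne_zero k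
    have a3 : (((n - k).factorial : ℕ) : ℂ) ≠ 0 := by exact_mod_cast Nat.factorial_ne_zero _
    field_simp
    rw [← h5]
  rw [← mul_assoc, h3, mul_assoc]

end binom

theorem sum_three {φ : ℕ → ℂ} (n : ℕ) (h : ∀ k, 3 ≤ k → k ≤ n → φ k = 0) :
    ∑ k ∈ Finset.range (n + 1), φ k =
      φ 0 + (if 1 ≤ n then φ 1 else 0) + (if 2 ≤ n then φ 2 else 0) := by
  rcases n with _ | _ | n
  · simp
  · simp [Finset.sum_range_succ]
  · rw [if_pos (by omega), if_pos (by omega)]
    have : Finset.range 3 ⊆ Finset.range (n + 1 + 1 + 1) := Finset.range_mono (by omega)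
    rw [← Finset.sum_subset this]
    · simp [Finset.sum_range_succ]
    · intro k hk' hk
      rw [Finset.mem_range] at hk hk'
      exact h k (by omega) (by omega)

section step
variable {s : Bool} {σ τ : ℝ} {p : ℂ} {r : ℝ} {L : List Ct} {g : Bool → ℂ → ℂ}

/-- **One double pole: no, one or two satellites.** -/
theorem SG.step (S : SG pl κ a b s σ τ p r) (hL : ∀ x ∈ L, OkC pl κ a b x) (n : ℕ)
    (h : Reg pl κ a b (n * sg s + chL L) g) :
    Z1 pl (lineC s σ) n L g = Z1 pl (lineC s τ) n L g +
      (if 1 ≤ n then ∫ t, hh pl g (circC s p r) t *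
        Z1 pl (lineC s τ) (n - 1) L (ad g s (cM p r t)) else 0) +
      (if 2 ≤ n then (sin (2 * l) / sin l) ^ 2 * rg pl g s p ^ 2 *
        Z1 pl (lineC s τ) (n - 2) L (ad2 g s p) else 0) := by
  have okA := S.ok2
  have okC := S.ok3
  refine (Z1_sum S.G (e := lineC s σ) (c := lineC s τ) (d := circC s p r) rfl rfl S.ok1 okA okC
    S.rep hL n h).trans ?_
  have okl : ∀ n k, ∀ x ∈ List.replicate n (lineC s τ) ++ (List.replicate k (circC s p r) ++ L),
      OkC pl κ a b x := by
    intro n k x hx
    simp only [List.mem_append, List.mem_replicate] at hx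
    rcases hx with ⟨_, rfl⟩ | ⟨_, rfl⟩ | hx
    · exact okA
    · exact okC
    · exact hL x hx
  have okl' : ∀ n, ∀ x ∈ List.replicate n (lineC s τ) ++ L, OkC pl κ a b x := by
    intro n x hx
    exact okl n 0 x (by simpa using hx)
  have chl : ∀ n k : ℕ, chL (List.replicate n (lineC s τ) ++ (List.replicate k (circC s p r) ++ L)) =
      (n + k : ℕ) * sg s + chL L := by
    intro n k
    rw [chL_append, chL_append, chL_replicate, chL_replicate]
    show (n : ℤ) * sg s + ((k : ℤ) * sg s + chL L) = _
    push_cast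
    ring
  have chl' : ∀ n : ℕ, chL (List.replicate n (lineC s τ) ++ L) = n * sg s + chL L := by
    intro n
    have := chl n 0
    simpa using this
  -- the quanta on the circle in front
  have perm : ∀ n k, (List.replicate n (lineC s τ) ++ (List.replicate k (circC s p r) ++ L)).Perm
      (List.replicate k (circC s p r) ++ (List.replicate n (lineC s τ) ++ L)) := by
    intro n k
    rw [← List.append_assoc, ← List.append_assoc]
    exact List.perm_append_comm.append_right L
  have hP : ∀ m k : ℕ, m + k = n → Z1 pl (lineC s τ) m (List.replicate k (circC s p r) ++ L) g =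
      ((m.factorial : ℕ) : ℂ)⁻¹ *
        NI pl (List.replicate k (circC s p r) ++ (List.replicate m (lineC s τ) ++ L)) g := by
    intro m k hmk
    unfold Z1
    rw [NI_perm S.G (perm m k) (okl m k) g (by rw [chl, hmk]; exact h)]
  rw [sum_three]
  · congr 1
    · congr 1
      · simp [Z1]
      · split_ifs with h1
        · rw [hP (n - 1) 1 (by omega)]
          show _ * (_ * ∫ t, hh pl g (circC s p r) t * NI pl (List.replicate (n - 1) (lineC s τ) ++ L)
            (ad g s (cM p r t))) = _
          unfold Z1
          rw [Nat.factorial_one, Nat.cast_one, inv_one, one_mul, ← integral_const_mul]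
          refine integral_congr_ae (Eventually.of_forall fun t => ?_)
          simp only []
          ring
        · rfl
    · split_ifs with h2
      · rw [hP (n - 2) 2 (by omega)]
        have e := NI_pair S.G okC S.hp S.pair (List.replicate (n - 2) (lineC s τ) ++ L) (okl' _) g (by
          rw [chL_cons, chL_cons, chl']
          show Reg pl κ a b (sg s + (sg s + (((n - 2 : ℕ) : ℤ) * sg s + chL L))) g
          convert h using 1
          push_cast [h2]
          ring)
        show _ * (_ * NI pl (circC s p r :: circC s p r :: (List.replicate (n - 2) (lineC s τ) ++ L)) g) = _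
        rw [e]
        unfold Z1
        show ((Nat.factorial 2 : ℕ) : ℂ)⁻¹ * ((((n - 2).factorial : ℕ) : ℂ)⁻¹ *
          (2 * (sin (2 * l) / sin l) ^ 2 * rg pl g s p ^ 2 *
            NI pl (List.replicate (n - 2) (lineC s τ) ++ L) (ad2 g s p))) = _
        rw [Nat.factorial_two]
        push_cast
        ring
      · rfl
  · intro k hk hkn
    rw [hP (n - k) k (by omega)]
    obtain ⟨j, rfl⟩ : ∃ j, k = j + 3 := ⟨k - 3, by omega⟩
    set M := List.replicate j (circC s p r) ++ (List.replicate (n - (j + 3)) (lineC s τ) ++ L) with hM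
    have okM : ∀ x ∈ M, OkC pl κ a b x := by
      intro x hx
      refine okl (n - (j + 3)) j x ?_
      exact (perm (n - (j + 3)) j).mem_iff.2 hx
    have chM : chL M = (n - 3 : ℤ) * sg s + chL L := by
      rw [hM, ← chL_perm (perm (n - (j + 3)) j), chl]
      push_cast [hkn]
      ring
    have hreg : Reg pl κ a b (chL (circC s p r :: circC s p r :: circC s p r :: M)) g := by
      rw [chL_cons, chL_cons, chL_cons, chM]
      show Reg pl κ a b (sg s + (sg s + (sg s + ((n - 3 : ℤ) * sg s + chL L)))) g
      convert h using 1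
      ring
    have e := NI_pair S.G okC S.hp S.pair (circC s p r :: M) (fun x hx => by
      rcases List.mem_cons.1 hx with rfl | hx
      · exact okC
      · exact okM x hx) g hreg
    have e2 := NI_kill S.G okC S.hp S.kill M okM g hreg
    show _ * (_ * NI pl (circC s p r :: circC s p r :: circC s p r :: M) g) = 0
    rw [e]
    show _ * (_ * (_ * NI pl (circC s p r :: M) (ad2 g s p))) = 0
    have e3 : NI pl (circC s p r :: M) (ad2 g s p) = 0 := e2
    rw [e3]
    ring

end step

end NUP1S

end
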