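import Pool.Agent.NUP1S.Gen

/-!
# Moving the line of one object
-/

set_option autoImplicit false
set_option linter.unusedSectionVars false

noncomputable section

open Complex MeasureTheory
open scoped Classical

namespace NUP1S

open NUP1 NUP1.Bd

variable {ι ι' : Type*} [Fintype ι] [Fintype ι']

theorem mp_unique {α : Type*} [inst : Fintype α] [Unique α] :
    MeasurePreserving (MeasurableEquiv.funUnique α ℝ).symm volume
      (Measure.pi fun _ => volume) := by
  have := (measurePreserving_funUnique (volume : Measure ℝ) α).symm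
  have h : inst = Unique.fintype := Subsingleton.elim _ _
  subst h
  exact this

/-- two functions with the same integrals over one coordinate have the same integral -/
theorem integral_update {f₁ f₂ : (ι → ℝ) → ℂ} (i₀ : ι)
    (h₁ : Integrable f₁ (Measure.pi fun _ => volume))
    (h₂ : Integrable f₂ (Measure.pi fun _ => volume))
    (h : ∀ t : ι → ℝ, ∫ s : ℝ, f₁ (Function.update t i₀ s) = ∫ s : ℝ, f₂ (Function.update t i₀ s)) :
    ∫ t, f₁ t ∂(Measure.pi fun _ => volume) = ∫ t, f₂ t ∂(Measure.pi fun _ => volume) := by
  have mp := (measurePreserving_piEquivPiSubtypeProd (fun _ : ι => (volume : Measure ℝ))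
    (fun i => i = i₀)).symm
  set e := (MeasurableEquiv.piEquivPiSubtypeProd (fun _ : ι => ℝ) (fun i => i = i₀)).symm with he
  have key : ∀ f : (ι → ℝ) → ℂ, Integrable f (Measure.pi fun _ => volume) →
      ∫ t, f t ∂(Measure.pi fun _ => volume) =
      ∫ v : {i : ι // ¬ i = i₀} → ℝ, (∫ s : ℝ,
        f (Function.update (e (fun _ => 0, v)) i₀ s)) ∂(Measure.pi fun _ => volume) := by
    intro f hf
    have hI := (mp.integrable_comp_emb (MeasurableEquiv.measurableEmbedding _)).2 hf
    rw [← mp.integral_comp']
    refine (integral_prod_symm _ hI).trans ?_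
    refine integral_congr_ae (Filter.Eventually.of_forall fun v => ?_)
    simp only [Function.comp]
    refine (MeasurePreserving.integral_comp' (@mp_unique {i : ι // i = i₀}
      (Subtype.fintype fun i => i = i₀) _) (fun y => f (e (y, v)))).symm.trans ?_
    refine integral_congr_ae (Filter.Eventually.of_forall fun s => ?_)
    simp only []
    congr 1
    funext i
    by_cases hi : i = i₀
    · subst hi
      simp [he, MeasurableEquiv.piEquivPiSubtypeProd, Equiv.piEquivPiSubtypeProd,
        MeasurableEquiv.funUnique]
    · simp [he, MeasurableEquiv.piEquivPiSubtypeProd, Equiv.piEquivPiSubtypeProd, hi]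
  rw [key f₁ h₁, key f₂ h₂]
  refine integral_congr_ae (Filter.Eventually.of_forall fun v => ?_)
  exact h _

theorem poles_symm (o o' : CO) : ∀ s ∈ poles o' o, -s ∈ poles o o' := by
  obtain ⟨c, k⟩ := o
  obtain ⟨c', k'⟩ := o'
  have hcc : c = c' ∨ c ≠ c' := em _
  rcases hcc with rfl | hc
  · cases k <;> cases k' <;> simp [poles]
  · have hc' : c' ≠ c := fun h => hc h.symm
    cases k <;> cases k' <;> simp [poles, hc, hc']

theorem Ok.symm {o o' : CO} {d : ℝ} (h : Ok o o' d) : Ok o' o (-d) := by
  intro s hs
  have := h (-s) (poles_symm o o' s hs)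
  rw [show -d + s = -(d + -s) by ring, Real.sin_neg]
  exact neg_ne_zero.2 this

/-- the integrand as a function of one position -/
def G1 (o : ι → CO) (h : ι → ℂ → ℂ) (z : ι → ℂ) (i₀ : ι) (u : ℂ) : ℂ :=
  Fg o h (Function.update z i₀ u)

theorem update_pos (x t : ι → ℝ) (i₀ : ι) (a s : ℝ) :
    pos (Function.update x i₀ a) (Function.update t i₀ s) =
      Function.update (pos x t) i₀ (vl a s) := by
  funext i
  unfold pos
  by_cases hi : i = i₀
  · subst hi
    simp
  · simp [hi]

/-- **Moving one line.** -/
theorem shift_one {o : ι → CO} (hn : ∑ i, sc (o i) = 0) {h : ι → ℂ → ℂ} {x : ι → ℝ} (i₀ : ι)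
    {x₁ x₂ κ : ℝ} (hx : x₁ ≤ x₂) (hκ : 0 < κ) (hm : ∀ i, Measurable (h i))
    (hh : ∀ i, i ≠ i₀ → DecOn κ {x i} (h i)) (hh0 : DecOn κ (Set.Icc x₁ x₂) (h i₀))
    (hc : ContinuousOn (h i₀) (CS x₁ x₂)) (hd : DifferentiableOn ℂ (h i₀) (OS x₁ x₂))
    (hg : ∀ a b, a ≠ b → a ≠ i₀ → b ≠ i₀ → Ok (o a) (o b) (x a - x b))
    (hg0 : ∀ b, b ≠ i₀ → ∀ d ∈ Set.Icc x₁ x₂, Ok (o i₀) (o b) (d - x b)) :
    Ig o h (Function.update x i₀ x₁) = Ig o h (Function.update x i₀ x₂) := by
  -- integrability on the lines
  have hint : ∀ s ∈ Set.Icc x₁ x₂, Integrable (fun t : ι → ℝ =>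
      Fg o h (pos (Function.update x i₀ s) t)) (Measure.pi fun _ => volume) := by
    intro s hs
    refine integrable_Fg hn hκ hm (fun i => ?_) (fun a b hab => ?_)
    · by_cases hi : i = i₀
      · subst hi
        obtain ⟨D, hD⟩ := hh0
        refine ⟨D, fun z hz => hD z ?_⟩
        simp only [Function.update_self, Set.mem_singleton_iff] at hz
        rw [hz]
        exact hs
      · simpa [hi] using hh i hi
    · by_cases ha : a = i₀
      · subst ha
        have hb : b ≠ a := fun h => hab h.symm
        simpa [hb] using hg0 b hb s hs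
      · by_cases hb : b = i₀
        · subst hb
          have := (hg0 a ha s hs).symm
          simpa [ha] using this
        · simpa [ha, hb] using hg a b hab ha hb
  -- constants
  set K : ι → Set ℝ := fun i => if i = i₀ then Set.Icc x₁ x₂ else {x i} with hK
  have hhK : ∀ i, DecOn κ (K i) (h i) := by
    intro i
    by_cases hi : i = i₀
    · subst hi
      simpa [hK] using hh0
    · simpa [hK, hi] using hh i hi
  obtain ⟨D, hD, hhD⟩ := DecOn.const h K hhK
  set KK : ι → ι → Set ℝ := fun a b => if a = i₀ then Set.Icc (x₁ - x b) (x₂ - x b) else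
    if b = i₀ then Set.Icc (x a - x₂) (x a - x₁) else {x a - x b} with hKK
  have hOk : ∀ a b, a ≠ b → ∀ d ∈ KK a b, Ok (o a) (o b) d := by
    intro a b hab d hd
    by_cases ha : a = i₀
    · subst ha
      have hb : b ≠ a := fun h => hab h.symm
      simp only [hKK, if_true, Set.mem_Icc] at hd
      have := hg0 b hb (d + x b) ⟨by linarith [hd.1], by linarith [hd.2]⟩
      simpa using this
    · by_cases hb : b = i₀
      · subst hb
        simp only [hKK, ha, if_false, if_true, Set.mem_Icc] at hd
        have := (hg0 a ha (x a - d) ⟨by linarith [hd.2], by linarith [hd.1]⟩).symm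
        simpa using this
      · simp only [hKK, ha, hb, if_false, Set.mem_singleton_iff] at hd
        rw [hd]
        exact hg a b hab ha hb
  obtain ⟨C, hC, hgC⟩ := gz_const o KK (fun a b => by
    simp only [hKK]
    split_ifs
    · exact isCompact_Icc
    · exact isCompact_Icc
    · exact isCompact_singleton) hOk
  refine integral_update i₀ (hint x₁ ⟨le_rfl, hx⟩) (hint x₂ ⟨hx, le_rfl⟩) fun t => ?_
  simp_rw [update_pos]
  -- the real parts of the differences
  have hre : ∀ u : ℂ, u.re ∈ Set.Icc x₁ x₂ → ∀ a b, a ≠ b →
      (Function.update (pos x t) i₀ u a - Function.update (pos x t) i₀ u b).re ∈ KK a b := by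
    intro u hu a b hab
    by_cases ha : a = i₀
    · subst ha
      have hb : b ≠ a := fun h => hab h.symm
      simp only [hKK, if_true, Function.update_self, Function.update_of_ne hb, sub_re, pos_re,
        Set.mem_Icc]
      exact ⟨by linarith [hu.1], by linarith [hu.2]⟩
    · by_cases hb : b = i₀
      · subst hb
        simp only [hKK, ha, if_false, if_true, Function.update_self, Function.update_of_ne ha,
          sub_re, pos_re, Set.mem_Icc]
        exact ⟨by linarith [hu.2], by linarith [hu.1]⟩
      · simp [hKK, ha, hb]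
  -- the function of one variable
  have hcont : ContinuousOn (fun u => Fg o h (Function.update (pos x t) i₀ u)) (CS x₁ x₂) := by
    unfold Fg PU PR
    refine ContinuousOn.mul ?_ ?_
    · refine continuousOn_finsetProd _ fun i _ => ?_
      by_cases hi : i = i₀
      · subst hi
        simpa using hc
      · simpa [hi] using continuousOn_const
    · refine continuousOn_finsetProd _ fun a _ => continuousOn_finsetProd _ fun b _ => ?_
      by_cases hab : er ι a b
      · simp only [if_pos hab]
        have hab' : a ≠ b := by
          rintro rfl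
          exact (tour_er ι).irr a hab
        intro u hu
        have h1 := (differentiableAt_gz (o a) (o b) (z := Function.update (pos x t) i₀ u a -
          Function.update (pos x t) i₀ u b) (hOk a b hab' _ (hre u hu a b hab'))).continuousAt
        have h2 : ContinuousAt (fun u => Function.update (pos x t) i₀ u a -
            Function.update (pos x t) i₀ u b) u := by
          have : Continuous fun u => Function.update (pos x t) i₀ u := by fun_prop
          exact (((continuous_apply a).comp this).sub ((continuous_apply b).comp this)).continuousAt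
        exact (ContinuousAt.comp (g := gz (o a) (o b)) (f := fun u =>
          Function.update (pos x t) i₀ u a - Function.update (pos x t) i₀ u b) (x := u)
          h1 h2).continuousWithinAt
      · simp only [if_neg hab]
        exact continuousOn_const
  have hdiff : DifferentiableOn ℂ (fun u => Fg o h (Function.update (pos x t) i₀ u))
      (OS x₁ x₂) := by
    unfold Fg PU PR
    have hcomp : ∀ i, Differentiable ℂ fun u => Function.update (pos x t) i₀ u i := by
      intro i
      by_cases hi : i = i₀
      · subst hi
        simpa using differentiable_id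
      · simp only [Function.update_of_ne hi]
        exact differentiable_const _
    refine DifferentiableOn.mul ?_ ?_
    · refine DifferentiableOn.fun_finsetProd fun i _ => ?_
      by_cases hi : i = i₀
      · subst hi
        simpa using hd
      · simp only [Function.update_of_ne hi]
        exact differentiableOn_const _
    · refine DifferentiableOn.fun_finsetProd fun a _ =>
        DifferentiableOn.fun_finsetProd fun b _ => ?_
      by_cases hab : er ι a b
      · simp only [if_pos hab]
        have hab' : a ≠ b := by
          rintro rfl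
          exact (tour_er ι).irr a hab
        intro u hu
        have h1 := differentiableAt_gz (o a) (o b) (z := Function.update (pos x t) i₀ u a -
          Function.update (pos x t) i₀ u b)
          (hOk a b hab' _ (hre u ⟨hu.1.le, hu.2.le⟩ a b hab'))
        exact (h1.comp (f := fun u => Function.update (pos x t) i₀ u a -
            Function.update (pos x t) i₀ u b) u
            ((hcomp a u).sub (hcomp b u))).differentiableWithinAt
      · simp only [if_neg hab]
        exact differentiableOn_const _
  have hbound : ∀ s t' : ℝ, x₁ ≤ s → s ≤ x₂ → (0 : ℝ) ≤ |t'| →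
      ‖(fun u => Fg o h (Function.update (pos x t) i₀ u)) (s + t' * I)‖ ≤
      (D ^ Fintype.card ι * C ^ (Fintype.card ι * Fintype.card ι)) *
        Real.exp (-κ * |t'|) := by
    intro s t' h1 h2 _
    have hu : ((s : ℂ) + t' * I).re ∈ Set.Icc x₁ x₂ := by
      rw [vl_re]
      exact ⟨h1, h2⟩
    set z := Function.update (pos x t) i₀ ((s : ℂ) + t' * I) with hz
    have hb := Fg_norm_le hn (h := h) (z := z) (D := D) (κ := κ) hC (fun i => by
      refine hhD i _ ?_
      by_cases hi : i = i₀
      · subst hi
        simpa [hz, hK] using hu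
      · simp [hz, hK, hi]) (fun a b hab => hgC a b hab _ (hre _ hu a b hab))
    refine hb.trans ?_
    have hC0 : 0 ≤ C := zero_le_one.trans hC
    refine mul_le_mul_of_nonneg_left ?_ (by positivity)
    have e1 : (z i₀).im = t' := by simp [hz]
    calc ∏ i, Real.exp (-(κ * |(z i).im|)) ≤ Real.exp (-(κ * |(z i₀).im|)) := by
          rw [← Finset.mul_prod_erase Finset.univ _ (Finset.mem_univ i₀)]
          refine mul_le_of_le_one_right (Real.exp_pos _).le
            (Finset.prod_le_one (fun i _ => (Real.exp_pos _).le) fun i _ => ?_)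
          rw [Real.exp_le_one_iff]
          have := mul_nonneg hκ.le (abs_nonneg (z i).im)
          linarith
      _ = Real.exp (-κ * |t'|) := by rw [e1, neg_mul]
  have := line_shift0 (G := fun u => Fg o h (Function.update (pos x t) i₀ u)) hx hcont hdiff hκ
    hbound
  exact this.symm

theorem DecOn.mono {κ : ℝ} {K K' : Set ℝ} {h : ℂ → ℂ} (hd : DecOn κ K' h) (hK : K ⊆ K') :
    DecOn κ K h := by
  obtain ⟨D, hD⟩ := hd
  exact ⟨D, fun z hz => hD z (hK hz)⟩

/-- **Moving all lines.** -/
theorem shift_all {o : ι → CO} (hn : ∑ i, sc (o i) = 0) {h : ι → ℂ → ℂ} {lo hi x x' : ι → ℝ}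
    {κ : ℝ} (hκ : 0 < κ) (hm : ∀ i, Measurable (h i))
    (hx : ∀ i, x i ∈ Set.Icc (lo i) (hi i)) (hx' : ∀ i, x' i ∈ Set.Icc (lo i) (hi i))
    (hh : ∀ i, DecOn κ (Set.Icc (lo i) (hi i)) (h i))
    (hc : ∀ i, lo i < hi i → ContinuousOn (h i) (CS (lo i) (hi i)))
    (hd : ∀ i, lo i < hi i → DifferentiableOn ℂ (h i) (OS (lo i) (hi i)))
    (hg : ∀ a b, a ≠ b → ∀ u ∈ Set.Icc (lo a) (hi a), ∀ v ∈ Set.Icc (lo b) (hi b),
      Ok (o a) (o b) (u - v)) :
    Ig o h x = Ig o h x' := by
  have key : ∀ s : Finset ι, Ig o h x = Ig o h (fun i => if i ∈ s then x' i else x i) := by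
    intro s
    induction s using Finset.induction_on with
    | empty => simp
    | insert i₀ s hi₀ ih =>
      rw [ih]
      set y : ι → ℝ := fun i => if i ∈ s then x' i else x i with hy
      have hyK : ∀ i, y i ∈ Set.Icc (lo i) (hi i) := by
        intro i
        simp only [hy]
        split_ifs
        · exact hx' i
        · exact hx i
      have e1 : y = Function.update y i₀ (x i₀) := by
        funext i
        by_cases h : i = i₀
        · subst h
          simp [hy, hi₀]
        · simp [h]
      have e2 : (fun i => if i ∈ insert i₀ s then x' i else x i) =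
          Function.update y i₀ (x' i₀) := by
        funext i
        by_cases h : i = i₀
        · subst h
          simp
        · simp [hy, h, Finset.mem_insert]
      rw [e2]
      rw [show Ig o h y = Ig o h (Function.update y i₀ (x i₀)) by rw [← e1]]
      have mv : ∀ a b : ℝ, a ∈ Set.Icc (lo i₀) (hi i₀) → b ∈ Set.Icc (lo i₀) (hi i₀) → a < b →
          Ig o h (Function.update y i₀ a) = Ig o h (Function.update y i₀ b) := by
        intro a b ha hb hab
        have hlt : lo i₀ < hi i₀ := lt_of_le_of_lt ha.1 (lt_of_lt_of_le hab hb.2)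
        have hsub : Set.Icc a b ⊆ Set.Icc (lo i₀) (hi i₀) := Set.Icc_subset_Icc ha.1 hb.2
        refine shift_one hn i₀ hab.le hκ hm (fun i _ => (hh i).mono ?_) ((hh i₀).mono hsub)
          ((hc i₀ hlt).mono fun u hu => hsub hu) ((hd i₀ hlt).mono fun u hu =>
            ⟨lt_of_le_of_lt ha.1 hu.1, lt_of_lt_of_le hu.2 hb.2⟩)
          (fun a b hab _ _ => hg a b hab _ (hyK a) _ (hyK b))
          (fun b hb d hd' => hg i₀ b (fun h => hb h.symm) d (hsub hd') _ (hyK b))
        intro z hz
        rw [Set.mem_singleton_iff] at hz
        rw [hz]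
        exact hyK i
      rcases lt_trichotomy (x i₀) (x' i₀) with h | h | h
      · exact mv _ _ (hx i₀) (hx' i₀) h
      · rw [h]
      · exact (mv _ _ (hx' i₀) (hx i₀) h).symm
  rw [key Finset.univ]
  simp

end NUP1S

end
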