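import Pool.Agent.NUP1S.ExactQ

/-!
# Simple poles: the quantum sits at the pole
-/

set_option autoImplicit false
set_option linter.unusedSectionVars false

noncomputable section

open Complex MeasureTheory NUP1 Set Filter Topology
open scoped Real

namespace NUP1S

variable {pl : Bool → Finset ℂ} {κ a b : ℝ}

/-! ## the residue -/

/-- residue of the weight at a simple pole (`g s p = 0`) -/
def rs (pl : Bool → Finset ℂ) (g : Bool → ℂ → ℂ) (s : Bool) (p : ℂ) : ℂ :=
  deriv (g s) p / ∏ p' ∈ (pl s).erase p, sin (p - p') ^ 2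

theorem rs_ad {g : Bool → ℂ → ℂ} {s s0 : Bool} {p z0 : ℂ} (h0 : g s p = 0)
    (hd : DifferentiableAt ℂ (g s) p) (hz : |(p - z0).re| < l) :
    rs pl (ad g s0 z0) s p = rs pl g s p * PP s s0 (p - z0) := by
  have h1 : DifferentiableAt ℂ (fun u => PP s s0 (u - z0)) p :=
    (PP_diff s s0 hz).comp p (differentiableAt_id.sub_const z0)
  have e : deriv (ad g s0 z0 s) p = deriv (g s) p * PP s s0 (p - z0) := by
    have := (hd.hasDerivAt.mul h1.hasDerivAt).deriv
    rw [h0, zero_mul, add_zero] at this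
    exact this
  unfold rs
  rw [e]
  ring

section
variable {s : Bool} {σ τ : ℝ} {p : ℂ} {r : ℝ}

/-- **The circle around a simple pole.** -/
theorem SG.simple (S : SG pl κ a b s σ τ p r) {Q : ℤ} {g : Bool → ℂ → ℂ} (hg : Reg pl κ a b Q g)
    (h0 : g s p = 0) : ∫ t, hh pl g (circC s p r) t = -rs pl g s p := by
  have hH : ∀ u ∈ CS σ τ, DifferentiableAt ℂ (Hf pl g s p) u := fun u hu => S.Hdiff hg hu
  obtain ⟨N, n1, n2, n3⟩ := exists_N S.wd S.pOS (H := Hf pl g s p)
    (fun u hu => (hH u hu).continuousAt.continuousWithinAt)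
    (fun u hu => (hH u (OS_sub_CS _ _ hu)).differentiableWithinAt)
  have hcirc := circ_two (isOpen_OS σ τ) S.ball S.hr S.piU n2 (H := Hf pl g s p)
    (fun u hu => n3 u (OS_sub_CS _ _ hu))
  have e2 : ∫ t, hh pl g (circC s p r) t = -N p := by
    have : ∀ t, hh pl g (circC s p r) t = cOm r t *
        (fun z => Hf pl g s p z / sin (z - p) ^ 2) (cM p r t) := by
      intro t
      show cOm r t * Wt pl g s (cM p r t) = _
      rw [Wt_eq S.hp]
    rw [integral_congr_ae (Eventually.of_forall this), int_cOm p r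
      (fun z => Hf pl g s p z / sin (z - p) ^ 2), hcirc]
    have h2 : (2 * π * I : ℂ) ≠ 0 := by
      have := Real.pi_ne_zero
      simp [I_ne_zero]
    field_simp
  rw [e2]
  congr 1
  -- the derivative of the regular part
  have hp := S.pOS
  have hnhds : OS σ τ ∈ 𝓝 p := (isOpen_OS σ τ).mem_nhds hp
  have hNd : DifferentiableAt ℂ N p := n2.differentiableAt hnhds
  have hz : Hf pl g s p p = 0 := by
    unfold Hf
    rw [h0, zero_div]
  have d1 : HasDerivAt (Hf pl g s p) (N p) p := by
    have hs : HasDerivAt (fun u => sin (u - p)) 1 p := by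
      simpa using ((hasDerivAt_id p).sub_const p).csin
    have h1 := hNd.hasDerivAt.mul hs
    simp only [sub_self, sin_zero, mul_zero, mul_one, zero_add] at h1
    refine h1.congr_of_eventuallyEq ?_
    filter_upwards [hnhds] with u hu
    have := n3 u (OS_sub_CS _ _ hu)
    rw [hz, zero_mul, zero_add] at this
    exact this
  have d2 : HasDerivAt (Hf pl g s p) (rs pl g s p) p := by
    have hgd : DifferentiableAt ℂ (g s) p := by
      refine hg.diff s p ?_ ?_
      · have := S.aσ
        linarith [hp.1]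
      · have := S.τb
        linarith [hp.2]
    have hne : ∏ p' ∈ (pl s).erase p, sin (p - p') ^ 2 ≠ 0 := by
      refine Finset.prod_ne_zero_iff.2 fun p' hp' => pow_ne_zero 2 ?_
      obtain ⟨h1, h2⟩ := Finset.mem_erase.1 hp'
      have hl := Bd.l_pos
      have hpi := Bd.pi_eq
      have hwd := S.G.wd
      have hpin := S.G.pin s p' h2
      have hpin' := S.G.pin s p S.hp
      refine sin_ne ?_ ?_ (sub_ne_zero.2 h1.symm)
      · rw [sub_re]
        linarith [hpin.1, hpin.2, hpin'.1, hpin'.2]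
      · rw [sub_re]
        linarith [hpin.1, hpin.2, hpin'.1, hpin'.2]
    have hK : DifferentiableAt ℂ (fun u => ∏ p' ∈ (pl s).erase p, sin (u - p') ^ 2) p := by
      have := DifferentiableAt.fun_finsetProd (𝕜 := ℂ) (u := (pl s).erase p)
        (f := fun p' u => sin (u - p') ^ 2) (x := p) (fun b _ => by fun_prop)
      simpa using this
    have h1 := hgd.hasDerivAt.div hK.hasDerivAt hne
    rw [h0, zero_mul, sub_zero] at h1
    have e : deriv (g s) p * (∏ p' ∈ (pl s).erase p, sin (p - p') ^ 2) /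
        (∏ p' ∈ (pl s).erase p, sin (p - p') ^ 2) ^ 2 = rs pl g s p := by
      unfold rs
      field_simp
    rw [e] at h1
    exact h1
  exact d1.unique d2

end

/-- one quantum on the contour `c` = one quantum at the point `p` -/
def Smp (pl : Bool → Finset ℂ) (κ a b : ℝ) (c : Ct) (p : ℂ) : Prop :=
  ∀ g, Reg pl κ a b (sg c.sp) g → g c.sp p = 0 → ∫ t, hh pl g c t = -rs pl g c.sp p

theorem NI_simple (G : Geo pl κ a b) {c : Ct} (hc : OkC pl κ a b c) {p : ℂ} (hp : p ∈ pl c.sp)
    (hK : Smp pl κ a b c p) (L : List Ct) (hL : ∀ x ∈ L, OkC pl κ a b x)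
    (g : Bool → ℂ → ℂ) (h : Reg pl κ a b (chL (c :: L)) g) (h0 : g c.sp p = 0) :
    NI pl (c :: L) g = -rs pl g c.sp p * NI pl L (ad g c.sp p) := by
  induction L generalizing g with
  | nil =>
    have h' : Reg pl κ a b (sg c.sp) g := by
      simpa using h
    simpa [NI] using hK g h' h0
  | cons x L ih =>
    have hx := hL x (by simp)
    have ok : ∀ z ∈ [c, x] ++ L, OkC pl κ a b z := fun z hz => by
      simp only [List.mem_cons, List.cons_append, List.nil_append] at hz
      rcases hz with rfl | rfl | hz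
      · exact hc
      · exact hx
      · exact hL z (by simp [hz])
    have hpin := G.pin c.sp p hp
    rw [NI_swap G c x L ok _ h]
    show ∫ t, hh pl g x t * NI pl (c :: L) (ad g x.sp (x.pos t)) =
      -rs pl g c.sp p * ∫ t, hh pl (ad g c.sp p) x t * NI pl L (ad (ad g c.sp p) x.sp (x.pos t))
    rw [← integral_const_mul]
    refine integral_congr_ae (Filter.Eventually.of_forall fun t => ?_)
    show hh pl g x t * NI pl (c :: L) (ad g x.sp (x.pos t)) =
      -rs pl g c.sp p * (hh pl (ad g c.sp p) x t * NI pl L (ad (ad g c.sp p) x.sp (x.pos t)))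
    have hr : Reg pl κ a b (chL (c :: L)) (ad g x.sp (x.pos t)) := by
      have h2 := h.ad G x.sp (hx.re1 t) (hx.re2 t)
      simp only [chL_cons] at h2 ⊢
      convert h2 using 1
      ring
    have h1 : ad g x.sp (x.pos t) c.sp p = 0 := by
      unfold ad
      rw [h0, zero_mul]
    have hdist : |(p - x.pos t).re| < l := by
      have := G.wd
      have := hx.re1 t
      have := hx.re2 t
      rw [sub_re, abs_lt]
      constructor <;> linarith [hpin.1, hpin.2]
    rw [ih (fun z hz => hL z (by simp [hz])) _ hr h1,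
      rs_ad h0 (h.diff c.sp p hpin.1 hpin.2) hdist]
    have e1 : ad (ad g x.sp (x.pos t)) c.sp p = ad (ad g c.sp p) x.sp (x.pos t) := by
      funext s u
      unfold ad
      ring
    have e2 : hh pl (ad g c.sp p) x t = hh pl g x t * PP c.sp x.sp (p - x.pos t) := by
      unfold hh Wt ad
      rw [PP_comm x.sp c.sp, ← PP_neg c.sp x.sp (p - x.pos t), neg_sub]
      ring
    rw [e1, e2]
    ring

/-! ## several simple poles -/

/-- conditions at a simple pole -/
structure SD.CondS {ε : Type*} (pl : Bool → Finset ℂ) (κ a b : ℝ) (E : SD ε) (i : ε) : Prop where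
  ok : OkC pl κ a b (E.ci i)
  mem : E.p i ∈ pl (E.sp i)
  smp : Smp pl κ a b (E.ci i) (E.p i)
  pair : Pair pl κ a b (E.ci i) (E.p i) (2 * kp)

section several
variable {ε : Type*} {E : SD ε} {υ : ε → Fin 3}

/-- one body data in the presence of `υ i` quanta at the pole `i` -/
def SD.ak0 (E : SD ε) (υ : ε → Fin 3) (g : Bool → ℂ → ℂ) (i : ε) : Bool → ℂ → ℂ :=
  fun s u => g s u * PP s (E.sp i) (u - E.p i) ^ (υ i : ℕ)

/-- pair weight -/
def SD.pr0 (E : SD ε) (υ : ε → Fin 3) (i j : ε) : ℂ :=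
  PP (E.sp i) (E.sp j) (E.p i - E.p j) ^ ((υ i : ℕ) * (υ j : ℕ))

/-- one body weight of a quantum at the simple pole `i` -/
def SD.om0 (E : SD ε) (υ : ε → Fin 3) (pl : Bool → Finset ℂ) (g : Bool → ℂ → ℂ) (i : ε) : ℂ :=
  if υ i = 1 then -rs pl g (E.sp i) (E.p i) else 1

/-- weight of the quanta at the simple poles of a list, by recursion -/
def SD.W0 (E : SD ε) (υ : ε → Fin 3) (pl : Bool → Finset ℂ) : List ε → (Bool → ℂ → ℂ) → ℂ
  | [], _ => 1
  | i :: l, g => E.om0 υ pl g i * SD.W0 E υ pl l (E.ak0 υ g i)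

/-- one body data in the presence of the quanta at the simple poles of a list -/
def SD.a0 (E : SD ε) (υ : ε → Fin 3) : List ε → (Bool → ℂ → ℂ) → Bool → ℂ → ℂ
  | [], g => g
  | i :: l, g => SD.a0 E υ l (E.ak0 υ g i)

theorem SD.a0_eq (l : List ε) : ∀ (g : Bool → ℂ → ℂ) (s : Bool) (u : ℂ),
    E.a0 υ l g s u = g s u * (l.map fun i => PP s (E.sp i) (u - E.p i) ^ (υ i : ℕ)).prod := by
  induction l with
  | nil => intro g s u; simp [SD.a0]
  | cons i l ih =>
    intro g s u
    unfold SD.a0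
    rw [ih, List.map_cons, List.prod_cons]
    unfold SD.ak0
    ring

theorem SD.cL_cons' [DecidableEq ε] (i : ε) (l : List ε) :
    E.cL υ (i :: l) = List.replicate (υ i) (E.ci i) ++ E.cL υ l := rfl

theorem chL_rep (E : SD ε) (n : ℕ) (i : ε) : chL (List.replicate n (E.ci i)) = n * sg (E.sp i) :=
  chL_replicate n (E.ci i)

/-- **quanta at simple poles** -/
theorem SD.eval0 [DecidableEq ε] (G : Geo pl κ a b) {l : List ε} (h2 : ∀ i ∈ l, υ i ≠ 2)
    (hD : ∀ i ∈ l, E.CondS pl κ a b i) {M : List Ct} (hM : ∀ c ∈ M, OkC pl κ a b c) :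
    ∀ g : Bool → ℂ → ℂ, Reg pl κ a b (chL (E.cL υ l) + chL M) g →
    (∀ i ∈ l, g (E.sp i) (E.p i) = 0) →
    NI pl (E.cL υ l ++ M) g = SD.W0 E υ pl l g * NI pl M (E.a0 υ l g) ∧
      Reg pl κ a b (chL M) (E.a0 υ l g) := by
  induction l with
  | nil =>
    intro g hg _
    have e : chL (E.cL υ ([] : List ε)) = 0 := rfl
    rw [e, zero_add] at hg
    refine ⟨?_, hg⟩
    show NI pl M g = 1 * NI pl M g
    rw [one_mul]
  | cons i l ih =>
    intro g hg h0
    have hc := hD i (by simp)
    have hDl : ∀ j ∈ l, E.CondS pl κ a b j := fun j hj => hD j (List.mem_cons_of_mem _ hj)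
    have h2l : ∀ j ∈ l, υ j ≠ 2 := fun j hj => h2 j (List.mem_cons_of_mem _ hj)
    have okl : ∀ z ∈ E.cL υ l ++ M, OkC pl κ a b z := by
      intro z hz
      rcases List.mem_append.1 hz with hz | hz
      · unfold SD.cL at hz
        obtain ⟨j, hj, hz⟩ := List.mem_flatMap.1 hz
        rw [(List.mem_replicate.1 hz).2]
        exact (hDl j hj).ok
      · exact hM z hz
    have h0' : ∀ j ∈ l, (E.ak0 υ g i) (E.sp j) (E.p j) = 0 := fun j hj => by
      show g (E.sp j) (E.p j) * _ = 0
      rw [h0 j (List.mem_cons_of_mem _ hj), zero_mul]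
    rw [SD.cL_cons', chL_append, chL_rep] at hg
    rw [SD.cL_cons']
    rcases fin3_cases (υ i) with h | h | h
    · have e : E.ak0 υ g i = g := by
        funext s u
        simp [SD.ak0, h]
      have e2 : E.om0 υ pl g i = 1 := by
        unfold SD.om0
        rw [if_neg (by rw [h]; decide)]
      have := ih h2l hDl (E.ak0 υ g i) (by rw [e]; rw [h] at hg; simpa using hg) h0'
      unfold SD.W0 SD.a0
      rw [e2, one_mul, h]
      rw [e] at this ⊢
      exact this
    · have e : E.ak0 υ g i = ad g (E.sp i) (E.p i) := by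
        funext s u
        simp [SD.ak0, ad, h]
      have e2 : E.om0 υ pl g i = -rs pl g (E.sp i) (E.p i) := by
        unfold SD.om0
        rw [if_pos h]
      have hg1 : Reg pl κ a b (chL (E.ci i :: (E.cL υ l ++ M))) g := by
        rw [chL_cons, chL_append]
        rw [h] at hg
        have e3 : (E.ci i).sp = E.sp i := rfl
        rw [e3]
        convert hg using 1
        simp
        ring
      have key := NI_simple G hc.ok hc.mem hc.smp (E.cL υ l ++ M) okl g hg1 (h0 i (by simp))
      have hg2 : Reg pl κ a b (chL (E.cL υ l) + chL M) (E.ak0 υ g i) := by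
        have hp := G.pin _ _ hc.mem
        have := hg1.ad G (E.sp i) hp.1 hp.2
        rw [chL_cons, chL_append] at this
        have e3 : (E.ci i).sp = E.sp i := rfl
        rw [e3] at this
        rw [e]
        convert this using 1
        ring
      obtain ⟨ih1, ih2⟩ := ih h2l hDl (E.ak0 υ g i) hg2 h0'
      refine ⟨?_, ih2⟩
      unfold SD.W0 SD.a0
      rw [e2, h]
      show NI pl (E.ci i :: (E.cL υ l ++ M)) g = _
      rw [key]
      show -rs pl g (E.sp i) (E.p i) * NI pl (E.cL υ l ++ M) (ad g (E.sp i) (E.p i)) = _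
      rw [← e, ih1]
      ring
    · exact absurd h (h2 i (by simp))

/-- no pair at a simple pole -/
theorem SD.eval0_two [DecidableEq ε] (G : Geo pl κ a b) {l : List ε} {i : ε} (hi : i ∈ l)
    (h2 : υ i = 2) (hD : ∀ i ∈ l, E.CondS pl κ a b i) {M : List Ct}
    (hM : ∀ c ∈ M, OkC pl κ a b c) {g : Bool → ℂ → ℂ}
    (hg : Reg pl κ a b (chL (E.cL υ l) + chL M) g) (h0 : g (E.sp i) (E.p i) = 0) :
    NI pl (E.cL υ l ++ M) g = 0 := by
  obtain ⟨l1, l2, rfl⟩ := List.append_of_mem hi
  have hc := hD i hi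
  have okc : ∀ z ∈ E.cL υ (l1 ++ i :: l2), OkC pl κ a b z := by
    intro z hz
    unfold SD.cL at hz
    obtain ⟨j, hj, hz⟩ := List.mem_flatMap.1 hz
    rw [(List.mem_replicate.1 hz).2]
    exact (hD j hj).ok
  have e : E.cL υ (l1 ++ i :: l2) = E.cL υ l1 ++ ([E.ci i, E.ci i] ++ E.cL υ l2) := by
    unfold SD.cL
    rw [List.flatMap_append, List.flatMap_cons, h2]
    rfl
  have hp : (E.cL υ (l1 ++ i :: l2) ++ M).Perm
      (E.ci i :: E.ci i :: (E.cL υ l1 ++ (E.cL υ l2 ++ M))) := by
    rw [e]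
    have h1 : (E.cL υ l1 ++ ([E.ci i, E.ci i] ++ E.cL υ l2)).Perm
        ([E.ci i, E.ci i] ++ (E.cL υ l1 ++ E.cL υ l2)) := by
      rw [← List.append_assoc, ← List.append_assoc]
      exact List.perm_append_comm.append_right _
    refine (h1.append_right M).trans ?_
    rw [List.append_assoc, List.append_assoc]
    exact List.Perm.refl _
  have okall : ∀ z ∈ E.cL υ (l1 ++ i :: l2) ++ M, OkC pl κ a b z := fun z hz => by
    rcases List.mem_append.1 hz with hz | hz
    · exact okc z hz
    · exact hM z hz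
  have hg1 : Reg pl κ a b (chL (E.cL υ (l1 ++ i :: l2) ++ M)) g := by
    rw [chL_append]
    exact hg
  rw [NI_perm G hp okall g hg1, NI_pair G hc.ok hc.mem hc.pair (E.cL υ l1 ++ (E.cL υ l2 ++ M))
    (fun z hz => okall z (hp.mem_iff.2 (List.mem_cons_of_mem _ (List.mem_cons_of_mem _ hz)))) g
    (by rw [← chL_perm hp]; exact hg1)]
  have hz : rg pl g (E.ci i).sp (E.p i) = 0 := by
    show g (E.sp i) (E.p i) / _ = 0
    rw [h0, zero_div]
  rw [hz]
  ring

theorem SD.pr0_symm (i j : ε) : E.pr0 υ i j = E.pr0 υ j i := by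
  unfold SD.pr0
  rw [PP_comm, ← PP_neg, neg_sub, mul_comm]

/-- the recursion as a product -/
theorem SD.W0_ofFn {n : ℕ} : ∀ (v : Fin n → ε) (g : Bool → ℂ → ℂ),
    (∀ k, g (E.sp (v k)) (E.p (v k)) = 0) →
    (∀ k, DifferentiableAt ℂ (g (E.sp (v k))) (E.p (v k))) →
    (∀ k k', |(E.p (v k) - E.p (v k')).re| < l) → (∀ k, υ (v k) ≠ 2) →
    SD.W0 E υ pl (List.ofFn v) g = (∏ k, E.om0 υ pl g (v k)) *
      Grand.P fun k k' => E.pr0 υ (v k) (v k') := by
  induction n with
  | zero =>
    intro v g _ _ _ _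
    simp [SD.W0, Grand.P_zero]
  | succ n ih =>
    intro v g h0 hd hw h2
    rw [List.ofFn_succ]
    show E.om0 υ pl g (v 0) *
      SD.W0 E υ pl (List.ofFn fun i => v i.succ) (E.ak0 υ g (v 0)) = _
    have hpp : ∀ k : Fin n, DifferentiableAt ℂ (fun u => PP (E.sp (v k.succ)) (E.sp (v 0))
        (u - E.p (v 0))) (E.p (v k.succ)) := fun k =>
      DifferentiableAt.comp (g := PP (E.sp (v k.succ)) (E.sp (v 0)))
        (f := fun u => u - E.p (v 0)) _ (PP_diff _ _ (hw k.succ 0))
        (differentiableAt_id.sub_const _)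
    rw [ih (fun i => v i.succ) (E.ak0 υ g (v 0))
      (fun k => by
        show g _ _ * _ = 0
        rw [h0, zero_mul])
      (fun k => (hd k.succ).mul ((hpp k).pow _))
      (fun k k' => hw _ _) (fun k => h2 _),
      Grand.P_succAbove (fun k k' => E.pr0 υ (v k) (v k')) (fun k k' => SD.pr0_symm _ _) 0,
      Fin.prod_univ_succ]
    have e : ∀ k : Fin n, E.om0 υ pl (E.ak0 υ g (v 0)) (v k.succ) =
        E.om0 υ pl g (v k.succ) * E.pr0 υ (v 0) (v k.succ) := fun k => by
      rw [SD.pr0_symm]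
      unfold SD.om0 SD.pr0
      rcases fin3_cases (υ (v k.succ)) with h | h | h
      · rw [h, if_neg (by decide), if_neg (by decide)]
        simp
      · rw [h, if_pos rfl, if_pos rfl]
        rcases fin3_cases (υ (v 0)) with h' | h' | h'
        · have e3 : E.ak0 υ g (v 0) = g := by
            funext s u
            simp [SD.ak0, h']
          rw [e3, h']
          simp
        · have e3 : E.ak0 υ g (v 0) = ad g (E.sp (v 0)) (E.p (v 0)) := by
            funext s u
            simp [SD.ak0, ad, h']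
          rw [e3, h', rs_ad (h0 _) (hd _) (hw _ _)]
          simp
        · exact absurd h' (h2 0)
      · exact absurd h (h2 _)
    simp only [Fin.zero_succAbove, e, Finset.prod_mul_distrib]
    have e4 : ∏ x : Fin n, E.pr0 υ (v x.succ) (v 0) = ∏ x : Fin n, E.pr0 υ (v 0) (v x.succ) :=
      Finset.prod_congr rfl fun x _ => SD.pr0_symm _ _
    rw [← e4]
    ring

variable [Fintype ε] [DecidableEq ε]

theorem SD.W0_univ {g : Bool → ℂ → ℂ} (h0 : ∀ i, g (E.sp i) (E.p i) = 0)
    (hd : ∀ i, DifferentiableAt ℂ (g (E.sp i)) (E.p i))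
    (hw : ∀ i j, |(E.p i - E.p j).re| < l) (h2 : ∀ i, υ i ≠ 2) (e : Fin (Fintype.card ε) ≃ ε) :
    SD.W0 E υ pl (List.ofFn fun k => e k) g =
      (∏ i, E.om0 υ pl g i) * PU fun i j => E.pr0 υ i j := by
  rw [SD.W0_ofFn _ _ (fun k => h0 _) (fun k => hd _) (fun k k' => hw _ _) (fun k => h2 _),
    ← PU_fin (fun k k' => SD.pr0_symm _ _), PU_equiv e (fun i j => SD.pr0_symm i j),
    e.prod_comp fun i => E.om0 υ pl g i]

theorem SD.a0_univ (g : Bool → ℂ → ℂ) (e : Fin (Fintype.card ε) ≃ ε) :
    E.a0 υ (List.ofFn fun k => e k) g =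
      fun s u => g s u * ∏ i, PP s (E.sp i) (u - E.p i) ^ (υ i : ℕ) := by
  funext s u
  rw [SD.a0_eq, List.map_ofFn, List.prod_ofFn]
  congr 1
  exact e.prod_comp fun i => PP s (E.sp i) (u - E.p i) ^ (υ i : ℕ)

end several

end NUP1S

end
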