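import Pool.Agent.NUP1S.Simple

/-!
# Double poles (satellites) and simple poles together
-/

set_option autoImplicit false
set_option linter.unusedSectionVars false

noncomputable section

open Complex MeasureTheory NUP1 Set Filter Topology
open scoped Real

namespace NUP1S

section expand0
variable {ι : Type*} [Fintype ι] [DecidableEq ι]
variable {D : SD ι} {act : ι → Prop} [DecidablePred act] {x y κ : ℝ}

/-- **Stage 3, two species, before the evaluation.** -/
theorem SD.Geom.expand0 (h : D.Geom act x y) (hκ : 0 < κ) (a a' : ℕ) {g : Bool → ℂ → ℂ}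
    (hg : Reg (D.pl act) κ x y (a * sg true + a' * sg false) g) {L : List ι} (hnd : L.Nodup)
    (hun : ∀ i, i ∈ L) :
    ZZ (D.pl act) x a a' g = ∑ τ : ι → Fin 3,
      if (∀ i, τ i ≠ 0 → act i) ∧ D.nn true τ ≤ a ∧ D.nn false τ ≤ a' then
        (((a - D.nn true τ).factorial : ℕ) : ℂ)⁻¹ * (((a' - D.nn false τ).factorial : ℕ) : ℂ)⁻¹ *
          (fS L τ * NI (D.pl act) (D.cL τ L ++ (List.replicate (a - D.nn true τ) (lineC true y) ++
            List.replicate (a' - D.nn false τ) (lineC false y))) g)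
      else 0 := by
  have G := h.geo hκ
  set pl := D.pl act with hpl
  set P : ι → ℂ × ℝ := fun i => (D.p i, D.r i) with hP
  set lt := D.ls act true with hlt
  set lf := D.ls act false with hlf
  have oxt := (h.line hκ true).1
  have oxf := (h.line hκ false).1
  have oyt := (h.line hκ true).2
  have oyf := (h.line hκ false).2
  have hin : ∀ s, ∀ i ∈ D.ls act s, (P i).1 ∈ pl s := fun s i hi =>
    SD.mem_pl.2 ⟨i, (SD.mem_ls.1 hi).1, (SD.mem_ls.1 hi).2, rfl⟩
  have hou : ∀ s, ∀ p ∈ pl s, (∃ i ∈ D.ls act s, (P i).1 = p) ∨ p.re < x ∨ y < p.re := by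
    intro s p hp
    obtain ⟨i, h1, h2, h3⟩ := SD.mem_pl.1 hp
    exact Or.inl ⟨i, SD.mem_ls.2 ⟨h1, h2⟩, h3⟩
  have okcS : ∀ s τ, ∀ z ∈ cS s P (D.ls act s) τ, OkC pl κ x y z := by
    intro s τ
    rw [cS_ls (τ := τ) fun _ _ => rfl]
    exact h.okCL hκ fun i hi => (SD.mem_ls.1 hi).1
  -- species X
  have s1 : ZZ pl x a a' g = ((a'.factorial : ℕ) : ℂ)⁻¹ *
      Z1 pl (lineC true x) a (List.replicate a' (lineC false x)) g := by
    unfold ZZ Z1
    ring
  have hg1 : Reg pl κ x y (a * sg true + chL (List.replicate a' (lineC false x))) g := by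
    rw [chL_replicate]
    exact hg
  rw [s1, expand_one G (s := true) le_rfl P lt x a (List.replicate a' (lineC false x)) g
    (SD.ls_nodup _) (ok_rep oxf a') le_rfl (h.chn true) (hin true) (hou true) hg1,
    Finset.mul_sum]
  -- species Y
  have s2 : ∀ τ₁ ∈ Sup lt, ((a'.factorial : ℕ) : ℂ)⁻¹ * (if nS lt τ₁ ≤ a then
      fS lt τ₁ * Z1 pl (lineC true y) (a - nS lt τ₁)
        (cS true P lt τ₁ ++ List.replicate a' (lineC false x)) g else 0) =
      ∑ τ₂ ∈ Sup lf, if nS lt τ₁ ≤ a then (if nS lf τ₂ ≤ a' then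
        fS lt τ₁ * fS lf τ₂ * ((((a - nS lt τ₁).factorial : ℕ) : ℂ)⁻¹ *
          Z1 pl (lineC false y) (a' - nS lf τ₂) (cS false P lf τ₂ ++
            (cS true P lt τ₁ ++ List.replicate (a - nS lt τ₁) (lineC true y))) g) else 0) else 0 := by
    intro τ₁ _
    by_cases h1 : nS lt τ₁ ≤ a
    · simp only [if_pos h1]
      have hperm : (List.replicate (a - nS lt τ₁) (lineC true y) ++
          (cS true P lt τ₁ ++ List.replicate a' (lineC false x))).Perm
          (List.replicate a' (lineC false x) ++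
            (cS true P lt τ₁ ++ List.replicate (a - nS lt τ₁) (lineC true y))) := by
        rw [← List.append_assoc]
        refine List.perm_append_comm.trans ?_
        exact List.Perm.append_left _ List.perm_append_comm
      have ok1 : ∀ z ∈ List.replicate (a - nS lt τ₁) (lineC true y) ++
          (cS true P lt τ₁ ++ List.replicate a' (lineC false x)), OkC pl κ x y z :=
        ok_app (ok_rep oyt _) (ok_app (okcS true τ₁) (ok_rep oxf _))
      have hch : chL (List.replicate (a - nS lt τ₁) (lineC true y) ++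
          (cS true P lt τ₁ ++ List.replicate a' (lineC false x))) =
          a * sg true + a' * sg false := by
        rw [chL_append, chL_append, chL_replicate, chL_replicate, chL_cS]
        show ((a - nS lt τ₁ : ℕ) : ℤ) * sg true + ((nS lt τ₁ : ℤ) * sg true +
          (a' : ℤ) * sg false) = _
        push_cast [h1]
        ring
      have e1 : ((a'.factorial : ℕ) : ℂ)⁻¹ * (fS lt τ₁ * Z1 pl (lineC true y) (a - nS lt τ₁)
          (cS true P lt τ₁ ++ List.replicate a' (lineC false x)) g) =
          fS lt τ₁ * ((((a - nS lt τ₁).factorial : ℕ) : ℂ)⁻¹ * Z1 pl (lineC false x) a'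
            (cS true P lt τ₁ ++ List.replicate (a - nS lt τ₁) (lineC true y)) g) := by
        unfold Z1
        rw [NI_perm G hperm ok1 g (by rw [hch]; exact hg)]
        ring
      have hg2 : Reg pl κ x y (a' * sg false +
          chL (cS true P lt τ₁ ++ List.replicate (a - nS lt τ₁) (lineC true y))) g := by
        have := chL_perm hperm
        rw [hch, chL_append, chL_replicate] at this
        have e3 : (a' : ℤ) * sg false +
          chL (cS true P lt τ₁ ++ List.replicate (a - nS lt τ₁) (lineC true y)) =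
            a * sg true + a' * sg false := this.symm
        rw [e3]
        exact hg
      rw [e1, expand_one G (s := false) le_rfl P lf x a'
        (cS true P lt τ₁ ++ List.replicate (a - nS lt τ₁) (lineC true y)) g
        (SD.ls_nodup _) (ok_app (okcS true τ₁) (ok_rep oyt _)) le_rfl (h.chn false) (hin false)
        (hou false) hg2, Finset.mul_sum, Finset.mul_sum]
      refine Finset.sum_congr rfl fun τ₂ _ => ?_
      split_ifs
      · ring
      · ring
    · simp only [if_neg h1, mul_zero, Finset.sum_const_zero]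
  rw [Finset.sum_congr rfl s2, sum_Sup_two, Finset.sum_filter]
  refine Finset.sum_congr rfl fun τ _ => ?_
  by_cases hτ : ∀ i, τ i ≠ 0 → act i
  · have d1 : ∀ i, D.sp i = true → (fun i => if D.sp i = true then τ i else 0) i = τ i :=
      fun i hi => if_pos hi
    have d2 : ∀ i, D.sp i = false → (fun i => if D.sp i = true then 0 else τ i) i = τ i :=
      fun i hi => if_neg (by rw [hi]; decide)
    rw [if_pos hτ, nS_ls hτ d1, nS_ls hτ d2, fS_ls d1, fS_ls d2, cS_ls d1, cS_ls d2]
    by_cases h1 : D.nn true τ ≤ a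
    · by_cases h2 : D.nn false τ ≤ a'
      · rw [if_pos h1, if_pos h2, if_pos ⟨hτ, h1, h2⟩]
        obtain ⟨l0, hl0, hnd0, hun0⟩ := univ_split (D := D) hτ
        set R := List.replicate (a - D.nn true τ) (lineC true y) ++
          List.replicate (a' - D.nn false τ) (lineC false y) with hR
        have okR : ∀ z ∈ R, OkC pl κ x y z := ok_app (ok_rep oyt _) (ok_rep oyf _)
        have hpL : L.Perm (lt ++ (lf ++ l0)) :=
          (List.perm_ext_iff_of_nodup hnd hnd0).2 fun i => ⟨fun _ => hun0 i, fun _ => hun i⟩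
        have hcl : D.cL τ (lt ++ (lf ++ l0)) = D.cL τ lt ++ D.cL τ lf := by
          rw [SD.cL_append, SD.cL_append, SD.cL_zero hl0, List.append_nil]
        have hcp : (D.cL τ L).Perm (D.cL τ lt ++ D.cL τ lf) := by
          rw [← hcl]
          exact SD.cL_perm hpL
        have hfs : fS L τ = fS lt τ * fS lf τ := by
          rw [fS_perm hpL, fS_append, fS_append, fS_zero hl0, mul_one]
        have hperm : (List.replicate (a' - D.nn false τ) (lineC false y) ++ (D.cL τ lf ++
            (D.cL τ lt ++ List.replicate (a - D.nn true τ) (lineC true y)))).Perm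
            (D.cL τ L ++ R) := by
          refine List.Perm.trans ?_ (List.Perm.append_right _ hcp.symm)
          rw [hR]
          refine List.perm_append_comm.trans ?_
          rw [← List.append_assoc, ← List.append_assoc]
          refine List.Perm.append_right _ ?_
          exact List.Perm.append_right _ List.perm_append_comm
        have hcl2 : chL (D.cL τ L ++ R) = a * sg true + a' * sg false := by
          rw [chL_append, chL_perm hcp, hR, chL_append, chL_append, chL_replicate, chL_replicate,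
            chL_cL_ls hτ, chL_cL_ls hτ]
          show (D.nn true τ : ℤ) * sg true + (D.nn false τ : ℤ) * sg false +
            (((a - D.nn true τ : ℕ) : ℤ) * sg true +
            ((a' - D.nn false τ : ℕ) : ℤ) * sg false) = _
          push_cast [h1, h2]
          ring
        have okall : ∀ z ∈ List.replicate (a' - D.nn false τ) (lineC false y) ++ (D.cL τ lf ++
            (D.cL τ lt ++ List.replicate (a - D.nn true τ) (lineC true y))), OkC pl κ x y z :=
          ok_app (ok_rep oyf _) (ok_app (h.okCL hκ fun i hi => (SD.mem_ls.1 hi).1)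
            (ok_app (h.okCL hκ fun i hi => (SD.mem_ls.1 hi).1) (ok_rep oyt _)))
        have e1 : NI pl (List.replicate (a' - D.nn false τ) (lineC false y) ++ (D.cL τ lf ++
            (D.cL τ lt ++ List.replicate (a - D.nn true τ) (lineC true y)))) g =
            NI pl (D.cL τ L ++ R) g :=
          NI_perm G hperm okall g (by rw [chL_perm hperm, hcl2]; exact hg)
        rw [hfs]
        unfold Z1
        rw [e1]
        ring
      · rw [if_pos h1, if_neg h2, if_neg fun hc => h2 hc.2.2]
    · rw [if_neg h1, if_neg fun hc => h1 hc.2.1]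
  · rw [if_neg hτ, if_neg fun hc => hτ hc.1]

theorem chL_cL_univ (τ : ι → Fin 3) {L : List ι} (hn : L.Nodup) (hu : ∀ i, i ∈ L) :
    chL (D.cL τ L) = ∑ i, ((τ i : ℕ) : ℤ) * sg (D.sp i) := by
  have : ∀ l : List ι, chL (D.cL τ l) = (l.map fun i => ((τ i : ℕ) : ℤ) * sg (D.sp i)).sum := by
    intro l
    induction l with
    | nil => rfl
    | cons i l ih =>
      rw [SD.cL_cons', chL_append, chL_rep, ih, List.map_cons, List.sum_cons]
  rw [this]
  have hp : L.Perm (Finset.univ : Finset ι).toList :=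
    (List.perm_ext_iff_of_nodup hn (Finset.nodup_toList _)).2 fun i =>
      ⟨fun _ => by simp, fun _ => hu i⟩
  rw [(hp.map _).sum_eq, Finset.sum_map_toList]

theorem SD.Geom.smp (h : D.Geom act x y) (hκ : 0 < κ) {i : ι} (hi : act i) :
    Smp (D.pl act) κ x y (D.ci i) (D.p i) := by
  obtain ⟨σ, τ, S⟩ := h.exSG hκ hi
  intro g hg h0
  exact S.simple hg h0

end expand0

/-! ## two families of poles -/

section sum
variable {ι ε : Type*} [Fintype ι] [DecidableEq ι] [Fintype ε] [DecidableEq ε]

/-- two families of poles -/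
def SD.sum (D : SD ι) (E : SD ε) : SD (ι ⊕ ε) :=
  ⟨Sum.elim D.sp E.sp, Sum.elim D.p E.p, Sum.elim D.r E.r⟩

/-- the second family is present -/
def acS (ε : Type*) (act : ι → Prop) : ι ⊕ ε → Prop := Sum.elim act fun _ => True

instance decS (act : ι → Prop) [DecidablePred act] : DecidablePred (acS ε act)
  | .inl i => inferInstanceAs (Decidable (act i))
  | .inr _ => inferInstanceAs (Decidable True)

/-- one body data in the presence of the quanta at the simple poles -/
def SD.aU (E : SD ε) (υ : ε → Fin 3) (g : Bool → ℂ → ℂ) : Bool → ℂ → ℂ :=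
  fun s u => g s u * ∏ i, PP s (E.sp i) (u - E.p i) ^ (υ i : ℕ)

variable {D : SD ι} {E : SD ε} {act : ι → Prop} [DecidablePred act] {x y κ : ℝ}

theorem SD.cL_inr (τ : ι ⊕ ε → Fin 3) (L : List ε) :
    (D.sum E).cL τ (L.map Sum.inr) = E.cL (fun j => τ (.inr j)) L := by
  unfold SD.cL
  rw [List.flatMap_map]
  rfl

theorem SD.cL_inl (τ : ι ⊕ ε → Fin 3) (L : List ι) :
    (D.sum E).cL τ (L.map Sum.inl) = D.cL (fun j => τ (.inl j)) L := by
  unfold SD.cL
  rw [List.flatMap_map]
  rfl

theorem fS_map {ι ε : Type*} (f : ι → ε) (τ : ε → Fin 3) (L : List ι) :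
    fS (L.map f) τ = fS L fun j => τ (f j) := by
  unfold fS
  rw [List.map_map]
  rfl

theorem fS_one' {ι : Type*} {τ : ι → Fin 3} {L : List ι} (h : ∀ i, τ i ≠ 2) : fS L τ = 1 := by
  unfold fS
  refine List.prod_eq_one fun c hc => ?_
  obtain ⟨i, _, rfl⟩ := List.mem_map.1 hc
  rcases fin3_cases (τ i) with h0 | h0 | h0
  · rw [h0]
    simp
  · rw [h0]
    simp
  · exact absurd h0 (h i)

theorem SD.nn_sumS (s : Bool) (τ : ι ⊕ ε → Fin 3) : (D.sum E).nn s τ =
    D.nn s (fun i => τ (.inl i)) + E.nn s (fun j => τ (.inr j)) := by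
  unfold SD.nn
  rw [Finset.sum_filter, Fintype.sum_sum_type, Finset.sum_filter, Finset.sum_filter]
  rfl

theorem SD.expandS (h : (D.sum E).Geom (acS ε act) x y) (hκ : 0 < κ) (a a' : ℕ)
    {g : Bool → ℂ → ℂ}
    (hg : Reg ((D.sum E).pl (acS ε act)) κ x y (a * sg true + a' * sg false) g)
    (h0 : ∀ j, g (E.sp j) (E.p j) = 0) :
    ZZ ((D.sum E).pl (acS ε act)) x a a' g = ∑ υ : ε → Fin 3, ∑ τ : ι → Fin 3,
      if (∀ j, υ j ≠ 2) ∧ (∀ i, τ i ≠ 0 → act i) ∧ D.nn true τ + E.nn true υ ≤ a ∧
          D.nn false τ + E.nn false υ ≤ a' then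
        ((∏ j, E.om0 υ ((D.sum E).pl (acS ε act)) g j) * PU fun i j => E.pr0 υ i j) *
        ∫ θ : ι → ℝ, D.SW τ ((D.sum E).pl (acS ε act)) (E.aU υ g) θ *
          ZZ ((D.sum E).pl (acS ε act)) y (a - (D.nn true τ + E.nn true υ))
            (a' - (D.nn false τ + E.nn false υ)) (D.aS τ (E.aU υ g) θ)
          ∂(Measure.pi fun _ => mu1)
      else 0 := by
  classical
  have G := h.geo hκ
  have hcondS : ∀ j, E.CondS ((D.sum E).pl (acS ε act)) κ x y j := fun j =>
    { ok := (h.cond hκ (i := .inr j) trivial).ok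
      mem := SD.mem_pl.2 ⟨.inr j, trivial, rfl, rfl⟩
      smp := h.smp hκ (i := .inr j) trivial
      pair := (h.cond hκ (i := .inr j) trivial).pair }
  have hcond : ∀ i, act i → D.Cond ((D.sum E).pl (acS ε act)) κ x y i := fun i hi =>
    ⟨(h.cond hκ (i := .inl i) hi).ok, (h.cond hκ (i := .inl i) hi).mem,
      (h.cond hκ (i := .inl i) hi).pair⟩
  set pl := (D.sum E).pl (acS ε act) with hpl
  let e : Fin (Fintype.card ε) ≃ ε := (Fintype.equivFin ε).symm
  let Lε : List ε := List.ofFn fun k => e k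
  let L₀ : List ι := Finset.univ.toList
  have ndε : Lε.Nodup := List.nodup_ofFn.2 e.injective
  have nd0 : L₀.Nodup := Finset.nodup_toList _
  have unε : ∀ j, j ∈ Lε := fun j => (List.mem_ofFn' _ _).2 ⟨e.symm j, e.apply_symm_apply j⟩
  have un0 : ∀ i, i ∈ L₀ := fun i => by simp [L₀]
  have hnd : (Lε.map Sum.inr ++ L₀.map (Sum.inl : ι → ι ⊕ ε)).Nodup := by
    rw [List.nodup_append]
    refine ⟨ndε.map Sum.inr_injective, nd0.map Sum.inl_injective, ?_⟩
    intro c hc d hd hcd
    obtain ⟨j, _, rfl⟩ := List.mem_map.1 hc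
    obtain ⟨i, _, rfl⟩ := List.mem_map.1 hd
    exact Sum.inr_ne_inl hcd
  have hun : ∀ i : ι ⊕ ε, i ∈ Lε.map Sum.inr ++ L₀.map (Sum.inl : ι → ι ⊕ ε) := by
    rintro (i | j)
    · exact List.mem_append_right _ (List.mem_map_of_mem (un0 i))
    · exact List.mem_append_left _ (List.mem_map_of_mem (unε j))
  rw [h.expand0 hκ a a' hg hnd hun, ← (Equiv.sumArrowEquivProdArrow ι ε (Fin 3)).symm.sum_comp,
    Fintype.sum_prod_type_right]
  refine Finset.sum_congr rfl fun υ _ => Finset.sum_congr rfl fun τ _ => ?_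
  set T : ι ⊕ ε → Fin 3 := (Equiv.sumArrowEquivProdArrow ι ε (Fin 3)).symm (τ, υ) with hT
  have hTl : (fun i => T (.inl i)) = τ := rfl
  have hTr : (fun j => T (.inr j)) = υ := rfl
  have eact : (∀ i, T i ≠ 0 → acS ε act i) ↔ ∀ i, τ i ≠ 0 → act i := by
    constructor
    · intro h1 i hi
      exact h1 (.inl i) hi
    · rintro h1 (i | j) hi
      · exact h1 i hi
      · trivial
  simp only [SD.nn_sumS, hTl, hTr, eact]
  by_cases hc : (∀ i, τ i ≠ 0 → act i) ∧ D.nn true τ + E.nn true υ ≤ a ∧
      D.nn false τ + E.nn false υ ≤ a'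
  swap
  · rw [if_neg hc, if_neg fun h1 => hc h1.2]
  rw [if_pos hc, SD.cL_append, SD.cL_inr, SD.cL_inl, fS_append, fS_map, fS_map]
  simp only [hTl, hTr]
  obtain ⟨hτ, h1, h2⟩ := hc
  set R := List.replicate (a - (D.nn true τ + E.nn true υ)) (lineC true y) ++
    List.replicate (a' - (D.nn false τ + E.nn false υ)) (lineC false y) with hR
  have okR : ∀ z ∈ R, OkC pl κ x y z :=
    ok_app (ok_rep (h.line hκ true).2 _) (ok_rep (h.line hκ false).2 _)
  have okD : ∀ z ∈ D.cL τ L₀, OkC pl κ x y z := by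
    intro c hc
    unfold SD.cL at hc
    obtain ⟨j, hj, hz⟩ := List.mem_flatMap.1 hc
    obtain ⟨hn, hz⟩ := List.mem_replicate.1 hz
    rw [hz]
    refine (hcond j (hτ j ?_)).ok
    intro h0
    rw [h0] at hn
    exact hn rfl
  have hch : chL (E.cL υ Lε) + chL (D.cL τ L₀ ++ R) = a * sg true + a' * sg false := by
    have c2 := chL_cL_univ (D := E) υ ndε unε
    have c3 := chL_cL_univ (D := D) τ nd0 un0
    rw [chL_append, c2, c3, nn_sum, nn_sum, hR, chL_append, chL_replicate, chL_replicate]
    show (E.nn true υ : ℤ) * sg true + (E.nn false υ : ℤ) * sg false +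
      ((D.nn true τ : ℤ) * sg true + (D.nn false τ : ℤ) * sg false +
      (((a - (D.nn true τ + E.nn true υ) : ℕ) : ℤ) * sg true +
      ((a' - (D.nn false τ + E.nn false υ) : ℕ) : ℤ) * sg false)) = _
    push_cast [h1, h2]
    ring
  rw [List.append_assoc]
  by_cases h3 : ∀ j, υ j ≠ 2
  · rw [if_pos ⟨h3, hτ, h1, h2⟩, fS_one' h3, one_mul]
    obtain ⟨k1, k2⟩ := SD.eval0 (υ := υ) G (fun i _ => h3 i) (fun i (_ : i ∈ Lε) => hcondS i)
      (ok_app okD okR) g (by rw [hch]; exact hg) (fun i _ => h0 i)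
    rw [k1, show E.a0 υ Lε g = E.aU υ g from SD.a0_univ g e]
    rw [show E.a0 υ Lε g = E.aU υ g from SD.a0_univ g e, chL_append] at k2
    have k3 : SD.W0 E υ pl Lε g = (∏ j, E.om0 υ pl g j) * PU fun i j => E.pr0 υ i j := by
      refine SD.W0_univ h0 (fun i => ?_) (fun i j => ?_) h3 e
      · have := G.pin _ _ (hcondS i).mem
        exact hg.diff _ _ this.1 this.2
      · have a1 := G.pin _ _ (hcondS i).mem
        have a2 := G.pin _ _ (hcondS j).mem
        have a3 := G.wd
        rw [sub_re, abs_lt]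
        constructor <;> linarith [a1.1, a1.2, a2.1, a2.2]
    rw [k3]
    have ev := SD.eval (σ := τ) G nd0 un0 (fun i hi => hcond i (hτ i hi)) okR (E.aU υ g) k2
    have e5 : ∀ A B C F X : ℂ, A * B * (C * (F * X)) = F * (A * B * (C * X)) := by
      intro A B C F X
      ring
    rw [show (((a - (D.nn true τ + E.nn true υ)).factorial : ℕ) : ℂ)⁻¹ *
        (((a' - (D.nn false τ + E.nn false υ)).factorial : ℕ) : ℂ)⁻¹ *
        (fS L₀ τ * (((∏ j, E.om0 υ pl g j) * PU fun i j => E.pr0 υ i j) *
          NI pl (D.cL τ L₀ ++ R) (E.aU υ g))) =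
        ((∏ j, E.om0 υ pl g j) * PU fun i j => E.pr0 υ i j) *
        ((((a - (D.nn true τ + E.nn true υ)).factorial : ℕ) : ℂ)⁻¹ *
        (((a' - (D.nn false τ + E.nn false υ)).factorial : ℕ) : ℂ)⁻¹ *
        (fS L₀ τ * NI pl (D.cL τ L₀ ++ R) (E.aU υ g))) by ring, ev, ← integral_const_mul]
    congr 1
    refine integral_congr_ae (Eventually.of_forall fun θ => ?_)
    unfold ZZ
    simp only []
    ring
  · rw [if_neg fun hc => h3 hc.1]
    push Not at h3
    obtain ⟨j, hj⟩ := h3
    rw [SD.eval0_two G (unε j) hj (fun i (_ : i ∈ Lε) => hcondS i) (ok_app okD okR)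
      (by rw [hch]; exact hg) (h0 j)]
    ring

end sum

end NUP1S

end
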