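import Pool.Agent.NUP1S.Simple2
import Pool.Agent.NUP1S.ConfO

/-!
# Stage 3 with simple poles of the one body functions: exact formula

`HostX.exact`: the one body functions `GX es ep Gr s = Gr s / ∏ sin (u - ep j)` (`es j = s`) have
simple poles `ep j` between the lines `x` and `y`.  The gas on the line `x` is the sum over the
occupied simple poles (`υ j = 1`: one quantum exactly at `ep j`) of the sum over the satellites of
the strings of the gases on the line `y`.
-/

set_option autoImplicit false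
set_option linter.unusedSectionVars false

noncomputable section

open Complex MeasureTheory NUP1 Set Filter Topology
open scoped Real ENNReal

namespace NUP1S

open NUP1.Bd (cwz pwz qg chg sin_pos_of Ob)

/-! ## products over the poles -/

theorem prod_erase_ite {ι : Type*} [Fintype ι] [DecidableEq ι] (i : ι) (f : ι → ℂ) :
    ∏ j ∈ Finset.univ.erase i, f j = ∏ j, if j = i then 1 else f j := by
  rw [← Finset.mul_prod_erase Finset.univ _ (Finset.mem_univ i), if_pos rfl, one_mul]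
  refine Finset.prod_congr rfl fun j hj => ?_
  rw [if_neg (Finset.ne_of_mem_erase hj)]

section pl
variable {ι : Type*} [Fintype ι] [DecidableEq ι] {D : SD ι} {act : ι → Prop} [DecidablePred act]
  {x y κ : ℝ}

theorem SD.Geom.injOn (h : D.Geom act x y) (s : Bool) :
    Set.InjOn D.p (Finset.univ.filter fun i => act i ∧ D.sp i = s : Finset ι) := by
  intro i hi j hj hij
  have hi := (Finset.mem_filter.1 hi).2
  have hj := (Finset.mem_filter.1 hj).2
  exact h.inj hi.1 hj.1 (hi.2.trans hj.2.symm) hij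

theorem SD.Geom.prod_pl (h : D.Geom act x y) (s : Bool) (F : ℂ → ℂ) :
    ∏ p ∈ D.pl act s, F p = ∏ i, if act i ∧ D.sp i = s then F (D.p i) else 1 := by
  unfold SD.pl
  rw [Finset.prod_image (h.injOn s), Finset.prod_filter]

theorem SD.Geom.card_pl (h : D.Geom act x y) (s : Bool) :
    ((D.pl act s).card : ℝ) = ∑ i, if act i ∧ D.sp i = s then 1 else 0 := by
  unfold SD.pl
  rw [Finset.card_image_of_injOn (h.injOn s), Finset.card_filter]
  push_cast
  rfl

theorem SD.Geom.prod_pl_erase (h : D.Geom act x y) {i : ι} (hi : act i) (F : ℂ → ℂ) :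
    ∏ p ∈ (D.pl act (D.sp i)).erase (D.p i), F p =
      ∏ j, if j = i then 1 else if act j ∧ D.sp j = D.sp i then F (D.p j) else 1 := by
  have e : (D.pl act (D.sp i)).erase (D.p i) =
      ((Finset.univ.filter fun j => act j ∧ D.sp j = D.sp i).erase i).image D.p := by
    ext p
    rw [Finset.mem_erase, SD.mem_pl]
    simp only [Finset.mem_image, Finset.mem_erase, Finset.mem_filter, Finset.mem_univ, true_and]
    constructor
    · rintro ⟨h2, b, h3, h4, h5⟩
      refine ⟨b, ⟨?_, h3, h4⟩, h5⟩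
      rintro rfl
      exact h2 h5.symm
    · rintro ⟨b, ⟨h2, h3, h4⟩, h5⟩
      refine ⟨?_, b, h3, h4, h5⟩
      rintro rfl
      exact h2 (h.inj h3 hi h4 h5)
  have e2 : (Finset.univ.filter fun j => act j ∧ D.sp j = D.sp i).erase i =
      (Finset.univ.erase i).filter fun j => act j ∧ D.sp j = D.sp i := by
    ext b
    simp only [Finset.mem_erase, Finset.mem_filter, Finset.mem_univ, true_and, and_true]
  rw [e, Finset.prod_image, e2, Finset.prod_filter, prod_erase_ite]
  intro b hb c hc hbc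
  exact h.injOn (D.sp i) (Finset.mem_of_mem_erase hb) (Finset.mem_of_mem_erase hc) hbc

end pl

/-! ## fixed objects and simple poles -/

variable {ι ε : Type*} [Fintype ι] [DecidableEq ι] [Fintype ε] [DecidableEq ε]

/-- the simple poles -/
def EE (es : ε → Bool) (ep : ε → ℂ) (r : ℝ) : SD ε := ⟨es, ep, fun _ => r⟩

/-- fixed objects and simple poles of the one body functions -/
structure HostX (o : ι → CO) (z : ι → ℂ) (ρ : ι → ℝ) (act : ι → Prop) (es : ε → Bool)
    (ep : ε → ℂ) (x y : ℝ) : Prop extends Host o z ρ act x y where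
  xlo : ∀ j, x < (ep j).re
  xhi : ∀ j, (ep j).re < y
  xsep : ∀ i j, act i → (o i).1 ≠ es j → ρ i < |(z i).re + 2 * l - (ep j).re|
  xx : ∀ j k, j ≠ k → es j = es k → (ep j).re ≠ (ep k).re

variable {o : ι → CO} {z : ι → ℂ} {ρ : ι → ℝ} {act : ι → Prop} [DecidablePred act] {x y κ : ℝ}
  {es : ε → Bool} {ep : ε → ℂ} {Gr : Bool → ℂ → ℂ}

theorem HostX.exists_r (h : HostX o z ρ act es ep x y) :
    ∃ r : ℝ, ((DD o z ρ).sum (EE es ep r)).Geom (acS ε act) x y := by
  have ev : ∀ {c : ℝ}, 0 < c → ∀ᶠ r in 𝓝[>] (0 : ℝ), r < c := fun hc =>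
    mem_nhdsWithin_of_mem_nhds (Iio_mem_nhds hc)
  have e0 : ∀ᶠ r in 𝓝[>] (0 : ℝ), 0 < r := eventually_mem_nhdsWithin
  have e1 : ∀ᶠ r in 𝓝[>] (0 : ℝ), ∀ j, r < (ep j).re - x :=
    eventually_all.2 fun j => ev (by linarith [h.xlo j])
  have e2 : ∀ᶠ r in 𝓝[>] (0 : ℝ), ∀ j, r < y - (ep j).re :=
    eventually_all.2 fun j => ev (by linarith [h.xhi j])
  have e3 : ∀ᶠ r in 𝓝[>] (0 : ℝ), ∀ i j, act i → (o i).1 ≠ es j →
      r < |(z i).re + 2 * l - (ep j).re| - ρ i := by
    refine eventually_all.2 fun i => eventually_all.2 fun j => ?_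
    by_cases h1 : act i ∧ (o i).1 ≠ es j
    · refine (ev (show 0 < |(z i).re + 2 * l - (ep j).re| - ρ i by
        linarith [h.xsep i j h1.1 h1.2])).mono fun r hr _ _ => hr
    · exact Eventually.of_forall fun r h2 h3 => absurd ⟨h2, h3⟩ h1
  have e4 : ∀ᶠ r in 𝓝[>] (0 : ℝ), ∀ j k, j ≠ k → es j = es k →
      r < |(ep j).re - (ep k).re| / 2 := by
    refine eventually_all.2 fun j => eventually_all.2 fun k => ?_
    by_cases h1 : j ≠ k ∧ es j = es k
    · refine (ev (show 0 < |(ep j).re - (ep k).re| / 2 by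
        have := abs_pos.2 (sub_ne_zero.2 (h.xx j k h1.1 h1.2))
        linarith)).mono fun r hr _ _ => hr
    · exact Eventually.of_forall fun r h2 h3 => absurd ⟨h2, h3⟩ h1
  obtain ⟨r, r0, r1, r2, r3, r4⟩ := (e0.and (e1.and (e2.and (e3.and e4)))).exists
  have hg := h.geom
  have hsp : ∀ i j, (!(o i).1) = es j → (o i).1 ≠ es j := fun i j hij => by
    rw [← hij]
    cases (o i).1 <;> simp
  refine ⟨r, ⟨h.xy, h.wd, ?_, ?_, ?_, ?_⟩⟩
  · rintro (i | j) hi
    · exact hg.r0 i hi
    · exact r0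
  · rintro (i | j) hi
    · exact hg.lo i hi
    · show x < (ep j).re - r
      linarith [r1 j]
  · rintro (i | j) hi
    · exact hg.hi i hi
    · show (ep j).re + r < y
      linarith [r2 j]
  · have e5 : ∀ i : ι, (z i + 2 * l).re = (z i).re + 2 * l := fun i => by simp
    rintro (i | j) (i' | k) hi hj hne hs
    · exact hg.sep i i' hi hj (fun h => hne (congrArg _ h)) hs
    · show ρ i + r < |(z i + 2 * l).re - (ep k).re|
      rw [e5]
      have := r3 i k hi (hsp i k hs)
      linarith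
    · show r + ρ i' < |(ep j).re - (z i' + 2 * l).re|
      rw [e5, abs_sub_comm]
      have := r3 i' j hj (hsp i' j hs.symm)
      linarith
    · show r + r < |(ep j).re - (ep k).re|
      have := r4 j k (fun h => hne (congrArg _ h)) hs
      linarith

/-- denominator of the one body function of species `s` -/
def dX (es : ε → Bool) (ep : ε → ℂ) (s : Bool) (u : ℂ) : ℂ :=
  ∏ j, if es j = s then sin (u - ep j) else 1

/-- one body functions with simple poles -/
def GX (es : ε → Bool) (ep : ε → ℂ) (Gr : Bool → ℂ → ℂ) (s : Bool) (u : ℂ) : ℂ :=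
  Gr s u / dX es ep s u

/-- one body functions in the presence of the quanta at the simple poles -/
def GU (es : ε → Bool) (ep : ε → ℂ) (υ : ε → Fin 3) (G : Bool → ℂ → ℂ) (s : Bool) (u : ℂ) : ℂ :=
  G s u * ∏ j, PP s (es j) (u - ep j) ^ (υ j : ℕ)

/-- denominator of the residue at the pole `j` -/
def dE (es : ε → Bool) (ep : ε → ℂ) (j : ε) : ℂ :=
  ∏ k, if k = j then 1 else if es k = es j then sin (ep j - ep k) else 1

/-- number of the quanta of species `s` at the simple poles -/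
def nE (es : ε → Bool) (s : Bool) (υ : ε → Fin 3) : ℕ :=
  ∑ j ∈ Finset.univ.filter (fun j => es j = s), (υ j : ℕ)

/-- number of the simple poles of species `s` -/
def cE (es : ε → Bool) (s : Bool) : ℝ := ∑ j, if es j = s then 1 else 0

/-- residue of the one body function at the pole `j` -/
def res (es : ε → Bool) (ep : ε → ℂ) (Gr : Bool → ℂ → ℂ) (j : ε) : ℂ :=
  Gr (es j) (ep j) / dE es ep j

/-- weight of the quanta at the simple poles, without the objects -/
def wE (es : ε → Bool) (ep : ε → ℂ) (υ : ε → Fin 3) (Gr : Bool → ℂ → ℂ) : ℂ :=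
  (∏ j, if υ j = 1 then -res es ep Gr j else 1) *
    PU fun j k => PP (es j) (es k) (ep j - ep k) ^ ((υ j : ℕ) * (υ k : ℕ))

/-- interaction of the quanta at the simple poles with the object `b` -/
def oE (es : ε → Bool) (ep : ε → ℂ) (υ : ε → Fin 3) (o : CO) (w : ℂ) : ℂ :=
  ∏ j, gz (es j, .A) o (ep j - w) ^ (υ j : ℕ)

/-- the regular part -/
def gX (o : ι → CO) (z : ι → ℂ) (act : ι → Prop) [DecidablePred act] (es : ε → Bool) (ep : ε → ℂ)
    (Gr : Bool → ℂ → ℂ) (s : Bool) (u : ℂ) : ℂ := dX es ep s u * gr o z act Gr s u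

section geo
variable {r : ℝ} (hG : ((DD o z ρ).sum (EE es ep r)).Geom (acS ε act) x y)
include hG

theorem prod_plX (h : Host o z ρ act x y) (s : Bool) (F : ℂ → ℂ) :
    ∏ p ∈ ((DD o z ρ).sum (EE es ep r)).pl (acS ε act) s, F p =
      (∏ p ∈ (DD o z ρ).pl act s, F p) * ∏ j, if es j = s then F (ep j) else 1 := by
  rw [hG.prod_pl, h.geom.prod_pl, Fintype.prod_sum_type]
  congr 1
  refine Finset.prod_congr rfl fun j _ => ?_
  have e : (acS ε act (Sum.inr j) ∧ ((DD o z ρ).sum (EE es ep r)).sp (Sum.inr j) = s) ↔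
      es j = s := ⟨fun h => h.2, fun h => ⟨trivial, h⟩⟩
  simp only [e]
  rfl

theorem prod_plX_inl (h : Host o z ρ act x y) {i : ι} (hi : act i) (F : ℂ → ℂ) :
    ∏ p ∈ (((DD o z ρ).sum (EE es ep r)).pl (acS ε act) (!(o i).1)).erase (z i + 2 * l), F p =
      (∏ p ∈ ((DD o z ρ).pl act (!(o i).1)).erase (z i + 2 * l), F p) *
        ∏ j, if es j = (!(o i).1) then F (ep j) else 1 := by
  have h1 := hG.prod_pl_erase (i := .inl i) hi F
  have h2 := h.geom.prod_pl_erase hi F
  refine h1.trans ?_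
  rw [Fintype.prod_sum_type, show ∏ p ∈ ((DD o z ρ).pl act (!(o i).1)).erase (z i + 2 * l), F p =
    _ from h2]
  congr 1
  · refine Finset.prod_congr rfl fun j _ => ?_
    simp only [Sum.inl.injEq]
    rfl
  · refine Finset.prod_congr rfl fun j _ => ?_
    have e : (acS ε act (Sum.inr j) ∧ ((DD o z ρ).sum (EE es ep r)).sp (Sum.inr j) =
      ((DD o z ρ).sum (EE es ep r)).sp (Sum.inl i)) ↔ es j = (!(o i).1) :=
        ⟨fun h => h.2, fun h => ⟨trivial, h⟩⟩
    rw [if_neg Sum.inr_ne_inl]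
    simp only [e]
    rfl

theorem prod_plX_inr (h : Host o z ρ act x y) (j : ε) (F : ℂ → ℂ) :
    ∏ p ∈ (((DD o z ρ).sum (EE es ep r)).pl (acS ε act) (es j)).erase (ep j), F p =
      (∏ p ∈ (DD o z ρ).pl act (es j), F p) *
        ∏ k, if k = j then 1 else if es k = es j then F (ep k) else 1 := by
  have h1 := hG.prod_pl_erase (i := .inr j) trivial F
  refine h1.trans ?_
  rw [Fintype.prod_sum_type, h.geom.prod_pl]
  congr 1
  · refine Finset.prod_congr rfl fun k _ => ?_
    have e : (acS ε act (Sum.inr k) ∧ ((DD o z ρ).sum (EE es ep r)).sp (Sum.inr k) =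
      ((DD o z ρ).sum (EE es ep r)).sp (Sum.inr j)) ↔ es k = es j :=
        ⟨fun h => h.2, fun h => ⟨trivial, h⟩⟩
    simp only [Sum.inr.injEq, e]
    rfl

theorem card_plX (h : Host o z ρ act x y) (s : Bool) :
    ((((DD o z ρ).sum (EE es ep r)).pl (acS ε act) s).card : ℝ) =
      ((DD o z ρ).pl act s).card + cE es s := by
  rw [hG.card_pl, h.geom.card_pl, Fintype.sum_sum_type]
  unfold cE
  congr 1
  refine Finset.sum_congr rfl fun j _ => ?_
  have e : (acS ε act (Sum.inr j) ∧ ((DD o z ρ).sum (EE es ep r)).sp (Sum.inr j) = s) ↔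
      es j = s := ⟨fun h => h.2, fun h => ⟨trivial, h⟩⟩
  simp only [e]

theorem prod_sq_dX (s : Bool) (u : ℂ) :
    ∏ j, (if es j = s then sin (u - ep j) ^ 2 else 1) = dX es ep s u ^ 2 := by
  unfold dX
  rw [← Finset.prod_pow]
  refine Finset.prod_congr rfl fun j _ => ?_
  split_ifs <;> simp

omit hG in
theorem div_sq' (a b c d : ℂ) : a * b / (c * a ^ 2) * d = (1 / a) * (b / c) * d := by
  by_cases h : a = 0
  · simp [h]
  · congr 1
    by_cases hc : c = 0
    · simp [hc]
    · field_simp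

/-- the field with simple poles -/
theorem Wt_gX (h : Host o z ρ act x y) (s : Bool) {u : ℂ} (h1 : x ≤ u.re) (h2 : u.re ≤ y) :
    Wt (((DD o z ρ).sum (EE es ep r)).pl (acS ε act)) (gX o z act es ep Gr) s u =
      Hf0 o z (GX es ep Gr) s u := by
  have e := h.Wt_gr (G := Gr) s h1 h2
  unfold Wt at e ⊢
  rw [prod_plX hG h, prod_sq_dX hG]
  unfold gX
  have e2 := div_sq' (dX es ep s u) (gr o z act Gr s u)
    (∏ p ∈ (DD o z ρ).pl act s, sin (u - p) ^ 2) 1
  rw [mul_one, mul_one] at e2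
  rw [e2, e]
  unfold Hf0 GX
  ring

theorem Wt_aU (h : Host o z ρ act x y) (υ : ε → Fin 3) (s : Bool) {u : ℂ} (h1 : x ≤ u.re)
    (h2 : u.re ≤ y) :
    Wt (((DD o z ρ).sum (EE es ep r)).pl (acS ε act))
      ((EE es ep r).aU υ (gX o z act es ep Gr)) s u =
      Hf0 o z (GU es ep υ (GX es ep Gr)) s u := by
  have e := Wt_gX (Gr := Gr) hG h s h1 h2
  have e2 : Hf0 o z (GU es ep υ (GX es ep Gr)) s u = Hf0 o z (GX es ep Gr) s u *
      ∏ j, PP s (es j) (u - ep j) ^ (υ j : ℕ) := by
    unfold Hf0 GU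
    ring
  rw [e2, ← e]
  unfold Wt SD.aU
  rw [div_mul_eq_mul_div]
  rfl

theorem rg_aU (h : Host o z ρ act x y) (υ : ε → Fin 3) {i : ι} (hi : act i) :
    rg (((DD o z ρ).sum (EE es ep r)).pl (acS ε act))
      ((EE es ep r).aU υ (gX o z act es ep Gr)) (!(o i).1) (z i + 2 * l) =
      GU es ep υ (GX es ep Gr) (!(o i).1) (z i + 2 * l) * (1 / sin (5 * l) ^ 2) *
        ∏ b ∈ Finset.univ.erase i, gz (!(o i).1, .A) (o b) (z i + 2 * l - z b) := by
  have e := h.rg_gr (G := Gr) hi
  unfold rg at e ⊢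
  rw [prod_plX_inl hG h hi, prod_sq_dX hG]
  have e2 := div_sq' (dX es ep (!(o i).1) (z i + 2 * l)) (gr o z act Gr (!(o i).1) (z i + 2 * l))
    (∏ p ∈ ((DD o z ρ).pl act (!(o i).1)).erase (z i + 2 * l), sin (z i + 2 * l - p) ^ 2)
    (∏ j, PP (!(o i).1) (es j) (z i + 2 * l - ep j) ^ (υ j : ℕ))
  have e3 : (EE es ep r).aU υ (gX o z act es ep Gr) (!(o i).1) (z i + 2 * l) /
      ((∏ p ∈ ((DD o z ρ).pl act (!(o i).1)).erase (z i + 2 * l), sin (z i + 2 * l - p) ^ 2) *
        dX es ep (!(o i).1) (z i + 2 * l) ^ 2) =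
      dX es ep (!(o i).1) (z i + 2 * l) * gr o z act Gr (!(o i).1) (z i + 2 * l) /
      ((∏ p ∈ ((DD o z ρ).pl act (!(o i).1)).erase (z i + 2 * l), sin (z i + 2 * l - p) ^ 2) *
        dX es ep (!(o i).1) (z i + 2 * l) ^ 2) *
      ∏ j, PP (!(o i).1) (es j) (z i + 2 * l - ep j) ^ (υ j : ℕ) := by
    unfold SD.aU gX
    rw [div_mul_eq_mul_div]
    rfl
  rw [e3, e2, e]
  unfold GU GX
  ring

theorem SW_aU (h : Host o z ρ act x y) (υ : ε → Fin 3) {τ : ι → Fin 3}
    (hτ : ∀ i, τ i ≠ 0 → act i) (θ : ι → ℝ) :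
    (DD o z ρ).SW τ (((DD o z ρ).sum (EE es ep r)).pl (acS ε act))
      ((EE es ep r).aU υ (gX o z act es ep Gr)) θ =
      SWf o z ρ (GU es ep υ (GX es ep Gr)) τ θ := by
  unfold SD.SW SWf
  congr 1
  refine Finset.prod_congr rfl fun i _ => ?_
  unfold SD.om omf
  by_cases h0 : τ i = 0
  · rw [if_pos h0, if_pos h0]
  · have hi := hτ i h0
    rw [if_neg h0, if_neg h0]
    by_cases h1 : τ i = 1
    · rw [if_pos h1, if_pos h1]
      show -cM 0 (ρ i) (θ i) * Wt _ ((EE es ep r).aU υ (gX o z act es ep Gr)) (!(o i).1)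
        (cM (z i + 2 * l) (ρ i) (θ i)) = _
      rw [Wt_aU hG h υ _ (h.circ_re hi _).1 (h.circ_re hi _).2]
    · rw [if_neg h1, if_neg h1]
      show kp * rg _ ((EE es ep r).aU υ (gX o z act es ep Gr)) (!(o i).1) (z i + 2 * l) ^ 2 = _
      rw [rg_aU hG h υ hi]
      rfl

theorem Wt_aSX (h : Host o z ρ act x y) (υ : ε → Fin 3) (τ : ι → Fin 3) (θ : ι → ℝ) (s : Bool)
    {u : ℂ} (h1 : x ≤ u.re) (h2 : u.re ≤ y) :
    Wt (((DD o z ρ).sum (EE es ep r)).pl (acS ε act))
      ((DD o z ρ).aS τ ((EE es ep r).aU υ (gX o z act es ep Gr)) θ) s u =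
      Hfs o z ρ (GU es ep υ (GX es ep Gr)) τ θ s u := by
  unfold Hfs
  rw [← Wt_aU hG h υ s h1 h2]
  unfold Wt SD.aS
  rw [div_mul_eq_mul_div]
  rfl

/-- residue at a simple pole -/
theorem rs_gX (h : Host o z ρ act x y)
    (hd : ∀ s, ∀ u : ℂ, x ≤ u.re → u.re ≤ y → DifferentiableAt ℂ (Gr s) u) (j : ε) :
    rs (((DD o z ρ).sum (EE es ep r)).pl (acS ε act)) (gX o z act es ep Gr) (es j) (ep j) =
      res es ep Gr j * ∏ b, gz (es j, .A) (o b) (ep j - z b) := by
  classical
  have hj : x ≤ (ep j).re ∧ (ep j).re ≤ y := by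
    have h1 := hG.re_lt (i := .inr j) trivial
    exact ⟨h1.1.le, h1.2.le⟩
  have hgd : DifferentiableAt ℂ (gr o z act Gr (es j)) (ep j) := by
    unfold gr
    refine (hd (es j) (ep j) hj.1 hj.2).mul ?_
    refine DifferentiableAt.fun_finsetProd fun b _ => ?_
    exact (h.diff_gR (es j) b hj.1 hj.2).comp (ep j) (differentiableAt_id.sub_const _)
  -- the rest of the denominator
  set R : ℂ → ℂ := fun u => ∏ k ∈ Finset.univ.erase j, if es k = es j then sin (u - ep k) else 1
    with hR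
  have hRd : DifferentiableAt ℂ R (ep j) := by
    rw [hR]
    refine DifferentiableAt.fun_finsetProd fun k _ => ?_
    split_ifs
    · fun_prop
    · fun_prop
  have eR : R (ep j) = dE es ep j := by
    rw [hR]
    unfold dE
    exact prod_erase_ite j _
  have eX : ∀ u, dX es ep (es j) u = sin (u - ep j) * R u := by
    intro u
    unfold dX
    rw [← Finset.mul_prod_erase Finset.univ _ (Finset.mem_univ j), if_pos rfl]
  have dsin : HasDerivAt (fun u => sin (u - ep j)) 1 (ep j) := by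
    simpa using ((hasDerivAt_id (ep j)).sub_const (ep j)).csin
  have d1 : HasDerivAt (gX o z act es ep Gr (es j))
      (dE es ep j * gr o z act Gr (es j) (ep j)) (ep j) := by
    have h1 := ((dsin.mul hRd.hasDerivAt).mul hgd.hasDerivAt).congr_of_eventuallyEq
      (f₁ := gX o z act es ep Gr (es j)) (Eventually.of_forall fun u => by
        show dX es ep (es j) u * gr o z act Gr (es j) u = _
        rw [eX]
        rfl)
    refine h1.congr_deriv ?_
    show (1 * R (ep j) + sin (ep j - ep j) * deriv R (ep j)) * gr o z act Gr (es j) (ep j) +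
      sin (ep j - ep j) * R (ep j) * deriv (gr o z act Gr (es j)) (ep j) = _
    rw [sub_self, sin_zero, eR]
    ring
  unfold rs
  rw [d1.deriv, prod_plX_inr hG h j]
  have e4 : (∏ k, if k = j then 1 else if es k = es j then sin (ep j - ep k) ^ 2 else 1) =
      dE es ep j ^ 2 := by
    unfold dE
    rw [← Finset.prod_pow]
    refine Finset.prod_congr rfl fun k _ => ?_
    split_ifs <;> simp
  rw [e4]
  have e5 := h.Wt_gr (G := Gr) (es j) hj.1 hj.2
  unfold Wt Hf0 at e5
  have e2 := div_sq' (dE es ep j) (gr o z act Gr (es j) (ep j))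
    (∏ p ∈ (DD o z ρ).pl act (es j), sin (ep j - p) ^ 2) 1
  rw [mul_one, mul_one] at e2
  rw [e2, e5]
  unfold res
  ring

/-- the regular part is regular -/
theorem reg_gX (h : Host o z ρ act x y) (q0 : ℤ) (hm : ∀ s, Measurable (Gr s))
    (hd : ∀ s, ∀ u : ℂ, x ≤ u.re → u.re ≤ y → DifferentiableAt ℂ (Gr s) u)
    (hb : ∀ s, DecOn (κ + 2 * (sg s * q0 : ℤ) - cE es s) (Icc x y) (Gr s)) {Q : ℤ}
    (hQ : (Q : ℝ) + ∑ b, sc (o b) = q0) :
    Reg (((DD o z ρ).sum (EE es ep r)).pl (acS ε act)) κ x y Q (gX o z act es ep Gr) where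
  meas s := by
    unfold gX gr
    refine Measurable.mul ?_ ((hm s).mul (Finset.measurable_prod _ fun b _ => ?_))
    · unfold dX
      refine Finset.measurable_prod _ fun j _ => ?_
      split_ifs
      · fun_prop
      · fun_prop
    · exact (measurable_gR s b).comp (measurable_id.sub_const _)
  diff s u h1 h2 := by
    unfold gX gr
    refine DifferentiableAt.mul ?_ ((hd s u h1 h2).mul ?_)
    · unfold dX
      refine DifferentiableAt.fun_finsetProd fun j _ => ?_
      split_ifs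
      · fun_prop
      · fun_prop
    · refine DifferentiableAt.fun_finsetProd fun b _ => ?_
      exact (h.diff_gR s b h1 h2).comp u (differentiableAt_id.sub_const _)
  bd := by
    have h0 : ∀ s, Bdd (Icc x y) (cE es s) (dX es ep s) := by
      intro s
      unfold cE dX
      refine bdd_prod fun j => ?_
      by_cases hj : es j = s
      · simp only [if_pos hj]
        refine Bdd.translate ?_
        simpa using bdd_sin ((fun v => v + -(ep j).re) '' Icc x y) 0
      · simp only [if_neg hj]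
        exact Bdd.const _ 1
    have h1 : ∀ s, Bdd (Icc x y) (∑ b, rR o act s b) fun u => ∏ b, gR o act s b (u - z b) :=
      fun s => bdd_prod fun b => (h.bdd_gR s b).translate
    have h2 : ∀ s, ∑ b, rR o act s b =
        -(2 * (sg s * Q : ℤ) - 2 * (sg s * q0 : ℤ) - 2 * ((DD o z ρ).pl act s).card) := by
      intro s
      unfold rR rt
      rw [Finset.sum_add_distrib, ← Finset.mul_sum, ← Finset.mul_sum, sc_sA, h.card_pl s]
      have e : (∑ b, if act b ∧ (o b).1 ≠ s then (2 : ℝ) else 0) =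
          2 * ∑ b, if act b ∧ (o b).1 ≠ s then (1 : ℝ) else 0 := by
        rw [Finset.mul_sum]
        refine Finset.sum_congr rfl fun b _ => ?_
        split_ifs <;> norm_num
      rw [e, show ∑ b, sc (o b) = q0 - (Q : ℝ) by linarith]
      push_cast
      ring
    have hb' : ∀ s, Bdd (Icc x y) (-(κ + 2 * (sg s * q0 : ℤ) - cE es s)) (Gr s) := by
      intro s
      obtain ⟨C, hC⟩ := hb s
      refine ⟨|C|, abs_nonneg _, fun u hu => (hC u hu).trans ?_⟩
      rw [neg_mul]
      exact mul_le_mul_of_nonneg_right (le_abs_self _) (Real.exp_pos _).le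
    have h3 : ∀ s, Bdd (Icc x y) (-(κ + 2 * ((sg s * Q : ℤ) : ℝ) -
        2 * (((DD o z ρ).sum (EE es ep r)).pl (acS ε act) s).card)) (gX o z act es ep Gr s) := by
      intro s
      refine Bdd.rate ((h0 s).mul ((hb' s).mul (h1 s))) ?_
      rw [h2 s, card_plX hG h s]
      ring
    choose C hC h3 using h3
    refine ⟨C true + C false, add_nonneg (hC _) (hC _), fun s u a1 a2 => ?_⟩
    refine (h3 s u ⟨a1, a2⟩).trans ?_
    rw [neg_mul]
    refine mul_le_mul_of_nonneg_right ?_ (Real.exp_pos _).le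
    cases s
    · exact le_add_of_nonneg_left (hC _)
    · exact le_add_of_nonneg_right (hC _)

end geo

theorem Reg.aU {pl : Bool → Finset ℂ} {a b : ℝ} (Ge : Geo pl κ a b) {E : SD ε}
    {υ : ε → Fin 3} (hc : ∀ j, a ≤ (E.p j).re ∧ (E.p j).re ≤ b) {Q : ℤ} {g : Bool → ℂ → ℂ}
    (h : Reg pl κ a b Q g) :
    Reg pl κ a b (Q - (E.nn true υ * sg true + E.nn false υ * sg false)) (E.aU υ g) := by
  have hcm : ∀ (p : ℂ) (t : ℝ), cM p 0 t = p := fun p t => by simp [cM]
  have e0 : ∀ j, (⟨E.sp, E.p, fun _ => 0⟩ : SD ε).c υ (fun _ => 0) j = E.p j := by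
    intro j
    unfold SD.c
    split_ifs
    · exact hcm _ _
    · rfl
  have h1 := Reg.aS (D := (⟨E.sp, E.p, fun _ => 0⟩ : SD ε)) (τ := υ) (θ := fun _ => 0) Ge
    (fun j _ => by rw [e0]; exact hc j) h
  rw [nn_sum] at h1
  have e1 : (⟨E.sp, E.p, fun _ => 0⟩ : SD ε).aS υ g (fun _ => 0) = E.aU υ g := by
    funext s u
    unfold SD.aS SD.aU
    refine congrArg _ (Finset.prod_congr rfl fun j _ => ?_)
    rw [e0]
  rw [e1] at h1
  exact h1

/-- **Stage 3 with simple poles, exact formula.** -/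
theorem HostX.exact (h : HostX o z ρ act es ep x y) (hκ : 0 < κ) (q0 : ℤ)
    (hm : ∀ s, Measurable (Gr s))
    (hd : ∀ s, ∀ u : ℂ, x ≤ u.re → u.re ≤ y → DifferentiableAt ℂ (Gr s) u)
    (hb : ∀ s, DecOn (κ + 2 * (sg s * q0 : ℤ) - cE es s) (Icc x y) (Gr s)) (a a' : ℕ)
    (hQ : (a : ℝ) - a' + ∑ b, sc (o b) = q0) :
    gas a a' x (Hf0 o z (GX es ep Gr) true) (Hf0 o z (GX es ep Gr) false) =
      ∑ υ : ε → Fin 3, ∑ τ : ι → Fin 3,
      if (∀ j, υ j ≠ 2) ∧ (∀ i, τ i ≠ 0 → act i) ∧ nsat o true τ + nE es true υ ≤ a ∧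
          nsat o false τ + nE es false υ ≤ a' then
        (wE es ep υ Gr * ∏ b, oE es ep υ (o b) (z b)) *
        ∫ θ : ι → ℝ, SWf o z ρ (GU es ep υ (GX es ep Gr)) τ θ *
          gas (a - (nsat o true τ + nE es true υ)) (a' - (nsat o false τ + nE es false υ)) y
            (Hfs o z ρ (GU es ep υ (GX es ep Gr)) τ θ true)
            (Hfs o z ρ (GU es ep υ (GX es ep Gr)) τ θ false)
          ∂(Measure.pi fun _ => volume.restrict (Ioc (0 : ℝ) 1))
      else 0 := by
  obtain ⟨r, hG⟩ := h.exists_r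
  have hh := h.toHost
  have Ge := hG.geo hκ
  set pl' := ((DD o z ρ).sum (EE es ep r)).pl (acS ε act) with hpl
  have hg : Reg pl' κ x y (a * sg true + a' * sg false) (gX o z act es ep Gr) := by
    refine reg_gX hG hh q0 hm hd hb ?_
    rw [← hQ]
    simp [sg]
    ring
  have hzero : ∀ j, gX o z act es ep Gr (es j) (ep j) = 0 := by
    intro j
    unfold gX dX
    rw [Finset.prod_eq_zero (Finset.mem_univ j) (by rw [if_pos rfl, sub_self, sin_zero]), zero_mul]
  rw [gas_eq_ZZ Ge x (fun s => (hG.line hκ s).1) a a' hg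
    (fun u hu => (Wt_gX hG hh true hu.ge (hu.le.trans h.xy.le)).symm)
    (fun u hu => (Wt_gX hG hh false hu.ge (hu.le.trans h.xy.le)).symm),
    SD.expandS hG hκ a a' hg hzero]
  refine Finset.sum_congr rfl fun υ _ => Finset.sum_congr rfl fun τ _ => ?_
  have e1 : ∀ s, (DD o z ρ).nn s τ = nsat o s τ := fun _ => rfl
  have e2 : ∀ s, (EE es ep r).nn s υ = nE es s υ := fun _ => rfl
  rw [e1, e1, e2, e2]
  split_ifs with hc
  · obtain ⟨h2, hτ, h3, h4⟩ := hc
    have ew : (∏ j, (EE es ep r).om0 υ pl' (gX o z act es ep Gr) j) *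
        (PU fun i j => (EE es ep r).pr0 υ i j) =
        wE es ep υ Gr * ∏ b, oE es ep υ (o b) (z b) := by
      unfold wE oE
      rw [Finset.prod_comm, mul_right_comm, ← Finset.prod_mul_distrib]
      congr 1
      refine Finset.prod_congr rfl fun j _ => ?_
      unfold SD.om0
      rcases fin3_cases (υ j) with h0 | h0 | h0
      · rw [if_neg (by rw [h0]; decide), if_neg (by rw [h0]; decide), h0]
        simp
      · rw [if_pos h0, if_pos h0, h0]
        simp only [Fin.val_one, pow_one]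
        show -rs pl' (gX o z act es ep Gr) (es j) (ep j) = _
        rw [rs_gX hG hh hd j]
        ring
      · exact absurd h0 (h2 j)
    rw [ew]
    congr 1
    refine integral_congr_ae (Eventually.of_forall fun θ => ?_)
    simp only []
    rw [SW_aU hG hh υ hτ θ]
    congr 1
    symm
    refine gas_eq_ZZ Ge y (fun s => (hG.line hκ s).2) _ _ ?_
      (fun u hu => (Wt_aSX hG hh υ τ θ true (h.xy.le.trans hu.ge) hu.le).symm)
      (fun u hu => (Wt_aSX hG hh υ τ θ false (h.xy.le.trans hu.ge) hu.le).symm)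
    have h5 := Reg.aU (E := EE es ep r) (υ := υ) Ge
      (fun j => ⟨(h.xlo j).le, (h.xhi j).le⟩) hg
    have h6 := Reg.aS (D := DD o z ρ) (τ := τ) (θ := θ) Ge (fun i hi => ?_) h5
    · convert h6 using 1
      rw [nn_sum, e1, e1, e2, e2]
      push_cast [h3, h4]
      ring
    · have hi' := hτ i hi
      unfold SD.c
      split_ifs
      · exact hh.circ_re hi' _
      · have := hh.geom.re_lt hi'
        exact ⟨this.1.le, this.2.le⟩
  · rfl

open Ab (Part ppC potG WW ppC_single ppC_cons PU_two PU_mul PU_congr)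

theorem Fg_oE (hf : ι → ℂ → ℂ) (υ : ε → Fin 3) :
    Fg o hf z * ∏ b, oE es ep υ (o b) (z b) =
      Fg o (fun i w => hf i w * oE es ep υ (o i) w) z := by
  unfold Fg
  rw [Finset.prod_mul_distrib]
  ring

/-- **Stage 3 with simple poles, moduli.** -/
theorem HostX.norm (h : HostX o z ρ act es ep x y) (hκ : 0 < κ) (q0 : ℤ)
    (hm : ∀ s, Measurable (Gr s))
    (hd : ∀ s, ∀ u : ℂ, x ≤ u.re → u.re ≤ y → DifferentiableAt ℂ (Gr s) u)
    (hb : ∀ s, DecOn (κ + 2 * (sg s * q0 : ℤ) - cE es s) (Icc x y) (Gr s)) (a a' : ℕ)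
    (hQ : (a : ℝ) - a' + ∑ b, sc (o b) = q0) (hf : ι → ℂ → ℂ) :
    ‖Fg o hf z * gas a a' x (Hf0 o z (GX es ep Gr) true) (Hf0 o z (GX es ep Gr) false)‖ₑ ≤
      ∑ υ : ε → Fin 3, ∑ τ : ι → Fin 3,
      if (∀ j, υ j ≠ 2) ∧ (∀ i, τ i ≠ 0 → act i) ∧ nsat o true τ + nE es true υ ≤ a ∧
          nsat o false τ + nE es false υ ≤ a' then
        ‖wE es ep υ Gr‖ₑ *
        ∫⁻ θ : ι → ℝ, ENNReal.ofReal (WW (fun i => ‖hf i (z i) * oE es ep υ (o i) (z i) *
              om0 o z ρ (GU es ep υ (GX es ep Gr)) τ θ i‖) (cc o z ρ τ θ)) *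
          ‖gas (a - (nsat o true τ + nE es true υ)) (a' - (nsat o false τ + nE es false υ)) y
            (fun u => GU es ep υ (GX es ep Gr) true u * potG (cc o z ρ τ θ) true u)
            (fun u => GU es ep υ (GX es ep Gr) false u * potG (cc o z ρ τ θ) false u)‖ₑ
          ∂(Measure.pi fun _ => volume.restrict (Ioc (0 : ℝ) 1))
      else 0 := by
  rw [h.exact hκ q0 hm hd hb a a' hQ, Finset.mul_sum]
  refine (enorm_sum_le _ _).trans (Finset.sum_le_sum fun υ _ => ?_)
  rw [Finset.mul_sum]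
  refine (enorm_sum_le _ _).trans (Finset.sum_le_sum fun τ _ => ?_)
  by_cases hc : (∀ j, υ j ≠ 2) ∧ (∀ i, τ i ≠ 0 → act i) ∧ nsat o true τ + nE es true υ ≤ a ∧
      nsat o false τ + nE es false υ ≤ a'
  · rw [if_pos hc, if_pos hc]
    set G := GU es ep υ (GX es ep Gr) with hGd
    have e1 : ∀ I : ℂ, Fg o hf z * ((wE es ep υ Gr * ∏ b, oE es ep υ (o b) (z b)) * I) =
        wE es ep υ Gr * (Fg o (fun i w => hf i w * oE es ep υ (o i) w) z * I) := by
      intro I
      rw [← Fg_oE]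
      ring
    rw [e1, enorm_mul]
    refine mul_le_mul_right (a := ‖wE es ep υ Gr‖ₑ) ?_
    rw [← integral_const_mul]
    refine (enorm_integral_le_lintegral_enorm _).trans (lintegral_mono fun θ => ?_)
    have e : ∀ s, Hfs o z ρ G τ θ s = fun u => G s u * potG (cc o z ρ τ θ) s u := fun s => by
      funext u
      exact field_eq o z ρ G τ θ s u
    rw [← norm_weight o z ρ G τ θ (fun i w => hf i w * oE es ep υ (o i) w), ofReal_norm, ← e true,
      ← e false, ← enorm_mul]
    refine le_of_eq ?_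
    congr 1
    ring
  · rw [if_neg hc, if_neg hc, mul_zero, enorm_zero]

end NUP1S

end
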